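import Pool.Agent.Run7.h294.G16
import Pool.Agent.H318R2.Cr.Prod

set_option autoImplicit false
set_option linter.unusedSectionVars false

/-! # Linear forms in the residue classes modulo a primorial -/

namespace Run7.h294.D

open Finset Filter Run7.h294.G

open scoped Classical

lemma totient_ratio {d n : ℕ} (hd : d ∣ n) (hn : 0 < n) : n.totient * d ≤ d.totient * n := by
  have h1 := Nat.totient_eq_mul_prod_factors n
  have h2 := Nat.totient_eq_mul_prod_factors d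
  have hsub : d.primeFactors ⊆ n.primeFactors := Nat.primeFactors_mono hd hn.ne'
  have h3 : (∏ p ∈ n.primeFactors, (1 - (p : ℚ)⁻¹)) ≤ ∏ p ∈ d.primeFactors, (1 - (p : ℚ)⁻¹) := by
    rw [← Finset.prod_sdiff hsub]
    have h4 : ∀ p ∈ n.primeFactors, 0 ≤ (1 - (p : ℚ)⁻¹) ∧ (1 - (p : ℚ)⁻¹) ≤ 1 := by
      intro p hp
      have hp1 : (1:ℚ) ≤ p := by exact_mod_cast (Nat.prime_of_mem_primeFactors hp).one_lt.le
      have : (p : ℚ)⁻¹ ≤ 1 := inv_le_one_of_one_le₀ hp1
      have h0 : 0 ≤ (p : ℚ)⁻¹ := by positivity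
      constructor <;> linarith
    have h5 : (∏ p ∈ n.primeFactors \ d.primeFactors, (1 - (p : ℚ)⁻¹)) ≤ 1 :=
      Finset.prod_le_one (fun p hp => (h4 p (Finset.sdiff_subset hp)).1)
        (fun p hp => (h4 p (Finset.sdiff_subset hp)).2)
    have h6 : 0 ≤ ∏ p ∈ d.primeFactors, (1 - (p : ℚ)⁻¹) :=
      Finset.prod_nonneg fun p hp => (h4 p (hsub hp)).1
    exact mul_le_of_le_one_left h6 h5
  have h7 : ((n.totient : ℚ) * d) ≤ (d.totient : ℚ) * n := by
    rw [h1, h2]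
    have hn0 : (0:ℚ) ≤ n := Nat.cast_nonneg _
    have hd0 : (0:ℚ) ≤ d := Nat.cast_nonneg _
    calc (n:ℚ) * (∏ p ∈ n.primeFactors, (1 - (p : ℚ)⁻¹)) * d
        ≤ n * (∏ p ∈ d.primeFactors, (1 - (p : ℚ)⁻¹)) * d := by gcongr
      _ = _ := by ring
  exact_mod_cast h7

/-- the number of the classes `b` modulo `W` in which the form `q n + a` is coprime to `W` -/
lemma form_count {W : ℕ} (hW : Squarefree W) {q : ℕ} (hq : 1 ≤ q) {a : ℤ}
    (hqa : IsCoprime (q : ℤ) a) :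
    (((Finset.range W).filter (fun b : ℕ => IsCoprime ((q : ℤ) * b + a) (W : ℤ))).card : ℝ) ≤
      2 * (W.totient : ℝ) * ((q : ℝ) / q.totient) := by
  have hW0 : 0 < W := Nat.pos_of_ne_zero hW.ne_zero
  obtain ⟨W₁, hW1⟩ : ∃ W₁, W₁ = Nat.gcd W q := ⟨_, rfl⟩
  obtain ⟨W₂, hW2⟩ : W₁ ∣ W := by rw [hW1]; exact Nat.gcd_dvd_left _ _
  have hW1q : W₁ ∣ q := by rw [hW1]; exact Nat.gcd_dvd_right _ _
  have hW1pos : 0 < W₁ := by rw [hW1]; exact Nat.gcd_pos_of_pos_left _ hW0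
  have hW2pos : 0 < W₂ := by
    rcases Nat.eq_zero_or_pos W₂ with h | h
    · rw [h, Nat.mul_zero] at hW2; omega
    · exact h
  have hsq : Squarefree (W₁ * W₂) := hW2 ▸ hW
  have hcop12 : Nat.Coprime W₁ W₂ := Nat.coprime_of_squarefree_mul hsq
  have hcopq : Nat.Coprime q W₂ := by
    have h1 : Nat.gcd q W₂ ∣ W₁ := by
      rw [hW1]
      apply Nat.dvd_gcd
      · exact (Nat.gcd_dvd_right _ _).trans (Dvd.intro_left W₁ hW2.symm)
      · exact Nat.gcd_dvd_left _ _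
    have h2 : Nat.gcd q W₂ ∣ Nat.gcd W₁ W₂ := Nat.dvd_gcd h1 (Nat.gcd_dvd_right _ _)
    rw [hcop12] at h2
    exact Nat.dvd_one.1 h2
  obtain ⟨u, v, huv⟩ := Nat.isCoprime_iff_coprime.2 hcopq
  have hW2z : (0:ℤ) < W₂ := by exact_mod_cast hW2pos
  obtain ⟨s, hs⟩ : ∃ s : ℕ, s = ((u * a) % (W₂ : ℤ)).toNat := ⟨_, rfl⟩
  have hsz : (s : ℤ) = (u * a) % (W₂ : ℤ) := by
    rw [hs, Int.toNat_of_nonneg (Int.emod_nonneg _ hW2z.ne')]
  have hmaps : ∀ b ∈ (Finset.range W).filter (fun b : ℕ => IsCoprime ((q : ℤ) * b + a) (W : ℤ)),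
      b + s ∈ (Finset.Ico s (s + W)).filter (fun x => W₂.Coprime x) := by
    intro b hb
    rw [Finset.mem_filter, Finset.mem_range] at hb
    rw [Finset.mem_filter, Finset.mem_Ico]
    refine ⟨⟨by omega, by omega⟩, ?_⟩
    have h1 : IsCoprime ((q : ℤ) * b + a) (W₂ : ℤ) :=
      hb.2.of_isCoprime_of_dvd_right (by exact_mod_cast (Dvd.intro_left W₁ hW2.symm))
    have hu : IsCoprime u (W₂ : ℤ) := ⟨q, v, by linarith⟩
    have h2 : IsCoprime (u * ((q : ℤ) * b + a)) (W₂ : ℤ) := hu.mul_left h1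
    have h3 : ((b + s : ℕ) : ℤ) = u * ((q : ℤ) * b + a) + (W₂ : ℤ) * (v * b - (u * a) / W₂) := by
      have e1 := Int.emod_add_mul_ediv (u * a) (W₂ : ℤ)
      push_cast
      rw [hsz]
      have e2 : (b : ℤ) = (u * q + v * W₂) * b := by rw [huv, one_mul]
      calc (b : ℤ) + u * a % (W₂ : ℤ) = (u * q + v * W₂) * b + u * a % (W₂ : ℤ) := by rw [← e2]
        _ = _ := by linear_combination e1
    have h4 : IsCoprime ((b + s : ℕ) : ℤ) (W₂ : ℤ) := by
      rw [h3]
      exact (IsCoprime.add_mul_left_left_iff).2 h2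
    exact (Nat.isCoprime_iff_coprime.1 h4).symm
  have hcard := Finset.card_le_card_of_injOn (fun b => b + s) hmaps (fun a _ b _ h => by
    simpa using h)
  have h5 := Nat.Ico_filter_coprime_le (a := W₂) s W hW2pos.ne'
  have h6 : W / W₂ = W₁ := by rw [hW2]; exact Nat.mul_div_cancel _ hW2pos
  rw [h6] at h5
  have h7 : W₂.totient * (W₁ + 1) ≤ 2 * (W₁ * W₂.totient) := by
    have : W₂.totient * 1 ≤ W₂.totient * W₁ := Nat.mul_le_mul_left _ hW1pos
    linarith
  have h8 : W.totient = W₁.totient * W₂.totient := by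
    rw [hW2]; exact Nat.totient_mul hcop12
  have h9 := totient_ratio hW1q hq
  have hφq : 0 < q.totient := Nat.totient_pos.2 hq
  have h10 : (((Finset.range W).filter (fun b : ℕ =>
      IsCoprime ((q : ℤ) * b + a) (W : ℤ))).card : ℝ) ≤ 2 * ((W₁ : ℝ) * W₂.totient) := by
    exact_mod_cast hcard.trans (h5.trans h7)
  have h11 : (q.totient : ℝ) * W₁ ≤ W₁.totient * q := by exact_mod_cast h9
  have hφq' : (0:ℝ) < q.totient := by exact_mod_cast hφq
  refine h10.trans ?_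
  rw [h8]
  push_cast
  have h12 : (W₁ : ℝ) ≤ W₁.totient * ((q : ℝ) / q.totient) := by
    rw [← mul_div_assoc, le_div_iff₀ hφq']
    linarith
  have h13 : (0:ℝ) ≤ W₂.totient := Nat.cast_nonneg _
  calc 2 * ((W₁ : ℝ) * W₂.totient) ≤
        2 * ((W₁.totient * ((q : ℝ) / q.totient)) * W₂.totient) := by gcongr
    _ = _ := by ring

lemma primorial_squarefree (y : ℕ) : Squarefree (primorial y) := by
  unfold primorial
  refine Finset.squarefree_prod_of_pairwise_isCoprime ?_ ?_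
  · intro p hp q hq hpq
    rw [Finset.mem_coe, Finset.mem_filter] at hp hq
    exact Nat.coprime_iff_isRelPrime.mp ((Nat.coprime_primes hp.2 hq.2).2 hpq)
  · intro p hp
    rw [Finset.mem_filter] at hp
    exact hp.2.prime.squarefree

lemma primorial_totient : ∃ C : ℝ, 0 < C ∧ ∀ y : ℕ, 2 ≤ y →
    ((primorial y).totient : ℝ) ≤ C * (primorial y : ℝ) / Real.log y := by
  obtain ⟨c₁, c₂, h1, h2, h⟩ := Pool.Agent.H318R2.Cr.cz_bounds
  refine ⟨c₂, by linarith, fun y hy => ?_⟩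
  have hy' : (1:ℝ) < y := by exact_mod_cast hy
  have hlog : 0 < Real.log y := Real.log_pos hy'
  rw [le_div_iff₀ hlog]
  have h3 := (h y hy).2
  have h4 : ((primorial y).totient : ℝ) = (primorial y : ℝ) * Pool.Agent.H318R2.Cr.V y := by
    have h5 := Nat.totient_eq_mul_prod_factors (primorial y)
    have h6 : (primorial y).primeFactors = Pool.Agent.H318R2.Cr.Pz y := by
      unfold primorial Pool.Agent.H318R2.Cr.Pz
      rw [Nat.primeFactors_prod (fun p hp => (Finset.mem_filter.1 hp).2)]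
      ext p
      simp only [Finset.mem_filter, Finset.mem_range, Finset.mem_Ioc]
      constructor
      · rintro ⟨h7, h8⟩
        exact ⟨⟨h8.pos, by omega⟩, h8⟩
      · rintro ⟨⟨h7, h8⟩, h9⟩
        exact ⟨by omega, h9⟩
    rw [h6] at h5
    have h7 : ((((primorial y).totient : ℚ)) : ℝ) =
        (((primorial y : ℚ) * ∏ p ∈ Pool.Agent.H318R2.Cr.Pz y, (1 - (p : ℚ)⁻¹) : ℚ) : ℝ) := by
      rw [h5]
    push_cast at h7
    unfold Pool.Agent.H318R2.Cr.V
    rw [h7]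
    congr 1
    apply Finset.prod_congr rfl
    intro p _
    rw [one_div]
  rw [h4]
  have h5 : (0:ℝ) ≤ (primorial y : ℝ) := Nat.cast_nonneg _
  nlinarith

/-- the classes in which few forms are coprime to `W` -/
lemma good_classes {W : ℕ} (hW : Squarefree W) (T : Finset (ℕ × ℤ))
    (hT : ∀ t ∈ T, 1 ≤ t.1 ∧ IsCoprime (t.1 : ℤ) t.2) {B M : ℝ} (hB : 0 < B)
    (hM : ∑ t ∈ T, (t.1 : ℝ) / t.1.totient ≤ M) (hWB : 4 * (W.totient : ℝ) * M ≤ W * B) :
    (W : ℝ) / 2 ≤ (((Finset.range W).filter (fun b : ℕ =>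
      ((T.filter (fun t => IsCoprime ((t.1 : ℤ) * b + t.2) (W : ℤ))).card : ℝ) ≤ B)).card : ℝ) := by
  set G := (Finset.range W).filter (fun b : ℕ =>
      ((T.filter (fun t => IsCoprime ((t.1 : ℤ) * b + t.2) (W : ℤ))).card : ℝ) ≤ B) with hG
  set G' := (Finset.range W).filter (fun b : ℕ =>
      ¬ ((T.filter (fun t => IsCoprime ((t.1 : ℤ) * b + t.2) (W : ℤ))).card : ℝ) ≤ B) with hG'
  have h1 : G.card + G'.card = W := by
    have := Finset.card_filter_add_card_filter_not (s := Finset.range W) (fun b : ℕ =>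
      ((T.filter (fun t => IsCoprime ((t.1 : ℤ) * b + t.2) (W : ℤ))).card : ℝ) ≤ B)
    rw [Finset.card_range] at this
    exact this
  have h2 : (∑ b ∈ Finset.range W,
      ((T.filter (fun t => IsCoprime ((t.1 : ℤ) * b + t.2) (W : ℤ))).card : ℝ)) ≤
      2 * (W.totient : ℝ) * M := by
    have e1 : (∑ b ∈ Finset.range W,
      ((T.filter (fun t => IsCoprime ((t.1 : ℤ) * b + t.2) (W : ℤ))).card : ℝ)) =
      ∑ t ∈ T, (((Finset.range W).filter (fun b : ℕ =>
        IsCoprime ((t.1 : ℤ) * b + t.2) (W : ℤ))).card : ℝ) := by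
      have : ∀ b : ℕ, ((T.filter (fun t => IsCoprime ((t.1 : ℤ) * b + t.2) (W : ℤ))).card : ℝ) =
          ∑ t ∈ T, if IsCoprime ((t.1 : ℤ) * b + t.2) (W : ℤ) then (1:ℝ) else 0 := by
        intro b
        rw [Finset.sum_boole]
      rw [Finset.sum_congr rfl (fun b _ => this b), Finset.sum_comm]
      refine Finset.sum_congr rfl fun t _ => ?_
      rw [Finset.sum_boole]
    rw [e1]
    calc ∑ t ∈ T, (((Finset.range W).filter (fun b : ℕ =>
        IsCoprime ((t.1 : ℤ) * b + t.2) (W : ℤ))).card : ℝ)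
        ≤ ∑ t ∈ T, 2 * (W.totient : ℝ) * ((t.1 : ℝ) / t.1.totient) :=
          Finset.sum_le_sum fun t ht => form_count hW (hT t ht).1 (hT t ht).2
      _ = 2 * (W.totient : ℝ) * ∑ t ∈ T, (t.1 : ℝ) / t.1.totient := by rw [Finset.mul_sum]
      _ ≤ _ := mul_le_mul_of_nonneg_left hM (by positivity)
  have h3 : (G'.card : ℝ) * B ≤ ∑ b ∈ Finset.range W,
      ((T.filter (fun t => IsCoprime ((t.1 : ℤ) * b + t.2) (W : ℤ))).card : ℝ) := by
    calc (G'.card : ℝ) * B = ∑ b ∈ G', B := by rw [Finset.sum_const, nsmul_eq_mul]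
      _ ≤ ∑ b ∈ G', ((T.filter (fun t => IsCoprime ((t.1 : ℤ) * b + t.2) (W : ℤ))).card : ℝ) := by
          refine Finset.sum_le_sum fun b hb => ?_
          rw [hG', Finset.mem_filter] at hb
          exact (not_le.1 hb.2).le
      _ ≤ _ := Finset.sum_le_sum_of_subset_of_nonneg (Finset.filter_subset _ _)
          (fun b _ _ => Nat.cast_nonneg _)
  have h4 : (G'.card : ℝ) * B ≤ (W / 2) * B := by
    have : 2 * (W.totient : ℝ) * M ≤ W / 2 * B := by linarith
    linarith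
  have h5 : (G'.card : ℝ) ≤ W / 2 := le_of_mul_le_mul_right h4 hB
  have h6 : (G.card : ℝ) + G'.card = W := by exact_mod_cast h1
  linarith

end Run7.h294.D
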