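import Pool.Agent.Run7.h294.H3
import Pool.Agent.Run7.h294.D1

set_option autoImplicit false
set_option linter.unusedSectionVars false

/-! # Linear forms: virtual shifts and the engine in one class -/

namespace Run7.h294.D

open Finset Filter Run7.h294.G Run7.h294.H Pool.Agent.H256R2.SC

open scoped Classical

/-- some prime at most `P` divides the value at `n` of every form of `T` -/
def Cov (P : ℝ) (T : Finset (ℕ × ℤ)) (n : ℤ) : Prop :=
  ∀ t ∈ T, ∃ p : ℕ, p.Prime ∧ (p : ℝ) ≤ P ∧ (p : ℤ) ∣ (t.1 : ℤ) * n + t.2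

/-- the determinant of two forms -/
def dt (t t' : ℕ × ℤ) : ℤ := t.2 * t'.1 - t'.2 * t.1

lemma dt_ne {t t' : ℕ × ℤ} (h1 : 1 ≤ t.1) (c1 : IsCoprime (t.1 : ℤ) t.2)
    (c2 : IsCoprime (t'.1 : ℤ) t'.2) (hne : t ≠ t') : dt t t' ≠ 0 := by
  intro h
  unfold dt at h
  have e : t.2 * t'.1 = t'.2 * t.1 := by linarith
  have d1 : (t.1 : ℤ) ∣ t'.1 := by
    have : (t.1 : ℤ) ∣ t.2 * t'.1 := by rw [e]; exact Dvd.intro_left _ rfl
    exact c1.dvd_of_dvd_mul_left this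
  have d2 : (t'.1 : ℤ) ∣ t.1 := by
    have : (t'.1 : ℤ) ∣ t'.2 * t.1 := by rw [← e]; exact Dvd.intro_left _ rfl
    exact c2.dvd_of_dvd_mul_left this
  have e1 : t.1 = t'.1 := Nat.dvd_antisymm (by exact_mod_cast d1) (by exact_mod_cast d2)
  rw [← e1] at e
  have h0 : (t.1 : ℤ) ≠ 0 := by
    have : 0 < t.1 := h1
    exact_mod_cast this.ne'
  have e2 : t.2 = t'.2 := mul_right_cancel₀ h0 e
  exact hne (Prod.ext e1 e2)

/-- the dilation -/
lemma dilation (T : Finset (ℕ × ℤ)) (hT : ∀ t ∈ T, 1 ≤ t.1) (W R : ℕ) (hW : 1 ≤ W) :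
    ∃ h : ℕ, 1 ≤ h ∧ h ≤ T.card * T.card * (R * R) + 1 ∧ ∀ i < R, ∀ j < R, i ≠ j → ∀ t ∈ T,
      ∀ t' ∈ T, (t.1 : ℤ) * t'.1 * (((i * (W * h) : ℕ) : ℤ) - ((j * (W * h) : ℕ) : ℤ)) +
        dt t t' ≠ 0 := by
  set F : Finset ℕ := ((T ×ˢ T) ×ˢ (Finset.range R ×ˢ Finset.range R)).image (fun x =>
    ((-(dt x.1.1 x.1.2)) / ((x.1.1.1 : ℤ) * x.1.2.1 * W * ((x.2.1 : ℤ) - x.2.2))).toNat) with hF
  have hFc : F.card ≤ T.card * T.card * (R * R) := by
    refine Finset.card_image_le.trans ?_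
    rw [Finset.card_product, Finset.card_product, Finset.card_product, Finset.card_range]
  have hex : ∃ h ∈ Finset.Icc 1 (T.card * T.card * (R * R) + 1), h ∉ F := by
    by_contra hc
    push Not at hc
    have h1 : Finset.Icc 1 (T.card * T.card * (R * R) + 1) ⊆ F := hc
    have h2 := Finset.card_le_card h1
    rw [Nat.card_Icc] at h2
    omega
  obtain ⟨h, hh, hhF⟩ := hex
  rw [Finset.mem_Icc] at hh
  refine ⟨h, hh.1, hh.2, ?_⟩
  intro i hi j hj hij t ht t' ht' he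
  apply hhF
  rw [hF, Finset.mem_image]
  refine ⟨((t, t'), (i, j)), ?_, ?_⟩
  · rw [Finset.mem_product, Finset.mem_product, Finset.mem_product]
    exact ⟨⟨ht, ht'⟩, Finset.mem_range.2 hi, Finset.mem_range.2 hj⟩
  · simp only
    have h1 := hT t ht
    have h2 := hT t' ht'
    have hne : (t.1 : ℤ) * t'.1 * W * ((i : ℤ) - j) ≠ 0 := by
      have a1 : (t.1 : ℤ) ≠ 0 := by exact_mod_cast (by omega : t.1 ≠ 0)
      have a2 : (t'.1 : ℤ) ≠ 0 := by exact_mod_cast (by omega : t'.1 ≠ 0)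
      have a3 : (W : ℤ) ≠ 0 := by exact_mod_cast (by omega : W ≠ 0)
      have a4 : (i : ℤ) - j ≠ 0 := by
        intro h0
        apply hij
        omega
      exact mul_ne_zero (mul_ne_zero (mul_ne_zero a1 a2) a3) a4
    have e : -(dt t t') = (t.1 : ℤ) * t'.1 * W * ((i : ℤ) - j) * h := by
      push_cast at he
      linear_combination (-1 : ℤ) * he
    rw [e, Int.mul_ediv_cancel_left _ hne]
    simp

/-- virtual shifts -/
lemma virt (PP : Finset ℕ) (hP : ∀ p ∈ PP, p.Prime) (t : ℕ × ℤ) (hq : ∀ p ∈ PP, ¬ p ∣ t.1) :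
    ∃ α : ℤ, ∀ p ∈ PP, (p : ℤ) ∣ (t.1 : ℤ) * α - t.2 := by
  have hc : Nat.Coprime t.1 (∏ p ∈ PP, p) := by
    apply Nat.Coprime.prod_right
    intro p hp
    exact ((Nat.Prime.coprime_iff_not_dvd (hP p hp)).2 (hq p hp)).symm
  obtain ⟨u, v, huv⟩ := Nat.isCoprime_iff_coprime.2 hc
  refine ⟨t.2 * u, fun p hp => ?_⟩
  have h1 : (p : ℤ) ∣ ((∏ p ∈ PP, p : ℕ) : ℤ) := by
    exact_mod_cast Finset.dvd_prod_of_mem _ hp
  have h2 : (t.1 : ℤ) * (t.2 * u) - t.2 = ((∏ p ∈ PP, p : ℕ) : ℤ) * (-(t.2 * v)) := by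
    linear_combination t.2 * huv
  rw [h2]
  exact h1.mul_right _

/-- the primes which divide a coefficient or a determinant -/
noncomputable def badN (T : Finset (ℕ × ℤ)) : ℕ :=
  (∏ t ∈ T, t.1) * ∏ x ∈ T.offDiag, (dt x.1 x.2).natAbs

lemma badN_ne {T : Finset (ℕ × ℤ)} (hT : ∀ t ∈ T, 1 ≤ t.1 ∧ IsCoprime (t.1 : ℤ) t.2) :
    badN T ≠ 0 := by
  unfold badN
  refine mul_ne_zero ?_ ?_
  · rw [Finset.prod_ne_zero_iff]
    intro t ht
    have := (hT t ht).1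
    omega
  · rw [Finset.prod_ne_zero_iff]
    intro x hx
    rw [Finset.mem_offDiag] at hx
    exact Int.natAbs_ne_zero.2 (dt_ne (hT _ hx.1).1 (hT _ hx.1).2 (hT _ hx.2.1).2 hx.2.2)

lemma badN_coef {T : Finset (ℕ × ℤ)} {t : ℕ × ℤ} (ht : t ∈ T) {p : ℕ} (h : p ∣ t.1) :
    p ∣ badN T := by
  unfold badN
  exact (h.trans (Finset.dvd_prod_of_mem (fun t : ℕ × ℤ => t.1) ht)).mul_right _

lemma badN_det {T : Finset (ℕ × ℤ)} {t t' : ℕ × ℤ} (ht : t ∈ T) (ht' : t' ∈ T) (hne : t ≠ t')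
    {p : ℕ} (h : (p : ℤ) ∣ dt t t') : p ∣ badN T := by
  unfold badN
  have h1 : p ∣ (dt t t').natAbs := Int.natCast_dvd.1 h
  have h2 : (t, t') ∈ T.offDiag := Finset.mem_offDiag.2 ⟨ht, ht', hne⟩
  exact (h1.trans (Finset.dvd_prod_of_mem (fun x : (ℕ × ℤ) × (ℕ × ℤ) => (dt x.1 x.2).natAbs)
    h2)).mul_left _

lemma primeFactors_card_le {n : ℕ} (hn : n ≠ 0) {B : ℝ} (hB : (n : ℝ) ≤ Real.exp B) :
    (n.primeFactors.card : ℝ) ≤ 2 * B := by
  have h1 : 2 ^ n.primeFactors.card ≤ n := by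
    calc 2 ^ n.primeFactors.card = ∏ p ∈ n.primeFactors, 2 := by
          rw [Finset.prod_const]
      _ ≤ ∏ p ∈ n.primeFactors, p := Finset.prod_le_prod' fun p hp =>
          (Nat.prime_of_mem_primeFactors hp).two_le
      _ ≤ n := Nat.le_of_dvd (Nat.pos_of_ne_zero hn) (Nat.prod_primeFactors_dvd n)
  have h2 : ((2:ℝ)) ^ n.primeFactors.card ≤ Real.exp B := by
    refine le_trans ?_ hB
    exact_mod_cast h1
  have h3 := Real.log_le_log (by positivity) h2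
  rw [Real.log_exp, Real.log_pow] at h3
  have h4 : (1:ℝ) / 2 ≤ Real.log 2 := by
    have := Real.log_two_gt_d9
    linarith
  have h5 : (0:ℝ) ≤ n.primeFactors.card := Nat.cast_nonneg _
  nlinarith

lemma dt_abs {t t' : ℕ × ℤ} {Y : ℝ} (h1 : (t.1 : ℝ) ≤ Y) (h2 : |(t.2 : ℝ)| ≤ Y)
    (h3 : (t'.1 : ℝ) ≤ Y) (h4 : |(t'.2 : ℝ)| ≤ Y) : |((dt t t' : ℤ) : ℝ)| ≤ 2 * Y ^ 2 := by
  have hY : 0 ≤ Y := (Nat.cast_nonneg _).trans h1
  unfold dt
  push_cast
  have a1 : |(t.2 : ℝ) * t'.1| ≤ Y * Y := by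
    rw [abs_mul]
    have : |(t'.1 : ℝ)| = t'.1 := abs_of_nonneg (Nat.cast_nonneg _)
    rw [this]
    exact mul_le_mul h2 h3 (Nat.cast_nonneg _) hY
  have a2 : |(t'.2 : ℝ) * t.1| ≤ Y * Y := by
    rw [abs_mul]
    have : |(t.1 : ℝ)| = t.1 := abs_of_nonneg (Nat.cast_nonneg _)
    rw [this]
    exact mul_le_mul h4 h1 (Nat.cast_nonneg _) hY
  calc |(t.2 : ℝ) * t'.1 - t'.2 * t.1| ≤ |(t.2 : ℝ) * t'.1| + |(t'.2 : ℝ) * t.1| := abs_sub _ _
    _ ≤ 2 * Y ^ 2 := by rw [sq]; linarith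

lemma badN_le {T : Finset (ℕ × ℤ)} (hT : ∀ t ∈ T, 1 ≤ t.1 ∧ IsCoprime (t.1 : ℤ) t.2) {B : ℝ}
    (hB : 1 ≤ B)
    (h1 : ∀ t ∈ T, (t.1 : ℝ) ≤ Real.exp B) (h2 : ∀ t ∈ T, |(t.2 : ℝ)| ≤ Real.exp B) :
    (badN T : ℝ) ≤ Real.exp (3 * B * (T.card : ℝ) ^ 2) := by
  have e1 : (∏ t ∈ T, (t.1 : ℝ)) ≤ Real.exp (3 * B) ^ T.card := by
    rw [← Finset.prod_const]
    refine Finset.prod_le_prod (fun t _ => Nat.cast_nonneg _) fun t ht => ?_
    refine (h1 t ht).trans (Real.exp_le_exp.mpr (by linarith))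
  have e2 : (∏ x ∈ T.offDiag, (((dt x.1 x.2).natAbs : ℕ) : ℝ)) ≤
      Real.exp (3 * B) ^ T.offDiag.card := by
    rw [← Finset.prod_const]
    refine Finset.prod_le_prod (fun t _ => Nat.cast_nonneg _) fun x hx => ?_
    rw [Finset.mem_offDiag] at hx
    have a1 : (((dt x.1 x.2).natAbs : ℕ) : ℝ) = |((dt x.1 x.2 : ℤ) : ℝ)| := by
      rw [← Int.cast_abs, Int.abs_eq_natAbs]
      simp
    rw [a1]
    refine (dt_abs (h1 _ hx.1) (h2 _ hx.1) (h1 _ hx.2.1) (h2 _ hx.2.1)).trans ?_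
    have a2 : Real.exp (3 * B) = Real.exp B * Real.exp B ^ 2 := by
      rw [← Real.exp_nat_mul, ← Real.exp_add]; congr 1; push_cast; ring
    rw [a2]
    have a3 : 2 ≤ Real.exp B := by
      have := Real.add_one_le_exp B
      linarith
    gcongr
  unfold badN
  push_cast
  have e3 : (∏ x ∈ T.offDiag, |((dt x.1 x.2 : ℤ) : ℝ)|) =
      (∏ x ∈ T.offDiag, (((dt x.1 x.2).natAbs : ℕ) : ℝ)) := by
    refine Finset.prod_congr rfl fun x _ => ?_
    rw [← Int.cast_abs, Int.abs_eq_natAbs]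
    simp
  have e4 : (∏ t ∈ T, (t.1 : ℝ)) * (∏ x ∈ T.offDiag, (((dt x.1 x.2).natAbs : ℕ) : ℝ)) ≤
      Real.exp (3 * B) ^ T.card * Real.exp (3 * B) ^ T.offDiag.card :=
    mul_le_mul e1 e2 (Finset.prod_nonneg fun _ _ => Nat.cast_nonneg _) (by positivity)
  have e5 : Real.exp (3 * B) ^ T.card * Real.exp (3 * B) ^ T.offDiag.card =
      Real.exp (3 * B * (T.card : ℝ) ^ 2) := by
    rw [← pow_add, Finset.offDiag_card]
    have : T.card + (T.card * T.card - T.card) = T.card * T.card := by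
      have := Nat.le_mul_self T.card
      omega
    rw [this, ← Real.exp_nat_mul]
    congr 1
    push_cast
    ring
  rw [e5] at e4
  first
    | exact e4
    | (rw [e3]; exact e4)
    | (simp only [Nat.cast_natAbs] at e4 ⊢; exact e4)

theorem class_forms (K : ℕ) (hK : 1 ≤ K) : ∃ c₅ C₆ : ℝ, 0 < c₅ ∧ 1 ≤ C₆ ∧
    ∃ L₀ : ℝ, ∀ X : ℕ, L₀ ≤ Real.log X → ∀ m : ℕ,
    2 ^ m * (C₆ * (Real.log (Real.log X)) ^ 2) ≤ Real.log X →
    ∀ T : Finset (ℕ × ℤ), (∀ t ∈ T, 1 ≤ t.1 ∧ IsCoprime (t.1 : ℤ) t.2) →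
    (∀ t ∈ T, (t.1 : ℝ) ≤ Real.exp (K * Real.log X)) →
    (∀ t ∈ T, |(t.2 : ℝ)| ≤ Real.exp (K * Real.log X)) →
    (T.card : ℝ) ≤ (Real.log X) ^ 2 →
    ∀ (W : ℕ) (b : ℤ) (Ω : Finset ℕ), 1 ≤ W → (W : ℝ) ≤ Real.exp (Real.log X / 4) →
    (∀ p : ℕ, p.Prime → p ∣ W → (p : ℝ) ≤ Real.log X) →
    (∀ ω ∈ Ω, W ∣ ω) → (∀ ω ∈ Ω, (ω : ℝ) ≤ X) →
    (∀ ω ∈ Ω, ∀ ω' ∈ Ω, ω ≠ ω' → ∀ t ∈ T, ∀ t' ∈ T,
      (t.1 : ℤ) * t'.1 * ((ω : ℤ) - ω') + dt t t' ≠ 0) →
    ((T.filter (fun t => IsCoprime ((t.1 : ℤ) * b + t.2) (W : ℤ))).card : ℝ) ≤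
      c₅ * (m + 1) * Real.log X / Real.log (Real.log X) →
    Real.exp (C₆ * ((Real.log (Real.log X)) ^ 2 * 2 ^ m)) ≤ (Ω.card : ℝ) →
    (((cls X W b).filter (fun x : ℤ => ¬ ∃ ω ∈ Ω,
      Cov (Real.exp (Real.log X / 10)) T (x + ω))).card : ℝ) ≤ X / W / (Real.log X) ^ 6 := by
  obtain ⟨c₅, C₆, hc5, hC6, L₀, hL₀⟩ := engine 10 le_rfl
  refine ⟨c₅, C₆, hc5, hC6, max L₀ (max 200 (Real.exp (2 * K + 2) + 12 * K)), ?_⟩
  intro X hX m hm T hT hTq hTa hTc W b Ω hW hWL hWp hΩW hΩX hΩd hsurv hΩc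
  have hL10 : 200 ≤ Real.log X := (le_max_left _ _).trans ((le_max_right _ _).trans hX)
  have hLK : Real.exp (2 * K + 2) + 12 * K ≤ Real.log X :=
    (le_max_right _ _).trans ((le_max_right _ _).trans hX)
  have hLe := hL₀ (Real.log X) ((le_max_left _ _).trans hX) m hm
  clear hL₀ hX
  have hXpos : (0:ℝ) < X := by
    by_contra hc
    have : (X : ℝ) = 0 := le_antisymm (not_lt.mp hc) (Nat.cast_nonneg _)
    rw [this, Real.log_zero] at hL10
    linarith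
  have hXe : (X : ℝ) = Real.exp (Real.log X) := (Real.exp_log hXpos).symm
  have hWpos : (0:ℝ) < W := by exact_mod_cast hW
  have hKpos : (1:ℝ) ≤ K := by exact_mod_cast hK
  rw [hXe] at hΩX
  have hcc : ∀ q : ℕ, 1 ≤ q → W.Coprime q → ∀ r : ℤ,
      |(((cls X W b).filter (fun x => (q : ℤ) ∣ x - r)).card : ℝ) - (X : ℝ) / W / q| ≤ 1 :=
    fun q hq hcop r => class_equi X W hW b q hq hcop r
  have hN : Real.exp (Real.log X / 2) ≤ (X : ℝ) / W := by
    rw [le_div_iff₀ hWpos]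
    calc Real.exp (Real.log X / 2) * W ≤ Real.exp (Real.log X / 2) * Real.exp (Real.log X / 4) :=
          mul_le_mul_of_nonneg_left hWL (Real.exp_pos _).le
      _ = Real.exp (3 * Real.log X / 4) := by rw [← Real.exp_add]; congr 1; ring
      _ ≤ Real.exp (Real.log X) := Real.exp_le_exp.mpr (by linarith)
      _ = X := hXe.symm
  have hclsW : ∀ x ∈ cls X W b, (W : ℤ) ∣ x - b := by
    intro x hx
    unfold cls at hx
    rw [Finset.mem_filter] at hx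
    exact hx.2
  generalize cls X W b = 𝒜 at *
  generalize (X : ℝ) / W = N at *
  clear hXe hXpos
  generalize Real.log X = L at *
  have hLpos : 0 < L := by linarith
  -- the excluded primes
  have hKL : 1 ≤ K * L := by nlinarith
  obtain ⟨PP, hPP, key⟩ := hLe (badN T).primeFactors (by
    have h1 := primeFactors_card_le (badN_ne hT) (badN_le hT hKL hTq hTa)
    have h2 : (T.card : ℝ) ^ 2 ≤ (L ^ 2) ^ 2 := pow_le_pow_left₀ (Nat.cast_nonneg _) hTc 2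
    calc 2 * ((badN T).primeFactors.card : ℝ) ≤ 2 * (2 * (3 * (K * L) * (T.card : ℝ) ^ 2)) := by
          linarith
      _ ≤ 2 * (2 * (3 * (K * L) * (L ^ 2) ^ 2)) := by gcongr
      _ = (12 * K) * L ^ 5 := by ring
      _ ≤ L * L ^ 5 := by
          have : 0 < Real.exp (2 * K + 2) := Real.exp_pos _
          gcongr
          linarith
      _ = L ^ 6 := by ring
      _ ≤ L ^ 10 := pow_le_pow_right₀ (by linarith) (by norm_num))
  have hPPprime : ∀ p ∈ PP, p.Prime := fun p hp => (hPP p hp).1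
  have hPPbad : ∀ p ∈ PP, ¬ p ∣ badN T := by
    intro p hp hd
    exact (hPP p hp).2.2.2 (Nat.mem_primeFactors.2 ⟨hPPprime p hp, hd, badN_ne hT⟩)
  have hvirt : ∀ t : ℕ × ℤ, ∃ α : ℤ, t ∈ T → ∀ p ∈ PP, (p : ℤ) ∣ (t.1 : ℤ) * α - t.2 := by
    intro t
    by_cases ht : t ∈ T
    · obtain ⟨α, hα⟩ := virt PP hPPprime t (fun p hp hd => hPPbad p hp (badN_coef ht hd))
      exact ⟨α, fun _ => hα⟩
    · exact ⟨0, fun h => absurd h ht⟩
  choose α hα using hvirt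
  -- the relation of the virtual shifts
  have hrel : ∀ t ∈ T, ∀ t' ∈ T, ∀ ω ω' : ℤ, ∀ p ∈ PP, (p : ℤ) ∣ (α t + ω) - (α t' + ω') →
      (p : ℤ) ∣ (t.1 : ℤ) * t'.1 * (ω - ω') + dt t t' := by
    intro t ht t' ht' ω ω' p hp hd
    have h1 := hα t ht p hp
    have h2 := hα t' ht' p hp
    have e : (t.1 : ℤ) * t'.1 * (ω - ω') + dt t t' =
        (t.1 : ℤ) * t'.1 * ((α t + ω) - (α t' + ω')) - t'.1 * ((t.1 : ℤ) * α t - t.2) +
          t.1 * ((t'.1 : ℤ) * α t' - t'.2) := by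
      unfold dt
      ring
    rw [e]
    exact dvd_add (dvd_sub (hd.mul_left _) (h1.mul_left _)) (h2.mul_left _)
  have key := key Ω (fun ω => (T.filter (fun t => IsCoprime ((t.1 : ℤ) * b + t.2) (W : ℤ))).image
      (fun t => α t + (ω : ℤ))) 𝒜 N hN
    (by
      intro ω _
      refine le_trans ?_ hsurv
      exact_mod_cast Finset.card_image_le)
    (by
      intro ω _ p hp z hz z' hz' hne hdvd
      rw [Finset.mem_image] at hz hz'
      obtain ⟨t, ht, rfl⟩ := hz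
      obtain ⟨t', ht', rfl⟩ := hz'
      rw [Finset.mem_filter] at ht ht'
      have htt : t ≠ t' := fun h => hne (by rw [h])
      have h1 := hrel t ht.1 t' ht'.1 ω ω p hp hdvd
      rw [sub_self, mul_zero, zero_add] at h1
      exact hPPbad p hp (badN_det ht.1 ht'.1 htt h1))
    (by
      intro ω hω ω' hω' hne z hz z' hz'
      rw [Finset.mem_image] at hz hz'
      obtain ⟨t, ht, rfl⟩ := hz
      obtain ⟨t', ht', rfl⟩ := hz'
      rw [Finset.mem_filter] at ht ht'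
      have hd := hΩd ω hω ω' hω' hne t ht.1 t' ht'.1
      have h2K : (0:ℝ) < 2 * K + 2 := by linarith
      have hcount := count_dvd_exp hPPprime h2K (fun i => by
        have h1 := (hPP (emb PP i) (emb_mem PP i)).2.1
        have h2 : L ≤ L ^ 10 := le_self_pow₀ (by linarith) (by norm_num)
        have h3 : pp PP i = ((emb PP i : ℕ) : ℝ) := rfl
        rw [h3]
        have : (0:ℝ) ≤ K := by linarith
        linarith) (L := L) hd (by
        have a1 := dt_abs (hTq t ht.1) (hTa t ht.1) (hTq t' ht'.1) (hTa t' ht'.1)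
        have a2 : |((ω : ℝ) - ω')| ≤ Real.exp L := by
          have b1 := hΩX ω hω
          have b2 := hΩX ω' hω'
          have b3 : (0:ℝ) ≤ ω := Nat.cast_nonneg _
          have b4 : (0:ℝ) ≤ ω' := Nat.cast_nonneg _
          rw [abs_le]
          constructor <;> linarith
        have a3 : |(t.1 : ℝ) * t'.1 * ((ω : ℝ) - ω')| ≤
            Real.exp (K * L) * Real.exp (K * L) * Real.exp L := by
          rw [abs_mul, abs_mul, abs_of_nonneg (Nat.cast_nonneg t.1 : (0:ℝ) ≤ t.1),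
            abs_of_nonneg (Nat.cast_nonneg t'.1 : (0:ℝ) ≤ t'.1)]
          apply mul_le_mul (mul_le_mul (hTq t ht.1) (hTq t' ht'.1) (Nat.cast_nonneg _)
            (Real.exp_pos _).le) a2 (abs_nonneg _) (by positivity)
        have a4 : Real.exp (K * L) * Real.exp (K * L) * Real.exp L = Real.exp ((2 * K + 1) * L) := by
          rw [← Real.exp_add, ← Real.exp_add]; congr 1; ring
        have a5 : 2 * Real.exp (K * L) ^ 2 ≤ 2 * Real.exp ((2 * K + 1) * L) := by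
          rw [← Real.exp_nat_mul]
          have : Real.exp (((2 : ℕ) : ℝ) * (K * L)) ≤ Real.exp ((2 * K + 1) * L) := by
            apply Real.exp_le_exp.mpr
            push_cast
            nlinarith
          linarith
        have a6 : Real.exp ((2 * K + 2) * L) = Real.exp L * Real.exp ((2 * K + 1) * L) := by
          rw [← Real.exp_add]; congr 1; ring
        have a7 : (3:ℝ) ≤ Real.exp L := by
          have := Real.add_one_le_exp L
          linarith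
        have a8 : 0 < Real.exp ((2 * K + 1) * L) := Real.exp_pos _
        rw [a6]
        push_cast
        calc |(t.1 : ℝ) * t'.1 * ((ω : ℝ) - ω') + ((dt t t' : ℤ) : ℝ)|
            ≤ |(t.1 : ℝ) * t'.1 * ((ω : ℝ) - ω')| + |((dt t t' : ℤ) : ℝ)| := abs_add_le _ _
          _ ≤ 3 * Real.exp ((2 * K + 1) * L) := by rw [a4] at a3; linarith
          _ ≤ _ := by gcongr)
      refine le_trans ?_ hcount
      have hsub : ((univ : Finset (Fin PP.card)).filter (fun i => ((emb PP i : ℕ) : ℤ) ∣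
          (α t + (ω : ℤ)) - (α t' + (ω' : ℤ)))) ⊆ ((univ : Finset (Fin PP.card)).filter
          (fun i => ((emb PP i : ℕ) : ℤ) ∣ (t.1 : ℤ) * t'.1 * ((ω : ℤ) - ω') + dt t t')) := by
        intro i hi
        rw [Finset.mem_filter] at hi ⊢
        exact ⟨hi.1, hrel t ht.1 t' ht'.1 ω ω' _ (emb_mem PP i) hi.2⟩
      exact_mod_cast Finset.card_le_card hsub)
    (by
      intro q hq hqL hqp r
      have hq1 : 1 ≤ q := Nat.one_le_iff_ne_zero.2 hq.ne_zero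
      have hcop : W.Coprime q := by
        rw [Nat.coprime_comm]
        apply Nat.Coprime.symm
        apply Nat.coprime_of_dvd
        intro p hp hpW hpq
        have h1 := hWp p hp hpW
        have h2 := (hPP p (hqp p (Nat.mem_primeFactors.2 ⟨hp, hpq, hq.ne_zero⟩))).2.1
        have h3 : L ≤ L ^ 10 := le_self_pow₀ (by linarith) (by norm_num)
        linarith
      refine (hcc q hq1 hcop r).trans ?_
      exact Real.one_le_exp (by linarith))
    hΩc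
  refine le_trans ?_ key
  have hL10e : L ≤ Real.exp (L / 10) := by
    have h2 := Real.quadratic_le_exp_of_nonneg (x := L / 10) (by positivity)
    nlinarith
  have hsub : (𝒜.filter (fun x : ℤ => ¬ ∃ ω ∈ Ω, Cov (Real.exp (L / 10)) T (x + ω))) ⊆
      (𝒜.filter (fun x => ∀ ω ∈ Ω, ∃ z ∈ (T.filter (fun t =>
        IsCoprime ((t.1 : ℤ) * b + t.2) (W : ℤ))).image (fun t => α t + (ω : ℤ)),
        ∀ p ∈ PP, ¬ (p : ℤ) ∣ x + z)) := by
    intro x hx
    rw [Finset.mem_filter] at hx ⊢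
    obtain ⟨hx1, hx2⟩ := hx
    refine ⟨hx1, fun ω hω => ?_⟩
    by_contra hc
    push Not at hc
    apply hx2
    refine ⟨ω, hω, ?_⟩
    intro t ht
    by_cases hcop : IsCoprime ((t.1 : ℤ) * b + t.2) (W : ℤ)
    · obtain ⟨p, hp, hpd⟩ := hc (α t + (ω : ℤ)) (Finset.mem_image_of_mem _
        (Finset.mem_filter.2 ⟨ht, hcop⟩))
      refine ⟨p, hPPprime p hp, (hPP p hp).2.2.1, ?_⟩
      have h1 := hα t ht p hp
      have e : (t.1 : ℤ) * (x + ω) + t.2 = t.1 * (x + (α t + ω)) - ((t.1 : ℤ) * α t - t.2) := by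
        ring
      rw [e]
      exact dvd_sub (hpd.mul_left _) h1
    · rw [Int.isCoprime_iff_gcd_eq_one] at hcop
      obtain ⟨p, hp, hpd⟩ := Nat.exists_prime_and_dvd hcop
      have hp1 : (p : ℤ) ∣ (t.1 : ℤ) * b + t.2 :=
        (Int.natCast_dvd_natCast.2 hpd).trans (Int.gcd_dvd_left _ _)
      have hp2 : (p : ℤ) ∣ (W : ℤ) := (Int.natCast_dvd_natCast.2 hpd).trans (Int.gcd_dvd_right _ _)
      have hpL := hWp p hp (by exact_mod_cast hp2)
      refine ⟨p, hp, by linarith, ?_⟩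
      have h3 : (p : ℤ) ∣ x - b := hp2.trans (hclsW x hx1)
      have h4 : (p : ℤ) ∣ (ω : ℤ) := hp2.trans (by exact_mod_cast hΩW ω hω)
      have e : (t.1 : ℤ) * (x + ω) + t.2 = ((t.1 : ℤ) * b + t.2) + t.1 * ((x - b) + ω) := by ring
      rw [e]
      exact dvd_add hp1 ((dvd_add h3 h4).mul_left _)
  exact_mod_cast Finset.card_le_card hsub

end Run7.h294.D
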