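import Pool.Agent.Run7.h294.D2

set_option autoImplicit false
set_option linter.unusedSectionVars false

/-! # Linear forms without prime values: the main theorem -/

namespace Run7.h294.D

open Finset Filter Run7.h294.G Run7.h294.H

open scoped Classical

lemma d3_ev (C₃ C₆ : ℝ) : ∀ᶠ l : ℝ in atTop, 20 ≤ l ∧
    2 * C₆ * l ^ 2 * Real.exp (l / 2) ≤ Real.exp l / 32 ∧
    2 * C₆ + 5 ≤ l ∧ C₃ + l ≤ Real.exp l ∧
    6 * (Real.exp l) ^ 2 * Real.exp (Real.exp l / 10) ≤ Real.exp (Real.exp l / 8) ∧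
    (Real.exp l ^ 2) ^ 2 + 1 ≤ Real.exp (Real.exp l / 16) := by
  have h1 := ((Real.tendsto_exp_div_pow_atTop 2).comp
    (tendsto_id.atTop_div_const (show (0:ℝ) < 2 by norm_num))).eventually_ge_atTop
      (256 * |C₆|)
  have h2 := (Real.tendsto_exp_div_pow_atTop 1).eventually_ge_atTop 2
  have h3 := (((Real.tendsto_exp_div_pow_atTop 4).comp
    (tendsto_id.atTop_div_const (show (0:ℝ) < 80 by norm_num))).comp
      Real.tendsto_exp_atTop).eventually_ge_atTop (12 * 80 ^ 4)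
  filter_upwards [h1, h2, h3, eventually_ge_atTop 20, eventually_ge_atTop
    (2 * C₆ + 5), eventually_ge_atTop C₃] with l a1 a2 a4 a5 a6 a7
  refine ⟨a5, ?_, a6, ?_, ?_⟩
  · simp only [Function.comp, id] at a1
    have hl : 0 < (l / 2) ^ 2 := by positivity
    rw [le_div_iff₀ hl] at a1
    have e1 : 64 * C₆ * l ^ 2 ≤ Real.exp (l / 2) := by
      have : 256 * C₆ * (l / 2) ^ 2 ≤ 256 * |C₆| * (l / 2) ^ 2 := by
        gcongr
        exact le_abs_self _
      have e : 256 * C₆ * (l / 2) ^ 2 = 64 * C₆ * l ^ 2 := by ring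
      linarith
    have e2 : Real.exp l = Real.exp (l / 2) * Real.exp (l / 2) := by
      rw [← Real.exp_add, add_halves]
    rw [e2]
    have := mul_le_mul_of_nonneg_right e1 (Real.exp_pos (l / 2)).le
    linarith
  · rw [pow_one, le_div_iff₀ (by linarith)] at a2
    linarith
  · simp only [Function.comp, id] at a4
    obtain ⟨L, hL⟩ : ∃ L, L = Real.exp l := ⟨_, rfl⟩
    rw [← hL] at a4 ⊢
    have hL1 : 1 ≤ L := by rw [hL]; exact Real.one_le_exp (by linarith)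
    have hL0 : 0 < L := by linarith
    rw [le_div_iff₀ (by positivity)] at a4
    have e0 : (12:ℝ) * 80 ^ 4 * (L / 80) ^ 4 = 12 * L ^ 4 := by
      rw [mul_assoc, ← mul_pow]
      congr 2
      ring
    rw [e0] at a4
    have h5 : L ^ 2 ≤ L ^ 4 := pow_le_pow_right₀ hL1 (by norm_num)
    have h6 : 0 ≤ L ^ 4 := by positivity
    have h7 : 1 ≤ L ^ 4 := one_le_pow₀ hL1
    constructor
    · calc 6 * L ^ 2 * Real.exp (L / 10) ≤ Real.exp (L / 80) * Real.exp (L / 10) := by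
            apply mul_le_mul_of_nonneg_right _ (Real.exp_pos _).le
            linarith
        _ = Real.exp (9 * L / 80) := by rw [← Real.exp_add]; congr 1; ring
        _ ≤ Real.exp (L / 8) := Real.exp_le_exp.mpr (by linarith)
    · have e1 : (L ^ 2) ^ 2 = L ^ 4 := by ring
      rw [e1]
      have : Real.exp (L / 80) ≤ Real.exp (L / 16) := Real.exp_le_exp.mpr (by linarith)
      linarith

/-- small or exceptional values -/
lemma few_small (X : ℕ) (T : Finset (ℕ × ℤ)) (hT : ∀ t ∈ T, 1 ≤ t.1) (P : ℝ) (hP : 0 ≤ P)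
    (g : ℕ × ℤ → ℕ) :
    (((Finset.Ioc (0 : ℤ) X).filter (fun n => ∃ t ∈ T,
      |(((t.1 : ℤ) * n + t.2 : ℤ) : ℝ)| ≤ P ∨ (t.1 : ℤ) * n + t.2 = g t ∨
        (t.1 : ℤ) * n + t.2 = -(g t : ℤ))).card : ℝ) ≤ T.card * (2 * P + 3) := by
  have hsub : ((Finset.Ioc (0 : ℤ) X).filter (fun n => ∃ t ∈ T,
      |(((t.1 : ℤ) * n + t.2 : ℤ) : ℝ)| ≤ P ∨ (t.1 : ℤ) * n + t.2 = g t ∨
        (t.1 : ℤ) * n + t.2 = -(g t : ℤ))) ⊆ T.biUnion (fun t =>
      (Finset.Ioc (0 : ℤ) X).filter (fun n =>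
      |(((t.1 : ℤ) * n + t.2 : ℤ) : ℝ)| ≤ P ∨ (t.1 : ℤ) * n + t.2 = g t ∨
        (t.1 : ℤ) * n + t.2 = -(g t : ℤ))) := by
    intro n hn
    rw [Finset.mem_filter] at hn
    obtain ⟨hn1, t, ht, h⟩ := hn
    rw [Finset.mem_biUnion]
    exact ⟨t, ht, Finset.mem_filter.2 ⟨hn1, h⟩⟩
  have h1 : ∀ t ∈ T, (((Finset.Ioc (0 : ℤ) X).filter (fun n =>
      |(((t.1 : ℤ) * n + t.2 : ℤ) : ℝ)| ≤ P ∨ (t.1 : ℤ) * n + t.2 = g t ∨
        (t.1 : ℤ) * n + t.2 = -(g t : ℤ))).card : ℝ) ≤ 2 * P + 3 := by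
    intro t ht
    have hmaps : ∀ n ∈ (Finset.Ioc (0 : ℤ) X).filter (fun n =>
      |(((t.1 : ℤ) * n + t.2 : ℤ) : ℝ)| ≤ P ∨ (t.1 : ℤ) * n + t.2 = g t ∨
        (t.1 : ℤ) * n + t.2 = -(g t : ℤ)), (fun n : ℤ => (t.1 : ℤ) * n + t.2) n ∈
        (Finset.Icc (-⌊P⌋) ⌊P⌋ ∪ {(g t : ℤ), -(g t : ℤ)}) := by
      intro n hn
      rw [Finset.mem_filter] at hn
      simp only
      rw [Finset.mem_union, Finset.mem_Icc, Finset.mem_insert, Finset.mem_singleton]
      rcases hn.2 with h | h | h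
      · left
        rw [abs_le] at h
        constructor
        · have : (-((t.1 : ℤ) * n + t.2) : ℤ) ≤ ⌊P⌋ := Int.le_floor.2 (by
            push_cast at h ⊢; linarith)
          linarith
        · exact Int.le_floor.2 h.2
      · right; left; exact h
      · right; right; exact h
    have hinj := Finset.card_le_card_of_injOn (fun n : ℤ => (t.1 : ℤ) * n + t.2) hmaps (by
      intro n _ n' _ h
      simp only at h
      have h0 : (t.1 : ℤ) ≠ 0 := by
        have := hT t ht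
        exact_mod_cast (by omega : t.1 ≠ 0)
      exact mul_left_cancel₀ h0 (by linarith))
    have h2 := hinj.trans (Finset.card_union_le _ _)
    rw [Int.card_Icc] at h2
    have h3 : ({(g t : ℤ), -(g t : ℤ)} : Finset ℤ).card ≤ 2 := Finset.card_le_two
    have h4 : ((Finset.Ioc (0 : ℤ) X).filter (fun n =>
      |(((t.1 : ℤ) * n + t.2 : ℤ) : ℝ)| ≤ P ∨ (t.1 : ℤ) * n + t.2 = g t ∨
        (t.1 : ℤ) * n + t.2 = -(g t : ℤ))).card ≤ (⌊P⌋ + 1 - -⌊P⌋).toNat + 2 := by omega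
    have hfl : 0 ≤ ⌊P⌋ := Int.floor_nonneg.2 hP
    have h5 : (((⌊P⌋ + 1 - -⌊P⌋).toNat + 2 : ℕ) : ℝ) ≤ 2 * P + 3 := by
      have e : (((⌊P⌋ + 1 - -⌊P⌋).toNat : ℕ) : ℤ) = 2 * ⌊P⌋ + 1 := by
        rw [Int.toNat_of_nonneg (by omega)]; ring
      have e' : (((⌊P⌋ + 1 - -⌊P⌋).toNat : ℕ) : ℝ) = 2 * (⌊P⌋ : ℝ) + 1 := by exact_mod_cast e
      push_cast
      rw [e']
      have := Int.floor_le P
      linarith
    refine le_trans ?_ h5
    exact_mod_cast h4
  have h2 := (Finset.card_le_card hsub).trans Finset.card_biUnion_le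
  have h3 : (∑ t ∈ T, (((Finset.Ioc (0 : ℤ) X).filter (fun n =>
      |(((t.1 : ℤ) * n + t.2 : ℤ) : ℝ)| ≤ P ∨ (t.1 : ℤ) * n + t.2 = g t ∨
        (t.1 : ℤ) * n + t.2 = -(g t : ℤ))).card : ℝ)) ≤ ∑ t ∈ T, (2 * P + 3) :=
    Finset.sum_le_sum h1
  rw [Finset.sum_const, nsmul_eq_mul] at h3
  refine le_trans ?_ h3
  exact_mod_cast h2

/-- counting with windows -/
lemma count_windows (X H : ℕ) (Ω : Finset ℕ) (hΩ : ∀ ω ∈ Ω, ω ≤ H) (P : ℤ → Prop) :
    (((Finset.Ioc (0 : ℤ) X).filter (fun x => ∃ ω ∈ Ω, P (x + ω))).card : ℝ) ≤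
      Ω.card * (((Finset.Ioc (0 : ℤ) X).filter P).card : ℝ) + H := by
  have hsub : ((Finset.Ioc (0 : ℤ) X).filter (fun x => ∃ ω ∈ Ω, P (x + ω))) ⊆
      (Ω.biUnion (fun ω => (Finset.Ioc (0 : ℤ) (X - H)).filter (fun x => P (x + ω)))) ∪
      Finset.Ioc ((X : ℤ) - H) X := by
    intro x hx
    rw [Finset.mem_filter, Finset.mem_Ioc] at hx
    obtain ⟨⟨h1, h2⟩, ω, hω, hP⟩ := hx
    rw [Finset.mem_union, Finset.mem_biUnion, Finset.mem_Ioc]
    by_cases h : x ≤ (X : ℤ) - H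
    · left
      exact ⟨ω, hω, Finset.mem_filter.2 ⟨Finset.mem_Ioc.2 ⟨h1, h⟩, hP⟩⟩
    · right
      exact ⟨by omega, h2⟩
  have h1 := (Finset.card_le_card hsub).trans ((Finset.card_union_le _ _).trans
    (Nat.add_le_add_right Finset.card_biUnion_le _))
  rw [Int.card_Ioc] at h1
  have h2 : ∀ ω ∈ Ω, ((Finset.Ioc (0 : ℤ) (X - H)).filter (fun x => P (x + ω))).card ≤
      ((Finset.Ioc (0 : ℤ) X).filter P).card := by
    intro ω hω
    apply Finset.card_le_card_of_injOn (fun x : ℤ => x + ω)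
    · intro x hx
      rw [Finset.mem_coe, Finset.mem_filter, Finset.mem_Ioc] at hx ⊢
      have := hΩ ω hω
      refine ⟨⟨?_, ?_⟩, hx.2⟩
      · simp only; omega
      · simp only; omega
    · intro x _ y _ h
      simp only at h
      omega
  have h3 := Finset.sum_le_sum h2
  rw [Finset.sum_const, smul_eq_mul] at h3
  have h4 : ((X : ℤ) - ((X : ℤ) - H)).toNat = H := by omega
  rw [h4] at h1
  have h5 := h1.trans (Nat.add_le_add_right h3 H)
  exact_mod_cast h5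

theorem main_d (K : ℕ) (hK : 1 ≤ K) : ∃ c C : ℝ, 0 < c ∧ 0 < C ∧ ∃ X₀ : ℕ, ∀ X : ℕ, X₀ ≤ X →
    ∀ μ : ℝ, 0 ≤ μ → μ ≤ c * Real.log (Real.log X) → ∀ T : Finset (ℕ × ℤ),
    (∀ t ∈ T, 1 ≤ t.1 ∧ (t.1 : ℝ) ≤ (X : ℝ) ^ K ∧ |(t.2 : ℝ)| ≤ (X : ℝ) ^ K) →
    ∑ t ∈ T, (t.1 : ℝ) / t.1.totient ≤ μ * Real.log X →
    X * Real.exp (-(Real.exp μ * Real.log (Real.log X)) ^ C) ≤
      (((Finset.Ioc (0 : ℤ) X).filter (fun n : ℤ => ∀ t ∈ T,
        ¬ ((t.1 : ℤ) * n + t.2).natAbs.Prime)).card : ℝ) := by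
  obtain ⟨c₅, C₆, hc5, hC6, L₀, hstep⟩ := class_forms K hK
  obtain ⟨CT, hCT, htot⟩ := primorial_totient
  obtain ⟨C₃, hC3⟩ : ∃ C₃ : ℝ, C₃ = 80 * CT / c₅ + 1 := ⟨_, rfl⟩
  have hC31 : 1 ≤ C₃ := by
    have : 0 ≤ 80 * CT / c₅ := by positivity
    linarith
  obtain ⟨l₀, hl₀⟩ := (d3_ev C₃ C₆).exists_forall_of_atTop
  have hev : ∀ᶠ X : ℕ in atTop, L₀ ≤ Real.log X ∧ l₀ ≤ Real.log (Real.log X) := by
    have t1 : Tendsto (fun X : ℕ => Real.log X) atTop atTop :=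
      Real.tendsto_log_atTop.comp tendsto_natCast_atTop_atTop
    exact (t1.eventually_ge_atTop L₀).and ((Real.tendsto_log_atTop.comp t1).eventually_ge_atTop l₀)
  obtain ⟨X₂, hX₂⟩ := hev.exists_forall_of_atTop
  refine ⟨1 / (2 * C₃), C₃ + 3, by positivity, by positivity, max X₂ 1, ?_⟩
  intro X hX μ hμ0 hμ T hT hTs
  obtain ⟨hLL, hll⟩ := hX₂ X ((le_max_left _ _).trans hX)
  have hX1 : 1 ≤ X := (le_max_right _ _).trans hX
  have hXpos : (0:ℝ) < X := by exact_mod_cast hX1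
  obtain ⟨f1, f2, f3, f4, f5, f6⟩ := hl₀ _ hll
  have hXe : (X : ℝ) = Real.exp (Real.log X) := (Real.exp_log hXpos).symm
  have hst := hstep X hLL
  have hXK : (X : ℝ) ^ K = Real.exp (K * Real.log X) := by
    rw [← Real.log_pow, Real.exp_log (by positivity)]
  rw [hXK] at hT
  clear hX₂ hl₀ hev hstep hXK
  generalize hL : Real.log X = L at *
  generalize hl : Real.log L = l at *
  have hl0 : 0 < l := by linarith
  have hLpos : 0 < L := by
    by_contra hc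
    push Not at hc
    have h1 : (X : ℝ) ≤ 1 := by
      rw [hXe]
      exact Real.exp_le_one_iff.2 hc
    have h2 : (1 : ℝ) ≤ X := by exact_mod_cast hX1
    have h3 : (X : ℝ) = 1 := le_antisymm h1 h2
    have h4 : L = 0 := by rw [← hL, h3, Real.log_one]
    rw [h4, Real.log_zero] at hl
    linarith
  have hLexp : L = Real.exp l := by rw [← hl]; exact (Real.exp_log hLpos).symm
  rw [← hLexp] at f2 f4 f5 f6
  have hL1 : 1 ≤ L := by linarith
  have hμl : C₃ * μ ≤ l / 2 := by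
    have : C₃ * μ ≤ C₃ * (1 / (2 * C₃) * l) := mul_le_mul_of_nonneg_left hμ (by linarith)
    have e : C₃ * (1 / (2 * C₃) * l) = l / 2 := by field_simp
    linarith
  have hμL : μ ≤ L := by
    have : 1 * μ ≤ C₃ * μ := mul_le_mul_of_nonneg_right hC31 hμ0
    linarith
  -- `m`
  obtain ⟨m, hm⟩ : ∃ m : ℕ, m = ⌈C₃ * μ⌉₊ := ⟨_, rfl⟩
  obtain ⟨hm1, h2m⟩ := m_facts (C₃ := C₃) (μ := μ) (by positivity) m hm
  have h2m1 : (1:ℝ) ≤ 2 ^ m := one_le_pow₀ (by norm_num)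
  have h2m' : (2:ℝ) ^ m ≤ 2 * Real.exp (l / 2) := by
    refine h2m.trans ?_
    gcongr
  have hexpo : C₆ * (l ^ 2 * 2 ^ m) ≤ L / 32 := by
    calc C₆ * (l ^ 2 * 2 ^ m) ≤ C₆ * (l ^ 2 * (2 * Real.exp (l / 2))) := by gcongr
      _ = 2 * C₆ * l ^ 2 * Real.exp (l / 2) := by ring
      _ ≤ L / 32 := f2
  have hexpo20 : 20 ≤ C₆ * (l ^ 2 * 2 ^ m) := by
    have e1 : (20:ℝ) ≤ l ^ 2 := by
      have : (20:ℝ) * 1 ≤ l * l := mul_le_mul f1 (by linarith) (by norm_num) hl0.le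
      rw [sq]
      linarith
    have e2 : l ^ 2 * 1 ≤ l ^ 2 * 2 ^ m := by gcongr
    have e3 : 1 * (l ^ 2 * 2 ^ m) ≤ C₆ * (l ^ 2 * 2 ^ m) := by gcongr
    linarith
  -- `y`
  obtain ⟨y, hy⟩ : ∃ y : ℕ, y = ⌊Real.exp (l / 10)⌋₊ := ⟨_, rfl⟩
  obtain ⟨y1, y2, y3, y4⟩ := y_facts hLexp f1 y hy
  have hW1 : 1 ≤ primorial y := primorial_pos y
  have hWsq := primorial_squarefree y
  have hWp : ∀ p : ℕ, p.Prime → p ∣ primorial y → (p : ℝ) ≤ L := by
    intro p hp hpW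
    have h1 : (p : ℝ) ≤ y := by exact_mod_cast prime_dvd_primorial hp hpW
    linarith
  have htoty := htot y y1
  -- the coprime forms
  set T₀ := T.filter (fun t => IsCoprime (t.1 : ℤ) t.2) with hT₀
  have hT₀T : ∀ t ∈ T₀, t ∈ T := fun t ht => (Finset.mem_filter.1 ht).1
  have hT1 : ∀ t ∈ T₀, 1 ≤ t.1 ∧ IsCoprime (t.1 : ℤ) t.2 := fun t ht =>
    ⟨(hT t (hT₀T t ht)).1, (Finset.mem_filter.1 ht).2⟩
  have hTs0 : ∑ t ∈ T₀, (t.1 : ℝ) / t.1.totient ≤ μ * L :=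
    (Finset.sum_le_sum_of_subset_of_nonneg (Finset.filter_subset _ _)
      (fun t _ _ => by positivity)).trans hTs
  have hTc : (T.card : ℝ) ≤ μ * L := by
    refine le_trans ?_ hTs
    have : (T.card : ℝ) = ∑ t ∈ T, (1:ℝ) := by simp
    rw [this]
    refine Finset.sum_le_sum fun t ht => ?_
    have h1 := (hT t ht).1
    have h2 : 0 < t.1.totient := Nat.totient_pos.2 h1
    rw [le_div_iff₀ (by exact_mod_cast h2), one_mul]
    exact_mod_cast Nat.totient_le t.1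
  have hμL2 : μ * L ≤ L ^ 2 := by
    rw [sq]
    exact mul_le_mul_of_nonneg_right hμL hLpos.le
  have hT₀c : (T₀.card : ℝ) ≤ T.card := by
    exact_mod_cast Finset.card_le_card (Finset.filter_subset _ _)
  -- good classes
  obtain ⟨B, hB⟩ : ∃ B : ℝ, B = c₅ * (m + 1) * L / l := ⟨_, rfl⟩
  have hB0 : 0 < B := by rw [hB]; positivity
  have hgood := good_classes hWsq T₀ hT1 hB0 hTs0 (by
    have hW0 : (0:ℝ) < (primorial y : ℝ) := by exact_mod_cast hW1
    generalize (primorial y : ℝ) = Wr at *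
    have hly : 0 < Real.log y := by linarith
    have e1 : 4 * ((primorial y).totient : ℝ) * (μ * L) ≤
        4 * (CT * Wr / Real.log y) * (μ * L) := by gcongr
    refine e1.trans ?_
    have e2 : 4 * (CT * Wr / Real.log y) * (μ * L) ≤
        4 * (CT * Wr / (l / 20)) * (μ * L) := by gcongr
    refine e2.trans ?_
    have e3 : 80 * CT * μ ≤ c₅ * (m + 1) := by
      have g1 : c₅ * C₃ = 80 * CT + c₅ := by rw [hC3]; field_simp
      have g2 : c₅ * (C₃ * μ) ≤ c₅ * (m + 1) := by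
        apply mul_le_mul_of_nonneg_left _ hc5.le
        linarith
      have g3 : c₅ * (C₃ * μ) = 80 * CT * μ + c₅ * μ := by
        rw [← mul_assoc, g1]; ring
      have g4 : 0 ≤ c₅ * μ := by positivity
      linarith
    calc 4 * (CT * Wr / (l / 20)) * (μ * L)
        = Wr * ((80 * CT * μ) * L / l) := by
          clear * - hl0
          field_simp
          ring
      _ ≤ Wr * ((c₅ * (m + 1)) * L / l) := by gcongr
      _ = Wr * B := by rw [hB])
  -- windows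
  obtain ⟨R, hR⟩ : ∃ R : ℕ, R = ⌈Real.exp (C₆ * (l ^ 2 * 2 ^ m))⌉₊ := ⟨_, rfl⟩
  obtain ⟨hR1, hR2, hR8⟩ := R_facts hexpo20 R hR
  obtain ⟨h, hh1, hh2, hh3⟩ := dilation T₀ (fun t ht => (hT1 t ht).1) (primorial y) R hW1
  have hWh : 1 ≤ primorial y * h := Nat.mul_pos hW1 hh1
  have hinj : Function.Injective (fun i : ℕ => i * (primorial y * h)) :=
    fun a b hab => Nat.eq_of_mul_eq_mul_right hWh hab
  obtain ⟨Ω, hΩ⟩ : ∃ Ω : Finset ℕ, Ω = (Finset.range R).image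
    (fun i => i * (primorial y * h)) := ⟨_, rfl⟩
  have hΩc : Ω.card = R := by
    rw [hΩ, Finset.card_image_of_injective _ hinj, Finset.card_range]
  have hΩH : ∀ ω ∈ Ω, ω ≤ R * (primorial y * h) := by
    intro ω hω
    rw [hΩ, Finset.mem_image] at hω
    obtain ⟨i, hi, rfl⟩ := hω
    rw [Finset.mem_range] at hi
    exact Nat.mul_le_mul_right _ hi.le
  have hΩW : ∀ ω ∈ Ω, primorial y ∣ ω := by
    intro ω hω
    rw [hΩ, Finset.mem_image] at hω
    obtain ⟨i, hi, rfl⟩ := hω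
    exact ⟨i * h, by ring⟩
  have hΩd : ∀ ω ∈ Ω, ∀ ω' ∈ Ω, ω ≠ ω' → ∀ t ∈ T₀, ∀ t' ∈ T₀,
      (t.1 : ℤ) * t'.1 * ((ω : ℤ) - ω') + dt t t' ≠ 0 := by
    intro ω hω ω' hω' hne t ht t' ht'
    rw [hΩ, Finset.mem_image] at hω hω'
    obtain ⟨i, hi, rfl⟩ := hω
    obtain ⟨j, hj, rfl⟩ := hω'
    rw [Finset.mem_range] at hi hj
    exact hh3 i hi j hj (fun hij => hne (by rw [hij])) t ht t' ht'
  -- size of `H`
  have hRe : (R : ℝ) ≤ Real.exp (L / 16) := by
    have e1 : (2:ℝ) ≤ Real.exp (L / 32) := by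
      have h1 : (20:ℝ) ≤ L / 32 := hexpo20.trans hexpo
      have := Real.add_one_le_exp (L / 32)
      linarith
    calc (R : ℝ) ≤ 2 * Real.exp (C₆ * (l ^ 2 * 2 ^ m)) := hR2
      _ ≤ Real.exp (L / 32) * Real.exp (L / 32) := by
          apply mul_le_mul e1 (Real.exp_le_exp.mpr hexpo) (Real.exp_pos _).le (Real.exp_pos _).le
      _ = Real.exp (L / 16) := by rw [← Real.exp_add]; congr 1; ring
  have hhe : (h : ℝ) ≤ Real.exp (3 * L / 16) := by
    have e1 : (h : ℝ) ≤ T₀.card * T₀.card * (R * R) + 1 := by exact_mod_cast hh2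
    have e2 : (T₀.card : ℝ) ≤ L ^ 2 := hT₀c.trans (hTc.trans hμL2)
    have hR0 : (0:ℝ) ≤ R := Nat.cast_nonneg _
    have hR1' : (1:ℝ) ≤ (R : ℝ) * R := one_le_mul_of_one_le_of_one_le (by linarith) (by linarith)
    calc (h : ℝ) ≤ T₀.card * T₀.card * (R * R) + 1 := e1
      _ ≤ L ^ 2 * L ^ 2 * (R * R) + 1 * (R * R) := by
          have : (T₀.card : ℝ) * T₀.card * (R * R) ≤ L ^ 2 * L ^ 2 * (R * R) :=
            mul_le_mul_of_nonneg_right (mul_le_mul e2 e2 (Nat.cast_nonneg _)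
              (pow_nonneg hLpos.le 2)) (mul_nonneg hR0 hR0)
          linarith
      _ = ((L ^ 2) ^ 2 + 1) * (R * R) := by ring
      _ ≤ Real.exp (L / 16) * (Real.exp (L / 16) * Real.exp (L / 16)) := by gcongr
      _ = Real.exp (3 * L / 16) := by rw [← Real.exp_add, ← Real.exp_add]; congr 1; ring
  have hH : ((R * (primorial y * h) : ℕ) : ℝ) ≤ Real.exp (L / 2) := by
    push_cast
    calc (R : ℝ) * ((primorial y : ℝ) * h) ≤
          Real.exp (L / 16) * (Real.exp (L / 4) * Real.exp (3 * L / 16)) := by gcongr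
      _ = Real.exp (L / 2) := by rw [← Real.exp_add, ← Real.exp_add]; congr 1; ring
  have hcond : 2 ^ m * (C₆ * l ^ 2) ≤ L := by
    calc 2 ^ m * (C₆ * l ^ 2) = C₆ * (l ^ 2 * 2 ^ m) := by ring
      _ ≤ L := by linarith
  obtain ⟨P, hP⟩ : ∃ P : ℝ, P = Real.exp (L / 10) := ⟨_, rfl⟩
  have hP0 : 0 ≤ P := by rw [hP]; exact (Real.exp_pos _).le
  have hL500 : 640 ≤ L := by
    have h1 : (20:ℝ) ≤ L / 32 := hexpo20.trans hexpo
    linarith
  have hLL1 : L ≤ Real.exp (L / 10) := by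
    have h2 := Real.quadratic_le_exp_of_nonneg (x := L / 10) (by positivity)
    have e : (L / 10) ^ 2 / 2 = L * L / 200 := by ring
    have e' : 640 * L ≤ L * L := mul_le_mul_of_nonneg_right hL500 hLpos.le
    rw [e] at h2
    linarith
  -- one class
  set G := (Finset.range (primorial y)).filter (fun b : ℕ =>
      ((T₀.filter (fun t => IsCoprime ((t.1 : ℤ) * b + t.2)
        ((primorial y : ℕ) : ℤ))).card : ℝ) ≤ B) with hG
  have hXW : Real.exp (L / 2) ≤ (X : ℝ) / primorial y := by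
    rw [le_div_iff₀ (by exact_mod_cast hW1)]
    calc Real.exp (L / 2) * (primorial y : ℝ) ≤ Real.exp (L / 2) * Real.exp (L / 4) := by gcongr
      _ = Real.exp (3 * L / 4) := by rw [← Real.exp_add]; congr 1; ring
      _ ≤ Real.exp L := Real.exp_le_exp.mpr (by linarith)
      _ = X := hXe.symm
  have hone : (640:ℝ) ≤ (X : ℝ) / primorial y := by
    refine le_trans ?_ hXW
    have := Real.add_one_le_exp (L / 2)
    have h2 : Real.exp (L / 10) ≤ Real.exp (L / 2) := Real.exp_le_exp.mpr (by linarith)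
    linarith
  have hcls : ∀ b ∈ G, (X : ℝ) / primorial y / 2 ≤
      (((cls X (primorial y) (b : ℤ)).filter (fun x : ℤ => ∃ ω ∈ Ω, Cov P T₀ (x + ω))).card : ℝ) := by
    intro b hb
    rw [hG, Finset.mem_filter] at hb
    have h1 := hst m hcond T₀ hT1 (fun t ht => (hT t (hT₀T t ht)).2.1)
      (fun t ht => (hT t (hT₀T t ht)).2.2) (hT₀c.trans (hTc.trans hμL2)) (primorial y) b Ω hW1 y4
      hWp hΩW (fun ω hω => by
        have h2 : ((ω : ℕ) : ℝ) ≤ ((R * (primorial y * h) : ℕ) : ℝ) := by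
          exact_mod_cast hΩH ω hω
        have h3 : Real.exp (L / 2) ≤ Real.exp L := Real.exp_le_exp.mpr (by linarith)
        rw [hXe]
        exact h2.trans (hH.trans h3)) hΩd (by rw [← hB]; exact hb.2) (by rw [hΩc]; exact hR1)
    rw [← hP] at h1
    have h2 := (abs_le.mp (class_count X (primorial y) hW1 (b : ℤ))).1
    have h3 : (cls X (primorial y) (b : ℤ)).card =
        ((cls X (primorial y) (b : ℤ)).filter (fun x : ℤ => ∃ ω ∈ Ω, Cov P T₀ (x + ω))).card +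
        ((cls X (primorial y) (b : ℤ)).filter (fun x : ℤ => ¬ ∃ ω ∈ Ω, Cov P T₀ (x + ω))).card :=
      (Finset.card_filter_add_card_filter_not _).symm
    have h4 : ((cls X (primorial y) (b : ℤ)).card : ℝ) =
        (((cls X (primorial y) (b : ℤ)).filter (fun x : ℤ => ∃ ω ∈ Ω, Cov P T₀ (x + ω))).card : ℝ) +
        (((cls X (primorial y) (b : ℤ)).filter
          (fun x : ℤ => ¬ ∃ ω ∈ Ω, Cov P T₀ (x + ω))).card : ℝ) := by
      exact_mod_cast h3
    have h5 : (X : ℝ) / primorial y - 1 ≤ ((cls X (primorial y) (b : ℤ)).card : ℝ) := by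
      unfold cls
      linarith
    have h6 : (X : ℝ) / primorial y / L ^ 6 ≤ (X : ℝ) / primorial y / 4 := by
      apply div_le_div_of_nonneg_left (by linarith) (by norm_num)
      have : L ≤ L ^ 6 := le_self_pow₀ hL1 (by norm_num)
      linarith
    linarith
  have hsum := Finset.sum_le_sum hcls
  rw [Finset.sum_const, nsmul_eq_mul] at hsum
  have hsplit := split_classes X (primorial y) hW1 (fun x : ℤ => ∃ ω ∈ Ω, Cov P T₀ (x + ω))
  have hle : (∑ b ∈ G, (((cls X (primorial y) (b : ℤ)).filter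
      (fun x : ℤ => ∃ ω ∈ Ω, Cov P T₀ (x + ω))).card : ℝ)) ≤
      (((Finset.Ioc (0 : ℤ) X).filter (fun x : ℤ => ∃ ω ∈ Ω, Cov P T₀ (x + ω))).card : ℝ) := by
    rw [← hsplit]
    push_cast
    exact Finset.sum_le_sum_of_subset_of_nonneg (Finset.filter_subset _ _)
      (fun b _ _ => Nat.cast_nonneg _)
  have hcw := count_windows X (R * (primorial y * h)) Ω hΩH (fun x => Cov P T₀ x)
  rw [hΩc] at hcw
  have hW0 : (0:ℝ) < (primorial y : ℝ) := by exact_mod_cast hW1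
  have h14 : (X : ℝ) / 4 ≤ G.card * ((X : ℝ) / primorial y / 2) := by
    calc (X : ℝ) / 4 = ((primorial y : ℝ) / 2) * ((X : ℝ) / primorial y / 2) := by
          field_simp; norm_num
      _ ≤ _ := mul_le_mul_of_nonneg_right hgood (by linarith)
  -- the number of the good `n`
  set N₁ := (((Finset.Ioc (0 : ℤ) X).filter (fun n => Cov P T₀ n)).card : ℝ) with hN₁
  have hmain : (X : ℝ) / 4 ≤ R * N₁ + Real.exp (L / 2) := by linarith
  -- removal of the small values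
  set V := ((Finset.Ioc (0 : ℤ) X).filter (fun n => ∃ t ∈ T,
      |(((t.1 : ℤ) * n + t.2 : ℤ) : ℝ)| ≤ P ∨ (t.1 : ℤ) * n + t.2 = (Int.gcd t.1 t.2 : ℕ) ∨
        (t.1 : ℤ) * n + t.2 = -((Int.gcd t.1 t.2 : ℕ) : ℤ))) with hV
  have hVc := few_small X T (fun t ht => (hT t ht).1) P hP0 (fun t => Int.gcd t.1 t.2)
  have hsubV : ((Finset.Ioc (0 : ℤ) X).filter (fun n => Cov P T₀ n)) ⊆
      ((Finset.Ioc (0 : ℤ) X).filter (fun n : ℤ => ∀ t ∈ T,
        ¬ ((t.1 : ℤ) * n + t.2).natAbs.Prime)) ∪ V := by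
    intro n hn
    rw [Finset.mem_filter] at hn
    rw [Finset.mem_union]
    by_cases hnV : n ∈ V
    · right; exact hnV
    · left
      rw [Finset.mem_filter]
      refine ⟨hn.1, ?_⟩
      intro t ht hprime
      rw [hV, Finset.mem_filter] at hnV
      push Not at hnV
      obtain ⟨v1, v2, v3⟩ := hnV hn.1 t ht
      by_cases hcop : IsCoprime (t.1 : ℤ) t.2
      · obtain ⟨p, hp, hpP, hpd⟩ := hn.2 t (Finset.mem_filter.2 ⟨ht, hcop⟩)
        have h1 : p ∣ ((t.1 : ℤ) * n + t.2).natAbs := Int.natCast_dvd.1 hpd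
        have h2 := (Nat.prime_dvd_prime_iff_eq hp hprime).1 h1
        have h3 : ((((t.1 : ℤ) * n + t.2).natAbs : ℕ) : ℝ) = |(((t.1 : ℤ) * n + t.2 : ℤ) : ℝ)| := by
          rw [← Int.cast_abs, Int.abs_eq_natAbs]
          simp
        rw [← h3, ← h2] at v1
        linarith
      · have h1 : Int.gcd t.1 t.2 ∣ ((t.1 : ℤ) * n + t.2).natAbs := by
          apply Int.natCast_dvd.1
          exact dvd_add ((Int.gcd_dvd_left _ _).mul_right _) (Int.gcd_dvd_right _ _)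
        rcases (Nat.dvd_prime hprime).1 h1 with h2 | h2
        · exact hcop (Int.isCoprime_iff_gcd_eq_one.2 h2)
        · rcases Int.natAbs_eq ((t.1 : ℤ) * n + t.2) with h3 | h3
          · rw [← h2] at h3
            exact v2 h3
          · rw [← h2] at h3
            exact v3 h3
  have hVc' : (V.card : ℝ) ≤ Real.exp (L / 8) := by
    refine hVc.trans ?_
    have e1 : (1:ℝ) ≤ P := by rw [hP]; exact Real.one_le_exp (by positivity)
    calc (T.card : ℝ) * (2 * P + 3) ≤ L ^ 2 * (6 * P) := by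
          apply mul_le_mul (hTc.trans hμL2) (by linarith) (by linarith) (by positivity)
      _ = 6 * L ^ 2 * Real.exp (L / 10) := by rw [hP]; ring
      _ ≤ _ := f5
  have hfin : N₁ ≤ (((Finset.Ioc (0 : ℤ) X).filter (fun n : ℤ => ∀ t ∈ T,
        ¬ ((t.1 : ℤ) * n + t.2).natAbs.Prime)).card : ℝ) + Real.exp (L / 8) := by
    have h1 := (Finset.card_le_card hsubV).trans (Finset.card_union_le _ _)
    have h2 : N₁ ≤ (((Finset.Ioc (0 : ℤ) X).filter (fun n : ℤ => ∀ t ∈ T,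
        ¬ ((t.1 : ℤ) * n + t.2).natAbs.Prime)).card : ℝ) + (V.card : ℝ) := by
      rw [hN₁]; exact_mod_cast h1
    linarith
  generalize (((Finset.Ioc (0 : ℤ) X).filter (fun n : ℤ => ∀ t ∈ T,
        ¬ ((t.1 : ℤ) * n + t.2).natAbs.Prime)).card : ℝ) = N₂ at *
  -- numbers
  have hRpos : (0:ℝ) < R := by linarith
  have hXbig : Real.exp (L / 2) * 16 ≤ X := by
    rw [hXe]
    have e1 : (16:ℝ) ≤ Real.exp (L / 2) := by
      have := Real.add_one_le_exp (L / 2)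
      linarith
    calc Real.exp (L / 2) * 16 ≤ Real.exp (L / 2) * Real.exp (L / 2) := by gcongr
      _ = Real.exp L := by rw [← Real.exp_add]; congr 1; ring
  have hN1 : (X : ℝ) / (8 * R) ≤ N₁ := by
    rw [div_le_iff₀ (by positivity)]
    have e : N₁ * (8 * R) = 8 * (R * N₁) := by ring
    rw [e]
    linarith
  have hsmall : Real.exp (L / 8) ≤ (X : ℝ) / (16 * R) := by
    rw [le_div_iff₀ (by positivity)]
    calc Real.exp (L / 8) * (16 * R) ≤ Real.exp (L / 8) * (16 * Real.exp (L / 16)) := by gcongr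
      _ = 16 * Real.exp (3 * L / 16) := by
          rw [show Real.exp (L / 8) * (16 * Real.exp (L / 16)) =
            16 * (Real.exp (L / 8) * Real.exp (L / 16)) by ring, ← Real.exp_add]
          congr 2; ring
      _ ≤ 16 * Real.exp (L / 2) :=
          mul_le_mul_of_nonneg_left (Real.exp_le_exp.mpr (by linarith)) (by norm_num)
      _ ≤ X := by linarith
  have hN2 : (X : ℝ) / (16 * R) ≤ N₂ := by
    have e : (X : ℝ) / (8 * R) = X / (16 * R) + X / (16 * R) := by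
      rw [← add_div, div_eq_div_iff (by positivity) (by positivity)]
      ring
    linarith
  refine le_trans ?_ hN2
  -- `16 R ≤ exp ((e ^ μ l) ^ C)`
  rw [Real.exp_neg, ← div_eq_mul_inv]
  apply div_le_div_of_nonneg_left hXpos.le (by positivity)
  have g0 : (Real.exp μ * l) ^ (C₃ + 3) = Real.exp ((C₃ + 3) * μ) * l ^ (C₃ + 3) := by
    rw [Real.mul_rpow (Real.exp_pos _).le (by linarith), ← Real.exp_mul]
    congr 2
    ring
  have g1 : l ^ (3 : ℝ) ≤ l ^ (C₃ + 3) :=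
    Real.rpow_le_rpow_of_exponent_le (by linarith) (by linarith)
  have g2 : l ^ (3 : ℝ) = l ^ 2 * l := by
    rw [show (3 : ℝ) = ((3 : ℕ) : ℝ) by norm_num, Real.rpow_natCast]
    ring
  have g3 : Real.exp (C₃ * μ) ≤ Real.exp ((C₃ + 3) * μ) := by
    apply Real.exp_le_exp.mpr
    gcongr
    linarith
  have g4 : (1:ℝ) ≤ Real.exp (C₃ * μ) := Real.one_le_exp (by positivity)
  have g5 : C₆ * (l ^ 2 * 2 ^ m) ≤ 2 * C₆ * (l ^ 2 * Real.exp (C₃ * μ)) := by
    calc C₆ * (l ^ 2 * 2 ^ m) ≤ C₆ * (l ^ 2 * (2 * Real.exp (C₃ * μ))) := by gcongr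
      _ = _ := by ring
  have g6 : 5 ≤ 5 * (l ^ 2 * Real.exp (C₃ * μ)) := by
    have h1 : l ^ 2 * 1 ≤ l ^ 2 * Real.exp (C₃ * μ) := by gcongr
    have h2 : (1:ℝ) ≤ l ^ 2 := one_le_pow₀ (by linarith)
    linarith
  have g7 : (32:ℝ) ≤ Real.exp 5 := by
    have e1 : Real.exp 5 = Real.exp 1 ^ 5 := by
      rw [← Real.exp_nat_mul]; norm_num
    rw [e1]
    have e2 : (2:ℝ) ≤ Real.exp 1 := by
      have := Real.exp_one_gt_d9
      linarith
    calc (32:ℝ) = 2 ^ 5 := by norm_num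
      _ ≤ Real.exp 1 ^ 5 := by gcongr
  rw [g0]
  calc 16 * (R : ℝ) ≤ 32 * Real.exp (C₆ * (l ^ 2 * 2 ^ m)) := by linarith
    _ ≤ Real.exp 5 * Real.exp (C₆ * (l ^ 2 * 2 ^ m)) := by gcongr
    _ = Real.exp (5 + C₆ * (l ^ 2 * 2 ^ m)) := (Real.exp_add _ _).symm
    _ ≤ Real.exp (Real.exp ((C₃ + 3) * μ) * l ^ (C₃ + 3)) := by
        apply Real.exp_le_exp.mpr
        calc 5 + C₆ * (l ^ 2 * 2 ^ m)
            ≤ (2 * C₆ + 5) * (l ^ 2 * Real.exp (C₃ * μ)) := by linarith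
          _ ≤ l * (l ^ 2 * Real.exp (C₃ * μ)) := by gcongr
          _ = Real.exp (C₃ * μ) * l ^ (3:ℝ) := by rw [g2]; ring
          _ ≤ Real.exp ((C₃ + 3) * μ) * l ^ (C₃ + 3) := by
              apply mul_le_mul g3 g1 (by positivity) (Real.exp_pos _).le

end Run7.h294.D
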