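import Pool.Agent.H262R4.FR.W3
import Pool.Agent.H510R2.Div

set_option autoImplicit false

/-! The square part of a modulus on average. -/

namespace Run7.h294

open Finset

/-- `∑_{a ≤ X} ∑_{d ∣ a, a² d ∣ m} a √d √gcd(m/(a² d), B)` -/
noncomputable def Gf (X B m : ℕ) : ℝ :=
  ∑ a ∈ Icc 1 X, ∑ d ∈ a.divisors, if a ^ 2 * d ∣ m then
    (a : ℝ) * Real.sqrt d * Real.sqrt (Nat.gcd (m / (a ^ 2 * d)) B) else 0

theorem Gf_nonneg (X B m : ℕ) : 0 ≤ Gf X B m := by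
  unfold Gf
  refine Finset.sum_nonneg fun a _ => Finset.sum_nonneg fun d _ => ?_
  split_ifs
  · positivity
  · exact le_rfl

theorem Gf_ge (X B m a d : ℕ) (ha : 1 ≤ a) (haX : a ≤ X) (hd : d ∣ a) (h : a ^ 2 * d ∣ m) :
    (a : ℝ) * Real.sqrt d * Real.sqrt (Nat.gcd (m / (a ^ 2 * d)) B) ≤ Gf X B m := by
  unfold Gf
  have h0 : ∀ a ∈ Icc 1 X, 0 ≤ ∑ d ∈ a.divisors, (if a ^ 2 * d ∣ m then
    (a : ℝ) * Real.sqrt d * Real.sqrt (Nat.gcd (m / (a ^ 2 * d)) B) else 0) := by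
    intro a _
    refine Finset.sum_nonneg fun d _ => ?_
    split_ifs
    · positivity
    · exact le_rfl
  refine le_trans ?_ (Finset.single_le_sum h0 (Finset.mem_Icc.2 ⟨ha, haX⟩))
  have h1 : ∀ d ∈ a.divisors, 0 ≤ (if a ^ 2 * d ∣ m then
    (a : ℝ) * Real.sqrt d * Real.sqrt (Nat.gcd (m / (a ^ 2 * d)) B) else 0) := by
    intro d _
    split_ifs
    · positivity
    · exact le_rfl
  refine le_trans ?_ (Finset.single_le_sum h1 (Nat.mem_divisors.2 ⟨hd, by omega⟩))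
  rw [if_pos h]

/-- splitting off the square part -/
theorem split_sq (q : ℕ) (hq : 0 < q) : ∃ a d v : ℕ, 0 < a ∧ 0 < d ∧ d ∣ a ∧ q = (a ^ 2 * d) * v ∧
    Nat.Coprime (a ^ 2 * d) v ∧ Squarefree v := by
  obtain ⟨b, a, hab, hb⟩ := Nat.sq_mul_squarefree q
  have ha0 : 0 < a := by
    rcases Nat.eq_zero_or_pos a with h | h
    · rw [h] at hab; simp at hab; omega
    · exact h
  have hb0 : 0 < b := Nat.pos_of_ne_zero hb.ne_zero
  obtain ⟨d, hd⟩ : ∃ d, d = Nat.gcd a b := ⟨_, rfl⟩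
  have hd0 : 0 < d := by rw [hd]; exact Nat.gcd_pos_of_pos_left _ ha0
  obtain ⟨v, hv⟩ : d ∣ b := by rw [hd]; exact Nat.gcd_dvd_right _ _
  have hdv := hb
  rw [hv, Nat.squarefree_mul_iff] at hdv
  obtain ⟨hc1, -, hsv⟩ := hdv
  have hav : Nat.Coprime a v := by
    rw [Nat.coprime_iff_gcd_eq_one]
    by_contra hne
    obtain ⟨p, hp, hpd⟩ := Nat.exists_prime_and_dvd hne
    have h1 : p ∣ a := hpd.trans (Nat.gcd_dvd_left _ _)
    have h2 : p ∣ v := hpd.trans (Nat.gcd_dvd_right _ _)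
    have h3 : p ∣ d := by
      rw [hd]; exact Nat.dvd_gcd h1 (by rw [hv]; exact h2.mul_left d)
    have h4 : p ∣ 1 := by
      rw [← Nat.coprime_iff_gcd_eq_one.1 hc1]; exact Nat.dvd_gcd h3 h2
    exact hp.one_lt.ne' (Nat.dvd_one.1 h4)
  refine ⟨a, d, v, ha0, hd0, by rw [hd]; exact Nat.gcd_dvd_left _ _, ?_, ?_, hsv⟩
  · rw [← hab, hv]; ring
  · exact Nat.Coprime.mul_left (Nat.Coprime.pow_left 2 hav) hc1

/-- a prime dividing `a² d v` exactly once divides `v` -/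
theorem prime_exact (a d v p : ℕ) (hda : d ∣ a) (hp : p.Prime) (h1 : p ∣ (a ^ 2 * d) * v)
    (h2 : ¬ p ^ 2 ∣ (a ^ 2 * d) * v) : p ∣ v := by
  rcases (Nat.Prime.dvd_mul hp).1 h1 with h | h
  · exfalso
    have h3 : p ∣ a := by
      rcases (Nat.Prime.dvd_mul hp).1 h with h4 | h4
      · exact hp.dvd_of_dvd_pow h4
      · exact h4.trans hda
    exact h2 (((pow_dvd_pow_of_dvd h3 2).mul_right d).mul_right v)
  · exact h

theorem sqf_dvd (a b : ℕ) (ha : Squarefree a) (h : ∀ p : ℕ, p.Prime → p ∣ a → p ∣ b) : a ∣ b := by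
  rw [← Nat.prod_primeFactors_of_squarefree ha]
  refine Finset.prod_primes_dvd b ?_ ?_
  · intro p hp
    exact (Nat.prime_of_mem_primeFactors hp).prime
  · intro p hp
    exact h p (Nat.prime_of_mem_primeFactors hp) (Nat.dvd_of_mem_primeFactors hp)

theorem sum_inv_le (X : ℕ) : ∑ a ∈ Icc 1 X, 1 / (a : ℝ) ≤ 1 + Real.log X := by
  have h1 := harmonic_le_one_add_log X
  rw [harmonic_eq_sum_Icc] at h1
  push_cast at h1
  simpa [one_div] using h1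

theorem Gf_sum (ε : ℝ) (hε : 0 < ε) : ∃ C : ℝ, 0 < C ∧ ∀ X B : ℕ, 1 ≤ X → 1 ≤ B →
    ∑ m ∈ Icc 1 X, Gf X B m ≤ C * (X : ℝ) ^ (1 + ε) * (B.divisors.card : ℝ) := by
  obtain ⟨C, hC, hτ⟩ := Pool.Agent.H510R2.divisor_bound (ε / 2) (by positivity)
  obtain ⟨-, hgcd, -⟩ := Pool.Agent.H262R4.FR.t_W3
  refine ⟨C * (1 + 2 / ε), by positivity, ?_⟩
  intro X B hX hB
  have hXR : (1 : ℝ) ≤ X := by exact_mod_cast hX
  have hX0 : (0 : ℝ) < X := by linarith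
  have hτ0 : (0 : ℝ) ≤ (B.divisors.card : ℝ) := Nat.cast_nonneg _
  -- the inner sums
  have h1 : ∀ a ∈ Icc 1 X, ∀ d ∈ a.divisors, ∑ m ∈ Icc 1 X, (if a ^ 2 * d ∣ m then
      (a : ℝ) * Real.sqrt d * Real.sqrt (Nat.gcd (m / (a ^ 2 * d)) B) else 0) ≤
      X * (B.divisors.card : ℝ) * (1 / a) := by
    intro a ha d hd
    rw [mem_Icc] at ha
    have hd0 : 0 < d := Nat.pos_of_mem_divisors hd
    have ha0 : 0 < a := ha.1
    have haR : (0 : ℝ) < a := by exact_mod_cast ha0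
    have hdR : (1 : ℝ) ≤ d := by exact_mod_cast hd0
    have hD0 : 0 < a ^ 2 * d := by positivity
    have h2 : ∑ m ∈ Icc 1 X, (if a ^ 2 * d ∣ m then
      (a : ℝ) * Real.sqrt d * Real.sqrt (Nat.gcd (m / (a ^ 2 * d)) B) else 0) =
      (a : ℝ) * Real.sqrt d * ∑ k ∈ Icc 1 (X / (a ^ 2 * d)), Real.sqrt (Int.gcd (B : ℤ) k) := by
      rw [← Finset.sum_filter, Finset.mul_sum]
      refine Finset.sum_nbij' (fun m => m / (a ^ 2 * d)) (fun k => (a ^ 2 * d) * k) ?_ ?_ ?_ ?_ ?_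
      · intro m hm
        rw [mem_filter, mem_Icc] at hm
        rw [mem_Icc]
        exact ⟨Nat.div_pos (Nat.le_of_dvd (by omega) hm.2) hD0, Nat.div_le_div_right hm.1.2⟩
      · intro k hk
        rw [mem_Icc] at hk
        rw [mem_filter, mem_Icc]
        refine ⟨⟨Nat.mul_pos hD0 hk.1, ?_⟩, dvd_mul_right _ _⟩
        exact (Nat.mul_le_mul_left _ hk.2).trans (Nat.mul_div_le _ _)
      · intro m hm
        rw [mem_filter] at hm
        exact Nat.mul_div_cancel' hm.2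
      · intro k _
        exact Nat.mul_div_cancel_left _ hD0
      · intro m _
        rw [Int.gcd_natCast_natCast, Nat.gcd_comm]
    rw [h2]
    have h3 := hgcd (B : ℤ) (X / (a ^ 2 * d)) (by exact_mod_cast (by omega : B ≠ 0))
    rw [Int.natAbs_natCast] at h3
    have h4 : ((X / (a ^ 2 * d) : ℕ) : ℝ) ≤ X / ((a : ℝ) ^ 2 * d) := by
      have := Nat.cast_div_le (α := ℝ) (m := X) (n := a ^ 2 * d)
      push_cast at this
      exact this
    have h5 : Real.sqrt d ≤ d := by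
      rw [Real.sqrt_le_left (by linarith)]
      nlinarith
    calc (a : ℝ) * Real.sqrt d * ∑ k ∈ Icc 1 (X / (a ^ 2 * d)), Real.sqrt (Int.gcd (B : ℤ) k)
        ≤ (a : ℝ) * d * ((X / ((a : ℝ) ^ 2 * d)) * (B.divisors.card : ℝ)) := by
          have h6 : ∑ k ∈ Icc 1 (X / (a ^ 2 * d)), Real.sqrt (Int.gcd (B : ℤ) k) ≤
              (X / ((a : ℝ) ^ 2 * d)) * (B.divisors.card : ℝ) :=
            h3.trans (mul_le_mul_of_nonneg_right h4 hτ0)
          have h7 : 0 ≤ ∑ k ∈ Icc 1 (X / (a ^ 2 * d)), Real.sqrt (Int.gcd (B : ℤ) k) :=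
            Finset.sum_nonneg fun _ _ => Real.sqrt_nonneg _
          gcongr
      _ = X * (B.divisors.card : ℝ) * (1 / a) := by
          field_simp
  have h8 : ∑ m ∈ Icc 1 X, Gf X B m = ∑ a ∈ Icc 1 X, ∑ d ∈ a.divisors, ∑ m ∈ Icc 1 X,
      (if a ^ 2 * d ∣ m then
      (a : ℝ) * Real.sqrt d * Real.sqrt (Nat.gcd (m / (a ^ 2 * d)) B) else 0) := by
    unfold Gf
    rw [Finset.sum_comm]
    refine Finset.sum_congr rfl fun a _ => ?_
    rw [Finset.sum_comm]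
  rw [h8]
  have h9 : ∀ a ∈ Icc 1 X, ∑ d ∈ a.divisors, ∑ m ∈ Icc 1 X,
      (if a ^ 2 * d ∣ m then
      (a : ℝ) * Real.sqrt d * Real.sqrt (Nat.gcd (m / (a ^ 2 * d)) B) else 0) ≤
      (C * (X : ℝ) ^ (ε / 2)) * (X * (B.divisors.card : ℝ)) * (1 / a) := by
    intro a ha
    refine (Finset.sum_le_sum (h1 a ha)).trans ?_
    rw [Finset.sum_const, nsmul_eq_mul]
    rw [mem_Icc] at ha
    have haR : (0 : ℝ) < a := by exact_mod_cast ha.1
    have h10 : (a.divisors.card : ℝ) ≤ C * (X : ℝ) ^ (ε / 2) := by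
      refine (hτ a ha.1).trans ?_
      have : (a : ℝ) ≤ X := by exact_mod_cast ha.2
      gcongr
    calc (a.divisors.card : ℝ) * (X * (B.divisors.card : ℝ) * (1 / a))
        ≤ (C * (X : ℝ) ^ (ε / 2)) * (X * (B.divisors.card : ℝ) * (1 / a)) := by gcongr
      _ = _ := by ring
  refine (Finset.sum_le_sum h9).trans ?_
  rw [← Finset.mul_sum]
  have h11 : ∑ a ∈ Icc 1 X, 1 / (a : ℝ) ≤ (1 + 2 / ε) * (X : ℝ) ^ (ε / 2) := by
    refine (sum_inv_le X).trans ?_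
    have h12 : Real.log X ≤ (X : ℝ) ^ (ε / 2) / (ε / 2) :=
      Real.log_le_rpow_div hX0.le (by positivity)
    have h13 : (1 : ℝ) ≤ (X : ℝ) ^ (ε / 2) := Real.one_le_rpow hXR (by positivity)
    have h14 : (X : ℝ) ^ (ε / 2) / (ε / 2) = 2 / ε * (X : ℝ) ^ (ε / 2) := by
      field_simp
    rw [h14] at h12
    linarith
  have h15 : (X : ℝ) ^ (1 + ε) = X * ((X : ℝ) ^ (ε / 2) * (X : ℝ) ^ (ε / 2)) := by
    rw [← Real.rpow_add hX0]
    nth_rewrite 2 [← Real.rpow_one (X : ℝ)]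
    rw [← Real.rpow_add hX0]
    congr 1
    ring
  calc (C * (X : ℝ) ^ (ε / 2)) * (X * (B.divisors.card : ℝ)) * ∑ a ∈ Icc 1 X, 1 / (a : ℝ)
      ≤ (C * (X : ℝ) ^ (ε / 2)) * (X * (B.divisors.card : ℝ)) *
        ((1 + 2 / ε) * (X : ℝ) ^ (ε / 2)) := by gcongr
    _ = _ := by rw [h15]; ring

/-- sums over products of three variables -/
theorem triple (ε : ℝ) (hε : 0 < ε) : ∃ C : ℝ, 0 < C ∧ ∀ (R S X : ℕ) (F : ℕ → ℝ), 1 ≤ X → 1 ≤ S →
    R * (2 * S) * (2 * S) ≤ X → (∀ m, 0 ≤ F m) →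
    ∑ r ∈ Icc 1 R, ∑ s1 ∈ Ico S (2 * S), ∑ s2 ∈ Ico S (2 * S), F (r * s1 * s2) ≤
      C * (X : ℝ) ^ ε * ∑ m ∈ Icc 1 X, F m := by
  obtain ⟨C, hC, hτ⟩ := Pool.Agent.H510R2.divisor_bound (ε / 2) (by positivity)
  refine ⟨C ^ 2, by positivity, ?_⟩
  intro R S X F hX hS hRX hF
  have hXR : (1 : ℝ) ≤ X := by exact_mod_cast hX
  have hX0 : (0 : ℝ) < X := by linarith
  set P : Finset (ℕ × (ℕ × ℕ)) := Icc 1 R ×ˢ (Ico S (2 * S) ×ˢ Ico S (2 * S)) with hP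
  have h1 : ∑ r ∈ Icc 1 R, ∑ s1 ∈ Ico S (2 * S), ∑ s2 ∈ Ico S (2 * S), F (r * s1 * s2) =
      ∑ x ∈ P, F (x.1 * x.2.1 * x.2.2) := by
    rw [hP, Finset.sum_product]
    refine Finset.sum_congr rfl fun r _ => ?_
    rw [Finset.sum_product]
  rw [h1]
  have hmem : ∀ x ∈ P, 1 ≤ x.1 ∧ x.1 ≤ R ∧ 1 ≤ x.2.1 ∧ x.2.1 ≤ 2 * S ∧ 1 ≤ x.2.2 ∧
      x.2.2 ≤ 2 * S := by
    intro x hx
    rw [hP, mem_product, mem_product, mem_Icc, mem_Ico, mem_Ico] at hx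
    omega
  have h2 : ∑ x ∈ P, F (x.1 * x.2.1 * x.2.2) = ∑ m ∈ Icc 1 X,
      ∑ x ∈ P.filter (fun x => x.1 * x.2.1 * x.2.2 = m), F (x.1 * x.2.1 * x.2.2) := by
    rw [Finset.sum_fiberwise_of_maps_to]
    intro x hx
    obtain ⟨a1, a2, a3, a4, a5, a6⟩ := hmem x hx
    rw [mem_Icc]
    refine ⟨Nat.mul_pos (Nat.mul_pos a1 a3) a5, ?_⟩
    exact (Nat.mul_le_mul (Nat.mul_le_mul a2 a4) a6).trans hRX
  rw [h2, Finset.mul_sum]
  refine Finset.sum_le_sum fun m hm => ?_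
  rw [mem_Icc] at hm
  have h3 : ∑ x ∈ P.filter (fun x => x.1 * x.2.1 * x.2.2 = m), F (x.1 * x.2.1 * x.2.2) =
      ((P.filter (fun x => x.1 * x.2.1 * x.2.2 = m)).card : ℝ) * F m := by
    rw [← nsmul_eq_mul, ← Finset.sum_const]
    refine Finset.sum_congr rfl fun x hx => ?_
    rw [mem_filter] at hx
    rw [hx.2]
  rw [h3]
  refine mul_le_mul_of_nonneg_right ?_ (hF m)
  have h4 : (P.filter (fun x => x.1 * x.2.1 * x.2.2 = m)).card ≤
      (m.divisors ×ˢ m.divisors).card := by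
    apply Finset.card_le_card_of_injOn (fun x => (x.2.1, x.2.2))
    · intro x hx
      have hx' := Finset.mem_filter.1 (Finset.mem_coe.1 hx)
      rw [Finset.mem_coe, mem_product, Nat.mem_divisors, Nat.mem_divisors]
      have hN0 : m ≠ 0 := by omega
      refine ⟨⟨⟨x.1 * x.2.2, ?_⟩, hN0⟩, ⟨⟨x.1 * x.2.1, ?_⟩, hN0⟩⟩
      · rw [← hx'.2]; ring
      · rw [← hx'.2]; ring
    · intro x hx y hy hxy
      have hx' := Finset.mem_filter.1 (Finset.mem_coe.1 hx)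
      have hy' := Finset.mem_filter.1 (Finset.mem_coe.1 hy)
      obtain ⟨a1, a2, a3, a4, a5, a6⟩ := hmem x hx'.1
      have h1 : x.2.1 = y.2.1 := congrArg Prod.fst hxy
      have h2 : x.2.2 = y.2.2 := congrArg Prod.snd hxy
      have h3 : x.1 * x.2.1 * x.2.2 = y.1 * x.2.1 * x.2.2 := by
        rw [hx'.2, ← hy'.2, h1, h2]
      have h4 : x.1 = y.1 := by
        rw [mul_assoc, mul_assoc] at h3
        exact Nat.eq_of_mul_eq_mul_right (Nat.mul_pos a3 a5) h3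
      ext
      · exact h4
      · exact h1
      · exact h2
  rw [Finset.card_product] at h4
  have h5 : (m.divisors.card : ℝ) ≤ C * (X : ℝ) ^ (ε / 2) := by
    refine (hτ m hm.1).trans ?_
    have : (m : ℝ) ≤ X := by exact_mod_cast hm.2
    gcongr
  calc ((P.filter (fun x => x.1 * x.2.1 * x.2.2 = m)).card : ℝ)
      ≤ (m.divisors.card : ℝ) * m.divisors.card := by exact_mod_cast h4
    _ ≤ (C * (X : ℝ) ^ (ε / 2)) * (C * (X : ℝ) ^ (ε / 2)) := by gcongr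
    _ = C ^ 2 * ((X : ℝ) ^ (ε / 2) * (X : ℝ) ^ (ε / 2)) := by ring
    _ = C ^ 2 * (X : ℝ) ^ ε := by
        rw [← Real.rpow_add hX0]
        congr 2
        ring

end Run7.h294
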