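import Pool.Agent.Run7.h294.W1g
import Pool.Agent.Run7.h294.Sq
import Pool.Agent.H442R2.FX.Wf
import Pool.Agent.H262R4.TM.Defs2

set_option autoImplicit false

/-! Trilinear forms with Kloosterman fractions, one factorable variable, arbitrary moduli: the inner sum. -/

namespace Run7.h294

open Finset
open Pool.Agent.H442R2.KF
open Pool.Agent.H442R2.KF.TaskA
open Pool.Agent.H442R2.FX.TaskWF (aw kf_prod conj_kf lip3 cauchy_n)
open Pool.Agent.H262R4.FR.TW2 (W1c B0 B0_ne B0_abs_le expand_sq sum_quad)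
open Pool.Agent.H262R4.TM (Wx)

theorem low_bd (H K m : ℕ) (x : ℝ) (hm : H < m) (hx : (K : ℝ) ≤ x) :
    (H : ℝ) * K / 2 ≤ (m : ℝ) * x := by
  have h1 : (H : ℝ) ≤ m := by exact_mod_cast hm.le
  have h0 : (0 : ℝ) ≤ H := Nat.cast_nonneg _
  have h2 : (0 : ℝ) ≤ K := Nat.cast_nonneg _
  have h3 : (H : ℝ) * K ≤ m * x := mul_le_mul h1 hx h2 (h0.trans h1)
  have h4 : 0 ≤ (H : ℝ) * K := mul_nonneg h0 h2
  linarith

theorem norm_aw_le (H K : ℕ) (V : ℝ) (γ : ℕ → ℕ → ℂ) (ψ : ℕ → ℝ → ℂ)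
    (hψ : ∀ j, Wx ((H : ℝ) * K / 2) V (ψ j)) (hγ1 : ∀ r s, ‖γ r s‖ ≤ 1)
    (hγ2 : ∀ r s, γ r s ≠ 0 → r * s ∈ Ioc H (2 * H))
    (k : ℤ) (r s j n : ℕ) (hn : K < n) : ‖aw γ ψ k r s j n‖ ≤ 1 := by
  unfold aw
  split_ifs
  · by_cases hz : γ r s = 0
    · rw [hz, zero_mul, norm_zero]; exact zero_le_one
    · have h1 := (Finset.mem_Ioc.1 (hγ2 r s hz)).1
      rw [norm_mul, norm_mul, norm_kf, mul_one]
      have h2 : ‖ψ j (((r * s : ℕ) : ℝ) * n)‖ ≤ 1 :=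
        (hψ j).bd _ (low_bd H K (r * s) n h1 (by exact_mod_cast hn.le))
      calc _ ≤ (1 : ℝ) * 1 := mul_le_mul (hγ1 r s) h2 (norm_nonneg _) zero_le_one
        _ = 1 := one_mul 1
  · simp

/-- the good part of `v / gcd(B, v)` -/
theorem gcd_div_le (B : ℤ) (v vr Bn : ℕ) (hv : Squarefree v) (hvr : Squarefree vr)
    (h : ∀ p : ℕ, p.Prime → p ∣ vr → ¬ p ∣ Bn → p ∣ v ∧ ¬ p ∣ B.natAbs) (hBn : 0 < Bn) :
    (Int.gcd B v : ℝ) / v ≤ (Nat.gcd vr Bn : ℝ) / vr := by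
  have hv0 : 0 < v := Nat.pos_of_ne_zero hv.ne_zero
  have hvr0 : 0 < vr := Nat.pos_of_ne_zero hvr.ne_zero
  obtain ⟨w, hw⟩ : Nat.gcd vr Bn ∣ vr := Nat.gcd_dvd_left _ _
  have hg0 : 0 < Nat.gcd vr Bn := Nat.gcd_pos_of_pos_left _ hvr0
  have hsq := hvr
  rw [hw, Nat.squarefree_mul_iff] at hsq
  obtain ⟨hc, -, hsw⟩ := hsq
  have hprime : ∀ p : ℕ, p.Prime → p ∣ w → p ∣ v ∧ ¬ p ∣ B.natAbs := by
    intro p hp hpw
    have h1 : p ∣ vr := by rw [hw]; exact hpw.mul_left _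
    apply h p hp h1
    intro hpB
    have h2 : p ∣ Nat.gcd vr Bn := Nat.dvd_gcd h1 hpB
    have h3 : p ∣ 1 := by
      rw [← Nat.coprime_iff_gcd_eq_one.1 hc]; exact Nat.dvd_gcd h2 hpw
    exact hp.one_lt.ne' (Nat.dvd_one.1 h3)
  have hwv : w ∣ v := sqf_dvd w v hsw (fun p hp hpw => (hprime p hp hpw).1)
  have hgB : Int.gcd B v = Nat.gcd B.natAbs v := rfl
  have hcop : Nat.Coprime w (Nat.gcd B.natAbs v) := by
    rw [Nat.coprime_iff_gcd_eq_one]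
    by_contra hne
    obtain ⟨p, hp, hpd⟩ := Nat.exists_prime_and_dvd hne
    exact (hprime p hp (hpd.trans (Nat.gcd_dvd_left _ _))).2
      ((hpd.trans (Nat.gcd_dvd_right _ _)).trans (Nat.gcd_dvd_left _ _))
  have hdvd : w * Nat.gcd B.natAbs v ∣ v := hcop.mul_dvd_of_dvd_of_dvd hwv (Nat.gcd_dvd_right _ _)
  have hle : w * Nat.gcd B.natAbs v ≤ v := Nat.le_of_dvd hv0 hdvd
  have hvR : (0 : ℝ) < v := by exact_mod_cast hv0
  have hvrR : (0 : ℝ) < vr := by exact_mod_cast hvr0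
  rw [hgB, div_le_div_iff₀ hvR hvrR]
  have h5 : Nat.gcd B.natAbs v * vr ≤ Nat.gcd vr Bn * v := by
    calc Nat.gcd B.natAbs v * vr = Nat.gcd B.natAbs v * (Nat.gcd vr Bn * w) := by rw [← hw]
      _ = Nat.gcd vr Bn * (w * Nat.gcd B.natAbs v) := by ring
      _ ≤ _ := Nat.mul_le_mul_left _ hle
  exact_mod_cast h5

theorem inner (ε C : ℝ) (hε : 0 < ε) (hC : 0 < C) (hW : W1c ε C) (H K S J R X : ℕ) (hH : 1 ≤ H)
    (hK : 1 ≤ K) (hS : 1 ≤ S) (V : ℝ) (hV : 1 ≤ V) (ψ : ℕ → ℝ → ℂ)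
    (hψ : ∀ j, Wx ((H : ℝ) * K / 2) V (ψ j)) (k : ℤ)
    (hk : k ≠ 0) (hkJ : |(k : ℝ)| * J ≤ V * ((H : ℝ) * K)) (γ : ℕ → ℕ → ℂ)
    (hγ1 : ∀ r s, ‖γ r s‖ ≤ 1)
    (hγ2 : ∀ r s, γ r s ≠ 0 → r * s ∈ Ioc H (2 * H))
    (r s1 s2 j1 j2 : ℕ) (hrR : r ≤ R) (hs1 : s1 ∈ Ico S (2 * S)) (hs2 : s2 ∈ Ico S (2 * S))
    (hj1 : j1 ∈ Icc 1 J) (hj2 : j2 ∈ Icc 1 J) (hne : j1 * s2 ≠ j2 * s1) (hX : r * s1 * s2 ≤ X) :
    ‖∑ n ∈ Ioc K (2 * K), aw γ ψ k r s1 j1 n * (starRingEnd ℂ) (aw γ ψ k r s2 j2 n)‖ ≤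
      C * (X : ℝ) ^ ε * (22 * V) * (4 * Real.sqrt ((H : ℝ) * S) * Gf X 1 (r * s1 * s2) +
        K * Real.sqrt (2 * S / H) * Gf R ((B0 k s1 s2 j1 j2).natAbs * (s1 * s2)) r) := by
  have hH0 : (0 : ℝ) < H := by exact_mod_cast hH
  have hK0 : (0 : ℝ) < K := by exact_mod_cast hK
  have hS0 : (0 : ℝ) < S := by exact_mod_cast hS
  have hV0 : 0 < V := by linarith
  have hRnn : 0 ≤ C * (X : ℝ) ^ ε * (22 * V) * (4 * Real.sqrt ((H : ℝ) * S) *
      Gf X 1 (r * s1 * s2) + K * Real.sqrt (2 * S / H) *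
        Gf R ((B0 k s1 s2 j1 j2).natAbs * (s1 * s2)) r) := by
    have h1 := Gf_nonneg X 1 (r * s1 * s2)
    have h2 := Gf_nonneg R ((B0 k s1 s2 j1 j2).natAbs * (s1 * s2)) r
    positivity
  by_cases hz1 : γ r s1 = 0
  · have h0 : ∀ n ∈ Ioc K (2 * K), aw γ ψ k r s1 j1 n *
        (starRingEnd ℂ) (aw γ ψ k r s2 j2 n) = 0 := by
      intro n _
      have : aw γ ψ k r s1 j1 n = 0 := by unfold aw; simp [hz1]
      rw [this, zero_mul]
    rw [Finset.sum_eq_zero h0, norm_zero]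
    exact hRnn
  by_cases hz2 : γ r s2 = 0
  · have h0 : ∀ n ∈ Ioc K (2 * K), aw γ ψ k r s1 j1 n *
        (starRingEnd ℂ) (aw γ ψ k r s2 j2 n) = 0 := by
      intro n _
      have : aw γ ψ k r s2 j2 n = 0 := by unfold aw; simp [hz2]
      rw [this, map_zero, mul_zero]
    rw [Finset.sum_eq_zero h0, norm_zero]
    exact hRnn
  have hco1 := hγ2 r s1 hz1
  have hco2 := hγ2 r s2 hz2
  rw [Finset.mem_Ioc] at hco1 hco2
  rw [Finset.mem_Ico] at hs1 hs2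
  rw [Finset.mem_Icc] at hj1 hj2
  have hs10 : 0 < s1 := by omega
  have hs20 : 0 < s2 := by omega
  have hr0 : 0 < r := Nat.pos_of_ne_zero (by rintro rfl; simp at hco1)
  have hB0 := B0_ne k s1 s2 j1 j2 hk hs10 hne
  have hg : 0 < Nat.gcd s1 s2 := Nat.gcd_pos_of_pos_left _ hs10
  obtain ⟨t1, ht1⟩ := Nat.gcd_dvd_left s1 s2
  obtain ⟨t2, ht2⟩ := Nat.gcd_dvd_right s1 s2
  have hB0e : B0 k s1 s2 j1 j2 = (j1 : ℤ) * k * t2 - (j2 : ℤ) * k * t1 := by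
    unfold B0
    rw [Nat.div_eq_of_eq_mul_right hg ht1, Nat.div_eq_of_eq_mul_right hg ht2]
  set g := Nat.gcd s1 s2 with hgdef
  rw [hB0e] at hB0 ⊢
  have ht10 : 0 < t1 := Nat.pos_of_ne_zero (by rintro rfl; simp at ht1; omega)
  have ht20 : 0 < t2 := Nat.pos_of_ne_zero (by rintro rfl; simp at ht2; omega)
  set B : ℤ := (j1 : ℤ) * k * t2 - (j2 : ℤ) * k * t1 with hB
  obtain ⟨w, hw⟩ : ∃ w : ℕ, w = g * (t1 * t2) := ⟨_, rfl⟩
  have hw0 : 0 < w := by rw [hw]; positivity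
  obtain ⟨q, hq⟩ : ∃ q : ℕ, q = r * w := ⟨_, rfl⟩
  have hq0 : 0 < q := by rw [hq]; positivity
  have hr1 : (r * s1) * t2 = q := by rw [hq, hw, ht1]; ring
  have hr2 : (r * s2) * t1 = q := by rw [hq, hw, ht2]; ring
  have hqg : r * s1 * s2 = q * g := by
    rw [hq, hw]
    calc r * s1 * s2 = r * (g * t1) * (g * t2) := by rw [← ht1, ← ht2]
      _ = _ := by ring
  have hqX : q ≤ X := by
    refine le_trans ?_ hX
    rw [hqg]
    exact Nat.le_mul_of_pos_right _ hg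
  have hiff : ∀ n : ℕ, (Nat.Coprime (r * s1) n ∧ Nat.Coprime (r * s2) n) ↔ Nat.Coprime n q := by
    intro n
    constructor
    · rintro ⟨h1, h2⟩
      rw [← hr1]
      refine Nat.Coprime.mul_right h1.symm ?_
      exact h2.symm.coprime_dvd_right ⟨r * g, by rw [ht2]; ring⟩
    · intro h1
      exact ⟨(h1.coprime_dvd_right (Dvd.intro _ hr1)).symm,
        (h1.coprime_dvd_right (Dvd.intro _ hr2)).symm⟩
  -- rewriting the sum
  set Ω : ℝ → ℂ := fun x => ψ j1 (((r * s1 : ℕ) : ℝ) * x) *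
    (starRingEnd ℂ) (ψ j2 (((r * s2 : ℕ) : ℝ) * x)) * e ((B : ℝ) / (x * q)) with hΩ
  have hsum : ∑ n ∈ Ioc K (2 * K), aw γ ψ k r s1 j1 n *
        (starRingEnd ℂ) (aw γ ψ k r s2 j2 n) =
      (γ r s1 * (starRingEnd ℂ) (γ r s2)) *
        ∑ n ∈ (Icc (K + 1) (2 * K)).filter (fun n => Nat.Coprime n q),
          Ω n * kf (-B) (n : ℤ) q := by
    have hI : Ioc K (2 * K) = Icc (K + 1) (2 * K) := by
      ext x; rw [Finset.mem_Ioc, Finset.mem_Icc]; omega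
    rw [hI, Finset.sum_filter, Finset.mul_sum]
    refine Finset.sum_congr rfl fun n hn => ?_
    have hn0 : 0 < n := by rw [Finset.mem_Icc] at hn; omega
    unfold aw
    by_cases hcc : Nat.Coprime n q
    · obtain ⟨h1, h2⟩ := (hiff n).2 hcc
      have hkp := kf_prod n q (r * s1) (r * s2) t1 t2 hn0 hr1 hr2 hcc.symm ((j1 : ℤ) * k)
        ((j2 : ℤ) * k)
      have hrec := kf_recip B q n hq0 hn0 hcc.symm
      rw [conj_kf] at hrec
      rw [← hB, hrec] at hkp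
      rw [if_pos h1, if_pos h2, if_pos hcc, hΩ]
      simp only [map_mul]
      calc _ = (γ r s1 * (starRingEnd ℂ) (γ r s2)) * (ψ j1 (((r * s1 : ℕ) : ℝ) * n) *
            (starRingEnd ℂ) (ψ j2 (((r * s2 : ℕ) : ℝ) * n))) *
            (kf ((j1 : ℤ) * k) ((r * s1 : ℕ) : ℤ) n *
              (starRingEnd ℂ) (kf ((j2 : ℤ) * k) ((r * s2 : ℕ) : ℤ) n)) := by ring
        _ = _ := by rw [hkp]; ring
    · rw [if_neg hcc, mul_zero]
      by_cases h1 : Nat.Coprime (r * s1) n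
      · have h2 : ¬ Nat.Coprime (r * s2) n := fun h2 => hcc ((hiff n).1 ⟨h1, h2⟩)
        rw [if_neg h2, map_zero, mul_zero]
      · rw [if_neg h1, zero_mul]
  -- the weight
  have hxlow : ∀ x ∈ Set.Icc ((K + 1 : ℕ) : ℝ) ((2 * K : ℕ) : ℝ), (K : ℝ) ≤ x := by
    intro x hx
    have := hx.1
    push_cast at this
    linarith
  have hqR0 : (0 : ℝ) < q := by exact_mod_cast hq0
  have hBq : |(B : ℝ)| ≤ 2 * V * K * q := by
    have ht1R : (0 : ℝ) < t1 := by exact_mod_cast ht10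
    have ht2R : (0 : ℝ) < t2 := by exact_mod_cast ht20
    have hj1R : (j1 : ℝ) ≤ J := by exact_mod_cast hj1.2
    have hj2R : (j2 : ℝ) ≤ J := by exact_mod_cast hj2.2
    have h1 : (B : ℝ) = k * ((j1 : ℝ) * t2 - j2 * t1) := by rw [hB]; push_cast; ring
    have h2 : |(j1 : ℝ) * t2 - j2 * t1| ≤ J * (t1 + t2) := by
      rw [abs_le]
      have a1 : (0 : ℝ) ≤ (j1 : ℝ) * t2 := by positivity
      have a2 : (0 : ℝ) ≤ (j2 : ℝ) * t1 := by positivity
      have a3 : (j1 : ℝ) * t2 ≤ J * t2 := by gcongr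
      have a4 : (j2 : ℝ) * t1 ≤ J * t1 := by gcongr
      have a5 : (0 : ℝ) ≤ (J : ℝ) * t1 := by positivity
      have a6 : (0 : ℝ) ≤ (J : ℝ) * t2 := by positivity
      have a7 : (J : ℝ) * (t1 + t2) = J * t1 + J * t2 := by ring
      constructor <;> linarith
    have h3 : (H : ℝ) * t2 ≤ q := by
      have a1 : H * t2 ≤ q := by
        rw [← hr1]; exact Nat.mul_le_mul_right _ hco1.1.le
      exact_mod_cast a1
    have h4 : (H : ℝ) * t1 ≤ q := by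
      have a1 : H * t1 ≤ q := by
        rw [← hr2]; exact Nat.mul_le_mul_right _ hco2.1.le
      exact_mod_cast a1
    rw [h1, abs_mul]
    calc |(k : ℝ)| * |(j1 : ℝ) * t2 - j2 * t1| ≤ |(k : ℝ)| * (J * (t1 + t2)) := by gcongr
      _ = (|(k : ℝ)| * J) * (t1 + t2) := by ring
      _ ≤ (V * ((H : ℝ) * K)) * (t1 + t2) := by gcongr
      _ = V * K * (H * t1 + H * t2) := by ring
      _ ≤ V * K * (q + q) := by gcongr
      _ = _ := by ring
  have hΩ1 : ∀ x ∈ Set.Icc ((K + 1 : ℕ) : ℝ) ((2 * K : ℕ) : ℝ), ‖Ω x‖ ≤ 1 := by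
    intro x hx
    rw [hΩ]
    simp only [norm_mul, RCLike.norm_conj, norm_e, mul_one]
    calc _ ≤ (1 : ℝ) * 1 := mul_le_mul ((hψ j1).bd _ (low_bd H K _ x hco1.1 (hxlow x hx)))
          ((hψ j2).bd _ (low_bd H K _ x hco2.1 (hxlow x hx))) (norm_nonneg _) zero_le_one
      _ = 1 := one_mul 1
  have hψlip : ∀ x ∈ Set.Icc ((K + 1 : ℕ) : ℝ) ((2 * K : ℕ) : ℝ),
      ∀ x' ∈ Set.Icc ((K + 1 : ℕ) : ℝ) ((2 * K : ℕ) : ℝ), ∀ (j m : ℕ), H < m →
      m ≤ 2 * H → ‖ψ j ((m : ℝ) * x) - ψ j ((m : ℝ) * x')‖ ≤ 4 * V / K * |x - x'| := by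
    intro x hx x' hx' j m hm hm'
    refine ((hψ j).lip _ _ (low_bd H K m x hm (hxlow x hx))
      (low_bd H K m x' hm (hxlow x' hx'))).trans ?_
    have h1 : (m : ℝ) * x - m * x' = m * (x - x') := by ring
    rw [h1, abs_mul, abs_of_nonneg (Nat.cast_nonneg m), div_le_iff₀ (by positivity)]
    have h2 : (m : ℝ) ≤ 2 * H := by exact_mod_cast hm'
    calc V * ((m : ℝ) * |x - x'|) ≤ V * ((2 * H) * |x - x'|) := by gcongr
      _ = 4 * V / K * |x - x'| * (H * K / 2) := by field_simp; ring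
  have helip : ∀ x ∈ Set.Icc ((K + 1 : ℕ) : ℝ) ((2 * K : ℕ) : ℝ),
      ∀ x' ∈ Set.Icc ((K + 1 : ℕ) : ℝ) ((2 * K : ℕ) : ℝ),
      ‖e ((B : ℝ) / (x * q)) - e ((B : ℝ) / (x' * q))‖ ≤ 13 * V / K * |x - x'| := by
    intro x hx x' hx'
    have hxl := hxlow x hx
    have hxl' := hxlow x' hx'
    have hx0 : 0 < x := by linarith
    have hx0' : 0 < x' := by linarith
    refine (norm_e_sub_le _ _).trans ?_
    have h1 : (B : ℝ) / (x * q) - (B : ℝ) / (x' * q) = (B : ℝ) * (x' - x) / (x * x' * q) := by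
      field_simp
    rw [h1, abs_div, abs_mul, abs_of_pos (by positivity : (0 : ℝ) < x * x' * q), abs_sub_comm x' x]
    have h2 : |(B : ℝ)| * |x - x'| / (x * x' * q) ≤ 2 * V / K * |x - x'| := by
      rw [div_le_iff₀ (by positivity)]
      have h3 : (K : ℝ) * K ≤ x * x' := by gcongr
      calc |(B : ℝ)| * |x - x'| ≤ (2 * V * K * q) * |x - x'| := by gcongr
        _ = 2 * V / K * |x - x'| * ((K * K) * q) := by field_simp
        _ ≤ 2 * V / K * |x - x'| * (x * x' * q) := by gcongr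
    calc 2 * Real.pi * (|(B : ℝ)| * |x - x'| / (x * x' * q))
        ≤ 2 * 3.25 * (2 * V / K * |x - x'|) := by
          gcongr
          have := Real.pi_lt_d2
          linarith
      _ = 13 * V / K * |x - x'| := by ring
  have hΩ2 : ∀ x ∈ Set.Icc ((K + 1 : ℕ) : ℝ) ((2 * K : ℕ) : ℝ),
      ∀ x' ∈ Set.Icc ((K + 1 : ℕ) : ℝ) ((2 * K : ℕ) : ℝ),
      ‖Ω x - Ω x'‖ ≤ 21 * V / K * |x - x'| := by
    intro x hx x' hx'
    rw [hΩ]
    have b1 := (hψ j1).bd _ (low_bd H K _ x hco1.1 (hxlow x hx))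
    have b1' := (hψ j1).bd _ (low_bd H K _ x' hco1.1 (hxlow x' hx'))
    have b2 := (hψ j2).bd _ (low_bd H K _ x hco2.1 (hxlow x hx))
    have b2' := (hψ j2).bd _ (low_bd H K _ x' hco2.1 (hxlow x' hx'))
    have l1 := hψlip x hx x' hx' j1 (r * s1) hco1.1 hco1.2
    have l2 := hψlip x hx x' hx' j2 (r * s2) hco2.1 hco2.2
    have l3 := helip x hx x' hx'
    refine (lip3 _ _ _ _ _ _ (4 * V / K * |x - x'|) (4 * V / K * |x - x'|)
      (13 * V / K * |x - x'|) b1 ?_ ?_ ?_ b1' l1 ?_ l3).trans (le_of_eq (by ring))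
    · rw [RCLike.norm_conj]; exact b2'
    · rw [RCLike.norm_conj]; exact b2
    · rw [norm_e]
    · rw [← map_sub, RCLike.norm_conj]; exact l2
  -- splitting the modulus
  obtain ⟨a, d, v, ha0, hd0, hda, hqs, hcuv, hsv⟩ := split_sq q hq0
  obtain ⟨ar, dr, vr, har0, hdr0, hdar, hrs, hcur, hsvr⟩ := split_sq r hr0
  have hu0 : 0 < a ^ 2 * d := by positivity
  have hmain := W1g ε C hC.le hW (a ^ 2 * d) v (K + 1) (2 * K) (-B) Ω (21 * V / K) hu0 hcuv hsv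
    (neg_ne_zero.2 hB0) (by omega) (by positivity) hΩ1 hΩ2
  rw [← hqs] at hmain
  have hgneg : Int.gcd (-B) (v : ℤ) = Int.gcd B v := Int.neg_gcd
  rw [hgneg] at hmain
  rw [hsum, norm_mul, norm_mul, RCLike.norm_conj]
  have hcc : ‖γ r s1‖ * ‖γ r s2‖ ≤ 1 := by
    calc _ ≤ (1 : ℝ) * 1 := mul_le_mul (hγ1 _ _) (hγ1 _ _) (norm_nonneg _) zero_le_one
      _ = 1 := one_mul 1
  refine (mul_le_mul hcc hmain (norm_nonneg _) zero_le_one).trans ?_
  rw [one_mul]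
  -- numerical bounds
  have hA : ((2 * K : ℕ) : ℝ) - ((K + 1 : ℕ) : ℝ) ≤ K := by push_cast; linarith
  have hA0 : 0 ≤ ((2 * K : ℕ) : ℝ) - ((K + 1 : ℕ) : ℝ) := by
    have : (1 : ℝ) ≤ K := by exact_mod_cast hK
    push_cast; linarith
  have hvX : (v : ℝ) ≤ X := by
    have : v ≤ q := by rw [hqs]; exact Nat.le_mul_of_pos_left _ hu0
    exact_mod_cast this.trans hqX
  have hvε : (v : ℝ) ^ ε ≤ (X : ℝ) ^ ε := Real.rpow_le_rpow (Nat.cast_nonneg _) hvX hε.le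
  have hfac : 1 + 21 * V / K * (((2 * K : ℕ) : ℝ) - ((K + 1 : ℕ) : ℝ)) ≤ 22 * V := by
    have h2 : 21 * V / K * (((2 * K : ℕ) : ℝ) - ((K + 1 : ℕ) : ℝ)) ≤ 21 * V / K * K := by gcongr
    have h3 : 21 * V / K * (K : ℝ) = 21 * V := by field_simp
    linarith
  -- first term
  have hqle : (q : ℝ) ≤ 4 * (H * S) := by
    have h1 : t2 ≤ s2 := Nat.le_of_dvd hs20 ⟨g, by rw [ht2]; ring⟩
    have h2 : q ≤ (2 * H) * (2 * S) := by
      rw [← hr1]; exact Nat.mul_le_mul hco1.2 (h1.trans hs2.2.le)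
    have h3 : (q : ℝ) ≤ (2 * H) * (2 * S) := by exact_mod_cast h2
    linarith
  have hT1 : (((a ^ 2 * d : ℕ) : ℝ)) * Real.sqrt v ≤
      2 * Real.sqrt ((H : ℝ) * S) * Gf X 1 (r * s1 * s2) := by
    have h1 : Real.sqrt (((a ^ 2 * d : ℕ) : ℝ)) = a * Real.sqrt d := by
      push_cast
      rw [Real.sqrt_mul (by positivity), Real.sqrt_sq (Nat.cast_nonneg _)]
    have h2 : (((a ^ 2 * d : ℕ) : ℝ)) * Real.sqrt v = (a * Real.sqrt d) * Real.sqrt q := by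
      have h3 : (q : ℝ) = ((a ^ 2 * d : ℕ) : ℝ) * v := by rw [hqs]; push_cast; ring
      rw [h3, Real.sqrt_mul (Nat.cast_nonneg _), ← h1, ← mul_assoc,
        Real.mul_self_sqrt (Nat.cast_nonneg _)]
    have h4 : Real.sqrt q ≤ 2 * Real.sqrt ((H : ℝ) * S) := by
      calc Real.sqrt q ≤ Real.sqrt (4 * (H * S)) := Real.sqrt_le_sqrt hqle
        _ = 2 * Real.sqrt ((H : ℝ) * S) := by
            rw [Real.sqrt_mul (by norm_num), show (4 : ℝ) = 2 ^ 2 by norm_num,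
              Real.sqrt_sq (by norm_num)]
    have h5 : (a : ℝ) * Real.sqrt d ≤ Gf X 1 (r * s1 * s2) := by
      have h6 : a ^ 2 * d ∣ r * s1 * s2 := by
        rw [hqg, hqs]
        exact (Dvd.intro _ rfl : a ^ 2 * d ∣ (a ^ 2 * d) * v).mul_right g
      have h7 : a ≤ X := by
        refine le_trans ?_ hqX
        rw [hqs]
        calc a = a * 1 * 1 * 1 := by ring
          _ ≤ a * a * d * v := by
              have := Nat.pos_of_ne_zero hsv.ne_zero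
              gcongr <;> omega
          _ = _ := by ring
      have h8 := Gf_ge X 1 (r * s1 * s2) a d ha0 h7 hda h6
      rw [Nat.gcd_one_right] at h8
      simpa using h8
    rw [h2]
    calc (a : ℝ) * Real.sqrt d * Real.sqrt q ≤ Gf X 1 (r * s1 * s2) *
          (2 * Real.sqrt ((H : ℝ) * S)) := by
          have := Gf_nonneg X 1 (r * s1 * s2)
          gcongr
      _ = _ := by ring
  -- second term
  have hrR0 : (0 : ℝ) < r := by exact_mod_cast hr0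
  have hT2 : Real.sqrt ((Int.gcd B v : ℝ) / v) ≤
      Real.sqrt (2 * S / H) * Gf R (B.natAbs * (s1 * s2)) r := by
    have hBn0 : 0 < B.natAbs * (s1 * s2) :=
      Nat.mul_pos (Int.natAbs_pos.2 hB0) (Nat.mul_pos hs10 hs20)
    have h1 := gcd_div_le B v vr (B.natAbs * (s1 * s2)) hsv hsvr (by
      intro p hp hpv hpB
      have hpB1 : ¬ p ∣ B.natAbs := fun h => hpB (h.mul_right _)
      have hps1 : ¬ p ∣ s1 := fun h => hpB ((h.mul_right s2).mul_left _)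
      have hps2 : ¬ p ∣ s2 := fun h => hpB ((h.mul_left s1).mul_left _)
      have hpr : p ∣ r := by rw [hrs]; exact hpv.mul_left _
      have hpur : ¬ p ∣ ar ^ 2 * dr := by
        intro h
        have h3 : p ∣ 1 := by
          rw [← Nat.coprime_iff_gcd_eq_one.1 hcur]; exact Nat.dvd_gcd h hpv
        exact hp.one_lt.ne' (Nat.dvd_one.1 h3)
      have hp2r : ¬ p ^ 2 ∣ r := by
        intro h
        rw [hrs] at h
        have h3 : p ^ 2 ∣ vr := (Nat.Coprime.pow_left 2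
          ((Nat.Prime.coprime_iff_not_dvd hp).2 hpur)).dvd_of_dvd_mul_left h
        have h4 := hsvr p (by rw [← pow_two]; exact h3)
        exact hp.one_lt.ne' (Nat.isUnit_iff.1 h4)
      have hpw : ¬ p ∣ w := by
        intro h
        rw [hw] at h
        rcases (Nat.Prime.dvd_mul hp).1 h with h | h
        · exact hps1 (by rw [ht1]; exact h.mul_right _)
        · rcases (Nat.Prime.dvd_mul hp).1 h with h | h
          · exact hps1 (by rw [ht1]; exact h.mul_left _)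
          · exact hps2 (by rw [ht2]; exact h.mul_left _)
      have hpq : p ∣ q := by rw [hq]; exact hpr.mul_right _
      have hp2q : ¬ p ^ 2 ∣ q := by
        intro h
        rw [hq] at h
        exact hp2r ((Nat.Coprime.pow_left 2
          ((Nat.Prime.coprime_iff_not_dvd hp).2 hpw)).dvd_of_dvd_mul_right h)
      refine ⟨prime_exact a d v p hda hp ?_ ?_, hpB1⟩
      · rw [← hqs]; exact hpq
      · rw [← hqs]; exact hp2q) hBn0
    have hvr0 : (0 : ℝ) < vr := by exact_mod_cast Nat.pos_of_ne_zero hsvr.ne_zero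
    have hur0 : 0 < ar ^ 2 * dr := by positivity
    have hdivr : r / (ar ^ 2 * dr) = vr := by
      rw [hrs]; exact Nat.mul_div_cancel_left _ hur0
    have h2 := Gf_ge R (B.natAbs * (s1 * s2)) r ar dr har0 (by
      refine le_trans ?_ hrR
      rw [hrs]
      calc ar = ar * 1 * 1 * 1 := by ring
        _ ≤ ar * ar * dr * vr := by
            have := Nat.pos_of_ne_zero hsvr.ne_zero
            gcongr <;> omega
        _ = _ := by ring) hdar (by rw [hrs]; exact Dvd.intro _ rfl)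
    rw [hdivr] at h2
    have hrge : (H : ℝ) ≤ r * (2 * S) := by
      have h1 : H ≤ r * (2 * S) := hco1.1.le.trans (Nat.mul_le_mul_left _ hs1.2.le)
      exact_mod_cast h1
    have h3 : (Nat.gcd vr (B.natAbs * (s1 * s2)) : ℝ) / vr ≤
        (2 * S / H) * (((ar ^ 2 * dr : ℕ) : ℝ) * Nat.gcd vr (B.natAbs * (s1 * s2))) := by
      rw [div_le_iff₀ hvr0]
      have h4 : (r : ℝ) = ((ar ^ 2 * dr : ℕ) : ℝ) * vr := by
        have : ((r : ℕ) : ℝ) = (((ar ^ 2 * dr) * vr : ℕ) : ℝ) := by rw [← hrs]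
        rw [this]; push_cast; ring
      have h5 : (1 : ℝ) ≤ 2 * S / H * r := by
        rw [div_mul_eq_mul_div, le_div_iff₀ hH0]
        linarith
      calc (Nat.gcd vr (B.natAbs * (s1 * s2)) : ℝ) =
            (Nat.gcd vr (B.natAbs * (s1 * s2)) : ℝ) * 1 := by ring
        _ ≤ (Nat.gcd vr (B.natAbs * (s1 * s2)) : ℝ) * (2 * S / H * r) := by gcongr
        _ = _ := by rw [h4]; ring
    calc Real.sqrt ((Int.gcd B v : ℝ) / v)
        ≤ Real.sqrt ((2 * S / H) * (((ar ^ 2 * dr : ℕ) : ℝ) *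
          Nat.gcd vr (B.natAbs * (s1 * s2)))) := Real.sqrt_le_sqrt (h1.trans h3)
      _ = Real.sqrt (2 * S / H) * (ar * Real.sqrt dr *
          Real.sqrt (Nat.gcd vr (B.natAbs * (s1 * s2)))) := by
          rw [Real.sqrt_mul (by positivity), Real.sqrt_mul (by positivity)]
          congr 2
          push_cast
          rw [Real.sqrt_mul (by positivity), Real.sqrt_sq (Nat.cast_nonneg _)]
      _ ≤ _ := by gcongr
  have hG1 := Gf_nonneg X 1 (r * s1 * s2)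
  have hG2 := Gf_nonneg R (B.natAbs * (s1 * s2)) r
  have hlast : 2 * (((a ^ 2 * d : ℕ) : ℝ) * Real.sqrt v) +
      (((2 * K : ℕ) : ℝ) - ((K + 1 : ℕ) : ℝ)) * Real.sqrt ((Int.gcd B v : ℝ) / v) ≤
      4 * Real.sqrt ((H : ℝ) * S) * Gf X 1 (r * s1 * s2) +
        K * Real.sqrt (2 * S / H) * Gf R (B.natAbs * (s1 * s2)) r := by
    have h1 : (((2 * K : ℕ) : ℝ) - ((K + 1 : ℕ) : ℝ)) * Real.sqrt ((Int.gcd B v : ℝ) / v) ≤
        K * (Real.sqrt (2 * S / H) * Gf R (B.natAbs * (s1 * s2)) r) :=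
      mul_le_mul hA hT2 (Real.sqrt_nonneg _) hK0.le
    linarith
  have hlast0 : 0 ≤ 2 * (((a ^ 2 * d : ℕ) : ℝ) * Real.sqrt v) +
      (((2 * K : ℕ) : ℝ) - ((K + 1 : ℕ) : ℝ)) * Real.sqrt ((Int.gcd B v : ℝ) / v) := by
    positivity
  gcongr

end Run7.h294
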