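import Pool.Agent.Run7.h294.F1

set_option autoImplicit false

/-! Trilinear forms with Kloosterman fractions, one factorable variable, arbitrary moduli, blocks of
different sizes. -/

namespace Run7.h294

open Finset
open Pool.Agent.H442R2.KF
open Pool.Agent.H442R2.KF.TaskA
open Pool.Agent.H442R2.FX.TaskWF (aw kf_prod conj_kf lip3 cauchy_n)
open Pool.Agent.H262R4.FR.TW2 (W1c B0 B0_ne B0_abs_le expand_sq sum_quad)
open Pool.Agent.H262R4.TM (Wx)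

theorem total (ε C C2 C4 C5 C6 : ℝ) (hε : 0 < ε) (hC : 0 < C) (hC2 : 0 < C2) (hC5 : 0 < C5)
    (hC6 : 0 < C6) (hW : W1c ε C)
    (hτ : ∀ n : ℕ, 1 ≤ n → (n.divisors.card : ℝ) ≤ C2 * (n : ℝ) ^ ε)
    (hdiag : ∀ L J : ℕ, 1 ≤ L → 1 ≤ J →
      ((((Icc 1 L ×ˢ Icc 1 L) ×ˢ (Icc 1 J ×ˢ Icc 1 J)).filter
        (fun x : (ℕ × ℕ) × (ℕ × ℕ) => x.2.1 * x.1.2 = x.2.2 * x.1.1)).card : ℝ) ≤
        C4 * ((L : ℝ) * J) ^ (1 + ε))
    (hT : ∀ (R S X : ℕ) (F : ℕ → ℝ), 1 ≤ X → 1 ≤ S →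
      R * (2 * S) * (2 * S) ≤ X → (∀ m, 0 ≤ F m) →
      ∑ r ∈ Icc 1 R, ∑ s1 ∈ Ico S (2 * S), ∑ s2 ∈ Ico S (2 * S), F (r * s1 * s2) ≤
      C5 * (X : ℝ) ^ ε * ∑ m ∈ Icc 1 X, F m)
    (hG : ∀ X B : ℕ, 1 ≤ X → 1 ≤ B →
      ∑ m ∈ Icc 1 X, Gf X B m ≤ C6 * (X : ℝ) ^ (1 + ε) * (B.divisors.card : ℝ))
    (H K S J R X : ℕ) (hH : 1 ≤ H) (hK : 1 ≤ K) (hS : 1 ≤ S) (hJ : 1 ≤ J) (hR : 1 ≤ R)
    (hX : X = R * (2 * S) * (2 * S)) (V : ℝ) (hV : 1 ≤ V)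
    (ψ : ℕ → ℝ → ℂ) (hψ : ∀ j, Wx ((H : ℝ) * K / 2) V (ψ j)) (k : ℤ)
    (hk : k ≠ 0) (hkJ : |(k : ℝ)| * J ≤ V * ((H : ℝ) * K)) (γ : ℕ → ℕ → ℂ)
    (hγ1 : ∀ r s, ‖γ r s‖ ≤ 1)
    (hγ2 : ∀ r s, γ r s ≠ 0 → r * s ∈ Ioc H (2 * H)) :
    ∑ r ∈ Icc 1 R, ∑ x ∈ Ico S (2 * S) ×ˢ Icc 1 J, ∑ y ∈ Ico S (2 * S) ×ˢ Icc 1 J,
      ‖∑ n ∈ Ioc K (2 * K), aw γ ψ k r x.1 x.2 n *
        (starRingEnd ℂ) (aw γ ψ k r y.1 y.2 n)‖ ≤
      R * (K * (C4 * (2 * S * J : ℝ) ^ (1 + ε))) +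
      (C * (X : ℝ) ^ ε * (22 * V)) * (4 * Real.sqrt ((H : ℝ) * S) * (J ^ 2 *
        (C5 * (X : ℝ) ^ ε * (C6 * (X : ℝ) ^ (1 + ε)))) +
        K * Real.sqrt (2 * S / H) * ((C6 * (R : ℝ) ^ (1 + ε) *
        (C2 * (|(k : ℝ)| * (J * (2 * S)) * (2 * S * (2 * S))) ^ ε)) * (S ^ 2 * J ^ 2))) := by
  classical
  have hH0 : (0 : ℝ) < H := by exact_mod_cast hH
  have hK0 : (0 : ℝ) < K := by exact_mod_cast hK
  have hS0 : (0 : ℝ) < S := by exact_mod_cast hS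
  have hJ0 : (0 : ℝ) < J := by exact_mod_cast hJ
  have hV0 : 0 < V := by linarith
  have hX1 : 1 ≤ X := by
    rw [hX]
    exact Nat.mul_pos (Nat.mul_pos hR (by omega)) (by omega)
  set U : ℝ := C * (X : ℝ) ^ ε * (22 * V) with hU
  have hU0 : 0 ≤ U := by positivity
  set D : ℝ := C2 * (|(k : ℝ)| * (J * (2 * S)) * (2 * S * (2 * S))) ^ ε with hD
  have hD0 : 0 ≤ D := by positivity
  set Q : Finset ((ℕ × ℕ) × (ℕ × ℕ)) :=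
    (Ico S (2 * S) ×ˢ Ico S (2 * S)) ×ˢ (Icc 1 J ×ˢ Icc 1 J) with hQ
  have hswap : ∑ r ∈ Icc 1 R, ∑ x ∈ Ico S (2 * S) ×ˢ Icc 1 J,
      ∑ y ∈ Ico S (2 * S) ×ˢ Icc 1 J,
      ‖∑ n ∈ Ioc K (2 * K), aw γ ψ k r x.1 x.2 n *
        (starRingEnd ℂ) (aw γ ψ k r y.1 y.2 n)‖ =
      ∑ w ∈ Q, ∑ r ∈ Icc 1 R,
      ‖∑ n ∈ Ioc K (2 * K), aw γ ψ k r w.1.1 w.2.1 n *
        (starRingEnd ℂ) (aw γ ψ k r w.1.2 w.2.2 n)‖ := by
    rw [Finset.sum_comm (s := Q)]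
    refine Finset.sum_congr rfl fun r _ => ?_
    rw [sum_quad (Ico S (2 * S)) (Icc 1 J) (fun x y => ‖∑ n ∈ Ioc K (2 * K),
      aw γ ψ k r x.1 x.2 n * (starRingEnd ℂ) (aw γ ψ k r y.1 y.2 n)‖)]
  have hRX : ∀ r ∈ Icc 1 R, ∀ s1 ∈ Ico S (2 * S), ∀ s2 ∈ Ico S (2 * S), r * s1 * s2 ≤ X := by
    intro r hr s1 hs1 s2 hs2
    rw [mem_Icc] at hr
    rw [mem_Ico] at hs1 hs2
    rw [hX]
    exact Nat.mul_le_mul (Nat.mul_le_mul hr.2 hs1.2.le) hs2.2.le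
  have hk1 : ∀ w ∈ Q, ∑ r ∈ Icc 1 R,
      ‖∑ n ∈ Ioc K (2 * K), aw γ ψ k r w.1.1 w.2.1 n *
        (starRingEnd ℂ) (aw γ ψ k r w.1.2 w.2.2 n)‖ ≤
      (R : ℝ) * (if w.2.1 * w.1.2 = w.2.2 * w.1.1 then (K : ℝ) else 0) +
        U * (4 * Real.sqrt ((H : ℝ) * S) * (∑ r ∈ Icc 1 R, Gf X 1 (r * w.1.1 * w.1.2)) +
          K * Real.sqrt (2 * S / H) * (C6 * (R : ℝ) ^ (1 + ε) * D)) := by
    rintro ⟨⟨s1, s2⟩, ⟨j1, j2⟩⟩ hw
    simp only [hQ, Finset.mem_product] at hw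
    obtain ⟨⟨hs1, hs2⟩, hj1, hj2⟩ := hw
    simp only
    have hGs : 0 ≤ ∑ r ∈ Icc 1 R, Gf X 1 (r * s1 * s2) :=
      Finset.sum_nonneg fun r _ => Gf_nonneg _ _ _
    by_cases heq : j1 * s2 = j2 * s1
    · rw [if_pos heq]
      have h1 : ∀ r ∈ Icc 1 R, ‖∑ n ∈ Ioc K (2 * K), aw γ ψ k r s1 j1 n *
          (starRingEnd ℂ) (aw γ ψ k r s2 j2 n)‖ ≤ (K : ℝ) := by
        intro r _
        have h2 : ∀ n ∈ Ioc K (2 * K), ‖aw γ ψ k r s1 j1 n *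
            (starRingEnd ℂ) (aw γ ψ k r s2 j2 n)‖ ≤ 1 := by
          intro n hn
          rw [Finset.mem_Ioc] at hn
          rw [norm_mul, RCLike.norm_conj]
          calc _ ≤ (1 : ℝ) * 1 := mul_le_mul
                (norm_aw_le H K V γ ψ hψ hγ1 hγ2 k r s1 j1 n hn.1)
                (norm_aw_le H K V γ ψ hψ hγ1 hγ2 k r s2 j2 n hn.1) (norm_nonneg _) zero_le_one
            _ = 1 := one_mul 1
        refine (norm_sum_le _ _).trans ((Finset.sum_le_sum h2).trans (le_of_eq ?_))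
        rw [Finset.sum_const, Nat.card_Ioc, nsmul_eq_mul, mul_one]
        have : 2 * K - K = K := by omega
        rw [this]
      refine (Finset.sum_le_sum h1).trans ?_
      rw [Finset.sum_const, Nat.card_Icc, nsmul_eq_mul]
      have h3 : 0 ≤ U * (4 * Real.sqrt ((H : ℝ) * S) * (∑ r ∈ Icc 1 R, Gf X 1 (r * s1 * s2)) +
          K * Real.sqrt (2 * S / H) * (C6 * (R : ℝ) ^ (1 + ε) * D)) := by positivity
      have h4 : R + 1 - 1 = R := by omega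
      rw [h4]
      linarith
    · rw [if_neg heq, mul_zero, zero_add]
      have hs10 : 0 < s1 := by rw [Finset.mem_Ico] at hs1; omega
      have hs20 : 0 < s2 := by rw [Finset.mem_Ico] at hs2; omega
      have hB0 := B0_ne k s1 s2 j1 j2 hk hs10 heq
      have hBn0 : 1 ≤ (B0 k s1 s2 j1 j2).natAbs * (s1 * s2) :=
        Nat.mul_pos (Int.natAbs_pos.2 hB0) (Nat.mul_pos hs10 hs20)
      have h1 : ∀ r ∈ Icc 1 R, ‖∑ n ∈ Ioc K (2 * K), aw γ ψ k r s1 j1 n *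
          (starRingEnd ℂ) (aw γ ψ k r s2 j2 n)‖ ≤
          U * (4 * Real.sqrt ((H : ℝ) * S) * Gf X 1 (r * s1 * s2) +
            K * Real.sqrt (2 * S / H) *
              Gf R ((B0 k s1 s2 j1 j2).natAbs * (s1 * s2)) r) := fun r hr =>
        inner ε C hε hC hW H K S J R X hH hK hS V hV ψ hψ k hk hkJ γ hγ1 hγ2 r s1 s2 j1 j2
          (Finset.mem_Icc.1 hr).2 hs1 hs2 hj1 hj2 heq (hRX r hr s1 hs1 s2 hs2)
      refine (Finset.sum_le_sum h1).trans ?_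
      rw [← Finset.mul_sum, Finset.sum_add_distrib, ← Finset.mul_sum, ← Finset.mul_sum]
      refine mul_le_mul_of_nonneg_left ?_ hU0
      refine add_le_add le_rfl ?_
      refine mul_le_mul_of_nonneg_left ?_ (by positivity)
      refine (hG R _ hR hBn0).trans ?_
      refine mul_le_mul_of_nonneg_left ?_ (by positivity)
      refine (hτ _ hBn0).trans ?_
      rw [hD]
      refine mul_le_mul_of_nonneg_left ?_ hC2.le
      refine Real.rpow_le_rpow (Nat.cast_nonneg _) ?_ hε.le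
      rw [Finset.mem_Ico] at hs1 hs2
      rw [Finset.mem_Icc] at hj1 hj2
      have h2 := B0_abs_le k s1 s2 j1 j2 S J hs1.2.le hs2.2.le hj1.2 hj2.2
      have h3 : (((B0 k s1 s2 j1 j2).natAbs * (s1 * s2) : ℕ) : ℝ) ≤
          ((k.natAbs * (J * (2 * S)) * (2 * S * (2 * S)) : ℕ) : ℝ) := by
        have h4 : (B0 k s1 s2 j1 j2).natAbs * (s1 * s2) ≤
            k.natAbs * (J * (2 * S)) * (2 * S * (2 * S)) :=
          Nat.mul_le_mul h2 (Nat.mul_le_mul hs1.2.le hs2.2.le)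
        exact_mod_cast h4
      refine h3.trans (le_of_eq ?_)
      push_cast
      rw [Nat.cast_natAbs, Int.cast_abs]
  rw [hswap]
  refine (Finset.sum_le_sum hk1).trans ?_
  rw [Finset.sum_add_distrib]
  have hcardJ : ((Icc 1 J).card : ℝ) = J := by rw [Nat.card_Icc]; congr 1
  have hcardS : ((Ico S (2 * S)).card : ℝ) = S := by
    rw [Nat.card_Ico]; congr 1; omega
  have hcardQ : (Q.card : ℝ) = S ^ 2 * J ^ 2 := by
    rw [hQ, Finset.card_product, Finset.card_product, Finset.card_product]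
    push_cast
    rw [hcardJ, hcardS]
    ring
  have hterm1 : ∑ w ∈ Q, (R : ℝ) * (if w.2.1 * w.1.2 = w.2.2 * w.1.1 then (K : ℝ) else 0) ≤
      R * (K * (C4 * (2 * S * J : ℝ) ^ (1 + ε))) := by
    rw [← Finset.mul_sum, ← Finset.sum_filter, Finset.sum_const, nsmul_eq_mul]
    have h1 : ((Q.filter (fun w => w.2.1 * w.1.2 = w.2.2 * w.1.1)).card : ℝ) ≤
        C4 * (2 * S * J : ℝ) ^ (1 + ε) := by
      have h2 := hdiag (2 * S) J (by omega) hJ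
      push_cast at h2
      refine le_trans ?_ h2
      have h3 : Q.filter (fun w => w.2.1 * w.1.2 = w.2.2 * w.1.1) ⊆
          ((Icc 1 (2 * S) ×ˢ Icc 1 (2 * S)) ×ˢ (Icc 1 J ×ˢ Icc 1 J)).filter
          (fun x : (ℕ × ℕ) × (ℕ × ℕ) => x.2.1 * x.1.2 = x.2.2 * x.1.1) := by
        intro w hw
        simp only [hQ, Finset.mem_filter, Finset.mem_product, Finset.mem_Ico,
          Finset.mem_Icc] at hw ⊢
        obtain ⟨⟨⟨hl1, hl2⟩, hj⟩, he⟩ := hw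
        exact ⟨⟨⟨⟨by omega, by omega⟩, ⟨by omega, by omega⟩⟩, hj⟩, he⟩
      exact_mod_cast Finset.card_le_card h3
    calc (R : ℝ) * (((Q.filter (fun w => w.2.1 * w.1.2 = w.2.2 * w.1.1)).card : ℝ) * (K : ℝ))
        ≤ R * ((C4 * (2 * S * J : ℝ) ^ (1 + ε)) * (K : ℝ)) := by gcongr
      _ = _ := by ring
  have hterm2 : ∑ w ∈ Q, U * (4 * Real.sqrt ((H : ℝ) * S) *
        (∑ r ∈ Icc 1 R, Gf X 1 (r * w.1.1 * w.1.2)) +
          K * Real.sqrt (2 * S / H) * (C6 * (R : ℝ) ^ (1 + ε) * D)) ≤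
      U * (4 * Real.sqrt ((H : ℝ) * S) * (J ^ 2 *
        (C5 * (X : ℝ) ^ ε * (C6 * (X : ℝ) ^ (1 + ε)))) +
        K * Real.sqrt (2 * S / H) * ((C6 * (R : ℝ) ^ (1 + ε) * D) * (S ^ 2 * J ^ 2))) := by
    rw [← Finset.mul_sum]
    refine mul_le_mul_of_nonneg_left ?_ hU0
    rw [Finset.sum_add_distrib, ← Finset.mul_sum, Finset.sum_const, nsmul_eq_mul, hcardQ]
    have h1 : ∑ w ∈ Q, ∑ r ∈ Icc 1 R, Gf X 1 (r * w.1.1 * w.1.2) = (J : ℝ) ^ 2 *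
        ∑ r ∈ Icc 1 R, ∑ s1 ∈ Ico S (2 * S), ∑ s2 ∈ Ico S (2 * S), Gf X 1 (r * s1 * s2) := by
      rw [hQ, Finset.sum_product]
      have h2 : ∀ x ∈ Ico S (2 * S) ×ˢ Ico S (2 * S), ∑ _y ∈ Icc 1 J ×ˢ Icc 1 J,
          ∑ r ∈ Icc 1 R, Gf X 1 (r * x.1 * x.2) =
          (J : ℝ) ^ 2 * ∑ r ∈ Icc 1 R, Gf X 1 (r * x.1 * x.2) := by
        intro x _
        rw [Finset.sum_const, nsmul_eq_mul, Finset.card_product]
        push_cast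
        rw [hcardJ]
        ring
      rw [Finset.sum_congr rfl h2, ← Finset.mul_sum, Finset.sum_comm]
      congr 1
      refine Finset.sum_congr rfl fun r _ => ?_
      rw [Finset.sum_product]
    have h3 := hT R S X (Gf X 1) hX1 hS (le_of_eq hX.symm) (Gf_nonneg X 1)
    have h4 := hG X 1 hX1 le_rfl
    rw [Nat.divisors_one, Finset.card_singleton, Nat.cast_one, mul_one] at h4
    rw [h1]
    have h5 : ∑ r ∈ Icc 1 R, ∑ s1 ∈ Ico S (2 * S), ∑ s2 ∈ Ico S (2 * S), Gf X 1 (r * s1 * s2) ≤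
        C5 * (X : ℝ) ^ ε * (C6 * (X : ℝ) ^ (1 + ε)) :=
      h3.trans (mul_le_mul_of_nonneg_left h4 (by positivity))
    refine add_le_add ?_ (le_of_eq (by ring))
    gcongr
  linarith

/-- **Trilinear forms with Kloosterman fractions, one factorable variable.** -/
theorem FB (ε : ℝ) (hε : 0 < ε) : ∃ C : ℝ, 0 < C ∧ ∀ (H K S J : ℕ), 1 ≤ H → 1 ≤ K → 1 ≤ S →
    1 ≤ J → ∀ V : ℝ, 1 ≤ V → ∀ ψ : ℕ → ℝ → ℂ, (∀ j, Wx ((H : ℝ) * K / 2) V (ψ j)) →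
    ∀ k : ℤ, k ≠ 0 → |(k : ℝ)| * J ≤ V * ((H : ℝ) * K) →
    ∀ (γ : ℕ → ℕ → ℂ) (β : ℕ → ℂ), (∀ r s, ‖γ r s‖ ≤ 1) → (∀ n, ‖β n‖ ≤ 1) →
    (∀ r s, γ r s ≠ 0 → r * s ∈ Ioc H (2 * H)) →
    ‖∑ s ∈ Ico S (2 * S), ∑ r ∈ Icc 1 (2 * H),
      ∑ n ∈ (Ioc K (2 * K)).filter (fun n => Nat.Coprime (r * s) n),
        γ r s * β n * FF ψ k J n (r * s)‖ ^ 2 ≤
      C * (V * ((H : ℝ) * K)) ^ ε * V * ((H : ℝ) ^ 2 * K ^ 2 * J / S +
        (H : ℝ) ^ 2 * K * J ^ 2 * Real.sqrt ((H : ℝ) * S) +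
        (H : ℝ) ^ 2 * K ^ 2 * J ^ 2 * Real.sqrt ((S : ℝ) / H)) := by
  classical
  obtain ⟨ε1, hε1⟩ : ∃ ε1 : ℝ, ε1 = ε / 7 := ⟨_, rfl⟩
  have hε1p : 0 < ε1 := by rw [hε1]; positivity
  have hε7 : ε = 7 * ε1 := by rw [hε1]; ring
  obtain ⟨C1, hC1, hW⟩ := Pool.Agent.H262R4.FR.t_W1 ε1 hε1p
  obtain ⟨C2, hC2, hτ⟩ := Pool.Agent.H510R2.divisor_bound ε1 hε1p
  obtain ⟨hd, -, -⟩ := Pool.Agent.H262R4.FR.t_W3
  obtain ⟨C4, hC4, hdiag⟩ := hd ε1 hε1p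
  obtain ⟨C5, hC5, hT⟩ := triple ε1 hε1p
  obtain ⟨C6, hC6, hG⟩ := Gf_sum ε1 hε1p
  refine ⟨8 * (C4 * (4 : ℝ) ^ ε1) +
    22 * (C1 * (16 : ℝ) ^ ε1) * (64 * (C5 * (16 : ℝ) ^ ε1) * (C6 * (16 : ℝ) ^ ε1) +
      8 * (C6 * (2 : ℝ) ^ ε1) * (C2 * (64 : ℝ) ^ ε1)), by positivity, ?_⟩
  intro H K S J hH hK hS hJ V hV ψ hψ k hk hkJ γ β hγ1 hβ hγ2
  have hH1 : (1 : ℝ) ≤ H := by exact_mod_cast hH
  have hK1 : (1 : ℝ) ≤ K := by exact_mod_cast hK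
  have hS1 : (1 : ℝ) ≤ S := by exact_mod_cast hS
  have hJ1 : (1 : ℝ) ≤ J := by exact_mod_cast hJ
  have hH0 : (0 : ℝ) < H := by linarith
  have hK0 : (0 : ℝ) < K := by linarith
  have hS0 : (0 : ℝ) < S := by linarith
  have hJ0 : (0 : ℝ) < J := by linarith
  have hV0 : (0 : ℝ) < V := by linarith
  have hk1 : (1 : ℝ) ≤ |(k : ℝ)| := by
    have : (1 : ℤ) ≤ |k| := Int.one_le_abs hk
    exact_mod_cast this
  obtain ⟨R, hR⟩ : ∃ R : ℕ, R = (2 * H) / S := ⟨_, rfl⟩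
  -- rewriting
  have hre : ∑ s ∈ Ico S (2 * S), ∑ r ∈ Icc 1 (2 * H),
      ∑ n ∈ (Ioc K (2 * K)).filter (fun n => Nat.Coprime (r * s) n),
        γ r s * β n * FF ψ k J n (r * s) =
      ∑ n ∈ Ioc K (2 * K), ∑ r ∈ Icc 1 R, β n *
        ∑ x ∈ Ico S (2 * S) ×ˢ Icc 1 J, aw γ ψ k r x.1 x.2 n := by
    have h1 : ∀ s ∈ Ico S (2 * S), ∑ r ∈ Icc 1 (2 * H),
        ∑ n ∈ (Ioc K (2 * K)).filter (fun n => Nat.Coprime (r * s) n),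
          γ r s * β n * FF ψ k J n (r * s) =
        ∑ r ∈ Icc 1 R, ∑ n ∈ Ioc K (2 * K), β n * ∑ j ∈ Icc 1 J, aw γ ψ k r s j n := by
      intro s hs
      rw [Finset.mem_Ico] at hs
      have hsub : Icc 1 R ⊆ Icc 1 (2 * H) := by
        intro r hr
        rw [Finset.mem_Icc] at hr ⊢
        exact ⟨hr.1, hr.2.trans (by rw [hR]; exact Nat.div_le_self _ _)⟩
      rw [← Finset.sum_subset hsub]
      · refine Finset.sum_congr rfl fun r _ => ?_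
        rw [Finset.sum_filter]
        refine Finset.sum_congr rfl fun n _ => ?_
        unfold aw FF
        by_cases h : Nat.Coprime (r * s) n
        · simp only [if_pos h]
          rw [Finset.mul_sum, Finset.mul_sum]
          refine Finset.sum_congr rfl fun j _ => ?_
          ring
        · simp [if_neg h]
      · intro r hr hr'
        rw [Finset.mem_Icc] at hr hr'
        have h2 : γ r s = 0 := by
          by_contra h3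
          have h4 := (Finset.mem_Ioc.1 (hγ2 r s h3)).2
          have h5 : r ≤ R := by
            rw [hR, Nat.le_div_iff_mul_le (by omega)]
            exact (Nat.mul_le_mul_left r hs.1).trans h4
          exact hr' ⟨hr.1, h5⟩
        refine Finset.sum_eq_zero fun n _ => ?_
        rw [h2, zero_mul, zero_mul]
    rw [Finset.sum_congr rfl h1, Finset.sum_comm]
    have h2 : ∀ r ∈ Icc 1 R, ∑ s ∈ Ico S (2 * S), ∑ n ∈ Ioc K (2 * K),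
        β n * ∑ j ∈ Icc 1 J, aw γ ψ k r s j n = ∑ n ∈ Ioc K (2 * K), β n *
        ∑ x ∈ Ico S (2 * S) ×ˢ Icc 1 J, aw γ ψ k r x.1 x.2 n := by
      intro r _
      rw [Finset.sum_comm]
      refine Finset.sum_congr rfl fun n _ => ?_
      rw [Finset.sum_product, Finset.mul_sum]
    rw [Finset.sum_congr rfl h2, Finset.sum_comm]
  rw [hre]
  by_cases hSM : 2 * H < S
  · have hR0 : R = 0 := by rw [hR]; exact Nat.div_eq_of_lt hSM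
    rw [hR0]
    have : Icc 1 0 = (∅ : Finset ℕ) := by simp
    rw [this]
    simp only [Finset.sum_empty, Finset.sum_const_zero, norm_zero]
    rw [zero_pow (by norm_num)]
    positivity
  rw [not_lt] at hSM
  have hR1 : 1 ≤ R := by rw [hR]; exact Nat.div_pos hSM (by omega)
  refine (cauchy_n (Ioc K (2 * K)) (Icc 1 R) β hβ
    (fun n r => ∑ x ∈ Ico S (2 * S) ×ˢ Icc 1 J, aw γ ψ k r x.1 x.2 n)).trans ?_
  have hcN : ((Ioc K (2 * K)).card : ℝ) = K := by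
    rw [Nat.card_Ioc]
    have : 2 * K - K = K := by omega
    rw [this]
  have hcR : ((Icc 1 R).card : ℝ) = R := by rw [Nat.card_Icc]; congr 1
  rw [hcN, hcR]
  have hexp : ∑ r ∈ Icc 1 R, ∑ n ∈ Ioc K (2 * K),
      ‖∑ x ∈ Ico S (2 * S) ×ˢ Icc 1 J, aw γ ψ k r x.1 x.2 n‖ ^ 2 ≤
      ∑ r ∈ Icc 1 R, ∑ x ∈ Ico S (2 * S) ×ˢ Icc 1 J, ∑ y ∈ Ico S (2 * S) ×ˢ Icc 1 J,
      ‖∑ n ∈ Ioc K (2 * K), aw γ ψ k r x.1 x.2 n *
        (starRingEnd ℂ) (aw γ ψ k r y.1 y.2 n)‖ :=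
    Finset.sum_le_sum fun r _ => expand_sq (Ico S (2 * S) ×ˢ Icc 1 J)
      (Ioc K (2 * K)) (fun x n => aw γ ψ k r x.1 x.2 n)
  obtain ⟨X, hX⟩ : ∃ X : ℕ, X = R * (2 * S) * (2 * S) := ⟨_, rfl⟩
  have htot := total ε1 C1 C2 C4 C5 C6 hε1p hC1 hC2 hC5 hC6 hW hτ hdiag hT hG H K S J R X hH hK hS
    hJ hR1 hX V hV ψ hψ k hk hkJ γ hγ1 hγ2
  -- the parameter
  have hS3 : (S : ℝ) ≤ 2 * H := by exact_mod_cast hSM
  have hHK1 : (1 : ℝ) ≤ H * K := one_le_mul_of_one_le_of_one_le hH1 hK1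
  have hW1 : 1 ≤ V * ((H : ℝ) * K) := one_le_mul_of_one_le_of_one_le hV hHK1
  set W : ℝ := V * ((H : ℝ) * K) with hWdef
  have hW0 : 0 < W := by linarith
  have hJW : (J : ℝ) ≤ W := by
    refine le_trans ?_ hkJ
    exact le_mul_of_one_le_left hJ0.le hk1
  have hHW : (H : ℝ) ≤ W := by
    calc (H : ℝ) = 1 * (H * 1) := by ring
      _ ≤ V * ((H : ℝ) * K) := by gcongr
  have hRle : (R : ℝ) ≤ 2 * H / S := by
    have h1 : ((2 * H / S : ℕ) : ℝ) ≤ (((2 * H : ℕ) : ℝ) / S : ℝ) := Nat.cast_div_le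
    rw [hR]
    refine h1.trans ?_
    push_cast
    exact le_rfl
  have hRH : (R : ℝ) ≤ 2 * H := hRle.trans (div_le_self (by positivity) hS1)
  have hXle : (X : ℝ) ≤ 8 * (H * S) := by
    have : (X : ℝ) = R * (2 * S) * (2 * S) := by rw [hX]; push_cast; ring
    rw [this]
    calc (R : ℝ) * (2 * S) * (2 * S) ≤ (2 * H / S) * (2 * S) * (2 * S) := by gcongr
      _ = 8 * (H * S) := by field_simp; ring
  have hXle2 : (X : ℝ) ≤ 16 * W ^ 2 := by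
    calc (X : ℝ) ≤ 8 * (H * S) := hXle
      _ ≤ 8 * (H * (2 * H)) := by gcongr
      _ = 16 * (H : ℝ) ^ 2 := by ring
      _ ≤ 16 * W ^ 2 := by gcongr
  have hX0 : (0 : ℝ) < X := by
    have : 0 < X := by
      rw [hX]
      exact Nat.mul_pos (Nat.mul_pos hR1 (by omega)) (by omega)
    exact_mod_cast this
  have hR0' : (0 : ℝ) < R := by exact_mod_cast hR1
  set P : ℝ := W ^ ε1 with hP
  have hP1 : 1 ≤ P := Real.one_le_rpow hW1 hε1p.le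
  have hP0 : 0 < P := by linarith
  have hpow : ∀ m : ℕ, (W ^ m) ^ ε1 = P ^ m := by
    intro m
    rw [hP, ← Real.rpow_natCast, ← Real.rpow_natCast, ← Real.rpow_mul hW0.le,
      ← Real.rpow_mul hW0.le, mul_comm ε1]
  have hPε : W ^ ε = P ^ 7 := by
    rw [hP, hε7, ← Real.rpow_natCast, ← Real.rpow_mul hW0.le]
    congr 1
    push_cast; ring
  have hu1 : (X : ℝ) ^ ε1 ≤ (16 : ℝ) ^ ε1 * P ^ 2 := by
    rw [← hpow 2, ← Real.mul_rpow (by norm_num) (by positivity)]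
    exact Real.rpow_le_rpow (by positivity) hXle2 hε1p.le
  have hu2 : (|(k : ℝ)| * (J * (2 * S)) * (2 * S * (2 * S))) ^ ε1 ≤ (64 : ℝ) ^ ε1 * P ^ 4 := by
    rw [← hpow 4, ← Real.mul_rpow (by norm_num) (by positivity)]
    refine Real.rpow_le_rpow (by positivity) ?_ hε1p.le
    calc |(k : ℝ)| * (J * (2 * S)) * (2 * S * (2 * S)) = (|(k : ℝ)| * J) * (8 * S ^ 3) := by ring
      _ ≤ W * (8 * (2 * H) ^ 3) := by gcongr
      _ = 64 * (W * (H : ℝ) ^ 3) := by ring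
      _ ≤ 64 * (W * W ^ 3) := by gcongr
      _ = 64 * W ^ 4 := by ring
  have hu3 : (2 * S * J : ℝ) ^ (1 + ε1) ≤ (2 * S * J) * ((4 : ℝ) ^ ε1 * P ^ 2) := by
    rw [Real.rpow_add (by positivity), Real.rpow_one]
    refine mul_le_mul_of_nonneg_left ?_ (by positivity)
    rw [← hpow 2, ← Real.mul_rpow (by norm_num) (by positivity)]
    refine Real.rpow_le_rpow (by positivity) ?_ hε1p.le
    calc (2 * S * J : ℝ) ≤ 2 * (2 * H) * W := by gcongr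
      _ ≤ 2 * (2 * W) * W := by gcongr
      _ = 4 * W ^ 2 := by ring
  have hu4 : (R : ℝ) ^ ε1 ≤ (2 : ℝ) ^ ε1 * P := by
    have h1 := hpow 1
    rw [pow_one, pow_one] at h1
    rw [← h1, ← Real.mul_rpow (by norm_num) (by positivity)]
    refine Real.rpow_le_rpow (by positivity) ?_ hε1p.le
    linarith
  obtain ⟨x1, hx1⟩ : ∃ x : ℝ, x = Real.sqrt ((H : ℝ) * S) := ⟨_, rfl⟩
  obtain ⟨x2, hx2⟩ : ∃ x : ℝ, x = Real.sqrt ((S : ℝ) / H) := ⟨_, rfl⟩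
  have hx10 : 0 ≤ x1 := by rw [hx1]; positivity
  have hx20 : 0 ≤ x2 := by rw [hx2]; positivity
  have hx2' : Real.sqrt (2 * S / H) ≤ 2 * x2 := by
    rw [hx2, mul_div_assoc, Real.sqrt_mul (by norm_num)]
    have : Real.sqrt 2 ≤ 2 := by
      rw [Real.sqrt_le_left (by norm_num)]; norm_num
    gcongr
  rw [hPε, ← hx1, ← hx2]
  rw [← hx1] at htot
  obtain ⟨G4, hG4⟩ : ∃ x : ℝ, x = C4 * (4 : ℝ) ^ ε1 := ⟨_, rfl⟩
  obtain ⟨G1, hG1⟩ : ∃ x : ℝ, x = C1 * (16 : ℝ) ^ ε1 := ⟨_, rfl⟩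
  obtain ⟨G2, hG2⟩ : ∃ x : ℝ, x = C2 * (64 : ℝ) ^ ε1 := ⟨_, rfl⟩
  obtain ⟨G5, hG5⟩ : ∃ x : ℝ, x = C5 * (16 : ℝ) ^ ε1 := ⟨_, rfl⟩
  obtain ⟨G6, hG6⟩ : ∃ x : ℝ, x = C6 * (16 : ℝ) ^ ε1 := ⟨_, rfl⟩
  obtain ⟨G7, hG7⟩ : ∃ x : ℝ, x = C6 * (2 : ℝ) ^ ε1 := ⟨_, rfl⟩
  have hG40 : 0 < G4 := by rw [hG4]; positivity
  have hG10 : 0 < G1 := by rw [hG1]; positivity
  have hG20 : 0 < G2 := by rw [hG2]; positivity
  have hG50 : 0 < G5 := by rw [hG5]; positivity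
  have hG60 : 0 < G6 := by rw [hG6]; positivity
  have hG70 : 0 < G7 := by rw [hG7]; positivity
  rw [← hG4, ← hG1, ← hG2, ← hG5, ← hG6, ← hG7]
  have b1 : C4 * (2 * S * J : ℝ) ^ (1 + ε1) ≤ (2 * S * J) * (G4 * P ^ 2) := by
    calc C4 * (2 * S * J : ℝ) ^ (1 + ε1) ≤ C4 * ((2 * S * J) * ((4 : ℝ) ^ ε1 * P ^ 2)) := by
          gcongr
      _ = _ := by rw [hG4]; ring
  have b2 : C1 * (X : ℝ) ^ ε1 ≤ G1 * P ^ 2 := by
    calc C1 * (X : ℝ) ^ ε1 ≤ C1 * ((16 : ℝ) ^ ε1 * P ^ 2) := by gcongr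
      _ = _ := by rw [hG1]; ring
  have b3 : C2 * (|(k : ℝ)| * (J * (2 * S)) * (2 * S * (2 * S))) ^ ε1 ≤ G2 * P ^ 4 := by
    calc C2 * (|(k : ℝ)| * (J * (2 * S)) * (2 * S * (2 * S))) ^ ε1 ≤
          C2 * ((64 : ℝ) ^ ε1 * P ^ 4) := by gcongr
      _ = _ := by rw [hG2]; ring
  have b5 : C5 * (X : ℝ) ^ ε1 ≤ G5 * P ^ 2 := by
    calc C5 * (X : ℝ) ^ ε1 ≤ C5 * ((16 : ℝ) ^ ε1 * P ^ 2) := by gcongr
      _ = _ := by rw [hG5]; ring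
  have b6 : C6 * (X : ℝ) ^ (1 + ε1) ≤ (8 * (H * S)) * (G6 * P ^ 2) := by
    rw [Real.rpow_add hX0, Real.rpow_one]
    calc C6 * ((X : ℝ) * (X : ℝ) ^ ε1) ≤ C6 * ((8 * (H * S)) * ((16 : ℝ) ^ ε1 * P ^ 2)) := by
          gcongr
      _ = _ := by rw [hG6]; ring
  have b7 : C6 * (R : ℝ) ^ (1 + ε1) ≤ (2 * H / S) * (G7 * P) := by
    rw [Real.rpow_add hR0', Real.rpow_one]
    calc C6 * ((R : ℝ) * (R : ℝ) ^ ε1) ≤ C6 * ((2 * H / S) * ((2 : ℝ) ^ ε1 * P)) := by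
          gcongr
      _ = _ := by rw [hG7]; ring
  have htot2 : ∑ r ∈ Icc 1 R, ∑ n ∈ Ioc K (2 * K),
      ‖∑ x ∈ Ico S (2 * S) ×ˢ Icc 1 J, aw γ ψ k r x.1 x.2 n‖ ^ 2 ≤
      (2 * H / S) * (K * ((2 * S * J) * (G4 * P ^ 2))) +
      ((G1 * P ^ 2) * (22 * V)) * (4 * x1 * (J ^ 2 *
        ((G5 * P ^ 2) * ((8 * (H * S)) * (G6 * P ^ 2)))) +
        K * (2 * x2) * (((2 * H / S) * (G7 * P) * (G2 * P ^ 4)) * (S ^ 2 * J ^ 2))) := by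
    refine hexp.trans (htot.trans ?_)
    gcongr
  have hPk : ∀ m : ℕ, m ≤ 7 → P ^ m ≤ P ^ 7 := fun m hm => pow_le_pow_right₀ hP1 hm
  calc (K : ℝ) * R * ∑ r ∈ Icc 1 R, ∑ n ∈ Ioc K (2 * K),
      ‖∑ x ∈ Ico S (2 * S) ×ˢ Icc 1 J, aw γ ψ k r x.1 x.2 n‖ ^ 2
      ≤ K * (2 * H / S) * ((2 * H / S) * (K * ((2 * S * J) * (G4 * P ^ 2))) +
      ((G1 * P ^ 2) * (22 * V)) * (4 * x1 * (J ^ 2 *
        ((G5 * P ^ 2) * ((8 * (H * S)) * (G6 * P ^ 2)))) +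
        K * (2 * x2) * (((2 * H / S) * (G7 * P) * (G2 * P ^ 4)) * (S ^ 2 * J ^ 2)))) := by
        gcongr
    _ = 8 * G4 * P ^ 2 * ((H : ℝ) ^ 2 * K ^ 2 * J / S) +
        22 * G1 * (64 * G5 * G6) * (P ^ 6 * V) * ((H : ℝ) ^ 2 * K * J ^ 2 * x1) +
        22 * G1 * (8 * G7 * G2) * (P ^ 7 * V) * ((H : ℝ) ^ 2 * K ^ 2 * J ^ 2 * x2) := by
        field_simp
        ring
    _ ≤ 8 * G4 * (P ^ 7 * V) * ((H : ℝ) ^ 2 * K ^ 2 * J / S) +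
        22 * G1 * (64 * G5 * G6) * (P ^ 7 * V) * ((H : ℝ) ^ 2 * K * J ^ 2 * x1) +
        22 * G1 * (8 * G7 * G2) * (P ^ 7 * V) * ((H : ℝ) ^ 2 * K ^ 2 * J ^ 2 * x2) := by
        have c1 : P ^ 2 ≤ P ^ 7 * V :=
          (hPk 2 (by norm_num)).trans (le_mul_of_one_le_right (by positivity) hV)
        have c2 : P ^ 6 ≤ P ^ 7 := hPk 6 (by norm_num)
        gcongr
    _ ≤ _ := by
        have d1 : 0 ≤ (H : ℝ) ^ 2 * K ^ 2 * J / S := by positivity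
        have d2 : 0 ≤ (H : ℝ) ^ 2 * K * J ^ 2 * x1 := by positivity
        have d3 : 0 ≤ (H : ℝ) ^ 2 * K ^ 2 * J ^ 2 * x2 := by positivity
        have d4 : 0 ≤ P ^ 7 * V := by positivity
        have d5 : (8 * G4 + 22 * G1 * (64 * G5 * G6 + 8 * G7 * G2)) * P ^ 7 * V *
            ((H : ℝ) ^ 2 * K ^ 2 * J / S + (H : ℝ) ^ 2 * K * J ^ 2 * x1 +
              (H : ℝ) ^ 2 * K ^ 2 * J ^ 2 * x2) -
            (8 * G4 * (P ^ 7 * V) * ((H : ℝ) ^ 2 * K ^ 2 * J / S) +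
              22 * G1 * (64 * G5 * G6) * (P ^ 7 * V) * ((H : ℝ) ^ 2 * K * J ^ 2 * x1) +
              22 * G1 * (8 * G7 * G2) * (P ^ 7 * V) * ((H : ℝ) ^ 2 * K ^ 2 * J ^ 2 * x2)) =
            8 * G4 * (P ^ 7 * V) * ((H : ℝ) ^ 2 * K * J ^ 2 * x1 +
              (H : ℝ) ^ 2 * K ^ 2 * J ^ 2 * x2) +
            22 * G1 * (64 * G5 * G6) * (P ^ 7 * V) * ((H : ℝ) ^ 2 * K ^ 2 * J / S +
              (H : ℝ) ^ 2 * K ^ 2 * J ^ 2 * x2) +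
            22 * G1 * (8 * G7 * G2) * (P ^ 7 * V) * ((H : ℝ) ^ 2 * K ^ 2 * J / S +
              (H : ℝ) ^ 2 * K * J ^ 2 * x1) := by ring
        have d6 : 0 ≤ 8 * G4 * (P ^ 7 * V) * ((H : ℝ) ^ 2 * K * J ^ 2 * x1 +
              (H : ℝ) ^ 2 * K ^ 2 * J ^ 2 * x2) +
            22 * G1 * (64 * G5 * G6) * (P ^ 7 * V) * ((H : ℝ) ^ 2 * K ^ 2 * J / S +
              (H : ℝ) ^ 2 * K ^ 2 * J ^ 2 * x2) +
            22 * G1 * (8 * G7 * G2) * (P ^ 7 * V) * ((H : ℝ) ^ 2 * K ^ 2 * J / S +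
              (H : ℝ) ^ 2 * K * J ^ 2 * x1) := by positivity
        have d7 : (8 * G4 + 22 * G1 * (64 * G5 * G6 + 8 * G7 * G2)) * P ^ 7 * V *
            ((H : ℝ) ^ 2 * K ^ 2 * J / S + (H : ℝ) ^ 2 * K * J ^ 2 * x1 +
              (H : ℝ) ^ 2 * K ^ 2 * J ^ 2 * x2) ≤
            (8 * G4 + 22 * G1 * (64 * G5 * G6 + 8 * G7 * G2)) * P ^ 7 * V *
            ((H : ℝ) ^ 2 * K ^ 2 * J / S + (H : ℝ) ^ 2 * K * J ^ 2 * x1 +
              (H : ℝ) ^ 2 * K ^ 2 * J ^ 2 * x2) := le_rfl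
        linarith

end Run7.h294
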