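import Pool.Agent.Run7.h294.F2
import Pool.Agent.H262R4.TM.TRIG

set_option autoImplicit false

/-! One block of the dual sums, one factorable variable. -/

namespace Run7.h294

open Finset Filter Topology MeasureTheory Complex
open Pool.Agent.H306R2.SM (om cl ef Xf Gf Yf ee)
open Pool.Agent.H442R2.KF (e kf tau FF)
open Pool.Agent.H262R4.TM
open Pool.Agent.H262R4.TM.TTRIG

/-- the blocks -/
def SB (H : ℕ) : Finset ℕ := (Ioc H (2 * H)).filter (fun m => 4 * m ≤ 5 * H)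

/-- the coefficients of one dyadic part -/
noncomputable def gam (A : Finset ℕ) (b : ℕ → ℂ) (s1 : ℕ → ℕ) (r s : ℕ) : ℂ :=
  if r * s ∈ A ∧ s1 (r * s) = s then b (r * s) else 0

theorem sum_dyadic (f : ℕ → ℂ) (I : ℕ) :
    ∑ i ∈ range I, ∑ s ∈ Ico (2 ^ i) (2 * 2 ^ i), f s = ∑ s ∈ Ico 1 (2 ^ I), f s := by
  induction I with
  | zero => simp
  | succ I ih =>
      rw [Finset.sum_range_succ, ih, pow_succ, mul_comm (2 ^ I) 2,
        Finset.sum_Ico_consecutive _ Nat.one_le_two_pow (by omega)]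

theorem decomp (H : ℕ) (A : Finset ℕ) (hA : A ⊆ Ioc H (2 * H)) (b : ℕ → ℂ) (s1 : ℕ → ℕ)
    (h : ∀ m ∈ A, b m ≠ 0 → s1 m ∣ m) (G : ℕ → ℂ) :
    ∑ m ∈ A, b m * G m =
      ∑ i ∈ range (Nat.log 2 (2 * H) + 1), ∑ s ∈ Ico (2 ^ i) (2 * 2 ^ i),
        ∑ r ∈ Icc 1 (2 * H), gam A b s1 r s * G (r * s) := by
  rw [sum_dyadic (fun s => ∑ r ∈ Icc 1 (2 * H), gam A b s1 r s * G (r * s)),
    ← Finset.sum_product' (f := fun s r => gam A b s1 r s * G (r * s))]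
  have hd : ∀ m ∈ A, b m * G m ≠ 0 → s1 m ∣ m ∧ 0 < s1 m ∧
      m / s1 m * s1 m = m ∧ 1 ≤ m / s1 m ∧ m / s1 m ≤ 2 * H ∧ s1 m ≤ 2 * H := by
    intro m hm hb
    have hb' : b m ≠ 0 := left_ne_zero_of_mul hb
    have hdv := h m hm hb'
    have hm' := Finset.mem_Ioc.1 (hA hm)
    have hm0 : 0 < m := by omega
    have hs0 : 0 < s1 m := Nat.pos_of_dvd_of_pos hdv hm0
    refine ⟨hdv, hs0, Nat.div_mul_cancel hdv, ?_, ?_, ?_⟩
    · exact (Nat.one_le_div_iff hs0).2 (Nat.le_of_dvd hm0 hdv)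
    · exact (Nat.div_le_self _ _).trans hm'.2
    · exact (Nat.le_of_dvd hm0 hdv).trans hm'.2
  refine Finset.sum_bij_ne_zero (fun m _ _ => (s1 m, m / s1 m)) ?_ ?_ ?_ ?_
  · intro m hm hb
    obtain ⟨h1, h2, h3, h4, h5, h6⟩ := hd m hm hb
    rw [Finset.mem_product, Finset.mem_Ico, Finset.mem_Icc]
    refine ⟨⟨h2, ?_⟩, h4, h5⟩
    exact lt_of_le_of_lt h6 (Nat.lt_pow_succ_log_self (by norm_num) _)
  · intro m hm hb m' hm' hb' heq
    obtain ⟨h1, h2, h3, h4, h5, h6⟩ := hd m hm hb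
    obtain ⟨h1', h2', h3', h4', h5', h6'⟩ := hd m' hm' hb'
    simp only [Prod.mk.injEq] at heq
    rw [← h3, ← h3', heq.2, heq.1]
  · rintro ⟨s, r⟩ hsr hne
    rw [Finset.mem_product, Finset.mem_Ico, Finset.mem_Icc] at hsr
    simp only at hsr hne
    have hg : gam A b s1 r s ≠ 0 := left_ne_zero_of_mul hne
    have hG : G (r * s) ≠ 0 := right_ne_zero_of_mul hne
    unfold gam at hg
    split_ifs at hg with hc
    · refine ⟨r * s, hc.1, mul_ne_zero hg hG, ?_⟩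
      rw [Prod.mk.injEq]
      refine ⟨hc.2, ?_⟩
      rw [hc.2]
      exact Nat.mul_div_cancel _ hsr.1.1
    · exact absurd rfl hg
  · intro m hm hb
    obtain ⟨h1, h2, h3, h4, h5, h6⟩ := hd m hm hb
    simp only
    rw [h3]
    unfold gam
    rw [h3, if_pos ⟨hm, rfl⟩]

theorem gam_norm (A : Finset ℕ) (b : ℕ → ℂ) (s1 : ℕ → ℕ) (hb : ∀ m, ‖b m‖ ≤ 1) (r s : ℕ) :
    ‖gam A b s1 r s‖ ≤ 1 := by
  unfold gam
  split_ifs
  · exact hb _
  · simp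

/-- the trilinear form of a block with factorable coefficients -/
theorem tri_fac (ε : ℝ) (hε : 0 < ε) : ∃ C : ℝ, 0 < C ∧ ∀ (H K J : ℕ), 1 ≤ H → 1 ≤ K →
    1 ≤ J → (J : ℝ) ≤ (H : ℝ) * K → ∀ ψ : ℕ → ℝ → ℂ, (∀ j, Wx ((H : ℝ) * K / 2) 1 (ψ j)) →
    ∀ σ : ℤ, (σ = 1 ∨ σ = -1) →
    ∀ (α β : ℕ → ℂ), (∀ m, ‖α m‖ ≤ 1) → (∀ n, ‖β n‖ ≤ 1) →
    ∀ (lo hi E : ℝ), (∀ m ∈ SB H, α m ≠ 0 → ∃ d : ℕ, d ∣ m ∧ lo ≤ d ∧ (d : ℝ) ≤ hi) →
    (∀ S : ℕ, 1 ≤ S → lo ≤ 2 * S → (S : ℝ) ≤ hi →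
      (J : ℝ) / S + J ^ 2 * Real.sqrt ((H : ℝ) * S) / K + J ^ 2 * Real.sqrt ((S : ℝ) / H) ≤ E) →
    0 ≤ E →
    ‖∑ m ∈ SB H, ∑ n ∈ (Ioc K (2 * K)).filter (fun n => 4 * n ≤ 5 * K ∧ Nat.Coprime m n),
      α m * β n * ∑ j ∈ Icc 1 J, ψ j ((m : ℝ) * n) * kf (σ * j) m n‖ ≤
      (Nat.log 2 (2 * H) + 1 : ℝ) * (((H : ℝ) * K) *
        Real.sqrt (C * ((H : ℝ) * K) ^ ε * E)) := by
  classical
  obtain ⟨C, hC, hFB⟩ := FB ε hε
  refine ⟨C, hC, ?_⟩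
  intro H K J hH hK hJ hJHK ψ hψ σ hσ α β hα hβ lo hi E hfac hE hE0
  have hH0 : (0 : ℝ) < H := by exact_mod_cast hH
  have hK0 : (0 : ℝ) < K := by exact_mod_cast hK
  have hJ0 : (0 : ℝ) < J := by exact_mod_cast hJ
  -- the divisor
  obtain ⟨dd, hdd⟩ : ∃ dd : ℕ → ℕ, ∀ m ∈ SB H, α m ≠ 0 → dd m ∣ m ∧ lo ≤ dd m ∧
      (dd m : ℝ) ≤ hi := by
    refine ⟨fun m => if h : ∃ d : ℕ, d ∣ m ∧ lo ≤ d ∧ (d : ℝ) ≤ hi then h.choose else 1, ?_⟩
    intro m hm hm0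
    have h := hfac m hm hm0
    simp only [dif_pos h]
    exact h.choose_spec
  obtain ⟨β', hβ'⟩ : ∃ β' : ℕ → ℂ, β' = fun n => if 4 * n ≤ 5 * K then β n else 0 := ⟨_, rfl⟩
  have hβ'1 : ∀ n, ‖β' n‖ ≤ 1 := by
    intro n
    rw [hβ']
    simp only
    split_ifs
    · exact hβ n
    · simp
  obtain ⟨G, hG⟩ : ∃ G : ℕ → ℂ, G = fun m => ∑ n ∈ (Ioc K (2 * K)).filter
      (fun n => Nat.Coprime m n), β' n * FF ψ σ J n m := ⟨_, rfl⟩
  have h1 : ∑ m ∈ SB H, ∑ n ∈ (Ioc K (2 * K)).filter (fun n => 4 * n ≤ 5 * K ∧ Nat.Coprime m n),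
      α m * β n * ∑ j ∈ Icc 1 J, ψ j ((m : ℝ) * n) * kf (σ * j) m n =
      ∑ m ∈ SB H, α m * G m := by
    refine Finset.sum_congr rfl fun m _ => ?_
    rw [hG]
    simp only
    rw [Finset.mul_sum, Finset.sum_filter, Finset.sum_filter]
    refine Finset.sum_congr rfl fun n _ => ?_
    have h2 : ∑ j ∈ Icc 1 J, ψ j ((m : ℝ) * n) * kf (σ * j) m n = FF ψ σ J n m := by
      unfold FF
      refine Finset.sum_congr rfl fun j _ => ?_
      rw [mul_comm σ]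
    have hb1 : β' n = if 4 * n ≤ 5 * K then β n else 0 := by rw [hβ']
    rw [h2, hb1]
    by_cases h3 : Nat.Coprime m n
    · by_cases h4 : 4 * n ≤ 5 * K
      · rw [if_pos ⟨h4, h3⟩, if_pos h3, if_pos h4]; ring
      · rw [if_neg (fun h => h4 h.1), if_pos h3, if_neg h4]; ring
    · rw [if_neg (fun h => h3 h.2), if_neg h3]
  rw [h1, decomp H (SB H) (Finset.filter_subset _ _) α dd (fun m hm hm0 => (hdd m hm hm0).1) G]
  have h5 : ∀ i ∈ range (Nat.log 2 (2 * H) + 1), ‖∑ s ∈ Ico (2 ^ i) (2 * 2 ^ i),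
        ∑ r ∈ Icc 1 (2 * H), gam (SB H) α dd r s * G (r * s)‖ ≤
      ((H : ℝ) * K) * Real.sqrt (C * ((H : ℝ) * K) ^ ε * E) := by
    intro i _
    by_cases hz : ∀ s ∈ Ico (2 ^ i) (2 * 2 ^ i), ∀ r ∈ Icc 1 (2 * H), gam (SB H) α dd r s = 0
    · have h6 : ∑ s ∈ Ico (2 ^ i) (2 * 2 ^ i),
          ∑ r ∈ Icc 1 (2 * H), gam (SB H) α dd r s * G (r * s) = 0 := by
        refine Finset.sum_eq_zero fun s hs => Finset.sum_eq_zero fun r hr => ?_
        rw [hz s hs r hr, zero_mul]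
      rw [h6, norm_zero]
      positivity
    · push Not at hz
      obtain ⟨s, hs, r, hr, hne⟩ := hz
      rw [Finset.mem_Ico] at hs
      have h7 : r * s ∈ SB H ∧ dd (r * s) = s ∧ α (r * s) ≠ 0 := by
        unfold gam at hne
        split_ifs at hne with hc
        · exact ⟨hc.1, hc.2, hne⟩
        · exact absurd rfl hne
      obtain ⟨-, hlo, hhi⟩ := hdd (r * s) h7.1 h7.2.2
      rw [h7.2.1] at hlo hhi
      have hS1 : 1 ≤ 2 ^ i := Nat.one_le_two_pow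
      have hS2 : lo ≤ 2 * ((2 ^ i : ℕ) : ℝ) := by
        refine hlo.trans ?_
        have : (s : ℝ) ≤ ((2 * 2 ^ i : ℕ) : ℝ) := by exact_mod_cast hs.2.le
        push_cast at this ⊢
        exact this
      have hS3 : ((2 ^ i : ℕ) : ℝ) ≤ hi := by
        refine le_trans ?_ hhi
        exact_mod_cast hs.1
      have hEE := hE (2 ^ i) hS1 hS2 hS3
      have hk0 : σ ≠ 0 := by rcases hσ with h | h <;> rw [h] <;> norm_num
      have hk1 : |((σ : ℤ) : ℝ)| = 1 := by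
        rcases hσ with h | h <;> rw [h] <;> simp
      have hb := hFB H K (2 ^ i) J hH hK hS1 hJ 1 le_rfl ψ hψ σ hk0 (by
        rw [hk1, one_mul, one_mul]; exact hJHK) (gam (SB H) α dd) β' (gam_norm _ _ _ hα) hβ'1 (by
          intro r' s' hne'
          unfold gam at hne'
          split_ifs at hne' with hc
          · exact (Finset.mem_filter.1 hc.1).1
          · exact absurd rfl hne')
      have h8 : ∑ s ∈ Ico (2 ^ i) (2 * 2 ^ i),
          ∑ r ∈ Icc 1 (2 * H), gam (SB H) α dd r s * G (r * s) =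
          ∑ s ∈ Ico (2 ^ i) (2 * 2 ^ i), ∑ r ∈ Icc 1 (2 * H),
            ∑ n ∈ (Ioc K (2 * K)).filter (fun n => Nat.Coprime (r * s) n),
            gam (SB H) α dd r s * β' n * FF ψ σ J n (r * s) := by
        refine Finset.sum_congr rfl fun s _ => Finset.sum_congr rfl fun r _ => ?_
        rw [hG]
        simp only
        rw [Finset.mul_sum]
        refine Finset.sum_congr rfl fun n _ => ?_
        ring
      rw [h8]
      have h9 : ((H : ℝ) ^ 2 * K ^ 2 * J / ((2 ^ i : ℕ) : ℝ) +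
          (H : ℝ) ^ 2 * K * J ^ 2 * Real.sqrt ((H : ℝ) * ((2 ^ i : ℕ) : ℝ)) +
          (H : ℝ) ^ 2 * K ^ 2 * J ^ 2 * Real.sqrt (((2 ^ i : ℕ) : ℝ) / H)) ≤
          ((H : ℝ) * K) ^ 2 * E := by
        have h10 := mul_le_mul_of_nonneg_left hEE (show 0 ≤ ((H : ℝ) * K) ^ 2 by positivity)
        refine le_trans (le_of_eq ?_) h10
        field_simp
      have h11 := hb.trans (mul_le_mul_of_nonneg_left h9 (by positivity))
      refine le_of_sq_le_sq (h11.trans (le_of_eq ?_)) (by positivity)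
      rw [mul_pow ((H : ℝ) * K) (Real.sqrt _), Real.sq_sqrt (by positivity)]
      ring_nf
  refine (norm_sum_le_of_le _ h5).trans ?_
  rw [Finset.sum_const, Finset.card_range, nsmul_eq_mul]
  push_cast
  exact le_rfl

end Run7.h294
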