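import Pool.Agent.Run7.h294.F3

set_option autoImplicit false

/-! The blocks of the dual sums: parameters. -/

namespace Run7.h294

open Finset Filter Topology MeasureTheory Complex
open Pool.Agent.H306R2.SM (om cl ef Xf Gf Yf ee)
open Pool.Agent.H442R2.KF (e kf tau FF)
open Pool.Agent.H262R4.TM
open Pool.Agent.H262R4.TM.TTRIG

/-- size of the weights -/
theorem par2' (c : ℝ) (hc : 0 < c) (C : ℝ) (A : ℕ) (hC : 0 < C) (Cd : ℝ) (hCd : 0 < Cd)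
    (hd : ∀ n : ℕ, 1 ≤ n → (n.divisors.card : ℝ) ≤ Cd * (n : ℝ) ^ c) :
    ∀ᶠ T : ℝ in atTop, ∀ k : ℕ, Rng T k → ∀ (H K : ℕ) (Y : ℝ), 1 ≤ H → 1 ≤ K → 0 < Y →
      (H : ℝ) * K ≤ T * Y → ∀ j : ℕ, 1 ≤ j →
      2 * (C * (k : ℝ) ^ A) * tau j * (((H : ℝ) * K / 2) / ((j : ℝ) * Y)) ^ c ≤ T ^ (2 * c) := by
  filter_upwards [ev_polylog (2 * C * Cd) A c hc (by positivity), eventually_gt_atTop (1 : ℝ)] with T
    hT hT1 k hk H K Y hH hK hY0 hHKY j hj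
  have hT0 : 0 < T := by linarith
  have hH0 : (0 : ℝ) < H := by exact_mod_cast hH
  have hK0 : (0 : ℝ) < K := by exact_mod_cast hK
  have hj0 : (0 : ℝ) < j := by exact_mod_cast hj
  have h1 : tau j ≤ Cd * (j : ℝ) ^ c := hd j hj
  have h2 : (((H : ℝ) * K / 2) / ((j : ℝ) * Y)) ^ c ≤ (T / j) ^ c := by
    apply Real.rpow_le_rpow (by positivity) _ hc.le
    rw [div_le_div_iff₀ (by positivity) hj0]
    have h5 : (H : ℝ) * K / 2 ≤ T * Y := by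
      have : 0 < (H : ℝ) * K := by positivity
      linarith
    calc (H : ℝ) * K / 2 * j ≤ T * Y * j := by gcongr
      _ = T * (j * Y) := by ring
  have h6 := hT k hk.2
  have htn := tau_nonneg j
  calc 2 * (C * (k : ℝ) ^ A) * tau j * (((H : ℝ) * K / 2) / ((j : ℝ) * Y)) ^ c
      ≤ 2 * (C * (k : ℝ) ^ A) * (Cd * (j : ℝ) ^ c) * (T / j) ^ c := by gcongr
    _ = (2 * C * Cd * (k : ℝ) ^ A) * T ^ c := by
        rw [Real.div_rpow hT0.le hj0.le]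
        have : (j : ℝ) ^ c ≠ 0 := (Real.rpow_pos_of_pos hj0 _).ne'
        field_simp
    _ ≤ T ^ c * T ^ c := by gcongr
    _ = T ^ (2 * c) := by rw [← Real.rpow_add hT0]; congr 1; ring

/-- the lower exponent -/
def ea (θ₁ θ₂ δ : ℝ) : ℝ := θ₁ + θ₂ - 1 + δ

/-- the upper exponent -/
noncomputable def eb (θ₁ θ₂ δ : ℝ) : ℝ := 4 - 3 * θ₁ - 2 * θ₂ - 2 * max θ₁ θ₂ - δ

/-- the three terms -/
theorem three (T θ₁ θ₂ δ ν : ℝ) (hT : 1 < T) (hν : ν = δ / 24) (hδ : 0 < δ) (g H K J S : ℕ)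
    (hg : 1 ≤ g) (hH : 1 ≤ H) (hK : 1 ≤ K) (hS : 1 ≤ S) (hHT : (g : ℝ) * H ≤ T ^ θ₁)
    (hKT : (g : ℝ) * K ≤ T ^ θ₂) (hJ : (J : ℝ) ≤ 3 * ((H : ℝ) * K) * T ^ (3 * ν - 1))
    (hlo : T ^ ea θ₁ θ₂ δ / g ≤ 2 * S) (hhi : (S : ℝ) ≤ T ^ eb θ₁ θ₂ δ) :
    (J : ℝ) / S + J ^ 2 * Real.sqrt ((H : ℝ) * S) / K + J ^ 2 * Real.sqrt ((S : ℝ) / H) ≤
      24 * T ^ (-(δ / 4)) := by
  have hT0 : 0 < T := by linarith
  have hgR : (1 : ℝ) ≤ g := by exact_mod_cast hg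
  have hg0 : (0 : ℝ) < g := by linarith
  have hH0 : (0 : ℝ) < H := by exact_mod_cast hH
  have hK0 : (0 : ℝ) < K := by exact_mod_cast hK
  have hS0 : (0 : ℝ) < S := by exact_mod_cast hS
  have hHT' : (H : ℝ) ≤ T ^ θ₁ := le_trans (le_mul_of_one_le_left hH0.le hgR) hHT
  have hKT' : (K : ℝ) ≤ T ^ θ₂ := le_trans (le_mul_of_one_le_left hK0.le hgR) hKT
  have hJ0 : (0 : ℝ) ≤ J := Nat.cast_nonneg _
  have hmono : ∀ x y : ℝ, x ≤ y → T ^ x ≤ T ^ y := fun x y h =>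
    Real.rpow_le_rpow_of_exponent_le hT.le h
  have hpos : ∀ x : ℝ, 0 < T ^ x := fun x => Real.rpow_pos_of_pos hT0 x
  -- first term
  have t1 : (J : ℝ) / S ≤ 6 * T ^ (-(δ / 4)) := by
    rw [div_le_iff₀ hS0]
    have h1 : T ^ ea θ₁ θ₂ δ ≤ 2 * S * g := by rwa [div_le_iff₀ hg0] at hlo
    have h2 : (H : ℝ) * K * g ≤ T ^ (θ₁ + θ₂) := by
      rw [Real.rpow_add hT0]
      calc (H : ℝ) * K * g = (g * H) * K := by ring
        _ ≤ T ^ θ₁ * T ^ θ₂ := by gcongr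
    have h3 : (H : ℝ) * K * g * T ^ (3 * ν - 1) ≤ T ^ (-(δ / 4)) * T ^ ea θ₁ θ₂ δ := by
      calc (H : ℝ) * K * g * T ^ (3 * ν - 1) ≤ T ^ (θ₁ + θ₂) * T ^ (3 * ν - 1) := by gcongr
        _ = T ^ (θ₁ + θ₂ + (3 * ν - 1)) := by rw [← Real.rpow_add hT0]
        _ ≤ T ^ (-(δ / 4) + ea θ₁ θ₂ δ) := by
            apply hmono
            unfold ea
            rw [hν]
            linarith
        _ = _ := by rw [← Real.rpow_add hT0]
    have h4 : (H : ℝ) * K * T ^ (3 * ν - 1) * g ≤ T ^ (-(δ / 4)) * (2 * S) * g := by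
      calc (H : ℝ) * K * T ^ (3 * ν - 1) * g = (H : ℝ) * K * g * T ^ (3 * ν - 1) := by ring
        _ ≤ T ^ (-(δ / 4)) * T ^ ea θ₁ θ₂ δ := h3
        _ ≤ T ^ (-(δ / 4)) * (2 * S * g) := by
            have := hpos (-(δ / 4))
            gcongr
        _ = _ := by ring
    have h5 : (H : ℝ) * K * T ^ (3 * ν - 1) ≤ T ^ (-(δ / 4)) * (2 * S) :=
      le_of_mul_le_mul_right h4 hg0
    linarith
  -- squares
  have hJ2 : (J : ℝ) ^ 2 ≤ 9 * ((H : ℝ) ^ 2 * K ^ 2) * T ^ (6 * ν - 2) := by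
    calc (J : ℝ) ^ 2 ≤ (3 * ((H : ℝ) * K) * T ^ (3 * ν - 1)) ^ 2 := by gcongr
      _ = 9 * ((H : ℝ) ^ 2 * K ^ 2) * (T ^ (3 * ν - 1) * T ^ (3 * ν - 1)) := by ring
      _ = _ := by rw [← Real.rpow_add hT0]; congr 2; ring
  have hsq : ∀ x : ℝ, 0 ≤ x → ∀ z : ℝ, x ≤ T ^ z → Real.sqrt x ≤ T ^ (z / 2) := by
    intro x hx z hz
    rw [Real.sqrt_eq_rpow]
    calc x ^ (1 / 2 : ℝ) ≤ (T ^ z) ^ (1 / 2 : ℝ) := Real.rpow_le_rpow hx hz (by norm_num)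
      _ = T ^ (z / 2) := by rw [← Real.rpow_mul hT0.le]; congr 1; ring
  have hsS := hsq S hS0.le _ hhi
  have hsH := hsq H hH0.le _ hHT'
  have hmax1 : θ₁ ≤ max θ₁ θ₂ := le_max_left _ _
  have hmax2 : θ₂ ≤ max θ₁ θ₂ := le_max_right _ _
  have t2 : (J : ℝ) ^ 2 * Real.sqrt ((H : ℝ) * S) / K ≤ 9 * T ^ (-(δ / 4)) := by
    rw [Real.sqrt_mul hH0.le]
    have h1 : (J : ℝ) ^ 2 * (Real.sqrt H * Real.sqrt S) / K ≤
        9 * (H : ℝ) ^ 2 * K * T ^ (6 * ν - 2) * (Real.sqrt H * Real.sqrt S) := by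
      rw [div_le_iff₀ hK0]
      calc (J : ℝ) ^ 2 * (Real.sqrt H * Real.sqrt S) ≤
            (9 * ((H : ℝ) ^ 2 * K ^ 2) * T ^ (6 * ν - 2)) * (Real.sqrt H * Real.sqrt S) := by gcongr
        _ = _ := by ring
    refine h1.trans ?_
    have p1 := hpos (6 * ν - 2)
    have p2 := hpos θ₁
    calc 9 * (H : ℝ) ^ 2 * K * T ^ (6 * ν - 2) * (Real.sqrt H * Real.sqrt S)
        ≤ 9 * (T ^ θ₁) ^ 2 * T ^ θ₂ * T ^ (6 * ν - 2) *
          (T ^ (θ₁ / 2) * T ^ (eb θ₁ θ₂ δ / 2)) := by gcongr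
      _ = 9 * T ^ (θ₁ + θ₁ + θ₂ + (6 * ν - 2) + (θ₁ / 2 + eb θ₁ θ₂ δ / 2)) := by
          rw [Real.rpow_add hT0, Real.rpow_add hT0, Real.rpow_add hT0, Real.rpow_add hT0,
            Real.rpow_add hT0]
          ring
      _ ≤ 9 * T ^ (-(δ / 4)) := by
          refine mul_le_mul_of_nonneg_left (hmono _ _ ?_) (by norm_num)
          unfold eb
          rw [hν]
          linarith
  have t3 : (J : ℝ) ^ 2 * Real.sqrt ((S : ℝ) / H) ≤ 9 * T ^ (-(δ / 4)) := by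
    have h0 : Real.sqrt ((S : ℝ) / H) = Real.sqrt S * Real.sqrt H / H := by
      rw [Real.sqrt_div hS0.le]
      have h2 : Real.sqrt H * Real.sqrt H = H := Real.mul_self_sqrt hH0.le
      have h3 : 0 < Real.sqrt H := Real.sqrt_pos.2 hH0
      rw [div_eq_div_iff h3.ne' hH0.ne']
      nth_rewrite 1 [← h2]
      ring
    rw [h0]
    have h1 : (J : ℝ) ^ 2 * (Real.sqrt S * Real.sqrt H / H) ≤
        9 * (H : ℝ) * K ^ 2 * T ^ (6 * ν - 2) * (Real.sqrt H * Real.sqrt S) := by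
      rw [← mul_div_assoc, div_le_iff₀ hH0]
      calc (J : ℝ) ^ 2 * (Real.sqrt S * Real.sqrt H) ≤
            (9 * ((H : ℝ) ^ 2 * K ^ 2) * T ^ (6 * ν - 2)) * (Real.sqrt S * Real.sqrt H) := by gcongr
        _ = _ := by ring
    refine h1.trans ?_
    have p1 := hpos (6 * ν - 2)
    have p2 := hpos θ₂
    calc 9 * (H : ℝ) * K ^ 2 * T ^ (6 * ν - 2) * (Real.sqrt H * Real.sqrt S)
        ≤ 9 * T ^ θ₁ * (T ^ θ₂) ^ 2 * T ^ (6 * ν - 2) *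
          (T ^ (θ₁ / 2) * T ^ (eb θ₁ θ₂ δ / 2)) := by gcongr
      _ = 9 * T ^ (θ₁ + (θ₂ + θ₂) + (6 * ν - 2) + (θ₁ / 2 + eb θ₁ θ₂ δ / 2)) := by
          rw [Real.rpow_add hT0, Real.rpow_add hT0, Real.rpow_add hT0, Real.rpow_add hT0 (θ₁ / 2),
            Real.rpow_add hT0 θ₂]
          ring
      _ ≤ 9 * T ^ (-(δ / 4)) := by
          refine mul_le_mul_of_nonneg_left (hmono _ _ ?_) (by norm_num)
          unfold eb
          rw [hν]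
          linarith
  linarith

/-- the number of dyadic parts -/
theorem ndy (ε : ℝ) (hε : 0 < ε) : ∀ᶠ T : ℝ in atTop, ∀ H : ℕ, 1 ≤ H → (H : ℝ) ≤ T →
    (Nat.log 2 (2 * H) + 1 : ℝ) ≤ T ^ ε := by
  filter_upwards [ev_polylog 4 1 ε hε (by norm_num), eventually_ge_atTop (Real.exp 1)] with T hT
    hTe H hH hHT
  have hT0 : 0 < T := lt_of_lt_of_le (Real.exp_pos 1) hTe
  have hL1 : 1 ≤ Real.log T := by
    rw [Real.le_log_iff_exp_le hT0]; exact hTe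
  have h1 := hT ⌈Real.log T⌉₊ (by
    have h2 : (⌈Real.log T⌉₊ : ℝ) ≤ Real.log T + 1 := (Nat.ceil_lt_add_one (by linarith)).le
    nlinarith)
  have hL : Real.log T ≤ (⌈Real.log T⌉₊ : ℝ) := Nat.le_ceil _
  rw [pow_one] at h1
  refine le_trans ?_ h1
  have hH0 : (0 : ℝ) < H := by exact_mod_cast hH
  have h3 : (2 : ℝ) ^ (Nat.log 2 (2 * H)) ≤ 2 * H := by
    have := Nat.pow_log_le_self 2 (show 2 * H ≠ 0 by omega)
    exact_mod_cast this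
  have h4 : (Nat.log 2 (2 * H) : ℝ) * Real.log 2 ≤ Real.log 2 + Real.log T := by
    have h5 : Real.log ((2 : ℝ) ^ (Nat.log 2 (2 * H))) ≤ Real.log (2 * H) :=
      Real.log_le_log (by positivity) h3
    rw [Real.log_pow, Real.log_mul (by norm_num) hH0.ne'] at h5
    have h6 : Real.log H ≤ Real.log T := Real.log_le_log hH0 hHT
    linarith
  have h7 : (0.69 : ℝ) < Real.log 2 := by
    have := Real.log_two_gt_d9
    linarith
  have h8 : Real.log 2 < 0.7 := by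
    have := Real.log_two_lt_d9
    linarith
  have h9 : (0 : ℝ) ≤ (Nat.log 2 (2 * H) : ℝ) := Nat.cast_nonneg _
  have h10 : (Nat.log 2 (2 * H) : ℝ) * 0.69 ≤ 0.7 + Real.log T := by nlinarith
  nlinarith

end Run7.h294
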