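import Pool.Agent.Run7.h294.F4

set_option autoImplicit false

/-! The blocks of the dual sums. -/

namespace Run7.h294

open Finset Filter Topology MeasureTheory Complex
open Pool.Agent.H306R2.SM (om cl ef Xf Gf Yf ee)
open Pool.Agent.H442R2.KF (e kf tau FF)
open Pool.Agent.H262R4.TM
open Pool.Agent.H262R4.TM.TTRIG

/-- the condition on the support -/
def Fc (T θ₁ θ₂ δ : ℝ) (g m : ℕ) : Prop :=
  (m : ℝ) ≤ T ^ (1 - θ₂ - δ) ∨ ∃ d : ℕ, d ∣ m ∧ T ^ ea θ₁ θ₂ δ / g ≤ d ∧ (d : ℝ) ≤ T ^ eb θ₁ θ₂ δ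

theorem blkF (h2 : P_KER) (θ₁ θ₂ δ : ℝ) (h1 : θ₁ + δ ≤ 1) (h1' : θ₂ + δ ≤ 1) (hδ : 0 < δ)
    (hδ1 : δ ≤ 1) :
    ∃ η : ℝ, 0 < η ∧ ∀ᶠ T : ℝ in atTop, ∀ k : ℕ, Rng T k → ∀ g H K : ℕ, 1 ≤ g → 1 ≤ H → 1 ≤ K →
      (g : ℝ) * H ≤ T ^ θ₁ → (g : ℝ) * K ≤ T ^ θ₂ → ∀ α β : ℕ → ℂ,
      (∀ m, ‖α m‖ ≤ 1) → (∀ m, ‖β m‖ ≤ 1) → (∀ m, α m ≠ 0 → Fc T θ₁ θ₂ δ g m) →
      ∀ (b : Bool) (σ : ℤ), (σ = 1 ∨ σ = -1) →
      ‖∑ l ∈ (Ioc H (2 * H)).filter (fun m => 4 * m ≤ 5 * H),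
        ∑ h ∈ (Ioc K (2 * K)).filter (fun n => 4 * n ≤ 5 * K ∧ Nat.Coprime l n),
        α l * β h * ((1 / ((h : ℝ) * l) : ℝ) : ℂ) * Du k b σ h l (Yf k T)‖ ≤ T ^ (-η) := by
  obtain ⟨ν, hν⟩ : ∃ ν, ν = δ / 24 := ⟨_, rfl⟩
  have hν0 : 0 < ν := by rw [hν]; positivity
  have hν1 : 24 * ν ≤ 1 := by rw [hν]; linarith
  obtain ⟨CB, hCB, hB⟩ := tri_fac (δ / 32) (by positivity)
  obtain ⟨c, hc⟩ : ∃ c : ℝ, c = δ / 128 := ⟨_, rfl⟩
  have hc0 : 0 < c := by rw [hc]; positivity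
  have hc1 : c ≤ 1 := by rw [hc]; linarith
  obtain ⟨C, A, k0, hC, hK⟩ := h2 c hc0
  obtain ⟨Cd, hCd, hd⟩ := Pool.Agent.H510R2.divisor_bound c hc0
  obtain ⟨Cz, hCz⟩ : ∃ Cz : ℝ, Cz = ∑' n : ℕ, 1 / ((n : ℝ) + 1) ^ 2 := ⟨_, rfl⟩
  have hCz0 : 0 ≤ Cz := by rw [hCz]; exact tsum_nonneg (fun n => by positivity)
  obtain ⟨η, hη⟩ : ∃ η : ℝ, η = δ / 32 := ⟨_, rfl⟩
  have hη0 : 0 < η := by rw [hη]; positivity
  have hη1 : η ≤ 1 := by rw [hη]; linarith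
  refine ⟨η, hη0, ?_⟩
  filter_upwards [du_tail h2 ν hν0, ev_Y ν hν0, ev_k0 k0,
    par2' c hc0 C A hC Cd hCd hd, eventually_gt_atTop (1 : ℝ), ev_const 2 ν hν0,
    ev_const (4 * Real.sqrt (24 * CB)) (δ / 32) (by positivity), ev_const (2 * Cz) 1 one_pos,
    ndy (δ / 64) (by positivity), ev_const 3 (1 - 3 * ν) (by linarith)] with T hdu hY hk0
    hp2 hT1 hT2 hT3 hT4 hT5 hT6 k hk g H K hg hH1 hK1 hHθ hKθ α β hα hβ hfac b σ hσ
  have hT0 : 0 < T := by linarith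
  have hgR : (1 : ℝ) ≤ g := by exact_mod_cast hg
  have hH1R : (1 : ℝ) ≤ H := by exact_mod_cast hH1
  have hK1R : (1 : ℝ) ≤ K := by exact_mod_cast hK1
  have hH0 : (0 : ℝ) < H := by linarith
  have hK0 : (0 : ℝ) < K := by linarith
  have hHθ' : (H : ℝ) ≤ T ^ θ₁ := le_trans (le_mul_of_one_le_left hH0.le hgR) hHθ
  have hKθ' : (K : ℝ) ≤ T ^ θ₂ := le_trans (le_mul_of_one_le_left hK0.le hgR) hKθ
  obtain ⟨hY1, hY2⟩ := hY k hk
  have hY0 : 0 < Yf k T := lt_of_lt_of_le (Real.rpow_pos_of_pos hT0 _) hY1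
  have hHK : (H : ℝ) * K ≤ T ^ (θ₁ + θ₂) := by
    calc (H : ℝ) * K ≤ T ^ θ₁ * T ^ θ₂ := by gcongr
      _ = T ^ (θ₁ + θ₂) := by rw [← Real.rpow_add hT0]
  rw [Real.rpow_one] at hT4
  -- truncation
  have step : ∀ J : ℕ, 2 * ((H : ℝ) * K) * T ^ ν ≤ ((J : ℝ) + 1) * Yf k T →
      ‖∑ l ∈ (Ioc H (2 * H)).filter (fun m => 4 * m ≤ 5 * H),
        ∑ h ∈ (Ioc K (2 * K)).filter (fun n => 4 * n ≤ 5 * K ∧ Nat.Coprime l n),
        α l * β h * ((1 / ((h : ℝ) * l) : ℝ) : ℂ) * Du k b σ h l (Yf k T)‖ ≤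
      ‖∑ l ∈ (Ioc H (2 * H)).filter (fun m => 4 * m ≤ 5 * H),
        ∑ h ∈ (Ioc K (2 * K)).filter (fun n => 4 * n ≤ 5 * K ∧ Nat.Coprime l n),
        α l * β h * ((1 / ((h : ℝ) * l) : ℝ) : ℂ) * ∑ n ∈ Icc 1 J, (tau n : ℂ) * kf (σ * n) l h *
        Hk k b ((n : ℝ) * Yf k T / ((h : ℝ) * l))‖ + T ^ (-4 : ℝ) * Cz := by
    intro J hJ
    have e1 : ∑ l ∈ (Ioc H (2 * H)).filter (fun m => 4 * m ≤ 5 * H),
        ∑ h ∈ (Ioc K (2 * K)).filter (fun n => 4 * n ≤ 5 * K ∧ Nat.Coprime l n),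
        α l * β h * ((1 / ((h : ℝ) * l) : ℝ) : ℂ) * Du k b σ h l (Yf k T) =
      ∑ l ∈ (Ioc H (2 * H)).filter (fun m => 4 * m ≤ 5 * H),
        ∑ h ∈ (Ioc K (2 * K)).filter (fun n => 4 * n ≤ 5 * K ∧ Nat.Coprime l n),
        α l * β h * ((1 / ((h : ℝ) * l) : ℝ) : ℂ) * ∑ n ∈ Icc 1 J, (tau n : ℂ) * kf (σ * n) l h *
        Hk k b ((n : ℝ) * Yf k T / ((h : ℝ) * l)) +
      ∑ l ∈ (Ioc H (2 * H)).filter (fun m => 4 * m ≤ 5 * H),
        ∑ h ∈ (Ioc K (2 * K)).filter (fun n => 4 * n ≤ 5 * K ∧ Nat.Coprime l n),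
        α l * β h * ((1 / ((h : ℝ) * l) : ℝ) : ℂ) * (Du k b σ h l (Yf k T) -
          ∑ n ∈ Icc 1 J, (tau n : ℂ) * kf (σ * n) l h *
        Hk k b ((n : ℝ) * Yf k T / ((h : ℝ) * l))) := by
      rw [← Finset.sum_add_distrib]
      apply Finset.sum_congr rfl
      intro l _
      rw [← Finset.sum_add_distrib]
      apply Finset.sum_congr rfl
      intro h _
      ring
    rw [e1]
    refine (norm_add_le _ _).trans (add_le_add le_rfl ?_)
    refine pairs_le H K hH1 hK1 α β hα hβ _ (fun l h => Du k b σ h l (Yf k T) -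
          ∑ n ∈ Icc 1 J, (tau n : ℂ) * kf (σ * n) l h *
        Hk k b ((n : ℝ) * Yf k T / ((h : ℝ) * l))) ?_ (by positivity)
    intro l h hl1 hl2 hh1 hh2
    have l1 : (1 : ℝ) ≤ l := by
      have : 1 ≤ l := by omega
      exact_mod_cast this
    have h1' : (1 : ℝ) ≤ h := by
      have : 1 ≤ h := by omega
      exact_mod_cast this
    have l2 : 4 * (l : ℝ) ≤ 5 * H := by exact_mod_cast hl2
    have h2' : 4 * (h : ℝ) ≤ 5 * K := by exact_mod_cast hh2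
    have hhl : (h : ℝ) * l ≤ 2 * ((H : ℝ) * K) := by
      have e3 : (4 * (l : ℝ)) * (4 * h) ≤ (5 * H) * (5 * K) := by gcongr
      have : 0 < (H : ℝ) * K := by positivity
      nlinarith
    have hhl0 : 0 < (h : ℝ) * l := by positivity
    rw [hCz]
    refine hdu k hk b σ h l J (Yf k T) (by omega) (by omega) ?_ ?_
    · rw [le_div_iff₀ hhl0]
      have e5 : (h : ℝ) * l ≤ T ^ ν * T ^ (θ₁ + θ₂) := by
        calc (h : ℝ) * l ≤ 2 * ((H : ℝ) * K) := hhl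
          _ ≤ T ^ ν * T ^ (θ₁ + θ₂) := by gcongr
      calc T ^ (-3 : ℝ) * ((h : ℝ) * l) ≤ T ^ (-3 : ℝ) * (T ^ ν * T ^ (θ₁ + θ₂)) :=
            mul_le_mul_of_nonneg_left e5 (by positivity)
        _ = T ^ (-3 + (ν + (θ₁ + θ₂))) := by rw [← Real.rpow_add hT0, ← Real.rpow_add hT0]
        _ ≤ T ^ (1 - ν) := Real.rpow_le_rpow_of_exponent_le hT1.le (by linarith)
        _ ≤ Yf k T := hY1
    · rw [← mul_div_assoc, le_div_iff₀ hhl0]
      calc T ^ ν * ((h : ℝ) * l) ≤ T ^ ν * (2 * ((H : ℝ) * K)) := by gcongr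
        _ = 2 * ((H : ℝ) * K) * T ^ ν := by ring
        _ ≤ _ := hJ
  have tl : T ^ (-4 : ℝ) * Cz ≤ T ^ (-η) / 2 := by
    have e1 : T ^ (-4 : ℝ) * Cz ≤ T ^ (-4 : ℝ) * (T / 2) := by
      gcongr
      linarith
    have e2 : T ^ (-4 : ℝ) * (T / 2) = T ^ (-3 : ℝ) / 2 := by
      have : T ^ (-4 : ℝ) * T = T ^ (-3 : ℝ) := by
        nth_rewrite 2 [← Real.rpow_one T]
        rw [← Real.rpow_add hT0]; norm_num
      rw [← this]; ring
    have e3 : T ^ (-3 : ℝ) ≤ T ^ (-η) := Real.rpow_le_rpow_of_exponent_le hT1.le (by linarith)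
    linarith
  rcases le_or_gt ((H : ℝ) * K) (T ^ (1 - 3 * ν)) with hcase | hcase
  · have s0 := step 0 (by
      calc 2 * ((H : ℝ) * K) * T ^ ν ≤ T ^ ν * T ^ (1 - 3 * ν) * T ^ ν := by gcongr
        _ = T ^ (1 - ν) := by rw [← Real.rpow_add hT0, ← Real.rpow_add hT0]; congr 1; ring
        _ ≤ Yf k T := hY1
        _ = (((0 : ℕ) : ℝ) + 1) * Yf k T := by simp)
    refine s0.trans ?_
    have : T ^ (-η) > 0 := Real.rpow_pos_of_pos hT0 _
    simp only [Finset.Icc_eq_empty (show ¬ (1 : ℕ) ≤ 0 by norm_num), Finset.sum_empty, mul_zero,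
      Finset.sum_const_zero, norm_zero]
    linarith
  · obtain ⟨J, hJ⟩ : ∃ J : ℕ, J = ⌈2 * ((H : ℝ) * K) * T ^ ν / Yf k T⌉₊ := ⟨_, rfl⟩
    have hJ1 : 1 ≤ J := by
      rw [hJ]; exact Nat.ceil_pos.2 (by positivity)
    have hJle : (J : ℝ) ≤ 3 * ((H : ℝ) * K) * T ^ (3 * ν - 1) := by
      have h1 : (J : ℝ) ≤ 2 * ((H : ℝ) * K) * T ^ ν / Yf k T + 1 := by
        rw [hJ]; exact (Nat.ceil_lt_add_one (by positivity)).le
      have h2 : 2 * ((H : ℝ) * K) * T ^ ν / Yf k T ≤ 2 * ((H : ℝ) * K) * T ^ (3 * ν - 1) := by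
        calc 2 * ((H : ℝ) * K) * T ^ ν / Yf k T ≤ 2 * ((H : ℝ) * K) * T ^ ν / T ^ (1 - ν) := by
              gcongr
          _ = 2 * ((H : ℝ) * K) * T ^ (2 * ν - 1) := by
              rw [mul_div_assoc, ← Real.rpow_sub hT0]; congr 2; ring
          _ ≤ 2 * ((H : ℝ) * K) * T ^ (3 * ν - 1) := by
              have : T ^ (2 * ν - 1) ≤ T ^ (3 * ν - 1) :=
                Real.rpow_le_rpow_of_exponent_le hT1.le (by linarith)
              gcongr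
      have h3 : 1 ≤ ((H : ℝ) * K) * T ^ (3 * ν - 1) := by
        calc (1 : ℝ) = T ^ (1 - 3 * ν) * T ^ (3 * ν - 1) := by
              rw [← Real.rpow_add hT0]; simp
          _ ≤ ((H : ℝ) * K) * T ^ (3 * ν - 1) := by gcongr
      linarith
    have hJHK : (J : ℝ) ≤ (H : ℝ) * K := by
      refine hJle.trans ?_
      have h3 : 3 * T ^ (3 * ν - 1) ≤ 1 := by
        calc 3 * T ^ (3 * ν - 1) ≤ T ^ (1 - 3 * ν) * T ^ (3 * ν - 1) := by gcongr
          _ = 1 := by rw [← Real.rpow_add hT0]; simp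
      calc 3 * ((H : ℝ) * K) * T ^ (3 * ν - 1) = ((H : ℝ) * K) * (3 * T ^ (3 * ν - 1)) := by ring
        _ ≤ ((H : ℝ) * K) * 1 := by gcongr
        _ = _ := mul_one _
    have hHKY : (H : ℝ) * K ≤ T * Yf k T := by
      calc (H : ℝ) * K ≤ T ^ (θ₁ + θ₂) := hHK
        _ ≤ T ^ (1 + (1 - ν)) := Real.rpow_le_rpow_of_exponent_le hT1.le (by rw [hν]; linarith)
        _ = T * T ^ (1 - ν) := by rw [Real.rpow_add hT0, Real.rpow_one]
        _ ≤ T * Yf k T := by gcongr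
    have s0 := step J (by
      have e1 : 2 * ((H : ℝ) * K) * T ^ ν / Yf k T ≤ J := by rw [hJ]; exact Nat.le_ceil _
      rw [div_le_iff₀ hY0] at e1
      nlinarith)
    have hBpos : 0 < T ^ (2 * c) := Real.rpow_pos_of_pos hT0 _
    rw [tr_eq k b σ H K J (Yf k T) (T ^ (2 * c)) hH1 hK1 hBpos α β] at s0
    -- lower bound of `H`
    have hHlow : T ^ (1 - θ₂ - δ) ≤ H := by
      have h3 : T ^ (1 - 3 * ν) ≤ H * T ^ θ₂ := hcase.le.trans (by gcongr)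
      have h4 : T ^ (1 - 3 * ν) = T ^ (1 - 3 * ν - θ₂) * T ^ θ₂ := by
        rw [← Real.rpow_add hT0]; congr 1; ring
      rw [h4] at h3
      have h5 : T ^ (1 - 3 * ν - θ₂) ≤ H :=
        le_of_mul_le_mul_right h3 (Real.rpow_pos_of_pos hT0 _)
      refine le_trans ?_ h5
      exact Real.rpow_le_rpow_of_exponent_le hT1.le (by rw [hν]; linarith)
    have hb := hB H K J hH1 hK1 hJ1 hJHK (fun (j : ℕ) (s : ℝ) => if j ∈ Icc 1 J then
        ((tau j * (((H : ℝ) * K / 2) / s) / T ^ (2 * c) : ℝ) : ℂ) *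
          Hk k b (((j : ℝ) * Yf k T) / s) else 0) (by
        intro j
        by_cases hj : j ∈ Icc 1 J
        · simp only [hj, if_true]
          have hj1 : 1 ≤ j := (Finset.mem_Icc.1 hj).1
          have hj0 : (0 : ℝ) < j := by exact_mod_cast hj1
          exact wx C A k b c hc0 hc1 (hK k (hk0 k hk) b) ((H : ℝ) * K / 2) ((j : ℝ) * Yf k T)
            (T ^ (2 * c)) (by positivity) (by positivity) hBpos (tau j) (tau_nonneg j)
            (hp2 k hk H K (Yf k T) hH1 hK1 hY0 hHKY j hj1) hC.le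
        · simp only [hj, if_false]
          exact ⟨fun s _ => by simp, fun s s' _ _ => by simp; positivity⟩) σ hσ α β hα hβ
      (T ^ ea θ₁ θ₂ δ / g) (T ^ eb θ₁ θ₂ δ) (24 * T ^ (-(δ / 4))) (by
        intro m hm hm0
        rcases hfac m hm0 with h3 | h3
        · exfalso
          unfold SB at hm
          rw [mem_filter, mem_Ioc] at hm
          have h4 : (H : ℝ) < m := by exact_mod_cast hm.1.1
          linarith
        · exact h3) (by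
        intro S hS hlo hhi
        exact three T θ₁ θ₂ δ ν hT1 hν hδ g H K J S hg hH1 hK1 hS hHθ hKθ hJle hlo hhi)
      (by positivity)
    refine s0.trans ?_
    rw [norm_mul, Complex.norm_real, Real.norm_of_nonneg (by positivity)]
    have hlog := hT5 H hH1 (by
      calc (H : ℝ) ≤ T ^ θ₁ := hHθ'
        _ ≤ T ^ (1 : ℝ) := Real.rpow_le_rpow_of_exponent_le hT1.le (by linarith)
        _ = T := Real.rpow_one T)
    have hsqr : Real.sqrt (CB * ((H : ℝ) * K) ^ (δ / 32) * (24 * T ^ (-(δ / 4)))) ≤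
        Real.sqrt (24 * CB) * T ^ (-(3 * δ / 32)) := by
      have e1 : ((H : ℝ) * K) ^ (δ / 32) ≤ T ^ (δ / 16) := by
        calc ((H : ℝ) * K) ^ (δ / 32) ≤ (T ^ (2 : ℝ)) ^ (δ / 32) := by
              apply Real.rpow_le_rpow (by positivity) _ (by positivity)
              exact hHK.trans (Real.rpow_le_rpow_of_exponent_le hT1.le (by linarith))
          _ = T ^ (δ / 16) := by rw [← Real.rpow_mul hT0.le]; congr 1; ring
      have e2 : CB * ((H : ℝ) * K) ^ (δ / 32) * (24 * T ^ (-(δ / 4))) ≤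
          (24 * CB) * (T ^ (-(3 * δ / 32))) ^ 2 := by
        calc CB * ((H : ℝ) * K) ^ (δ / 32) * (24 * T ^ (-(δ / 4)))
            ≤ CB * T ^ (δ / 16) * (24 * T ^ (-(δ / 4))) := by gcongr
          _ = (24 * CB) * (T ^ (δ / 16) * T ^ (-(δ / 4))) := by ring
          _ = (24 * CB) * (T ^ (-(3 * δ / 32))) ^ 2 := by
              rw [← Real.rpow_add hT0, ← Real.rpow_natCast, ← Real.rpow_mul hT0.le]
              congr 2
              push_cast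
              ring
      refine (Real.sqrt_le_sqrt e2).trans (le_of_eq ?_)
      rw [Real.sqrt_mul (by positivity), Real.sqrt_sq (by positivity)]
    have e3 := mul_le_mul_of_nonneg_left hb
      (show 0 ≤ 2 * T ^ (2 * c) / ((H : ℝ) * K) by positivity)
    have e4 : 2 * T ^ (2 * c) / ((H : ℝ) * K) * ((Nat.log 2 (2 * H) + 1 : ℝ) * (((H : ℝ) * K) *
        Real.sqrt (CB * ((H : ℝ) * K) ^ (δ / 32) * (24 * T ^ (-(δ / 4)))))) ≤ T ^ (-η) / 2 := by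
      calc 2 * T ^ (2 * c) / ((H : ℝ) * K) * ((Nat.log 2 (2 * H) + 1 : ℝ) * (((H : ℝ) * K) *
        Real.sqrt (CB * ((H : ℝ) * K) ^ (δ / 32) * (24 * T ^ (-(δ / 4))))))
          = 2 * T ^ (2 * c) * ((Nat.log 2 (2 * H) + 1 : ℝ) *
            Real.sqrt (CB * ((H : ℝ) * K) ^ (δ / 32) * (24 * T ^ (-(δ / 4))))) := by
            field_simp
        _ ≤ 2 * T ^ (2 * c) * (T ^ (δ / 64) * (Real.sqrt (24 * CB) * T ^ (-(3 * δ / 32)))) := by
            gcongr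
        _ = (4 * Real.sqrt (24 * CB)) * (T ^ (2 * c) * (T ^ (δ / 64) * T ^ (-(3 * δ / 32)))) / 2 := by
            ring
        _ = (4 * Real.sqrt (24 * CB)) * T ^ (-(δ / 16)) / 2 := by
            rw [← Real.rpow_add hT0, ← Real.rpow_add hT0]
            congr 3
            rw [hc]
            ring
        _ ≤ T ^ (δ / 32) * T ^ (-(δ / 16)) / 2 := by gcongr
        _ = T ^ (-η) / 2 := by
            rw [← Real.rpow_add hT0, hη]
            congr 2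
            ring
    refine (add_le_add (e3.trans e4) tl).trans (le_of_eq (by ring))

end Run7.h294
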