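import Pool.Agent.Run7.h294.F5

set_option autoImplicit false

/-! The dual sums on average. -/

namespace Run7.h294

open Finset Filter Topology MeasureTheory Complex
open Pool.Agent.H306R2.SM (om cl ef Xf Gf Yf ee)
open Pool.Agent.H442R2.KF (e kf tau FF)
open Pool.Agent.H262R4.TM
open Pool.Agent.H262R4.TM.TTRIG

/-- cutting the ranges -/
theorem cutN (N₁ N₂ : ℕ) (α β : ℕ → ℂ) (D : ℕ → ℕ → ℂ) :
    ∑ l ∈ Icc 1 N₁, ∑ h ∈ (Icc 1 N₂).filter (fun h => Nat.Coprime l h),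
      α l * β h * ((1 / ((h : ℝ) * l) : ℝ) : ℂ) * D l h =
    ∑ l ∈ Icc 1 (max N₁ N₂), ∑ h ∈ (Icc 1 (max N₁ N₂)).filter (fun h => Nat.Coprime l h),
      (if l ≤ N₁ then α l else 0) * (if h ≤ N₂ then β h else 0) *
        ((1 / ((h : ℝ) * l) : ℝ) : ℂ) * D l h := by
  have e1 : ∀ l, ∑ h ∈ (Icc 1 N₂).filter (fun h => Nat.Coprime l h),
      α l * β h * ((1 / ((h : ℝ) * l) : ℝ) : ℂ) * D l h =
      ∑ h ∈ (Icc 1 (max N₁ N₂)).filter (fun h => Nat.Coprime l h),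
      α l * (if h ≤ N₂ then β h else 0) * ((1 / ((h : ℝ) * l) : ℝ) : ℂ) * D l h := by
    intro l
    have hsub : (Icc 1 N₂).filter (fun h => Nat.Coprime l h) ⊆
        (Icc 1 (max N₁ N₂)).filter (fun h => Nat.Coprime l h) := by
      intro x hx
      rw [mem_filter, mem_Icc] at hx ⊢
      exact ⟨⟨hx.1.1, hx.1.2.trans (le_max_right _ _)⟩, hx.2⟩
    rw [← Finset.sum_subset hsub (f := fun h =>
      α l * (if h ≤ N₂ then β h else 0) * ((1 / ((h : ℝ) * l) : ℝ) : ℂ) * D l h)]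
    · apply Finset.sum_congr rfl
      intro h hh
      rw [mem_filter, mem_Icc] at hh
      rw [if_pos hh.1.2]
    · intro h hh hnh
      rw [mem_filter, mem_Icc] at hh
      have : ¬ h ≤ N₂ := by
        intro hle
        exact hnh (by rw [mem_filter, mem_Icc]; exact ⟨⟨hh.1.1, hle⟩, hh.2⟩)
      rw [if_neg this]
      ring
  have hsub : Icc 1 N₁ ⊆ Icc 1 (max N₁ N₂) :=
    Finset.Icc_subset_Icc_right (le_max_left _ _)
  rw [← Finset.sum_subset hsub]
  · apply Finset.sum_congr rfl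
    intro l hl
    rw [mem_Icc] at hl
    rw [e1 l, if_pos hl.2]
  · intro l hl hnl
    rw [mem_Icc] at hl
    have : ¬ l ≤ N₁ := by
      intro hle
      exact hnl (by rw [mem_Icc]; exact ⟨hl.1, hle⟩)
    apply Finset.sum_eq_zero
    intro h _
    rw [if_neg this]
    ring

/-- small moduli or small inverted variables -/
theorem small' (h2 : P_KER) (δ : ℝ) (hδ : 0 < δ) (hδ1 : δ ≤ 1) :
    ∀ᶠ T : ℝ in atTop, ∀ k : ℕ, Rng T k → ∀ (b : Bool) (σ : ℤ) (h l : ℕ), 1 ≤ h → 1 ≤ l →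
      (h : ℝ) * l ≤ 6 * T ^ (1 - δ) →
      ‖Du k b σ h l (Yf k T)‖ ≤ T ^ (-4 : ℝ) * ∑' n : ℕ, 1 / ((n : ℝ) + 1) ^ 2 := by
  filter_upwards [du_tail h2 (δ / 4) (by positivity), ev_Y (δ / 4) (by positivity),
    ev_const 6 (δ / 4) (by positivity), eventually_gt_atTop (1 : ℝ)] with
    T hdu hY h6 hT1 k hk b σ h l hh hl hhl
  have hT0 : 0 < T := by linarith
  obtain ⟨hY1, hY2⟩ := hY k hk
  have hh0 : (0 : ℝ) < h := by exact_mod_cast hh
  have hl0 : (0 : ℝ) < l := by exact_mod_cast hl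
  have hhl0 : 0 < (h : ℝ) * l := by positivity
  have e1 : T ^ (δ / 4) * ((h : ℝ) * l) ≤ Yf k T := by
    calc T ^ (δ / 4) * ((h : ℝ) * l) ≤ T ^ (δ / 4) * (T ^ (δ / 4) * T ^ (1 - δ)) := by
          have : 6 * T ^ (1 - δ) ≤ T ^ (δ / 4) * T ^ (1 - δ) := by gcongr
          exact mul_le_mul_of_nonneg_left (hhl.trans this) (by positivity)
      _ = T ^ (δ / 4 + (δ / 4 + (1 - δ))) := by rw [← Real.rpow_add hT0, ← Real.rpow_add hT0]
      _ ≤ T ^ (1 - δ / 4) := Real.rpow_le_rpow_of_exponent_le hT1.le (by linarith)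
      _ ≤ _ := hY1
  have e2 : T ^ (δ / 4) ≤ Yf k T / ((h : ℝ) * l) := (le_div_iff₀ hhl0).2 e1
  have e3 : T ^ (-3 : ℝ) ≤ Yf k T / ((h : ℝ) * l) :=
    (Real.rpow_le_rpow_of_exponent_le hT1.le (by linarith)).trans e2
  have e4 := hdu k hk b σ h l 0 (Yf k T) hh hl e3 (by simpa using e2)
  simpa using e4

theorem trigF (h2 : P_KER) (θ₁ θ₂ δ : ℝ) (h1 : θ₁ + δ ≤ 1) (h1' : θ₂ + δ ≤ 1) (hδ : 0 < δ)
    (hδ1 : δ ≤ 1) :
    ∃ η : ℝ, 0 < η ∧ ∀ᶠ T : ℝ in atTop, ∀ k : ℕ, Rng T k → ∀ g N₁ N₂ : ℕ, 1 ≤ g →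
      (g : ℝ) * N₁ ≤ T ^ θ₁ → (g : ℝ) * N₂ ≤ T ^ θ₂ → ∀ α β : ℕ → ℂ,
      (∀ m, ‖α m‖ ≤ 1) → (∀ m, ‖β m‖ ≤ 1) → (∀ m, α m ≠ 0 → Fc T θ₁ θ₂ δ g m) →
      ∀ (b : Bool) (σ : ℤ), (σ = 1 ∨ σ = -1) →
      ‖∑ l ∈ Icc 1 N₁, ∑ h ∈ (Icc 1 N₂).filter (fun h => Nat.Coprime l h),
        α l * β h * ((1 / ((h : ℝ) * l) : ℝ) : ℂ) * Du k b σ h l (Yf k T)‖ ≤ T ^ (-η) := by
  obtain ⟨η1, hη1, hb⟩ := blkF h2 θ₁ θ₂ δ h1 h1' hδ hδ1
  obtain ⟨Cz, hCz⟩ : ∃ Cz : ℝ, Cz = ∑' n : ℕ, 1 / ((n : ℝ) + 1) ^ 2 := ⟨_, rfl⟩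
  have hCz0 : 0 ≤ Cz := by rw [hCz]; exact tsum_nonneg (fun n => by positivity)
  obtain ⟨η, hη0, hηa, hηb⟩ : ∃ η : ℝ, 0 < η ∧ η ≤ 1 ∧ η ≤ η1 / 2 :=
    ⟨min (η1 / 2) 1, lt_min (by positivity) one_pos, min_le_right _ _, min_le_left _ _⟩
  refine ⟨η, hη0, ?_⟩
  filter_upwards [hb, small' h2 δ hδ hδ1, ev_const (2 * Cz) 1 one_pos,
    ev_polylog 242 1 (η1 / 2) (by positivity) (by norm_num),
    eventually_ge_atTop (Real.exp 1)] with T hb hsm hTC hlg hTe k hk g N₁ N₂ hg hN1 hN2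
    α β hα hβ hfac b σ hσ
  have hT1 : 1 < T := by
    have := Real.add_one_lt_exp (one_ne_zero)
    linarith
  have hT0 : 0 < T := by linarith
  have hlog : 1 ≤ Real.log T := by
    rw [Real.le_log_iff_exp_le hT0]; exact hTe
  rw [Real.rpow_one] at hTC
  have hgR : (1 : ℝ) ≤ g := by exact_mod_cast hg
  have hN1' : (N₁ : ℝ) ≤ T ^ (1 - δ) :=
    (le_trans (le_mul_of_one_le_left (Nat.cast_nonneg _) hgR) hN1).trans
      (Real.rpow_le_rpow_of_exponent_le hT1.le (by linarith))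
  have hN2' : (N₂ : ℝ) ≤ T ^ (1 - δ) :=
    (le_trans (le_mul_of_one_le_left (Nat.cast_nonneg _) hgR) hN2).trans
      (Real.rpow_le_rpow_of_exponent_le hT1.le (by linarith))
  obtain ⟨N, hN⟩ : ∃ N : ℕ, N = max N₁ N₂ := ⟨_, rfl⟩
  have hNδ : (N : ℝ) ≤ T ^ (1 - δ) := by
    rw [hN]
    push_cast
    exact max_le hN1' hN2'
  obtain ⟨r, hr⟩ : ∃ r : ℕ, r = ⌈10 * Real.log T⌉₊ := ⟨_, rfl⟩
  have hNT : (N : ℝ) ≤ T := by
    calc (N : ℝ) ≤ T ^ (1 - δ) := hNδ
      _ ≤ T ^ (1 : ℝ) := Real.rpow_le_rpow_of_exponent_le hT1.le (by linarith)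
      _ = T := Real.rpow_one T
  have hNr : N ≤ Hs 6 r := by
    have := Hs_big T hT1 6 le_rfl
    rw [← hr] at this
    exact_mod_cast hNT.trans this
  rw [cutN, ← hN]
  have hα' : ∀ m, ‖(fun l => if l ≤ N₁ then α l else 0) m‖ ≤ 1 := by
    intro m
    by_cases hm : m ≤ N₁
    · simp only [if_pos hm]; exact hα m
    · simp only [if_neg hm]; simp
  have hβ' : ∀ m, ‖(fun l => if l ≤ N₂ then β l else 0) m‖ ≤ 1 := by
    intro m
    by_cases hm : m ≤ N₂
    · simp only [if_pos hm]; exact hβ m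
    · simp only [if_neg hm]; simp
  -- the small part
  have s1 := split N 6 (fun l => if l ≤ N₁ then α l else 0) (fun l => if l ≤ N₂ then β l else 0)
    hα' hβ' (fun l h => Du k b σ h l (Yf k T)) (T ^ (-4 : ℝ) * Cz)
    (by positivity) (by
      intro l h hl hlN hh hhN hs
      rw [hCz]
      apply hsm k hk b σ h l hh hl
      have l1 : (l : ℝ) ≤ T ^ (1 - δ) := le_trans (by exact_mod_cast hlN) hNδ
      have h1 : (h : ℝ) ≤ T ^ (1 - δ) := le_trans (by exact_mod_cast hhN) hNδ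
      rcases hs with hs | hs
      · have : (l : ℝ) ≤ 6 := by exact_mod_cast hs
        calc (h : ℝ) * l ≤ T ^ (1 - δ) * 6 := by gcongr
          _ = 6 * T ^ (1 - δ) := by ring
      · have : (h : ℝ) ≤ 6 := by exact_mod_cast hs
        calc (h : ℝ) * l ≤ 6 * T ^ (1 - δ) := by gcongr)
  -- the blocks
  have s2 := blocks N 6 r hNr (fun l => if 6 < l ∧ l ≤ N then (if l ≤ N₁ then α l else 0) else 0)
    (fun h => if 6 < h ∧ h ≤ N then (if h ≤ N₂ then β h else 0) else 0)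
    (fun l h => Du k b σ h l (Yf k T)) (T ^ (-η1))
    (fun l hl => if_neg hl) (fun l hl => if_neg hl) (by positivity) (by
      intro H K hH hK hHN hKN
      by_cases hc : H < N₁ ∧ K < N₂
      · have a3 : (g : ℝ) * H ≤ T ^ θ₁ := by
          refine le_trans ?_ hN1
          have : (H : ℝ) ≤ N₁ := by exact_mod_cast hc.1.le
          gcongr
        have a4 : (g : ℝ) * K ≤ T ^ θ₂ := by
          refine le_trans ?_ hN2
          have : (K : ℝ) ≤ N₂ := by exact_mod_cast hc.2.le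
          gcongr
        refine hb k hk g H K hg (by omega) (by omega) a3 a4 _ _ ?_ ?_ ?_ b σ hσ
        · intro m
          by_cases hm : 6 < m ∧ m ≤ N
          · rw [if_pos hm]; exact hα' m
          · rw [if_neg hm]; simp
        · intro m
          by_cases hm : 6 < m ∧ m ≤ N
          · rw [if_pos hm]; exact hβ' m
          · rw [if_neg hm]; simp
        · intro m hm
          apply hfac
          intro h0
          apply hm
          simp [h0]
      · have e0 : ∑ l ∈ (Ioc H (2 * H)).filter (fun m => 4 * m ≤ 5 * H),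
            ∑ h ∈ (Ioc K (2 * K)).filter (fun n => 4 * n ≤ 5 * K ∧ Nat.Coprime l n),
            (if 6 < l ∧ l ≤ N then (if l ≤ N₁ then α l else 0) else 0) *
            (if 6 < h ∧ h ≤ N then (if h ≤ N₂ then β h else 0) else 0) *
            ((1 / ((h : ℝ) * l) : ℝ) : ℂ) * Du k b σ h l (Yf k T) = 0 := by
          apply Finset.sum_eq_zero
          intro l hl
          apply Finset.sum_eq_zero
          intro h hh
          rw [mem_filter, mem_Ioc] at hl hh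
          rw [not_and_or, not_lt, not_lt] at hc
          rcases hc with hc | hc
          · have : ¬ l ≤ N₁ := by omega
            simp [this]
          · have : ¬ h ≤ N₂ := by omega
            simp [this]
        rw [e0, norm_zero]
        positivity)
  have s3 : (r : ℝ) * r * T ^ (-η1) ≤ T ^ (-η) / 2 := by
    have a1 : (r : ℝ) ≤ 11 * Real.log T := by
      have : (r : ℝ) < 10 * Real.log T + 1 := by
        rw [hr]; exact Nat.ceil_lt_add_one (by positivity)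
      linarith
    have a2 : (r : ℝ) * r ≤ 121 * k := by
      calc (r : ℝ) * r ≤ (11 * Real.log T) * (11 * Real.log T) := by gcongr
        _ = 121 * Real.log T ^ 2 := by ring
        _ ≤ 121 * k := by
            have := hk.1
            linarith
    have a3 := hlg k hk.2
    rw [pow_one] at a3
    have a4 : (r : ℝ) * r ≤ T ^ (η1 / 2) / 2 := by linarith
    calc (r : ℝ) * r * T ^ (-η1) ≤ T ^ (η1 / 2) / 2 * T ^ (-η1) := by gcongr
      _ = T ^ (-(η1 / 2)) / 2 := by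
          have : T ^ (η1 / 2) * T ^ (-η1) = T ^ (-(η1 / 2)) := by
            rw [← Real.rpow_add hT0]; congr 1; ring
          rw [← this]; ring
      _ ≤ T ^ (-η) / 2 := by
          have := Real.rpow_le_rpow_of_exponent_le hT1.le (show -(η1 / 2) ≤ -η by linarith)
          linarith
  have s4 : (N : ℝ) * N * (T ^ (-4 : ℝ) * Cz) ≤ T ^ (-η) / 2 := by
    have a1 : T ^ (-1 : ℝ) ≤ T ^ (-η) :=
      Real.rpow_le_rpow_of_exponent_le hT1.le (by linarith)
    calc (N : ℝ) * N * (T ^ (-4 : ℝ) * Cz) ≤ T * T * (T ^ (-4 : ℝ) * (T / 2)) := by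
          have : Cz ≤ T / 2 := by linarith
          gcongr
      _ = T ^ (-1 : ℝ) / 2 := by
          have : T * T * (T ^ (-4 : ℝ) * T) = T ^ (-1 : ℝ) := by
            have e1 : T ^ (-4 : ℝ) = (T ^ 4)⁻¹ := by
              rw [Real.rpow_neg hT0.le]; norm_num
            rw [e1, Real.rpow_neg_one]
            field_simp
          rw [← this]; ring
      _ ≤ _ := by linarith
  refine s1.trans ?_
  linarith

end Run7.h294
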