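import Pool.Agent.H262R4.TM.COP

set_option autoImplicit false

/-! One coprime pair, in the range `h, l ≤ T ^ (1 - δ)`. -/

namespace Run7.h294

open Finset Filter Topology MeasureTheory Complex
open Pool.Agent.H306R2.SM (om cl ef Xf Gf Yf ee)
open Pool.Agent.H442R2.KF (kf tau)
open Pool.Agent.H262R4.TM
open Pool.Agent.H262R4.TM.TCOP

theorem G_sum' (k : ℕ) (b : Bool) (h l : ℕ) (Y K : ℝ) (hK : 0 ≤ K)
    (hH : ∀ y : ℝ, Y / l ≤ y → ‖Hk k b y‖ ≤ K * (y ^ 10)⁻¹) (hh : 1 ≤ h) (hl : 1 ≤ l) (hY : 0 < Y) :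
    ∃ S : ℂ, HasSum (fun m : ℕ × ℕ => if m.1 = 0 ∨ m.2 = 0 then (0 : ℂ) else
      (-dv1 h m.1 - dv1 h m.2 + dv1 h m.1 * dv1 h m.2) *
        Hk k b ((m.1 : ℝ) * m.2 * Y / ((h : ℝ) * l))) S ∧
      ‖S‖ ≤ 3 * (K * ((h:ℝ) ^ 2 * ((Y / l) ^ 10)⁻¹)) * ∑' m, q m := by
  have hh' : (0:ℝ) < h := by exact_mod_cast hh
  have hl' : (0:ℝ) < l := by exact_mod_cast hl
  have hb : ∀ m : ℕ × ℕ, ‖(if m.1 = 0 ∨ m.2 = 0 then (0 : ℂ) else
      (-dv1 h m.1 - dv1 h m.2 + dv1 h m.1 * dv1 h m.2) *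
        Hk k b ((m.1 : ℝ) * m.2 * Y / ((h : ℝ) * l)))‖ ≤
      3 * (K * ((h:ℝ) ^ 2 * ((Y / l) ^ 10)⁻¹)) * q m := by
    intro m
    have hq := q_nonneg m
    split_ifs with hm
    · rw [norm_zero]
      positivity
    · push Not at hm
      by_cases hd : h ∣ m.1 ∨ h ∣ m.2
      · have h1 : (h:ℝ) ≤ (m.1 : ℝ) * m.2 := by
          have : h ≤ m.1 * m.2 := by
            apply Nat.le_of_dvd (Nat.pos_of_ne_zero (Nat.mul_ne_zero hm.1 hm.2))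
            rcases hd with hd | hd
            · exact hd.mul_right _
            · exact hd.mul_left _
          exact_mod_cast this
        have hm1 : (0:ℝ) < m.1 := by exact_mod_cast Nat.pos_of_ne_zero hm.1
        have hm2 : (0:ℝ) < m.2 := by exact_mod_cast Nat.pos_of_ne_zero hm.2
        have h2 : ‖Hk k b ((m.1 : ℝ) * m.2 * Y / ((h : ℝ) * l))‖ ≤
            K * ((h : ℝ) ^ 2 * ((Y / l) ^ 10)⁻¹) * q (m.1, m.2) := by
          have e1 : (m.1 : ℝ) * m.2 * Y / ((h : ℝ) * l) = ((m.1 : ℝ) * m.2 / h) * (Y / l) := by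
            field_simp
          have h3 : 1 ≤ (m.1 : ℝ) * m.2 / h := (one_le_div hh').2 h1
          have hW : 0 < Y / l := by positivity
          refine (hH _ ?_).trans ?_
          · rw [e1]; nlinarith
          rw [mul_assoc K]
          refine mul_le_mul_of_nonneg_left ?_ hK
          have h4 : ((m.1 : ℝ) * m.2 / h) ^ 2 ≤ ((m.1 : ℝ) * m.2 / h) ^ 10 :=
            pow_le_pow_right₀ h3 (by norm_num)
          rw [e1, mul_pow, mul_inv]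
          have h5 : (((m.1 : ℝ) * m.2 / h) ^ 10)⁻¹ ≤ (((m.1 : ℝ) * m.2 / h) ^ 2)⁻¹ :=
            inv_anti₀ (by positivity) h4
          have h6 : (h : ℝ) ^ 2 * ((Y / l) ^ 10)⁻¹ * q (m.1, m.2) =
              (((m.1 : ℝ) * m.2 / h) ^ 2)⁻¹ * ((Y / l) ^ 10)⁻¹ := by
            unfold q
            field_simp
          rw [h6]
          exact mul_le_mul_of_nonneg_right h5 (by positivity)
        rw [norm_mul]
        have h3 := dv1_coef h m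
        calc _ ≤ 3 * (K * ((h:ℝ) ^ 2 * ((Y / l) ^ 10)⁻¹) * q (m.1, m.2)) :=
              mul_le_mul h3 h2 (norm_nonneg _) (by norm_num)
          _ = 3 * (K * ((h:ℝ) ^ 2 * ((Y / l) ^ 10)⁻¹)) * q m := by ring
      · push Not at hd
        rw [dv1_zero h m hd.1 hd.2, zero_mul, norm_zero]
        positivity
  have hs2 : HasSum (fun m => 3 * (K * ((h:ℝ) ^ 2 * ((Y / l) ^ 10)⁻¹)) * q m)
      (3 * (K * ((h:ℝ) ^ 2 * ((Y / l) ^ 10)⁻¹)) * ∑' m, q m) := q_summable.hasSum.mul_left _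
  have hs : Summable (fun m : ℕ × ℕ => if m.1 = 0 ∨ m.2 = 0 then (0 : ℂ) else
      (-dv1 h m.1 - dv1 h m.2 + dv1 h m.1 * dv1 h m.2) *
        Hk k b ((m.1 : ℝ) * m.2 * Y / ((h : ℝ) * l))) := Summable.of_norm_bounded hs2.summable hb
  exact ⟨_, hs.hasSum, tsum_of_norm_bounded hs2 hb⟩

/-- the exponential sum of one pair -/
theorem dualX' (h2 : P_DUAL) (k h l : ℕ) (Y K K' : ℝ) (hk : 3 ≤ k) (hh : 1 ≤ h) (hl : 1 ≤ l)
    (hc : Nat.Coprime h l) (hY : 0 < Y) (hK : 0 ≤ K) (hK' : 0 ≤ K')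
    (hH : ∀ b, ∀ y : ℝ, 0 < y → ‖Hk k b y‖ ≤ K * (y ^ 10)⁻¹)
    (hH' : ∀ b, ∀ y : ℝ, Y / l ≤ y → ‖Hk k b y‖ ≤ K' * (y ^ 10)⁻¹) :
    ∃ G : ℂ, ‖G‖ ≤ 6 * (K' * ((h:ℝ) ^ 2 * ((Y / l) ^ 10)⁻¹)) * ∑' m, q m ∧
      S2 k h l Y / (((k.factorial : ℝ) * Y ^ (k + 1) : ℝ) : ℂ) =
        ((1 / Y * (2 * V2 k (Y / l) - V2 k (h * Y / l) / h) : ℝ) : ℂ) +
        ((1 / l : ℝ) : ℂ) * (Du k true 1 h l Y + Du k false (-1) h l Y + G) := by
  obtain ⟨G1, hG1, hG1n⟩ := G_sum' k true h l Y K' hK' (hH' true) hh hl hY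
  obtain ⟨G2, hG2, hG2n⟩ := G_sum' k false h l Y K' hK' (hH' false) hh hl hY
  have hF1 := F_sum k true 1 h l Y K hK (hH true) hh hl hY
  have hF2 := F_sum k false (-1) h l Y K hK (hH false) hh hl hY
  have hD := h2 k h l Y hk hh hl hc hY
  have hsum := (((hF1.add hF2).add (hG1.add hG2)).mul_left ((Y / l : ℝ) : ℂ))
  have heq : S2 k h l Y / (((k.factorial : ℝ) * Y ^ k : ℝ) : ℂ) -
        ((2 * V2 k (Y / l) - V2 k (h * Y / l) / h : ℝ) : ℂ) =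
      ((Y / l : ℝ) : ℂ) * ((Du k true 1 h l Y + Du k false (-1) h l Y) + (G1 + G2)) := by
    refine hD.unique ?_
    refine hsum.congr_fun ?_
    intro m
    by_cases hm : m.1 = 0 ∨ m.2 = 0
    · simp only [if_pos hm, add_zero, mul_zero]
    · simp only [if_neg hm]
      unfold cd
      ring
  refine ⟨G1 + G2, ?_, ?_⟩
  · refine (norm_add_le _ _).trans ?_
    linarith
  · have hYc : (Y : ℂ) ≠ 0 := by exact_mod_cast hY.ne'
    have e1 : S2 k h l Y / (((k.factorial : ℝ) * Y ^ (k + 1) : ℝ) : ℂ) =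
        (1 / (Y : ℂ)) * (S2 k h l Y / (((k.factorial : ℝ) * Y ^ k : ℝ) : ℂ)) := by
      have hfc : ((k.factorial : ℝ) : ℂ) ≠ 0 := by
        have := Nat.factorial_pos k
        have h3 : (k.factorial : ℝ) ≠ 0 := by positivity
        exact_mod_cast h3
      push_cast
      rw [pow_succ]
      field_simp
    rw [e1]
    have e2 : S2 k h l Y / (((k.factorial : ℝ) * Y ^ k : ℝ) : ℂ) =
        ((2 * V2 k (Y / l) - V2 k (h * Y / l) / h : ℝ) : ℂ) +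
        ((Y / l : ℝ) : ℂ) * ((Du k true 1 h l Y + Du k false (-1) h l Y) + (G1 + G2)) := by
      rw [← heq]; ring
    rw [e2]
    push_cast
    field_simp

theorem copF (h1 : P_TW) (h2 : P_DUAL) (h3 : P_V2) (h4 : P_KER) (δ : ℝ) (hδ : 0 < δ) (hδ1 : δ ≤ 1) :
    ∀ᶠ T : ℝ in atTop, ∀ k : ℕ, Rng T k → ∀ h l : ℕ, 1 ≤ h → 1 ≤ l → Nat.Coprime h l →
    (h : ℝ) ≤ T ^ (1 - δ) → (l : ℝ) ≤ T ^ (1 - δ) →
    ‖Mt k T h l - ((1 / Real.sqrt (h * l) * (Real.log (Yf k T / (h * l)) + Ck k) : ℝ) : ℂ) -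
      ((1 / Real.sqrt (h * l) : ℝ) : ℂ) *
        (Du k true 1 h l (Yf k T) + Du k false (-1) h l (Yf k T))‖ ≤
      T ^ (-(3 / 5) : ℝ) +
        T ^ (-(1 / 5) : ℝ) * (l : ℝ) ^ (-(1 / 4) : ℝ) * (h : ℝ) ^ (-(1 / 2) : ℝ) := by
  obtain ⟨C1, A1, hC1, hV⟩ := h3
  obtain ⟨C4, A4, k0, hC4, hKr⟩ := h4 10 (by norm_num)
  obtain ⟨C5, A5, k1, hC5, hKr5⟩ := h4 (10 + 6 / δ) (by positivity)
  obtain ⟨Z, hZdef⟩ : ∃ Z : ℝ, Z = ∑' m, q m := ⟨_, rfl⟩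
  have hZ : 0 ≤ Z := hZdef ▸ tsum_nonneg q_nonneg
  filter_upwards [h1, logs (2 * Real.pi) 1 (1 / 15) (by norm_num),
    logs (2 * Real.pi) 1 (δ / 4) (by positivity),
    logs (3 * C1) A1 (1 / 30) (by norm_num), logs (6 * C5 * Z) A5 (1 / 30) (by norm_num),
    logs 2 0 (1 / 15) (by norm_num),
    Real.tendsto_log_atTop.eventually_ge_atTop (max ((max k0 k1 : ℕ) : ℝ) 3),
    eventually_ge_atTop 1]
    with T hTW hT1 hT1' hT2 hT3 hT4 hT5 hT6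
  intro k hk h l hh hl hc hhT hlT
  have hT0 : 0 < T := by linarith
  have hL3 : (3:ℝ) ≤ Real.log T := (le_max_right _ _).trans hT5
  have hLk : ((max k0 k1 : ℕ):ℝ) ≤ Real.log T := (le_max_left _ _).trans hT5
  have hLsq : Real.log T ≤ Real.log T ^ 2 := by nlinarith
  have hkr : Real.log T ≤ k := hLsq.trans hk.1
  have hk3 : 3 ≤ k := by
    have : (3:ℝ) ≤ k := hL3.trans hkr
    exact_mod_cast this
  have hkk : max k0 k1 ≤ k := by
    have : ((max k0 k1 : ℕ):ℝ) ≤ k := hLk.trans hkr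
    exact_mod_cast this
  have hkk0 : k0 ≤ k := (le_max_left _ _).trans hkk
  have hkk1 : k1 ≤ k := (le_max_right _ _).trans hkk
  have hkpos : (0:ℝ) < k := by linarith
  have hh1 : (1:ℝ) ≤ h := by exact_mod_cast hh
  have hl1 : (1:ℝ) ≤ l := by exact_mod_cast hl
  have hl0 : (0:ℝ) < l := by linarith
  have hh0 : (0:ℝ) < h := by linarith
  -- size of `Y`
  obtain ⟨Y, hYdef⟩ : ∃ Y : ℝ, Y = Yf k T := ⟨_, rfl⟩
  have hYe : Y = T / (2 * Real.pi * k) := hYdef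
  have hpi := Real.pi_pos
  have hY0 : 0 < Y := by rw [hYe]; positivity
  have hYge : T ^ (14 / 15 : ℝ) ≤ Y := by
    have a1 : 2 * Real.pi * k ≤ T ^ (1 / 15 : ℝ) := by
      refine le_trans ?_ hT1
      rw [pow_one]
      have := hk.2
      gcongr
    rw [hYe, le_div_iff₀ (by positivity)]
    calc T ^ (14 / 15 : ℝ) * (2 * Real.pi * k) ≤ T ^ (14 / 15 : ℝ) * T ^ (1 / 15 : ℝ) := by gcongr
      _ = T := by rw [← Real.rpow_add hT0]; norm_num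
  have hYge' : T ^ (1 - δ / 4) ≤ Y := by
    have a1 : 2 * Real.pi * k ≤ T ^ (δ / 4) := by
      refine le_trans ?_ hT1'
      rw [pow_one]
      have := hk.2
      gcongr
    rw [hYe, le_div_iff₀ (by positivity)]
    calc T ^ (1 - δ / 4) * (2 * Real.pi * k) ≤ T ^ (1 - δ / 4) * T ^ (δ / 4) := by gcongr
      _ = T := by
          rw [← Real.rpow_add hT0]
          norm_num
  have hYl : T ^ (δ / 2) ≤ Y / l := by
    rw [le_div_iff₀ hl0]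
    calc T ^ (δ / 2) * l ≤ T ^ (δ / 2) * T ^ (1 - δ) := by gcongr
      _ = T ^ (δ / 2 + (1 - δ)) := by rw [← Real.rpow_add hT0]
      _ ≤ T ^ (1 - δ / 4) := Real.rpow_le_rpow_of_exponent_le hT6 (by linarith)
      _ ≤ Y := hYge'
  have hYl1 : 1 ≤ Y / l := (Real.one_le_rpow hT6 (by positivity)).trans hYl
  -- the pieces
  have hTT : T ^ (1 - δ) ≤ T := by
    calc T ^ (1 - δ) ≤ T ^ (1 : ℝ) := Real.rpow_le_rpow_of_exponent_le hT6 (by linarith)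
      _ = T := Real.rpow_one T
  have b1 := hTW k hk h l hh hl (hhT.trans hTT) (hlT.trans hTT)
  rw [← hYdef] at b1
  have hH : ∀ b, ∀ y : ℝ, 0 < y → ‖Hk k b y‖ ≤ (C4 * (k : ℝ) ^ A4) * (y ^ 10)⁻¹ := by
    intro b y hy
    have := (hKr k hkk0 b y hy).1
    rwa [Real.rpow_neg hy.le, show (10:ℝ) = ((10:ℕ):ℝ) by norm_num, Real.rpow_natCast] at this
  have hH' : ∀ b, ∀ y : ℝ, Y / l ≤ y →
      ‖Hk k b y‖ ≤ (C5 * (k : ℝ) ^ A5 * T ^ (-3 : ℝ)) * (y ^ 10)⁻¹ := by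
    intro b y hy
    have hy0 : 0 < y := by linarith
    have h5 := (hKr5 k hkk1 b y hy0).1
    have e1 : y ^ (-(10 + 6 / δ)) = y ^ (-(6 / δ)) * (y ^ 10)⁻¹ := by
      have e2 : (y ^ 10)⁻¹ = y ^ (-(10 : ℝ)) := by
        rw [Real.rpow_neg hy0.le, show (10:ℝ) = ((10:ℕ):ℝ) by norm_num, Real.rpow_natCast]
      rw [e2, ← Real.rpow_add hy0]
      congr 1
      ring
    have e3 : y ^ (-(6 / δ)) ≤ T ^ (-3 : ℝ) := by
      calc y ^ (-(6 / δ)) ≤ (T ^ (δ / 2)) ^ (-(6 / δ)) :=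
            Real.rpow_le_rpow_of_nonpos (by positivity) (hYl.trans hy) (by
              have : 0 < 6 / δ := by positivity
              linarith)
        _ = T ^ (-3 : ℝ) := by
            rw [← Real.rpow_mul hT0.le]
            congr 1
            field_simp
            norm_num
    refine h5.trans ?_
    rw [e1]
    calc C5 * (k : ℝ) ^ A5 * (y ^ (-(6 / δ)) * (y ^ 10)⁻¹) ≤
        C5 * (k : ℝ) ^ A5 * (T ^ (-3 : ℝ) * (y ^ 10)⁻¹) := by gcongr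
      _ = _ := by ring
  obtain ⟨G, hG, hX⟩ := dualX' h2 k h l Y (C4 * (k : ℝ) ^ A4) (C5 * (k : ℝ) ^ A5 * T ^ (-3 : ℝ))
    hk3 hh hl hc hY0 (by positivity) (by positivity) hH hH'
  have b2 := mainterm (V2 k) Y h l (Ck k) (C1 * (k : ℝ) ^ A1) hY0 hh1 hl1 hYl1 (by positivity)
    (fun u hu => hV k (by omega) u hu)
  have hRl : Real.sqrt ((l : ℝ) / h) / l = 1 / Real.sqrt (h * l) := by
    rw [Real.sqrt_div hl0.le, Real.sqrt_mul hh0.le]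
    have h1 : Real.sqrt l * Real.sqrt l = l := Real.mul_self_sqrt hl0.le
    have h2 : 0 < Real.sqrt l := Real.sqrt_pos.2 hl0
    have h3 : 0 < Real.sqrt h := Real.sqrt_pos.2 hh0
    rw [div_div, div_eq_div_iff (by positivity) (by positivity)]
    calc Real.sqrt l * (Real.sqrt h * Real.sqrt l) = Real.sqrt h * (Real.sqrt l * Real.sqrt l) := by
          ring
      _ = 1 * (Real.sqrt h * l) := by rw [h1]; ring
  have hP1 : 1 / Real.sqrt ((h:ℝ) * l) ≤ 1 := by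
    rw [div_le_one (Real.sqrt_pos.2 (by positivity))]
    rw [Real.one_le_sqrt]
    nlinarith
  have hfin := finish (Mt k T h l) _ (Real.sqrt ((l : ℝ) / h)) Y l
    (2 * V2 k (Y / l) - V2 k (h * Y / l) / h) (1 / Real.sqrt ((h:ℝ) * l))
    (Du k true 1 h l Y + Du k false (-1) h l Y) G _ _ _ hX hRl (by positivity) hP1
    (Real.log (Y / (h * l)) + Ck k) b1 b2 hG
  rw [← hYdef]
  refine hfin.trans ?_
  -- numerics
  have c2 : 3 * (C1 * (k : ℝ) ^ A1) * Y ^ (-(1 / 4) : ℝ) ≤ T ^ (-(1 / 5) : ℝ) := by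
    have d1 : 3 * (C1 * (k : ℝ) ^ A1) ≤ T ^ (1 / 30 : ℝ) := by
      refine le_trans ?_ hT2
      have := bnd (3 * C1) (Real.log T) A1 k (by positivity) hk.2
      linarith
    have d2 : Y ^ (-(1 / 4) : ℝ) ≤ T ^ (-(7 / 30) : ℝ) := by
      calc Y ^ (-(1 / 4) : ℝ) ≤ (T ^ (14 / 15 : ℝ)) ^ (-(1 / 4) : ℝ) :=
            Real.rpow_le_rpow_of_nonpos (by positivity) hYge (by norm_num)
        _ = T ^ (-(7 / 30) : ℝ) := by rw [← Real.rpow_mul hT0.le]; norm_num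
    calc 3 * (C1 * (k : ℝ) ^ A1) * Y ^ (-(1 / 4) : ℝ) ≤ T ^ (1 / 30 : ℝ) * T ^ (-(7 / 30) : ℝ) :=
          mul_le_mul d1 d2 (by positivity) (by positivity)
      _ = T ^ (-(1 / 5) : ℝ) := by rw [← Real.rpow_add hT0]; norm_num
  have c3 : 6 * ((C5 * (k : ℝ) ^ A5 * T ^ (-3 : ℝ)) * ((h:ℝ) ^ 2 * ((Y / l) ^ 10)⁻¹)) * ∑' m, q m ≤
      T ^ (-(2 / 3) : ℝ) := by
    rw [← hZdef]
    have d1 : 6 * C5 * Z * (k : ℝ) ^ A5 ≤ T ^ (1 / 30 : ℝ) :=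
      (bnd (6 * C5 * Z) (Real.log T) A5 k (by positivity) hk.2).trans hT3
    have d2 : (h:ℝ) ^ 2 ≤ T ^ (2 : ℝ) := by
      calc (h:ℝ) ^ 2 ≤ T ^ 2 := by
            have := hhT.trans hTT
            gcongr
        _ = T ^ (2 : ℝ) := by
          rw [← Real.rpow_natCast]; norm_num
    have d3 : ((Y / l) ^ 10)⁻¹ ≤ 1 := inv_le_one_of_one_le₀ (one_le_pow₀ hYl1)
    calc 6 * ((C5 * (k : ℝ) ^ A5 * T ^ (-3 : ℝ)) * ((h:ℝ) ^ 2 * ((Y / l) ^ 10)⁻¹)) * Z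
        = (6 * C5 * Z * (k : ℝ) ^ A5) * (T ^ (-3 : ℝ) * ((h:ℝ) ^ 2 * ((Y / l) ^ 10)⁻¹)) := by ring
      _ ≤ T ^ (1 / 30 : ℝ) * (T ^ (-3 : ℝ) * (T ^ (2 : ℝ) * 1)) := by
          apply mul_le_mul d1 _ (by positivity) (by positivity)
          apply mul_le_mul_of_nonneg_left _ (by positivity)
          exact mul_le_mul d2 d3 (by positivity) (by positivity)
      _ = T ^ (-(29 / 30) : ℝ) := by
          rw [mul_one, ← Real.rpow_add hT0, ← Real.rpow_add hT0]; norm_num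
      _ ≤ T ^ (-(2 / 3) : ℝ) := Real.rpow_le_rpow_of_exponent_le hT6 (by norm_num)
  have c4 : T ^ (-(2 / 3) : ℝ) + T ^ (-(2 / 3) : ℝ) ≤ T ^ (-(3 / 5) : ℝ) := by
    have d1 : (2:ℝ) ≤ T ^ (1 / 15 : ℝ) := by
      have := hT4
      rwa [pow_zero, mul_one] at this
    calc T ^ (-(2 / 3) : ℝ) + T ^ (-(2 / 3) : ℝ) = 2 * T ^ (-(2 / 3) : ℝ) := by ring
      _ ≤ T ^ (1 / 15 : ℝ) * T ^ (-(2 / 3) : ℝ) := by gcongr
      _ = T ^ (-(3 / 5) : ℝ) := by rw [← Real.rpow_add hT0]; norm_num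
  have c5 : 3 * (C1 * (k : ℝ) ^ A1) * Y ^ (-(1 / 4) : ℝ) *
      ((l:ℝ) ^ (-(1 / 4) : ℝ) * (h:ℝ) ^ (-(1 / 2) : ℝ)) ≤
      T ^ (-(1 / 5) : ℝ) * (l : ℝ) ^ (-(1 / 4) : ℝ) * (h : ℝ) ^ (-(1 / 2) : ℝ) := by
    rw [mul_assoc (T ^ (-(1 / 5) : ℝ))]
    exact mul_le_mul_of_nonneg_right c2 (by positivity)
  linarith

end Run7.h294
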