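import Pool.Agent.Run7.h294.F6
import Pool.Agent.Run7.h294.F7
import Pool.Agent.H262R4.TM.All2

set_option autoImplicit false

/-! Final assembly. -/

namespace Run7.h294

open Finset Filter Topology MeasureTheory Complex
open Pool.Agent.H306R2.SM (om cl ef Xf Gf Yf ee)
open Pool.Agent.H442R2.KF (e kf tau)
open Pool.Agent.H262R4.TM
open Pool.Agent.H262R4.TM.TTSM2

/-- sorting pairs by their greatest common divisor -/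
theorem gcd_sum' (N₁ N₂ : ℕ) (F : ℕ → ℕ → ℂ) :
    ∑ h ∈ Icc 1 N₁, ∑ l ∈ Icc 1 N₂, F h l =
      ∑ g ∈ Icc 1 N₁, ∑ h ∈ Icc 1 (N₁ / g),
        ∑ l ∈ (Icc 1 (N₂ / g)).filter (fun l => Nat.Coprime h l), F (g * h) (g * l) := by
  rw [← Finset.sum_product']
  simp only [Finset.sum_sigma']
  refine Finset.sum_bij' (fun p _ => ⟨Nat.gcd p.1 p.2, ⟨p.1 / Nat.gcd p.1 p.2, p.2 / Nat.gcd p.1 p.2⟩⟩)
    (fun x _ => (x.1 * x.2.1, x.1 * x.2.2)) ?_ ?_ ?_ ?_ ?_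
  · rintro ⟨h, l⟩ hp
    simp only [Finset.mem_product, Finset.mem_Icc] at hp
    have hg : 0 < Nat.gcd h l := Nat.gcd_pos_of_pos_left _ (by omega)
    simp only [Finset.mem_sigma, Finset.mem_Icc, Finset.mem_filter]
    refine ⟨⟨hg, (Nat.gcd_le_left _ (by omega)).trans hp.1.2⟩, ⟨?_, Nat.div_le_div_right hp.1.2⟩,
      ⟨?_, Nat.div_le_div_right hp.2.2⟩, Nat.coprime_div_gcd_div_gcd hg⟩
    · exact Nat.div_pos (Nat.gcd_le_left _ (by omega)) hg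
    · exact Nat.div_pos (Nat.gcd_le_right _ (by omega)) hg
  · rintro ⟨g, h, l⟩ hx
    simp only [Finset.mem_sigma, Finset.mem_Icc, Finset.mem_filter] at hx
    obtain ⟨⟨hg1, hg2⟩, ⟨hh1, hh2⟩, ⟨hl1, hl2⟩, hc⟩ := hx
    simp only [Finset.mem_product, Finset.mem_Icc]
    refine ⟨⟨Nat.mul_pos hg1 hh1, ?_⟩, Nat.mul_pos hg1 hl1, ?_⟩
    · exact (Nat.mul_le_mul_left g hh2).trans (Nat.mul_div_le N₁ g)
    · exact (Nat.mul_le_mul_left g hl2).trans (Nat.mul_div_le N₂ g)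
  · rintro ⟨h, l⟩ hp
    simp only
    rw [Nat.mul_div_cancel' (Nat.gcd_dvd_left h l), Nat.mul_div_cancel' (Nat.gcd_dvd_right h l)]
  · rintro ⟨g, h, l⟩ hx
    simp only [Finset.mem_sigma, Finset.mem_Icc, Finset.mem_filter] at hx
    obtain ⟨⟨hg1, hg2⟩, ⟨hh1, hh2⟩, ⟨hl1, hl2⟩, hc⟩ := hx
    have e1 : Nat.gcd (g * h) (g * l) = g := by
      rw [Nat.gcd_mul_left, Nat.Coprime.gcd_eq_one hc, mul_one]
    simp only [e1, Nat.mul_div_cancel_left _ hg1]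
  · rintro ⟨h, l⟩ hp
    simp only
    rw [Nat.mul_div_cancel' (Nat.gcd_dvd_left h l), Nat.mul_div_cancel' (Nat.gcd_dvd_right h l)]

theorem sq_expand' (N₁ N₂ : ℕ) (a b : ℕ → ℂ) (t : ℝ) :
    (∑ n ∈ Icc 1 N₁, a n * (n : ℂ) ^ (-(cl t))) *
      (starRingEnd ℂ) (∑ n ∈ Icc 1 N₂, b n * (n : ℂ) ^ (-(cl t))) =
      ∑ h ∈ Icc 1 N₁, ∑ l ∈ Icc 1 N₂, (a h * (starRingEnd ℂ) (b l) *
        ((1 / Real.sqrt ((h : ℝ) * l) : ℝ) : ℂ)) * ef (Real.log ((l : ℝ) / h)) t := by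
  rw [map_sum, Finset.sum_mul_sum]
  refine Finset.sum_congr rfl fun h hh => Finset.sum_congr rfl fun l hl => ?_
  rw [Finset.mem_Icc] at hh hl
  have hh0 : (0 : ℝ) < h := by exact_mod_cast hh.1
  have hl0 : (0 : ℝ) < l := by exact_mod_cast hl.1
  rw [cpow_cl h hh.1, cpow_cl l hl.1, map_mul, map_mul, Complex.conj_ofReal, ← Complex.exp_conj,
    map_mul, Complex.conj_ofReal, Complex.conj_I, Real.sqrt_mul hh0.le]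
  unfold ef
  rw [Real.log_div hl0.ne' hh0.ne']
  have e1 : Complex.exp ((((Real.log l - Real.log h) * t : ℝ) : ℂ) * I) =
      Complex.exp (((-(t * Real.log h) : ℝ) : ℂ) * I) * Complex.exp (((-(t * Real.log l) : ℝ) : ℂ) * -I) := by
    rw [← Complex.exp_add]
    congr 1
    push_cast
    ring
  rw [e1]
  push_cast
  ring

theorem int_expand' (k : ℕ) (T : ℝ) (hδ : 0 < (k : ℝ) / T) (N₁ N₂ : ℕ) (a b : ℕ → ℂ) :
    (∫ t in Set.Ioi (0 : ℝ), ((om k (k / T) t * ‖riemannZeta (cl t)‖ ^ 2 : ℝ) : ℂ) *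
        ((∑ n ∈ Icc 1 N₁, a n * (n : ℂ) ^ (-(cl t))) *
          (starRingEnd ℂ) (∑ n ∈ Icc 1 N₂, b n * (n : ℂ) ^ (-(cl t))))) =
      ∑ h ∈ Icc 1 N₁, ∑ l ∈ Icc 1 N₂, (a h * (starRingEnd ℂ) (b l) *
        ((1 / Real.sqrt ((h : ℝ) * l) : ℝ) : ℂ)) * Mt k T l h := by
  have h1 : ∀ t : ℝ, ((om k (k / T) t * ‖riemannZeta (cl t)‖ ^ 2 : ℝ) : ℂ) *
        ((∑ n ∈ Icc 1 N₁, a n * (n : ℂ) ^ (-(cl t))) *
          (starRingEnd ℂ) (∑ n ∈ Icc 1 N₂, b n * (n : ℂ) ^ (-(cl t)))) =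
      ∑ h ∈ Icc 1 N₁, ∑ l ∈ Icc 1 N₂, (a h * (starRingEnd ℂ) (b l) *
        ((1 / Real.sqrt ((h : ℝ) * l) : ℝ) : ℂ)) *
        (((om k (k / T) t * ‖riemannZeta (cl t)‖ ^ 2 : ℝ) : ℂ) * ef (Real.log ((l : ℝ) / h)) t) := by
    intro t
    rw [sq_expand', Finset.mul_sum]
    refine Finset.sum_congr rfl fun h _ => ?_
    rw [Finset.mul_sum]
    refine Finset.sum_congr rfl fun l _ => ?_
    ring
  simp only [h1]
  rw [integral_finsetSum]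
  · refine Finset.sum_congr rfl fun h _ => ?_
    rw [integral_finsetSum]
    · refine Finset.sum_congr rfl fun l _ => ?_
      rw [integral_const_mul]
      rfl
    · intro l _
      exact (int_ef k hδ _).const_mul _
  · intro h _
    exact integrable_finsetSum _ fun l _ => (int_ef k hδ _).const_mul _

theorem pair_id' (k : ℕ) (T : ℝ) (a b : ℕ → ℂ) (g h l : ℕ) (hg : 1 ≤ g) (hh : 1 ≤ h) (hl : 1 ≤ l)
    (hc : Nat.Coprime h l) :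
    (a (g * h) * (starRingEnd ℂ) (b (g * l)) *
        ((1 / Real.sqrt (((g * h : ℕ) : ℝ) * ((g * l : ℕ) : ℝ)) : ℝ) : ℂ)) * Mt k T (g * l) (g * h) -
      a (g * h) * (starRingEnd ℂ) (b (g * l)) *
        ((1 / (Nat.lcm (g * h) (g * l) : ℝ) *
          (Real.log (Yf k T * (Nat.gcd (g * h) (g * l) : ℝ) ^ 2 /
            (((g * h : ℕ) : ℝ) * ((g * l : ℕ) : ℝ))) + Ck k) : ℝ) : ℂ) =
    ((1 / (g : ℝ) : ℝ) : ℂ) * (
      a (g * h) * (starRingEnd ℂ) (b (g * l)) * ((1 / ((l : ℝ) * h) : ℝ) : ℂ) *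
        Du k true 1 l h (Yf k T) +
      a (g * h) * (starRingEnd ℂ) (b (g * l)) * ((1 / ((l : ℝ) * h) : ℝ) : ℂ) *
        Du k false (-1) l h (Yf k T) +
      a (g * h) * (starRingEnd ℂ) (b (g * l)) * ((1 / Real.sqrt ((l : ℝ) * h) : ℝ) : ℂ) *
        Rr k T l h) := by
  have hg0 : (0 : ℝ) < g := by exact_mod_cast hg
  have hh0 : (0 : ℝ) < h := by exact_mod_cast hh
  have hl0 : (0 : ℝ) < l := by exact_mod_cast hl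
  rw [Mt_scale k T g h l hg]
  have e1 : Nat.gcd (g * h) (g * l) = g := by
    rw [Nat.gcd_mul_left, Nat.Coprime.gcd_eq_one hc, mul_one]
  have e2 : Nat.lcm (g * h) (g * l) = g * (h * l) := by
    rw [Nat.lcm_mul_left, Nat.Coprime.lcm_eq_mul hc]
  have e3 : Real.sqrt (((g * h : ℕ) : ℝ) * ((g * l : ℕ) : ℝ)) = g * Real.sqrt ((l : ℝ) * h) := by
    rw [show ((g * h : ℕ) : ℝ) * ((g * l : ℕ) : ℝ) = (g : ℝ) ^ 2 * ((l : ℝ) * h) by push_cast; ring,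
      Real.sqrt_mul (by positivity), Real.sqrt_sq hg0.le]
  have e4 : Yf k T * (g : ℝ) ^ 2 / (((g * h : ℕ) : ℝ) * ((g * l : ℕ) : ℝ)) = Yf k T / ((l : ℝ) * h) := by
    push_cast
    field_simp
  rw [e1, e2, e3, e4]
  unfold Rr
  have hs : Real.sqrt ((l : ℝ) * h) ^ 2 = (l : ℝ) * h := Real.sq_sqrt (by positivity)
  have hs0 : 0 < Real.sqrt ((l : ℝ) * h) := Real.sqrt_pos.mpr (by positivity)
  have e5 : (1 / ((g * (h * l) : ℕ) : ℝ)) = 1 / (g : ℝ) * (1 / Real.sqrt ((l : ℝ) * h)) ^ 2 := by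
    rw [div_pow, hs]
    push_cast
    field_simp
  have e6 : 1 / ((l : ℝ) * h) = (1 / Real.sqrt ((l : ℝ) * h)) ^ 2 := by
    rw [div_pow, hs, one_pow]
  have e7 : 1 / ((g : ℝ) * Real.sqrt ((l : ℝ) * h)) = 1 / (g : ℝ) * (1 / Real.sqrt ((l : ℝ) * h)) := by
    rw [one_div_mul_one_div]
  rw [e5, e6, e7]
  generalize Real.log (Yf k T / ((l : ℝ) * h)) = X
  generalize 1 / Real.sqrt ((l : ℝ) * h) = u
  generalize 1 / (g : ℝ) = v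
  push_cast
  ring

theorem err_le' (T : ℝ) (hT : 0 < T) (N₁ N₂ h l : ℕ) (hh : 1 ≤ h) (hl : 1 ≤ l) (hhN : h ≤ N₁)
    (hlN : l ≤ N₂) :
    1 / Real.sqrt ((l : ℝ) * h) *
      (T ^ (-(3 / 5) : ℝ) + T ^ (-(1 / 5) : ℝ) * (h : ℝ) ^ (-(1 / 4) : ℝ) * (l : ℝ) ^ (-(1 / 2) : ℝ)) ≤
    1 / (h : ℝ) * (1 / (l : ℝ)) *
      (((N₁ : ℝ) * N₂) ^ (1 / 2 : ℝ) * T ^ (-(3 / 5) : ℝ) +
        (N₁ : ℝ) ^ (1 / 4 : ℝ) * T ^ (-(1 / 5) : ℝ)) := by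
  have hh0 : (0 : ℝ) < h := by exact_mod_cast hh
  have hl0 : (0 : ℝ) < l := by exact_mod_cast hl
  have hhN' : (h : ℝ) ≤ N₁ := by exact_mod_cast hhN
  have hlN' : (l : ℝ) ≤ N₂ := by exact_mod_cast hlN
  have hN0 : (0 : ℝ) < N₁ := by linarith
  have hN0' : (0 : ℝ) < N₂ := by linarith
  have e0 : 1 / Real.sqrt ((l : ℝ) * h) = (l : ℝ) ^ (-(1 / 2) : ℝ) * (h : ℝ) ^ (-(1 / 2) : ℝ) := by
    rw [Real.sqrt_eq_rpow, one_div, ← Real.rpow_neg (by positivity), Real.mul_rpow hl0.le hh0.le]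
  have hinv : ∀ x : ℝ, 1 / x = x ^ (-1 : ℝ) := fun x => by rw [Real.rpow_neg_one, one_div]
  have p1 : (l : ℝ) ^ (-(1 / 2) : ℝ) ≤ 1 / (l : ℝ) * (N₂ : ℝ) ^ (1 / 2 : ℝ) := by
    have : (l : ℝ) ^ (-(1 / 2) : ℝ) = 1 / (l : ℝ) * (l : ℝ) ^ (1 / 2 : ℝ) := by
      rw [hinv l, ← Real.rpow_add hl0]
      norm_num
    rw [this]
    gcongr
  have p2 : (h : ℝ) ^ (-(1 / 2) : ℝ) ≤ 1 / (h : ℝ) * (N₁ : ℝ) ^ (1 / 2 : ℝ) := by
    have : (h : ℝ) ^ (-(1 / 2) : ℝ) = 1 / (h : ℝ) * (h : ℝ) ^ (1 / 2 : ℝ) := by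
      rw [hinv h, ← Real.rpow_add hh0]
      norm_num
    rw [this]
    gcongr
  have p3 : (h : ℝ) ^ (-(1 / 2) : ℝ) * (h : ℝ) ^ (-(1 / 4) : ℝ) ≤ 1 / (h : ℝ) * (N₁ : ℝ) ^ (1 / 4 : ℝ) := by
    have : (h : ℝ) ^ (-(1 / 2) : ℝ) * (h : ℝ) ^ (-(1 / 4) : ℝ) = 1 / (h : ℝ) * (h : ℝ) ^ (1 / 4 : ℝ) := by
      rw [hinv h, ← Real.rpow_add hh0, ← Real.rpow_add hh0]
      norm_num
    rw [this]
    gcongr
  have p4 : (l : ℝ) ^ (-(1 / 2) : ℝ) * (l : ℝ) ^ (-(1 / 2) : ℝ) = 1 / (l : ℝ) := by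
    rw [hinv l, ← Real.rpow_add hl0]
    norm_num
  have p5 : (N₂ : ℝ) ^ (1 / 2 : ℝ) * (N₁ : ℝ) ^ (1 / 2 : ℝ) = ((N₁ : ℝ) * N₂) ^ (1 / 2 : ℝ) := by
    rw [Real.mul_rpow hN0.le hN0'.le, mul_comm]
  rw [e0]
  have q1 : (l : ℝ) ^ (-(1 / 2) : ℝ) * (h : ℝ) ^ (-(1 / 2) : ℝ) * T ^ (-(3 / 5) : ℝ) ≤
      1 / (h : ℝ) * (1 / (l : ℝ)) * (((N₁ : ℝ) * N₂) ^ (1 / 2 : ℝ) * T ^ (-(3 / 5) : ℝ)) := by
    calc (l : ℝ) ^ (-(1 / 2) : ℝ) * (h : ℝ) ^ (-(1 / 2) : ℝ) * T ^ (-(3 / 5) : ℝ)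
        ≤ (1 / (l : ℝ) * (N₂ : ℝ) ^ (1 / 2 : ℝ)) * (1 / (h : ℝ) * (N₁ : ℝ) ^ (1 / 2 : ℝ)) *
          T ^ (-(3 / 5) : ℝ) := by gcongr
      _ = 1 / (h : ℝ) * (1 / (l : ℝ)) * (((N₂ : ℝ) ^ (1 / 2 : ℝ) * (N₁ : ℝ) ^ (1 / 2 : ℝ)) *
          T ^ (-(3 / 5) : ℝ)) := by ring
      _ = _ := by rw [p5]
  have q2 : (l : ℝ) ^ (-(1 / 2) : ℝ) * (h : ℝ) ^ (-(1 / 2) : ℝ) *
      (T ^ (-(1 / 5) : ℝ) * (h : ℝ) ^ (-(1 / 4) : ℝ) * (l : ℝ) ^ (-(1 / 2) : ℝ)) ≤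
      1 / (h : ℝ) * (1 / (l : ℝ)) * ((N₁ : ℝ) ^ (1 / 4 : ℝ) * T ^ (-(1 / 5) : ℝ)) := by
    calc (l : ℝ) ^ (-(1 / 2) : ℝ) * (h : ℝ) ^ (-(1 / 2) : ℝ) *
      (T ^ (-(1 / 5) : ℝ) * (h : ℝ) ^ (-(1 / 4) : ℝ) * (l : ℝ) ^ (-(1 / 2) : ℝ))
        = ((l : ℝ) ^ (-(1 / 2) : ℝ) * (l : ℝ) ^ (-(1 / 2) : ℝ)) *
          ((h : ℝ) ^ (-(1 / 2) : ℝ) * (h : ℝ) ^ (-(1 / 4) : ℝ)) * T ^ (-(1 / 5) : ℝ) := by ring
      _ = (1 / (l : ℝ)) * ((h : ℝ) ^ (-(1 / 2) : ℝ) * (h : ℝ) ^ (-(1 / 4) : ℝ)) *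
          T ^ (-(1 / 5) : ℝ) := by rw [p4]
      _ ≤ (1 / (l : ℝ)) * (1 / (h : ℝ) * (N₁ : ℝ) ^ (1 / 4 : ℝ)) * T ^ (-(1 / 5) : ℝ) := by gcongr
      _ = _ := by ring
  calc _ = (l : ℝ) ^ (-(1 / 2) : ℝ) * (h : ℝ) ^ (-(1 / 2) : ℝ) * T ^ (-(3 / 5) : ℝ) +
      (l : ℝ) ^ (-(1 / 2) : ℝ) * (h : ℝ) ^ (-(1 / 2) : ℝ) *
      (T ^ (-(1 / 5) : ℝ) * (h : ℝ) ^ (-(1 / 4) : ℝ) * (l : ℝ) ^ (-(1 / 2) : ℝ)) := by ring
    _ ≤ _ := add_le_add q1 q2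
    _ = _ := by ring

/-- the core estimate for given parameters -/
theorem core' (k : ℕ) (T η : ℝ) (hT : 0 < T) (N₁ N₂ : ℕ) (a b : ℕ → ℂ) (ha : ∀ n, ‖a n‖ ≤ 1)
    (hb : ∀ n, ‖b n‖ ≤ 1)
    (hcop : ∀ h l : ℕ, 1 ≤ h → 1 ≤ l → Nat.Coprime h l → h ≤ N₂ → l ≤ N₁ →
      ‖Rr k T h l‖ ≤ T ^ (-(3 / 5) : ℝ) +
        T ^ (-(1 / 5) : ℝ) * (l : ℝ) ^ (-(1 / 4) : ℝ) * (h : ℝ) ^ (-(1 / 2) : ℝ))
    (htri : ∀ g : ℕ, 1 ≤ g → ∀ (b' : Bool) (σ : ℤ), (σ = 1 ∨ σ = -1) →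
      ‖∑ l ∈ Icc 1 (N₁ / g), ∑ h ∈ (Icc 1 (N₂ / g)).filter (fun h => Nat.Coprime l h),
        a (g * l) * (starRingEnd ℂ) (b (g * h)) * ((1 / ((h : ℝ) * l) : ℝ) : ℂ) *
          Du k b' σ h l (Yf k T)‖ ≤ η) :
    ‖∑ h ∈ Icc 1 N₁, ∑ l ∈ Icc 1 N₂, ((a h * (starRingEnd ℂ) (b l) *
        ((1 / Real.sqrt ((h : ℝ) * l) : ℝ) : ℂ)) * Mt k T l h -
      a h * (starRingEnd ℂ) (b l) *
        ((1 / (Nat.lcm h l : ℝ) *
          (Real.log (Yf k T * (Nat.gcd h l : ℝ) ^ 2 / ((h : ℝ) * l)) + Ck k) : ℝ) : ℂ))‖ ≤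
    (∑ g ∈ Icc 1 N₁, 1 / (g : ℝ)) * (2 * η + (∑ g ∈ Icc 1 N₁, 1 / (g : ℝ)) *
      (∑ g ∈ Icc 1 N₂, 1 / (g : ℝ)) *
      (((N₁ : ℝ) * N₂) ^ (1 / 2 : ℝ) * T ^ (-(3 / 5) : ℝ) +
        (N₁ : ℝ) ^ (1 / 4 : ℝ) * T ^ (-(1 / 5) : ℝ))) := by
  rw [gcd_sum' N₁ N₂ (fun h l => (a h * (starRingEnd ℂ) (b l) *
        ((1 / Real.sqrt ((h : ℝ) * l) : ℝ) : ℂ)) * Mt k T l h -
      a h * (starRingEnd ℂ) (b l) *
        ((1 / (Nat.lcm h l : ℝ) *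
          (Real.log (Yf k T * (Nat.gcd h l : ℝ) ^ 2 / ((h : ℝ) * l)) + Ck k) : ℝ) : ℂ))]
  set E : ℝ := ((N₁ : ℝ) * N₂) ^ (1 / 2 : ℝ) * T ^ (-(3 / 5) : ℝ) +
    (N₁ : ℝ) ^ (1 / 4 : ℝ) * T ^ (-(1 / 5) : ℝ) with hE
  have hE0 : 0 ≤ E := by positivity
  set Hs : ℝ := ∑ g ∈ Icc 1 N₁, 1 / (g : ℝ) with hHs
  set Hs' : ℝ := ∑ g ∈ Icc 1 N₂, 1 / (g : ℝ) with hHs'
  have hHs'0 : 0 ≤ Hs' := Finset.sum_nonneg fun g _ => by positivity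
  rw [Finset.sum_mul]
  refine (norm_sum_le _ _).trans (Finset.sum_le_sum fun g hg => ?_)
  rw [Finset.mem_Icc] at hg
  have hg0 : (0 : ℝ) < g := by exact_mod_cast hg.1
  have hsub : Icc 1 (N₁ / g) ⊆ Icc 1 N₁ := Finset.Icc_subset_Icc_right (Nat.div_le_self N₁ g)
  have hsub' : Icc 1 (N₂ / g) ⊆ Icc 1 N₂ := Finset.Icc_subset_Icc_right (Nat.div_le_self N₂ g)
  have hrew : ∑ h ∈ Icc 1 (N₁ / g), ∑ l ∈ (Icc 1 (N₂ / g)).filter (fun l => Nat.Coprime h l),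
      ((a (g * h) * (starRingEnd ℂ) (b (g * l)) *
        ((1 / Real.sqrt (((g * h : ℕ) : ℝ) * ((g * l : ℕ) : ℝ)) : ℝ) : ℂ)) * Mt k T (g * l) (g * h) -
      a (g * h) * (starRingEnd ℂ) (b (g * l)) *
        ((1 / (Nat.lcm (g * h) (g * l) : ℝ) *
          (Real.log (Yf k T * (Nat.gcd (g * h) (g * l) : ℝ) ^ 2 /
            (((g * h : ℕ) : ℝ) * ((g * l : ℕ) : ℝ))) + Ck k) : ℝ) : ℂ)) =
      ((1 / (g : ℝ) : ℝ) : ℂ) * (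
        ∑ h ∈ Icc 1 (N₁ / g), ∑ l ∈ (Icc 1 (N₂ / g)).filter (fun l => Nat.Coprime h l),
          a (g * h) * (starRingEnd ℂ) (b (g * l)) * ((1 / ((l : ℝ) * h) : ℝ) : ℂ) *
            Du k true 1 l h (Yf k T) +
        ∑ h ∈ Icc 1 (N₁ / g), ∑ l ∈ (Icc 1 (N₂ / g)).filter (fun l => Nat.Coprime h l),
          a (g * h) * (starRingEnd ℂ) (b (g * l)) * ((1 / ((l : ℝ) * h) : ℝ) : ℂ) *
            Du k false (-1) l h (Yf k T) +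
        ∑ h ∈ Icc 1 (N₁ / g), ∑ l ∈ (Icc 1 (N₂ / g)).filter (fun l => Nat.Coprime h l),
          a (g * h) * (starRingEnd ℂ) (b (g * l)) * ((1 / Real.sqrt ((l : ℝ) * h) : ℝ) : ℂ) *
            Rr k T l h) := by
    rw [← Finset.sum_add_distrib, ← Finset.sum_add_distrib, Finset.mul_sum]
    refine Finset.sum_congr rfl fun h hh => ?_
    rw [← Finset.sum_add_distrib, ← Finset.sum_add_distrib, Finset.mul_sum]
    refine Finset.sum_congr rfl fun l hl => ?_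
    rw [Finset.mem_filter, Finset.mem_Icc] at hl
    rw [Finset.mem_Icc] at hh
    exact pair_id' k T a b g h l hg.1 hh.1 hl.1.1 hl.2
  rw [hrew, norm_mul, Complex.norm_real, Real.norm_of_nonneg (by positivity)]
  refine mul_le_mul_of_nonneg_left ?_ (by positivity)
  have hb' : ∀ n, ‖(starRingEnd ℂ) (b n)‖ ≤ 1 := by
    intro n
    rw [RCLike.norm_conj]
    exact hb n
  have t1 := htri g hg.1 true 1 (Or.inl rfl)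
  have t2 := htri g hg.1 false (-1) (Or.inr rfl)
  have t3 : ‖∑ h ∈ Icc 1 (N₁ / g), ∑ l ∈ (Icc 1 (N₂ / g)).filter (fun l => Nat.Coprime h l),
          a (g * h) * (starRingEnd ℂ) (b (g * l)) * ((1 / Real.sqrt ((l : ℝ) * h) : ℝ) : ℂ) *
            Rr k T l h‖ ≤ Hs * Hs' * E := by
    have u1 : ∀ h ∈ Icc 1 (N₁ / g), ‖∑ l ∈ (Icc 1 (N₂ / g)).filter (fun l => Nat.Coprime h l),
          a (g * h) * (starRingEnd ℂ) (b (g * l)) * ((1 / Real.sqrt ((l : ℝ) * h) : ℝ) : ℂ) *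
            Rr k T l h‖ ≤ 1 / (h : ℝ) * (Hs' * E) := by
      intro h hh
      rw [Finset.mem_Icc] at hh
      have hhN : h ≤ N₁ := hh.2.trans (Nat.div_le_self N₁ g)
      have u2 : ∀ l ∈ (Icc 1 (N₂ / g)).filter (fun l => Nat.Coprime h l),
          ‖a (g * h) * (starRingEnd ℂ) (b (g * l)) * ((1 / Real.sqrt ((l : ℝ) * h) : ℝ) : ℂ) *
            Rr k T l h‖ ≤ 1 / (h : ℝ) * (1 / (l : ℝ)) * E := by
        intro l hl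
        rw [Finset.mem_filter, Finset.mem_Icc] at hl
        have hlN : l ≤ N₂ := hl.1.2.trans (Nat.div_le_self N₂ g)
        have hbb := hcop l h hl.1.1 hh.1 hl.2.symm hlN hhN
        rw [norm_mul, norm_mul, norm_mul, Complex.norm_real, Real.norm_of_nonneg (by positivity)]
        calc ‖a (g * h)‖ * ‖(starRingEnd ℂ) (b (g * l))‖ * (1 / Real.sqrt ((l : ℝ) * h)) *
              ‖Rr k T l h‖ ≤ 1 * 1 * (1 / Real.sqrt ((l : ℝ) * h)) * (T ^ (-(3 / 5) : ℝ) +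
        T ^ (-(1 / 5) : ℝ) * (h : ℝ) ^ (-(1 / 4) : ℝ) * (l : ℝ) ^ (-(1 / 2) : ℝ)) := by
              gcongr
              · exact ha _
              · exact hb' _
          _ ≤ _ := by
              rw [one_mul, one_mul]
              exact err_le' T hT N₁ N₂ h l hh.1 hl.1.1 hhN hlN
      calc _ ≤ ∑ l ∈ (Icc 1 (N₂ / g)).filter (fun l => Nat.Coprime h l),
            1 / (h : ℝ) * (1 / (l : ℝ)) * E := (norm_sum_le _ _).trans (Finset.sum_le_sum u2)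
        _ ≤ ∑ l ∈ Icc 1 N₂, 1 / (h : ℝ) * (1 / (l : ℝ)) * E := by
            refine Finset.sum_le_sum_of_subset_of_nonneg ((Finset.filter_subset _ _).trans hsub') ?_
            intro l _ _
            positivity
        _ = _ := by
            rw [hHs', Finset.sum_mul, Finset.mul_sum]
            exact Finset.sum_congr rfl fun l _ => by ring
    calc _ ≤ ∑ h ∈ Icc 1 (N₁ / g), 1 / (h : ℝ) * (Hs' * E) :=
          (norm_sum_le _ _).trans (Finset.sum_le_sum u1)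
      _ ≤ ∑ h ∈ Icc 1 N₁, 1 / (h : ℝ) * (Hs' * E) := by
          refine Finset.sum_le_sum_of_subset_of_nonneg hsub ?_
          intro l _ _
          positivity
      _ = Hs * (Hs' * E) := by rw [← Finset.sum_mul]
      _ = _ := by ring
  refine (norm_add_le _ _).trans ?_
  refine (add_le_add ((norm_add_le _ _).trans (add_le_add t1 t2)) t3).trans ?_
  linarith

/-- the support condition passes to `n / g` -/
theorem Fc_div (T θ₁ θ₂ δ : ℝ) (g m : ℕ) (hg : 1 ≤ g)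
    (h : ((g * m : ℕ) : ℝ) ≤ T ^ (1 - θ₂ - δ) ∨
      ∃ d : ℕ, d ∣ g * m ∧ T ^ ea θ₁ θ₂ δ ≤ d ∧ (d : ℝ) ≤ T ^ eb θ₁ θ₂ δ) :
    Fc T θ₁ θ₂ δ g m := by
  have hgR : (1 : ℝ) ≤ g := by exact_mod_cast hg
  have hg0 : (0 : ℝ) < g := by linarith
  rcases h with h | ⟨d, hd, h1, h2⟩
  · left
    refine le_trans ?_ h
    push_cast
    have : (0 : ℝ) ≤ m := Nat.cast_nonneg _
    nlinarith
  · right
    have hc : 0 < Nat.gcd d g := Nat.gcd_pos_of_pos_right _ hg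
    refine ⟨d / Nat.gcd d g, ?_, ?_, ?_⟩
    · have h3 : (d / Nat.gcd d g) ∣ (g / Nat.gcd d g) * m := by
        have h4 : d ∣ g * m := hd
        have h5 : Nat.gcd d g * (d / Nat.gcd d g) ∣ Nat.gcd d g * ((g / Nat.gcd d g) * m) := by
          rw [Nat.mul_div_cancel' (Nat.gcd_dvd_left d g), ← mul_assoc,
            Nat.mul_div_cancel' (Nat.gcd_dvd_right d g)]
          exact h4
        exact Nat.dvd_of_mul_dvd_mul_left hc h5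
      exact (Nat.coprime_div_gcd_div_gcd hc).dvd_of_dvd_mul_left h3
    · rw [Nat.cast_div (Nat.gcd_dvd_left d g) (by exact_mod_cast hc.ne')]
      have h6 : (Nat.gcd d g : ℝ) ≤ g := by exact_mod_cast Nat.gcd_le_right d hg
      have h7 : (0 : ℝ) < Nat.gcd d g := by exact_mod_cast hc
      have h8 : (0 : ℝ) ≤ d := Nat.cast_nonneg _
      gcongr
    · refine le_trans ?_ h2
      exact_mod_cast Nat.div_le_self _ _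

/-- the support condition weakens as `δ` decreases -/
theorem Fc_mono (T θ₁ θ₂ δ δ' : ℝ) (hT : 1 ≤ T) (hδ : δ' ≤ δ) (n : ℕ)
    (h : (n : ℝ) ≤ T ^ (1 - θ₂ - δ) ∨
      ∃ d : ℕ, d ∣ n ∧ T ^ ea θ₁ θ₂ δ ≤ d ∧ (d : ℝ) ≤ T ^ eb θ₁ θ₂ δ) :
    (n : ℝ) ≤ T ^ (1 - θ₂ - δ') ∨
      ∃ d : ℕ, d ∣ n ∧ T ^ ea θ₁ θ₂ δ' ≤ d ∧ (d : ℝ) ≤ T ^ eb θ₁ θ₂ δ' := by
  rcases h with h | ⟨d, hd, h1, h2⟩
  · left
    exact h.trans (Real.rpow_le_rpow_of_exponent_le hT (by linarith))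
  · right
    refine ⟨d, hd, le_trans ?_ h1, h2.trans ?_⟩
    · exact Real.rpow_le_rpow_of_exponent_le hT (by unfold ea; linarith)
    · exact Real.rpow_le_rpow_of_exponent_le hT (by unfold eb; linarith)

theorem FTSM (θ₁ θ₂ δ : ℝ) (hδ : 0 < δ) (hθ₁ : θ₁ < 4 / 5) (hθ₂ : θ₂ < 1)
    (hθ : θ₁ + θ₂ < 6 / 5) : ∃ η : ℝ, 0 < η ∧ ∀ᶠ T : ℝ in atTop, ∀ k : ℕ, Rng T k →
    ∀ N₁ N₂ : ℕ, (N₁ : ℝ) ≤ T ^ θ₁ → (N₂ : ℝ) ≤ T ^ θ₂ → ∀ a b : ℕ → ℂ,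
    (∀ n, ‖a n‖ ≤ 1) → (∀ n, ‖b n‖ ≤ 1) →
    (∀ n, a n ≠ 0 → (n : ℝ) ≤ T ^ (1 - θ₂ - δ) ∨
      ∃ d : ℕ, d ∣ n ∧ T ^ ea θ₁ θ₂ δ ≤ d ∧ (d : ℝ) ≤ T ^ eb θ₁ θ₂ δ) →
    ‖(∫ t in Set.Ioi (0 : ℝ), ((om k (k / T) t * ‖riemannZeta (cl t)‖ ^ 2 : ℝ) : ℂ) *
        ((∑ n ∈ Icc 1 N₁, a n * (n : ℂ) ^ (-(cl t))) *
          (starRingEnd ℂ) (∑ n ∈ Icc 1 N₂, b n * (n : ℂ) ^ (-(cl t))))) -
      ∑ h ∈ Icc 1 N₁, ∑ l ∈ Icc 1 N₂, a h * (starRingEnd ℂ) (b l) *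
        ((1 / (Nat.lcm h l : ℝ) *
          (Real.log (Yf k T * (Nat.gcd h l : ℝ) ^ 2 / ((h : ℝ) * l)) + Ck k) : ℝ) : ℂ)‖ ≤
      T ^ (-η) := by
  obtain ⟨δ', hδ'0, hδ'1, hδ'2, hδ'3, hδ'4⟩ : ∃ δ' : ℝ, 0 < δ' ∧ δ' ≤ 1 ∧ δ' ≤ δ ∧ θ₁ + δ' ≤ 1 ∧
      θ₂ + δ' ≤ 1 := by
    refine ⟨min (min 1 δ) (min (1 - θ₁) (1 - θ₂)), ?_, ?_, ?_, ?_, ?_⟩
    · refine lt_min (lt_min one_pos hδ) (lt_min (by linarith) (by linarith))
    · exact (min_le_left _ _).trans (min_le_left _ _)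
    · exact (min_le_left _ _).trans (min_le_right _ _)
    · have := (min_le_right (min 1 δ) (min (1 - θ₁) (1 - θ₂))).trans (min_le_left _ _)
      linarith
    · have := (min_le_right (min 1 δ) (min (1 - θ₁) (1 - θ₂))).trans (min_le_right _ _)
      linarith
  obtain ⟨η₀, hη₀, hT2⟩ := trigF g_KER θ₁ θ₂ δ' hδ'3 hδ'4 hδ'0 hδ'1
  obtain ⟨η, hηpos, hη1, hη2, hη3⟩ : ∃ η : ℝ, 0 < η ∧ 2 * η ≤ η₀ ∧
      2 * η ≤ 3 / 5 - (θ₁ + θ₂) / 2 ∧ 2 * η ≤ 1 / 5 - θ₁ / 4 := by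
    refine ⟨min η₀ (min (3 / 5 - (θ₁ + θ₂) / 2) (1 / 5 - θ₁ / 4)) / 2, ?_, ?_, ?_, ?_⟩
    · have : 0 < min η₀ (min (3 / 5 - (θ₁ + θ₂) / 2) (1 / 5 - θ₁ / 4)) :=
        lt_min hη₀ (lt_min (by linarith) (by linarith))
      positivity
    · have := min_le_left η₀ (min (3 / 5 - (θ₁ + θ₂) / 2) (1 / 5 - θ₁ / 4))
      linarith
    · have := (min_le_right η₀ (min (3 / 5 - (θ₁ + θ₂) / 2) (1 / 5 - θ₁ / 4))).trans (min_le_left _ _)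
      linarith
    · have := (min_le_right η₀ (min (3 / 5 - (θ₁ + θ₂) / 2) (1 / 5 - θ₁ / 4))).trans (min_le_right _ _)
      linarith
  refine ⟨η, hηpos, ?_⟩
  filter_upwards [copF (t_TW t_TM2 t_V2) (t_DUAL (t_FE_b t_E2a t_E2b)) t_V2 g_KER δ' hδ'0 hδ'1,
    hT2, eventually_gt_atTop (Real.exp 1), TTW.log_pow_le 20 η hηpos 3] with
    T hcop htri hTe hlog
  intro k hk N₁ N₂ hN1 hN2 a b ha hb hsupp
  have hT1 : 1 < T := by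
    have := Real.add_one_le_exp 1
    linarith
  have hT0 : 0 < T := by linarith
  have hL1 : 1 ≤ Real.log T := by
    rw [Real.le_log_iff_exp_le hT0]
    exact hTe.le
  have hk1 : (1 : ℝ) ≤ k := le_trans (by nlinarith) hk.1
  have hδk : 0 < (k : ℝ) / T := by positivity
  rw [int_expand' k T hδk N₁ N₂ a b, ← Finset.sum_sub_distrib]
  simp only [← Finset.sum_sub_distrib]
  refine (core' k T (T ^ (-η₀)) hT0 N₁ N₂ a b ha hb ?_ ?_).trans ?_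
  · intro h l hh hl hc hhN hlN
    have b1 : (h : ℝ) ≤ T ^ (1 - δ') := by
      calc (h : ℝ) ≤ N₂ := by exact_mod_cast hhN
        _ ≤ T ^ θ₂ := hN2
        _ ≤ T ^ (1 - δ') := Real.rpow_le_rpow_of_exponent_le hT1.le (by linarith)
    have b2 : (l : ℝ) ≤ T ^ (1 - δ') := by
      calc (l : ℝ) ≤ N₁ := by exact_mod_cast hlN
        _ ≤ T ^ θ₁ := hN1
        _ ≤ T ^ (1 - δ') := Real.rpow_le_rpow_of_exponent_le hT1.le (by linarith)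
    exact hcop k hk h l hh hl hc b1 b2
  · intro g hg b' σ hσ
    have c1 : (g : ℝ) * ((N₁ / g : ℕ) : ℝ) ≤ T ^ θ₁ := by
      refine le_trans ?_ hN1
      exact_mod_cast Nat.mul_div_le N₁ g
    have c2 : (g : ℝ) * ((N₂ / g : ℕ) : ℝ) ≤ T ^ θ₂ := by
      refine le_trans ?_ hN2
      exact_mod_cast Nat.mul_div_le N₂ g
    refine htri k hk g (N₁ / g) (N₂ / g) hg c1 c2 (fun m => a (g * m))
      (fun m => (starRingEnd ℂ) (b (g * m))) (fun m => ha _) (fun m => ?_) (fun m hm => ?_) b' σ hσ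
    · rw [RCLike.norm_conj]
      exact hb _
    · exact Fc_div T θ₁ θ₂ δ' g m hg (Fc_mono T θ₁ θ₂ δ δ' hT1.le hδ'2 _ (hsupp _ hm))
  · set Hs : ℝ := ∑ g ∈ Icc 1 N₁, 1 / (g : ℝ) with hHs
    set Hs' : ℝ := ∑ g ∈ Icc 1 N₂, 1 / (g : ℝ) with hHs'
    have hHs0 : 0 ≤ Hs := Finset.sum_nonneg fun g _ => by positivity
    have hHs'0 : 0 ≤ Hs' := Finset.sum_nonneg fun g _ => by positivity
    have hle : ∀ N : ℕ, ∀ θ : ℝ, θ ≤ 1 → (N : ℝ) ≤ T ^ θ →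
        ∑ g ∈ Icc 1 N, 1 / (g : ℝ) ≤ 2 * Real.log T := by
      intro N θ hθ1 hN
      have a1 := Hsum N
      have a2 : Real.log N ≤ Real.log T := by
        rcases Nat.eq_zero_or_pos N with h0 | h0
        · rw [h0, Nat.cast_zero, Real.log_zero]
          linarith
        · apply Real.log_le_log (by exact_mod_cast h0)
          calc (N : ℝ) ≤ T ^ θ := hN
            _ ≤ T ^ (1 : ℝ) := Real.rpow_le_rpow_of_exponent_le hT1.le hθ1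
            _ = T := Real.rpow_one T
      linarith
    have hHs1 : Hs ≤ 2 * Real.log T := hle N₁ θ₁ (by linarith) hN1
    have hHs'1 : Hs' ≤ 2 * Real.log T := hle N₂ θ₂ (by linarith) hN2
    have c1 : T ^ (-η₀) ≤ T ^ (-(2 * η)) :=
      Real.rpow_le_rpow_of_exponent_le hT1.le (by linarith)
    have c2 : ((N₁ : ℝ) * N₂) ^ (1 / 2 : ℝ) * T ^ (-(3 / 5) : ℝ) ≤ T ^ (-(2 * η)) := by
      calc ((N₁ : ℝ) * N₂) ^ (1 / 2 : ℝ) * T ^ (-(3 / 5) : ℝ)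
          ≤ (T ^ θ₁ * T ^ θ₂) ^ (1 / 2 : ℝ) * T ^ (-(3 / 5) : ℝ) := by gcongr
        _ = T ^ ((θ₁ + θ₂) * (1 / 2) + -(3 / 5)) := by
            rw [← Real.rpow_add hT0, ← Real.rpow_mul hT0.le, ← Real.rpow_add hT0]
        _ ≤ T ^ (-(2 * η)) := Real.rpow_le_rpow_of_exponent_le hT1.le (by linarith)
    have c3 : (N₁ : ℝ) ^ (1 / 4 : ℝ) * T ^ (-(1 / 5) : ℝ) ≤ T ^ (-(2 * η)) := by
      calc (N₁ : ℝ) ^ (1 / 4 : ℝ) * T ^ (-(1 / 5) : ℝ)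
          ≤ (T ^ θ₁) ^ (1 / 4 : ℝ) * T ^ (-(1 / 5) : ℝ) := by gcongr
        _ = T ^ (θ₁ * (1 / 4) + -(1 / 5)) := by
            rw [← Real.rpow_mul hT0.le, ← Real.rpow_add hT0]
        _ ≤ T ^ (-(2 * η)) := Real.rpow_le_rpow_of_exponent_le hT1.le (by linarith)
    have hP : 0 < T ^ (-(2 * η)) := by positivity
    set P : ℝ := T ^ (-(2 * η)) with hPdef
    set L : ℝ := Real.log T with hL
    have d1 : Hs * (2 * T ^ (-η₀) + Hs * Hs' * (((N₁ : ℝ) * N₂) ^ (1 / 2 : ℝ) * T ^ (-(3 / 5) : ℝ) +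
        (N₁ : ℝ) ^ (1 / 4 : ℝ) * T ^ (-(1 / 5) : ℝ))) ≤
        (2 * L) * (2 * P + (2 * L) * (2 * L) * (P + P)) := by
      gcongr
    have d2 : (2 * L) * (2 * P + (2 * L) * (2 * L) * (P + P)) ≤ 20 * L ^ 3 * P := by
      have : L ≤ L ^ 3 := by nlinarith [sq_nonneg L]
      nlinarith
    have d3 : 20 * L ^ 3 * P ≤ T ^ η * P := mul_le_mul_of_nonneg_right hlog hP.le
    have d4 : T ^ η * P = T ^ (-η) := by
      rw [hPdef, ← Real.rpow_add hT0]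
      congr 1
      ring
    linarith

end Run7.h294
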