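import Pool.Agent.Run7.h294.F8

set_option autoImplicit false

/-! The final theorem in explicit form. -/

namespace Run7.h294

open Finset Filter MeasureTheory Complex

/-- the Gamma probability density with mean `(1 + 1/k) T` and relative width `1/√k` -/
noncomputable def wt (k : ℕ) (T t : ℝ) : ℝ :=
  (k / T) ^ (k + 1) * t ^ k * Real.exp (-(k / T * t)) / (k.factorial : ℝ)

/-- the difference between the moment and its main term -/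
noncomputable def Ex (k : ℕ) (T : ℝ) (N₁ N₂ : ℕ) (a b : ℕ → ℂ) : ℂ :=
  (∫ t in Set.Ioi (0 : ℝ), ((wt k T t * ‖riemannZeta (1 / 2 + t * I)‖ ^ 2 : ℝ) : ℂ) *
    ((∑ n ∈ Icc 1 N₁, a n * (n : ℂ) ^ (-(1 / 2 + t * I))) *
      (starRingEnd ℂ) (∑ n ∈ Icc 1 N₂, b n * (n : ℂ) ^ (-(1 / 2 + t * I))))) -
  ∑ h ∈ Icc 1 N₁, ∑ l ∈ Icc 1 N₂, a h * (starRingEnd ℂ) (b l) *
    ((1 / (Nat.lcm h l : ℝ) *
      (Real.log (T / (2 * Real.pi * k) * (Nat.gcd h l : ℝ) ^ 2 / ((h : ℝ) * l)) +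
        ((harmonic k : ℝ) + Real.eulerMascheroniConstant)) : ℝ) : ℂ)

theorem Ex_scale (k : ℕ) (T : ℝ) (N₁ N₂ : ℕ) (a b : ℕ → ℂ) (A B : ℝ) :
    Ex k T N₁ N₂ (fun n => (A : ℂ) * a n) (fun n => (B : ℂ) * b n) =
      ((A * B : ℝ) : ℂ) * Ex k T N₁ N₂ a b := by
  unfold Ex
  rw [mul_sub, ← integral_const_mul]
  congr 1
  · congr 1
    funext t
    have e1 : ∑ n ∈ Icc 1 N₁, (A : ℂ) * a n * (n : ℂ) ^ (-(1 / 2 + t * I)) =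
        (A : ℂ) * ∑ n ∈ Icc 1 N₁, a n * (n : ℂ) ^ (-(1 / 2 + t * I)) := by
      rw [Finset.mul_sum]
      exact Finset.sum_congr rfl fun n _ => by ring
    have e2 : ∑ n ∈ Icc 1 N₂, (B : ℂ) * b n * (n : ℂ) ^ (-(1 / 2 + t * I)) =
        (B : ℂ) * ∑ n ∈ Icc 1 N₂, b n * (n : ℂ) ^ (-(1 / 2 + t * I)) := by
      rw [Finset.mul_sum]
      exact Finset.sum_congr rfl fun n _ => by ring
    rw [e1, e2, map_mul, Complex.conj_ofReal, Complex.ofReal_mul A B]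
    ring
  · rw [Finset.mul_sum]
    refine Finset.sum_congr rfl fun h _ => ?_
    rw [Finset.mul_sum]
    refine Finset.sum_congr rfl fun l _ => ?_
    rw [map_mul, Complex.conj_ofReal, Complex.ofReal_mul A B]
    ring

theorem final (θ₁ θ₂ δ : ℝ) (hδ : 0 < δ) (hθ₁ : θ₁ < 4 / 5) (hθ₂ : θ₂ < 1)
    (hθ : θ₁ + θ₂ < 6 / 5) : ∃ η : ℝ, 0 < η ∧ ∀ᶠ T : ℝ in atTop, ∀ k : ℕ,
    Real.log T ^ 2 ≤ k → (k : ℝ) ≤ 4 * Real.log T ^ 2 →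
    ∀ N₁ N₂ : ℕ, (N₁ : ℝ) ≤ T ^ θ₁ → (N₂ : ℝ) ≤ T ^ θ₂ → ∀ (a b : ℕ → ℂ) (A B : ℝ),
    (∀ n, ‖a n‖ ≤ A) → (∀ n, ‖b n‖ ≤ B) →
    (∀ n, a n ≠ 0 → (n : ℝ) ≤ T ^ (1 - θ₂ - δ) ∨
      ∃ d : ℕ, d ∣ n ∧ T ^ (θ₁ + θ₂ - 1 + δ) ≤ d ∧
        (d : ℝ) ≤ T ^ (4 - 3 * θ₁ - 2 * θ₂ - 2 * max θ₁ θ₂ - δ)) →
    ‖Ex k T N₁ N₂ a b‖ ≤ A * B * T ^ (-η) := by
  obtain ⟨η, hη, h⟩ := FTSM θ₁ θ₂ δ hδ hθ₁ hθ₂ hθ
  refine ⟨η, hη, ?_⟩
  filter_upwards [h, eventually_gt_atTop (0 : ℝ)] with T hT hT0 k hk1 hk2 N₁ N₂ hN1 hN2 a b A B ha hb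
    hsupp
  have hA : 0 ≤ A := (norm_nonneg _).trans (ha 0)
  have hB : 0 ≤ B := (norm_nonneg _).trans (hb 0)
  have key : ∀ a' b' : ℕ → ℂ, (∀ n, ‖a' n‖ ≤ 1) → (∀ n, ‖b' n‖ ≤ 1) →
      (∀ n, a' n ≠ 0 → (n : ℝ) ≤ T ^ (1 - θ₂ - δ) ∨
        ∃ d : ℕ, d ∣ n ∧ T ^ (θ₁ + θ₂ - 1 + δ) ≤ d ∧
        (d : ℝ) ≤ T ^ (4 - 3 * θ₁ - 2 * θ₂ - 2 * max θ₁ θ₂ - δ)) →
      ‖Ex k T N₁ N₂ a' b'‖ ≤ T ^ (-η) := by
    intro a' b' ha' hb' hs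
    exact hT k ⟨hk1, hk2⟩ N₁ N₂ hN1 hN2 a' b' ha' hb' hs
  obtain ⟨a', ha'1, ha'2, ha'3⟩ : ∃ a' : ℕ → ℂ, (a = fun n => (A : ℂ) * a' n) ∧ (∀ n, ‖a' n‖ ≤ 1) ∧
      ∀ n, a' n ≠ 0 → a n ≠ 0 := by
    rcases hA.eq_or_lt with h0 | h0
    · refine ⟨fun _ => 0, ?_, fun n => by simp, fun n hn => absurd rfl hn⟩
      funext n
      have h3 := ha n
      rw [← h0] at h3
      have : a n = 0 := norm_le_zero_iff.1 h3
      simp [this]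
    · have hAc : (A : ℂ) ≠ 0 := by exact_mod_cast h0.ne'
      refine ⟨fun n => (A : ℂ)⁻¹ * a n, ?_, fun n => ?_, fun n hn h3 => hn (by simp [h3])⟩
      · funext n
        field_simp
      · rw [norm_mul, norm_inv, Complex.norm_real, Real.norm_of_nonneg hA]
        rw [inv_mul_le_iff₀ h0, mul_one]
        exact ha n
  obtain ⟨b', hb'1, hb'2⟩ : ∃ b' : ℕ → ℂ, (b = fun n => (B : ℂ) * b' n) ∧ (∀ n, ‖b' n‖ ≤ 1) := by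
    rcases hB.eq_or_lt with h0 | h0
    · refine ⟨fun _ => 0, ?_, fun n => by simp⟩
      funext n
      have h3 := hb n
      rw [← h0] at h3
      have : b n = 0 := norm_le_zero_iff.1 h3
      simp [this]
    · have hBc : (B : ℂ) ≠ 0 := by exact_mod_cast h0.ne'
      refine ⟨fun n => (B : ℂ)⁻¹ * b n, ?_, fun n => ?_⟩
      · funext n
        field_simp
      · rw [norm_mul, norm_inv, Complex.norm_real, Real.norm_of_nonneg hB]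
        rw [inv_mul_le_iff₀ h0, mul_one]
        exact hb n
  have hk := key a' b' ha'2 hb'2 (fun n hn => hsupp n (ha'3 n hn))
  rw [ha'1, hb'1, Ex_scale, norm_mul, Complex.norm_real, Real.norm_of_nonneg (by positivity)]
  gcongr

end Run7.h294
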