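import Mathlib

set_option autoImplicit false

/-! # Tensorised quadratic forms over general finite local spaces -/

namespace Run7.h294.G

open Finset

section

variable {S C : Type} [Fintype S] [Fintype C]

lemma sum_consG {α : Type} [Fintype α] {n : ℕ} (F : (Fin (n + 1) → α) → ℝ) :
    ∑ x : Fin (n + 1) → α, F x = ∑ c : α, ∑ x : Fin n → α, F (Fin.cons c x : Fin (n + 1) → α) := by
  rw [← (Fin.consEquiv (fun _ : Fin (n + 1) => α)).sum_comp, Fintype.sum_prod_type]
  rfl

/-- general tensor upper bound of a quadratic form -/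
theorem tensor_gen {n : ℕ} (w : Fin n → S → ℝ) (ψ : Fin n → C → S → ℝ) (β : Fin n → C → ℝ)
    (hw : ∀ i s, 0 ≤ w i s) (hβ : ∀ i c, 0 ≤ β i c)
    (hloc : ∀ i (Y : C → ℝ), ∑ s, w i s * (∑ c, ψ i c s * Y c) ^ 2 ≤ ∑ c, β i c * (Y c) ^ 2)
    (y : (Fin n → C) → ℝ) :
    ∑ x : Fin n → S, (∏ i, w i (x i)) * (∑ D : Fin n → C, y D * ∏ i, ψ i (D i) (x i)) ^ 2 ≤
      ∑ D : Fin n → C, (∏ i, β i (D i)) * (y D) ^ 2 := by
  induction n with
  | zero => simp
  | succ n ih =>
    rw [sum_consG, sum_consG]
    -- inner bound for a fixed value of the first coordinate of the state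
    have h1 : ∀ s : S, ∑ x : Fin n → S,
        (∏ i, w i ((Fin.cons s x : Fin (n + 1) → S) i)) *
          (∑ D : Fin (n + 1) → C, y D * ∏ i, ψ i (D i) ((Fin.cons s x : Fin (n + 1) → S) i)) ^ 2 ≤
        w 0 s * ∑ D : Fin n → C, (∏ i : Fin n, β i.succ (D i)) *
          (∑ c : C, ψ 0 c s * y (Fin.cons c D : Fin (n + 1) → C)) ^ 2 := by
      intro s
      have h2 : ∀ x : Fin n → S,
          (∏ i, w i ((Fin.cons s x : Fin (n + 1) → S) i)) *
          (∑ D : Fin (n + 1) → C, y D * ∏ i, ψ i (D i) ((Fin.cons s x : Fin (n + 1) → S) i)) ^ 2 =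
          w 0 s * ((∏ i : Fin n, w i.succ (x i)) *
            (∑ D : Fin n → C, (∑ c : C, ψ 0 c s * y (Fin.cons c D : Fin (n + 1) → C)) *
              ∏ i : Fin n, ψ i.succ (D i) (x i)) ^ 2) := by
        intro x
        rw [Fin.prod_univ_succ]
        simp only [Fin.cons_zero, Fin.cons_succ]
        have h3 : (∑ D : Fin (n + 1) → C, y D *
            ∏ i, ψ i (D i) ((Fin.cons s x : Fin (n + 1) → S) i)) =
            ∑ D : Fin n → C, (∑ c : C, ψ 0 c s * y (Fin.cons c D : Fin (n + 1) → C)) *
              ∏ i : Fin n, ψ i.succ (D i) (x i) := by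
          rw [sum_consG, Finset.sum_comm]
          refine Finset.sum_congr rfl fun D _ => ?_
          rw [Finset.sum_mul]
          refine Finset.sum_congr rfl fun c _ => ?_
          rw [Fin.prod_univ_succ]
          simp only [Fin.cons_zero, Fin.cons_succ]
          ring
        rw [h3]
        ring
      rw [Finset.sum_congr rfl (fun x _ => h2 x), ← Finset.mul_sum]
      refine mul_le_mul_of_nonneg_left ?_ (hw 0 s)
      exact ih (fun i => w i.succ) (fun i => ψ i.succ) (fun i => β i.succ)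
        (fun i s => hw i.succ s) (fun i c => hβ i.succ c) (fun i Y => hloc i.succ Y) _
    refine (Finset.sum_le_sum fun s _ => h1 s).trans ?_
    have h4 : ∑ s : S, w 0 s * ∑ D : Fin n → C, (∏ i : Fin n, β i.succ (D i)) *
          (∑ c : C, ψ 0 c s * y (Fin.cons c D : Fin (n + 1) → C)) ^ 2 =
        ∑ D : Fin n → C, (∏ i : Fin n, β i.succ (D i)) *
          ∑ s : S, w 0 s * (∑ c : C, ψ 0 c s * y (Fin.cons c D : Fin (n + 1) → C)) ^ 2 := by
      simp_rw [Finset.mul_sum]
      rw [Finset.sum_comm]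
      refine Finset.sum_congr rfl fun D _ => Finset.sum_congr rfl fun s _ => ?_
      ring
    rw [h4, Finset.sum_comm]
    refine Finset.sum_le_sum fun D _ => ?_
    have h5 : ∑ c : C, (∏ i, β i ((Fin.cons c D : Fin (n + 1) → C) i)) *
        (y (Fin.cons c D : Fin (n + 1) → C)) ^ 2 =
        (∏ i : Fin n, β i.succ (D i)) *
          ∑ c : C, β 0 c * (y (Fin.cons c D : Fin (n + 1) → C)) ^ 2 := by
      rw [Finset.mul_sum]
      refine Finset.sum_congr rfl fun c _ => ?_
      rw [Fin.prod_univ_succ]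
      simp only [Fin.cons_zero, Fin.cons_succ]
      ring
    rw [h5]
    exact mul_le_mul_of_nonneg_left (hloc 0 _) (Finset.prod_nonneg fun i _ => hβ i.succ _)

/-- coordinatewise domination of a weighted sum -/
theorem dom_gen [DecidableEq C] {n : ℕ} (β γ : Fin n → C → ℝ) (hβ : ∀ i c, 0 ≤ β i c)
    (hγ : ∀ i c, 0 ≤ γ i c) (φ : (Fin n → C) → ℝ)
    (hloc : ∀ (i : Fin n) (D : Fin n → C),
      ∑ c, β i c * φ (Function.update D i c) ≤ ∑ c, γ i c * φ (Function.update D i c)) :
    ∑ D : Fin n → C, (∏ i, β i (D i)) * φ D ≤ ∑ D : Fin n → C, (∏ i, γ i (D i)) * φ D := by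
  induction n with
  | zero => simp
  | succ n ih =>
    rw [sum_consG, sum_consG]
    -- first replace the tail
    have h1 : ∀ c : C, ∑ D : Fin n → C, (∏ i, β i ((Fin.cons c D : Fin (n + 1) → C) i)) *
          φ (Fin.cons c D : Fin (n + 1) → C) ≤
        β 0 c * ∑ D : Fin n → C, (∏ i : Fin n, γ i.succ (D i)) *
          φ (Fin.cons c D : Fin (n + 1) → C) := by
      intro c
      have h2 : ∀ D : Fin n → C, (∏ i, β i ((Fin.cons c D : Fin (n + 1) → C) i)) *
          φ (Fin.cons c D : Fin (n + 1) → C) =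
          β 0 c * ((∏ i : Fin n, β i.succ (D i)) * φ (Fin.cons c D : Fin (n + 1) → C)) := by
        intro D
        rw [Fin.prod_univ_succ]
        simp only [Fin.cons_zero, Fin.cons_succ]
        ring
      rw [Finset.sum_congr rfl (fun D _ => h2 D), ← Finset.mul_sum]
      refine mul_le_mul_of_nonneg_left ?_ (hβ 0 c)
      refine ih (fun i => β i.succ) (fun i => γ i.succ) (fun i c => hβ _ _) (fun i c => hγ _ _)
        (fun D => φ (Fin.cons c D : Fin (n + 1) → C)) ?_
      intro i D
      have h3 := hloc i.succ (Fin.cons c D : Fin (n + 1) → C)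
      have h4 : ∀ c' : C, Function.update (Fin.cons c D : Fin (n + 1) → C) i.succ c' =
          (Fin.cons c (Function.update D i c') : Fin (n + 1) → C) := by
        intro c'
        rw [Fin.cons_update]
      simp only [h4] at h3
      exact h3
    refine (Finset.sum_le_sum fun c _ => h1 c).trans ?_
    have h5 : ∑ c : C, β 0 c * ∑ D : Fin n → C, (∏ i : Fin n, γ i.succ (D i)) *
          φ (Fin.cons c D : Fin (n + 1) → C) =
        ∑ D : Fin n → C, (∏ i : Fin n, γ i.succ (D i)) *
          ∑ c : C, β 0 c * φ (Fin.cons c D : Fin (n + 1) → C) := by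
      simp_rw [Finset.mul_sum]
      rw [Finset.sum_comm]
      refine Finset.sum_congr rfl fun D _ => Finset.sum_congr rfl fun s _ => ?_
      ring
    rw [h5, Finset.sum_comm]
    refine Finset.sum_le_sum fun D _ => ?_
    have h6 : ∑ c : C, (∏ i, γ i ((Fin.cons c D : Fin (n + 1) → C) i)) *
        φ (Fin.cons c D : Fin (n + 1) → C) =
        (∏ i : Fin n, γ i.succ (D i)) *
          ∑ c : C, γ 0 c * φ (Fin.cons c D : Fin (n + 1) → C) := by
      rw [Finset.mul_sum]
      refine Finset.sum_congr rfl fun c _ => ?_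
      rw [Fin.prod_univ_succ]
      simp only [Fin.cons_zero, Fin.cons_succ]
      ring
    rw [h6]
    refine mul_le_mul_of_nonneg_left ?_ (Finset.prod_nonneg fun i _ => hγ i.succ _)
    by_cases hC : Nonempty C
    · obtain ⟨c₀⟩ := hC
      have h7 := hloc 0 (Fin.cons c₀ D : Fin (n + 1) → C)
      have h8 : ∀ c' : C, Function.update (Fin.cons c₀ D : Fin (n + 1) → C) 0 c' =
          (Fin.cons c' D : Fin (n + 1) → C) := by
        intro c'
        rw [Fin.update_cons_zero]
      simp only [h8] at h7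
      exact h7
    · rw [not_nonempty_iff] at hC
      simp

end

end Run7.h294.G
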