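import Mathlib

set_option autoImplicit false
set_option linter.unusedSectionVars false

/-! # Local averaging over the windows of a block -/

namespace Run7.h294.G

open Finset

open scoped Classical

private lemma abs_le_sq (a τ : ℝ) (hτ : 0 < τ) : |a| ≤ a ^ 2 / (2 * τ) + τ / 2 := by
  have h1 : 0 ≤ (|a| - τ) ^ 2 := sq_nonneg _
  have h2 : |a| ^ 2 = a ^ 2 := sq_abs a
  have h3 : a ^ 2 / (2 * τ) + τ / 2 - |a| = (|a| - τ) ^ 2 / (2 * τ) := by
    rw [← h2]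
    field_simp
    ring
  have h4 : 0 ≤ (|a| - τ) ^ 2 / (2 * τ) := by positivity
  linarith

/-- If the weights `w ω` of the windows `ω` of a block have mass close to `N`, live on the points
where the window is covered, are pairwise almost uncorrelated and have bounded second moment, and the
number of the windows is large, then a positive proportion of every dense set of points has a
covered window. -/
theorem final_comb {ι : Type} (𝒜 𝒢 : Finset ℤ) (hsub : 𝒢 ⊆ 𝒜) (Ω : Finset ι) (w u : ι → ℤ → ℝ)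
    (N c ε M : ℝ) (hc0 : 0 < c) (hc1 : c ≤ 1) (hε : ε = c ^ 2 / 1000) (hN : 0 < N)
    (hw : ∀ ω ∈ Ω, ∀ x, 0 ≤ w ω x) (hu : ∀ ω ∈ Ω, ∀ x, 0 ≤ u ω x)
    (hcard : (𝒜.card : ℝ) ≤ (1 + ε) * N)
    (h1 : ∀ ω ∈ Ω, (1 - ε) * N ≤ ∑ x ∈ 𝒜, w ω x)
    (h2 : ∀ ω ∈ Ω, ∑ x ∈ 𝒜, w ω x * u ω x ≤ ε * N)
    (h3 : ∀ ω ∈ Ω, ∀ ω' ∈ Ω, ω ≠ ω' → ∑ x ∈ 𝒜, w ω x * w ω' x ≤ (1 + ε) * N)
    (h4 : ∀ ω ∈ Ω, ∑ x ∈ 𝒜, (w ω x) ^ 2 ≤ M * N) (hM : 0 ≤ M)
    (hR : M ≤ ε * (Ω.card : ℝ)) (hR0 : 0 < Ω.card)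
    (hG : c * N ≤ (𝒢.card : ℝ)) :
    c / 4 * N ≤ ((𝒢.filter (fun x => ∃ ω ∈ Ω, u ω x < 1)).card : ℝ) := by
  set R : ℝ := (Ω.card : ℝ) with hRd
  have hRp : 0 < R := by rw [hRd]; exact_mod_cast hR0
  have hε0 : 0 < ε := by rw [hε]; positivity
  set F : ℤ → ℝ := fun x => (∑ ω ∈ Ω, w ω x) / R with hF
  set H : ℤ → ℝ := fun x => (∑ ω ∈ Ω, if u ω x < 1 then 0 else w ω x) / R with hH
  have hF1 : (1 - ε) * N ≤ ∑ x ∈ 𝒜, F x := by
    rw [hF, ← Finset.sum_div, Finset.sum_comm, le_div_iff₀ hRp]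
    calc (1 - ε) * N * R = ∑ ω ∈ Ω, (1 - ε) * N := by
          rw [Finset.sum_const, nsmul_eq_mul]; ring
      _ ≤ ∑ ω ∈ Ω, ∑ x ∈ 𝒜, w ω x := Finset.sum_le_sum h1
  have hF2 : ∑ x ∈ 𝒜, (F x) ^ 2 ≤ (1 + 2 * ε) * N := by
    have e1 : ∑ x ∈ 𝒜, (F x) ^ 2 = (∑ ω ∈ Ω, ∑ ω' ∈ Ω, ∑ x ∈ 𝒜, w ω x * w ω' x) / R ^ 2 := by
      rw [Finset.sum_congr rfl (fun x _ => show (F x) ^ 2 =
        (∑ ω ∈ Ω, ∑ ω' ∈ Ω, w ω x * w ω' x) / R ^ 2 by
          rw [hF]
          simp only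
          rw [div_pow, sq (∑ ω ∈ Ω, w ω x), Finset.sum_mul_sum])]
      rw [← Finset.sum_div, Finset.sum_comm]
      congr 1
      refine Finset.sum_congr rfl fun ω _ => ?_
      rw [Finset.sum_comm]
    rw [e1, div_le_iff₀ (by positivity)]
    have e2 : ∀ ω ∈ Ω, ∑ ω' ∈ Ω, ∑ x ∈ 𝒜, w ω x * w ω' x ≤ (1 + ε) * N * R + M * N := by
      intro ω hω
      calc ∑ ω' ∈ Ω, ∑ x ∈ 𝒜, w ω x * w ω' x
          ≤ ∑ ω' ∈ Ω, ((1 + ε) * N + if ω' = ω then M * N else 0) := by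
            refine Finset.sum_le_sum fun ω' hω' => ?_
            by_cases hh : ω' = ω
            · rw [if_pos hh, hh]
              have e3 := h4 ω hω
              have e4 : ∑ x ∈ 𝒜, w ω x * w ω x = ∑ x ∈ 𝒜, (w ω x) ^ 2 :=
                Finset.sum_congr rfl fun x _ => by ring
              rw [e4]
              have : 0 ≤ (1 + ε) * N := by positivity
              linarith
            · rw [if_neg hh, add_zero]
              exact h3 ω hω ω' hω' (fun h => hh h.symm)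
        _ = (1 + ε) * N * R + M * N := by
            rw [Finset.sum_add_distrib, Finset.sum_const, nsmul_eq_mul, Finset.sum_ite_eq' Ω ω,
              if_pos hω]
            ring
    calc ∑ ω ∈ Ω, ∑ ω' ∈ Ω, ∑ x ∈ 𝒜, w ω x * w ω' x
        ≤ ∑ ω ∈ Ω, ((1 + ε) * N * R + M * N) := Finset.sum_le_sum e2
      _ = R * ((1 + ε) * N * R + M * N) := by rw [Finset.sum_const, nsmul_eq_mul]
      _ ≤ R * ((1 + ε) * N * R + (ε * R) * N) := by gcongr
      _ = (1 + 2 * ε) * N * R ^ 2 := by ring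
  have hvar : ∑ x ∈ 𝒜, (F x - 1) ^ 2 ≤ 5 * ε * N := by
    have e1 : ∑ x ∈ 𝒜, (F x - 1) ^ 2 = ∑ x ∈ 𝒜, (F x) ^ 2 - 2 * ∑ x ∈ 𝒜, F x + 𝒜.card := by
      rw [Finset.mul_sum, ← Finset.sum_sub_distrib, Finset.card_eq_sum_ones]
      push_cast
      rw [← Finset.sum_add_distrib]
      exact Finset.sum_congr rfl fun x _ => by ring
    rw [e1]
    linarith
  have habs : ∑ x ∈ 𝒜, |F x - 1| ≤ c / 10 * N := by
    calc ∑ x ∈ 𝒜, |F x - 1| ≤ ∑ x ∈ 𝒜, ((F x - 1) ^ 2 / (2 * (c / 8)) + c / 8 / 2) :=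
          Finset.sum_le_sum fun x _ => abs_le_sq _ _ (by positivity)
      _ = (∑ x ∈ 𝒜, (F x - 1) ^ 2) / (2 * (c / 8)) + 𝒜.card * (c / 16) := by
          rw [Finset.sum_add_distrib, ← Finset.sum_div, Finset.sum_const, nsmul_eq_mul]
          ring
      _ ≤ (5 * ε * N) / (2 * (c / 8)) + ((1 + ε) * N) * (c / 16) := by gcongr
      _ = (c / 50 + (1 + ε) * (c / 16)) * N := by
          rw [hε]
          field_simp
          ring
      _ ≤ c / 10 * N := by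
          apply mul_le_mul_of_nonneg_right _ hN.le
          have : ε ≤ 1 / 1000 := by rw [hε]; nlinarith
          nlinarith
  have hH0 : ∀ x, 0 ≤ H x := by
    intro x
    rw [hH]
    refine div_nonneg (Finset.sum_nonneg fun ω hω => ?_) hRp.le
    split_ifs
    · exact le_rfl
    · exact hw ω hω x
  have hHs : ∑ x ∈ 𝒜, H x ≤ ε * N := by
    rw [hH, ← Finset.sum_div, Finset.sum_comm, div_le_iff₀ hRp]
    calc ∑ ω ∈ Ω, ∑ x ∈ 𝒜, (if u ω x < 1 then 0 else w ω x)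
        ≤ ∑ ω ∈ Ω, ε * N := by
          refine Finset.sum_le_sum fun ω hω => ?_
          refine (Finset.sum_le_sum fun x _ => ?_).trans (h2 ω hω)
          split_ifs with hh
          · exact mul_nonneg (hw ω hω x) (hu ω hω x)
          · push Not at hh
            exact le_mul_of_one_le_right (hw ω hω x) hh
      _ = ε * N * R := by rw [Finset.sum_const, nsmul_eq_mul]; ring
  have hzero : ∀ x, ¬ (∃ ω ∈ Ω, u ω x < 1) → F x - H x = 0 := by
    intro x hx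
    push Not at hx
    rw [hF, hH]
    simp only
    rw [← sub_div, ← Finset.sum_sub_distrib]
    rw [Finset.sum_eq_zero, zero_div]
    intro ω hω
    rw [if_neg (not_lt.2 (hx ω hω)), sub_self]
  set 𝒢' := 𝒢.filter (fun x => ∃ ω ∈ Ω, u ω x < 1) with hG'
  -- lower bound of the sum over 𝒢
  have hA1 : (𝒢.card : ℝ) - c / 10 * N - ε * N ≤ ∑ x ∈ 𝒢, (F x - H x) := by
    have e1 : ∑ x ∈ 𝒢, (F x - H x) = (𝒢.card : ℝ) + ∑ x ∈ 𝒢, (F x - 1) - ∑ x ∈ 𝒢, H x := by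
      rw [Finset.card_eq_sum_ones]
      push_cast
      rw [← Finset.sum_add_distrib, ← Finset.sum_sub_distrib]
      exact Finset.sum_congr rfl fun x _ => by ring
    have e2 : -(∑ x ∈ 𝒜, |F x - 1|) ≤ ∑ x ∈ 𝒢, (F x - 1) := by
      have : |∑ x ∈ 𝒢, (F x - 1)| ≤ ∑ x ∈ 𝒜, |F x - 1| :=
        (Finset.abs_sum_le_sum_abs _ _).trans
          (Finset.sum_le_sum_of_subset_of_nonneg hsub fun x _ _ => abs_nonneg _)
      exact (abs_le.mp this).1.trans' (by linarith)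
    have e3 : ∑ x ∈ 𝒢, H x ≤ ε * N :=
      (Finset.sum_le_sum_of_subset_of_nonneg hsub fun x _ _ => hH0 x).trans hHs
    rw [e1]
    linarith
  have hA2 : ∑ x ∈ 𝒢, (F x - H x) ≤ (𝒢'.card : ℝ) + c / 10 * N := by
    have e1 : ∑ x ∈ 𝒢, (F x - H x) = ∑ x ∈ 𝒢', (F x - H x) := by
      rw [hG', Finset.sum_filter]
      refine Finset.sum_congr rfl fun x _ => ?_
      split_ifs with hh
      · rfl
      · exact hzero x hh
    rw [e1]
    calc ∑ x ∈ 𝒢', (F x - H x) ≤ ∑ x ∈ 𝒢', (1 + |F x - 1|) := by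
          refine Finset.sum_le_sum fun x _ => ?_
          have := le_abs_self (F x - 1)
          have := hH0 x
          linarith
      _ = (𝒢'.card : ℝ) + ∑ x ∈ 𝒢', |F x - 1| := by
          rw [Finset.sum_add_distrib, Finset.sum_const, nsmul_eq_mul, mul_one]
      _ ≤ (𝒢'.card : ℝ) + ∑ x ∈ 𝒜, |F x - 1| := by
          gcongr
          exact (Finset.filter_subset _ _).trans hsub
      _ ≤ _ := by linarith
  have hεc : ε * N ≤ c / 1000 * N := by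
    apply mul_le_mul_of_nonneg_right _ hN.le
    rw [hε]
    nlinarith
  nlinarith

end Run7.h294.G
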