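import Pool.Agent.Run7.h294.G8

set_option autoImplicit false
set_option linter.unusedSectionVars false

/-! # The four moment estimates for windows of integers -/

namespace Run7.h294.G

open Finset Pool.Agent.H256R2.SC

open scoped Classical

/-- the square weight attached to a window, normalised -/
noncomputable def wgt (PP : Finset ℕ) (h : Finset (Fin PP.card) → ℝ) (Q : ℝ) (j : ℕ)
    (A : Finset ℤ) (x : ℤ) : ℝ :=
  (VV (gg PP) (yC (pp PP) h Q j) (cw PP A x)) ^ 2 / Zs ↥A (gg PP) h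

/-- the majorant of the number of uncovered elements of the window -/
noncomputable def unc (PP : Finset ℕ) (J : ℕ) (A : Finset ℤ) (x : ℤ) : ℝ :=
  ∑ a : ↥A, SS J a (cw PP A x)

/-- standing hypotheses -/
structure Par (PP : Finset ℕ) (h : Finset (Fin PP.card) → ℝ) (z K hm Q δ t U : ℝ) (j J : ℕ) :
    Prop where
  hP : ∀ p ∈ PP, p.Prime
  H : Hyp (pp PP) (gg PP) h z K
  hhm : ∀ s, h s ≤ hm
  Q1 : 1 ≤ Q
  δ0 : 0 ≤ δ
  t0 : 0 < t
  U0 : 0 ≤ U
  hJ : Even J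
  pz : ∀ i, pp PP i ≤ z
  tg : ∀ i, 3 * t * gg PP i ≤ 1
  ug : ∀ i, U * gg PP i ≤ 1 / 2
  uδ : U * δ ≤ 1
  hδ : ∀ S : Finset (Fin PP.card), ∏ i ∈ S, pp PP i ≤ Q → 2 * ∑ i ∈ S, gg PP i ≤ δ
  hs : 2 * U * ∑ i, 1 / (pp PP i) ^ 2 ≤ 1

section

variable {PP : Finset ℕ} {h : Finset (Fin PP.card) → ℝ} {z K hm Q δ t U : ℝ} {j J : ℕ}

lemma card_coe' (A : Finset ℤ) : (Fintype.card ↥A : ℝ) = (A.card : ℝ) := by
  rw [Fintype.card_coe]

namespace Par

lemma hδD (P : Par PP h z K hm Q δ t U j J) (κ : Type) [Fintype κ] [DecidableEq κ]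
    (D : Col PP.card κ) (hD : qq (pp PP) D ≤ Q) : 2 * ∑ i with D i ≠ none, gg PP i ≤ δ := by
  have h1 : qq (pp PP) D = ∏ i ∈ supp D, pp PP i := by
    unfold qq
    exact prod_nu1 _ D
  rw [h1] at hD
  exact P.hδ (supp D) hD

lemma g0 (P : Par PP h z K hm Q δ t U j J) (i : Fin PP.card) : 0 ≤ gg PP i := (P.H.g0 i).le

lemma p1 (P : Par PP h z K hm Q δ t U j J) (i : Fin PP.card) : 1 ≤ pp PP i := (P.H.p1 i).le

lemma g1 (P : Par PP h z K hm Q δ t U j J) (i : Fin PP.card) : gg PP i ≤ 1 := by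
  have h1 := P.p1 i
  unfold pp at h1
  unfold gg
  rw [div_le_one (by linarith)]
  exact h1

lemma Q0 (P : Par PP h z K hm Q δ t U j J) : 0 < Q := by linarith [P.Q1]

lemma ugA (P : Par PP h z K hm Q δ t U j J) {A : Finset ℤ} (hA : (A.card : ℝ) ≤ U)
    (i : Fin PP.card) : (Fintype.card ↥A : ℝ) * gg PP i ≤ 1 / 2 := by
  rw [card_coe']
  exact (mul_le_mul_of_nonneg_right hA (P.g0 i)).trans (P.ug i)

lemma ugA1 (P : Par PP h z K hm Q δ t U j J) {A : Finset ℤ} (hA : (A.card : ℝ) ≤ U)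
    (i : Fin PP.card) : (Fintype.card ↥A : ℝ) * gg PP i ≤ 1 := by
  linarith [P.ugA hA i]

/-- level of the linear form -/
lemma VL (P : Par PP h z K hm Q δ t U j J) {A : Finset ℤ} (hA : (A.card : ℝ) ≤ U) :
    Lv (pp PP) Q (3 * Q ^ 2) (VV (gg PP) (yC (pp PP) h Q j : Col PP.card ↥A → ℝ)) := by
  have hs' : 2 * (Fintype.card ↥A : ℝ) * ∑ i, 1 / (pp PP i) ^ 2 ≤ 1 := by
    rw [card_coe']
    refine le_trans ?_ P.hs
    have h1 : 0 ≤ ∑ i, 1 / (pp PP i) ^ 2 := Finset.sum_nonneg fun i _ => by positivity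
    nlinarith
  refine Lv_mono le_rfl (count_assign (κ := ↥A) (pp PP) P.p1 hs' Q P.Q0) ?_
  refine Lv_VV (pp PP) (gg PP) P.p1 P.g0 P.g1 (yC (pp PP) h Q j) ?_ Q ?_
  · intro D
    unfold yC
    split_ifs
    · exact yy_abs_le P.H.h0 P.H.h1 D
    · simp
  · intro D hD
    by_contra hc
    exact hD (by unfold yC; rw [if_neg (fun h' => hc h'.1)])

lemma VL2 (P : Par PP h z K hm Q δ t U j J) {A : Finset ℤ} (hA : (A.card : ℝ) ≤ U) :
    Lv (pp PP) (Q ^ 2) (9 * Q ^ 4)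
      (fun x => (VV (gg PP) (yC (pp PP) h Q j : Col PP.card ↥A → ℝ) x) ^ 2) := by
  have e1 := Lv_mul P.p1 (P.VL hA) (P.VL hA)
  have e2 : (fun x => (VV (gg PP) (yC (pp PP) h Q j : Col PP.card ↥A → ℝ) x) ^ 2) =
      fun x => VV (gg PP) (yC (pp PP) h Q j : Col PP.card ↥A → ℝ) x *
        VV (gg PP) (yC (pp PP) h Q j : Col PP.card ↥A → ℝ) x := by
    funext x; ring
  rw [e2]
  exact Lv_mono (le_of_eq (by ring)) (le_of_eq (by ring)) e1

/-- the tail -/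
lemma tail (P : Par PP h z K hm Q δ t U j J) {A : Finset ℤ} (hA : (A.card : ℝ) ≤ U) :
    ∑ D : Col PP.card ↥A with (Q / z < qq (pp PP) D ∨ j ≤ ncol D), (yy h D) ^ 2 * nu (gg PP) D ≤
      (Real.exp (2 * U * K / Real.log z - Real.log (Q / z) / Real.log z) +
        Real.exp (2 * U * hm - j)) * Zs ↥A (gg PP) h := by
  have hz0 : 0 < z := by linarith [P.H.z1]
  have hlz : 0 < Real.log z := Real.log_pos P.H.z1
  have hZ : 1 ≤ Zs ↥A (gg PP) h := Zs_ge_one P.H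
  have hnn : ∀ D : Col PP.card ↥A, 0 ≤ (yy h D) ^ 2 * nu (gg PP) D := fun D =>
    mul_nonneg (sq_nonneg _) (nu_nonneg P.H.g0 D)
  have hm0 : 0 ≤ hm := (P.H.h0 ∅).trans (P.hhm ∅)
  have h1 := tail_bound (κ := ↥A) P.H (Q / z) (div_pos P.Q0 hz0)
  have h2 := tail_ncol (κ := ↥A) P.H hm P.hhm j
  rw [card_coe'] at h1 h2
  have h3 : Real.exp (2 * (A.card : ℝ) * K / Real.log z - Real.log (Q / z) / Real.log z) ≤
      Real.exp (2 * U * K / Real.log z - Real.log (Q / z) / Real.log z) := by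
    apply Real.exp_le_exp.2
    have : 2 * (A.card : ℝ) * K / Real.log z ≤ 2 * U * K / Real.log z := by
      apply div_le_div_of_nonneg_right _ hlz.le
      have := mul_le_mul_of_nonneg_right hA P.H.K0
      linarith
    linarith
  have h4 : Real.exp (2 * (A.card : ℝ) * hm - j) ≤ Real.exp (2 * U * hm - j) := by
    apply Real.exp_le_exp.2
    have := mul_le_mul_of_nonneg_right hA hm0
    linarith
  have h5 : ∑ D : Col PP.card ↥A with (Q / z < qq (pp PP) D ∨ j ≤ ncol D),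
      (yy h D) ^ 2 * nu (gg PP) D ≤
      ∑ D : Col PP.card ↥A with Q / z < qq (pp PP) D, (yy h D) ^ 2 * nu (gg PP) D +
      ∑ D : Col PP.card ↥A with j ≤ ncol D, (yy h D) ^ 2 * nu (gg PP) D := by
    rw [Finset.sum_filter, Finset.sum_filter, Finset.sum_filter, ← Finset.sum_add_distrib]
    refine Finset.sum_le_sum fun D _ => ?_
    have := hnn D
    by_cases a : Q / z < qq (pp PP) D
    · by_cases b : j ≤ ncol D
      · simp only [a, b, or_self, if_true]; linarith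
      · simp only [a, b, or_false, if_true, if_false]; linarith
    · by_cases b : j ≤ ncol D
      · simp only [a, b, or_true, if_true, if_false]; linarith
      · simp only [a, b, or_self, if_false]; linarith
  have h6 := mul_le_mul_of_nonneg_right h3 (show 0 ≤ Zs ↥A (gg PP) h by linarith)
  have h7 := mul_le_mul_of_nonneg_right h4 (show 0 ≤ Zs ↥A (gg PP) h by linarith)
  linarith

/-- E1: lower bound of the mass -/
theorem E1 (P : Par PP h z K hm Q δ t U j J) {A : Finset ℤ} (hA : (A.card : ℝ) ≤ U)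
    (hS : Sep PP A) {𝒜 : Finset ℤ} {N Err Lm : ℝ} (hN : 0 ≤ N) (hErr : 0 ≤ Err)
    (hE : Equi PP 𝒜 N Err Lm) (hL : Q ^ 2 ≤ Lm) :
    N * (1 - U * δ - (Real.exp (2 * U * K / Real.log z - Real.log (Q / z) / Real.log z) +
        Real.exp (2 * U * hm - j))) - Err * (9 * Q ^ 4) ≤ ∑ x ∈ 𝒜, wgt PP h Q j A x := by
  have hZ : 1 ≤ Zs ↥A (gg PP) h := Zs_ge_one P.H
  set Z := Zs ↥A (gg PP) h with hZd
  set T := Real.exp (2 * U * K / Real.log z - Real.log (Q / z) / Real.log z) +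
        Real.exp (2 * U * hm - j) with hT
  have hAδ : (A.card : ℝ) * δ ≤ U * δ := mul_le_mul_of_nonneg_right hA P.δ0
  have h1 := second_lowerC (κ := ↥A) P.H Q δ (T * Z) j (P.ugA1 hA) (P.hδD ↥A) P.Q0 P.δ0
    (by rw [card_coe']; linarith [P.uδ]) (P.tail hA)
  rw [card_coe', ← hZd] at h1
  have h2 := transfer 𝒜 (cw PP A) (pp PP) (gg PP) N Err (Q ^ 2) (9 * Q ^ 4) hErr
    (fun D hD => single_count P.hP hS hE D (hD.trans hL)) _ (P.VL2 hA)
  have h3 := (abs_le.mp h2).1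
  have h4 : (1 - U * δ - T) * Z ≤ EE (gg PP)
      (fun x => (VV (gg PP) (yC (pp PP) h Q j : Col PP.card ↥A → ℝ) x) ^ 2) := by
    refine le_trans ?_ h1
    have := mul_le_mul_of_nonneg_right hAδ (show 0 ≤ Z by linarith)
    linarith
  have h5 := mul_le_mul_of_nonneg_left h4 hN
  have h6 : ∑ x ∈ 𝒜, wgt PP h Q j A x =
      (∑ x ∈ 𝒜, (VV (gg PP) (yC (pp PP) h Q j) (cw PP A x)) ^ 2) / Z := by
    rw [Finset.sum_div]
    rfl
  rw [h6, le_div_iff₀ (by linarith)]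
  have h7 : 0 ≤ Err * (9 * Q ^ 4) := by have := P.Q0; positivity
  have h8 : Err * (9 * Q ^ 4) ≤ Err * (9 * Q ^ 4) * Z := le_mul_of_one_le_right h7 hZ
  linarith

lemma unc_nonneg (P : Par PP h z K hm Q δ t U j J) (A : Finset ℤ) (x : ℤ) : 0 ≤ unc PP J A x := by
  unfold unc
  refine Finset.sum_nonneg fun a _ => ?_
  refine le_trans ?_ (SS_lower J P.hJ a (cw PP A x))
  split_ifs <;> norm_num

lemma unc_small (P : Par PP h z K hm Q δ t U j J) {A : Finset ℤ} (hS : Sep PP A) {x : ℤ}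
    (hx : unc PP J A x < 1) : ∀ a ∈ A, ∃ p ∈ PP, (p : ℤ) ∣ x + a := by
  intro a ha
  by_contra hc
  push Not at hc
  have h0 : ∀ l : ↥A, 0 ≤ SS J l (cw PP A x) := by
    intro l
    refine le_trans ?_ (SS_lower J P.hJ l (cw PP A x))
    split_ifs <;> norm_num
  have h1 : SS J (⟨a, ha⟩ : ↥A) (cw PP A x) ≤ unc PP J A x :=
    Finset.single_le_sum (fun l _ => h0 l) (Finset.mem_univ (⟨a, ha⟩ : ↥A))
  have h2 := SS_lower J P.hJ (⟨a, ha⟩ : ↥A) (cw PP A x)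
  rw [if_pos] at h2
  · linarith
  · intro i hi
    rw [cw_eq hS] at hi
    exact hc _ (emb_mem PP i) hi

/-- E2: the mass is on the points where the window is covered -/
theorem E2 (P : Par PP h z K hm Q δ t U j J) {A : Finset ℤ} (hA : (A.card : ℝ) ≤ U)
    (hS : Sep PP A) {𝒜 : Finset ℤ} {N Err Lm : ℝ} (hN : 0 ≤ N) (hErr : 0 ≤ Err)
    (hE : Equi PP 𝒜 N Err Lm) (hL : Q ^ 2 * z ^ J ≤ Lm) :
    ∑ x ∈ 𝒜, wgt PP h Q j A x * unc PP J A x ≤
    N * (U * (δ ^ 2 + (Real.exp (2 * U * K / Real.log z - Real.log (Q / z) / Real.log z) +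
        Real.exp (2 * U * hm - j)) + (1 / t) ^ J * Real.exp ((2 + 6 * t) * ∑ i, gg PP i))) +
      Err * (9 * Q ^ 4 * (U * ((PP.card : ℝ) + 1) ^ J)) := by
  have hZ : 1 ≤ Zs ↥A (gg PP) h := Zs_ge_one P.H
  set Z := Zs ↥A (gg PP) h with hZd
  set T := Real.exp (2 * U * K / Real.log z - Real.log (Q / z) / Real.log z) +
        Real.exp (2 * U * hm - j) with hT
  set V : Col PP.card ↥A → ℝ := VV (gg PP) (yC (pp PP) h Q j) with hV
  set Bd : ℝ := δ ^ 2 + T + (1 / t) ^ J * Real.exp ((2 + 6 * t) * ∑ i, gg PP i) with hBd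
  have hT0 : 0 ≤ T := by positivity
  have ht := P.t0
  have hBd0 : 0 ≤ Bd := by positivity
  have hup : ∀ k : ↥A, EE (gg PP) (fun x => (V x) ^ 2 * SS J k x) ≤ Bd * Z := by
    intro k
    refine (second_upperC (κ := ↥A) P.H Q δ t (T * Z) j J P.hJ P.t0 P.tg (P.ugA1 hA) P.Q0
      (P.hδD ↥A) (P.tail hA) k).trans (le_of_eq ?_)
    rw [hBd]
    ring
  have hzJ : (1:ℝ) ≤ z ^ J := one_le_pow₀ P.H.z1.le
  have hSL : Lv (pp PP) (z ^ J) ((A.card : ℝ) * ((PP.card : ℝ) + 1) ^ J)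
      (fun x : Col PP.card ↥A => ∑ k, SS J k x) := by
    have e2 := Lv_sum (p := pp PP) (Q := z ^ J) (univ : Finset ↥A)
      (fun _ => ((PP.card:ℝ) + 1) ^ J)
      (fun k => (SS J k : Col PP.card ↥A → ℝ)) (fun k _ => Lv_SS (pp PP) P.p1 z P.pz P.H.z1.le J k)
    refine Lv_mono le_rfl ?_ e2
    rw [Finset.sum_const, Finset.card_univ, nsmul_eq_mul, card_coe']
  have hFL : Lv (pp PP) (Q ^ 2 * z ^ J) (9 * Q ^ 4 * ((A.card : ℝ) * ((PP.card : ℝ) + 1) ^ J))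
      (fun x => (V x) ^ 2 * ∑ k, SS J k x) := Lv_mul P.p1 (P.VL2 hA) hSL
  have h2 := transfer 𝒜 (cw PP A) (pp PP) (gg PP) N Err _ _ hErr
    (fun D hD => single_count P.hP hS hE D (hD.trans hL)) _ hFL
  have h3 := (abs_le.mp h2).2
  have h4 : EE (gg PP) (fun x => (V x) ^ 2 * ∑ k, SS J k x) ≤ U * (Bd * Z) := by
    have e1 : (fun x => (V x) ^ 2 * ∑ k, SS J k x) =
        fun x => ∑ k ∈ (univ : Finset ↥A), (V x) ^ 2 * SS J k x := by
      funext x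
      rw [Finset.mul_sum]
    rw [e1, EE_sum]
    refine (Finset.sum_le_sum fun k _ => hup k).trans ?_
    rw [Finset.sum_const, Finset.card_univ, nsmul_eq_mul, card_coe']
    exact mul_le_mul_of_nonneg_right hA (by positivity)
  have h5 := mul_le_mul_of_nonneg_left h4 hN
  have h6 : ∑ x ∈ 𝒜, wgt PP h Q j A x * unc PP J A x =
      (∑ x ∈ 𝒜, (V (cw PP A x)) ^ 2 * ∑ k, SS J k (cw PP A x)) / Z := by
    rw [Finset.sum_div]
    refine Finset.sum_congr rfl fun x _ => ?_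
    unfold wgt unc
    rw [← hZd, ← hV]
    ring
  rw [h6, div_le_iff₀ (by linarith)]
  have hQ0 := P.Q0
  have h7 : Err * (9 * Q ^ 4 * ((A.card : ℝ) * ((PP.card : ℝ) + 1) ^ J)) ≤
      Err * (9 * Q ^ 4 * (U * ((PP.card : ℝ) + 1) ^ J)) := by gcongr
  have hU0 := P.U0
  have h8 : 0 ≤ Err * (9 * Q ^ 4 * (U * ((PP.card : ℝ) + 1) ^ J)) := by positivity
  have h9 := le_mul_of_one_le_right h8 hZ
  have h10 : (N * (U * Bd) + Err * (9 * Q ^ 4 * (U * ((PP.card : ℝ) + 1) ^ J))) * Z =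
      N * (U * (Bd * Z)) + Err * (9 * Q ^ 4 * (U * ((PP.card : ℝ) + 1) ^ J)) * Z := by ring
  rw [h10]
  linarith

/-- E3: different windows are almost uncorrelated -/
theorem E3 (P : Par PP h z K hm Q δ t U j J) {A A' : Finset ℤ} (hA : (A.card : ℝ) ≤ U)
    (hA' : (A'.card : ℝ) ≤ U) (hS : Sep PP A) (hS' : Sep PP A') {ρ : ℝ}
    (hρ : ∑ i, (∑ a, ∑ a', Rel PP A A' i a a') * gg PP i ≤ ρ)
    {𝒜 : Finset ℤ} {N Err Lm : ℝ} (hN : 0 ≤ N) (hErr : 0 ≤ Err)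
    (hE : Equi PP 𝒜 N Err Lm) (hL : Q ^ 4 ≤ Lm) :
    ∑ x ∈ 𝒜, wgt PP h Q j A x * wgt PP h Q j A' x ≤
      N * Real.exp (16 * U ^ 2 * ∑ i, (gg PP i) ^ 2 + 40 * ρ + 4 * U * δ) +
        Err * (81 * Q ^ 8) := by
  have hZ : 1 ≤ Zs ↥A (gg PP) h := Zs_ge_one P.H
  have hZ' : 1 ≤ Zs ↥A' (gg PP) h := Zs_ge_one P.H
  set Z := Zs ↥A (gg PP) h with hZd
  set Z' := Zs ↥A' (gg PP) h with hZd'
  have hQ0 := P.Q0
  have h2 := transfer2 𝒜 (cw PP A) (cw PP A') (pp PP) (gg PP) (Rel PP A A') N Err (Q ^ 2) (Q ^ 2)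
    (9 * Q ^ 4) (9 * Q ^ 4) hErr
    (fun D D' hD hD' => pair_count P.hP hS hS' hErr hE D D' (by
      refine le_trans ?_ hL
      have e1 : 0 ≤ qq (pp PP) D' := zero_le_one.trans (one_le_qq P.p1 D')
      calc qq (pp PP) D * qq (pp PP) D' ≤ Q ^ 2 * Q ^ 2 :=
            mul_le_mul hD hD' e1 (by positivity)
        _ = Q ^ 4 := by ring)) _ _ (P.VL2 hA) (P.VL2 hA')
  have h3 := (abs_le.mp h2).2
  have h4 := pair_model (κ := ↥A) (κ' := ↥A') P.H Q δ j (P.hδD ↥A) (P.hδD ↥A') (P.ugA hA)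
    (P.ugA hA') (Rel PP A A') (Rel_nonneg PP A A') (Rel_sum1 hS') (Rel_sum2 hS)
  rw [← hZd, ← hZd', card_coe', card_coe'] at h4
  have h5 : Real.exp (∑ i, (16 * ((A.card : ℝ) * A'.card) * (gg PP i) ^ 2 +
        40 * (∑ a, ∑ a', Rel PP A A' i a a') * gg PP i) +
        2 * ((A.card : ℝ) + A'.card) * δ) ≤
      Real.exp (16 * U ^ 2 * ∑ i, (gg PP i) ^ 2 + 40 * ρ + 4 * U * δ) := by
    apply Real.exp_le_exp.2
    rw [Finset.sum_add_distrib, ← Finset.mul_sum]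
    have e1 : ∑ i, 40 * (∑ a, ∑ a', Rel PP A A' i a a') * gg PP i =
        40 * ∑ i, (∑ a, ∑ a', Rel PP A A' i a a') * gg PP i := by
      rw [Finset.mul_sum]
      exact Finset.sum_congr rfl fun i _ => by ring
    rw [e1]
    have e2 : 0 ≤ ∑ i, (gg PP i) ^ 2 := Finset.sum_nonneg fun i _ => sq_nonneg _
    have e3 : (A.card : ℝ) * A'.card ≤ U ^ 2 := by
      rw [sq]
      exact mul_le_mul hA hA' (Nat.cast_nonneg _) P.U0
    have e4 := mul_le_mul_of_nonneg_right e3 e2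
    have e5 : ((A.card : ℝ) + A'.card) * δ ≤ 2 * U * δ :=
      mul_le_mul_of_nonneg_right (by linarith) P.δ0
    linarith
  have h6 : ∑ x ∈ 𝒜, wgt PP h Q j A x * wgt PP h Q j A' x =
      (∑ x ∈ 𝒜, (VV (gg PP) (yC (pp PP) h Q j) (cw PP A x)) ^ 2 *
        (VV (gg PP) (yC (pp PP) h Q j) (cw PP A' x)) ^ 2) / (Z * Z') := by
    rw [Finset.sum_div]
    refine Finset.sum_congr rfl fun x _ => ?_
    unfold wgt
    rw [← hZd, ← hZd', div_mul_div_comm]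
  have hZZ : 1 ≤ Z * Z' := one_le_mul_of_one_le_of_one_le hZ hZ'
  rw [h6, div_le_iff₀ (by linarith)]
  have h7 := h4.trans (mul_le_mul_of_nonneg_right h5 (show 0 ≤ Z * Z' by linarith))
  have h8 := mul_le_mul_of_nonneg_left h7 hN
  have h9 : 0 ≤ Err * (81 * Q ^ 8) := by positivity
  have h10 := le_mul_of_one_le_right h9 hZZ
  have h11 : Err * (9 * Q ^ 4 * (9 * Q ^ 4)) = Err * (81 * Q ^ 8) := by ring
  rw [h11] at h3
  linarith

/-- E4: crude fourth moment -/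
theorem E4 (P : Par PP h z K hm Q δ t U j J) {A : Finset ℤ} (hA : (A.card : ℝ) ≤ U)
    (hS : Sep PP A) {𝒜 : Finset ℤ} {N Err Lm : ℝ} (hN : 0 ≤ N) (hErr : 0 ≤ Err)
    (hE : Equi PP 𝒜 N Err Lm) (hL : Q ^ 4 ≤ Lm) :
    ∑ x ∈ 𝒜, (wgt PP h Q j A x) ^ 2 ≤
      N * (((U + 1) ^ j) ^ 4 * Real.exp (49 * j * ∑ i, gg PP i)) + Err * (81 * Q ^ 8) := by
  have hZ : 1 ≤ Zs ↥A (gg PP) h := Zs_ge_one P.H
  set Z := Zs ↥A (gg PP) h with hZd
  set V : Col PP.card ↥A → ℝ := VV (gg PP) (yC (pp PP) h Q j) with hV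
  have hQ0 := P.Q0
  have hV4 : Lv (pp PP) (Q ^ 4) (81 * Q ^ 8) (fun x => (V x) ^ 4) := by
    have e1 := Lv_mul P.p1 (P.VL2 hA) (P.VL2 hA)
    have e2 : (fun x => (V x) ^ 4) = fun x => (V x) ^ 2 * (V x) ^ 2 := by funext x; ring
    rw [e2]
    exact Lv_mono (le_of_eq (by ring)) (le_of_eq (by ring)) e1
  have h2 := transfer 𝒜 (cw PP A) (pp PP) (gg PP) N Err _ _ hErr
    (fun D hD => single_count P.hP hS hE D (hD.trans hL)) _ hV4
  have h3 := (abs_le.mp h2).2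
  have h4 := fourth_crude (κ := ↥A) (gg PP) P.g0 P.g1 (P.ugA hA) j (yC (pp PP) h Q j)
    (by
      intro D
      unfold yC
      split_ifs
      · exact yy_abs_le P.H.h0 P.H.h1 D
      · simp)
    (by
      intro D hD
      by_contra hc
      exact hD (by unfold yC; rw [if_neg (fun h' => hc h'.2)]))
  rw [card_coe'] at h4
  have h5 : (((A.card : ℝ) + 1) ^ j) ^ 4 * Real.exp (49 * j * ∑ i, gg PP i) ≤
      ((U + 1) ^ j) ^ 4 * Real.exp (49 * j * ∑ i, gg PP i) := by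
    gcongr
  have h6 := mul_le_mul_of_nonneg_left (h4.trans h5) hN
  have h7 : ∑ x ∈ 𝒜, (wgt PP h Q j A x) ^ 2 ≤ ∑ x ∈ 𝒜, (V (cw PP A x)) ^ 4 := by
    refine Finset.sum_le_sum fun x _ => ?_
    unfold wgt
    rw [← hZd, ← hV, div_pow]
    have e1 : 0 ≤ ((V (cw PP A x)) ^ 2) ^ 2 := sq_nonneg _
    have e2 : ((V (cw PP A x)) ^ 2) ^ 2 = (V (cw PP A x)) ^ 4 := by ring
    rw [← e2]
    exact div_le_self e1 (one_le_pow₀ hZ)
  linarith

end Par

end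

end Run7.h294.G
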