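import Mathlib

set_option autoImplicit false

/-! # Numerical lemmas for the engine -/

namespace Run7.h294.G

lemma n_pow {L : ℝ} (hL : 1000 ≤ L) (k : ℕ) (hk : 1 ≤ k) : 1 / L ^ k ≤ 1 / L :=
  one_div_le_one_div_of_le (by linarith) (le_self_pow₀ (by linarith) (by omega))

lemma n_pow2 {L : ℝ} (hL : 1000 ≤ L) (k j : ℕ) (hk : j ≤ k) : 1 / L ^ k ≤ 1 / L ^ j :=
  one_div_le_one_div_of_le (pow_pos (by linarith) _) (pow_le_pow_right₀ (by linarith) hk)

lemma n_small {L N E t : ℝ} (hL : 1000 ≤ L) (hN : Real.exp (L / 2) ≤ N)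
    (hf : L ≤ Real.exp (L / 100)) (hE : E ≤ Real.exp (t * L)) (ht : t ≤ 49 / 100) :
    E ≤ 1 / L * N := by
  have hL0 : 0 < L := by linarith
  rw [one_div_mul_eq_div, le_div_iff₀ hL0]
  calc E * L ≤ Real.exp (t * L) * L := mul_le_mul_of_nonneg_right hE hL0.le
    _ ≤ Real.exp (t * L) * Real.exp (L / 100) :=
        mul_le_mul_of_nonneg_left hf (Real.exp_pos _).le
    _ = Real.exp (t * L + L / 100) := by rw [← Real.exp_add]
    _ ≤ Real.exp (L / 2) := by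
        apply Real.exp_le_exp.mpr
        have : t * L ≤ 49 / 100 * L := mul_le_mul_of_nonneg_right ht hL0.le
        linarith
    _ ≤ N := hN

lemma n_e1 {L U T ε N Er : ℝ} (hL : 1000 ≤ L) (hU : U ≤ L) (hT : T ≤ 2 / L ^ 5)
    (hε : 1 / L ≤ ε / 1000) (hN : 0 < N) (hE : Er ≤ 1 / L * N) :
    (1 - ε) * N ≤ N * (1 - U * (1 / L ^ 9) - T) - Er := by
  have hL0 : 0 < L := by linarith
  have e1 : U * (1 / L ^ 9) ≤ 1 / L := by
    have : U * (1 / L ^ 9) ≤ L * (1 / L ^ 9) := mul_le_mul_of_nonneg_right hU (by positivity)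
    have e : L * (1 / L ^ 9) = 1 / L ^ 8 := by field_simp
    have := n_pow hL 8 (by norm_num)
    linarith
  have e2 : 2 / L ^ 5 ≤ 2 * (1 / L) := by
    have := n_pow hL 5 (by norm_num)
    have e : 2 / L ^ 5 = 2 * (1 / L ^ 5) := by ring
    linarith
  have h0 : 0 < 1 / L := by positivity
  have e4 : N * (1 - ε) ≤ N * (1 - U * (1 / L ^ 9) - T - 1 / L) := by
    apply mul_le_mul_of_nonneg_left _ hN.le
    linarith
  have e5 : N * (1 - U * (1 / L ^ 9) - T - 1 / L) =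
    N * (1 - U * (1 / L ^ 9) - T) - 1 / L * N := by ring
  linarith

lemma n_e2 {L U T S ε N Er : ℝ} (hL : 1000 ≤ L) (hU0 : 0 ≤ U) (hU : U ≤ L) (hT0 : 0 ≤ T)
    (hT : T ≤ 2 / L ^ 5) (hS0 : 0 ≤ S) (hS : S ≤ 1 / L ^ 3)
    (hε : 1 / L ≤ ε / 1000) (hN : 0 < N) (hE : Er ≤ 1 / L * N) :
    N * (U * ((1 / L ^ 9) ^ 2 + T + S)) + Er ≤ ε * N := by
  have hL0 : 0 < L := by linarith
  have a1 : (1 / L ^ 9) ^ 2 ≤ 1 / L ^ 3 := by
    rw [div_pow, one_pow, ← pow_mul]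
    exact n_pow2 hL _ _ (by norm_num)
  have a2 : 2 / L ^ 5 ≤ 2 * (1 / L ^ 3) := by
    have := n_pow2 hL 5 3 (by norm_num)
    have e : 2 / L ^ 5 = 2 * (1 / L ^ 5) := by ring
    linarith
  have e1 : U * ((1 / L ^ 9) ^ 2 + T + S) ≤ 4 * (1 / L) := by
    calc U * ((1 / L ^ 9) ^ 2 + T + S) ≤ L * (4 * (1 / L ^ 3)) := by
          apply mul_le_mul hU _ (by positivity) hL0.le
          linarith
      _ = 4 * (1 / L ^ 2) := by field_simp
      _ ≤ 4 * (1 / L) := by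
          have := n_pow hL 2 (by norm_num)
          linarith
  have h0 : 0 < 1 / L := by positivity
  have e4 := mul_le_mul_of_nonneg_left e1 hN.le
  have e5 : N * (5 * (1 / L)) ≤ N * ε := by
    apply mul_le_mul_of_nonneg_left _ hN.le
    linarith
  have e6 : N * (5 * (1 / L)) = N * (4 * (1 / L)) + 1 / L * N := by ring
  linarith

lemma n_e3 {L U G ρ ε N Er : ℝ} (hL : 1000 ≤ L) (hU0 : 0 ≤ U) (hU : U ≤ L) (hG0 : 0 ≤ G)
    (hG : G ≤ 1 / L ^ 9) (hρ : ρ = 1 / L ^ 7)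
    (hε : 1 / L ≤ ε / 1000) (hN : 0 < N) (hE : Er ≤ 1 / L * N) :
    N * Real.exp (16 * U ^ 2 * G + 40 * ρ + 4 * U * (1 / L ^ 9)) + Er ≤ (1 + ε) * N := by
  have hL0 : 0 < L := by linarith
  have a2 : 16 * U ^ 2 * G + 40 * ρ + 4 * U * (1 / L ^ 9) ≤ 1 / L := by
    have b1 : 16 * U ^ 2 * G ≤ 16 * L ^ 2 * (1 / L ^ 9) := by
      apply mul_le_mul _ hG hG0 (by positivity)
      gcongr
    have b2 : 16 * L ^ 2 * (1 / L ^ 9) = 16 * (1 / L ^ 7) := by field_simp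
    have b3 : 4 * U * (1 / L ^ 9) ≤ 4 * L * (1 / L ^ 9) := by gcongr
    have b4 : 4 * L * (1 / L ^ 9) = 4 * (1 / L ^ 8) := by field_simp
    have b5 : 1 / L ^ 8 ≤ 1 / L ^ 7 := n_pow2 hL 8 7 (by norm_num)
    have b6 : 60 * (1 / L ^ 7) ≤ 1 / L := by
      have e1 : 60 * (1 / L ^ 7) = 60 / L ^ 6 * (1 / L) := by field_simp
      have e2 : 60 / L ^ 6 ≤ 1 := by
        rw [div_le_one (by positivity)]
        have : L ≤ L ^ 6 := le_self_pow₀ (by linarith) (by norm_num)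
        linarith
      rw [e1]
      have : 0 < 1 / L := by positivity
      exact mul_le_of_le_one_left this.le e2
    rw [hρ]
    linarith
  have a3 : Real.exp (16 * U ^ 2 * G + 40 * ρ + 4 * U * (1 / L ^ 9)) ≤ 1 + 2 * (1 / L) := by
    refine (Real.exp_le_exp.mpr a2).trans ?_
    have h1 : 1 / L ≤ 1 := by rw [div_le_one hL0]; linarith
    have h0 : 0 < 1 / L := by positivity
    have h2 := Real.abs_exp_sub_one_le (x := 1 / L) (by rw [abs_of_pos h0]; exact h1)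
    have h3 := (abs_le.mp h2).2
    rw [abs_of_pos h0] at h3
    linarith
  have h0 : 0 < 1 / L := by positivity
  have e4 := mul_le_mul_of_nonneg_left a3 hN.le
  have e5 : (1 + 3 * (1 / L)) * N ≤ (1 + ε) * N := by
    apply mul_le_mul_of_nonneg_right _ hN.le
    linarith
  have e6 : N * (1 + 2 * (1 / L)) + 1 / L * N = (1 + 3 * (1 / L)) * N := by ring
  linarith

lemma n_S {L l G : ℝ} {J : ℕ} (hLexp : L = Real.exp l) (hJ : 24 * l ≤ J) (hG : 20 * G ≤ 21 * l) :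
    (1 / (3:ℝ)) ^ J * Real.exp ((2 + 6 * 3) * G) ≤ 1 / L ^ 3 := by
  have h1 : (1 / (3:ℝ)) ^ J ≤ Real.exp (-(24 * l)) := by
    have e1 : (1 / (3:ℝ)) = Real.exp (-(Real.log 3)) := by
      rw [Real.exp_neg, Real.exp_log (by norm_num)]; norm_num
    rw [e1, ← Real.exp_nat_mul]
    apply Real.exp_le_exp.mpr
    have e2 : (1:ℝ) ≤ Real.log 3 := by
      rw [Real.le_log_iff_exp_le (by norm_num)]
      have := Real.exp_one_lt_d9
      linarith
    have e3 : (J:ℝ) * 1 ≤ J * Real.log 3 := mul_le_mul_of_nonneg_left e2 (Nat.cast_nonneg _)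
    linarith
  have h2 : Real.exp ((2 + 6 * 3) * G) ≤ Real.exp (21 * l) := by
    apply Real.exp_le_exp.mpr
    linarith
  calc (1 / (3:ℝ)) ^ J * Real.exp ((2 + 6 * 3) * G)
      ≤ Real.exp (-(24 * l)) * Real.exp (21 * l) :=
        mul_le_mul h1 h2 (Real.exp_pos _).le (Real.exp_pos _).le
    _ = Real.exp (-(3 * l)) := by rw [← Real.exp_add]; congr 1; ring
    _ = 1 / L ^ 3 := by
        rw [Real.exp_neg, hLexp, ← Real.exp_nat_mul]
        push_cast
        rw [one_div]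

lemma n_logL {L l : ℝ} (hLexp : L = Real.exp l) (hl : 100 ≤ l) : 2 * l ≤ L := by
  have e1 : l / 2 + 1 ≤ Real.exp (l / 2) := Real.add_one_le_exp _
  have e2 : L = Real.exp (l / 2) ^ 2 := by
    rw [← Real.exp_nat_mul, hLexp]
    congr 1
    push_cast
    ring
  rw [e2]
  have e3 : (l / 2 + 1) ^ 2 ≤ Real.exp (l / 2) ^ 2 := by gcongr
  nlinarith

lemma n_e4 {L l U G N Er : ℝ} {j m : ℕ} (hLexp : L = Real.exp l) (hL : 1000 ≤ L) (hl : 100 ≤ l)
    (hU0 : 0 ≤ U)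
    (hU : U ≤ L) (hG : G ≤ 2 * l) (hj : (j : ℝ) ≤ 7 * (l * 2 ^ m)) (hN : 0 < N) (hE : Er ≤ 1 / L * N) :
    N * (((U + 1) ^ j) ^ 4 * Real.exp (49 * j * G)) + Er ≤
      2 * Real.exp (742 * (l ^ 2 * 2 ^ m)) * N := by
  have hL0 : 0 < L := by linarith
  have a1 : U + 1 ≤ Real.exp (2 * l) := by
    have : Real.exp (2 * l) = L ^ 2 := by
      rw [hLexp, ← Real.exp_nat_mul]
      push_cast
      rfl
    rw [this]
    nlinarith
  have a2 : ((U + 1) ^ j) ^ 4 ≤ Real.exp (8 * (j * l)) := by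
    calc ((U + 1) ^ j) ^ 4 ≤ ((Real.exp (2 * l)) ^ j) ^ 4 := by gcongr
      _ = Real.exp (8 * (j * l)) := by
          rw [← Real.exp_nat_mul, ← Real.exp_nat_mul]
          congr 1
          push_cast
          ring
  have a3 : Real.exp (49 * j * G) ≤ Real.exp (98 * (j * l)) := by
    apply Real.exp_le_exp.mpr
    calc 49 * (j:ℝ) * G ≤ 49 * (j:ℝ) * (2 * l) :=
          mul_le_mul_of_nonneg_left hG (by positivity)
      _ = 98 * (j * l) := by ring
  have a4 : ((U + 1) ^ j) ^ 4 * Real.exp (49 * j * G) ≤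
      Real.exp (742 * (l ^ 2 * 2 ^ m)) := by
    calc ((U + 1) ^ j) ^ 4 * Real.exp (49 * j * G)
        ≤ Real.exp (8 * (j * l)) * Real.exp (98 * (j * l)) :=
          mul_le_mul a2 a3 (Real.exp_pos _).le (Real.exp_pos _).le
      _ = Real.exp (106 * (j * l)) := by rw [← Real.exp_add]; congr 1; ring
      _ ≤ Real.exp (742 * (l ^ 2 * 2 ^ m)) := by
          apply Real.exp_le_exp.mpr
          have : (j : ℝ) * l ≤ 7 * (l * 2 ^ m) * l := mul_le_mul_of_nonneg_right hj (by linarith)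
          have e : 7 * (l * 2 ^ m) * l = 7 * (l ^ 2 * 2 ^ m) := by ring
          linarith
  have e4 := mul_le_mul_of_nonneg_left a4 hN.le
  have hl0 : 0 ≤ l := by linarith
  have e5 : N * 1 ≤ N * Real.exp (742 * (l ^ 2 * 2 ^ m)) :=
    mul_le_mul_of_nonneg_left (Real.one_le_exp (by positivity)) hN.le
  have e6 : 1 / L * N ≤ 1 * N := by
    apply mul_le_mul_of_nonneg_right _ hN.le
    rw [div_le_one hL0]
    linarith
  linarith

lemma n_R {L l ε C m2 W : ℝ} (hLexp : L = Real.exp l) (hl : 100 ≤ l) (hε : 0 < ε)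
    (hm : 1 ≤ m2) (hC : 1 ≤ C) (f3 : 1000 / ε ≤ L)
    (hΩ : Real.exp ((C + 800) * (l ^ 2 * m2)) ≤ W) :
    2 * Real.exp (742 * (l ^ 2 * m2)) ≤ ε * W := by
  have h1 : Real.exp (742 * (l ^ 2 * m2)) * (2 / ε) ≤ Real.exp ((C + 800) * (l ^ 2 * m2)) := by
    have e0 : l ≤ l ^ 2 * m2 := by nlinarith
    have e1 : 2 / ε ≤ Real.exp (l ^ 2 * m2) := by
      calc 2 / ε ≤ 1000 / ε := by gcongr; norm_num
        _ ≤ L := f3
        _ = Real.exp l := hLexp
        _ ≤ _ := Real.exp_le_exp.mpr e0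
    calc Real.exp (742 * (l ^ 2 * m2)) * (2 / ε)
        ≤ Real.exp (742 * (l ^ 2 * m2)) * Real.exp (l ^ 2 * m2) :=
          mul_le_mul_of_nonneg_left e1 (Real.exp_pos _).le
      _ = Real.exp (743 * (l ^ 2 * m2)) := by rw [← Real.exp_add]; congr 1; ring
      _ ≤ _ := by
          apply Real.exp_le_exp.mpr
          have : 0 < l ^ 2 * m2 := by positivity
          nlinarith
  have h2 := h1.trans hΩ
  have h3 : ε * (Real.exp (742 * (l ^ 2 * m2)) * (2 / ε)) =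
      2 * Real.exp (742 * (l ^ 2 * m2)) := by field_simp
  rw [← h3]
  exact mul_le_mul_of_nonneg_left h2 hε.le

lemma n_facts (CM ε : ℝ) : ∃ L₀ : ℝ, ∀ L : ℝ, L₀ ≤ L → 100 ≤ Real.log L ∧
    21 * CM ≤ Real.log L ∧ 1000 / ε ≤ L ∧ L ≤ Real.exp (L / 100) ∧ 1000 ≤ L := by
  have h1 : ∀ᶠ L : ℝ in Filter.atTop, 100 ≤ Real.log L :=
    Real.tendsto_log_atTop.eventually_ge_atTop 100
  have h2 : ∀ᶠ L : ℝ in Filter.atTop, 21 * CM ≤ Real.log L :=
    Real.tendsto_log_atTop.eventually_ge_atTop _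
  have h3 : ∀ᶠ L : ℝ in Filter.atTop, 1000 / ε ≤ L := Filter.eventually_ge_atTop _
  have h5 : ∀ᶠ L : ℝ in Filter.atTop, 1000 ≤ L := Filter.eventually_ge_atTop _
  have h6 : ∀ᶠ L : ℝ in Filter.atTop, 40000 ≤ L := Filter.eventually_ge_atTop _
  have h4 : ∀ᶠ L : ℝ in Filter.atTop, L ≤ Real.exp (L / 100) := by
    filter_upwards [h6] with L hL
    have e1 : L / 200 + 1 ≤ Real.exp (L / 200) := Real.add_one_le_exp _
    have e2 : Real.exp (L / 100) = Real.exp (L / 200) ^ 2 := by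
      rw [← Real.exp_nat_mul]
      congr 1
      push_cast
      ring
    rw [e2]
    have e3 : (L / 200 + 1) ^ 2 ≤ Real.exp (L / 200) ^ 2 := by
      apply pow_le_pow_left₀ (by linarith) e1
    have e4 : L ≤ (L / 200 + 1) ^ 2 := by nlinarith
    linarith
  obtain ⟨L₀, h⟩ := Filter.eventually_atTop.1 (h1.and (h2.and (h3.and (h4.and h5))))
  exact ⟨L₀, fun L hL => h L hL⟩

end Run7.h294.G
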