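import Pool.Agent.Run7.h294.G10
import Pool.Agent.Run7.h294.G11
import Pool.Agent.Run7.h294.G12n

set_option autoImplicit false
set_option linter.unusedSectionVars false

/-! # The engine: covered windows in a positive proportion of the blocks -/

namespace Run7.h294.G

open Finset Pool.Agent.H256R2.SC

open scoped Classical

lemma gg_nonneg (PP : Finset ℕ) (i : Fin PP.card) : 0 ≤ gg PP i := by
  unfold gg
  positivity

/-- few primes divide a nonzero difference -/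
lemma count_dvd {PP : Finset ℕ} (hP : ∀ p ∈ PP, p.Prime) {y : ℝ} (hy : 3 ≤ y)
    (hPy : ∀ i, y < pp PP i) {L : ℝ} {d : ℤ} (hd : d ≠ 0) (hdL : |(d : ℝ)| ≤ Real.exp L) :
    (((univ : Finset (Fin PP.card)).filter (fun i => ((emb PP i : ℕ) : ℤ) ∣ d)).card : ℝ) ≤ L := by
  set S := (univ : Finset (Fin PP.card)).filter (fun i => ((emb PP i : ℕ) : ℤ) ∣ d) with hS
  have h1 : (∏ i ∈ S, ((emb PP i : ℕ) : ℤ)) ∣ d := by
    apply Finset.prod_dvd_of_coprime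
    · intro i _ j _ hij
      exact Nat.isCoprime_iff_coprime.mpr (emb_coprime hP hij)
    · intro i hi
      rw [hS, Finset.mem_filter] at hi
      exact hi.2
  have h2 : (∏ i ∈ S, ((emb PP i : ℕ) : ℤ)) ≤ |d| := Int.le_of_dvd (abs_pos.2 hd) ((dvd_abs _ _).2 h1)
  have h3 : (∏ i ∈ S, pp PP i) ≤ Real.exp L := by
    refine le_trans ?_ hdL
    have : ((∏ i ∈ S, ((emb PP i : ℕ) : ℤ) : ℤ) : ℝ) ≤ ((|d| : ℤ) : ℝ) := by exact_mod_cast h2
    rw [Int.cast_abs] at this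
    refine le_trans (le_of_eq ?_) this
    push_cast
    rfl
  have h4 : Real.exp (S.card : ℝ) ≤ ∏ i ∈ S, pp PP i := by
    have : Real.exp (S.card : ℝ) = ∏ i ∈ S, Real.exp 1 := by
      rw [Finset.prod_const, ← Real.exp_nat_mul, mul_one]
    rw [this]
    apply Finset.prod_le_prod
    · intro i _; exact (Real.exp_pos _).le
    · intro i _
      have := Real.exp_one_lt_d9
      linarith [hPy i]
  exact Real.exp_le_exp.mp (h4.trans h3)

/-- the coincidence sum of two windows -/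
lemma rel_sum {PP : Finset ℕ} (hP : ∀ p ∈ PP, p.Prime) {y : ℝ} (hy : 3 ≤ y)
    (hPy : ∀ i, y < pp PP i) {L : ℝ} {A A' : Finset ℤ}
    (hd : ∀ a ∈ A, ∀ a' ∈ A', a ≠ a' ∧ |((a - a' : ℤ) : ℝ)| ≤ Real.exp L) :
    ∑ i, (∑ a, ∑ a', Rel PP A A' i a a') * gg PP i ≤ (A.card : ℝ) * A'.card * (L / y) := by
  have hgy : ∀ i, gg PP i ≤ 1 / y := fun i =>
    one_div_le_one_div_of_le (by linarith) (hPy i).le
  have e1 : ∑ i, (∑ a, ∑ a', Rel PP A A' i a a') * gg PP i =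
      ∑ a : ↥A, ∑ a' : ↥A', ∑ i, Rel PP A A' i a a' * gg PP i := by
    rw [Finset.sum_congr rfl (fun i _ => by rw [Finset.sum_mul] :
      ∀ i ∈ (univ : Finset (Fin PP.card)), (∑ a, ∑ a', Rel PP A A' i a a') * gg PP i =
        ∑ a, (∑ a', Rel PP A A' i a a') * gg PP i), Finset.sum_comm]
    refine Finset.sum_congr rfl fun a _ => ?_
    rw [Finset.sum_congr rfl (fun i _ => by rw [Finset.sum_mul] :
      ∀ i ∈ (univ : Finset (Fin PP.card)), (∑ a', Rel PP A A' i a a') * gg PP i =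
        ∑ a', Rel PP A A' i a a' * gg PP i), Finset.sum_comm]
  rw [e1]
  have e2 : ∀ (a : ↥A) (a' : ↥A'), ∑ i, Rel PP A A' i a a' * gg PP i ≤ L / y := by
    intro a a'
    obtain ⟨h1, h2⟩ := hd a a.2 a' a'.2
    have h3 := count_dvd hP hy hPy (sub_ne_zero.2 h1) h2
    calc ∑ i, Rel PP A A' i a a' * gg PP i
        ≤ ∑ i, (if ((emb PP i : ℕ) : ℤ) ∣ (a : ℤ) - a' then 1 else 0) * (1 / y) := by
          refine Finset.sum_le_sum fun i _ => ?_
          unfold Rel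
          exact mul_le_mul_of_nonneg_left (hgy i) (by split_ifs <;> norm_num)
      _ = (((univ : Finset (Fin PP.card)).filter
            (fun i => ((emb PP i : ℕ) : ℤ) ∣ (a : ℤ) - a')).card : ℝ) * (1 / y) := by
          rw [← Finset.sum_mul, Finset.sum_boole]
      _ ≤ L * (1 / y) := mul_le_mul_of_nonneg_right h3 (by positivity)
      _ = L / y := by ring
  calc ∑ a : ↥A, ∑ a' : ↥A', ∑ i, Rel PP A A' i a a' * gg PP i
      ≤ ∑ a : ↥A, ∑ a' : ↥A', L / y :=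
        Finset.sum_le_sum fun a _ => Finset.sum_le_sum fun a' _ => e2 a a'
    _ = (A.card : ℝ) * A'.card * (L / y) := by
        rw [Finset.sum_const, Finset.sum_const, Finset.card_univ, Finset.card_univ, nsmul_eq_mul,
          nsmul_eq_mul, Fintype.card_coe, Fintype.card_coe]
        ring

lemma sum_sq_le {PP : Finset ℕ} {L : ℝ} (hL : 1000 ≤ L) (hPy : ∀ i, L ^ 10 < pp PP i)
    (hG : ∑ i, gg PP i ≤ L) : ∑ i, (gg PP i) ^ 2 ≤ 1 / L ^ 9 := by
  have hL0 : 0 < L := by linarith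
  have hgy : ∀ i, gg PP i ≤ 1 / L ^ 10 := fun i =>
    one_div_le_one_div_of_le (by positivity) (hPy i).le
  calc ∑ i, (gg PP i) ^ 2 ≤ ∑ i, 1 / L ^ 10 * gg PP i := by
        refine Finset.sum_le_sum fun i _ => ?_
        rw [sq]
        exact mul_le_mul_of_nonneg_right (hgy i) (gg_nonneg PP i)
    _ = 1 / L ^ 10 * ∑ i, gg PP i := by rw [Finset.mul_sum]
    _ ≤ 1 / L ^ 10 * L := mul_le_mul_of_nonneg_left hG (by positivity)
    _ = 1 / L ^ 9 := by field_simp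

theorem engine : ∃ c₅ C₆ : ℝ, 0 < c₅ ∧ 1 ≤ C₆ ∧ ∀ c : ℝ, 0 < c → c ≤ 1 → ∃ L₀ : ℝ,
    ∀ L : ℝ, L₀ ≤ L → ∀ m : ℕ, 2 ^ m * (C₆ * (Real.log L) ^ 2) ≤ L →
    ∀ {ι : Type} (Ω : Finset ι) (A : ι → Finset ℤ) (𝒜 𝒢 : Finset ℤ) (N : ℝ),
    Real.exp (L / 2) ≤ N → 𝒢 ⊆ 𝒜 → c * N ≤ (𝒢.card : ℝ) →
    (∀ ω ∈ Ω, ((A ω).card : ℝ) ≤ c₅ * (m + 1) * L / Real.log L) →
    (∀ ω ∈ Ω, ∀ a ∈ A ω, ∀ b ∈ A ω, |((a - b : ℤ) : ℝ)| ≤ L ^ 10) →
    (∀ ω ∈ Ω, ∀ ω' ∈ Ω, ω ≠ ω' → ∀ a ∈ A ω, ∀ b ∈ A ω', a ≠ b ∧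
      |((a - b : ℤ) : ℝ)| ≤ Real.exp L) →
    (∀ q : ℕ, Squarefree q → (q : ℝ) ≤ Real.exp (L / 4) →
      (∀ p ∈ q.primeFactors, L ^ 10 < (p : ℝ)) →
      ∀ r : ℤ, |((𝒜.filter (fun x => (q : ℤ) ∣ x - r)).card : ℝ) - N / q| ≤ Real.exp (L / 10)) →
    Real.exp (C₆ * ((Real.log L) ^ 2 * 2 ^ m)) ≤ (Ω.card : ℝ) →
    c / 4 * N ≤ ((𝒢.filter (fun x => ∃ ω ∈ Ω, ∀ a ∈ A ω, ∃ p : ℕ, p.Prime ∧ L ^ 10 < (p : ℝ) ∧
      (p : ℝ) ≤ Real.exp (L / 10) ∧ (p : ℤ) ∣ x + a)).card : ℝ) := by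
  obtain ⟨c₅, C₆, CM, hc5, hc51, hC6, hCM, hpar⟩ := params
  refine ⟨c₅, C₆ + 800, hc5, by linarith, ?_⟩
  intro c hc0 hc1
  obtain ⟨ε, hε⟩ : ∃ ε : ℝ, ε = c ^ 2 / 1000 := ⟨_, rfl⟩
  have hε0 : 0 < ε := by rw [hε]; positivity
  obtain ⟨L₀, hL₀⟩ := n_facts CM ε
  refine ⟨L₀, ?_⟩
  intro L hL m hm ι Ω A 𝒜 𝒢 N hN hsub hG hAc hAd hAA hcount hΩ
  obtain ⟨f1, f2, f3, f4, f5⟩ := hL₀ L hL
  have hpar := hpar L f1 f2 m
  generalize hl : Real.log L = l at *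
  have hl0 : 0 < l := by linarith
  have hLpos : 0 < L := by linarith
  have hLexp : L = Real.exp l := by rw [← hl]; exact (Real.exp_log hLpos).symm
  have h2m : (1:ℝ) ≤ 2 ^ m := one_le_pow₀ (by norm_num)
  have h2m0 : (0:ℝ) < 2 ^ m := by positivity
  have hm' : 2 ^ m * (C₆ * l ^ 2) ≤ L := by
    refine le_trans ?_ hm
    gcongr
    linarith
  obtain ⟨PP, h, hPP, K, hmm, P, T1, T2, hG1, hn1, hPy, hUL⟩ := hpar hm'
  have hG2 : ∑ i, gg PP i ≤ 2 * l := by linarith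
  have hzJ0 : (2 * ⌈12 * l⌉₊ : ℕ) * (L / (1000 * l)) ≤ L / 40 := by
    have h1 := Nat.ceil_lt_add_one (show 0 ≤ 12 * l by positivity)
    have h2 : ((2 * ⌈12 * l⌉₊ : ℕ) : ℝ) ≤ 25 * l := by push_cast; linarith
    calc ((2 * ⌈12 * l⌉₊ : ℕ) : ℝ) * (L / (1000 * l)) ≤ (25 * l) * (L / (1000 * l)) :=
          mul_le_mul_of_nonneg_right h2 (by positivity)
      _ = L / 40 := by field_simp; norm_num
  have hJ1 : 24 * l ≤ ((2 * ⌈12 * l⌉₊ : ℕ) : ℝ) := by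
    have := Nat.le_ceil (12 * l)
    push_cast; linarith
  have hj1 : ((⌈l * 2 ^ m + 5 * l⌉₊ : ℕ) : ℝ) ≤ 7 * (l * 2 ^ m) := by
    have h1 := Nat.ceil_lt_add_one (show 0 ≤ l * 2 ^ m + 5 * l by positivity)
    have h3 : l * 1 ≤ l * 2 ^ m := mul_le_mul_of_nonneg_left h2m hl0.le
    linarith
  have hT1 : Real.exp (2 * (c₅ * (m + 1) * L / l) * K / Real.log (Real.exp (L / (1000 * l))) -
        Real.log (Real.exp (L / 40) / Real.exp (L / (1000 * l))) /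
          Real.log (Real.exp (L / (1000 * l)))) +
        Real.exp (2 * (c₅ * (m + 1) * L / l) * hmm - (⌈l * 2 ^ m + 5 * l⌉₊ : ℝ)) ≤ 2 / L ^ 5 := by
    have e1 := Real.exp_le_exp.mpr T1
    have e2 := Real.exp_le_exp.mpr T2
    have g5 : Real.exp (-(5 * l)) = 1 / L ^ 5 := by
      rw [Real.exp_neg, hLexp, ← Real.exp_nat_mul]
      push_cast
      rw [one_div]
    rw [g5] at e1 e2
    have : (2:ℝ) / L ^ 5 = 1 / L ^ 5 + 1 / L ^ 5 := by ring
    rw [this]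
    exact add_le_add e1 e2
  generalize hz : Real.exp (L / (1000 * l)) = z at *
  generalize hJ : 2 * ⌈12 * l⌉₊ = J at *
  generalize hj : ⌈l * 2 ^ m + 5 * l⌉₊ = j at *
  generalize hU : c₅ * (m + 1) * L / l = U at *
  generalize hQ : Real.exp (L / 40) = Q at *
  have hU0 : 0 ≤ U := P.U0
  have hNpos : 0 < N := lt_of_lt_of_le (Real.exp_pos _) hN
  have g1 : 1 / L ≤ ε / 1000 := by
    rw [div_le_div_iff₀ hLpos (by norm_num)]
    rw [div_le_iff₀ hε0] at f3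
    linarith
  have hQ2 : Q ^ 2 = Real.exp (L / 20) := by
    rw [← hQ, ← Real.exp_nat_mul]; congr 1; push_cast; ring
  have hQ4 : Q ^ 4 = Real.exp (L / 10) := by
    rw [← hQ, ← Real.exp_nat_mul]; congr 1; push_cast; ring
  have hQ8 : Q ^ 8 = Real.exp (L / 5) := by
    rw [← hQ, ← Real.exp_nat_mul]; congr 1; push_cast; ring
  have hz0 : 0 < z := by rw [← hz]; exact Real.exp_pos _
  have hzJ : z ^ J ≤ Real.exp (L / 40) := by
    rw [← hz, ← Real.exp_nat_mul]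
    exact Real.exp_le_exp.mpr hzJ0
  have hUL' : U ≤ Real.exp (L / 100) := hUL.trans f4
  have k9 : (9 : ℝ) ≤ Real.exp (L / 100) := by linarith
  have k81 : (81 : ℝ) ≤ Real.exp (L / 100) := by linarith
  -- the equidistribution
  have hErr0 : 0 ≤ Real.exp (L / 10) := (Real.exp_pos _).le
  have hE : Equi PP 𝒜 N (Real.exp (L / 10)) (Real.exp (L / 4)) := by
    intro q hq hqL hqp r
    exact hcount q hq hqL (fun p hp => (hPP p (hqp p hp)).2.1) r
  have hcard : (𝒜.card : ℝ) ≤ (1 + ε) * N := by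
    have h1 := hcount 1 squarefree_one (by
      push_cast
      exact Real.one_le_exp (by positivity)) (by simp) 0
    have h2 : (𝒜.filter (fun x => ((1:ℕ) : ℤ) ∣ x - 0)) = 𝒜 := by
      apply Finset.filter_true_of_mem
      intro x _
      simp
    rw [h2] at h1
    have h3 := (abs_le.mp h1).2
    have h4 : Real.exp (L / 10) ≤ 1 / L * N :=
      n_small f5 hN f4 (t := 1 / 10) (Real.exp_le_exp.mpr (by linarith)) (by norm_num)
    have h5 : 1 / L * N ≤ ε / 1000 * N := mul_le_mul_of_nonneg_right g1 hNpos.le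
    rw [Nat.cast_one, div_one] at h3
    have h6 : 0 < ε * N := by positivity
    linarith
  have hSep : ∀ ω ∈ Ω, Sep PP (A ω) := by
    intro ω hω p hp a ha b hb hab hd
    have h1 := hAd ω hω a ha b hb
    have h2 := (hPP p hp).2.1
    have h3 : (p : ℤ) ≤ |a - b| :=
      Int.le_of_dvd (abs_pos.2 (sub_ne_zero.2 hab)) ((dvd_abs _ _).2 hd)
    have h4 : (p : ℝ) ≤ |((a - b : ℤ) : ℝ)| := by
      rw [← Int.cast_abs]
      exact_mod_cast h3
    exact absurd (h4.trans h1) (not_le.2 h2)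
  have hy3 : (3:ℝ) ≤ L ^ 10 := by
    have : L ≤ L ^ 10 := le_self_pow₀ (by linarith) (by norm_num)
    linarith
  have hw0 : ∀ ω ∈ Ω, ∀ x, 0 ≤ wgt PP h Q j (A ω) x := by
    intro ω _ x
    unfold wgt
    exact div_nonneg (sq_nonneg _) (zero_le_one.trans (Zs_ge_one P.H))
  have hn0 : (0:ℝ) ≤ (PP.card : ℝ) + 1 := add_nonneg (Nat.cast_nonneg _) zero_le_one
  have hnJ : ((PP.card : ℝ) + 1) ^ J ≤ Real.exp (L / 40) :=
    (pow_le_pow_left₀ hn0 hn1 J).trans hzJ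
  have q10 : Real.exp (L / 10) ≤ Real.exp (L / 4) := Real.exp_le_exp.mpr (by linarith)
  have q20 : Real.exp (L / 20) ≤ Real.exp (L / 4) := Real.exp_le_exp.mpr (by linarith)
  have hEr1 : Real.exp (L / 10) * (9 * Q ^ 4) ≤ 1 / L * N := by
    refine n_small f5 hN f4 (t := 21 / 100) ?_ (by norm_num)
    rw [hQ4]
    calc Real.exp (L / 10) * (9 * Real.exp (L / 10))
        ≤ Real.exp (L / 10) * (Real.exp (L / 100) * Real.exp (L / 10)) := by gcongr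
      _ = Real.exp (21 / 100 * L) := by
          rw [← Real.exp_add, ← Real.exp_add]; congr 1; ring
  have hEr2' : ∀ Y : ℝ, 0 ≤ Y → Y ≤ Real.exp (L / 40) →
      Real.exp (L / 10) * (9 * Q ^ 4 * (U * Y)) ≤ 1 / L * N := by
    intro Y hY0 hY
    refine n_small f5 hN f4 (t := 49 / 200) ?_ (by norm_num)
    rw [hQ4]
    calc Real.exp (L / 10) * (9 * Real.exp (L / 10) * (U * Y))
        ≤ Real.exp (L / 10) * (Real.exp (L / 100) * Real.exp (L / 10) *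
          (Real.exp (L / 100) * Real.exp (L / 40))) := by gcongr
      _ = Real.exp (49 / 200 * L) := by
          rw [← Real.exp_add, ← Real.exp_add, ← Real.exp_add, ← Real.exp_add]; congr 1; ring
  have hEr2 : Real.exp (L / 10) * (9 * Q ^ 4 * (U * ((PP.card : ℝ) + 1) ^ J)) ≤ 1 / L * N :=
    hEr2' _ (pow_nonneg hn0 _) hnJ
  have hEr3 : Real.exp (L / 10) * (81 * Q ^ 8) ≤ 1 / L * N := by
    refine n_small f5 hN f4 (t := 31 / 100) ?_ (by norm_num)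
    rw [hQ8]
    calc Real.exp (L / 10) * (81 * Real.exp (L / 5))
        ≤ Real.exp (L / 10) * (Real.exp (L / 100) * Real.exp (L / 5)) := by gcongr
      _ = Real.exp (31 / 100 * L) := by
          rw [← Real.exp_add, ← Real.exp_add]; congr 1; ring
  have hS3 := n_S (G := ∑ i, gg PP i) hLexp hJ1 (by linarith)
  have hsq := sum_sq_le f5 hPy (hG2.trans (n_logL hLexp f1))
  have key := final_comb 𝒜 𝒢 hsub Ω (fun ω x => wgt PP h Q j (A ω) x)
    (fun ω x => unc PP J (A ω) x) N c ε (2 * Real.exp (742 * (l ^ 2 * 2 ^ m))) hc0 hc1 hε hNpos hw0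
    (fun ω _ x => P.unc_nonneg (A ω) x) hcard
    (fun ω hω => (n_e1 f5 hUL hT1 g1 hNpos hEr1).trans
      (P.E1 (hAc ω hω) (hSep ω hω) hNpos.le hErr0 hE (by rw [hQ2]; exact q20)))
    (fun ω hω => (P.E2 (hAc ω hω) (hSep ω hω) hNpos.le hErr0 hE (by
        calc Q ^ 2 * z ^ J ≤ Real.exp (L / 20) * Real.exp (L / 40) := by
              rw [hQ2]
              exact mul_le_mul_of_nonneg_left hzJ (Real.exp_pos _).le
          _ = Real.exp (3 * L / 40) := by rw [← Real.exp_add]; congr 1; ring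
          _ ≤ Real.exp (L / 4) := Real.exp_le_exp.mpr (by linarith))).trans
      (n_e2 f5 hU0 hUL (add_nonneg (Real.exp_pos _).le (Real.exp_pos _).le) hT1
        (mul_nonneg (pow_nonneg (by norm_num) _) (Real.exp_pos _).le) hS3 g1 hNpos hEr2))
    (fun ω hω ω' hω' hne => by
      have hρ := rel_sum P.hP hy3 hPy (A := A ω) (A' := A ω') (hAA ω hω ω' hω' hne)
      have hρ' : (((A ω).card : ℝ) * (A ω').card * (L / L ^ 10)) ≤ 1 / L ^ 7 := by
        have e1 : ((A ω).card : ℝ) * (A ω').card ≤ L * L :=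
          mul_le_mul ((hAc ω hω).trans hUL) ((hAc ω' hω').trans hUL) (Nat.cast_nonneg _) hLpos.le
        calc (((A ω).card : ℝ) * (A ω').card * (L / L ^ 10)) ≤ L * L * (L / L ^ 10) :=
              mul_le_mul_of_nonneg_right e1 (by positivity)
          _ = 1 / L ^ 7 := by field_simp
      exact (P.E3 (hAc ω hω) (hAc ω' hω') (hSep ω hω) (hSep ω' hω') (hρ.trans hρ') hNpos.le hErr0
        hE (by rw [hQ4]; exact q10)).trans
        (n_e3 f5 hU0 hUL (Finset.sum_nonneg fun i _ => sq_nonneg _) hsq rfl g1 hNpos hEr3))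
    (fun ω hω => (P.E4 (hAc ω hω) (hSep ω hω) hNpos.le hErr0 hE (by
        rw [hQ4]; exact q10)).trans
      (n_e4 hLexp f5 f1 hU0 hUL hG2 hj1 hNpos hEr3))
    (mul_nonneg zero_le_two (Real.exp_pos _).le)
    (n_R hLexp f1 hε0 h2m hC6 f3 hΩ)
    (by
      have h1 : (0:ℝ) < Ω.card := lt_of_lt_of_le (Real.exp_pos _) hΩ
      exact_mod_cast h1)
    hG
  refine key.trans ?_
  have hsub2 : (𝒢.filter (fun x => ∃ ω ∈ Ω, unc PP J (A ω) x < 1)) ⊆
      (𝒢.filter (fun x => ∃ ω ∈ Ω, ∀ a ∈ A ω, ∃ p : ℕ, p.Prime ∧ L ^ 10 < (p : ℝ) ∧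
      (p : ℝ) ≤ Real.exp (L / 10) ∧ (p : ℤ) ∣ x + a)) := by
    intro x hx
    rw [Finset.mem_filter] at hx ⊢
    refine ⟨hx.1, ?_⟩
    obtain ⟨ω, hω, hu⟩ := hx.2
    refine ⟨ω, hω, fun a ha => ?_⟩
    obtain ⟨p, hp, hpd⟩ := P.unc_small (hSep ω hω) hu a ha
    obtain ⟨h1, h2, h3⟩ := hPP p hp
    exact ⟨p, h1, h2, h3, hpd⟩
  exact_mod_cast Finset.card_le_card hsub2

end Run7.h294.G
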