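import Pool.Agent.Run7.h294.G12

set_option autoImplicit false
set_option linter.unusedSectionVars false

/-! # From blocks with a prime and a prime-free window to large gaps -/

namespace Run7.h294.G

open Finset

open scoped Classical

/-- indices of the primes up to `Z` followed by a gap larger than `lam` -/
noncomputable def gapIdx (lam Z : ℕ) : Finset ℕ :=
  (Finset.range (Z + 1)).filter (fun k => Nat.nth Nat.Prime k ≤ Z ∧
    Nat.nth Nat.Prime k + lam < Nat.nth Nat.Prime (k + 1))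

theorem count_gaps (X H lam : ℕ) (𝒩 : Finset ℕ) (h1 : ∀ n ∈ 𝒩, 2 ≤ n ∧ n ≤ X)
    (h2 : ∀ n ∈ 𝒩, ∃ q : ℕ, q.Prime ∧ n < q ∧ q ≤ n + H)
    (h3 : ∀ n ∈ 𝒩, ∃ ω : ℕ, ω + lam ≤ H ∧ ∀ t : ℕ, n + ω < t → t ≤ n + ω + lam → ¬ t.Prime) :
    𝒩.card ≤ 2 * H * (gapIdx lam (X + H)).card := by
  have hinf : (Set.ofPred Nat.Prime).Infinite := Nat.infinite_setOfPred_prime
  have hsub : 𝒩 ⊆ (gapIdx lam (X + H)).biUnion (fun k =>
      Finset.Ico (Nat.nth Nat.Prime k - H) (Nat.nth Nat.Prime k) ∪
      Finset.Ico (Nat.nth Nat.Prime (k + 1) - H) (Nat.nth Nat.Prime (k + 1))) := by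
    intro n hn
    obtain ⟨hn1, hn2⟩ := h1 n hn
    obtain ⟨q, hq, hq1, hq2⟩ := h2 n hn
    obtain ⟨ω, hω, hfree⟩ := h3 n hn
    set N₀ := n + ω with hN₀
    have hN2 : 2 ≤ N₀ := by omega
    have hcpos : 0 < Nat.count Nat.Prime (N₀ + 1) := by
      have : Nat.count Nat.Prime 2 < Nat.count Nat.Prime 3 :=
        Nat.count_strict_mono Nat.prime_two (by norm_num)
      have h3' : Nat.count Nat.Prime 3 ≤ Nat.count Nat.Prime (N₀ + 1) :=
        Nat.count_monotone _ (by omega)
      omega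
    set k := Nat.count Nat.Prime (N₀ + 1) - 1 with hk
    have hk1 : k + 1 = Nat.count Nat.Prime (N₀ + 1) := by omega
    have hp1 : Nat.nth Nat.Prime k < N₀ + 1 := Nat.nth_lt_of_lt_count (by omega)
    have hp2 : N₀ + 1 ≤ Nat.nth Nat.Prime (k + 1) := by
      rw [hk1]
      exact Nat.le_nth_count hinf _
    have hpp : (Nat.nth Nat.Prime (k + 1)).Prime := Nat.prime_nth_prime _
    have hp3 : N₀ + lam < Nat.nth Nat.Prime (k + 1) := by
      by_contra hc
      push Not at hc
      exact hfree _ (by omega) (by omega) hpp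
    have hgap : Nat.nth Nat.Prime k + lam < Nat.nth Nat.Prime (k + 1) := by omega
    have hkle : k ≤ Nat.nth Nat.Prime k := Nat.le_nth (fun hf => absurd hf hinf)
    have hmem : k ∈ gapIdx lam (X + H) := by
      unfold gapIdx
      rw [Finset.mem_filter, Finset.mem_range]
      refine ⟨by omega, by omega, hgap⟩
    rw [Finset.mem_biUnion]
    refine ⟨k, hmem, ?_⟩
    rw [Finset.mem_union, Finset.mem_Ico, Finset.mem_Ico]
    -- the prime of the block is `≤ p_k` or `≥ p_{k+1}`
    by_cases hcase : q ≤ N₀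
    · left
      have hqk : q ≤ Nat.nth Nat.Prime k := by
        have hlt : Nat.count Nat.Prime q < Nat.count Nat.Prime (N₀ + 1) :=
          Nat.count_strict_mono hq (by omega)
        have e1 : Nat.nth Nat.Prime (Nat.count Nat.Prime q) = q := Nat.nth_count hq
        rw [← e1]
        exact (Nat.nth_le_nth hinf).2 (by omega)
      omega
    · right
      push Not at hcase
      have hqk : Nat.nth Nat.Prime (k + 1) ≤ q := by
        have hle : Nat.count Nat.Prime (N₀ + 1) ≤ Nat.count Nat.Prime q :=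
          Nat.count_monotone _ (by omega)
        have e1 : Nat.nth Nat.Prime (Nat.count Nat.Prime q) = q := Nat.nth_count hq
        rw [← e1]
        exact (Nat.nth_le_nth hinf).2 (by omega)
      omega
  calc 𝒩.card ≤ _ := Finset.card_le_card hsub
    _ ≤ ∑ k ∈ gapIdx lam (X + H), (Finset.Ico (Nat.nth Nat.Prime k - H) (Nat.nth Nat.Prime k) ∪
      Finset.Ico (Nat.nth Nat.Prime (k + 1) - H) (Nat.nth Nat.Prime (k + 1))).card :=
        Finset.card_biUnion_le
    _ ≤ ∑ k ∈ gapIdx lam (X + H), 2 * H := by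
        refine Finset.sum_le_sum fun k _ => ?_
        refine (Finset.card_union_le _ _).trans ?_
        rw [Nat.card_Ico, Nat.card_Ico]
        omega
    _ = 2 * H * (gapIdx lam (X + H)).card := by
        rw [Finset.sum_const, smul_eq_mul, mul_comm]

/-- the integers of `(0, X]` in a class -/
noncomputable def cls (X W : ℕ) (b : ℤ) : Finset ℤ :=
  (Finset.Ioc (0 : ℤ) X).filter (fun x => (W : ℤ) ∣ x - b)

lemma class_count (X : ℕ) (M : ℕ) (hM : 1 ≤ M) (s : ℤ) :
    |((((Finset.Ioc (0 : ℤ) X).filter (fun x => (M : ℤ) ∣ x - s)).card : ℝ)) -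
      (X : ℝ) / M| ≤ 1 := by
  have hM0 : (0 : ℤ) < (M : ℤ) := by exact_mod_cast hM
  have h1 := Int.Ioc_filter_modEq_card (0 : ℤ) X hM0 s
  have h2 : ((Finset.Ioc (0 : ℤ) X).filter (fun x => x ≡ s [ZMOD M])) =
      ((Finset.Ioc (0 : ℤ) X).filter (fun x => (M : ℤ) ∣ x - s)) := by
    apply Finset.filter_congr
    intro x _
    rw [Int.modEq_comm, Int.modEq_iff_dvd]
  rw [h2] at h1
  set u : ℚ := (((X : ℤ) : ℚ) - (s : ℚ)) / ((M : ℤ) : ℚ) with hu
  set v : ℚ := (((0 : ℤ) : ℚ) - (s : ℚ)) / ((M : ℤ) : ℚ) with hv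
  have hMq : (0 : ℚ) < ((M : ℤ) : ℚ) := by exact_mod_cast hM
  have huv : u - v = (X : ℚ) / M := by
    rw [hu, hv]
    field_simp
    push_cast
    ring
  have h3 : (((((Finset.Ioc (0 : ℤ) X).filter (fun x => (M : ℤ) ∣ x - s)).card : ℤ)) : ℚ) =
      max ((⌊u⌋ : ℚ) - ⌊v⌋) 0 := by
    rw [h1]
    push_cast
    rfl
  have a1 := Int.floor_le u
  have a2 := Int.lt_floor_add_one u
  have a3 := Int.floor_le v
  have a4 := Int.lt_floor_add_one v
  have hXM : (0:ℚ) ≤ (X : ℚ) / M := by positivity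
  have h4 : |(((((Finset.Ioc (0 : ℤ) X).filter (fun x => (M : ℤ) ∣ x - s)).card : ℤ)) : ℚ) -
      (X : ℚ) / M| ≤ 1 := by
    rw [h3, abs_le]
    constructor
    · have := le_max_left ((⌊u⌋ : ℚ) - ⌊v⌋) 0
      linarith
    · have : max ((⌊u⌋ : ℚ) - ⌊v⌋) 0 ≤ (X : ℚ) / M + 1 := by
        apply max_le
        · linarith
        · linarith
      linarith
  have h5 : ((|(((((Finset.Ioc (0 : ℤ) X).filter
      (fun x => (M : ℤ) ∣ x - s)).card : ℤ)) : ℚ) - (X : ℚ) / M| : ℚ) : ℝ) ≤ ((1 : ℚ) : ℝ) := by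
    exact_mod_cast h4
  push_cast at h5
  exact h5

lemma class_equi (X W : ℕ) (hW : 1 ≤ W) (b : ℤ) (q : ℕ) (hq : 1 ≤ q) (hcop : W.Coprime q) (r : ℤ) :
    |(((cls X W b).filter (fun x => (q : ℤ) ∣ x - r)).card : ℝ) - (X : ℝ) / W / q| ≤ 1 := by
  have hc : IsCoprime (W : ℤ) (q : ℤ) := Nat.isCoprime_iff_coprime.mpr hcop
  obtain ⟨u, v, huv⟩ := hc
  -- `s = b v q + r u W`
  have key : ∀ x : ℤ, ((W : ℤ) ∣ x - b ∧ (q : ℤ) ∣ x - r) ↔
      (((W * q : ℕ) : ℤ) ∣ x - (b * (v * q) + r * (u * W))) := by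
    intro x
    have e1 : b - (b * (v * q) + r * (u * W)) = W * (b * u - r * u) := by
      have : b = b * (u * W + v * q) := by rw [huv, mul_one]
      calc b - (b * (v * q) + r * (u * W)) =
            b * (u * W + v * q) - (b * (v * q) + r * (u * W)) := by rw [← this]
        _ = W * (b * u - r * u) := by ring
    have e2 : r - (b * (v * q) + r * (u * W)) = q * (r * v - b * v) := by
      have : r = r * (u * W + v * q) := by rw [huv, mul_one]
      calc r - (b * (v * q) + r * (u * W)) =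
            r * (u * W + v * q) - (b * (v * q) + r * (u * W)) := by rw [← this]
        _ = q * (r * v - b * v) := by ring
    constructor
    · rintro ⟨h1, h2⟩
      push_cast
      apply IsCoprime.mul_dvd ⟨u, v, huv⟩
      · have : x - (b * (v * q) + r * (u * W)) = (x - b) + (b - (b * (v * q) + r * (u * W))) := by
          ring
        rw [this, e1]
        exact dvd_add h1 (Dvd.intro _ rfl)
      · have : x - (b * (v * q) + r * (u * W)) = (x - r) + (r - (b * (v * q) + r * (u * W))) := by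
          ring
        rw [this, e2]
        exact dvd_add h2 (Dvd.intro _ rfl)
    · intro h
      push_cast at h
      constructor
      · have : x - b = (x - (b * (v * q) + r * (u * W))) - (b - (b * (v * q) + r * (u * W))) := by
          ring
        rw [this, e1]
        exact dvd_sub ((Dvd.intro _ rfl).trans h) (Dvd.intro _ rfl)
      · have : x - r = (x - (b * (v * q) + r * (u * W))) - (r - (b * (v * q) + r * (u * W))) := by
          ring
        rw [this, e2]
        exact dvd_sub ((Dvd.intro_left _ rfl).trans h) (Dvd.intro _ rfl)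
  have h1 : (cls X W b).filter (fun x => (q : ℤ) ∣ x - r) =
      (Finset.Ioc (0 : ℤ) X).filter
        (fun x => ((W * q : ℕ) : ℤ) ∣ x - (b * (v * q) + r * (u * W))) := by
    unfold cls
    rw [Finset.filter_filter]
    apply Finset.filter_congr
    intro x _
    exact key x
  rw [h1]
  have h2 := class_count X (W * q) (Nat.mul_pos hW hq) (b * (v * q) + r * (u * W))
  have h3 : (X : ℝ) / W / q = (X : ℝ) / ((W * q : ℕ) : ℝ) := by
    push_cast
    rw [div_div]
  rw [h3]
  exact h2

end Run7.h294.G
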