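import Pool.Agent.Run7.h294.G13

set_option autoImplicit false
set_option linter.unusedSectionVars false

/-! # The engine in one residue class -/

namespace Run7.h294.G

open Finset

open scoped Classical

/-- the elements of the window `(ω, ω + lam]` which are not sieved out in the class `b` modulo `W` -/
noncomputable def surv (W lam : ℕ) (b : ℤ) (ω : ℕ) : Finset ℤ :=
  (Finset.Ioc (ω : ℤ) (ω + lam)).filter (fun a => IsCoprime (b + a) (W : ℤ))

/-- the block of `x` contains a prime -/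
def blockPrime (H : ℕ) (x : ℤ) : Prop := ∃ q : ℕ, q.Prime ∧ x < (q : ℤ) ∧ (q : ℤ) ≤ x + H

/-- the window of `x` at `ω` is free of primes -/
def free (lam : ℕ) (x : ℤ) (ω : ℕ) : Prop :=
  ∀ t : ℕ, x + ω < (t : ℤ) → (t : ℤ) ≤ x + ω + lam → ¬ t.Prime

lemma free_of {W lam ω : ℕ} (hW : 1 ≤ W) {b x : ℤ} (hx : (W : ℤ) ∣ x - b) (hWx : (W : ℤ) ≤ x)
    {P : ℝ} (hPx : P ≤ x)
    (h : ∀ a ∈ surv W lam b ω, ∃ p : ℕ, p.Prime ∧ (p : ℝ) ≤ P ∧ (p : ℤ) ∣ x + a) :
    free lam x ω := by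
  intro t ht1 ht2 htp
  set a : ℤ := t - x with ha
  have hxa : x + a = t := by rw [ha]; ring
  by_cases hc : IsCoprime (b + a) (W : ℤ)
  · have hmem : a ∈ surv W lam b ω := by
      unfold surv
      rw [Finset.mem_filter, Finset.mem_Ioc]
      exact ⟨⟨by omega, by omega⟩, hc⟩
    obtain ⟨p, hp, hpP, hpd⟩ := h a hmem
    rw [hxa] at hpd
    have hpt : p ∣ t := by exact_mod_cast hpd
    have hpe : p = t := (Nat.prime_dvd_prime_iff_eq hp htp).mp hpt
    have h1 : (p : ℝ) ≤ x := hpP.trans hPx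
    have h2 : (p : ℤ) ≤ x := by exact_mod_cast h1
    have h3 : (0 : ℤ) ≤ ω := Int.natCast_nonneg ω
    omega
  · rw [Int.isCoprime_iff_gcd_eq_one] at hc
    obtain ⟨p, hp, hpd⟩ := Nat.exists_prime_and_dvd hc
    have hp1 : (p : ℤ) ∣ b + a := (Int.natCast_dvd_natCast.2 hpd).trans (Int.gcd_dvd_left _ _)
    have hp2 : (p : ℤ) ∣ (W : ℤ) := (Int.natCast_dvd_natCast.2 hpd).trans (Int.gcd_dvd_right _ _)
    have hp3 : (p : ℤ) ∣ (t : ℤ) := by
      have e : (t : ℤ) = (x - b) + (b + a) := by rw [← hxa]; ring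
      rw [e]
      exact dvd_add (hp2.trans hx) hp1
    have hpt : p ∣ t := by exact_mod_cast hp3
    have hpe : p = t := (Nat.prime_dvd_prime_iff_eq hp htp).mp hpt
    have h4 : (p : ℤ) ≤ (W : ℤ) := Int.le_of_dvd (by exact_mod_cast hW) hp2
    have h3 : (0 : ℤ) ≤ ω := Int.natCast_nonneg ω
    omega

theorem class_step : ∃ c₅ C₆ : ℝ, 0 < c₅ ∧ 1 ≤ C₆ ∧ ∀ c : ℝ, 0 < c → c ≤ 1 → ∃ L₀ : ℝ,
    ∀ X : ℕ, L₀ ≤ Real.log X → ∀ m : ℕ,
    2 ^ m * (C₆ * (Real.log (Real.log X)) ^ 2) ≤ Real.log X →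
    ∀ (W H lam : ℕ) (b : ℤ) (Ω : Finset ℕ), 1 ≤ W → (W : ℝ) ≤ Real.exp (Real.log X / 4) →
    (∀ p : ℕ, p.Prime → p ∣ W → (p : ℝ) ≤ (Real.log X) ^ 10) →
    (lam : ℝ) ≤ (Real.log X) ^ 10 → (H : ℝ) ≤ Real.exp (Real.log X / 2) →
    (∀ ω ∈ Ω, ω + lam ≤ H) →
    (∀ ω ∈ Ω, ∀ ω' ∈ Ω, ω ≠ ω' → ω + lam ≤ ω' ∨ ω' + lam ≤ ω) →
    (∀ ω ∈ Ω, ((surv W lam b ω).card : ℝ) ≤
      c₅ * (m + 1) * Real.log X / Real.log (Real.log X)) →
    Real.exp (C₆ * ((Real.log (Real.log X)) ^ 2 * 2 ^ m)) ≤ (Ω.card : ℝ) →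
    c * (X / W) ≤ (((cls X W b).filter (fun x : ℤ => Real.exp (Real.log X / 2) < (x : ℝ) ∧
      blockPrime H x)).card : ℝ) →
    c / 4 * (X / W) ≤ (((cls X W b).filter (fun x : ℤ => (Real.exp (Real.log X / 2) < (x : ℝ) ∧
      blockPrime H x) ∧ ∃ ω ∈ Ω, free lam x ω)).card : ℝ) := by
  obtain ⟨c₅, C₆, hc5, hC6, heng⟩ := engine
  refine ⟨c₅, C₆, hc5, hC6, ?_⟩
  intro c hc0 hc1
  obtain ⟨L₀, hL₀⟩ := heng c hc0 hc1
  refine ⟨max L₀ 10, ?_⟩
  intro X hX m hm W H lam b Ω hW hWL hWp hlam hH hΩH hΩd hsurv hΩc hG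
  have hL10 : 10 ≤ Real.log X := (le_max_right _ _).trans hX
  have hXpos : (0:ℝ) < X := by
    by_contra hc
    have : (X : ℝ) = 0 := le_antisymm (not_lt.mp hc) (Nat.cast_nonneg _)
    rw [this, Real.log_zero] at hL10
    linarith
  have hXe : (X : ℝ) = Real.exp (Real.log X) := (Real.exp_log hXpos).symm
  have hWpos : (0:ℝ) < W := by exact_mod_cast hW
  have hN : Real.exp (Real.log X / 2) ≤ (X : ℝ) / W := by
    rw [le_div_iff₀ hWpos]
    calc Real.exp (Real.log X / 2) * W ≤ Real.exp (Real.log X / 2) * Real.exp (Real.log X / 4) :=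
          mul_le_mul_of_nonneg_left hWL (Real.exp_pos _).le
      _ = Real.exp (3 * Real.log X / 4) := by rw [← Real.exp_add]; congr 1; ring
      _ ≤ Real.exp (Real.log X) := Real.exp_le_exp.mpr (by linarith)
      _ = X := hXe.symm
  have key := hL₀ (Real.log X) ((le_max_left _ _).trans hX) m hm Ω (fun ω => surv W lam b ω)
    (cls X W b) ((cls X W b).filter (fun x : ℤ => Real.exp (Real.log X / 2) < (x : ℝ) ∧
      blockPrime H x)) ((X : ℝ) / W) hN (Finset.filter_subset _ _) hG hsurv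
    (by
      intro ω _ a ha a' ha'
      unfold surv at ha ha'
      rw [Finset.mem_filter, Finset.mem_Ioc] at ha ha'
      have h1 : |a - a'| ≤ (lam : ℤ) := by
        rw [abs_le]
        constructor <;> omega
      refine le_trans ?_ hlam
      rw [← Int.cast_abs]
      exact_mod_cast h1)
    (by
      intro ω hω ω' hω' hne a ha a' ha'
      unfold surv at ha ha'
      rw [Finset.mem_filter, Finset.mem_Ioc] at ha ha'
      have hd := hΩd ω hω ω' hω' hne
      have h1 := hΩH ω hω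
      have h2 := hΩH ω' hω'
      refine ⟨by omega, ?_⟩
      have h3 : |a - a'| ≤ (H : ℤ) := by
        rw [abs_le]
        constructor <;> omega
      have h4 : |((a - a' : ℤ) : ℝ)| ≤ (H : ℝ) := by
        rw [← Int.cast_abs]
        exact_mod_cast h3
      exact h4.trans (hH.trans (Real.exp_le_exp.mpr (by linarith))))
    (by
      intro q hq hqL hqp r
      have hq1 : 1 ≤ q := Nat.one_le_iff_ne_zero.2 hq.ne_zero
      have hcop : W.Coprime q := by
        rw [Nat.coprime_comm]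
        apply Nat.Coprime.symm
        apply Nat.coprime_of_dvd
        intro p hp hpW hpq
        have h1 := hWp p hp hpW
        have h2 := hqp p (Nat.mem_primeFactors.2 ⟨hp, hpq, hq.ne_zero⟩)
        linarith
      refine (class_equi X W hW b q hq1 hcop r).trans ?_
      exact Real.one_le_exp (by linarith))
    hΩc
  refine key.trans ?_
  have hsub : (((cls X W b).filter (fun x : ℤ => Real.exp (Real.log X / 2) < (x : ℝ) ∧
      blockPrime H x)).filter (fun x => ∃ ω ∈ Ω, ∀ a ∈ surv W lam b ω, ∃ p : ℕ, p.Prime ∧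
        (Real.log X) ^ 10 < (p : ℝ) ∧ (p : ℝ) ≤ Real.exp (Real.log X / 10) ∧ (p : ℤ) ∣ x + a)) ⊆
      ((cls X W b).filter (fun x : ℤ => (Real.exp (Real.log X / 2) < (x : ℝ) ∧
      blockPrime H x) ∧ ∃ ω ∈ Ω, free lam x ω)) := by
    intro x hx
    rw [Finset.mem_filter, Finset.mem_filter] at hx
    obtain ⟨⟨hx1, hx2⟩, ω, hω, hcov⟩ := hx
    rw [Finset.mem_filter]
    refine ⟨hx1, hx2, ω, hω, ?_⟩
    unfold cls at hx1
    rw [Finset.mem_filter] at hx1
    have hWx : (W : ℝ) ≤ x := by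
      have h1 : Real.exp (Real.log X / 4) ≤ Real.exp (Real.log X / 2) :=
        Real.exp_le_exp.mpr (by linarith)
      linarith [hx2.1]
    have hPx : Real.exp (Real.log X / 10) ≤ x := by
      have h1 : Real.exp (Real.log X / 10) ≤ Real.exp (Real.log X / 2) :=
        Real.exp_le_exp.mpr (by linarith)
      linarith [hx2.1]
    refine free_of hW hx1.2 (by exact_mod_cast hWx) hPx ?_
    intro a ha
    obtain ⟨p, hp, _, hpP, hpd⟩ := hcov a ha
    exact ⟨p, hp, hpP, hpd⟩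
  exact_mod_cast Finset.card_le_card hsub

end Run7.h294.G
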