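import Pool.Agent.Run7.h294.G14
import Pool.Agent.H357R2.SI.TwoSided

set_option autoImplicit false
set_option linter.unusedSectionVars false

/-! # Positive proportion of blocks with primes, and the splitting into residue classes -/

namespace Run7.h294.G

open Finset Filter

open scoped Classical

theorem pos_blocks : ∃ c₀ : ℝ, 0 < c₀ ∧ c₀ ≤ 1 ∧ ∃ X₀ : ℕ, ∀ X : ℕ, X₀ ≤ X → ∀ H : ℕ,
    8 * Real.log X ≤ H → (H : ℝ) ≤ Real.exp (Real.log X / 2) →
    c₀ * X ≤ (((Finset.Ioc (0 : ℤ) X).filter (fun x : ℤ => Real.exp (Real.log X / 2) < (x : ℝ) ∧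
      blockPrime H x)).card : ℝ) := by
  obtain ⟨c, hc, hev⟩ := Pool.Agent.H357R2.SI.lower_all_scales (1 / 2) (by norm_num) (by norm_num)
  obtain ⟨N₀, hN₀⟩ := hev.exists_forall_of_atTop
  -- `√X + 1 ≤ (c/2) X` for large `X`
  have hlim : ∀ᶠ X : ℕ in atTop, Real.exp (Real.log X / 2) + 1 ≤ c / 2 * X := by
    have h1 : ∀ᶠ X : ℕ in atTop, max (4 / c) 1 ≤ Real.exp (Real.log X / 2) := by
      have t1 : Tendsto (fun X : ℕ => Real.exp (Real.log X / 2)) atTop atTop :=
        Real.tendsto_exp_atTop.comp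
          ((Real.tendsto_log_atTop.comp tendsto_natCast_atTop_atTop).atTop_div_const (by norm_num))
      exact t1.eventually_ge_atTop _
    filter_upwards [h1, eventually_ge_atTop 1] with X hX hX1
    have hXp : (0:ℝ) < X := by exact_mod_cast hX1
    have e1 : (X : ℝ) = Real.exp (Real.log X / 2) * Real.exp (Real.log X / 2) := by
      rw [← Real.exp_add, add_halves, Real.exp_log hXp]
    have e2 : 4 / c ≤ Real.exp (Real.log X / 2) := (le_max_left _ _).trans hX
    have e3 : 1 ≤ Real.exp (Real.log X / 2) := (le_max_right _ _).trans hX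
    have e4 : 4 / c * Real.exp (Real.log X / 2) ≤ X := by
      calc 4 / c * Real.exp (Real.log X / 2) ≤
            Real.exp (Real.log X / 2) * Real.exp (Real.log X / 2) :=
            mul_le_mul_of_nonneg_right e2 (Real.exp_pos _).le
        _ = X := e1.symm
    have e5 : c / 2 * (4 / c * Real.exp (Real.log X / 2)) ≤ c / 2 * X :=
      mul_le_mul_of_nonneg_left e4 (by positivity)
    have e6 : c / 2 * (4 / c * Real.exp (Real.log X / 2)) = 2 * Real.exp (Real.log X / 2) := by
      field_simp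
      ring
    linarith
  obtain ⟨N₁, hN₁⟩ := hlim.exists_forall_of_atTop
  refine ⟨min (c / 2) 1, lt_min (by positivity) one_pos, min_le_right _ _, max (max N₀ N₁) 3, ?_⟩
  intro X hX H hH1 hH2
  have hX0 : N₀ ≤ X := (le_max_left _ _).trans ((le_max_left _ _).trans hX)
  have hX1 : N₁ ≤ X := (le_max_right _ _).trans ((le_max_left _ _).trans hX)
  have hX3 : 3 ≤ X := (le_max_right _ _).trans hX
  have hXp : (0:ℝ) < X := by
    have : 0 < X := by omega
    exact_mod_cast this
  have h1 := hN₀ (X + 1) (by omega)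
  have h2 := hN₁ X hX1
  set E := Real.exp (Real.log X / 2) with hE
  set S := (Pool.Agent.H357R2.SI.lowc (1 / 2) (4 / (1 / 2)) (X + 1)) with hS
  have hcardS : c * ((X : ℝ) + 1) ≤ (S.card : ℝ) := by
    have := h1
    push_cast at this
    exact this
  -- remove the small elements
  set S' := S.filter (fun m : ℕ => E < (m : ℝ)) with hS'
  have hrem : (S.card : ℝ) ≤ (S'.card : ℝ) + (E + 1) := by
    have e1 : S.card = S'.card + (S.filter (fun m : ℕ => ¬ E < (m : ℝ))).card :=
      (Finset.card_filter_add_card_filter_not _).symm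
    have e2 : (S.filter (fun m : ℕ => ¬ E < (m : ℝ))) ⊆ Finset.range (⌊E⌋₊ + 1) := by
      intro m hm
      rw [Finset.mem_filter] at hm
      rw [Finset.mem_range]
      have := Nat.le_floor (not_lt.mp hm.2)
      omega
    have e3 := Finset.card_le_card e2
    rw [Finset.card_range] at e3
    have e4 : ((⌊E⌋₊ + 1 : ℕ) : ℝ) ≤ E + 1 := by
      push_cast
      have := Nat.floor_le (Real.exp_pos (Real.log X / 2)).le
      rw [← hE] at this
      linarith
    have e5 : ((S.filter (fun m : ℕ => ¬ E < (m : ℝ))).card : ℝ) ≤ ((⌊E⌋₊ + 1 : ℕ) : ℝ) := by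
      exact_mod_cast e3
    rw [e1]
    push_cast
    push_cast at e5 e4
    linarith
  have himg : S'.image (fun m : ℕ => (m : ℤ)) ⊆
      ((Finset.Ioc (0 : ℤ) X).filter (fun x : ℤ => E < (x : ℝ) ∧ blockPrime H x)) := by
    intro x hx
    rw [Finset.mem_image] at hx
    obtain ⟨m, hm, rfl⟩ := hx
    rw [hS', Finset.mem_filter] at hm
    obtain ⟨hmS, hmE⟩ := hm
    rw [hS] at hmS
    unfold Pool.Agent.H357R2.SI.lowc at hmS
    rw [Finset.mem_filter, Finset.mem_range] at hmS
    obtain ⟨hmX, hmH⟩ := hmS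
    have hE1 : 1 ≤ E := by
      rw [hE]
      apply Real.one_le_exp
      have : 0 ≤ Real.log X := Real.log_nonneg (by
        have : 1 ≤ X := by omega
        exact_mod_cast this)
      linarith
    have hm1 : (1:ℝ) < m := by linarith
    have hm0 : 0 < m := by
      have : (0:ℝ) < m := by linarith
      exact_mod_cast this
    have hlogm : 0 < Real.log m := Real.log_pos hm1
    have hlogmX : Real.log m ≤ Real.log X := by
      apply Real.log_le_log (by linarith)
      have : m ≤ X := by omega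
      exact_mod_cast this
    rw [Finset.mem_filter, Finset.mem_Ioc]
    refine ⟨⟨by omega, by omega⟩, by exact_mod_cast hmE, ?_⟩
    have h3 := hmH (H : ℝ) (by
      norm_num
      linarith) (by linarith)
    rw [Pool.Agent.H357R2.SI.piS_nat m (H : ℝ) (Nat.cast_nonneg _), Nat.floor_natCast] at h3
    have hHpos : (0:ℝ) < H := by linarith
    have h4 : 0 < Pool.Agent.H357R2.SI.pc m (m + H) := by
      have : (0:ℝ) < (1 - 1 / 2) * (H : ℝ) / Real.log m := by
        apply div_pos _ hlogm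
        linarith
      have h5 : (0:ℝ) < (Pool.Agent.H357R2.SI.pc m (m + H) : ℝ) := lt_of_lt_of_le this h3
      exact_mod_cast h5
    unfold Pool.Agent.H357R2.SI.pc at h4
    rw [Finset.card_pos] at h4
    obtain ⟨q, hq⟩ := h4
    rw [Finset.mem_filter, Finset.mem_Ioc] at hq
    exact ⟨q, hq.2, by omega, by omega⟩
  have hinj : (S'.image (fun m : ℕ => (m : ℤ))).card = S'.card :=
    Finset.card_image_of_injective _ (fun a b h => by exact_mod_cast h)
  have h5 := Finset.card_le_card himg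
  rw [hinj] at h5
  have h6 : (S'.card : ℝ) ≤ (((Finset.Ioc (0 : ℤ) X).filter
      (fun x : ℤ => E < (x : ℝ) ∧ blockPrime H x)).card : ℝ) := by exact_mod_cast h5
  have h7 : min (c / 2) 1 * (X : ℝ) ≤ c / 2 * X := mul_le_mul_of_nonneg_right (min_le_left _ _) hXp.le
  nlinarith

lemma split_classes (X W : ℕ) (hW : 1 ≤ W) (P : ℤ → Prop) [DecidablePred P] :
    ∑ b ∈ Finset.range W, ((cls X W (b : ℤ)).filter P).card =
      ((Finset.Ioc (0 : ℤ) X).filter P).card := by
  have hW0 : (0 : ℤ) < W := by exact_mod_cast hW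
  rw [Finset.card_eq_sum_card_fiberwise (f := fun x : ℤ => (x % (W : ℤ)).toNat)
    (t := Finset.range W)]
  · refine Finset.sum_congr rfl fun b hb => ?_
    rw [Finset.mem_range] at hb
    congr 1
    unfold cls
    ext x
    simp only [Finset.mem_filter]
    constructor
    · rintro ⟨⟨h1, h2⟩, h3⟩
      refine ⟨⟨h1, h3⟩, ?_⟩
      have e1 : x % (W : ℤ) = (b : ℤ) % (W : ℤ) := by
        rw [← Int.ModEq]
        exact (Int.modEq_iff_dvd.2 (by
          have := (dvd_neg (a := (W : ℤ)) (b := x - b)).2 h2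
          rwa [neg_sub] at this))
      rw [e1, Int.emod_eq_of_lt (by omega) (by exact_mod_cast hb)]
      simp
    · rintro ⟨⟨h1, h3⟩, h2⟩
      refine ⟨⟨h1, ?_⟩, h3⟩
      have h4 : 0 ≤ x % (W : ℤ) := Int.emod_nonneg _ hW0.ne'
      have h5 : x % (W : ℤ) = b := by omega
      rw [← h5]
      exact Int.dvd_self_sub_emod
  · intro x hx
    rw [Finset.coe_range, Set.mem_Iio]
    have h4 : 0 ≤ x % (W : ℤ) := Int.emod_nonneg _ hW0.ne'
    have h5 : x % (W : ℤ) < W := Int.emod_lt_of_pos _ hW0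
    show (x % (W : ℤ)).toNat < W
    omega

/-- passage from the classes to all integers -/
lemma sum_classes (X W : ℕ) (hW : 1 ≤ W) (hWX : W ≤ X) (c₀ : ℝ) (hc₀ : 0 < c₀) (P Q : ℤ → Prop)
    [DecidablePred P] [DecidablePred Q]
    (hP : c₀ * X ≤ (((Finset.Ioc (0 : ℤ) X).filter P).card : ℝ))
    (hstep : ∀ b ∈ Finset.range W, c₀ / 2 * (X / W) ≤ (((cls X W (b : ℤ)).filter P).card : ℝ) →
      c₀ / 2 / 4 * (X / W) ≤ (((cls X W (b : ℤ)).filter Q).card : ℝ)) :
    c₀ ^ 2 / 32 * X ≤ (((Finset.Ioc (0 : ℤ) X).filter Q).card : ℝ) := by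
  have hW0 : (0:ℝ) < W := by exact_mod_cast hW
  have hX0 : (0:ℝ) ≤ X := Nat.cast_nonneg _
  have hXW : (1:ℝ) ≤ X / W := by
    rw [le_div_iff₀ hW0, one_mul]
    exact_mod_cast hWX
  have h1 : ∀ b ∈ Finset.range W, c₀ / 16 * ((((cls X W (b : ℤ)).filter P).card : ℝ) -
      c₀ / 2 * (X / W)) ≤ (((cls X W (b : ℤ)).filter Q).card : ℝ) := by
    intro b hb
    by_cases hh : c₀ / 2 * (X / W) ≤ (((cls X W (b : ℤ)).filter P).card : ℝ)
    · refine le_trans ?_ (hstep b hb hh)
      have h2 : (((cls X W (b : ℤ)).filter P).card : ℝ) ≤ 2 * (X / W) := by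
        have e1 : (((cls X W (b : ℤ)).filter P).card : ℝ) ≤ ((cls X W (b : ℤ)).card : ℝ) := by
          exact_mod_cast Finset.card_le_card (Finset.filter_subset _ _)
        have e2 := (abs_le.mp (class_count X W hW (b : ℤ))).2
        unfold cls at e1 ⊢
        linarith
      have h3 : 0 ≤ c₀ / 2 * ((X : ℝ) / W) := by positivity
      have h4 : c₀ / 16 * ((((cls X W (b : ℤ)).filter P).card : ℝ) - c₀ / 2 * (X / W)) ≤
          c₀ / 16 * (2 * (X / W)) := mul_le_mul_of_nonneg_left (by linarith) (by positivity)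
      have h5 : c₀ / 16 * (2 * ((X : ℝ) / W)) = c₀ / 2 / 4 * (X / W) := by ring
      linarith
    · push Not at hh
      have h2 : c₀ / 16 * ((((cls X W (b : ℤ)).filter P).card : ℝ) - c₀ / 2 * (X / W)) ≤ 0 :=
        mul_nonpos_of_nonneg_of_nonpos (by positivity) (by linarith)
      exact h2.trans (Nat.cast_nonneg _)
  have h2 := Finset.sum_le_sum h1
  rw [← Finset.mul_sum, Finset.sum_sub_distrib, Finset.sum_const, Finset.card_range,
    nsmul_eq_mul] at h2
  have h3 : (∑ b ∈ Finset.range W, (((cls X W (b : ℤ)).filter P).card : ℝ)) =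
      (((Finset.Ioc (0 : ℤ) X).filter P).card : ℝ) := by
    rw [← split_classes X W hW P]
    push_cast
    rfl
  have h4 : (∑ b ∈ Finset.range W, (((cls X W (b : ℤ)).filter Q).card : ℝ)) =
      (((Finset.Ioc (0 : ℤ) X).filter Q).card : ℝ) := by
    rw [← split_classes X W hW Q]
    push_cast
    rfl
  rw [h3, h4] at h2
  have h5 : (W : ℝ) * (c₀ / 2 * (X / W)) = c₀ / 2 * X := by field_simp
  rw [h5] at h2
  have h6 : c₀ / 16 * (c₀ / 2 * X) ≤ c₀ / 16 * ((((Finset.Ioc (0 : ℤ) X).filter P).card : ℝ) -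
      c₀ / 2 * X) := mul_le_mul_of_nonneg_left (by linarith) (by positivity)
  have h7 : c₀ / 16 * (c₀ / 2 * (X : ℝ)) = c₀ ^ 2 / 32 * X := by ring
  linarith

/-- from the integers with a prime in the block and a free window to the gaps -/
lemma gaps_of (X H lam : ℕ) (Ω : Finset ℕ) (hΩ : ∀ ω ∈ Ω, ω + lam ≤ H) {E : ℝ} (hE : 1 ≤ E) :
    (((Finset.Ioc (0 : ℤ) X).filter (fun x : ℤ => (E < (x : ℝ) ∧ blockPrime H x) ∧
      ∃ ω ∈ Ω, free lam x ω)).card : ℝ) ≤ 2 * H * ((gapIdx lam (X + H)).card : ℝ) := by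
  set T := ((Finset.Ioc (0 : ℤ) X).filter (fun x : ℤ => (E < (x : ℝ) ∧ blockPrime H x) ∧
      ∃ ω ∈ Ω, free lam x ω)) with hT
  have hpos : ∀ x ∈ T, 2 ≤ x ∧ x ≤ X := by
    intro x hx
    rw [hT, Finset.mem_filter, Finset.mem_Ioc] at hx
    have h1 : (1:ℝ) < x := lt_of_le_of_lt hE hx.2.1.1
    have h2 : (1:ℤ) < x := by exact_mod_cast h1
    exact ⟨by omega, hx.1.2⟩
  have hcard : (T.image Int.toNat).card = T.card := by
    apply Finset.card_image_of_injOn
    intro x hx y hy hxy
    have h1 := (hpos x hx).1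
    have h2 := (hpos y hy).1
    have h3 : x.toNat = y.toNat := hxy
    omega
  have h := count_gaps X H lam (T.image Int.toNat) (by
      intro n hn
      rw [Finset.mem_image] at hn
      obtain ⟨x, hx, rfl⟩ := hn
      have := hpos x hx
      omega) (by
      intro n hn
      rw [Finset.mem_image] at hn
      obtain ⟨x, hx, rfl⟩ := hn
      have h0 := hpos x hx
      rw [hT, Finset.mem_filter] at hx
      obtain ⟨q, hq, hq1, hq2⟩ := hx.2.1.2
      exact ⟨q, hq, by omega, by omega⟩) (by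
      intro n hn
      rw [Finset.mem_image] at hn
      obtain ⟨x, hx, rfl⟩ := hn
      have h0 := hpos x hx
      rw [hT, Finset.mem_filter] at hx
      obtain ⟨ω, hω, hfree⟩ := hx.2.2
      refine ⟨ω, hΩ ω hω, fun t ht1 ht2 => hfree t (by omega) (by omega)⟩)
  rw [hcard] at h
  exact_mod_cast h

end Run7.h294.G
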