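import Pool.Agent.Run7.h294.G15
import Pool.Agent.Helper602.MK.J2

set_option autoImplicit false
set_option linter.unusedSectionVars false

/-! # Gaps of length `μ log X`, `μ ≤ c log log X` -/

namespace Run7.h294.G

open Finset Filter

open scoped Classical

lemma prime_dvd_primorial {p y : ℕ} (hp : p.Prime) (h : p ∣ primorial y) : p ≤ y := by
  unfold primorial at h
  rw [Prime.dvd_finsetProd_iff hp.prime] at h
  obtain ⟨q, hq, hpq⟩ := h
  rw [Finset.mem_filter, Finset.mem_range] at hq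
  have := (Nat.prime_dvd_prime_iff_eq hp hq.2).mp hpq
  omega

lemma prime_dvd_primorial' {p y : ℕ} (hp : p.Prime) (h : p ≤ y) : p ∣ primorial y := by
  unfold primorial
  exact Finset.dvd_prod_of_mem (fun p => p)
    (Finset.mem_filter.2 ⟨Finset.mem_range.2 (by omega), hp⟩)

theorem surv_bound : ∃ C : ℝ, 1 ≤ C ∧ ∀ y : ℕ, 2 ≤ y → ∀ lam b ω : ℕ, y ≤ lam →
    ((surv (primorial y) lam (b : ℤ) ω).card : ℝ) ≤ C * lam / Real.log y := by
  obtain ⟨C, hC1, hC⟩ := Pool.Agent.Helper602.MK.N_J2.J2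
  refine ⟨C, hC1, ?_⟩
  intro y hy lam b ω hlam
  refine le_trans ?_ (hC y hy (b + ω) lam hlam)
  have hinj : ((surv (primorial y) lam (b : ℤ) ω).image (fun a : ℤ => ((b : ℤ) + a).toNat)).card =
      (surv (primorial y) lam (b : ℤ) ω).card := by
    apply Finset.card_image_of_injOn
    intro a ha a' ha' h
    unfold surv at ha ha'
    rw [Finset.mem_coe, Finset.mem_filter, Finset.mem_Ioc] at ha ha'
    simp only at h
    omega
  rw [← hinj]
  have hsub : ((surv (primorial y) lam (b : ℤ) ω).image (fun a : ℤ => ((b : ℤ) + a).toNat)) ⊆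
      (Pool.Agent.Helper602.MK.rgh y (b + ω + lam)).filter (fun m => b + ω < m) := by
    intro m hm
    rw [Finset.mem_image] at hm
    obtain ⟨a, ha, rfl⟩ := hm
    unfold surv at ha
    rw [Finset.mem_filter, Finset.mem_Ioc] at ha
    obtain ⟨⟨ha1, ha2⟩, hcop⟩ := ha
    unfold Pool.Agent.Helper602.MK.rgh
    rw [Finset.mem_filter, Finset.mem_filter, Finset.mem_Icc]
    refine ⟨⟨⟨by omega, by omega⟩, ?_⟩, by omega⟩
    intro p hp hpd
    by_contra hlt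
    push Not at hlt
    have h1 : (p : ℤ) ∣ (b : ℤ) + a := by
      have : ((((b : ℤ) + a).toNat : ℕ) : ℤ) = (b : ℤ) + a := Int.toNat_of_nonneg (by omega)
      rw [← this]
      exact_mod_cast hpd
    have h2 : (p : ℤ) ∣ ((primorial y : ℕ) : ℤ) := by
      exact_mod_cast prime_dvd_primorial' hp (by omega)
    have h3 : IsUnit (p : ℤ) := hcop.isUnit_of_dvd' h1 h2
    rw [Int.isUnit_iff] at h3
    have := hp.two_le
    omega
  exact_mod_cast Finset.card_le_card hsub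

lemma gapIdx_mono {lam Z Z' : ℕ} (h : Z ≤ Z') : (gapIdx lam Z).card ≤ (gapIdx lam Z').card := by
  apply Finset.card_le_card
  unfold gapIdx
  intro k hk
  rw [Finset.mem_filter, Finset.mem_range] at hk ⊢
  exact ⟨by omega, by omega, hk.2.2⟩

/-- multiples of `lam` as windows -/
lemma omega_facts (R lam : ℕ) (hlam : 1 ≤ lam) :
    ((Finset.range R).image (fun i => i * lam)).card = R ∧
    (∀ ω ∈ (Finset.range R).image (fun i => i * lam), ω + lam ≤ R * lam) ∧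
    (∀ ω ∈ (Finset.range R).image (fun i => i * lam),
      ∀ ω' ∈ (Finset.range R).image (fun i => i * lam), ω ≠ ω' → ω + lam ≤ ω' ∨ ω' + lam ≤ ω) := by
  refine ⟨?_, ?_, ?_⟩
  · rw [Finset.card_image_of_injective _ (fun a b h => Nat.eq_of_mul_eq_mul_right hlam h),
      Finset.card_range]
  · intro ω hω
    rw [Finset.mem_image] at hω
    obtain ⟨i, hi, rfl⟩ := hω
    rw [Finset.mem_range] at hi
    calc i * lam + lam = (i + 1) * lam := by ring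
      _ ≤ R * lam := Nat.mul_le_mul_right _ hi
  · intro ω hω ω' hω' hne
    rw [Finset.mem_image] at hω hω'
    obtain ⟨i, hi, rfl⟩ := hω
    obtain ⟨j, hj, rfl⟩ := hω'
    rcases lt_trichotomy i j with h | h | h
    · left
      calc i * lam + lam = (i + 1) * lam := by ring
        _ ≤ j * lam := Nat.mul_le_mul_right _ h
    · exact absurd (by rw [h]) hne
    · right
      calc j * lam + lam = (j + 1) * lam := by ring
        _ ≤ i * lam := Nat.mul_le_mul_right _ h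

lemma ev_big (C₆ c₀ : ℝ) (hc₀ : 0 < c₀) : ∀ᶠ l : ℝ in atTop, 2 * C₆ * l ^ 2 * Real.exp (l / 2) ≤
    Real.exp l / 8 ∧ 20 ≤ l ∧ 256 / c₀ ^ 2 ≤ Real.exp l ∧ 4 * l ≤ Real.exp l / 16 := by
  have h1 := (Real.tendsto_exp_div_pow_atTop 2).comp
    (tendsto_id.atTop_div_const (show (0:ℝ) < 2 by norm_num))
  have h2 := h1.eventually_ge_atTop (64 * |C₆|)
  have h3 := (Real.tendsto_exp_div_pow_atTop 1).eventually_ge_atTop 64
  have h4 := Real.tendsto_exp_atTop.eventually_ge_atTop (256 / c₀ ^ 2)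
  filter_upwards [h2, h3, h4, eventually_ge_atTop 20] with l a2 a3 a4 a5
  refine ⟨?_, a5, a4, ?_⟩
  · simp only [Function.comp, id] at a2
    have hl : 0 < (l / 2) ^ 2 := by positivity
    rw [le_div_iff₀ hl] at a2
    have e1 : 16 * C₆ * l ^ 2 ≤ Real.exp (l / 2) := by
      have : 64 * C₆ * (l / 2) ^ 2 ≤ 64 * |C₆| * (l / 2) ^ 2 := by
        gcongr
        exact le_abs_self C₆
      have e : 64 * C₆ * (l / 2) ^ 2 = 16 * C₆ * l ^ 2 := by ring
      linarith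
    have e2 : Real.exp l = Real.exp (l / 2) * Real.exp (l / 2) := by
      rw [← Real.exp_add, add_halves]
    have e3 : 16 * C₆ * l ^ 2 * Real.exp (l / 2) ≤ Real.exp (l / 2) * Real.exp (l / 2) :=
      mul_le_mul_of_nonneg_right e1 (Real.exp_pos _).le
    rw [e2]
    linarith
  · rw [pow_one, le_div_iff₀ (by linarith)] at a3
    linarith

lemma m_facts {C₃ μ : ℝ} (hC : 0 ≤ C₃ * μ) (m : ℕ) (hm : m = ⌈C₃ * μ⌉₊) :
    C₃ * μ ≤ m ∧ (2:ℝ) ^ m ≤ 2 * Real.exp (C₃ * μ) := by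
  have hm1 : C₃ * μ ≤ m := by rw [hm]; exact Nat.le_ceil _
  have hm2 : (m : ℝ) ≤ C₃ * μ + 1 := by rw [hm]; exact (Nat.ceil_lt_add_one hC).le
  refine ⟨hm1, ?_⟩
  have e1 : (2:ℝ) ^ m = Real.exp (m * Real.log 2) := by
    rw [mul_comm, Real.exp_mul, Real.exp_log two_pos, Real.rpow_natCast]
  have e2 : (m:ℝ) * Real.log 2 ≤ Real.log 2 + C₃ * μ := by
    have g1 : Real.log 2 ≤ 1 := by have := Real.log_two_lt_d9; linarith
    have g0 : 0 ≤ Real.log 2 := Real.log_nonneg (by norm_num)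
    have g2 : (m:ℝ) * Real.log 2 ≤ (C₃ * μ + 1) * Real.log 2 :=
      mul_le_mul_of_nonneg_right hm2 g0
    have g3 : C₃ * μ * Real.log 2 ≤ C₃ * μ * 1 := mul_le_mul_of_nonneg_left g1 hC
    linarith
  rw [e1]
  calc Real.exp (m * Real.log 2) ≤ Real.exp (Real.log 2 + C₃ * μ) := Real.exp_le_exp.mpr e2
    _ = 2 * Real.exp (C₃ * μ) := by rw [Real.exp_add, Real.exp_log two_pos]

lemma y_facts {L l : ℝ} (hLexp : L = Real.exp l) (hl : 20 ≤ l) (y : ℕ)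
    (hy : y = ⌊Real.exp (l / 10)⌋₊) :
    2 ≤ y ∧ (y : ℝ) ≤ L / 64 ∧ l / 20 ≤ Real.log y ∧
    ((primorial y : ℕ) : ℝ) ≤ Real.exp (L / 4) := by
  have hy1 : (y : ℝ) ≤ Real.exp (l / 10) := by rw [hy]; exact Nat.floor_le (Real.exp_pos _).le
  have h20 : 1 + 1 ≤ Real.exp (l / 20) := by
    have := Real.add_one_le_exp (l / 20)
    linarith
  have hy2 : Real.exp (l / 20) ≤ y := by
    have h1 : Real.exp (l / 10) < y + 1 := by rw [hy]; exact Nat.lt_floor_add_one _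
    have h2 : Real.exp (l / 10) = Real.exp (l / 20) * Real.exp (l / 20) := by
      rw [← Real.exp_add]; congr 1; ring
    nlinarith
  have hyge : 2 ≤ y := by
    have : (2:ℝ) ≤ y := by linarith
    exact_mod_cast this
  have hyL : (y : ℝ) ≤ L / 64 := by
    have h1 : Real.exp (l / 10) * Real.exp (9 * l / 10) = L := by
      rw [← Real.exp_add, hLexp]; congr 1; ring
    have h3 : Real.exp 18 ≤ Real.exp (9 * l / 10) := Real.exp_le_exp.mpr (by linarith)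
    have h4 : (64 : ℝ) ≤ Real.exp 18 := by
      have e1 : (9:ℝ) + 1 ≤ Real.exp 9 := Real.add_one_le_exp 9
      have e2 : Real.exp 18 = Real.exp 9 * Real.exp 9 := by
        rw [← Real.exp_add]; norm_num
      rw [e2]
      nlinarith
    rw [le_div_iff₀ (by norm_num)]
    calc (y:ℝ) * 64 ≤ Real.exp (l / 10) * Real.exp (9 * l / 10) := by
          apply mul_le_mul hy1 (h4.trans h3) (by norm_num) (Real.exp_pos _).le
      _ = L := h1
  have hlogy : l / 20 ≤ Real.log y := by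
    rw [← Real.log_exp (l / 20)]
    exact Real.log_le_log (Real.exp_pos _) hy2
  refine ⟨hyge, hyL, hlogy, ?_⟩
  have h1 : ((primorial y : ℕ) : ℝ) ≤ ((4 ^ y : ℕ) : ℝ) := by
    exact_mod_cast primorial_le_four_pow y
  have h2 : ((4 ^ y : ℕ) : ℝ) = Real.exp (y * Real.log 4) := by
    rw [mul_comm, Real.exp_mul, Real.exp_log (by norm_num), Real.rpow_natCast]
    push_cast
    rfl
  rw [h2] at h1
  refine h1.trans (Real.exp_le_exp.mpr ?_)
  have h3 : Real.log 4 ≤ 2 := by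
    have : Real.log 4 = 2 * Real.log 2 := by
      rw [show (4:ℝ) = 2 ^ 2 by norm_num, Real.log_pow]; push_cast; ring
    have := Real.log_two_lt_d9
    linarith
  calc (y:ℝ) * Real.log 4 ≤ L / 64 * 2 := by
        apply mul_le_mul hyL h3 (Real.log_nonneg (by norm_num))
        have : (0:ℝ) ≤ y := Nat.cast_nonneg _
        linarith
    _ ≤ L / 4 := by
        have : (0:ℝ) ≤ y := Nat.cast_nonneg _
        linarith

lemma lam_facts {L μ : ℝ} (hL1 : 1 ≤ L) (hμ1 : 1 ≤ μ) (hμL : μ ≤ L / 64) (lam : ℕ)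
    (hlam : lam = ⌈μ * L⌉₊) :
    L ≤ (lam : ℝ) ∧ (lam : ℝ) ≤ 2 * (μ * L) ∧ (lam : ℝ) ≤ L ^ 2 ∧ 1 ≤ lam := by
  have h0 : L ≤ μ * L := le_mul_of_one_le_left (by linarith) hμ1
  have hlam1 : μ * L ≤ lam := by rw [hlam]; exact Nat.le_ceil _
  have hlamL : L ≤ lam := h0.trans hlam1
  have hlam2 : (lam : ℝ) ≤ 2 * (μ * L) := by
    have h1 := (Nat.ceil_lt_add_one (show 0 ≤ μ * L by positivity)).le
    rw [hlam]
    linarith
  have hlam3 : (lam : ℝ) ≤ L ^ 2 := by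
    calc (lam : ℝ) ≤ 2 * (μ * L) := hlam2
      _ ≤ 2 * (L / 64 * L) := by gcongr
      _ ≤ L ^ 2 := by nlinarith
  refine ⟨hlamL, hlam2, hlam3, ?_⟩
  have : (1:ℝ) ≤ lam := hL1.trans hlamL
  exact_mod_cast this

lemma R_facts {s : ℝ} (hs : 20 ≤ s) (R : ℕ) (hR : R = ⌈Real.exp s⌉₊) :
    Real.exp s ≤ R ∧ (R : ℝ) ≤ 2 * Real.exp s ∧ (8:ℝ) ≤ R := by
  have hR1 : Real.exp s ≤ R := by rw [hR]; exact Nat.le_ceil _
  have h2 := Real.add_one_le_exp s
  refine ⟨hR1, ?_, by linarith⟩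
  have h1 := (Nat.ceil_lt_add_one (Real.exp_pos s).le).le
  rw [hR]
  linarith

lemma H_facts {L l s lam R H : ℝ} (hLexp : L = Real.exp l) (hl : 20 ≤ l) (hs0 : 0 ≤ s)
    (hs : s ≤ L / 8)
    (f4 : 4 * l ≤ L / 16) (hlam : L ≤ lam) (hlam2 : lam ≤ L ^ 2) (hR : R ≤ 2 * Real.exp s)
    (hR0 : 8 ≤ R) (hH : H = R * lam) :
    H ≤ 4 * L ^ 2 * Real.exp s ∧ H ≤ Real.exp (L / 2) ∧ 8 * L ≤ H := by
  have hL0 : 0 < L := by rw [hLexp]; exact Real.exp_pos _
  have hlam0 : 0 ≤ lam := by linarith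
  have hHup : H ≤ 4 * L ^ 2 * Real.exp s := by
    rw [hH]
    calc R * lam ≤ (2 * Real.exp s) * L ^ 2 := by gcongr
      _ ≤ 4 * L ^ 2 * Real.exp s := by
          have : 0 ≤ L ^ 2 * Real.exp s := by positivity
          linarith
  have hL4 : (4:ℝ) ≤ L := by linarith
  have hL2e : 4 * L ^ 2 ≤ Real.exp (L / 8) := by
    have e1 : 4 * L ^ 2 ≤ Real.exp (3 * l) := by
      have : Real.exp (3 * l) = L * L ^ 2 := by
        rw [hLexp, ← Real.exp_nat_mul, ← Real.exp_add]; congr 1; push_cast; ring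
      rw [this]
      gcongr
    refine e1.trans (Real.exp_le_exp.mpr ?_)
    linarith
  refine ⟨hHup, ?_, ?_⟩
  · calc H ≤ 4 * L ^ 2 * Real.exp s := hHup
      _ ≤ Real.exp (L / 8) * Real.exp (L / 8) :=
          mul_le_mul hL2e (Real.exp_le_exp.mpr hs) (Real.exp_pos _).le (Real.exp_pos _).le
      _ = Real.exp (L / 4) := by rw [← Real.exp_add]; congr 1; ring
      _ ≤ Real.exp (L / 2) := Real.exp_le_exp.mpr (by linarith)
  · rw [hH]
    exact mul_le_mul hR0 hlam hL0.le (by linarith)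

lemma sv_num {CJ c₅ C₃ μ L l ly lam m : ℝ} (hCJ : 1 ≤ CJ) (hc5 : 0 < c₅)
    (hC3 : C₃ = 40 * CJ / c₅ + 1)
    (hl0 : 0 < l) (hly : l / 20 ≤ ly) (hL : 0 < L) (hμ : 1 ≤ μ) (hlam : lam ≤ 2 * (μ * L))
    (hm : C₃ * μ ≤ m) : CJ * lam / ly ≤ c₅ * (m + 1) * L / l := by
  have hly0 : 0 < ly := by linarith
  rw [div_le_div_iff₀ hly0 hl0]
  have e1 : CJ * lam * l ≤ CJ * (2 * (μ * L)) * l := by gcongr
  have hC30 : 0 < C₃ := by rw [hC3]; positivity
  have e2 : c₅ * (C₃ * μ) * L * (l / 20) ≤ c₅ * (m + 1) * L * ly := by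
    have h1 : C₃ * μ ≤ m + 1 := by linarith
    have h2 : 0 < C₃ * μ := by positivity
    have h3 : 0 < m + 1 := by linarith
    gcongr
  have e3 : CJ * (2 * (μ * L)) * l ≤ c₅ * (C₃ * μ) * L * (l / 20) := by
    have h1 : c₅ * C₃ = 40 * CJ + c₅ := by rw [hC3]; field_simp
    have e : c₅ * (C₃ * μ) * L * (l / 20) = (c₅ * C₃) * (μ * L * l / 20) := by ring
    have e' : CJ * (2 * (μ * L)) * l = (40 * CJ) * (μ * L * l / 20) := by ring
    rw [e, h1, e']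
    have : 0 ≤ c₅ * (μ * L * l / 20) := by positivity
    linarith
  linarith

lemma fin_num {c₀ C₆ C₃ L l μ H T2 : ℝ} (hc₀ : 0 < c₀) (hC6 : 1 ≤ C₆) (hC3 : 1 ≤ C₃)
    (hLexp : L = Real.exp l) (hl : 20 ≤ l) (hμ : 1 ≤ μ) (f3 : 256 / c₀ ^ 2 ≤ L)
    (hT : T2 ≤ 2 * Real.exp (C₃ * μ))
    (hH : H ≤ 4 * L ^ 2 * Real.exp (C₆ * (l ^ 2 * T2))) :
    64 * H / c₀ ^ 2 ≤ Real.exp ((2 * C₆ + 3 + C₃) * (l ^ 2 *
      Real.exp ((2 * C₆ + 3 + C₃) * μ))) := by
  have e1 : 64 * H / c₀ ^ 2 ≤ 256 / c₀ ^ 2 * L ^ 2 * Real.exp (C₆ * (l ^ 2 * T2)) := by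
    have : 64 * H / c₀ ^ 2 ≤ 64 * (4 * L ^ 2 * Real.exp (C₆ * (l ^ 2 * T2))) / c₀ ^ 2 := by
      gcongr
    refine this.trans (le_of_eq ?_)
    ring
  have e2 : 256 / c₀ ^ 2 * L ^ 2 * Real.exp (C₆ * (l ^ 2 * T2)) ≤
      Real.exp l * Real.exp (2 * l) * Real.exp (2 * C₆ * (l ^ 2 * Real.exp (C₃ * μ))) := by
    have g1 : L ^ 2 = Real.exp (2 * l) := by
      rw [hLexp, ← Real.exp_nat_mul]; push_cast; rfl
    have g2 : C₆ * (l ^ 2 * T2) ≤ 2 * C₆ * (l ^ 2 * Real.exp (C₃ * μ)) := by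
      calc C₆ * (l ^ 2 * T2) ≤ C₆ * (l ^ 2 * (2 * Real.exp (C₃ * μ))) := by gcongr
        _ = _ := by ring
    have g3 : 256 / c₀ ^ 2 ≤ Real.exp l := by rw [← hLexp]; exact f3
    rw [g1]
    apply mul_le_mul (mul_le_mul_of_nonneg_right g3 (Real.exp_pos _).le)
      (Real.exp_le_exp.mpr g2) (Real.exp_pos _).le (by positivity)
  refine e1.trans (e2.trans ?_)
  rw [← Real.exp_add, ← Real.exp_add]
  apply Real.exp_le_exp.mpr
  have g4 : Real.exp (C₃ * μ) ≤ Real.exp ((2 * C₆ + 3 + C₃) * μ) := by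
    apply Real.exp_le_exp.mpr
    gcongr
    linarith
  have g5 : (1:ℝ) ≤ Real.exp ((2 * C₆ + 3 + C₃) * μ) := Real.one_le_exp (by positivity)
  have g6 : l ≤ l ^ 2 := by nlinarith
  have g7 : l ≤ l ^ 2 * Real.exp ((2 * C₆ + 3 + C₃) * μ) := by
    calc l ≤ l ^ 2 * 1 := by linarith
      _ ≤ _ := by gcongr
  have g8 : 2 * C₆ * (l ^ 2 * Real.exp (C₃ * μ)) ≤
      2 * C₆ * (l ^ 2 * Real.exp ((2 * C₆ + 3 + C₃) * μ)) := by gcongr
  have g9 : 0 ≤ C₃ * (l ^ 2 * Real.exp ((2 * C₆ + 3 + C₃) * μ)) := by positivity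
  have g10 : (2 * C₆ + 3 + C₃) * (l ^ 2 * Real.exp ((2 * C₆ + 3 + C₃) * μ)) =
    2 * C₆ * (l ^ 2 * Real.exp ((2 * C₆ + 3 + C₃) * μ)) +
    3 * (l ^ 2 * Real.exp ((2 * C₆ + 3 + C₃) * μ)) +
    C₃ * (l ^ 2 * Real.exp ((2 * C₆ + 3 + C₃) * μ)) := by ring
  rw [g10]
  linarith

lemma conc_num {X c₀ H G B : ℝ} (hX : 0 < X) (hc₀ : 0 < c₀) (hH : 0 < H)
    (hfin : c₀ ^ 2 / 32 * X ≤ 2 * H * G) (hHb : 64 * H / c₀ ^ 2 ≤ Real.exp B) :
    X * Real.exp (-B) ≤ G := by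
  have h1 : X / (64 * H / c₀ ^ 2) ≤ G := by
    rw [div_le_iff₀ (by positivity)]
    have e : G * (64 * H / c₀ ^ 2) = 32 / c₀ ^ 2 * (2 * H * G) := by ring
    rw [e]
    calc X = 32 / c₀ ^ 2 * (c₀ ^ 2 / 32 * X) := by field_simp
      _ ≤ _ := mul_le_mul_of_nonneg_left hfin (by positivity)
  refine le_trans ?_ h1
  rw [Real.exp_neg, ← div_eq_mul_inv]
  exact div_le_div_of_nonneg_left hX.le (by positivity) hHb

theorem main_i : ∃ c C : ℝ, 0 < c ∧ 0 < C ∧ ∃ X₀ : ℕ, ∀ X : ℕ, X₀ ≤ X → ∀ μ : ℝ, 1 ≤ μ →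
    μ ≤ c * Real.log (Real.log X) →
    X * Real.exp (-(C * ((Real.log (Real.log X)) ^ 2 * Real.exp (C * μ)))) ≤
      ((gapIdx ⌈μ * Real.log X⌉₊ (2 * X)).card : ℝ) := by
  obtain ⟨c₅, C₆, hc5, hC6, hstep⟩ := class_step
  obtain ⟨c₀, hc0, hc01, X₁, hpos⟩ := pos_blocks
  obtain ⟨CJ, hCJ, hsurv⟩ := surv_bound
  obtain ⟨L₀, hL₀⟩ := hstep (c₀ / 2) (by positivity) (by linarith)
  obtain ⟨C₃, hC3⟩ : ∃ C₃ : ℝ, C₃ = 40 * CJ / c₅ + 1 := ⟨_, rfl⟩
  have hC31 : 1 ≤ C₃ := by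
    have : 0 ≤ 40 * CJ / c₅ := by positivity
    linarith
  obtain ⟨l₀, hl₀⟩ := (ev_big C₆ c₀ hc0).exists_forall_of_atTop
  have hev : ∀ᶠ X : ℕ in atTop, L₀ ≤ Real.log X ∧ l₀ ≤ Real.log (Real.log X) := by
    have t1 : Tendsto (fun X : ℕ => Real.log X) atTop atTop :=
      Real.tendsto_log_atTop.comp tendsto_natCast_atTop_atTop
    exact (t1.eventually_ge_atTop L₀).and ((Real.tendsto_log_atTop.comp t1).eventually_ge_atTop l₀)
  obtain ⟨X₂, hX₂⟩ := hev.exists_forall_of_atTop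
  refine ⟨1 / (2 * C₃), 2 * C₆ + 3 + C₃, by positivity, by positivity, max (max X₁ X₂) 1, ?_⟩
  intro X hX μ hμ1 hμ
  have hXX1 : X₁ ≤ X := (le_max_left _ _).trans ((le_max_left _ _).trans hX)
  obtain ⟨hLL, hll⟩ := hX₂ X ((le_max_right _ _).trans ((le_max_left _ _).trans hX))
  have hX1 : 1 ≤ X := (le_max_right _ _).trans hX
  have hXpos : (0:ℝ) < X := by exact_mod_cast hX1
  obtain ⟨f1, f2, f3, f4⟩ := hl₀ _ hll
  have hXe : (X : ℝ) = Real.exp (Real.log X) := (Real.exp_log hXpos).symm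
  have hst := hL₀ X hLL
  have hps := hpos X hXX1
  clear hX₂ hl₀ hev hL₀ hpos hstep
  generalize hL : Real.log X = L at *
  generalize hl : Real.log L = l at *
  have hl0 : 0 < l := by linarith
  have hLpos : 0 < L := by
    by_contra hc
    push Not at hc
    have h1 : (X : ℝ) ≤ 1 := by
      rw [hXe]
      exact Real.exp_le_one_iff.2 hc
    have h2 : (1 : ℝ) ≤ X := by exact_mod_cast hX1
    have h3 : (X : ℝ) = 1 := le_antisymm h1 h2
    have h4 : L = 0 := by rw [← hL, h3, Real.log_one]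
    rw [h4, Real.log_zero] at hl
    linarith
  have hLexp : L = Real.exp l := by rw [← hl]; exact (Real.exp_log hLpos).symm
  rw [← hLexp] at f1 f3 f4
  have hL1 : 1 ≤ L := by linarith
  -- `m`
  obtain ⟨m, hm⟩ : ∃ m : ℕ, m = ⌈C₃ * μ⌉₊ := ⟨_, rfl⟩
  obtain ⟨hm1, h2m⟩ := m_facts (C₃ := C₃) (μ := μ) (by positivity) m hm
  have hμl : C₃ * μ ≤ l / 2 := by
    have : C₃ * μ ≤ C₃ * (1 / (2 * C₃) * l) := mul_le_mul_of_nonneg_left hμ (by linarith)
    have e : C₃ * (1 / (2 * C₃) * l) = l / 2 := by field_simp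
    linarith
  have h2m' : (2:ℝ) ^ m ≤ 2 * Real.exp (l / 2) :=
    h2m.trans (mul_le_mul_of_nonneg_left (Real.exp_le_exp.mpr hμl) (by norm_num))
  have h2m1 : (1:ℝ) ≤ 2 ^ m := one_le_pow₀ (by norm_num)
  have hexpo : C₆ * (l ^ 2 * 2 ^ m) ≤ L / 8 := by
    calc C₆ * (l ^ 2 * 2 ^ m) ≤ C₆ * (l ^ 2 * (2 * Real.exp (l / 2))) := by gcongr
      _ = 2 * C₆ * l ^ 2 * Real.exp (l / 2) := by ring
      _ ≤ L / 8 := f1
  have hexpo20 : 20 ≤ C₆ * (l ^ 2 * 2 ^ m) := by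
    have e1 : (20:ℝ) ≤ l ^ 2 := by nlinarith
    have e2 : l ^ 2 * 1 ≤ l ^ 2 * 2 ^ m := by gcongr
    have e3 : 1 * (l ^ 2 * 2 ^ m) ≤ C₆ * (l ^ 2 * 2 ^ m) := by gcongr
    linarith
  have hμL : μ ≤ L / 64 := by
    have h1 : μ ≤ C₃ * μ := le_mul_of_one_le_left (by linarith) hC31
    linarith
  -- `lam`
  obtain ⟨lam, hlam⟩ : ∃ lam : ℕ, lam = ⌈μ * L⌉₊ := ⟨_, rfl⟩
  obtain ⟨hlamL, hlam2, hlam3, hlampos⟩ := lam_facts hL1 hμ1 hμL lam hlam
  rw [← hlam]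
  -- `y`
  obtain ⟨y, hy⟩ : ∃ y : ℕ, y = ⌊Real.exp (l / 10)⌋₊ := ⟨_, rfl⟩
  obtain ⟨hyge, hyL, hlogy, hWle⟩ := y_facts hLexp f2 y hy
  have hylam : y ≤ lam := by
    have : (y:ℝ) ≤ lam := by linarith
    exact_mod_cast this
  -- `R`, `H`
  obtain ⟨R, hR⟩ : ∃ R : ℕ, R = ⌈Real.exp (C₆ * (l ^ 2 * 2 ^ m))⌉₊ := ⟨_, rfl⟩
  obtain ⟨hR1, hR2, hR8⟩ := R_facts hexpo20 R hR
  obtain ⟨o1, o2, o3⟩ := omega_facts R lam hlampos
  obtain ⟨hHup, hHle, hH8⟩ := H_facts (H := ((R * lam : ℕ) : ℝ)) hLexp f2 (by linarith) hexpo f4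
    hlamL hlam3 hR2 hR8 (by push_cast; ring)
  -- the survivors
  have hsv : ∀ b : ℕ, ∀ ω ∈ (Finset.range R).image (fun i => i * lam),
      ((surv (primorial y) lam (b : ℤ) ω).card : ℝ) ≤ c₅ * (m + 1) * L / l := by
    intro b ω _
    exact (hsurv y hyge lam b ω hylam).trans
      (sv_num hCJ hc5 hC3 hl0 hlogy hLpos hμ1 hlam2 hm1)
  have hW1 : 1 ≤ primorial y := primorial_pos y
  have hWp : ∀ p : ℕ, p.Prime → p ∣ primorial y → (p : ℝ) ≤ L ^ 10 := by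
    intro p hp hpW
    have h1 : (p : ℝ) ≤ y := by exact_mod_cast prime_dvd_primorial hp hpW
    have h2 : L ≤ L ^ 10 := le_self_pow₀ hL1 (by norm_num)
    linarith
  clear hsurv hy hR hlam hm
  generalize (Finset.range R).image (fun i => i * lam) = Ω at *
  generalize R * lam = H at *
  generalize primorial y = W at *
  have hWX : W ≤ X := by
    have : (W : ℝ) ≤ X := by
      rw [hXe]
      exact hWle.trans (Real.exp_le_exp.mpr (by linarith))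
    exact_mod_cast this
  have hHX : H ≤ X := by
    have : (H : ℝ) ≤ X := by
      rw [hXe]
      exact hHle.trans (Real.exp_le_exp.mpr (by linarith))
    exact_mod_cast this
  have hP := hps H hH8 hHle
  have hL10 : L ^ 2 ≤ L ^ 10 := pow_le_pow_right₀ hL1 (by norm_num)
  have hsum := sum_classes X W hW1 hWX c₀ hc0
    (fun x : ℤ => Real.exp (L / 2) < (x : ℝ) ∧ blockPrime H x)
    (fun x : ℤ => (Real.exp (L / 2) < (x : ℝ) ∧ blockPrime H x) ∧ ∃ ω ∈ Ω, free lam x ω) hP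
    (by
      intro b _ hb
      exact hst m (by
          calc 2 ^ m * (C₆ * l ^ 2) = C₆ * (l ^ 2 * 2 ^ m) := by ring
            _ ≤ L / 8 := hexpo
            _ ≤ L := by linarith) W H lam (b : ℤ) Ω hW1 hWle hWp (hlam3.trans hL10) hHle o2 o3
          (hsv b) (by rw [o1]; exact hR1) hb)
  have hgaps := gaps_of X H lam Ω o2 (E := Real.exp (L / 2)) (Real.one_le_exp (by linarith))
  have hmono : ((gapIdx lam (X + H)).card : ℝ) ≤ ((gapIdx lam (2 * X)).card : ℝ) := by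
    exact_mod_cast gapIdx_mono (by omega)
  have hfin : c₀ ^ 2 / 32 * X ≤ 2 * H * ((gapIdx lam (2 * X)).card : ℝ) := by
    refine hsum.trans (hgaps.trans ?_)
    exact mul_le_mul_of_nonneg_left hmono (by positivity)
  exact conc_num hXpos hc0 (by linarith) hfin
    (fin_num hc0 hC6 hC31 hLexp f2 hμ1 f3 h2m hHup)

end Run7.h294.G
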