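import Pool.Agent.Run7.h294.G16

set_option autoImplicit false
set_option linter.unusedSectionVars false

/-! # Gaps of length `μ log X`: real `X` -/

namespace Run7.h294.G

open Finset Filter

open scoped Classical

lemma gapIdx_ncard {lam Z : ℕ} {X g : ℝ} (hZ : (Z : ℝ) ≤ X) (hg : g ≤ lam) :
    ((gapIdx lam Z).card : ℝ) ≤ ({n : ℕ | (Nat.nth Nat.Prime n : ℝ) ≤ X ∧
      g ≤ (Nat.nth Nat.Prime (n + 1) : ℝ) - Nat.nth Nat.Prime n}.ncard : ℝ) := by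
  have hinf : (Set.ofPred Nat.Prime).Infinite := Nat.infinite_setOfPred_prime
  have hfin : {n : ℕ | (Nat.nth Nat.Prime n : ℝ) ≤ X ∧
      g ≤ (Nat.nth Nat.Prime (n + 1) : ℝ) - Nat.nth Nat.Prime n}.Finite := by
    apply (Set.finite_Iic ⌊X⌋₊).subset
    rintro n ⟨hn, _⟩
    rw [Set.mem_Iic]
    apply Nat.le_floor
    refine le_trans ?_ hn
    exact_mod_cast Nat.le_nth (fun hf => absurd hf hinf)
  rw [← Set.ncard_coe_finset]
  have h := Set.ncard_le_ncard (s := ((gapIdx lam Z : Finset ℕ) : Set ℕ)) (t := {n : ℕ |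
      (Nat.nth Nat.Prime n : ℝ) ≤ X ∧
      g ≤ (Nat.nth Nat.Prime (n + 1) : ℝ) - Nat.nth Nat.Prime n}) (by
    intro n hn
    rw [Finset.mem_coe] at hn
    unfold gapIdx at hn
    rw [Finset.mem_filter] at hn
    refine ⟨?_, ?_⟩
    · refine le_trans ?_ hZ
      exact_mod_cast hn.2.1
    · have h1 : (Nat.nth Nat.Prime n : ℝ) + lam < Nat.nth Nat.Prime (n + 1) := by
        exact_mod_cast hn.2.2
      linarith) hfin
  exact_mod_cast h

/-- facts about `⌊X / 2⌋` -/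
lemma half_facts : ∀ᶠ X : ℝ in atTop, X / 4 ≤ (⌊X / 2⌋₊ : ℝ) ∧ 2 * (⌊X / 2⌋₊ : ℝ) ≤ X ∧
    Real.log X / 2 ≤ Real.log (⌊X / 2⌋₊ : ℝ) ∧ Real.log (⌊X / 2⌋₊ : ℝ) ≤ Real.log X ∧
    Real.log (Real.log X) / 2 ≤ Real.log (Real.log (⌊X / 2⌋₊ : ℝ)) ∧
    Real.log (Real.log (⌊X / 2⌋₊ : ℝ)) ≤ Real.log (Real.log X) := by
  have t2 : Tendsto (fun X : ℝ => Real.log (Real.log X)) atTop atTop :=
    Real.tendsto_log_atTop.comp Real.tendsto_log_atTop
  filter_upwards [eventually_ge_atTop (16:ℝ), Real.tendsto_log_atTop.eventually_ge_atTop 4,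
    t2.eventually_ge_atTop 2] with X h1 h2 h3
  have a1 : X / 4 ≤ (⌊X / 2⌋₊ : ℝ) := by
    have := Nat.lt_floor_add_one (X / 2)
    linarith
  have a2 : (⌊X / 2⌋₊ : ℝ) ≤ X / 2 := Nat.floor_le (by linarith)
  have hX0 : 0 < X := by linarith
  have hpos : (0:ℝ) < (⌊X / 2⌋₊ : ℝ) := by linarith
  have hlog4 : Real.log 4 ≤ 2 := by
    have e : Real.log 4 = 2 * Real.log 2 := by
      rw [show (4:ℝ) = 2 ^ 2 by norm_num, Real.log_pow]; push_cast; ring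
    have := Real.log_two_lt_d9
    linarith
  have a3 : Real.log X / 2 ≤ Real.log (⌊X / 2⌋₊ : ℝ) := by
    have e1 := Real.log_le_log (by linarith) a1
    rw [Real.log_div (by linarith) (by norm_num)] at e1
    linarith
  have a4 : Real.log (⌊X / 2⌋₊ : ℝ) ≤ Real.log X := Real.log_le_log hpos (by linarith)
  refine ⟨a1, by linarith, a3, a4, ?_, Real.log_le_log (by linarith) a4⟩
  have e1 := Real.log_le_log (by linarith) a3
  rw [Real.log_div (by linarith) (by norm_num)] at e1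
  have := Real.log_two_lt_d9
  linarith

theorem uniform_tail : ∃ c C : ℝ, 0 < c ∧ 0 < C ∧ ∃ X₀ : ℝ, ∀ X : ℝ, X₀ ≤ X → ∀ μ : ℝ, 0 ≤ μ →
    μ ≤ c * Real.log (Real.log X) →
    X * Real.exp (-(Real.exp μ * Real.log (Real.log X)) ^ C) ≤
      ({n : ℕ | (Nat.nth Nat.Prime n : ℝ) ≤ X ∧
        μ * Real.log X ≤ (Nat.nth Nat.Prime (n + 1) : ℝ) - Nat.nth Nat.Prime n}.ncard : ℝ) := by
  obtain ⟨c₁, C₁, hc1, hC1, X₁, hmain⟩ := main_i
  have t2 : Tendsto (fun X : ℝ => Real.log (Real.log X)) atTop atTop :=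
    Real.tendsto_log_atTop.comp Real.tendsto_log_atTop
  have hev := half_facts.and ((t2.eventually_ge_atTop (max (4 / c₁)
    (C₁ * Real.exp C₁ + 2))).and (eventually_ge_atTop (4 * (X₁ : ℝ) + 1)))
  obtain ⟨X₀, hX₀⟩ := hev.exists_forall_of_atTop
  refine ⟨c₁ / 8, 2 * C₁ + 3, by positivity, by positivity, X₀, ?_⟩
  intro X hX μ hμ0 hμ
  obtain ⟨⟨a1, a2, a3, a4, a5, a6⟩, b1, b2⟩ := hX₀ X hX
  have b3 : 4 / c₁ ≤ Real.log (Real.log X) := (le_max_left _ _).trans b1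
  have b4 : C₁ * Real.exp C₁ + 2 ≤ Real.log (Real.log X) := (le_max_right _ _).trans b1
  have b5 : 4 ≤ c₁ * Real.log (Real.log X) := by
    rw [div_le_iff₀ hc1] at b3
    linarith
  have hXpos : 0 < X := by
    have : (0:ℝ) ≤ X₁ := Nat.cast_nonneg _
    linarith
  have hX1 : X₁ ≤ ⌊X / 2⌋₊ := by
    have : (X₁ : ℝ) ≤ (⌊X / 2⌋₊ : ℝ) := by linarith
    exact_mod_cast this
  have h1 := hmain ⌊X / 2⌋₊ hX1 (2 * μ + 1) (by linarith) (by
    have : c₁ * (Real.log (Real.log X) / 2) ≤ c₁ * Real.log (Real.log (⌊X / 2⌋₊ : ℝ)) :=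
      mul_le_mul_of_nonneg_left a5 hc1.le
    linarith)
  have h2 : μ * Real.log X ≤ (⌈(2 * μ + 1) * Real.log (⌊X / 2⌋₊ : ℝ)⌉₊ : ℝ) := by
    refine le_trans ?_ (Nat.le_ceil _)
    have e1 : (2 * μ) * (Real.log X / 2) ≤ (2 * μ) * Real.log (⌊X / 2⌋₊ : ℝ) :=
      mul_le_mul_of_nonneg_left a3 (by linarith)
    have e2 : 0 ≤ Real.log (⌊X / 2⌋₊ : ℝ) := by
      apply Real.log_nonneg
      have : (0:ℝ) ≤ X₁ := Nat.cast_nonneg _
      by_contra hc
      push Not at hc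
      have h0 : (⌊X / 2⌋₊ : ℝ) < 1 := hc
      have h0' : ⌊X / 2⌋₊ < 1 := by exact_mod_cast h0
      have h0'' : ⌊X / 2⌋₊ = 0 := by omega
      rw [h0''] at a1
      push_cast at a1
      linarith
    linarith
  have h3 := gapIdx_ncard (lam := ⌈(2 * μ + 1) * Real.log (⌊X / 2⌋₊ : ℝ)⌉₊)
    (Z := 2 * ⌊X / 2⌋₊) (X := X) (by push_cast; exact a2) h2
  refine le_trans ?_ (h1.trans h3)
  -- comparison of the bounds
  set l := Real.log (Real.log X) with hl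
  set l' := Real.log (Real.log (⌊X / 2⌋₊ : ℝ)) with hl'
  have hl2 : 2 ≤ l := by
    have : 0 < C₁ * Real.exp C₁ := by positivity
    linarith
  have hl'0 : 0 ≤ l' := by linarith
  have e1 : C₁ * (l' ^ 2 * Real.exp (C₁ * (2 * μ + 1))) + 2 ≤
      (Real.exp μ * l) ^ (2 * C₁ + 3) := by
    have g0 : (Real.exp μ * l) ^ (2 * C₁ + 3) =
        Real.exp ((2 * C₁ + 3) * μ) * l ^ (2 * C₁ + 3) := by
      rw [Real.mul_rpow (Real.exp_pos _).le (by linarith), ← Real.exp_mul]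
      congr 2
      ring
    have g1 : l ^ (3 : ℝ) ≤ l ^ (2 * C₁ + 3) :=
      Real.rpow_le_rpow_of_exponent_le (by linarith) (by linarith)
    have g2 : l ^ (3 : ℝ) = l ^ 2 * l := by
      rw [show (3 : ℝ) = ((3 : ℕ) : ℝ) by norm_num, Real.rpow_natCast]
      ring
    have g3 : Real.exp (2 * C₁ * μ) ≤ Real.exp ((2 * C₁ + 3) * μ) := by
      apply Real.exp_le_exp.mpr
      gcongr
      linarith
    have g4 : (1:ℝ) ≤ Real.exp (2 * C₁ * μ) := Real.one_le_exp (by positivity)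
    have g5 : C₁ * (l' ^ 2 * Real.exp (C₁ * (2 * μ + 1))) ≤
        (C₁ * Real.exp C₁) * (l ^ 2 * Real.exp (2 * C₁ * μ)) := by
      have : Real.exp (C₁ * (2 * μ + 1)) = Real.exp C₁ * Real.exp (2 * C₁ * μ) := by
        rw [← Real.exp_add]; congr 1; ring
      rw [this]
      have : l' ^ 2 ≤ l ^ 2 := by gcongr
      calc C₁ * (l' ^ 2 * (Real.exp C₁ * Real.exp (2 * C₁ * μ))) ≤
            C₁ * (l ^ 2 * (Real.exp C₁ * Real.exp (2 * C₁ * μ))) := by gcongr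
        _ = _ := by ring
    have g6 : 2 ≤ 2 * (l ^ 2 * Real.exp (2 * C₁ * μ)) := by
      have : 1 ≤ l ^ 2 * Real.exp (2 * C₁ * μ) := by
        calc (1:ℝ) ≤ l ^ 2 * 1 := by nlinarith
          _ ≤ _ := by gcongr
      linarith
    rw [g0]
    calc C₁ * (l' ^ 2 * Real.exp (C₁ * (2 * μ + 1))) + 2
        ≤ (C₁ * Real.exp C₁ + 2) * (l ^ 2 * Real.exp (2 * C₁ * μ)) := by linarith
      _ ≤ l * (l ^ 2 * Real.exp (2 * C₁ * μ)) := by gcongr
      _ = Real.exp (2 * C₁ * μ) * l ^ (3:ℝ) := by rw [g2]; ring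
      _ ≤ Real.exp ((2 * C₁ + 3) * μ) * l ^ (2 * C₁ + 3) := by
          apply mul_le_mul g3 g1 (by positivity) (Real.exp_pos _).le
  have e2 : Real.exp (-(Real.exp μ * l) ^ (2 * C₁ + 3)) ≤
      Real.exp (-(C₁ * (l' ^ 2 * Real.exp (C₁ * (2 * μ + 1))))) * (1 / 4) := by
    have e3 : Real.exp (-2) ≤ 1 / 4 := by
      rw [Real.exp_neg, one_div]
      apply inv_anti₀ (by norm_num)
      have : Real.exp 2 = Real.exp 1 * Real.exp 1 := by rw [← Real.exp_add]; norm_num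
      rw [this]
      have := Real.exp_one_gt_d9
      nlinarith
    calc Real.exp (-(Real.exp μ * l) ^ (2 * C₁ + 3)) ≤
          Real.exp (-(C₁ * (l' ^ 2 * Real.exp (C₁ * (2 * μ + 1)))) + (-2)) := by
            apply Real.exp_le_exp.mpr
            linarith
      _ = Real.exp (-(C₁ * (l' ^ 2 * Real.exp (C₁ * (2 * μ + 1))))) * Real.exp (-2) :=
          Real.exp_add _ _
      _ ≤ _ := mul_le_mul_of_nonneg_left e3 (Real.exp_pos _).le
  calc X * Real.exp (-(Real.exp μ * l) ^ (2 * C₁ + 3))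
      ≤ X * (Real.exp (-(C₁ * (l' ^ 2 * Real.exp (C₁ * (2 * μ + 1))))) * (1 / 4)) :=
        mul_le_mul_of_nonneg_left e2 hXpos.le
    _ = X / 4 * Real.exp (-(C₁ * (l' ^ 2 * Real.exp (C₁ * (2 * μ + 1))))) := by ring
    _ ≤ (⌊X / 2⌋₊ : ℝ) * Real.exp (-(C₁ * (l' ^ 2 * Real.exp (C₁ * (2 * μ + 1))))) :=
        mul_le_mul_of_nonneg_right a1 (Real.exp_pos _).le

end Run7.h294.G
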