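import Pool.Agent.H256R2.SC.B
import Pool.Agent.Run7.h294.G1

set_option autoImplicit false
set_option linter.unusedSectionVars false

/-! # The local inequality for two windows -/

namespace Run7.h294.G

open Finset Pool.Agent.H256R2.SC

variable {κ κ' : Type} [Fintype κ] [DecidableEq κ] [Fintype κ'] [DecidableEq κ']

lemma psi_shift (g : ℝ) (Y : Option κ → ℝ) (l : κ) :
    ∑ a, psi1 g a (some l) * Y a = ∑ a, psi1 g a none * Y a + Y (some l) := by
  rw [inner_some, inner_none]

lemma wt_none (g : ℝ) : wt g (none : Option κ) = 1 - (Fintype.card κ : ℝ) * g := rfl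
lemma wt_some (g : ℝ) (k : κ) : wt g (some k) = g := rfl

lemma none_sq (g : ℝ) (hg : 0 ≤ g) (hK : (Fintype.card κ : ℝ) * g ≤ 1 / 2) (Y : Option κ → ℝ) :
    (∑ a, psi1 g a (none : Option κ) * Y a) ^ 2 ≤ 2 * ∑ a, nu1 g a * (Y a) ^ 2 := by
  have h := local_upper g hg Y
  rw [Fintype.sum_option] at h
  have h1 : 0 ≤ ∑ k : κ, wt g (some k) * (∑ a, psi1 g a (some k) * Y a) ^ 2 :=
    Finset.sum_nonneg fun k _ => mul_nonneg (by rw [wt_some]; exact hg) (sq_nonneg _)
  rw [wt_none] at h
  nlinarith [sq_nonneg (∑ a, psi1 g a (none : Option κ) * Y a)]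

lemma nu1_nonneg {g : ℝ} (hg : 0 ≤ g) (c : Option κ) : 0 ≤ nu1 g c := by
  cases c with
  | none => simp [nu1]
  | some k => simpa [nu1] using hg

/-- multiplicity of a colour in the relation -/
noncomputable def mt (R : κ → κ' → ℝ) (c : Option κ) : ℝ :=
  match c with
  | none => 0
  | some a => ∑ a', R a a'

/-- value of the relation -/
noncomputable def rv (R : κ → κ' → ℝ) (c : Option κ × Option κ') : ℝ :=
  match c.1, c.2 with
  | some a, some a' => R a a'
  | _, _ => 0

/-- `1` for a colour, `0` for none -/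
noncomputable def on (c : Option κ) : ℝ :=
  match c with
  | none => 0
  | some _ => 1

/-- the local majorant -/
noncomputable def bet2 (g : ℝ) (R : κ → κ' → ℝ) (c : Option κ × Option κ') : ℝ :=
  nu1 g c.1 * nu1 g c.2 * (1 + 16 * ((Fintype.card κ : ℝ) * Fintype.card κ') * g ^ 2 +
    20 * (∑ a, ∑ a', R a a') * g + 4 * (Fintype.card κ' : ℝ) * g * on c.1 +
    4 * (Fintype.card κ : ℝ) * g * on c.2) +
  8 * g * mt R c.1 * nu1 g c.2 + 8 * g * mt (fun a' a => R a a') c.2 * nu1 g c.1 +
  4 * g * rv R c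

/-- the two window local inequality -/
theorem local_pair (g : ℝ) (hg : 0 ≤ g) (hK : (Fintype.card κ : ℝ) * g ≤ 1 / 2)
    (hK' : (Fintype.card κ' : ℝ) * g ≤ 1 / 2) (R : κ → κ' → ℝ) (hR : ∀ a b, 0 ≤ R a b)
    (w : Option κ × Option κ' → ℝ)
    (h00 : w (none, none) ≤ wt g (none : Option κ) * wt g (none : Option κ') +
      (∑ a, ∑ a', R a a') * g)
    (h10 : ∀ a, w (some a, none) ≤ g) (h01 : ∀ a', w (none, some a') ≤ g)
    (h11 : ∀ a a', w (some a, some a') ≤ g * R a a')
    (Y : Option κ × Option κ' → ℝ) :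
    ∑ s, w s * (∑ c, (psi1 g c.1 s.1 * psi1 g c.2 s.2) * Y c) ^ 2 ≤
      ∑ c, bet2 g R c * (Y c) ^ 2 := by
  set K : ℝ := (Fintype.card κ : ℝ) with hKd
  set K' : ℝ := (Fintype.card κ' : ℝ) with hKd'
  have hK0 : 0 ≤ K := Nat.cast_nonneg _
  have hK0' : 0 ≤ K' := Nat.cast_nonneg _
  set r : ℝ := ∑ a, ∑ a', R a a' with hr
  have hr0 : 0 ≤ r := Finset.sum_nonneg fun a _ => Finset.sum_nonneg fun a' _ => hR a a'
  -- the inner function
  set F : Option κ → Option κ' → ℝ := fun c c' =>
    ∑ b, psi1 g b c * ∑ b', psi1 g b' c' * Y (b, b') with hF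
  have hFe : ∀ s : Option κ × Option κ',
      ∑ c : Option κ × Option κ', (psi1 g c.1 s.1 * psi1 g c.2 s.2) * Y c = F s.1 s.2 := by
    intro s
    rw [Fintype.sum_prod_type]
    simp only [hF]
    refine Finset.sum_congr rfl fun b _ => ?_
    rw [Finset.mul_sum]
    exact Finset.sum_congr rfl fun b' _ => by ring
  simp only [hFe]
  set Z : Option κ → ℝ := fun b => ∑ b', psi1 g b' (none : Option κ') * Y (b, b') with hZ
  set Z' : Option κ' → ℝ := fun b' => ∑ b, psi1 g b (none : Option κ) * Y (b, b') with hZ'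
  set A : ℝ := ∑ b, psi1 g b (none : Option κ) * Z b with hA
  have hA' : A = ∑ b', psi1 g b' (none : Option κ') * Z' b' := by
    rw [hA]
    simp only [hZ, hZ', Finset.mul_sum]
    rw [Finset.sum_comm]
    exact Finset.sum_congr rfl fun b' _ => Finset.sum_congr rfl fun b _ => by ring
  have hF00 : F none none = A := rfl
  have hF10 : ∀ a, F (some a) none = A + Z (some a) := by
    intro a
    simp only [hF]
    rw [psi_shift]
  have hF01 : ∀ a', F none (some a') = A + Z' (some a') := by
    intro a'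
    simp only [hF]
    have e1 : ∀ b, ∑ b', psi1 g b' (some a') * Y (b, b') = Z b + Y (b, some a') := by
      intro b
      rw [psi_shift g (fun b' => Y (b, b')) a']
    simp only [e1, mul_add, Finset.sum_add_distrib]
    rfl
  have hF11 : ∀ a a', F (some a) (some a') = A + Z (some a) + Z' (some a') +
      Y (some a, some a') := by
    intro a a'
    simp only [hF]
    rw [psi_shift]
    have e1 : ∀ b, ∑ b', psi1 g b' (some a') * Y (b, b') = Z b + Y (b, some a') := by
      intro b
      rw [psi_shift g (fun b' => Y (b, b')) a']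
    simp only [e1, mul_add, Finset.sum_add_distrib]
    change A + Z' (some a') + (Z (some a) + Y (some a, some a')) = _
    ring
  -- norms
  set M : Option κ → ℝ := fun b => ∑ b', nu1 g b' * (Y (b, b')) ^ 2 with hM
  set M' : Option κ' → ℝ := fun b' => ∑ b, nu1 g b * (Y (b, b')) ^ 2 with hM'
  set N : ℝ := ∑ b, nu1 g b * M b with hN
  have hN' : N = ∑ b', nu1 g b' * M' b' := by
    rw [hN]
    simp only [hM, hM', Finset.mul_sum]
    rw [Finset.sum_comm]
    exact Finset.sum_congr rfl fun b' _ => Finset.sum_congr rfl fun b _ => by ring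
  have hM0 : ∀ b, 0 ≤ M b := fun b =>
    Finset.sum_nonneg fun b' _ => mul_nonneg (nu1_nonneg hg _) (sq_nonneg _)
  have hM0' : ∀ b, 0 ≤ M' b := fun b =>
    Finset.sum_nonneg fun b' _ => mul_nonneg (nu1_nonneg hg _) (sq_nonneg _)
  have hN0 : 0 ≤ N := Finset.sum_nonneg fun b _ => mul_nonneg (nu1_nonneg hg _) (hM0 b)
  have hZM : ∀ b, (Z b) ^ 2 ≤ 2 * M b := fun b => none_sq g hg hK' (fun b' => Y (b, b'))
  have hZM' : ∀ b, (Z' b) ^ 2 ≤ 2 * M' b := fun b => none_sq g hg hK (fun b' => Y (b', b))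
  have hA4 : A ^ 2 ≤ 4 * N := by
    have h1 := none_sq g hg hK Z
    have h2 : ∑ a, nu1 g a * (Z a) ^ 2 ≤ 2 * N := by
      rw [hN, Finset.mul_sum]
      refine Finset.sum_le_sum fun b _ => ?_
      have := mul_le_mul_of_nonneg_left (hZM b) (nu1_nonneg hg b)
      linarith
    calc A ^ 2 ≤ 2 * ∑ a, nu1 g a * (Z a) ^ 2 := h1
      _ ≤ 4 * N := by linarith
  -- the product measure
  have hprod : ∑ c, ∑ c', wt g c * wt g c' * (F c c') ^ 2 ≤ N := by
    have h1 : ∀ c' : Option κ', ∑ c, wt g c * (F c c') ^ 2 ≤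
        ∑ b, nu1 g b * (∑ b', psi1 g b' c' * Y (b, b')) ^ 2 := fun c' =>
      local_upper g hg (fun b => ∑ b', psi1 g b' c' * Y (b, b'))
    have hwt : ∀ c' : Option κ', 0 ≤ wt g c' := by
      intro c'
      cases c' with
      | none => rw [wt_none]; linarith
      | some k => rw [wt_some]; exact hg
    calc ∑ c, ∑ c', wt g c * wt g c' * (F c c') ^ 2
        = ∑ c', wt g c' * ∑ c, wt g c * (F c c') ^ 2 := by
          rw [Finset.sum_comm]
          refine Finset.sum_congr rfl fun c' _ => ?_
          rw [Finset.mul_sum]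
          exact Finset.sum_congr rfl fun c _ => by ring
      _ ≤ ∑ c', wt g c' * ∑ b, nu1 g b * (∑ b', psi1 g b' c' * Y (b, b')) ^ 2 :=
          Finset.sum_le_sum fun c' _ => mul_le_mul_of_nonneg_left (h1 c') (hwt c')
      _ = ∑ b, nu1 g b * ∑ c', wt g c' * (∑ b', psi1 g b' c' * Y (b, b')) ^ 2 := by
          simp_rw [Finset.mul_sum]
          rw [Finset.sum_comm]
          exact Finset.sum_congr rfl fun b _ => Finset.sum_congr rfl fun c' _ => by ring
      _ ≤ ∑ b, nu1 g b * M b := Finset.sum_le_sum fun b _ =>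
          mul_le_mul_of_nonneg_left (local_upper g hg (fun b' => Y (b, b'))) (nu1_nonneg hg b)
  -- split the sum over the states
  have hsplit : ∀ G : Option κ → Option κ' → ℝ, ∑ c, ∑ c', G c c' =
      G none none + ∑ a, G (some a) none + ∑ a', G none (some a') + ∑ a, ∑ a', G (some a) (some a') := by
    intro G
    rw [Fintype.sum_option]
    simp only [Fintype.sum_option]
    rw [Finset.sum_add_distrib]
    ring
  have hlhs : ∑ s : Option κ × Option κ', w s * (F s.1 s.2) ^ 2 =
      w (none, none) * A ^ 2 + ∑ a, w (some a, none) * (A + Z (some a)) ^ 2 +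
      ∑ a', w (none, some a') * (A + Z' (some a')) ^ 2 +
      ∑ a, ∑ a', w (some a, some a') * (A + Z (some a) + Z' (some a') + Y (some a, some a')) ^ 2 := by
    rw [Fintype.sum_prod_type, hsplit (fun c c' => w (c, c') * (F c c') ^ 2)]
    simp only [hF00, hF10, hF01, hF11]
  have hp2 := hprod
  rw [hsplit (fun c c' => wt g c * wt g c' * (F c c') ^ 2)] at hp2
  simp only [hF00, hF10, hF01, hF11, wt_none, wt_some, ← hKd, ← hKd'] at hp2
  rw [hlhs]
  rw [wt_none, wt_none, ← hKd, ← hKd'] at h00
  -- the four pieces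
  have g2 : 0 ≤ g ^ 2 := sq_nonneg g
  have e00 : w (none, none) * A ^ 2 ≤ (1 - K * g) * (1 - K' * g) * A ^ 2 + r * g * (4 * N) := by
    have h1 := mul_le_mul_of_nonneg_right h00 (sq_nonneg A)
    have h2 := mul_le_mul_of_nonneg_left hA4 (mul_nonneg hr0 hg)
    linarith
  have e10 : ∑ a, w (some a, none) * (A + Z (some a)) ^ 2 ≤
      ∑ a, g * (1 - K' * g) * (A + Z (some a)) ^ 2 +
        (8 * (K * K') * g ^ 2 * N + 4 * K' * g ^ 2 * ∑ a, M (some a)) := by
    have h1 : ∀ a, w (some a, none) * (A + Z (some a)) ^ 2 ≤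
        g * (1 - K' * g) * (A + Z (some a)) ^ 2 + K' * g ^ 2 * (8 * N + 4 * M (some a)) := by
      intro a
      have h2 := mul_le_mul_of_nonneg_right (h10 a) (sq_nonneg (A + Z (some a)))
      have h3 : (A + Z (some a)) ^ 2 ≤ 8 * N + 4 * M (some a) := by
        have := hZM (some a)
        nlinarith [sq_nonneg (A - Z (some a))]
      have h4 := mul_le_mul_of_nonneg_left h3 (mul_nonneg hK0' g2)
      nlinarith
    refine (Finset.sum_le_sum fun a _ => h1 a).trans (le_of_eq ?_)
    rw [Finset.sum_add_distrib]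
    congr 1
    rw [← Finset.mul_sum, Finset.sum_add_distrib, Finset.sum_const, Finset.card_univ,
      nsmul_eq_mul, ← Finset.mul_sum, ← hKd]
    ring
  have e01 : ∑ a', w (none, some a') * (A + Z' (some a')) ^ 2 ≤
      ∑ a', (1 - K * g) * g * (A + Z' (some a')) ^ 2 +
        (8 * (K * K') * g ^ 2 * N + 4 * K * g ^ 2 * ∑ a', M' (some a')) := by
    have h1 : ∀ a, w (none, some a) * (A + Z' (some a)) ^ 2 ≤
        (1 - K * g) * g * (A + Z' (some a)) ^ 2 + K * g ^ 2 * (8 * N + 4 * M' (some a)) := by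
      intro a
      have h2 := mul_le_mul_of_nonneg_right (h01 a) (sq_nonneg (A + Z' (some a)))
      have h3 : (A + Z' (some a)) ^ 2 ≤ 8 * N + 4 * M' (some a) := by
        have := hZM' (some a)
        nlinarith [sq_nonneg (A - Z' (some a))]
      have h4 := mul_le_mul_of_nonneg_left h3 (mul_nonneg hK0 g2)
      nlinarith
    refine (Finset.sum_le_sum fun a _ => h1 a).trans (le_of_eq ?_)
    rw [Finset.sum_add_distrib]
    congr 1
    rw [← Finset.mul_sum, Finset.sum_add_distrib, Finset.sum_const, Finset.card_univ,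
      nsmul_eq_mul, ← Finset.mul_sum, ← hKd']
    ring
  have e11 : ∑ a, ∑ a', w (some a, some a') *
      (A + Z (some a) + Z' (some a') + Y (some a, some a')) ^ 2 ≤
      ∑ a, ∑ a', g * g * (A + Z (some a) + Z' (some a') + Y (some a, some a')) ^ 2 +
        (16 * r * g * N + 8 * g * ∑ a, (∑ a', R a a') * M (some a) +
          8 * g * ∑ a', (∑ a, R a a') * M' (some a') +
          4 * g * ∑ a, ∑ a', R a a' * (Y (some a, some a')) ^ 2) := by
    have h1 : ∀ a a', w (some a, some a') *
        (A + Z (some a) + Z' (some a') + Y (some a, some a')) ^ 2 ≤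
        g * g * (A + Z (some a) + Z' (some a') + Y (some a, some a')) ^ 2 +
        (16 * g * N * R a a' + 8 * g * (R a a' * M (some a)) + 8 * g * (R a a' * M' (some a')) +
          4 * g * (R a a' * (Y (some a, some a')) ^ 2)) := by
      intro a a'
      have h2 := mul_le_mul_of_nonneg_right (h11 a a')
        (sq_nonneg (A + Z (some a) + Z' (some a') + Y (some a, some a')))
      have h3 : (A + Z (some a) + Z' (some a') + Y (some a, some a')) ^ 2 ≤
          16 * N + 8 * M (some a) + 8 * M' (some a') + 4 * (Y (some a, some a')) ^ 2 := by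
        have h4 := hZM (some a)
        have h5 := hZM' (some a')
        have h6 : (A + Z (some a) + Z' (some a') + Y (some a, some a')) ^ 2 ≤
            4 * (A ^ 2 + (Z (some a)) ^ 2 + (Z' (some a')) ^ 2 + (Y (some a, some a')) ^ 2) := by
          nlinarith [sq_nonneg (A - Z (some a)), sq_nonneg (A - Z' (some a')),
            sq_nonneg (A - Y (some a, some a')), sq_nonneg (Z (some a) - Z' (some a')),
            sq_nonneg (Z (some a) - Y (some a, some a')),
            sq_nonneg (Z' (some a') - Y (some a, some a'))]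
        linarith
      have h7 := mul_le_mul_of_nonneg_left h3 (mul_nonneg hg (hR a a'))
      have h8 : 0 ≤ g * g * (A + Z (some a) + Z' (some a') + Y (some a, some a')) ^ 2 := by
        positivity
      linarith
    refine (Finset.sum_le_sum fun a _ => Finset.sum_le_sum fun a' _ => h1 a a').trans (le_of_eq ?_)
    simp only [Finset.sum_add_distrib, ← Finset.mul_sum]
    have s1 : ∑ a, ∑ a', R a a' * M (some a) = ∑ a, (∑ a', R a a') * M (some a) :=
      Finset.sum_congr rfl fun a _ => by rw [Finset.sum_mul]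
    have s2 : ∑ a, ∑ a', R a a' * M' (some a') = ∑ a', (∑ a, R a a') * M' (some a') := by
      rw [Finset.sum_comm]
      exact Finset.sum_congr rfl fun a _ => by rw [Finset.sum_mul]
    rw [s1, s2, ← hr]
    ring
  -- the right side
  have hrhs : ∑ c : Option κ × Option κ', bet2 g R c * (Y c) ^ 2 =
      (1 + 16 * (K * K') * g ^ 2 + 20 * r * g) * N + 4 * K' * g ^ 2 * ∑ a, M (some a) +
      4 * K * g ^ 2 * ∑ a', M' (some a') + 8 * g * ∑ a, (∑ a', R a a') * M (some a) +
      8 * g * ∑ a', (∑ a, R a a') * M' (some a') +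
      4 * g * ∑ a, ∑ a', R a a' * (Y (some a, some a')) ^ 2 := by
    have t0 : ∀ c : Option κ × Option κ', bet2 g R c * (Y c) ^ 2 =
        (1 + 16 * (K * K') * g ^ 2 + 20 * r * g) * (nu1 g c.1 * (nu1 g c.2 * (Y c) ^ 2)) +
        4 * K' * g * (on c.1 * (nu1 g c.1 * (nu1 g c.2 * (Y c) ^ 2))) +
        4 * K * g * (on c.2 * (nu1 g c.2 * (nu1 g c.1 * (Y c) ^ 2))) +
        8 * g * (mt R c.1 * (nu1 g c.2 * (Y c) ^ 2)) +
        8 * g * (mt (fun a' a => R a a') c.2 * (nu1 g c.1 * (Y c) ^ 2)) +
        4 * g * (rv R c * (Y c) ^ 2) := by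
      intro c
      unfold bet2
      ring
    rw [Finset.sum_congr rfl (fun c _ => t0 c)]
    simp only [Finset.sum_add_distrib, ← Finset.mul_sum]
    have t1 : ∑ c : Option κ × Option κ', nu1 g c.1 * (nu1 g c.2 * (Y c) ^ 2) = N := by
      rw [Fintype.sum_prod_type, hN]
      refine Finset.sum_congr rfl fun b _ => ?_
      simp only [hM, Finset.mul_sum]
    have t2 : ∑ c : Option κ × Option κ', on c.1 * (nu1 g c.1 * (nu1 g c.2 * (Y c) ^ 2)) =
        g * ∑ a, M (some a) := by
      rw [Fintype.sum_prod_type, Fintype.sum_option, Finset.mul_sum]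
      simp only [on, zero_mul, Finset.sum_const_zero, zero_add, one_mul, nu1]
      refine Finset.sum_congr rfl fun a _ => ?_
      simp only [hM, Finset.mul_sum]
      rfl
    have t3 : ∑ c : Option κ × Option κ', on c.2 * (nu1 g c.2 * (nu1 g c.1 * (Y c) ^ 2)) =
        g * ∑ a', M' (some a') := by
      rw [Fintype.sum_prod_type_right, Fintype.sum_option, Finset.mul_sum]
      simp only [on, zero_mul, Finset.sum_const_zero, zero_add, one_mul, nu1]
      refine Finset.sum_congr rfl fun a _ => ?_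
      simp only [hM', Finset.mul_sum]
      rfl
    have t4 : ∑ c : Option κ × Option κ', mt R c.1 * (nu1 g c.2 * (Y c) ^ 2) =
        ∑ a, (∑ a', R a a') * M (some a) := by
      rw [Fintype.sum_prod_type, Fintype.sum_option]
      simp only [mt, zero_mul, Finset.sum_const_zero, zero_add]
      refine Finset.sum_congr rfl fun a _ => ?_
      simp only [hM, Finset.mul_sum]
    have t5 : ∑ c : Option κ × Option κ', mt (fun a' a => R a a') c.2 * (nu1 g c.1 * (Y c) ^ 2) =
        ∑ a', (∑ a, R a a') * M' (some a') := by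
      rw [Fintype.sum_prod_type_right, Fintype.sum_option]
      simp only [mt, zero_mul, Finset.sum_const_zero, zero_add]
      refine Finset.sum_congr rfl fun a _ => ?_
      simp only [hM', Finset.mul_sum]
    have t6 : ∑ c : Option κ × Option κ', rv R c * (Y c) ^ 2 =
        ∑ a, ∑ a', R a a' * (Y (some a, some a')) ^ 2 := by
      rw [Fintype.sum_prod_type, hsplit (fun c c' => rv R (c, c') * (Y (c, c')) ^ 2)]
      simp [rv]
    rw [t1, t2, t3, t4, t5, t6]
    ring
  rw [hrhs]
  have hq : 0 ≤ K' * g ^ 2 * ∑ a, M (some a) := by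
    have := Finset.sum_nonneg (s := (univ : Finset κ)) fun a _ => hM0 (some a)
    positivity
  linarith

end Run7.h294.G
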