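import Pool.Agent.H256R2.SC.J
import Pool.Agent.Run7.h294.G3

set_option autoImplicit false
set_option linter.unusedSectionVars false

/-! # Coefficients truncated in size and in the number of colours: first and second moments -/

namespace Run7.h294.G

open Finset Pool.Agent.H256R2.SC Pool.Agent.H256R2.SC.DD

variable {n : ℕ} {κ : Type} [Fintype κ] [DecidableEq κ]

/-- number of colours used -/
noncomputable def ncol (D : Col n κ) : ℕ := (univ.filter (fun k => (fib D k).Nonempty)).card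

/-- coefficients truncated in size and number of colours -/
noncomputable def yC (p : Fin n → ℝ) (h : Finset (Fin n) → ℝ) (Q : ℝ) (j : ℕ) (D : Col n κ) : ℝ :=
  if qq p D ≤ Q ∧ ncol D ≤ j then yy h D else 0

lemma ncol_ins {k : κ} {s : Finset (Fin n)} {D : Col n κ} (hD : D ∈ avoid n k)
    (hs : s ⊆ free D) : ncol (ins k s D) = ncol D + if s.Nonempty then 1 else 0 := by
  unfold ncol
  have h1 : (univ.filter (fun l => (fib (ins k s D) l).Nonempty)) =
      (univ.filter (fun l => (fib D l).Nonempty)) ∪ (if s.Nonempty then {k} else ∅) := by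
    ext l
    rw [Finset.mem_filter, Finset.mem_union, Finset.mem_filter]
    simp only [Finset.mem_univ, true_and]
    by_cases hl : l = k
    · subst hl
      rw [fib_ins_self hD, fib_eq_empty hD]
      by_cases hn : s.Nonempty
      · simp [hn]
      · simp [hn]
    · rw [fib_ins_ne hl hs]
      by_cases hn : s.Nonempty
      · simp [hn, hl]
      · simp [hn]
  rw [h1, Finset.card_union_of_disjoint]
  · split_ifs <;> simp
  · split_ifs
    · rw [Finset.disjoint_singleton_right, Finset.mem_filter, fib_eq_empty hD]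
      simp
    · exact Finset.disjoint_empty_right _

/-- the bracket -/
noncomputable def RC (p g : Fin n → ℝ) (h : Finset (Fin n) → ℝ) (Q : ℝ) (j : ℕ) (D : Col n κ) : ℝ :=
  ∑ s ∈ (free D).powerset, if (∏ i ∈ s, p i) * qq p D ≤ Q ∧
    ncol D + (if s.Nonempty then 1 else 0) ≤ j then al h s * ∏ i ∈ s, (-(g i)) else 0

theorem redC_eq (p g : Fin n → ℝ) (h : Finset (Fin n) → ℝ) (Q : ℝ) (j : ℕ) (k : κ) (D : Col n κ)
    (hD : D ∈ avoid n k) : red g (yC p h Q j) k D = yy h D * RC p g h Q j D := by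
  unfold red RC
  rw [sum_fiber k D hD, Finset.mul_sum]
  refine Finset.sum_congr rfl fun s hs => ?_
  rw [Finset.mem_powerset] at hs
  unfold yC
  rw [qq_ins p hs, fib_ins_self hD, yy_ins h hD hs, ncol_ins hD hs]
  split_ifs <;> ring

theorem redC_zero (p g : Fin n → ℝ) (h : Finset (Fin n) → ℝ) (Q : ℝ) (j : ℕ) (k : κ) (D : Col n κ)
    (hD : D ∉ avoid n k) : red g (yC p h Q j) k D = 0 := by
  unfold red
  exact sum_fiber_empty k D hD _

theorem RC_eq_RR (p g : Fin n → ℝ) (h : Finset (Fin n) → ℝ) (Q : ℝ) (j : ℕ) (D : Col n κ)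
    (hj : ncol D < j) : RC p g h Q j D = RR p g h Q D := by
  unfold RC RR
  refine Finset.sum_congr rfl fun s _ => ?_
  have : ncol D + (if s.Nonempty then 1 else 0) ≤ j := by split_ifs <;> omega
  simp only [this, and_true]

theorem RC_top (p g : Fin n → ℝ) (h : Finset (Fin n) → ℝ) (Q : ℝ) (j : ℕ) (D : Col n κ)
    (hj : ncol D = j) : RC p g h Q j D = if qq p D ≤ Q then 1 else 0 := by
  unfold RC
  rw [Finset.sum_eq_single (∅ : Finset (Fin n))]
  · have h0 : ¬ (∅ : Finset (Fin n)).Nonempty := Finset.not_nonempty_empty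
    simp only [Finset.prod_empty, one_mul, mul_one, h0, if_false, add_zero, hj, le_refl, and_true]
    have h2 : al h (∅ : Finset (Fin n)) = 1 := by simp [al]
    rw [h2]
  · intro s _ hs
    have h1 : s.Nonempty := Finset.nonempty_iff_ne_empty.2 hs
    rw [if_neg]
    rintro ⟨_, h2⟩
    rw [if_pos h1] at h2
    omega
  · intro h1
    exact absurd (Finset.empty_mem_powerset _) h1

theorem RC_big (p g : Fin n → ℝ) (h : Finset (Fin n) → ℝ) (Q : ℝ) (j : ℕ) (D : Col n κ)
    (hj : j < ncol D) : RC p g h Q j D = 0 := by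
  unfold RC
  refine Finset.sum_eq_zero fun s _ => ?_
  rw [if_neg]
  rintro ⟨_, h2⟩
  omega

theorem RC_bd {p g : Fin n → ℝ} {h : Finset (Fin n) → ℝ} {z K : ℝ} (H : Hyp p g h z K) (Q : ℝ)
    (j : ℕ) (D : Col n κ) : 0 ≤ RC p g h Q j D ∧ RC p g h Q j D ≤ 1 := by
  rcases lt_trichotomy (ncol D) j with hj | hj | hj
  · rw [RC_eq_RR p g h Q j D hj]
    exact RR_le_one H Q D
  · rw [RC_top p g h Q j D hj]
    split_ifs <;> norm_num
  · rw [RC_big p g h Q j D hj]
    norm_num

theorem red_yC {p g : Fin n → ℝ} {h : Finset (Fin n) → ℝ} {z K : ℝ} (H : Hyp p g h z K)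
    (Q δ : ℝ) (j : ℕ) (hQ : 0 < Q)
    (hδ : ∀ D : Col n κ, qq p D ≤ Q → 2 * ∑ i with D i ≠ none, g i ≤ δ) (k : κ) :
    ∑ D : Col n κ, nu g D * (red g (yC p h Q j) k D) ^ 2 ≤
      δ ^ 2 * Zs κ g h + ∑ D : Col n κ with (Q / z < qq p D ∨ j ≤ ncol D),
        (yy h D) ^ 2 * nu g D := by
  have hz0 : 0 < z := by linarith [H.z1]
  unfold Zs
  rw [Finset.mul_sum, Finset.sum_filter, ← Finset.sum_add_distrib]
  refine Finset.sum_le_sum fun D _ => ?_
  have hy : 0 ≤ (yy h D) ^ 2 * nu g D := mul_nonneg (sq_nonneg _) (nu_nonneg H.g0 D)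
  have h2 : 0 ≤ δ ^ 2 * ((yy h D) ^ 2 * nu g D) := mul_nonneg (sq_nonneg _) hy
  by_cases hD : D ∈ avoid n k
  · rw [redC_eq p g h Q j k D hD]
    obtain ⟨hR0, hR1⟩ := RC_bd H Q j D
    by_cases hq : Q / z < qq p D ∨ j ≤ ncol D
    · rw [if_pos hq]
      have h1 : (RC p g h Q j D) ^ 2 ≤ 1 := by nlinarith
      calc nu g D * (yy h D * RC p g h Q j D) ^ 2 =
            ((yy h D) ^ 2 * nu g D) * (RC p g h Q j D) ^ 2 := by ring
        _ ≤ ((yy h D) ^ 2 * nu g D) * 1 := mul_le_mul_of_nonneg_left h1 hy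
        _ ≤ _ := by linarith
    · rw [if_neg hq, add_zero]
      push Not at hq
      have h3 := RR_le_delta H Q D hq.1
      have hqQ : qq p D ≤ Q := hq.1.trans (div_le_self hQ.le H.z1.le)
      have h4 := h3.trans (hδ D hqQ)
      rw [RC_eq_RR p g h Q j D hq.2] at hR0 ⊢
      have h5 : (RR p g h Q D) ^ 2 ≤ δ ^ 2 := pow_le_pow_left₀ hR0 h4 2
      calc nu g D * (yy h D * RR p g h Q D) ^ 2 = (RR p g h Q D) ^ 2 * ((yy h D) ^ 2 * nu g D) := by
            ring
        _ ≤ δ ^ 2 * ((yy h D) ^ 2 * nu g D) := mul_le_mul_of_nonneg_right h5 hy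
  · rw [redC_zero p g h Q j k D hD]
    split_ifs
    · nlinarith
    · nlinarith

/-- the number of colours has an exponential tail -/
theorem tail_ncol {p g : Fin n → ℝ} {h : Finset (Fin n) → ℝ} {z K : ℝ} (H : Hyp p g h z K)
    (hm : ℝ) (hhm : ∀ s, h s ≤ hm) (j : ℕ) :
    ∑ D : Col n κ with j ≤ ncol D, (yy h D) ^ 2 * nu g D ≤
      Real.exp (2 * (Fintype.card κ : ℝ) * hm - j) * Zs κ g h := by
  classical
  have hg : ∀ i, 0 ≤ g i := fun i => (H.g0 i).le
  have hm0 : 0 ≤ hm := (H.h0 ∅).trans (hhm ∅)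
  have he2 : Real.exp 1 - 1 ≤ 2 := by have := Real.exp_one_lt_d9; linarith
  have he1 : 1 ≤ Real.exp 1 := Real.one_le_exp (by norm_num)
  have hgs : ∀ s : Finset (Fin n), 0 ≤ ∏ i ∈ s, g i := fun s => Finset.prod_nonneg fun i _ => hg i
  set ex : Finset (Fin n) → ℝ := fun s => if s.Nonempty then Real.exp 1 else 1 with hex
  have hex1 : ∀ s, 1 ≤ ex s := by
    intro s
    simp only [hex]
    split_ifs
    · exact he1
    · exact le_rfl
  set W : Finset κ → κ → Finset (Fin n) → ℝ := fun T k s =>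
    (al h s) ^ 2 * (if k ∈ T then ex s else 1) with hW
  have hW0 : ∀ T k s, 0 ≤ W T k s := by
    intro T k s
    simp only [hW]
    refine mul_nonneg (sq_nonneg _) ?_
    split_ifs
    · exact zero_le_one.trans (hex1 s)
    · exact zero_le_one
  set v : Finset (Fin n) → ℝ := fun s => (al h s) ^ 2 * (ex s - 1) with hv
  have hv0 : ∀ s, 0 ≤ v s := fun s => mul_nonneg (sq_nonneg _) (by linarith [hex1 s])
  have hcost : ∑ s : Finset (Fin n), (∏ i ∈ s, g i) * v s ≤ 2 * hm := by
    have h1 : ∀ s : Finset (Fin n), (∏ i ∈ s, g i) * v s ≤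
        if s.Nonempty then 2 * hm * (h s * ∏ i ∈ s, g i) else 0 := by
      intro s
      split_ifs with hs
      · have hal : (al h s) ^ 2 = (h s) ^ 2 := by
          unfold al
          rw [if_neg hs.ne_empty, neg_sq, mul_pow, ← pow_mul, mul_comm s.card 2, pow_mul]
          norm_num
        simp only [hv, hex, if_pos hs]
        rw [hal]
        have h2 : (h s) ^ 2 * (Real.exp 1 - 1) ≤ 2 * hm * h s := by
          have h3 : (h s) ^ 2 ≤ hm * h s := by
            rw [sq]
            exact mul_le_mul_of_nonneg_right (hhm s) (H.h0 s)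
          have h4 : 0 ≤ hm * h s := mul_nonneg hm0 (H.h0 s)
          nlinarith [sq_nonneg (h s)]
        calc (∏ i ∈ s, g i) * ((h s) ^ 2 * (Real.exp 1 - 1)) ≤ (∏ i ∈ s, g i) * (2 * hm * h s) :=
              mul_le_mul_of_nonneg_left h2 (hgs s)
          _ = _ := by ring
      · simp only [hv, hex, if_neg hs]
        simp
    refine (Finset.sum_le_sum fun s _ => h1 s).trans ?_
    rw [← Finset.sum_filter, ← Finset.mul_sum, H.sum1, mul_one]
  have hind : ∀ T : Finset κ, E_Z g (W T) ≤ (1 + 2 * hm) ^ T.card * E_Z g (W ∅) := by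
    intro T
    induction T using Finset.induction_on with
    | empty => simp
    | insert k T hkT ih =>
      have hupd : W (insert k T) = Function.update (W T) k (fun s => W T k s + v s) := by
        funext l s
        by_cases hl : l = k
        · subst hl
          simp only [Function.update_self, hW, hv, mem_insert_self, if_true, if_neg hkT]
          ring
        · rw [Function.update_of_ne hl]
          simp only [hW, mem_insert, hl, false_or]
      have hWk : W T k ∅ = 1 := by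
        simp [hW, al, hkT]
      have h1 := E_step hg (W T) (hW0 T) k hWk v hv0 _ hcost
      rw [hupd, Finset.card_insert_of_notMem hkT, pow_succ']
      refine h1.trans ?_
      rw [mul_assoc]
      exact mul_le_mul_of_nonneg_left ih (by positivity)
  have hZ0 : E_Z g (W ∅) = Zs κ g h := by
    unfold E_Z Zs
    refine Finset.sum_congr rfl fun D _ => ?_
    have : ∏ k, W ∅ k (fib D k) = (yy h D) ^ 2 := by
      unfold yy
      rw [← Finset.prod_pow]
      refine Finset.prod_congr rfl fun k _ => ?_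
      simp [hW]
    rw [this]
    ring
  have hZs0 : 0 ≤ Zs κ g h := by
    unfold Zs
    exact Finset.sum_nonneg fun D _ => mul_nonneg (sq_nonneg _) (E_nu_nonneg hg D)
  have hZu : E_Z g (W univ) = ∑ D : Col n κ,
      (yy h D) ^ 2 * nu g D * Real.exp (ncol D) := by
    unfold E_Z
    refine Finset.sum_congr rfl fun D _ => ?_
    have h1 : ∏ k, W univ k (fib D k) = (yy h D) ^ 2 * Real.exp (ncol D) := by
      have h2 : ∀ k, W univ k (fib D k) = (al h (fib D k)) ^ 2 * ex (fib D k) := by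
        intro k
        simp [hW]
      simp_rw [h2]
      rw [Finset.prod_mul_distrib]
      unfold yy
      rw [Finset.prod_pow]
      congr 1
      simp only [hex]
      rw [Finset.prod_ite, Finset.prod_const_one, mul_one, Finset.prod_const, ← Real.exp_nat_mul,
        mul_one]
      rfl
    rw [h1]
    ring
  have hu := hind univ
  rw [hZ0, hZu, Finset.card_univ] at hu
  have hR : ∑ D : Col n κ with j ≤ ncol D, (yy h D) ^ 2 * nu g D ≤
      Real.exp (-(j : ℝ)) * ∑ D : Col n κ, (yy h D) ^ 2 * nu g D * Real.exp (ncol D) := by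
    rw [Finset.mul_sum]
    refine le_trans ?_ (Finset.sum_le_sum_of_subset_of_nonneg
      (Finset.filter_subset (fun D : Col n κ => j ≤ ncol D) univ)
      fun D _ _ => mul_nonneg (Real.exp_pos _).le
        (mul_nonneg (mul_nonneg (sq_nonneg _) (E_nu_nonneg hg D)) (Real.exp_pos _).le))
    refine Finset.sum_le_sum fun D hD => ?_
    have hjD : j ≤ ncol D := (mem_filter.mp hD).2
    have h1 : 1 ≤ Real.exp (-(j : ℝ)) * Real.exp (ncol D) := by
      rw [← Real.exp_add]
      apply Real.one_le_exp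
      have : (j : ℝ) ≤ ncol D := by exact_mod_cast hjD
      linarith
    have h2 : 0 ≤ (yy h D) ^ 2 * nu g D := mul_nonneg (sq_nonneg _) (E_nu_nonneg hg D)
    calc (yy h D) ^ 2 * nu g D = (yy h D) ^ 2 * nu g D * 1 := (mul_one _).symm
      _ ≤ (yy h D) ^ 2 * nu g D * (Real.exp (-(j : ℝ)) * Real.exp (ncol D)) :=
          mul_le_mul_of_nonneg_left h1 h2
      _ = _ := by ring
  have hpow : (1 + 2 * hm) ^ Fintype.card κ ≤ Real.exp (2 * (Fintype.card κ : ℝ) * hm) := by
    calc (1 + 2 * hm) ^ Fintype.card κ ≤ (Real.exp (2 * hm)) ^ Fintype.card κ := by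
          refine pow_le_pow_left₀ (by positivity) ?_ _
          rw [add_comm]
          exact Real.add_one_le_exp _
      _ = _ := by
          rw [← Real.exp_nat_mul]
          congr 1
          ring
  calc ∑ D : Col n κ with j ≤ ncol D, (yy h D) ^ 2 * nu g D
      ≤ _ := hR
    _ ≤ Real.exp (-(j : ℝ)) * ((1 + 2 * hm) ^ Fintype.card κ * Zs κ g h) :=
        mul_le_mul_of_nonneg_left hu (Real.exp_pos _).le
    _ ≤ Real.exp (-(j : ℝ)) * (Real.exp (2 * (Fintype.card κ : ℝ) * hm) * Zs κ g h) :=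
        mul_le_mul_of_nonneg_left (mul_le_mul_of_nonneg_right hpow hZs0) (Real.exp_pos _).le
    _ = _ := by
        rw [← mul_assoc, ← Real.exp_add]
        congr 2
        ring

section
variable {p g : Fin n → ℝ} {h : Finset (Fin n) → ℝ} {z K : ℝ}

lemma yC_sq_le (Q : ℝ) (j : ℕ) (D : Col n κ) : (yC p h Q j D) ^ 2 ≤ (yy h D) ^ 2 := by
  unfold yC
  split_ifs
  · exact le_rfl
  · simpa using sq_nonneg (yy h D)

/-- lower bound of the second moment -/
theorem second_lowerC (H : Hyp p g h z K) (Q δ T : ℝ) (j : ℕ)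
    (hug : ∀ i, (Fintype.card κ : ℝ) * g i ≤ 1)
    (hδ : ∀ D : Col n κ, qq p D ≤ Q → 2 * ∑ i with D i ≠ none, g i ≤ δ) (hQ0 : 0 < Q)
    (hδ0 : 0 ≤ δ) (hδ1 : (Fintype.card κ : ℝ) * δ ≤ 1)
    (hT : ∑ D : Col n κ with (Q / z < qq p D ∨ j ≤ ncol D), (yy h D) ^ 2 * nu g D ≤ T) :
    (1 - (Fintype.card κ : ℝ) * δ) * Zs κ g h - T ≤
      EE g (fun x => (VV g (yC p h Q j : Col n κ → ℝ) x) ^ 2) := by
  set u : ℝ := (Fintype.card κ : ℝ) with hu
  have hu0 : 0 ≤ u := Nat.cast_nonneg _
  have hw : ∀ i (c : Option κ), 0 ≤ wt (g i) c := fun i c => wt_nonneg (H.g0 i).le (hug i) c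
  have h1 := tensor_lower (κ := κ) g
    (fun i c => nu1 (g i) c * nu1 (1 - (Fintype.card κ : ℝ) * g i) c) hw
    (by
      intro i c
      cases c with
      | none => simp [nu1]
      | some k =>
        simp only [nu1]
        exact mul_nonneg (H.g0 i).le (by linarith [hug i]))
    (fun i Y => local_lower (g i) (H.g0 i).le Y) (yC p h Q j)
  refine le_trans ?_ h1
  have hnn : ∀ D : Col n κ, 0 ≤ (yy h D) ^ 2 * nu g D := fun D =>
    mul_nonneg (sq_nonneg _) (nu_nonneg H.g0 D)
  have h2 : ∀ D : Col n κ, (if qq p D ≤ Q ∧ ncol D ≤ j then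
      (1 - u * δ) * ((yy h D) ^ 2 * nu g D) else 0) ≤
      (∏ i, nu1 (g i) (D i) * nu1 (1 - (Fintype.card κ : ℝ) * g i) (D i)) *
        (yC p h Q j D) ^ 2 := by
    intro D
    unfold yC
    split_ifs with hD
    · rw [Finset.prod_mul_distrib]
      have e1 : ∏ i, nu1 (1 - (Fintype.card κ : ℝ) * g i) (D i) =
          ∏ i ∈ supp D, (1 - (Fintype.card κ : ℝ) * g i) := prod_nu1 _ D
      rw [e1]
      have e2 : 1 - u * δ ≤ ∏ i ∈ supp D, (1 - (Fintype.card κ : ℝ) * g i) := by
        refine le_trans ?_ (prod_ge_one_sub_sum (supp D) (fun i => (Fintype.card κ : ℝ) * g i)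
          (fun i => mul_nonneg (Nat.cast_nonneg _) (H.g0 i).le) hug)
        rw [← Finset.mul_sum]
        have e3 := hδ D hD.1
        have e4 : ∑ i ∈ supp D, g i ≤ δ / 2 := by
          unfold supp
          linarith
        have e5 : u * ∑ i ∈ supp D, g i ≤ u * (δ / 2) := mul_le_mul_of_nonneg_left e4 hu0
        have e6 : 0 ≤ u * δ := mul_nonneg hu0 hδ0
        linarith
      have e6 := hnn D
      have e7 : ∏ i, nu1 (g i) (D i) = nu g D := rfl
      rw [e7]
      have e8 := mul_le_mul_of_nonneg_right e2 e6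
      refine e8.trans (le_of_eq ?_)
      ring
    · simp
  refine le_trans ?_ (Finset.sum_le_sum (fun D _ => h2 D))
  rw [← Finset.sum_filter, ← Finset.mul_sum]
  have h3 : Zs κ g h = ∑ D : Col n κ with (qq p D ≤ Q ∧ ncol D ≤ j), (yy h D) ^ 2 * nu g D +
      ∑ D : Col n κ with ¬ (qq p D ≤ Q ∧ ncol D ≤ j), (yy h D) ^ 2 * nu g D := by
    unfold Zs
    rw [Finset.sum_filter_add_sum_filter_not]
  have h4 : ∑ D : Col n κ with ¬ (qq p D ≤ Q ∧ ncol D ≤ j), (yy h D) ^ 2 * nu g D ≤
      ∑ D : Col n κ with (Q / z < qq p D ∨ j ≤ ncol D), (yy h D) ^ 2 * nu g D := by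
    apply Finset.sum_le_sum_of_subset_of_nonneg
    · intro D hD
      rw [Finset.mem_filter] at hD ⊢
      refine ⟨hD.1, ?_⟩
      by_cases hq : qq p D ≤ Q
      · right
        have := hD.2
        push Not at this
        exact (this hq).le
      · left
        exact lt_of_le_of_lt (div_le_self hQ0.le H.z1.le) (not_le.mp hq)
    · intro D _ _
      exact hnn D
  have h6 : 0 ≤ ∑ D : Col n κ with ¬ (qq p D ≤ Q ∧ ncol D ≤ j), (yy h D) ^ 2 * nu g D :=
    Finset.sum_nonneg fun D _ => hnn D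
  have h7 : 0 ≤ u * δ := mul_nonneg hu0 hδ0
  set S1 := ∑ D : Col n κ with (qq p D ≤ Q ∧ ncol D ≤ j), (yy h D) ^ 2 * nu g D with hS1
  set S2 := ∑ D : Col n κ with ¬ (qq p D ≤ Q ∧ ncol D ≤ j), (yy h D) ^ 2 * nu g D with hS2
  rw [h3]
  nlinarith

/-- upper bound of the sieve majorant part -/
theorem second_upperC (H : Hyp p g h z K) (Q δ t T : ℝ) (j J : ℕ) (hJ : Even J) (ht : 0 < t)
    (htg : ∀ i, 3 * t * g i ≤ 1)
    (hug : ∀ i, (Fintype.card κ : ℝ) * g i ≤ 1) (hQ0 : 0 < Q)
    (hδ : ∀ D : Col n κ, qq p D ≤ Q → 2 * ∑ i with D i ≠ none, g i ≤ δ)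
    (hT : ∑ D : Col n κ with (Q / z < qq p D ∨ j ≤ ncol D), (yy h D) ^ 2 * nu g D ≤ T) (k : κ) :
    EE g (fun x => (VV g (yC p h Q j : Col n κ → ℝ) x) ^ 2 * SS J k x) ≤
      δ ^ 2 * Zs κ g h + T + (1 / t) ^ J * (Real.exp ((2 + 6 * t) * ∑ i, g i) * Zs κ g h) := by
  have hw : ∀ i (c : Option κ), 0 ≤ wt (g i) c := fun i c => wt_nonneg (H.g0 i).le (hug i) c
  have h1 : EE g (fun x => (VV g (yC p h Q j : Col n κ → ℝ) x) ^ 2 * SS J k x) ≤
      EE g (fun x => (if ∀ i, x i ≠ some k then 1 else 0) *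
        (VV g (yC p h Q j : Col n κ → ℝ) x) ^ 2 +
        (1 / t) ^ J * ((∏ i, (if x i = some k then 1 + t else 1)) *
          (VV g (yC p h Q j : Col n κ → ℝ) x) ^ 2)) := by
    apply EE_mono hw
    intro x
    have := mul_le_mul_of_nonneg_left (SS_upper J hJ t ht k x)
      (sq_nonneg (VV g (yC p h Q j : Col n κ → ℝ) x))
    refine this.trans (le_of_eq ?_)
    ring
  refine h1.trans ?_
  rw [EE_add, EE_smul]
  have h2 : EE g (fun x => (if ∀ i, x i ≠ some k then (1:ℝ) else 0) *
      (VV g (yC p h Q j : Col n κ → ℝ) x) ^ 2) ≤ δ ^ 2 * Zs κ g h + T := by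
    refine (rough_bound g (fun i => (H.g0 i).le) hw _ k).trans ?_
    refine (red_yC H Q δ j hQ0 hδ k).trans ?_
    linarith
  have h3 : EE g (fun x => (∏ i, (if x i = some k then 1 + t else 1)) *
      (VV g (yC p h Q j : Col n κ → ℝ) x) ^ 2) ≤
      Real.exp ((2 + 6 * t) * ∑ i, g i) * Zs κ g h := by
    refine le_trans ?_ (weighted_sum H t ht.le k)
    have hb : ∀ (i : Fin n) (c : Option κ), 0 ≤ bet (g i) t k c := by
      intro i c
      have := (H.g0 i).le
      cases c with
      | none =>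
        simp only [bet]
        positivity
      | some l =>
        simp only [bet]
        split_ifs
        · positivity
        · exact this
    have h4 := tensor_upper (κ := κ) g (fun _ c => if c = some k then 1 + t else 1)
      (fun i c => bet (g i) t k c) hw
      (by intro i c; split_ifs <;> linarith) hb
      (fun i Y => local_wt (g i) t (H.g0 i).le ht.le (htg i) k Y) (yC p h Q j)
    refine h4.trans ?_
    apply Finset.sum_le_sum
    intro D _
    exact mul_le_mul_of_nonneg_left (yC_sq_le Q j D) (Finset.prod_nonneg fun i _ => hb i _)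
  have h5 : (0:ℝ) ≤ (1 / t) ^ J := by positivity
  have h6 := mul_le_mul_of_nonneg_left h3 h5
  linarith

end

end Run7.h294.G
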