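import Pool.Agent.H256R2.SC.J
import Pool.Agent.Run7.h294.G2
import Pool.Agent.Run7.h294.G4

set_option autoImplicit false
set_option linter.unusedSectionVars false

/-! # Crude bound of the fourth moment -/

namespace Run7.h294.G

open Finset Pool.Agent.H256R2.SC

variable {n : ℕ} {κ : Type} [Fintype κ] [DecidableEq κ]

/-- the number of small subsets -/
lemma card_small (κ : Type) [Fintype κ] [DecidableEq κ] (j : ℕ) :
    ((univ : Finset (Finset κ)).filter (fun T => T.card ≤ j)).card ≤ (Fintype.card κ + 1) ^ j := by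
  classical
  have h1 : (univ : Finset (Finset κ)).filter (fun T => T.card ≤ j) ⊆
      (univ : Finset (Fin j → Option κ)).image
        (fun f => univ.filter (fun k => ∃ i, f i = some k)) := by
    intro T hT
    rw [Finset.mem_filter] at hT
    rw [Finset.mem_image]
    let e := T.equivFin
    refine ⟨fun i => if h : (i : ℕ) < T.card then some (e.symm ⟨i, h⟩ : κ) else none,
      Finset.mem_univ _, ?_⟩
    ext k
    rw [Finset.mem_filter]
    constructor
    · rintro ⟨_, i, hi⟩
      beta_reduce at hi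
      by_cases h : (i : ℕ) < T.card
      · rw [dif_pos h] at hi
        have h2 := Option.some.inj hi
        rw [← h2]
        exact (e.symm ⟨i, h⟩).2
      · rw [dif_neg h] at hi
        exact absurd hi (by simp)
    · intro hk
      refine ⟨Finset.mem_univ _, ⟨(e ⟨k, hk⟩ : ℕ), lt_of_lt_of_le (e ⟨k, hk⟩).2 hT.2⟩, ?_⟩
      beta_reduce
      rw [dif_pos (e ⟨k, hk⟩).2]
      simp
  refine (Finset.card_le_card h1).trans (Finset.card_image_le.trans (le_of_eq ?_))
  rw [Finset.card_univ, Fintype.card_fun, Fintype.card_option, Fintype.card_fin]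

lemma EE_prod (g : Fin n → ℝ) (f : Fin n → Option κ → ℝ) :
    EE g (fun x : Col n κ => ∏ i, f i (x i)) = ∏ i, ∑ c, wt (g i) c * f i c := by
  unfold EE
  have h1 : ∀ x : Col n κ, (∏ i, wt (g i) (x i)) * ∏ i, f i (x i) =
      ∏ i, (wt (g i) (x i) * f i (x i)) := fun x => by rw [Finset.prod_mul_distrib]
  rw [Finset.sum_congr rfl (fun x _ => h1 x)]
  have h2 := Finset.prod_univ_sum (fun _ : Fin n => (Finset.univ : Finset (Option κ)))
    (fun i c => wt (g i) c * f i c)
  rw [Fintype.piFinset_univ] at h2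
  exact h2.symm

lemma sum_wt (g : ℝ) : ∑ c : Option κ, wt g c = 1 := by
  rw [Fintype.sum_option]
  simp only [wt, Finset.sum_const, Finset.card_univ, nsmul_eq_mul]
  ring

/-- local sum over the colours of `T` -/
noncomputable def bT (g : ℝ) (T : Finset κ) (c : Option κ) : ℝ :=
  1 + ∑ k ∈ T, |psi1 g (some k) c|

lemma bT_nonneg (g : ℝ) (T : Finset κ) (c : Option κ) : 0 ≤ bT g T c := by
  unfold bT
  have := Finset.sum_nonneg (s := T) fun k _ => abs_nonneg (psi1 g (some k) c)
  linarith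

lemma bT_out (g : ℝ) (hg : 0 ≤ g) (T : Finset κ) (c : Option κ) (hc : ∀ k ∈ T, c ≠ some k) :
    bT g T c = 1 + T.card * g := by
  unfold bT
  congr 1
  rw [Finset.sum_congr rfl (fun k hk => ?_), Finset.sum_const, nsmul_eq_mul]
  simp only [psi1]
  rw [if_neg (hc k hk), zero_sub, abs_neg, abs_of_nonneg hg]

lemma bT_le (g : ℝ) (hg : 0 ≤ g) (hg1 : g ≤ 1) (T : Finset κ) (c : Option κ) :
    bT g T c ≤ 2 + T.card * g := by
  classical
  unfold bT
  have h1 : ∀ k ∈ T, |psi1 g (some k) c| ≤ (if c = some k then 1 else 0) + g := by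
    intro k _
    simp only [psi1]
    split_ifs
    · rw [abs_of_nonneg (by linarith)]; linarith
    · rw [zero_sub, abs_neg, abs_of_nonneg hg]; linarith
  have h2 : ∑ k ∈ T, |psi1 g (some k) c| ≤ 1 + T.card * g := by
    refine (Finset.sum_le_sum h1).trans ?_
    rw [Finset.sum_add_distrib, Finset.sum_const, nsmul_eq_mul]
    have h3 : ∑ k ∈ T, (if c = some k then (1:ℝ) else 0) ≤ 1 := by
      cases c with
      | none => simp
      | some l =>
        simp only [Option.some.injEq]
        rw [Finset.sum_ite_eq]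
        split_ifs <;> norm_num
    linarith
  linarith

lemma local_four (g : ℝ) (hg : 0 ≤ g) (hg1 : g ≤ 1) (hug : (Fintype.card κ : ℝ) * g ≤ 1 / 2)
    (T : Finset κ) :
    ∑ c : Option κ, wt g c * (bT g T c) ^ 4 ≤ 1 + 49 * (T.card * g) := by
  classical
  set x : ℝ := (T.card : ℝ) * g with hx
  have hx0 : 0 ≤ x := mul_nonneg (Nat.cast_nonneg _) hg
  have hTu : (T.card : ℝ) ≤ Fintype.card κ := by exact_mod_cast Finset.card_le_univ T
  have hx1 : x ≤ 1 / 2 := (mul_le_mul_of_nonneg_right hTu hg).trans hug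
  have hwt : ∀ c : Option κ, 0 ≤ wt g c := fun c => wt_nonneg hg (by linarith) c
  have hpt : ∀ c : Option κ, wt g c * (bT g T c) ^ 4 ≤ wt g c * (1 + 9 * x) +
      (if ∃ k ∈ T, c = some k then g * 40 else 0) := by
    intro c
    by_cases hc : ∃ k ∈ T, c = some k
    · rw [if_pos hc]
      obtain ⟨k, hk, rfl⟩ := hc
      have h1 := bT_le g hg hg1 T (some k)
      have h0 := bT_nonneg g T (some k)
      have h2 : (bT g T (some k)) ^ 4 ≤ (5 / 2 : ℝ) ^ 4 := pow_le_pow_left₀ h0 (by linarith) 4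
      rw [wt_some]
      have h3 : g * (bT g T (some k)) ^ 4 ≤ g * 40 := mul_le_mul_of_nonneg_left
        (h2.trans (by norm_num)) hg
      have h4 : 0 ≤ g * (1 + 9 * x) := by positivity
      linarith
    · rw [if_neg hc]
      push Not at hc
      rw [bT_out g hg T c hc, ← hx]
      have h1 : (1 + x) ^ 4 ≤ 1 + 9 * x := by
        have h2 : (1 + x) ^ 4 = 1 + 4 * x + 6 * x ^ 2 + 4 * x ^ 3 + x ^ 4 := by ring
        rw [h2]
        have h3 : x ^ 2 ≤ x / 2 := by nlinarith
        have h4 : x ^ 3 ≤ x / 4 := by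
          calc x ^ 3 = x ^ 2 * x := by ring
            _ ≤ (x / 2) * x := mul_le_mul_of_nonneg_right h3 hx0
            _ ≤ x / 4 := by nlinarith
        have h5 : x ^ 4 ≤ x / 8 := by
          calc x ^ 4 = x ^ 3 * x := by ring
            _ ≤ (x / 4) * x := mul_le_mul_of_nonneg_right h4 hx0
            _ ≤ x / 8 := by nlinarith
        linarith
      have := mul_le_mul_of_nonneg_left h1 (hwt c)
      linarith
  refine (Finset.sum_le_sum fun c _ => hpt c).trans ?_
  rw [Finset.sum_add_distrib, ← Finset.sum_mul, sum_wt, one_mul]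
  have h5 : ∑ c : Option κ, (if ∃ k ∈ T, c = some k then g * 40 else 0) = T.card * (g * 40) := by
    rw [Fintype.sum_option]
    have e0 : ¬ ∃ k ∈ T, (none : Option κ) = some k := by simp
    rw [if_neg e0, zero_add]
    have e1 : ∀ k : κ, (if ∃ l ∈ T, (some k : Option κ) = some l then g * 40 else 0) =
        if k ∈ T then g * 40 else 0 := by
      intro k
      by_cases hk : k ∈ T
      · rw [if_pos ⟨k, hk, rfl⟩, if_pos hk]
      · rw [if_neg hk, if_neg]
        rintro ⟨l, hl, hkl⟩
        rw [Option.some.inj hkl] at hk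
        exact hk hl
    rw [Finset.sum_congr rfl (fun k _ => e1 k), ← Finset.sum_filter, Finset.sum_const,
      nsmul_eq_mul]
    congr 2
    simp
  rw [h5]
  have h6 : (T.card : ℝ) * (g * 40) = 40 * x := by rw [hx]; ring
  rw [h6]
  linarith

/-- crude bound of the fourth moment -/
theorem fourth_crude (g : Fin n → ℝ) (hg : ∀ i, 0 ≤ g i) (hg1 : ∀ i, g i ≤ 1)
    (hug : ∀ i, (Fintype.card κ : ℝ) * g i ≤ 1 / 2) (j : ℕ) (y : Col n κ → ℝ)
    (hy : ∀ D, |y D| ≤ 1) (hy' : ∀ D, y D ≠ 0 → ncol D ≤ j) :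
    EE g (fun x => (VV g y x) ^ 4) ≤
      ((Fintype.card κ + 1 : ℝ) ^ j) ^ 4 * Real.exp (49 * j * ∑ i, g i) := by
  classical
  set 𝒯 : Finset (Finset κ) := (univ : Finset (Finset κ)).filter (fun T => T.card ≤ j) with h𝒯
  have hcard : (𝒯.card : ℝ) ≤ (Fintype.card κ + 1 : ℝ) ^ j := by
    have := card_small κ j
    exact_mod_cast this
  have hw : ∀ i (c : Option κ), 0 ≤ wt (g i) c := fun i c =>
    wt_nonneg (hg i) (by linarith [hug i]) c
  -- pointwise bound
  have hpt : ∀ x : Col n κ, |VV g y x| ≤ ∑ T ∈ 𝒯, ∏ i, bT (g i) T (x i) := by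
    intro x
    have h1 : |VV g y x| ≤ ∑ D : Col n κ, if ncol D ≤ j then |psi g D x| else 0 := by
      unfold VV
      refine (Finset.abs_sum_le_sum_abs _ _).trans (Finset.sum_le_sum fun D _ => ?_)
      rw [abs_mul]
      by_cases h0 : y D = 0
      · rw [h0, abs_zero, zero_mul]
        split_ifs
        · exact abs_nonneg _
        · exact le_rfl
      · rw [if_pos (hy' D h0)]
        have := mul_le_mul_of_nonneg_right (hy D) (abs_nonneg (psi g D x))
        linarith
    refine h1.trans ?_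
    -- colours in T
    set cs : Finset κ → Finset (Option κ) := fun T => insert none (T.map Function.Embedding.some)
      with hcs
    have h2 : ∀ T : Finset κ, ∏ i, bT (g i) T (x i) =
        ∑ D ∈ Fintype.piFinset (fun _ : Fin n => cs T), |psi g D x| := by
      intro T
      have h3 := Finset.prod_univ_sum (fun _ : Fin n => cs T) (fun i c => |psi1 (g i) c (x i)|)
      have h4 : ∀ i, ∑ c ∈ cs T, |psi1 (g i) c (x i)| = bT (g i) T (x i) := by
        intro i
        simp only [hcs]
        rw [Finset.sum_insert (by simp), Finset.sum_map]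
        unfold bT
        simp [psi1]
      rw [Finset.prod_congr rfl (fun i _ => h4 i)] at h3
      rw [h3]
      refine Finset.sum_congr rfl fun D _ => ?_
      unfold psi
      rw [Finset.abs_prod]
    simp_rw [h2]
    -- every D with few colours is counted
    rw [← Finset.sum_filter]
    have h5 : ∀ D : Col n κ, D ∈ univ.filter (fun D : Col n κ => ncol D ≤ j) →
        |psi g D x| ≤ ∑ T ∈ 𝒯, if D ∈ Fintype.piFinset (fun _ : Fin n => cs T) then |psi g D x|
          else 0 := by
      intro D hD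
      rw [Finset.mem_filter] at hD
      set T₀ : Finset κ := univ.filter (fun k => (fib D k).Nonempty) with hT₀
      have hT : T₀ ∈ 𝒯 := by
        rw [h𝒯, Finset.mem_filter]
        exact ⟨Finset.mem_univ _, hD.2⟩
      have hmem : D ∈ Fintype.piFinset (fun _ : Fin n => cs T₀) := by
        rw [Fintype.mem_piFinset]
        intro i
        simp only [hcs]
        rw [Finset.mem_insert]
        cases hDi : D i with
        | none => left; rfl
        | some k =>
          right
          rw [Finset.mem_map]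
          refine ⟨k, ?_, rfl⟩
          rw [hT₀, Finset.mem_filter]
          refine ⟨Finset.mem_univ _, i, ?_⟩
          unfold fib
          rw [Finset.mem_filter]
          exact ⟨Finset.mem_univ _, hDi⟩
      have h6 := Finset.single_le_sum (f := fun T => if D ∈ Fintype.piFinset
        (fun _ : Fin n => cs T) then |psi g D x| else 0) (s := 𝒯) (fun T _ => by
          split_ifs
          · exact abs_nonneg _
          · exact le_rfl) hT
      simp only [if_pos hmem] at h6
      exact h6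
    refine (Finset.sum_le_sum h5).trans ?_
    rw [Finset.sum_comm]
    refine Finset.sum_le_sum fun T _ => ?_
    rw [← Finset.sum_filter]
    refine Finset.sum_le_sum_of_subset_of_nonneg ?_ fun D _ _ => abs_nonneg _
    intro D hD
    exact (Finset.mem_filter.1 hD).2
  have h4 : ∀ x : Col n κ, (VV g y x) ^ 4 ≤
      (𝒯.card : ℝ) ^ 3 * ∑ T ∈ 𝒯, ∏ i, (bT (g i) T (x i)) ^ 4 := by
    intro x
    have e1 : (VV g y x) ^ 4 = |VV g y x| ^ 4 := by
      rw [← abs_pow, abs_of_nonneg]
      exact Even.pow_nonneg (by decide) _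
    have e2 : (∑ T ∈ 𝒯, ∏ i, bT (g i) T (x i)) ^ (3 + 1) / (𝒯.card : ℝ) ^ 3 ≤
        ∑ T ∈ 𝒯, (∏ i, bT (g i) T (x i)) ^ (3 + 1) :=
      pow_sum_div_card_le_sum_pow (fun T _ => Finset.prod_nonneg fun i _ => bT_nonneg _ _ _) 3
    have hpos : 0 < (𝒯.card : ℝ) ^ 3 := by
      have : 0 < 𝒯.card := Finset.card_pos.2 ⟨∅, by
        rw [h𝒯, Finset.mem_filter]; exact ⟨Finset.mem_univ _, by simp⟩⟩
      positivity
    rw [div_le_iff₀ hpos] at e2
    calc (VV g y x) ^ 4 = |VV g y x| ^ 4 := e1
      _ ≤ (∑ T ∈ 𝒯, ∏ i, bT (g i) T (x i)) ^ 4 := pow_le_pow_left₀ (abs_nonneg _) (hpt x) 4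
      _ ≤ (∑ T ∈ 𝒯, (∏ i, bT (g i) T (x i)) ^ 4) * (𝒯.card : ℝ) ^ 3 := e2
      _ = _ := by
        rw [mul_comm]
        simp_rw [Finset.prod_pow]
  have h5 : EE g (fun x => (VV g y x) ^ 4) ≤
      (𝒯.card : ℝ) ^ 3 * ∑ T ∈ 𝒯, EE g (fun x : Col n κ => ∏ i, (bT (g i) T (x i)) ^ 4) := by
    refine (EE_mono hw h4).trans (le_of_eq ?_)
    rw [EE_smul, EE_sum]
  refine h5.trans ?_
  have h6 : ∀ T ∈ 𝒯, EE g (fun x : Col n κ => ∏ i, (bT (g i) T (x i)) ^ 4) ≤
      Real.exp (49 * j * ∑ i, g i) := by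
    intro T hT
    rw [EE_prod g (fun i c => (bT (g i) T c) ^ 4), Finset.mul_sum, Real.exp_sum]
    refine Finset.prod_le_prod (fun i _ => Finset.sum_nonneg fun c _ =>
      mul_nonneg (hw i c) (by have := bT_nonneg (g i) T c; positivity)) fun i _ => ?_
    refine (local_four (g i) (hg i) (hg1 i) (hug i) T).trans ?_
    have hTj : (T.card : ℝ) ≤ j := by
      rw [h𝒯, Finset.mem_filter] at hT
      exact_mod_cast hT.2
    have e1 : 49 * ((T.card : ℝ) * g i) ≤ 49 * j * g i := by
      have := mul_le_mul_of_nonneg_right hTj (hg i)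
      linarith
    have e2 := Real.add_one_le_exp (49 * (j : ℝ) * g i)
    linarith
  have h7 : ∑ T ∈ 𝒯, EE g (fun x : Col n κ => ∏ i, (bT (g i) T (x i)) ^ 4) ≤
      𝒯.card * Real.exp (49 * j * ∑ i, g i) := by
    refine (Finset.sum_le_sum h6).trans ?_
    rw [Finset.sum_const, nsmul_eq_mul]
  have hc0 : (0:ℝ) ≤ 𝒯.card := Nat.cast_nonneg _
  calc (𝒯.card : ℝ) ^ 3 * ∑ T ∈ 𝒯, EE g (fun x : Col n κ => ∏ i, (bT (g i) T (x i)) ^ 4)
      ≤ (𝒯.card : ℝ) ^ 3 * (𝒯.card * Real.exp (49 * j * ∑ i, g i)) :=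
        mul_le_mul_of_nonneg_left h7 (by positivity)
    _ = (𝒯.card : ℝ) ^ 4 * Real.exp (49 * j * ∑ i, g i) := by ring
    _ ≤ _ := mul_le_mul_of_nonneg_right (pow_le_pow_left₀ hc0 hcard 4) (Real.exp_pos _).le

end Run7.h294.G
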