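import Pool.Agent.Run7.h294.G5

set_option autoImplicit false
set_option linter.unusedSectionVars false

/-! # Two windows: correlation of the square weights -/

namespace Run7.h294.G

open Finset Pool.Agent.H256R2.SC

variable {n : ℕ} {κ κ' : Type} [Fintype κ] [DecidableEq κ] [Fintype κ'] [DecidableEq κ']

lemma fib_update_ne (D : Col n κ) (i : Fin n) (a l : κ) (hl : l ≠ a) :
    fib (Function.update D i (some a)) l = fib (Function.update D i none) l := by
  ext k
  unfold fib
  rw [Finset.mem_filter, Finset.mem_filter]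
  by_cases hk : k = i
  · subst hk
    simp [Ne.symm hl]
  · rw [Function.update_of_ne hk, Function.update_of_ne hk]

lemma fib_update_self (D : Col n κ) (i : Fin n) (a : κ) :
    fib (Function.update D i (some a)) a = insert i (fib (Function.update D i none) a) := by
  ext k
  unfold fib
  rw [Finset.mem_filter, Finset.mem_insert, Finset.mem_filter]
  by_cases hk : k = i
  · subst hk
    simp
  · rw [Function.update_of_ne hk, Function.update_of_ne hk]
    simp [hk]

/-- the coefficients decrease when a prime is added -/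
theorem yC_mono {p g : Fin n → ℝ} {h : Finset (Fin n) → ℝ} {z K : ℝ} (H : Hyp p g h z K)
    (Q : ℝ) (j : ℕ) (D : Col n κ) (i : Fin n) (a : κ) :
    (yC p h Q j (Function.update D i (some a))) ^ 2 ≤
      (yC p h Q j (Function.update D i none)) ^ 2 := by
  have hp1 : ∀ i, 1 ≤ p i := fun i => (H.p1 i).le
  set D1 : Col n κ := Function.update D i (some a) with hD1
  set D0 : Col n κ := Function.update D i none with hD0
  have hq : qq p D0 ≤ qq p D1 := by
    unfold qq
    refine Finset.prod_le_prod (fun k _ => zero_le_one.trans (one_le_nu1 (hp1 k) _)) fun k _ => ?_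
    by_cases hk : k = i
    · subst hk
      simp only [hD0, hD1, Function.update_self]
      exact one_le_nu1 (hp1 k) _
    · simp only [hD0, hD1]
      rw [Function.update_of_ne hk, Function.update_of_ne hk]
  have hn : ncol D0 ≤ ncol D1 := by
    unfold ncol
    refine Finset.card_le_card fun l hl => ?_
    rw [Finset.mem_filter] at hl ⊢
    refine ⟨hl.1, ?_⟩
    by_cases hla : l = a
    · rw [hla, hD1, fib_update_self]
      exact Finset.insert_nonempty _ _
    · rw [hD1, fib_update_ne D i a l hla]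
      exact hl.2
  have hy : (yy h D1) ^ 2 ≤ (yy h D0) ^ 2 := by
    unfold yy
    rw [← Finset.prod_pow, ← Finset.prod_pow]
    refine Finset.prod_le_prod (fun l _ => sq_nonneg _) fun l _ => ?_
    by_cases hla : l = a
    · rw [hla, hD1, fib_update_self, ← hD0]
      set s := fib D0 a with hs
      have hal : ∀ t : Finset (Fin n), t.Nonempty → (al h t) ^ 2 = (h t) ^ 2 := by
        intro t ht
        unfold al
        rw [if_neg ht.ne_empty, neg_sq, mul_pow, ← pow_mul, mul_comm t.card 2, pow_mul]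
        norm_num
      rw [hal _ (Finset.insert_nonempty _ _)]
      by_cases hse : s.Nonempty
      · rw [hal s hse]
        exact pow_le_pow_left₀ (H.h0 _) (H.anti s _ hse (Finset.subset_insert _ _)) 2
      · rw [Finset.not_nonempty_iff_eq_empty] at hse
        rw [hse]
        have h1 : al h (∅ : Finset (Fin n)) = 1 := by simp [al]
        rw [h1]
        exact pow_le_pow_left₀ (H.h0 _) (H.h1 _) 2
    · rw [hD1, fib_update_ne D i a l hla]
  unfold yC
  split_ifs with h1 h2 h2
  · exact hy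
  · exact absurd ⟨hq.trans h1.1, hn.trans h1.2⟩ h2
  · simpa using sq_nonneg (yy h D0)
  · exact le_rfl

/-- the majorant after use of the monotonicity -/
noncomputable def gam2 (κ κ' : Type) [Fintype κ] [Fintype κ'] (g r : ℝ)
    (c : Option κ × Option κ') : ℝ :=
  nu1 g c.1 * nu1 g c.2 * (1 + 16 * ((Fintype.card κ : ℝ) * Fintype.card κ') * g ^ 2 +
    40 * r * g + 4 * (Fintype.card κ' : ℝ) * g * on c.1 + 4 * (Fintype.card κ : ℝ) * g * on c.2)

lemma on_nonneg (c : Option κ) : 0 ≤ on c := by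
  cases c <;> simp [on]

/-- the coordinatewise domination -/
theorem local_dom (g : ℝ) (hg : 0 ≤ g) (R : κ → κ' → ℝ) (hR : ∀ a b, 0 ≤ R a b)
    (φ : Option κ × Option κ' → ℝ) (hφ : ∀ c, 0 ≤ φ c)
    (h1 : ∀ a c', φ (some a, c') ≤ φ (none, c')) (h2 : ∀ c a', φ (c, some a') ≤ φ (c, none)) :
    ∑ c, bet2 g R c * φ c ≤ ∑ c, gam2 κ κ' g (∑ a, ∑ a', R a a') c * φ c := by
  set r : ℝ := ∑ a, ∑ a', R a a' with hr
  have hr0 : 0 ≤ r := Finset.sum_nonneg fun a _ => Finset.sum_nonneg fun a' _ => hR a a'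
  set N : ℝ := ∑ c : Option κ × Option κ', nu1 g c.1 * nu1 g c.2 * φ c with hN
  have hnn : ∀ c : Option κ × Option κ', 0 ≤ nu1 g c.1 * nu1 g c.2 * φ c := fun c =>
    mul_nonneg (mul_nonneg (nu1_nonneg hg _) (nu1_nonneg hg _)) (hφ c)
  have t4 : ∑ c : Option κ × Option κ', mt R c.1 * (nu1 g c.2 * φ c) ≤ r * N := by
    rw [Fintype.sum_prod_type, Fintype.sum_option]
    simp only [mt, zero_mul, Finset.sum_const_zero, zero_add]
    have e1 : ∀ a : κ, ∑ c' : Option κ', (∑ a', R a a') * (nu1 g c' * φ (some a, c')) ≤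
        (∑ a', R a a') * N := by
      intro a
      rw [← Finset.mul_sum]
      refine mul_le_mul_of_nonneg_left ?_ (Finset.sum_nonneg fun a' _ => hR a a')
      calc ∑ c' : Option κ', nu1 g c' * φ (some a, c')
          ≤ ∑ c' : Option κ', nu1 g c' * φ (none, c') := Finset.sum_le_sum fun c' _ =>
            mul_le_mul_of_nonneg_left (h1 a c') (nu1_nonneg hg _)
        _ ≤ N := by
          have e2 : N = ∑ c' : Option κ', nu1 g (none : Option κ) * nu1 g c' * φ (none, c') +
              ∑ k : κ, ∑ y : Option κ', nu1 g (some k) * nu1 g y * φ (some k, y) := by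
            rw [hN, Fintype.sum_prod_type,
              Fintype.sum_option (fun c : Option κ => ∑ y : Option κ', nu1 g c * nu1 g y * φ (c, y))]
          have e3 : ∑ c' : Option κ', nu1 g (none : Option κ) * nu1 g c' * φ (none, c') =
              ∑ c' : Option κ', nu1 g c' * φ (none, c') :=
            Finset.sum_congr rfl fun c' _ => by
              have : nu1 g (none : Option κ) = 1 := rfl
              rw [this, one_mul]
          have e4 : 0 ≤ ∑ k : κ, ∑ y : Option κ', nu1 g (some k) * nu1 g y * φ (some k, y) :=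
            Finset.sum_nonneg fun k _ => Finset.sum_nonneg fun y _ => hnn (some k, y)
          rw [e2, e3]
          linarith
    refine (Finset.sum_le_sum fun a _ => e1 a).trans (le_of_eq ?_)
    rw [← Finset.sum_mul]
  have t5 : ∑ c : Option κ × Option κ', mt (fun a' a => R a a') c.2 * (nu1 g c.1 * φ c) ≤
      r * N := by
    rw [Fintype.sum_prod_type_right, Fintype.sum_option]
    simp only [mt, zero_mul, Finset.sum_const_zero, zero_add]
    have e1 : ∀ a' : κ', ∑ c : Option κ, (∑ a, R a a') * (nu1 g c * φ (c, some a')) ≤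
        (∑ a, R a a') * N := by
      intro a'
      rw [← Finset.mul_sum]
      refine mul_le_mul_of_nonneg_left ?_ (Finset.sum_nonneg fun a _ => hR a a')
      calc ∑ c : Option κ, nu1 g c * φ (c, some a')
          ≤ ∑ c : Option κ, nu1 g c * φ (c, none) := Finset.sum_le_sum fun c _ =>
            mul_le_mul_of_nonneg_left (h2 c a') (nu1_nonneg hg _)
        _ ≤ N := by
          have e2 : N = ∑ c : Option κ, nu1 g c * nu1 g (none : Option κ') * φ (c, none) +
              ∑ k : κ', ∑ y : Option κ, nu1 g y * nu1 g (some k) * φ (y, some k) := by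
            rw [hN, Fintype.sum_prod_type_right,
              Fintype.sum_option (fun c : Option κ' => ∑ y : Option κ, nu1 g y * nu1 g c * φ (y, c))]
          have e3 : ∑ c : Option κ, nu1 g c * nu1 g (none : Option κ') * φ (c, none) =
              ∑ c : Option κ, nu1 g c * φ (c, none) :=
            Finset.sum_congr rfl fun c' _ => by
              have : nu1 g (none : Option κ') = 1 := rfl
              rw [this, mul_one]
          have e4 : 0 ≤ ∑ k : κ', ∑ y : Option κ, nu1 g y * nu1 g (some k) * φ (y, some k) :=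
            Finset.sum_nonneg fun k _ => Finset.sum_nonneg fun y _ => hnn (y, some k)
          rw [e2, e3]
          linarith
    refine (Finset.sum_le_sum fun a _ => e1 a).trans (le_of_eq ?_)
    rw [← Finset.sum_mul, hr, Finset.sum_comm]
  have t6 : ∑ c : Option κ × Option κ', rv R c * φ c ≤ r * N := by
    rw [Fintype.sum_prod_type, Fintype.sum_option]
    simp only [Fintype.sum_option, rv, zero_mul, Finset.sum_const_zero, zero_add]
    have e0 : φ (none, none) ≤ N := by
      rw [hN]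
      have := Finset.single_le_sum (f := fun c : Option κ × Option κ' => nu1 g c.1 * nu1 g c.2 * φ c)
        (fun c _ => hnn c) (Finset.mem_univ (none, none))
      simpa [nu1] using this
    have e1 : ∀ a a', R a a' * φ (some a, some a') ≤ R a a' * N := fun a a' =>
      mul_le_mul_of_nonneg_left (((h1 a _).trans (h2 _ a')).trans e0) (hR a a')
    refine (Finset.sum_le_sum fun a _ => Finset.sum_le_sum fun a' _ => e1 a a').trans (le_of_eq ?_)
    rw [hr, Finset.sum_mul]
    exact Finset.sum_congr rfl fun a _ => by rw [Finset.sum_mul]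
  have hb : ∀ c : Option κ × Option κ', bet2 g R c * φ c =
      (gam2 κ κ' g r c * φ c - 20 * r * g * (nu1 g c.1 * nu1 g c.2 * φ c)) +
      8 * g * (mt R c.1 * (nu1 g c.2 * φ c)) +
      8 * g * (mt (fun a' a => R a a') c.2 * (nu1 g c.1 * φ c)) + 4 * g * (rv R c * φ c) := by
    intro c
    unfold bet2 gam2
    rw [← hr]
    ring
  rw [Finset.sum_congr rfl (fun c _ => hb c)]
  simp only [Finset.sum_add_distrib, Finset.sum_sub_distrib, ← Finset.mul_sum]
  rw [← hN]
  have g8 : 0 ≤ 8 * g := by positivity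
  have u4 := mul_le_mul_of_nonneg_left t4 g8
  have u5 := mul_le_mul_of_nonneg_left t5 g8
  have u6 := mul_le_mul_of_nonneg_left t6 (show 0 ≤ 4 * g by positivity)
  linarith

lemma mt_nonneg {R : κ → κ' → ℝ} (hR : ∀ a b, 0 ≤ R a b) (c : Option κ) : 0 ≤ mt R c := by
  cases c with
  | none => simp [mt]
  | some a => exact Finset.sum_nonneg fun a' _ => hR a a'

lemma rv_nonneg {R : κ → κ' → ℝ} (hR : ∀ a b, 0 ≤ R a b) (c : Option κ × Option κ') :
    0 ≤ rv R c := by
  obtain ⟨c, c'⟩ := c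
  cases c <;> cases c' <;> simp [rv, hR]

lemma bet2_nonneg {g : ℝ} (hg : 0 ≤ g) {R : κ → κ' → ℝ} (hR : ∀ a b, 0 ≤ R a b)
    (c : Option κ × Option κ') : 0 ≤ bet2 g R c := by
  have h1 := nu1_nonneg hg c.1
  have h2 := nu1_nonneg hg c.2
  have h3 := on_nonneg c.1
  have h4 := on_nonneg c.2
  have h5 := mt_nonneg hR c.1
  have h6 : 0 ≤ mt (fun a' a => R a a') c.2 := mt_nonneg (fun a b => hR b a) c.2
  have h7 := rv_nonneg hR c
  have h8 : 0 ≤ ∑ a, ∑ a', R a a' := Finset.sum_nonneg fun a _ => Finset.sum_nonneg fun a' _ => hR a a'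
  unfold bet2
  positivity

lemma gam2_nonneg {g r : ℝ} (hg : 0 ≤ g) (hr : 0 ≤ r) (c : Option κ × Option κ') :
    0 ≤ gam2 κ κ' g r c := by
  have h1 := nu1_nonneg hg c.1
  have h2 := nu1_nonneg hg c.2
  have h3 := on_nonneg c.1
  have h4 := on_nonneg c.2
  unfold gam2
  positivity


lemma fst_update (D : Fin n → Option κ × Option κ') (i : Fin n) (c : Option κ × Option κ') :
    (fun k => (Function.update D i c k).1) = Function.update (fun k => (D k).1) i c.1 := by
  funext k
  by_cases hk : k = i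
  · subst hk; simp
  · rw [Function.update_of_ne hk, Function.update_of_ne hk]

lemma snd_update (D : Fin n → Option κ × Option κ') (i : Fin n) (c : Option κ × Option κ') :
    (fun k => (Function.update D i c k).2) = Function.update (fun k => (D k).2) i c.2 := by
  funext k
  by_cases hk : k = i
  · subst hk; simp
  · rw [Function.update_of_ne hk, Function.update_of_ne hk]

/-- sums over pairs of colourings -/
lemma sum_pairs (G : Col n κ → Col n κ' → ℝ) :
    ∑ D : Fin n → Option κ × Option κ', G (fun i => (D i).1) (fun i => (D i).2) =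
      ∑ D1 : Col n κ, ∑ D2 : Col n κ', G D1 D2 := by
  rw [← Fintype.sum_prod_type']
  exact Fintype.sum_equiv (Equiv.arrowProdEquivProdArrow (Fin n) (fun _ => Option κ)
    (fun _ => Option κ')) _ _ (fun D => rfl)

lemma VV_pair (g : Fin n → ℝ) (y1 : Col n κ → ℝ) (y2 : Col n κ' → ℝ)
    (x : Fin n → Option κ × Option κ') :
    VV g y1 (fun i => (x i).1) * VV g y2 (fun i => (x i).2) =
      ∑ D : Fin n → Option κ × Option κ', (y1 (fun i => (D i).1) * y2 (fun i => (D i).2)) *
        ∏ i, (psi1 (g i) (D i).1 (x i).1 * psi1 (g i) (D i).2 (x i).2) := by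
  have h1 := sum_pairs (fun (D1 : Col n κ) (D2 : Col n κ') => (y1 D1 * y2 D2) *
    ∏ i, (psi1 (g i) (D1 i) (x i).1 * psi1 (g i) (D2 i) (x i).2))
  refine Eq.trans ?_ h1.symm
  unfold VV psi
  rw [Finset.sum_mul_sum]
  refine Finset.sum_congr rfl fun D1 _ => Finset.sum_congr rfl fun D2 _ => ?_
  rw [Finset.prod_mul_distrib]
  ring

section
variable {p g : Fin n → ℝ} {h : Finset (Fin n) → ℝ} {z K : ℝ}


theorem hlocL (hg : ∀ i, 0 ≤ g i)
    (hug : ∀ i, (Fintype.card κ : ℝ) * g i ≤ 1 / 2)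
    (hug' : ∀ i, (Fintype.card κ' : ℝ) * g i ≤ 1 / 2)
    (R : Fin n → κ → κ' → ℝ) (hR : ∀ i a b, 0 ≤ R i a b)
    (w : Fin n → Option κ × Option κ' → ℝ)
    (h00 : ∀ i, w i (none, none) ≤ wt (g i) (none : Option κ) * wt (g i) (none : Option κ') +
      (∑ a, ∑ a', R i a a') * g i)
    (h10 : ∀ i a, w i (some a, none) ≤ g i) (h01 : ∀ i a', w i (none, some a') ≤ g i)
    (h11 : ∀ i a a', w i (some a, some a') ≤ g i * R i a a') (i : Fin n)
    (Y : Option κ × Option κ' → ℝ) :
    ∑ s, w i s * (∑ c : Option κ × Option κ', (psi1 (g i) c.1 s.1 * psi1 (g i) c.2 s.2) * Y c) ^ 2 ≤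
      ∑ c, bet2 (g i) (R i) c * (Y c) ^ 2 :=
  local_pair (g i) (hg i) (hug i) (hug' i) (R i) (hR i) (w i) (h00 i) (h10 i) (h01 i) (h11 i) Y

theorem step1L (y : (Fin n → Option κ × Option κ') → ℝ)
    (w : Fin n → Option κ × Option κ' → ℝ) (hw : ∀ i s, 0 ≤ w i s)
    (β : Fin n → Option κ × Option κ' → ℝ) (hβ : ∀ i s, 0 ≤ β i s)
    (hl : ∀ (i : Fin n) (Y : Option κ × Option κ' → ℝ), ∑ s, w i s *
      (∑ c : Option κ × Option κ', (psi1 (g i) c.1 s.1 * psi1 (g i) c.2 s.2) * Y c) ^ 2 ≤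
      ∑ c, β i c * (Y c) ^ 2) :
    ∑ x : Fin n → Option κ × Option κ', (∏ i, w i (x i)) *
      (∑ D : Fin n → Option κ × Option κ', y D *
        ∏ i, (psi1 (g i) (D i).1 (x i).1 * psi1 (g i) (D i).2 (x i).2)) ^ 2 ≤
    ∑ D : Fin n → Option κ × Option κ', (∏ i, β i (D i)) * (y D) ^ 2 := by
  have := tensor_gen (S := Option κ × Option κ') (C := Option κ × Option κ') w
    (fun (i : Fin n) (c s : Option κ × Option κ') => psi1 (g i) c.1 s.1 * psi1 (g i) c.2 s.2)
    β hw hβ hl y
  exact this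

/-- the coefficients of the pair -/
noncomputable def y2 (p : Fin n → ℝ) (h : Finset (Fin n) → ℝ) (Q : ℝ) (j : ℕ)
    (D : Fin n → Option κ × Option κ') : ℝ :=
  yC p h Q j (fun i => (D i).1) * yC p h Q j (fun i => (D i).2)

lemma y2_update (Q : ℝ) (j : ℕ) (D : Fin n → Option κ × Option κ') (i : Fin n)
    (c : Option κ × Option κ') :
    (y2 p h Q j (Function.update D i c)) ^ 2 =
      (yC p h Q j (Function.update (fun k => (D k).1) i c.1)) ^ 2 *
      (yC p h Q j (Function.update (fun k => (D k).2) i c.2)) ^ 2 := by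
  unfold y2
  rw [mul_pow, fst_update, snd_update]

theorem step2L (H : Hyp p g h z K) (Q : ℝ) (j : ℕ)
    (R : Fin n → κ → κ' → ℝ) (hR : ∀ i a b, 0 ≤ R i a b) :
    ∑ D : Fin n → Option κ × Option κ', (∏ i, bet2 (g i) (R i) (D i)) * (y2 p h Q j D) ^ 2 ≤
    ∑ D : Fin n → Option κ × Option κ', (∏ i, gam2 κ κ' (g i) (∑ a, ∑ a', R i a a') (D i)) *
      (y2 p h Q j D) ^ 2 := by
  have g0 : ∀ i, 0 ≤ g i := fun i => (H.g0 i).le
  have hr0 : ∀ i, 0 ≤ ∑ a, ∑ a', R i a a' := fun i =>
    Finset.sum_nonneg fun a _ => Finset.sum_nonneg fun a' _ => hR i a a'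
  have hl : ∀ (i : Fin n) (D : Fin n → Option κ × Option κ'),
      ∑ c, bet2 (g i) (R i) c * (y2 p h Q j (Function.update D i c)) ^ 2 ≤
      ∑ c, gam2 κ κ' (g i) (∑ a, ∑ a', R i a a') c * (y2 p h Q j (Function.update D i c)) ^ 2 := by
    intro i D
    refine local_dom (g i) (g0 i) (R i) (hR i)
      (fun c => (y2 p h Q j (Function.update D i c)) ^ 2) (fun c => sq_nonneg _) ?_ ?_
    · intro a c'
      simp only [y2_update]
      exact mul_le_mul_of_nonneg_right (yC_mono H Q j _ i a) (sq_nonneg _)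
    · intro c a'
      simp only [y2_update]
      exact mul_le_mul_of_nonneg_left (yC_mono H Q j _ i a') (sq_nonneg _)
  exact dom_gen (C := Option κ × Option κ') (fun (i : Fin n) (c : Option κ × Option κ') =>
      bet2 (g i) (R i) c)
    (fun (i : Fin n) (c : Option κ × Option κ') => gam2 κ κ' (g i) (∑ a, ∑ a', R i a a') c)
    (fun i c => bet2_nonneg (g0 i) (hR i) c) (fun i c => gam2_nonneg (g0 i) (hr0 i) c)
    (fun D => (y2 p h Q j D) ^ 2) hl

/-- the two tensor steps -/
theorem pair_steps (H : Hyp p g h z K) (Q : ℝ) (j : ℕ)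
    (hug : ∀ i, (Fintype.card κ : ℝ) * g i ≤ 1 / 2)
    (hug' : ∀ i, (Fintype.card κ' : ℝ) * g i ≤ 1 / 2)
    (R : Fin n → κ → κ' → ℝ) (hR : ∀ i a b, 0 ≤ R i a b)
    (w : Fin n → Option κ × Option κ' → ℝ) (hw : ∀ i s, 0 ≤ w i s)
    (h00 : ∀ i, w i (none, none) ≤ wt (g i) (none : Option κ) * wt (g i) (none : Option κ') +
      (∑ a, ∑ a', R i a a') * g i)
    (h10 : ∀ i a, w i (some a, none) ≤ g i) (h01 : ∀ i a', w i (none, some a') ≤ g i)
    (h11 : ∀ i a a', w i (some a, some a') ≤ g i * R i a a') :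
    ∑ x : Fin n → Option κ × Option κ', (∏ i, w i (x i)) *
      (VV g (yC p h Q j : Col n κ → ℝ) (fun i => (x i).1) *
        VV g (yC p h Q j : Col n κ' → ℝ) (fun i => (x i).2)) ^ 2 ≤
    ∑ D : Fin n → Option κ × Option κ', (∏ i, gam2 κ κ' (g i) (∑ a, ∑ a', R i a a') (D i)) *
      (y2 p h Q j D) ^ 2 := by
  have g0 : ∀ i, 0 ≤ g i := fun i => (H.g0 i).le
  have step0 : ∑ x : Fin n → Option κ × Option κ', (∏ i, w i (x i)) *
      (VV g (yC p h Q j : Col n κ → ℝ) (fun i => (x i).1) *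
        VV g (yC p h Q j : Col n κ' → ℝ) (fun i => (x i).2)) ^ 2 =
      ∑ x : Fin n → Option κ × Option κ', (∏ i, w i (x i)) *
      (∑ D : Fin n → Option κ × Option κ', y2 p h Q j D *
        ∏ i, (psi1 (g i) (D i).1 (x i).1 * psi1 (g i) (D i).2 (x i).2)) ^ 2 :=
    Finset.sum_congr rfl fun x _ => by rw [VV_pair]; rfl
  rw [step0]
  refine le_trans ?_ (step2L H Q j R hR)
  exact step1L (y2 p h Q j) w hw (fun i c => bet2 (g i) (R i) c)
    (fun i c => bet2_nonneg (g0 i) (hR i) c)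
    (hlocL g0 hug hug' R hR w h00 h10 h01 h11)

lemma sum_on {κ₁ : Type} (g : Fin n → ℝ) (E : Fin n → Option κ₁) :
    ∑ i, g i * on (E i) = ∑ i with E i ≠ none, g i := by
  rw [Finset.sum_filter]
  refine Finset.sum_congr rfl fun i _ => ?_
  cases hE : E i <;> simp [on]

/-- one term -/
theorem pair_term (H : Hyp p g h z K) (Q δ : ℝ) (j : ℕ)
    (hδ : ∀ D : Col n κ, qq p D ≤ Q → 2 * ∑ i with D i ≠ none, g i ≤ δ)
    (hδ' : ∀ D : Col n κ', qq p D ≤ Q → 2 * ∑ i with D i ≠ none, g i ≤ δ)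
    (r : Fin n → ℝ) (hr0 : ∀ i, 0 ≤ r i) (D1 : Col n κ) (D2 : Col n κ') :
    (∏ i, gam2 κ κ' (g i) (r i) (D1 i, D2 i)) * (yC p h Q j D1 * yC p h Q j D2) ^ 2 ≤
      Real.exp (∑ i, (16 * ((Fintype.card κ : ℝ) * Fintype.card κ') * (g i) ^ 2 + 40 * r i * g i) +
        2 * ((Fintype.card κ : ℝ) + Fintype.card κ') * δ) *
      (((yy h D1) ^ 2 * nu g D1) * ((yy h D2) ^ 2 * nu g D2)) := by
  have g0 : ∀ i, 0 ≤ g i := fun i => (H.g0 i).le
  set k1 : ℝ := (Fintype.card κ : ℝ) with hk1
  set k2 : ℝ := (Fintype.card κ' : ℝ) with hk2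
  have k10 : 0 ≤ k1 := Nat.cast_nonneg _
  have k20 : 0 ≤ k2 := Nat.cast_nonneg _
  have hn1 : 0 ≤ nu g D1 := nu_nonneg H.g0 D1
  have hn2 : 0 ≤ nu g D2 := nu_nonneg H.g0 D2
  set EX : ℝ := Real.exp (∑ i, (16 * (k1 * k2) * (g i) ^ 2 + 40 * r i * g i) +
    2 * (k1 + k2) * δ) with hEX
  have hEX0 : 0 ≤ EX := (Real.exp_pos _).le
  have hr : 0 ≤ ((yy h D1) ^ 2 * nu g D1) * ((yy h D2) ^ 2 * nu g D2) :=
    mul_nonneg (mul_nonneg (sq_nonneg _) hn1) (mul_nonneg (sq_nonneg _) hn2)
  by_cases hq : qq p D1 ≤ Q ∧ qq p D2 ≤ Q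
  · have a1 : (yC p h Q j D1 * yC p h Q j D2) ^ 2 ≤ (yy h D1) ^ 2 * (yy h D2) ^ 2 := by
      rw [mul_pow]
      exact mul_le_mul (yC_sq_le Q j D1) (yC_sq_le Q j D2) (sq_nonneg _) (sq_nonneg _)
    have a2 : ∏ i, gam2 κ κ' (g i) (r i) (D1 i, D2 i) ≤ (nu g D1 * nu g D2) * EX := by
      have b1 : ∀ i, gam2 κ κ' (g i) (r i) (D1 i, D2 i) ≤
          (nu1 (g i) (D1 i) * nu1 (g i) (D2 i)) *
          Real.exp ((16 * (k1 * k2) * (g i) ^ 2 + 40 * r i * g i) +
            (4 * k2 * (g i * on (D1 i)) + 4 * k1 * (g i * on (D2 i)))) := by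
        intro i
        unfold gam2
        refine mul_le_mul_of_nonneg_left ?_ (mul_nonneg (nu1_nonneg (g0 i) _)
          (nu1_nonneg (g0 i) _))
        refine le_trans (le_of_eq ?_) (Real.add_one_le_exp _)
        ring
      refine (Finset.prod_le_prod (fun i _ => gam2_nonneg (g0 i) (hr0 i) _)
        (fun i _ => b1 i)).trans ?_
      rw [Finset.prod_mul_distrib, Finset.prod_mul_distrib, ← Real.exp_sum]
      have e0 : (∏ i, nu1 (g i) (D1 i)) * (∏ i, nu1 (g i) (D2 i)) = nu g D1 * nu g D2 := rfl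
      rw [e0]
      refine mul_le_mul_of_nonneg_left ?_ (mul_nonneg hn1 hn2)
      rw [hEX]
      apply Real.exp_le_exp.2
      rw [Finset.sum_add_distrib (f := fun i => 16 * (k1 * k2) * (g i) ^ 2 + 40 * r i * g i),
        Finset.sum_add_distrib (f := fun i => 4 * k2 * (g i * on (D1 i))), ← Finset.mul_sum,
        ← Finset.mul_sum, sum_on g D1, sum_on g D2]
      have d1 := mul_le_mul_of_nonneg_left (hδ D1 hq.1) (show 0 ≤ 2 * k2 by positivity)
      have d2 := mul_le_mul_of_nonneg_left (hδ' D2 hq.2) (show 0 ≤ 2 * k1 by positivity)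
      linarith
    have a3 : 0 ≤ ∏ i, gam2 κ κ' (g i) (r i) (D1 i, D2 i) :=
      Finset.prod_nonneg fun i _ => gam2_nonneg (g0 i) (hr0 i) _
    refine (mul_le_mul a2 a1 (sq_nonneg _) (a3.trans a2)).trans (le_of_eq ?_)
    ring
  · have hy0 : yC p h Q j D1 * yC p h Q j D2 = 0 := by
      rw [not_and_or] at hq
      rcases hq with hq | hq
      · have : yC p h Q j D1 = 0 := by
          unfold yC
          rw [if_neg]
          exact fun hc => hq hc.1
        rw [this, zero_mul]
      · have : yC p h Q j D2 = 0 := by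
          unfold yC
          rw [if_neg]
          exact fun hc => hq hc.1
        rw [this, mul_zero]
    rw [hy0]
    have := mul_nonneg hEX0 hr
    simpa using this

/-- the correlation of the square weights of two windows -/
theorem pair_upper (H : Hyp p g h z K) (Q δ : ℝ) (j : ℕ)
    (hδ : ∀ D : Col n κ, qq p D ≤ Q → 2 * ∑ i with D i ≠ none, g i ≤ δ)
    (hδ' : ∀ D : Col n κ', qq p D ≤ Q → 2 * ∑ i with D i ≠ none, g i ≤ δ)
    (hug : ∀ i, (Fintype.card κ : ℝ) * g i ≤ 1 / 2)
    (hug' : ∀ i, (Fintype.card κ' : ℝ) * g i ≤ 1 / 2)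
    (R : Fin n → κ → κ' → ℝ) (hR : ∀ i a b, 0 ≤ R i a b)
    (w : Fin n → Option κ × Option κ' → ℝ) (hw : ∀ i s, 0 ≤ w i s)
    (h00 : ∀ i, w i (none, none) ≤ wt (g i) (none : Option κ) * wt (g i) (none : Option κ') +
      (∑ a, ∑ a', R i a a') * g i)
    (h10 : ∀ i a, w i (some a, none) ≤ g i) (h01 : ∀ i a', w i (none, some a') ≤ g i)
    (h11 : ∀ i a a', w i (some a, some a') ≤ g i * R i a a') :
    ∑ x : Fin n → Option κ × Option κ', (∏ i, w i (x i)) *
      (VV g (yC p h Q j : Col n κ → ℝ) (fun i => (x i).1) *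
        VV g (yC p h Q j : Col n κ' → ℝ) (fun i => (x i).2)) ^ 2 ≤
      Real.exp (∑ i, (16 * ((Fintype.card κ : ℝ) * Fintype.card κ') * (g i) ^ 2 +
        40 * (∑ a, ∑ a', R i a a') * g i) +
        2 * ((Fintype.card κ : ℝ) + Fintype.card κ') * δ) * (Zs κ g h * Zs κ' g h) := by
  have hr0 : ∀ i, 0 ≤ ∑ a, ∑ a', R i a a' := fun i =>
    Finset.sum_nonneg fun a _ => Finset.sum_nonneg fun a' _ => hR i a a'
  refine (pair_steps H Q j hug hug' R hR w hw h00 h10 h01 h11).trans ?_
  have h1 : ∀ D : Fin n → Option κ × Option κ',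
      (∏ i, gam2 κ κ' (g i) (∑ a, ∑ a', R i a a') (D i)) * (y2 p h Q j D) ^ 2 ≤
      Real.exp (∑ i, (16 * ((Fintype.card κ : ℝ) * Fintype.card κ') * (g i) ^ 2 +
        40 * (∑ a, ∑ a', R i a a') * g i) +
        2 * ((Fintype.card κ : ℝ) + Fintype.card κ') * δ) *
      (((yy h (fun i => (D i).1)) ^ 2 * nu g (fun i => (D i).1)) *
        ((yy h (fun i => (D i).2)) ^ 2 * nu g (fun i => (D i).2))) := fun D =>
    pair_term H Q δ j hδ hδ' (fun i => ∑ a, ∑ a', R i a a') hr0 (fun i => (D i).1)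
      (fun i => (D i).2)
  refine (Finset.sum_le_sum fun D _ => h1 D).trans (le_of_eq ?_)
  rw [← Finset.mul_sum]
  congr 1
  rw [sum_pairs (fun (D1 : Col n κ) (D2 : Col n κ') =>
    ((yy h D1) ^ 2 * nu g D1) * ((yy h D2) ^ 2 * nu g D2))]
  unfold Zs
  rw [Finset.sum_mul_sum]

end

end Run7.h294.G
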