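import Pool.Agent.H256R2.SC.V
import Pool.Agent.Run7.h294.G6

set_option autoImplicit false
set_option linter.unusedSectionVars false

/-! # Two windows: from the model to sets of integers -/

namespace Run7.h294.G

open Finset Pool.Agent.H256R2.SC

variable {n : ℕ} {κ κ' : Type} [Fintype κ] [DecidableEq κ] [Fintype κ'] [DecidableEq κ']

/-- expectation in the two window model -/
noncomputable def W2 (w : Fin n → Option κ × Option κ' → ℝ)
    (F : (Fin n → Option κ × Option κ') → ℝ) : ℝ :=
  ∑ x : Fin n → Option κ × Option κ', (∏ i, w i (x i)) * F x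

/-- indicator that a state agrees with a colour -/
noncomputable def mk1 {κ₁ : Type} [DecidableEq κ₁] (c s : Option κ₁) : ℝ :=
  if c ≠ none → s = c then 1 else 0

/-- joint local weights -/
noncomputable def wR (g : ℝ) (R : κ → κ' → ℝ) (s : Option κ × Option κ') : ℝ :=
  match s with
  | (some a, some a') => g * R a a'
  | (some a, none) => g * (1 - ∑ a', R a a')
  | (none, some a') => g * (1 - ∑ a, R a a')
  | (none, none) => 1 - ((Fintype.card κ : ℝ) + Fintype.card κ' - ∑ a, ∑ a', R a a') * g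

/-- joint density of an elementary event -/
noncomputable def nR (g : ℝ) (R : κ → κ' → ℝ) (c : Option κ) (c' : Option κ') : ℝ :=
  match c, c' with
  | some a, some a' => g * R a a'
  | some _, none => g
  | none, some _ => g
  | none, none => 1

lemma sum_wR (g : ℝ) (R : κ → κ' → ℝ) (c : Option κ) (c' : Option κ') :
    ∑ s : Option κ × Option κ', wR g R s * (mk1 c s.1 * mk1 c' s.2) = nR g R c c' := by
  rw [Fintype.sum_prod_type]
  simp only [Fintype.sum_option]
  cases c with
  | none =>
    cases c' with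
    | none =>
      simp only [mk1, nR, wR, ne_eq, not_true_eq_false, false_implies, if_true, mul_one]
      rw [Finset.sum_add_distrib, ← Finset.mul_sum, Finset.sum_sub_distrib, ← Finset.mul_sum,
        Finset.sum_sub_distrib]
      simp only [Finset.sum_const, Finset.card_univ, nsmul_eq_mul, mul_one, ← Finset.mul_sum]
      rw [Finset.sum_comm (f := fun i j => R j i)]
      ring
    | some b' =>
      simp only [mk1, nR, wR, ne_eq, not_true_eq_false, false_implies, if_true, mul_one, one_mul,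
        reduceCtorEq, not_false_eq_true, true_implies, if_false, mul_zero, zero_add,
        Option.some.injEq, mul_ite, Finset.sum_ite_eq', Finset.mem_univ]
      rw [← Finset.mul_sum]
      ring
  | some b =>
    cases c' with
    | none =>
      simp only [mk1, nR, wR, ne_eq, not_true_eq_false, false_implies, if_true, mul_one,
        reduceCtorEq, not_false_eq_true, true_implies, if_false, mul_zero, zero_add,
        Option.some.injEq, mul_ite, Finset.sum_const_zero]
      rw [Finset.sum_add_distrib, Finset.sum_ite_eq']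
      have e1 : ∀ x : κ, (∑ x_1 : κ', if x = b then g * R x x_1 else 0) =
          if x = b then ∑ x_1 : κ', g * R x x_1 else 0 := by
        intro x
        split_ifs
        · rfl
        · simp
      rw [Finset.sum_congr rfl (fun x _ => e1 x), Finset.sum_ite_eq']
      simp only [Finset.mem_univ, if_true]
      rw [← Finset.mul_sum]
      ring
    | some b' =>
      simp only [mk1, nR, wR, ne_eq, reduceCtorEq, not_false_eq_true, true_implies, if_false,
        mul_zero, zero_mul, zero_add, Option.some.injEq, mul_ite, mul_one,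
        Finset.sum_const_zero, Finset.sum_ite_eq', Finset.mem_univ, if_true, ite_mul]

lemma ind_mk1 {κ₁ : Type} [Fintype κ₁] [DecidableEq κ₁] (D x : Col n κ₁) :
    ind D x = ∏ i, mk1 (D i) (x i) := by
  have := ind_eq_prod D x
  rw [this]
  rfl

lemma W2_ind (g : Fin n → ℝ) (R : Fin n → κ → κ' → ℝ) (D : Col n κ) (D' : Col n κ') :
    W2 (fun i => wR (g i) (R i)) (fun x => ind D (fun i => (x i).1) * ind D' (fun i => (x i).2)) =
      ∏ i, nR (g i) (R i) (D i) (D' i) := by
  unfold W2
  have h1 : ∀ x : Fin n → Option κ × Option κ',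
      (∏ i, wR (g i) (R i) (x i)) * (ind D (fun i => (x i).1) * ind D' (fun i => (x i).2)) =
      ∏ i, (wR (g i) (R i) (x i) * (mk1 (D i) (x i).1 * mk1 (D' i) (x i).2)) := by
    intro x
    rw [ind_mk1, ind_mk1, Finset.prod_mul_distrib, Finset.prod_mul_distrib]
  rw [Finset.sum_congr rfl (fun x _ => h1 x)]
  have h2 := Finset.prod_univ_sum (fun _ : Fin n => (Finset.univ : Finset (Option κ × Option κ')))
    (fun i s => wR (g i) (R i) s * (mk1 (D i) s.1 * mk1 (D' i) s.2))
  rw [Fintype.piFinset_univ] at h2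
  rw [← h2]
  exact Finset.prod_congr rfl fun i _ => sum_wR (g i) (R i) (D i) (D' i)

/-- transfer for products of two functions, one for each window -/
theorem transfer2 {α : Type} (𝒜 : Finset α) (col : α → Col n κ) (col' : α → Col n κ')
    (p g : Fin n → ℝ) (R : Fin n → κ → κ' → ℝ) (N Err Q Q' B B' : ℝ) (hErr : 0 ≤ Err)
    (hcnt : ∀ (D : Col n κ) (D' : Col n κ'), qq p D ≤ Q → qq p D' ≤ Q' →
      |∑ a ∈ 𝒜, ind D (col a) * ind D' (col' a) - N * ∏ i, nR (g i) (R i) (D i) (D' i)| ≤ Err)
    (F : Col n κ → ℝ) (F' : Col n κ' → ℝ) (hF : Lv p Q B F) (hF' : Lv p Q' B' F') :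
    |∑ a ∈ 𝒜, F (col a) * F' (col' a) - N * W2 (fun i => wR (g i) (R i))
      (fun x => F (fun i => (x i).1) * F' (fun i => (x i).2))| ≤ Err * (B * B') := by
  obtain ⟨f, hf1, hf2, hf3⟩ := hF
  obtain ⟨f', hf1', hf2', hf3'⟩ := hF'
  have hB : 0 ≤ B := (Finset.sum_nonneg fun D _ => abs_nonneg (f D)).trans hf2
  have h1 : ∑ a ∈ 𝒜, F (col a) * F' (col' a) =
      ∑ D, ∑ D', f D * f' D' * ∑ a ∈ 𝒜, ind D (col a) * ind D' (col' a) := by
    simp_rw [hf1, hf1', Finset.sum_mul_sum, Finset.mul_sum]
    rw [Finset.sum_comm]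
    refine Finset.sum_congr rfl fun D _ => ?_
    rw [Finset.sum_comm]
    exact Finset.sum_congr rfl fun D' _ => Finset.sum_congr rfl fun a _ => by ring
  have h2 : W2 (fun i => wR (g i) (R i))
      (fun x => F (fun i => (x i).1) * F' (fun i => (x i).2)) =
      ∑ D, ∑ D', f D * f' D' * ∏ i, nR (g i) (R i) (D i) (D' i) := by
    have e1 : ∀ D D', ∏ i, nR (g i) (R i) (D i) (D' i) =
        W2 (fun i => wR (g i) (R i))
          (fun x => ind D (fun i => (x i).1) * ind D' (fun i => (x i).2)) := fun D D' =>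
      (W2_ind g R D D').symm
    simp_rw [e1]
    unfold W2
    simp_rw [hf1, hf1', Finset.sum_mul_sum, Finset.mul_sum]
    rw [Finset.sum_comm]
    refine Finset.sum_congr rfl fun D _ => ?_
    rw [Finset.sum_comm]
    exact Finset.sum_congr rfl fun D' _ => Finset.sum_congr rfl fun a _ => by ring
  rw [h1, h2, Finset.mul_sum, ← Finset.sum_sub_distrib]
  have h3 : ∀ D D', |f D * f' D' * ∑ a ∈ 𝒜, ind D (col a) * ind D' (col' a) -
      N * (f D * f' D' * ∏ i, nR (g i) (R i) (D i) (D' i))| ≤ |f D| * |f' D'| * Err := by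
    intro D D'
    have e1 : f D * f' D' * ∑ a ∈ 𝒜, ind D (col a) * ind D' (col' a) -
      N * (f D * f' D' * ∏ i, nR (g i) (R i) (D i) (D' i)) =
      f D * f' D' * (∑ a ∈ 𝒜, ind D (col a) * ind D' (col' a) -
        N * ∏ i, nR (g i) (R i) (D i) (D' i)) := by ring
    rw [e1, abs_mul, abs_mul]
    by_cases h : f D = 0
    · rw [h]; simp
    · by_cases h' : f' D' = 0
      · rw [h']; simp
      · exact mul_le_mul_of_nonneg_left (hcnt D D' (hf3 D h) (hf3' D' h'))
          (mul_nonneg (abs_nonneg _) (abs_nonneg _))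
  refine (Finset.abs_sum_le_sum_abs _ _).trans ?_
  calc ∑ D, |∑ D', f D * f' D' * ∑ a ∈ 𝒜, ind D (col a) * ind D' (col' a) -
        N * ∑ D', f D * f' D' * ∏ i, nR (g i) (R i) (D i) (D' i)|
      ≤ ∑ D, ∑ D', |f D| * |f' D'| * Err := by
        refine Finset.sum_le_sum fun D _ => ?_
        rw [Finset.mul_sum, ← Finset.sum_sub_distrib]
        exact (Finset.abs_sum_le_sum_abs _ _).trans (Finset.sum_le_sum fun D' _ => h3 D D')
    _ = (∑ D, |f D|) * (∑ D', |f' D'|) * Err := by
        rw [Finset.sum_mul_sum, Finset.sum_mul]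
        exact Finset.sum_congr rfl fun D _ => by rw [Finset.sum_mul]
    _ ≤ Err * (B * B') := by
        rw [mul_comm]
        refine mul_le_mul_of_nonneg_left ?_ hErr
        exact mul_le_mul hf2 hf2' (Finset.sum_nonneg fun D _ => abs_nonneg _) hB

/-- nonnegativity of the joint weights -/
lemma wR_nonneg {g : ℝ} (hg : 0 ≤ g) {R : κ → κ' → ℝ} (hR : ∀ a b, 0 ≤ R a b)
    (h1 : ∀ a, ∑ a', R a a' ≤ 1) (h2 : ∀ a', ∑ a, R a a' ≤ 1)
    (hK : (Fintype.card κ : ℝ) * g ≤ 1 / 2) (hK' : (Fintype.card κ' : ℝ) * g ≤ 1 / 2)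
    (s : Option κ × Option κ') : 0 ≤ wR g R s := by
  obtain ⟨c, c'⟩ := s
  cases c with
  | none =>
    cases c' with
    | none =>
      simp only [wR]
      have h3 : 0 ≤ ∑ a, ∑ a', R a a' :=
        Finset.sum_nonneg fun a _ => Finset.sum_nonneg fun a' _ => hR a a'
      nlinarith
    | some a' =>
      simp only [wR]
      exact mul_nonneg hg (by linarith [h2 a'])
  | some a =>
    cases c' with
    | none =>
      simp only [wR]
      exact mul_nonneg hg (by linarith [h1 a])
    | some a' =>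
      simp only [wR]
      exact mul_nonneg hg (hR a a')

/-- the pair correlation in the model with the joint weights -/
theorem pair_model {p g : Fin n → ℝ} {h : Finset (Fin n) → ℝ} {z K : ℝ} (H : Hyp p g h z K)
    (Q δ : ℝ) (j : ℕ)
    (hδ : ∀ D : Col n κ, qq p D ≤ Q → 2 * ∑ i with D i ≠ none, g i ≤ δ)
    (hδ' : ∀ D : Col n κ', qq p D ≤ Q → 2 * ∑ i with D i ≠ none, g i ≤ δ)
    (hug : ∀ i, (Fintype.card κ : ℝ) * g i ≤ 1 / 2)
    (hug' : ∀ i, (Fintype.card κ' : ℝ) * g i ≤ 1 / 2)
    (R : Fin n → κ → κ' → ℝ) (hR : ∀ i a b, 0 ≤ R i a b)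
    (hR1 : ∀ i a, ∑ a', R i a a' ≤ 1) (hR2 : ∀ i a', ∑ a, R i a a' ≤ 1) :
    W2 (fun i => wR (g i) (R i)) (fun x =>
      (VV g (yC p h Q j : Col n κ → ℝ) (fun i => (x i).1)) ^ 2 *
        (VV g (yC p h Q j : Col n κ' → ℝ) (fun i => (x i).2)) ^ 2) ≤
      Real.exp (∑ i, (16 * ((Fintype.card κ : ℝ) * Fintype.card κ') * (g i) ^ 2 +
        40 * (∑ a, ∑ a', R i a a') * g i) +
        2 * ((Fintype.card κ : ℝ) + Fintype.card κ') * δ) * (Zs κ g h * Zs κ' g h) := by
  have g0 : ∀ i, 0 ≤ g i := fun i => (H.g0 i).le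
  have hw : ∀ (i : Fin n) (s : Option κ × Option κ'), 0 ≤ wR (g i) (R i) s := fun i s =>
    wR_nonneg (g0 i) (hR i) (hR1 i) (hR2 i) (hug i) (hug' i) s
  have h1 := pair_upper H Q δ j hδ hδ' hug hug' R hR (fun i => wR (g i) (R i)) hw
    (by
      intro i
      rw [wt_none, wt_none]
      simp only [wR]
      have h3 : 0 ≤ (Fintype.card κ : ℝ) * g i * ((Fintype.card κ' : ℝ) * g i) :=
        mul_nonneg (mul_nonneg (Nat.cast_nonneg _) (g0 i)) (mul_nonneg (Nat.cast_nonneg _) (g0 i))
      linarith)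
    (by
      intro i a
      simp only [wR]
      have h3 : 0 ≤ ∑ a', R i a a' := Finset.sum_nonneg fun a' _ => hR i a a'
      nlinarith [g0 i, mul_nonneg (g0 i) h3])
    (by
      intro i a'
      simp only [wR]
      have h3 : 0 ≤ ∑ a, R i a a' := Finset.sum_nonneg fun a _ => hR i a a'
      nlinarith [g0 i, mul_nonneg (g0 i) h3])
    (by
      intro i a a'
      simp only [wR]
      exact le_rfl)
  refine le_trans (le_of_eq ?_) h1
  unfold W2
  refine Finset.sum_congr rfl fun x _ => ?_
  rw [mul_pow]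

end Run7.h294.G
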