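import Pool.Agent.Run7.h294.G7

set_option autoImplicit false
set_option linter.unusedSectionVars false

/-! # Windows of integers -/

namespace Run7.h294.G

open Finset Pool.Agent.H256R2.SC

open scoped Classical

/-- the colouring of the integers attached to a window -/
noncomputable def cw (PP : Finset ℕ) (A : Finset ℤ) (x : ℤ) : Col PP.card ↥A :=
  colr PP (fun _ (a : ↥A) => -(a : ℤ)) x

/-- the elements of `A` are different modulo the primes of `PP` -/
def Sep (PP : Finset ℕ) (A : Finset ℤ) : Prop :=
  ∀ p ∈ PP, ∀ a ∈ A, ∀ b ∈ A, a ≠ b → ¬ ((p : ℤ) ∣ a - b)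

lemma Sep.inj {PP : Finset ℕ} {A : Finset ℤ} (h : Sep PP A) :
    ∀ p ∈ PP, ∀ k l : ↥A, k ≠ l → ¬ ((p : ℤ) ∣ (fun (_ : ℕ) (a : ↥A) => -(a : ℤ)) p k -
      (fun (_ : ℕ) (a : ↥A) => -(a : ℤ)) p l) := by
  intro p hp k l hkl hd
  refine h p hp l l.2 k k.2 (fun e => hkl (Subtype.ext e.symm)) ?_
  have e : -(k : ℤ) - -(l : ℤ) = (l : ℤ) - k := by ring
  rw [← e]
  exact hd

lemma cw_eq {PP : Finset ℕ} {A : Finset ℤ} (hA : Sep PP A) (x : ℤ) (i : Fin PP.card) (a : ↥A) :
    cw PP A x i = some a ↔ ((emb PP i : ℕ) : ℤ) ∣ x + a := by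
  unfold cw
  rw [colr_eq hA.inj]
  simp only [sub_neg_eq_add]

/-- coincidence relation of two windows -/
noncomputable def Rel (PP : Finset ℕ) (A A' : Finset ℤ) (i : Fin PP.card) (a : ↥A) (a' : ↥A') : ℝ :=
  if ((emb PP i : ℕ) : ℤ) ∣ (a : ℤ) - a' then 1 else 0

lemma Rel_nonneg (PP : Finset ℕ) (A A' : Finset ℤ) (i : Fin PP.card) (a : ↥A) (a' : ↥A') :
    0 ≤ Rel PP A A' i a a' := by
  unfold Rel
  split_ifs <;> norm_num

lemma sum_ite_le_one {ι : Type} [Fintype ι] (P : ι → Prop) [DecidablePred P]
    (h : ∀ a b, P a → P b → a = b) : ∑ a, (if P a then (1 : ℝ) else 0) ≤ 1 := by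
  rw [← Finset.sum_filter, Finset.sum_const, nsmul_eq_mul, mul_one]
  have : (univ.filter P).card ≤ 1 := by
    rw [Finset.card_le_one]
    intro a ha b hb
    rw [Finset.mem_filter] at ha hb
    exact h a b ha.2 hb.2
  exact_mod_cast this

lemma Rel_sum1 {PP : Finset ℕ} {A A' : Finset ℤ} (hA' : Sep PP A') (i : Fin PP.card) (a : ↥A) :
    ∑ a', Rel PP A A' i a a' ≤ 1 := by
  unfold Rel
  refine sum_ite_le_one _ fun b c hb hc => ?_
  by_contra hbc
  refine hA' _ (emb_mem PP i) b b.2 c c.2 (fun e => hbc (Subtype.ext e)) ?_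
  have := dvd_sub hc hb
  have e : (a : ℤ) - c - (a - b) = b - c := by ring
  rwa [e] at this

lemma Rel_sum2 {PP : Finset ℕ} {A A' : Finset ℤ} (hA : Sep PP A) (i : Fin PP.card) (a' : ↥A') :
    ∑ a, Rel PP A A' i a a' ≤ 1 := by
  unfold Rel
  refine sum_ite_le_one _ fun b c hb hc => ?_
  by_contra hbc
  refine hA _ (emb_mem PP i) b b.2 c c.2 (fun e => hbc (Subtype.ext e)) ?_
  have := dvd_sub hb hc
  have e : (b : ℤ) - a' - (c - a') = b - c := by ring
  rwa [e] at this

/-- the primes as real numbers, and their reciprocals -/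
noncomputable def pp (PP : Finset ℕ) (i : Fin PP.card) : ℝ := ((emb PP i : ℕ) : ℝ)
noncomputable def gg (PP : Finset ℕ) (i : Fin PP.card) : ℝ := 1 / ((emb PP i : ℕ) : ℝ)

/-- equidistribution of `𝒜` modulo products of primes of `PP` -/
def Equi (PP : Finset ℕ) (𝒜 : Finset ℤ) (N Err Lm : ℝ) : Prop :=
  ∀ q : ℕ, Squarefree q → (q : ℝ) ≤ Lm → (∀ p ∈ q.primeFactors, p ∈ PP) →
    ∀ r : ℤ, |((𝒜.filter (fun x => (q : ℤ) ∣ x - r)).card : ℝ) - N / q| ≤ Err

lemma prod_emb_squarefree {PP : Finset ℕ} (hP : ∀ p ∈ PP, p.Prime) (S : Finset (Fin PP.card)) :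
    Squarefree (∏ i ∈ S, emb PP i) := by
  refine Finset.squarefree_prod_of_pairwise_isCoprime ?_ ?_
  · intro i _ j _ hij
    exact (Nat.coprime_iff_isRelPrime.mp (emb_coprime hP hij))
  · intro i _
    exact (hP _ (emb_mem PP i)).squarefree

lemma prod_emb_primeFactors {PP : Finset ℕ} (hP : ∀ p ∈ PP, p.Prime) (S : Finset (Fin PP.card))
    {p : ℕ} (hp : p ∈ (∏ i ∈ S, emb PP i).primeFactors) : p ∈ PP := by
  rw [Nat.mem_primeFactors] at hp
  obtain ⟨i, _, hi⟩ := (Prime.dvd_finsetProd_iff hp.1.prime _).mp hp.2.1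
  rw [(Nat.prime_dvd_prime_iff_eq hp.1 (hP _ (emb_mem PP i))).mp hi]
  exact emb_mem PP i

/-- the single window count -/
theorem single_count {PP : Finset ℕ} (hP : ∀ p ∈ PP, p.Prime) {A : Finset ℤ} (hA : Sep PP A)
    {𝒜 : Finset ℤ} {N Err Lm : ℝ} (hE : Equi PP 𝒜 N Err Lm) (D : Col PP.card ↥A)
    (hq : qq (pp PP) D ≤ Lm) :
    |((𝒜.filter (fun x => ∀ i, D i ≠ none → cw PP A x i = D i)).card : ℝ) -
      N * nu (gg PP) D| ≤ Err := by
  obtain ⟨r, hr⟩ := event_iff hP hA.inj D
  have h1 : (𝒜.filter (fun x => ∀ i, D i ≠ none → cw PP A x i = D i)) =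
      𝒜.filter (fun a => ((qn PP D : ℕ) : ℤ) ∣ a - r) := by
    apply Finset.filter_congr
    intro a _
    exact hr a
  rw [h1]
  have h2 : nu (gg PP) D = 1 / ((qn PP D : ℕ) : ℝ) := nu_eq PP D
  rw [h2, mul_one_div]
  refine hE (qn PP D) (qn_squarefree hP D) ?_ (fun p hp => qn_primeFactors hP D hp) r
  rw [qn_cast]
  exact hq

/-- the two window count -/
theorem pair_count {PP : Finset ℕ} (hP : ∀ p ∈ PP, p.Prime) {A A' : Finset ℤ} (hA : Sep PP A)
    (hA' : Sep PP A') {𝒜 : Finset ℤ} {N Err Lm : ℝ} (hErr : 0 ≤ Err) (hE : Equi PP 𝒜 N Err Lm)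
    (D : Col PP.card ↥A) (D' : Col PP.card ↥A') (hq : qq (pp PP) D * qq (pp PP) D' ≤ Lm) :
    |∑ x ∈ 𝒜, ind D (cw PP A x) * ind D' (cw PP A' x) -
      N * ∏ i, nR (gg PP i) (Rel PP A A' i) (D i) (D' i)| ≤ Err := by
  by_cases hbad : ∃ i a a', D i = some a ∧ D' i = some a' ∧
      ¬ (((emb PP i : ℕ) : ℤ) ∣ (a : ℤ) - a')
  · obtain ⟨i, a, a', h1, h2, h3⟩ := hbad
    have e1 : ∑ x ∈ 𝒜, ind D (cw PP A x) * ind D' (cw PP A' x) = 0 := by
      refine Finset.sum_eq_zero fun x _ => ?_
      unfold ind
      split_ifs with h4 h5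
      · exfalso
        have e4 := h4 i (by rw [h1]; simp)
        have e5 := h5 i (by rw [h2]; simp)
        rw [h1, cw_eq hA] at e4
        rw [h2, cw_eq hA'] at e5
        apply h3
        have := dvd_sub e4 e5
        have e : x + (a : ℤ) - (x + a') = a - a' := by ring
        rwa [e] at this
      · simp
      · simp
      · simp
    have e2 : ∏ i, nR (gg PP i) (Rel PP A A' i) (D i) (D' i) = 0 := by
      apply Finset.prod_eq_zero (Finset.mem_univ i)
      rw [h1, h2]
      simp only [nR, Rel]
      rw [if_neg h3, mul_zero]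
    rw [e1, e2]
    simpa using hErr
  · push Not at hbad
    set S : Finset (Fin PP.card) := supp D ∪ supp D' with hS
    have hcop : ∀ i ∈ S, ∀ j ∈ S, i ≠ j →
        IsCoprime ((emb PP i : ℕ) : ℤ) ((emb PP j : ℕ) : ℤ) := fun i _ j _ hij =>
      Nat.isCoprime_iff_coprime.mpr (emb_coprime hP hij)
    obtain ⟨r, hr⟩ := crt_int S (fun i => ((emb PP i : ℕ) : ℤ)) hcop
      (fun i => match D i, D' i with
        | some a, _ => -(a : ℤ)
        | none, some a' => -(a' : ℤ)
        | none, none => 0)
    set q : ℕ := ∏ i ∈ S, emb PP i with hqd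
    have hqz : ((q : ℕ) : ℤ) = ∏ i ∈ S, ((emb PP i : ℕ) : ℤ) := by
      rw [hqd]; push_cast; rfl
    have key : ∀ x : ℤ, ind D (cw PP A x) * ind D' (cw PP A' x) =
        if ((q : ℕ) : ℤ) ∣ x - r then 1 else 0 := by
      intro x
      by_cases hx : ((q : ℕ) : ℤ) ∣ x - r
      · rw [if_pos hx]
        have hxi : ∀ i ∈ S, ((emb PP i : ℕ) : ℤ) ∣ x - r := fun i hi => by
          refine dvd_trans ?_ hx
          rw [hqz]
          exact Finset.dvd_prod_of_mem (fun i => ((emb PP i : ℕ) : ℤ)) hi
        have h1 : ∀ i, D i ≠ none → cw PP A x i = D i := by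
          intro i hi
          obtain ⟨a, ha⟩ := Option.ne_none_iff_exists'.mp hi
          have hiS : i ∈ S := Finset.mem_union_left _ (mem_supp.mpr hi)
          have e1 := hr i hiS
          rw [ha] at e1
          simp only at e1
          rw [ha, cw_eq hA]
          have := dvd_add (hxi i hiS) e1
          have e : x - r + (r - -(a : ℤ)) = x + a := by ring
          rwa [e] at this
        have h2 : ∀ i, D' i ≠ none → cw PP A' x i = D' i := by
          intro i hi
          obtain ⟨a', ha'⟩ := Option.ne_none_iff_exists'.mp hi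
          have hiS : i ∈ S := Finset.mem_union_right _ (mem_supp.mpr hi)
          rw [ha', cw_eq hA']
          have e1 := hr i hiS
          cases hD : D i with
          | none =>
            rw [hD, ha'] at e1
            simp only at e1
            have := dvd_add (hxi i hiS) e1
            have e : x - r + (r - -(a' : ℤ)) = x + a' := by ring
            rwa [e] at this
          | some a =>
            have e2 := h1 i (by rw [hD]; simp)
            rw [hD, cw_eq hA] at e2
            have e3 := hbad i a a' hD ha'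
            have := dvd_sub e2 e3
            have e : x + (a : ℤ) - (a - a') = x + a' := by ring
            rwa [e] at this
        unfold ind
        rw [if_pos h1, if_pos h2, one_mul]
      · rw [if_neg hx]
        by_contra hne
        have hne1 := left_ne_zero_of_mul hne
        have hne2 := right_ne_zero_of_mul hne
        unfold ind at hne1 hne2
        have h1 : ∀ i, D i ≠ none → cw PP A x i = D i := by
          by_contra hc; rw [if_neg hc] at hne1; exact hne1 rfl
        have h2 : ∀ i, D' i ≠ none → cw PP A' x i = D' i := by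
          by_contra hc; rw [if_neg hc] at hne2; exact hne2 rfl
        apply hx
        rw [hqz]
        apply Finset.prod_dvd_of_coprime
        · intro i hi j hj hij
          exact hcop i hi j hj hij
        · intro i hi
          have e1 := hr i hi
          cases hD : D i with
          | none =>
            cases hD' : D' i with
            | none =>
              exfalso
              rw [hS, Finset.mem_union, mem_supp, mem_supp] at hi
              rcases hi with hi | hi
              · exact hi hD
              · exact hi hD'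
            | some a' =>
              rw [hD, hD'] at e1
              simp only at e1
              have e2 := h2 i (by rw [hD']; simp)
              rw [hD', cw_eq hA'] at e2
              have := dvd_sub e2 e1
              have e : x + (a' : ℤ) - (r - -(a' : ℤ)) = x - r := by ring
              rwa [e] at this
          | some a =>
            rw [hD] at e1
            simp only at e1
            have e2 := h1 i (by rw [hD]; simp)
            rw [hD, cw_eq hA] at e2
            have := dvd_sub e2 e1
            have e : x + (a : ℤ) - (r - -(a : ℤ)) = x - r := by ring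
            rwa [e] at this
    rw [Finset.sum_congr rfl (fun x _ => key x), ← Finset.sum_filter, Finset.sum_const,
      nsmul_eq_mul, mul_one]
    have hprod : ∏ i, nR (gg PP i) (Rel PP A A' i) (D i) (D' i) = 1 / (q : ℝ) := by
      have e1 : ∀ i, nR (gg PP i) (Rel PP A A' i) (D i) (D' i) =
          if i ∈ S then gg PP i else 1 := by
        intro i
        cases hD : D i with
        | none =>
          cases hD' : D' i with
          | none =>
            rw [if_neg]
            · rfl
            · rw [hS, Finset.mem_union, mem_supp, mem_supp]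
              push Not
              exact ⟨hD, hD'⟩
          | some a' =>
            rw [if_pos]
            · rfl
            · rw [hS, Finset.mem_union, mem_supp, mem_supp]
              right; rw [hD']; simp
        | some a =>
          have hiS : i ∈ S := by
            rw [hS, Finset.mem_union, mem_supp, mem_supp]
            left; rw [hD]; simp
          rw [if_pos hiS]
          cases hD' : D' i with
          | none => rfl
          | some a' =>
            simp only [nR, Rel]
            rw [if_pos (hbad i a a' hD hD'), mul_one]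
      rw [Finset.prod_congr rfl (fun i _ => e1 i), Finset.prod_ite_mem, Finset.univ_inter]
      unfold gg
      rw [Finset.prod_div_distrib, Finset.prod_const_one, hqd]
      push_cast
      rfl
    rw [hprod, mul_one_div]
    refine hE q (prod_emb_squarefree hP S) ?_ (fun p hp => prod_emb_primeFactors hP S hp) r
    refine le_trans ?_ hq
    have h1 : (q : ℝ) = ∏ i ∈ S, pp PP i := by rw [hqd]; push_cast; rfl
    have hp1 : ∀ i, 1 ≤ pp PP i := fun i => by
      unfold pp
      exact_mod_cast (hP _ (emb_mem PP i)).one_le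
    rw [h1]
    unfold qq
    rw [prod_nu1, prod_nu1]
    have h2 := Finset.prod_union_inter (s₁ := supp D) (s₂ := supp D') (f := pp PP)
    rw [← h2, ← hS]
    have h3 : 1 ≤ ∏ i ∈ supp D ∩ supp D', pp PP i :=
      Finset.prod_induction _ (fun x => 1 ≤ x)
        (fun _ _ ha hb => one_le_mul_of_one_le_of_one_le ha hb) le_rfl fun i _ => hp1 i
    have h4 : 0 ≤ ∏ i ∈ S, pp PP i := Finset.prod_nonneg fun i _ => zero_le_one.trans (hp1 i)
    nlinarith

end Run7.h294.G
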