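import Mathlib

set_option autoImplicit false
set_option linter.unusedSectionVars false

/-! # Local averaging over the windows of a block: the exceptional set -/

namespace Run7.h294.H

open Finset

open scoped Classical

/-- If the weights `w ω` of the windows `ω` of a block have mass close to `N`, live on the points
where the window is covered, are pairwise almost uncorrelated and have bounded second moment, and the
number of the windows is large, then almost all points have a covered window. -/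
theorem exc_comb {ι : Type} (𝒜 : Finset ℤ) (Ω : Finset ι) (w u : ι → ℤ → ℝ)
    (N ε M : ℝ) (hε0 : 0 ≤ ε) (hN : 0 < N)
    (hw : ∀ ω ∈ Ω, ∀ x, 0 ≤ w ω x) (hu : ∀ ω ∈ Ω, ∀ x, 0 ≤ u ω x)
    (hcard : (𝒜.card : ℝ) ≤ (1 + ε) * N)
    (h1 : ∀ ω ∈ Ω, (1 - ε) * N ≤ ∑ x ∈ 𝒜, w ω x)
    (h2 : ∀ ω ∈ Ω, ∑ x ∈ 𝒜, w ω x * u ω x ≤ ε * N)
    (h3 : ∀ ω ∈ Ω, ∀ ω' ∈ Ω, ω ≠ ω' → ∑ x ∈ 𝒜, w ω x * w ω' x ≤ (1 + ε) * N)
    (h4 : ∀ ω ∈ Ω, ∑ x ∈ 𝒜, (w ω x) ^ 2 ≤ M * N) (hM : 0 ≤ M)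
    (hR : M ≤ ε * (Ω.card : ℝ)) (hR0 : 0 < Ω.card) :
    ((𝒜.filter (fun x => ∀ ω ∈ Ω, 1 ≤ u ω x)).card : ℝ) ≤ 22 * ε * N := by
  set R : ℝ := (Ω.card : ℝ) with hRd
  have hRp : 0 < R := by rw [hRd]; exact_mod_cast hR0
  set F : ℤ → ℝ := fun x => (∑ ω ∈ Ω, w ω x) / R with hF
  set H : ℤ → ℝ := fun x => (∑ ω ∈ Ω, if u ω x < 1 then 0 else w ω x) / R with hH
  have hF1 : (1 - ε) * N ≤ ∑ x ∈ 𝒜, F x := by
    rw [hF, ← Finset.sum_div, Finset.sum_comm, le_div_iff₀ hRp]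
    calc (1 - ε) * N * R = ∑ ω ∈ Ω, (1 - ε) * N := by
          rw [Finset.sum_const, nsmul_eq_mul]; ring
      _ ≤ ∑ ω ∈ Ω, ∑ x ∈ 𝒜, w ω x := Finset.sum_le_sum h1
  have hF2 : ∑ x ∈ 𝒜, (F x) ^ 2 ≤ (1 + 2 * ε) * N := by
    have e1 : ∑ x ∈ 𝒜, (F x) ^ 2 = (∑ ω ∈ Ω, ∑ ω' ∈ Ω, ∑ x ∈ 𝒜, w ω x * w ω' x) / R ^ 2 := by
      rw [Finset.sum_congr rfl (fun x _ => show (F x) ^ 2 =
        (∑ ω ∈ Ω, ∑ ω' ∈ Ω, w ω x * w ω' x) / R ^ 2 by
          rw [hF]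
          simp only
          rw [div_pow, sq (∑ ω ∈ Ω, w ω x), Finset.sum_mul_sum])]
      rw [← Finset.sum_div, Finset.sum_comm]
      congr 1
      refine Finset.sum_congr rfl fun ω _ => ?_
      rw [Finset.sum_comm]
    rw [e1, div_le_iff₀ (by positivity)]
    have e2 : ∀ ω ∈ Ω, ∑ ω' ∈ Ω, ∑ x ∈ 𝒜, w ω x * w ω' x ≤ (1 + ε) * N * R + M * N := by
      intro ω hω
      calc ∑ ω' ∈ Ω, ∑ x ∈ 𝒜, w ω x * w ω' x
          ≤ ∑ ω' ∈ Ω, ((1 + ε) * N + if ω' = ω then M * N else 0) := by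
            refine Finset.sum_le_sum fun ω' hω' => ?_
            by_cases hh : ω' = ω
            · rw [if_pos hh, hh]
              have e3 := h4 ω hω
              have e4 : ∑ x ∈ 𝒜, w ω x * w ω x = ∑ x ∈ 𝒜, (w ω x) ^ 2 :=
                Finset.sum_congr rfl fun x _ => by ring
              rw [e4]
              have : 0 ≤ (1 + ε) * N := by positivity
              linarith
            · rw [if_neg hh, add_zero]
              exact h3 ω hω ω' hω' (fun h => hh h.symm)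
        _ = (1 + ε) * N * R + M * N := by
            rw [Finset.sum_add_distrib, Finset.sum_const, nsmul_eq_mul, Finset.sum_ite_eq' Ω ω,
              if_pos hω]
            ring
    calc ∑ ω ∈ Ω, ∑ ω' ∈ Ω, ∑ x ∈ 𝒜, w ω x * w ω' x
        ≤ ∑ ω ∈ Ω, ((1 + ε) * N * R + M * N) := Finset.sum_le_sum e2
      _ = R * ((1 + ε) * N * R + M * N) := by rw [Finset.sum_const, nsmul_eq_mul]
      _ ≤ R * ((1 + ε) * N * R + (ε * R) * N) := by gcongr
      _ = (1 + 2 * ε) * N * R ^ 2 := by ring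
  have hvar : ∑ x ∈ 𝒜, (F x - 1) ^ 2 ≤ 5 * ε * N := by
    have e1 : ∑ x ∈ 𝒜, (F x - 1) ^ 2 = ∑ x ∈ 𝒜, (F x) ^ 2 - 2 * ∑ x ∈ 𝒜, F x + 𝒜.card := by
      rw [Finset.mul_sum, ← Finset.sum_sub_distrib, Finset.card_eq_sum_ones]
      push_cast
      rw [← Finset.sum_add_distrib]
      exact Finset.sum_congr rfl fun x _ => by ring
    rw [e1]
    linarith
  have hH0 : ∀ x, 0 ≤ H x := by
    intro x
    rw [hH]
    refine div_nonneg (Finset.sum_nonneg fun ω hω => ?_) hRp.le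
    split_ifs
    · exact le_rfl
    · exact hw ω hω x
  have hHs : ∑ x ∈ 𝒜, H x ≤ ε * N := by
    rw [hH, ← Finset.sum_div, Finset.sum_comm, div_le_iff₀ hRp]
    calc ∑ ω ∈ Ω, ∑ x ∈ 𝒜, (if u ω x < 1 then 0 else w ω x)
        ≤ ∑ ω ∈ Ω, ε * N := by
          refine Finset.sum_le_sum fun ω hω => ?_
          refine (Finset.sum_le_sum fun x _ => ?_).trans (h2 ω hω)
          split_ifs with hh
          · exact mul_nonneg (hw ω hω x) (hu ω hω x)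
          · push Not at hh
            exact le_mul_of_one_le_right (hw ω hω x) hh
      _ = ε * N * R := by rw [Finset.sum_const, nsmul_eq_mul]; ring
  have hzero : ∀ x, (∀ ω ∈ Ω, 1 ≤ u ω x) → F x = H x := by
    intro x hx
    rw [hF, hH]
    simp only
    congr 1
    refine Finset.sum_congr rfl fun ω hω => ?_
    rw [if_neg (not_lt.2 (hx ω hω))]
  set 𝒳 := 𝒜.filter (fun x => ∀ ω ∈ Ω, 1 ≤ u ω x) with h𝒳
  have hone : ∀ x ∈ 𝒳, 1 ≤ 4 * (F x - 1) ^ 2 + 2 * H x := by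
    intro x hx
    rw [h𝒳, Finset.mem_filter] at hx
    have h := hzero x hx.2
    rw [← h]
    nlinarith [sq_nonneg (4 * F x - 3)]
  calc (𝒳.card : ℝ) = ∑ x ∈ 𝒳, (1 : ℝ) := by rw [Finset.sum_const, nsmul_eq_mul, mul_one]
    _ ≤ ∑ x ∈ 𝒳, (4 * (F x - 1) ^ 2 + 2 * H x) := Finset.sum_le_sum hone
    _ ≤ ∑ x ∈ 𝒜, (4 * (F x - 1) ^ 2 + 2 * H x) := by
        apply Finset.sum_le_sum_of_subset_of_nonneg (Finset.filter_subset _ _)
        intro x _ _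
        have := hH0 x
        positivity
    _ = 4 * ∑ x ∈ 𝒜, (F x - 1) ^ 2 + 2 * ∑ x ∈ 𝒜, H x := by
        rw [Finset.sum_add_distrib, ← Finset.mul_sum, ← Finset.mul_sum]
    _ ≤ 22 * ε * N := by linarith

end Run7.h294.H
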