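import Pool.Agent.Run7.h294.G3
import Pool.Agent.Run7.h294.G9
import Pool.Agent.H256R2.SC.V1
import Pool.Agent.H256R2.SC.L

set_option autoImplicit false
set_option linter.unusedSectionVars false

/-! # The choice of the parameters, with a free exponent and an excluded set of primes -/

namespace Run7.h294.H

open Finset Pool.Agent.H256R2.SC Run7.h294.G

open scoped Classical

theorem params (D : ℕ) (hD : 10 ≤ D) : ∃ c₅ C₆ CM : ℝ, 0 < c₅ ∧ c₅ ≤ 1 / 4 ∧ 1 ≤ C₆ ∧ 0 ≤ CM ∧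
    ∀ L : ℝ, 100 ≤ Real.log L → 21 * CM ≤ Real.log L → ∀ m : ℕ,
    2 ^ m * (C₆ * (Real.log L) ^ 2) ≤ L → ∀ E : Finset ℕ, 2 * (E.card : ℝ) ≤ L ^ D →
    ∃ (PP : Finset ℕ) (h : Finset (Fin PP.card) → ℝ),
      (∀ p ∈ PP, p.Prime ∧ L ^ D < (p : ℝ) ∧ (p : ℝ) ≤ Real.exp (L / 10) ∧ p ∉ E) ∧
      ∃ K hm : ℝ, Par PP h (Real.exp (L / (1000 * D * Real.log L))) K hm (Real.exp (L / 40))
        (1 / L ^ (D - 1)) 3 (c₅ * (m + 1) * L / Real.log L)
        ⌈Real.log L * 2 ^ m + D * Real.log L⌉₊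
        (2 * ⌈(D + 21) / 2 * Real.log L⌉₊) ∧
      (2 * (c₅ * (m + 1) * L / Real.log L) * K / Real.log (Real.exp (L / (1000 * D * Real.log L))) -
        Real.log (Real.exp (L / 40) / Real.exp (L / (1000 * D * Real.log L))) /
          Real.log (Real.exp (L / (1000 * D * Real.log L))) ≤ -(D * Real.log L)) ∧
      (2 * (c₅ * (m + 1) * L / Real.log L) * hm -
        (⌈Real.log L * 2 ^ m + D * Real.log L⌉₊ : ℝ) ≤ -(D * Real.log L)) ∧
      ∑ i, gg PP i ≤ Real.log L + CM ∧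
      (PP.card : ℝ) + 1 ≤ Real.exp (L / (1000 * D * Real.log L)) ∧
      (∀ i, L ^ D < pp PP i) ∧ c₅ * (m + 1) * L / Real.log L ≤ L := by
  obtain ⟨c₂, hc₂, hAl⟩ := A_lower
  obtain ⟨CM₀, hM₀⟩ := Pool.Agent.Helper256.KM.mertens_inv
  have hD1 : (10 : ℝ) ≤ D := by exact_mod_cast hD
  have hD0 : (0 : ℝ) < D := by linarith
  set CM : ℝ := max CM₀ 0 with hCM
  have hCM0 : 0 ≤ CM := le_max_right _ _
  set c₅ : ℝ := min (1 / 4) (c₂ / (8000 * D ^ 2)) with hc5
  have hc50 : 0 < c₅ := lt_min (by norm_num) (by positivity)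
  have hc51 : c₅ ≤ 1 / 4 := min_le_left _ _
  have hc52 : c₅ ≤ c₂ / (8000 * D ^ 2) := min_le_right _ _
  set C₆ : ℝ := 20000 * D ^ 2 + 20000 * D ^ 2 / c₂ with hC6
  have hD2 : (100:ℝ) ≤ (D:ℝ) ^ 2 := by nlinarith
  have hC61 : 20000 * (D:ℝ) ^ 2 ≤ C₆ := by rw [hC6]; have : 0 < 20000 * (D:ℝ) ^ 2 / c₂ := by positivity
                                           linarith
  have hC62 : 20000 * (D:ℝ) ^ 2 / c₂ ≤ C₆ := by
    rw [hC6]
    have : 0 < (D:ℝ) ^ 2 := by positivity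
    linarith
  refine ⟨c₅, C₆, CM, hc50, hc51, by linarith, hCM0, ?_⟩
  intro L hl100 hlM m hm E hE
  set l : ℝ := Real.log L with hl
  have hl0 : 0 < l := by linarith
  have hLpos : 0 < L := by
    by_contra hc
    push Not at hc
    have h1 : (0:ℝ) < 2 ^ m * (C₆ * l ^ 2) := by positivity
    linarith
  have hLexp : L = Real.exp l := (Real.exp_log hLpos).symm
  have h2m : (1:ℝ) ≤ 2 ^ m := one_le_pow₀ (by norm_num)
  have h2m0 : (0:ℝ) < 2 ^ m := by positivity
  have hL0 : C₆ * l ^ 2 ≤ L := by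
    have h1 : 0 ≤ C₆ * l ^ 2 := by positivity
    nlinarith
  have hLl : 20000 * (D:ℝ) ^ 2 * l ^ 2 ≤ L := by
    have : 20000 * (D:ℝ) ^ 2 * l ^ 2 ≤ C₆ * l ^ 2 := mul_le_mul_of_nonneg_right hC61 (by positivity)
    linarith
  have hL1 : 1000 ≤ L := by nlinarith
  -- the scales
  set w : ℝ := L / (1000 * D * l) with hw
  have hw0 : 0 < w := by positivity
  set z₀ : ℝ := Real.exp (w / 2 ^ m) with hz₀
  set z : ℝ := Real.exp w with hz
  have hlogz0 : Real.log z₀ = w / 2 ^ m := Real.log_exp _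
  have hlogz : Real.log z = w := Real.log_exp _
  have hz01 : 1 < z₀ := by rw [hz₀]; exact Real.one_lt_exp_iff.mpr (by positivity)
  have hlogzj : ∀ j : ℕ, Real.log (z₀ ^ (2 ^ j)) = (2:ℝ) ^ j * (w / 2 ^ m) := by
    intro j
    rw [Real.log_pow, hlogz0]
    push_cast
    ring
  have hzz : z₀ ^ (2 ^ m) = z := by
    rw [hz₀, hz, ← Real.exp_nat_mul]
    congr 1
    push_cast
    field_simp
  have hzpos : 0 < z := Real.exp_pos _
  have hwC : C₆ * l / (1000 * D) ≤ w / 2 ^ m := by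
    rw [hw, div_div, div_le_div_iff₀ (by positivity) (by positivity)]
    calc C₆ * l * (1000 * D * l * 2 ^ m) = 1000 * D * (2 ^ m * (C₆ * l ^ 2)) := by ring
      _ ≤ 1000 * D * L := by gcongr
      _ = L * (1000 * D) := by ring
  have hwlow : 20 * D * l ≤ w / 2 ^ m := by
    refine le_trans ?_ hwC
    rw [le_div_iff₀ (by positivity)]
    calc 20 * D * l * (1000 * D) = (20000 * (D:ℝ) ^ 2) * l := by ring
      _ ≤ C₆ * l := mul_le_mul_of_nonneg_right hC61 hl0.le
  have hwm : w / 2 ^ m ≤ w := div_le_self hw0.le h2m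
  have hwL : w ≤ L / 10 := by
    rw [hw]
    apply div_le_div_of_nonneg_left hLpos.le (by norm_num)
    nlinarith
  set y₁ : ℝ := L ^ D with hy₁
  have hL10 : L ≤ y₁ := by
    rw [hy₁]
    exact le_self_pow₀ (by linarith) (by omega)
  have hy1 : 3 ≤ y₁ := by linarith
  have hy0 : 0 < y₁ := by linarith
  have hlogy : Real.log y₁ = D * l := by rw [hy₁, Real.log_pow]
  -- the sieving primes
  set PP : Finset ℕ := PS y₁ z E with hPP
  have hPPmem : ∀ p ∈ PP, p.Prime ∧ y₁ < (p:ℝ) ∧ (p:ℝ) ≤ z ∧ p ∉ E := by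
    intro p hp
    rw [hPP] at hp
    unfold PS at hp
    rw [Finset.mem_filter, Finset.mem_Icc] at hp
    refine ⟨hp.2.1, hp.2.2.1, ?_, hp.2.2.2⟩
    calc (p:ℝ) ≤ (⌊z⌋₊ : ℝ) := by exact_mod_cast hp.1.2
      _ ≤ z := Nat.floor_le hzpos.le
  have hPprime : ∀ p ∈ PP, p.Prime := fun p hp => (hPPmem p hp).1
  have hPy : ∀ i, y₁ < pp PP i := fun i => (hPPmem _ (emb_mem PP i)).2.1
  have hPz : ∀ i, pp PP i ≤ z := fun i => (hPPmem _ (emb_mem PP i)).2.2.1
  have hP1 : ∀ i, 1 < pp PP i := fun i => by linarith [hPy i]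
  have hP0 : ∀ i, 0 < pp PP i := fun i => by linarith [hPy i]
  have hgP : ∀ i, gg PP i = 1 / pp PP i := fun i => rfl
  have hg0 : ∀ i, 0 < gg PP i := fun i => by
    rw [hgP]
    exact div_pos one_pos (hP0 i)
  have hgy : ∀ i, gg PP i ≤ 1 / y₁ := fun i => by
    rw [hgP]
    exact one_div_le_one_div_of_le (by linarith) (hPy i).le
  -- the profile
  set lam : ℝ := c₂ / (2 * D * l) with hlam
  have hlam0 : 0 < lam := by positivity
  have hA : ∀ j < m + 1, 1 ≤ Asum (pp PP) (gg PP) (z₀ ^ (2 ^ j)) ∧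
      lam * (2 ^ j * Real.log z₀) ≤ Asum (pp PP) (gg PP) (z₀ ^ (2 ^ j)) := by
    intro j hj
    have h1 : Asum (pp PP) (gg PP) (z₀ ^ (2 ^ j)) = _ := Asum_enum PP (z₀ ^ (2 ^ j))
    have hxl := hlogzj j
    have h2j : (1:ℝ) ≤ 2 ^ j := one_le_pow₀ (by norm_num)
    have hwj : w / 2 ^ m ≤ 2 ^ j * (w / 2 ^ m) :=
      le_mul_of_one_le_left (by positivity) h2j
    have hDl : 0 ≤ D * l := by positivity
    have hyx : y₁ ≤ z₀ ^ (2 ^ j) := by
      rw [← Real.log_le_log_iff (by linarith) (by positivity), hxl, hlogy]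
      linarith
    have hxz : z₀ ^ (2 ^ j) ≤ z := by
      rw [← hzz]
      exact pow_le_pow_right₀ hz01.le (Nat.pow_le_pow_right (by norm_num) (by omega))
    have h2 := hAl y₁ z (z₀ ^ (2 ^ j)) E hy1 hyx hxz hE
    rw [hxl, hlogy] at h2
    have h5 : c₂ * (2 ^ j * (w / 2 ^ m)) / (D * l) - 1 ≤ Asum (pp PP) (gg PP) (z₀ ^ (2 ^ j)) := by
      rw [h1]
      exact h2
    have h6 : 2 ≤ c₂ * (2 ^ j * (w / 2 ^ m)) / (D * l) := by
      rw [le_div_iff₀ (by positivity)]
      have e1 : c₂ * (20000 * (D:ℝ) ^ 2 / c₂ * l / (1000 * D)) ≤ c₂ * (2 ^ j * (w / 2 ^ m)) := by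
        apply mul_le_mul_of_nonneg_left _ hc₂.le
        refine le_trans ?_ (hwC.trans hwj)
        gcongr
      have e2 : c₂ * (20000 * (D:ℝ) ^ 2 / c₂ * l / (1000 * D)) = 20 * (D * l) := by
        field_simp
        norm_num
      linarith
    refine ⟨by linarith, ?_⟩
    have h7 : lam * (2 ^ j * Real.log z₀) = c₂ * (2 ^ j * (w / 2 ^ m)) / (D * l) / 2 := by
      rw [hlam, hlogz0]
      field_simp
    rw [h7]
    linarith
  obtain ⟨h, H, hsup⟩ := exists_h_sup (pp PP) (gg PP) hP1 hg0 (m + 1) (by omega) z₀ lam hz01 hlam0 hA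
  rw [Nat.add_sub_cancel, hzz] at H
  have hm0 : (0:ℝ) < ((m + 1 : ℕ) : ℝ) := by positivity
  have hmc : ((m + 1 : ℕ) : ℝ) = (m : ℝ) + 1 := by push_cast; ring
  set U : ℝ := c₅ * (m + 1) * L / l with hU
  have hU0 : 0 ≤ U := by rw [hU]; positivity
  have hUL : U ≤ L := by
    rw [hU, div_le_iff₀ hl0]
    -- m + 1 ≤ 2 l
    have e1 : (2:ℝ) ^ m ≤ Real.exp l := by
      rw [← hLexp]
      have : (1:ℝ) ≤ C₆ * l ^ 2 := by nlinarith
      nlinarith
    have e2 : (m : ℝ) * Real.log 2 ≤ l := by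
      have := Real.log_le_log h2m0 e1
      rwa [Real.log_pow, Real.log_exp] at this
    have e3 : (0.69 : ℝ) ≤ Real.log 2 := by
      have := Real.log_two_gt_d9
      linarith
    have e4 : (m : ℝ) * 0.69 ≤ l := by
      have : (m : ℝ) * 0.69 ≤ m * Real.log 2 := mul_le_mul_of_nonneg_left e3 (Nat.cast_nonneg m)
      linarith
    have e5 : (m : ℝ) + 1 ≤ 2 * l := by linarith
    have e6 : c₅ * ((m : ℝ) + 1) ≤ 1 / 4 * (2 * l) :=
      mul_le_mul hc51 e5 (by positivity) (by norm_num)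
    nlinarith
  -- the sum of the reciprocals
  have hG : ∑ i, gg PP i ≤ l + CM := by
    have h1 : ∑ i, gg PP i = ∑ p ∈ PP, 1 / (p:ℝ) := by
      have : PP = univ.map (emb PP) := by
        ext p
        rw [Finset.mem_map]
        constructor
        · intro hp
          obtain ⟨i, hi⟩ := emb_surj PP hp
          exact ⟨i, Finset.mem_univ _, hi⟩
        · rintro ⟨i, _, rfl⟩
          exact emb_mem PP i
      conv_rhs => rw [this]
      rw [Finset.sum_map]
      rfl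
    have hw3 : (2:ℝ) ≤ w := by
      have : (2:ℝ) ≤ 20 * D * l := by nlinarith
      linarith
    have hz3 : 3 ≤ ⌊z⌋₊ := by
      apply Nat.le_floor
      push_cast
      have e4 : Real.exp 2 ≤ z := Real.exp_le_exp.mpr hw3
      have e5 : (3:ℝ) ≤ Real.exp 2 := by
        have := Real.add_one_le_exp (2:ℝ); linarith
      linarith
    have h2 := (abs_le.mp (hM₀ ⌊z⌋₊ hz3)).2
    have h3 : ∑ p ∈ PP, 1 / (p:ℝ) ≤ ∑ p ∈ (Finset.Icc 1 ⌊z⌋₊).filter Nat.Prime, (1 : ℝ) / p := by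
      apply Finset.sum_le_sum_of_subset_of_nonneg
      · intro p hp
        rw [hPP] at hp
        unfold PS at hp
        rw [Finset.mem_filter] at hp ⊢
        exact ⟨hp.1, hp.2.1⟩
      · intro p _ _
        positivity
    have h4 : Real.log (Real.log (⌊z⌋₊ : ℝ)) ≤ l := by
      have e1 : (3:ℝ) ≤ (⌊z⌋₊ : ℝ) := by exact_mod_cast hz3
      have e2 : Real.log (⌊z⌋₊ : ℝ) ≤ L := by
        have : Real.log (⌊z⌋₊ : ℝ) ≤ Real.log z :=
          Real.log_le_log (by linarith) (Nat.floor_le hzpos.le)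
        linarith
      rw [hl]
      exact Real.log_le_log (Real.log_pos (by linarith)) e2
    rw [h1]
    have := le_max_left CM₀ 0
    linarith
  have hn1 : (PP.card:ℝ) + 1 ≤ z := by
    have h1 : PP ⊆ Finset.Icc 2 ⌊z⌋₊ := by
      intro p hp
      have hp' := hp
      rw [hPP] at hp'
      unfold PS at hp'
      rw [Finset.mem_filter, Finset.mem_Icc] at hp'
      rw [Finset.mem_Icc]
      exact ⟨hp'.2.1.two_le, hp'.1.2⟩
    have h2 := Finset.card_le_card h1
    rw [Nat.card_Icc] at h2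
    have h3 : 1 ≤ ⌊z⌋₊ := Nat.le_floor (by
      push_cast
      have : Real.exp 0 ≤ z := Real.exp_le_exp.mpr hw0.le
      simpa using this)
    have h4 : PP.card + 1 ≤ ⌊z⌋₊ := by omega
    calc (PP.card:ℝ) + 1 ≤ (⌊z⌋₊ : ℝ) := by exact_mod_cast h4
      _ ≤ z := Nat.floor_le hzpos.le
  have hL9 : L ^ (D - 1) * L = y₁ := by
    rw [hy₁, ← pow_succ]
    congr 1
    omega
  have hL9p : 0 < L ^ (D - 1) := by positivity
  have hUg : ∀ i, U * gg PP i ≤ 1 / L ^ (D - 1) := by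
    intro i
    have h1 : U * gg PP i ≤ L * (1 / y₁) := mul_le_mul hUL (hgy i) (hg0 i).le hLpos.le
    have h2 : L * (1 / y₁) = 1 / L ^ (D - 1) := by rw [← hL9]; field_simp
    linarith
  have hL9s : 1 / L ^ (D - 1) ≤ 1 / L := by
    apply one_div_le_one_div_of_le hLpos
    exact le_self_pow₀ (by linarith) (by omega)
  have hL1' : 1 / L ≤ 1 / 1000 := one_div_le_one_div_of_le (by norm_num) hL1
  refine ⟨PP, h, fun p hp => ⟨(hPPmem p hp).1, (hPPmem p hp).2.1, (hPPmem p hp).2.2.1.trans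
    (Real.exp_le_exp.mpr hwL), (hPPmem p hp).2.2.2⟩, 4 / (lam * ((m + 1 : ℕ) : ℝ)),
    2 / (lam * ((m + 1 : ℕ) : ℝ) * Real.log z₀), ?_, ?_, ?_, hG, hn1, hPy, hUL⟩
  · refine ⟨hPprime, H, hsup, Real.one_le_exp (by positivity), by positivity, by norm_num, hU0,
      ⟨⌈(D + 21) / 2 * l⌉₊, by ring⟩, hPz, ?_, ?_, ?_, ?_, ?_⟩
    · intro i
      have := hgy i
      have h1 : 1 / y₁ ≤ 1 / L := one_div_le_one_div_of_le hLpos hL10
      linarith
    · intro i
      have := hUg i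
      linarith
    · have h1 : U * (1 / L ^ (D - 1)) ≤ L * (1 / L ^ (D - 1)) :=
        mul_le_mul_of_nonneg_right hUL (by positivity)
      have h2 : L * (1 / L ^ (D - 1)) ≤ 1 := by
        rw [mul_one_div, div_le_one hL9p]
        exact le_self_pow₀ (by linarith) (by omega)
      linarith
    · intro S hS
      have h1 : Real.exp ((S.card : ℝ)) ≤ ∏ i ∈ S, pp PP i := by
        have : Real.exp (S.card : ℝ) = ∏ i ∈ S, Real.exp 1 := by
          rw [Finset.prod_const, ← Real.exp_nat_mul, mul_one]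
        rw [this]
        apply Finset.prod_le_prod
        · intro i _; exact (Real.exp_pos _).le
        · intro i _
          have := Real.exp_one_lt_d9
          linarith [hPy i]
      have h2 : (S.card : ℝ) ≤ L / 40 := Real.exp_le_exp.mp (h1.trans hS)
      have h3 : ∑ i ∈ S, gg PP i ≤ S.card * (1 / y₁) := by
        have := Finset.sum_le_sum (fun i (_ : i ∈ S) => hgy i)
        rw [Finset.sum_const, nsmul_eq_mul] at this
        exact this
      have h4 : (S.card : ℝ) * (1 / y₁) ≤ L / 40 * (1 / y₁) :=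
        mul_le_mul_of_nonneg_right h2 (by positivity)
      have h5 : L / 40 * (1 / y₁) = 1 / 40 * (1 / L ^ (D - 1)) := by rw [← hL9]; field_simp
      have h6 : 0 < 1 / L ^ (D - 1) := by positivity
      linarith
    · have h1 : ∑ i, 1 / (pp PP i) ^ 2 ≤ (1 / y₁) * ∑ i, gg PP i := by
        rw [Finset.mul_sum]
        apply Finset.sum_le_sum
        intro i _
        have : 1 / (pp PP i) ^ 2 = gg PP i * gg PP i := by rw [hgP]; field_simp
        rw [this]
        exact mul_le_mul_of_nonneg_right (hgy i) (hg0 i).le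
      have h2 : (1 / y₁) * ∑ i, gg PP i ≤ (1 / y₁) * (2 * l) := by
        apply mul_le_mul_of_nonneg_left _ (by positivity)
        linarith
      have h3 : 0 ≤ ∑ i, 1 / (pp PP i) ^ 2 := Finset.sum_nonneg fun i _ => by positivity
      have h4 : 2 * U * ∑ i, 1 / (pp PP i) ^ 2 ≤ 2 * L * ((1 / y₁) * (2 * l)) := by
        apply mul_le_mul (by linarith) (h1.trans h2) h3 (by positivity)
      have h5 : 2 * L * ((1 / y₁) * (2 * l)) ≤ 1 := by
        rw [show 2 * L * ((1 / y₁) * (2 * l)) = (4 * l * L) / y₁ by ring, div_le_one hy0, ← hL9]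
        apply mul_le_mul_of_nonneg_right _ hLpos.le
        have : L ≤ L ^ (D - 1) := le_self_pow₀ (by linarith) (by omega)
        nlinarith
      linarith
  · rw [hlogz]
    rw [Real.log_div (by positivity) hzpos.ne', Real.log_exp, hlogz, sub_div, div_self hw0.ne']
    have e1 : L / 40 / w = 25 * D * l := by
      rw [hw]
      field_simp
      norm_num
    have e2 : 2 * U * (4 / (lam * ((m + 1 : ℕ) : ℝ))) / w ≤ 2 * l := by
      rw [hmc, hU, hlam, hw]
      have : 2 * (c₅ * ((m:ℝ) + 1) * L / l) * (4 / (c₂ / (2 * D * l) * ((m:ℝ) + 1))) /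
          (L / (1000 * D * l)) = c₅ * (16000 * D ^ 2 / c₂ * l) := by
        field_simp
        ring
      rw [this]
      calc c₅ * (16000 * D ^ 2 / c₂ * l) ≤ c₂ / (8000 * D ^ 2) * (16000 * D ^ 2 / c₂ * l) :=
            mul_le_mul_of_nonneg_right hc52 (by positivity)
        _ = 2 * l := by field_simp; norm_num
    rw [e1]
    nlinarith
  · have e1 : 2 * U * (2 / (lam * ((m + 1 : ℕ) : ℝ) * Real.log z₀)) ≤ l * 2 ^ m := by
      rw [hmc, hU, hlam, hlogz0, hw]
      have : 2 * (c₅ * ((m:ℝ) + 1) * L / l) * (2 / (c₂ / (2 * D * l) * ((m:ℝ) + 1) *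
          (L / (1000 * D * l) / 2 ^ m))) = c₅ * (8000 * D ^ 2 / c₂ * (l * 2 ^ m)) := by
        field_simp
        ring
      rw [this]
      calc c₅ * (8000 * D ^ 2 / c₂ * (l * 2 ^ m)) ≤
            c₂ / (8000 * D ^ 2) * (8000 * D ^ 2 / c₂ * (l * 2 ^ m)) :=
            mul_le_mul_of_nonneg_right hc52 (by positivity)
        _ = l * 2 ^ m := by field_simp
    have e2 := Nat.le_ceil (l * 2 ^ m + D * l)
    linarith

end Run7.h294.H
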