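import Mathlib

set_option autoImplicit false

/-! # Numerical lemmas for the second engine -/

namespace Run7.h294.H

lemma q_inv {L P : ℝ} (hL : 1000 ≤ L) (hP : L ≤ P) (k : ℕ) : 1 / (P * L ^ k) ≤ 1 / P := by
  have hP0 : 0 < P := by linarith
  apply one_div_le_one_div_of_le hP0
  exact le_mul_of_one_le_right hP0.le (one_le_pow₀ (by linarith))

lemma n_small {L R N E t : ℝ} (hN : Real.exp (L / 2) ≤ N) (hR0 : 0 < R)
    (hf : R ≤ Real.exp (L / 100)) (hE : E ≤ Real.exp (t * L)) (ht : t ≤ 49 / 100) (hL0 : 0 ≤ L) :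
    E ≤ 1 / R * N := by
  rw [one_div_mul_eq_div, le_div_iff₀ hR0]
  calc E * R ≤ Real.exp (t * L) * R := mul_le_mul_of_nonneg_right hE hR0.le
    _ ≤ Real.exp (t * L) * Real.exp (L / 100) :=
        mul_le_mul_of_nonneg_left hf (Real.exp_pos _).le
    _ = Real.exp (t * L + L / 100) := by rw [← Real.exp_add]
    _ ≤ Real.exp (L / 2) := by
        apply Real.exp_le_exp.mpr
        have : t * L ≤ 49 / 100 * L := mul_le_mul_of_nonneg_right ht hL0
        linarith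
    _ ≤ N := hN

lemma n_e1 {L P U T N Er : ℝ} (hL : 1000 ≤ L) (hP : L ≤ P) (hU : U ≤ L)
    (hT : T ≤ 2 / (P * L ^ 3)) (hN : 0 < N) (hE : Er ≤ 1 / (P * L ^ 3) * N) :
    (1 - 200 / P) * N ≤ N * (1 - U * (1 / (P * L ^ 2)) - T) - Er := by
  have hL0 : 0 < L := by linarith
  have hP0 : 0 < P := by linarith
  have h3 := q_inv hL hP 3
  have h1 := q_inv hL hP 1
  have e1 : U * (1 / (P * L ^ 2)) ≤ 1 / P := by
    have a : U * (1 / (P * L ^ 2)) ≤ L * (1 / (P * L ^ 2)) :=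
      mul_le_mul_of_nonneg_right hU (by positivity)
    have e : L * (1 / (P * L ^ 2)) = 1 / (P * L ^ 1) := by field_simp
    linarith
  have e2 : T ≤ 2 * (1 / P) := by
    have e : 2 / (P * L ^ 3) = 2 * (1 / (P * L ^ 3)) := by ring
    linarith
  have e3 : Er ≤ 1 / P * N := hE.trans (mul_le_mul_of_nonneg_right h3 hN.le)
  have h0 : 0 < 1 / P := by positivity
  have e4 : N * (1 - 200 / P) ≤ N * (1 - U * (1 / (P * L ^ 2)) - T - 1 / P) := by
    apply mul_le_mul_of_nonneg_left _ hN.le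
    have : 200 / P = 200 * (1 / P) := by ring
    linarith
  have e5 : N * (1 - U * (1 / (P * L ^ 2)) - T - 1 / P) =
    N * (1 - U * (1 / (P * L ^ 2)) - T) - 1 / P * N := by ring
  linarith

lemma n_e2 {L P U T S N Er : ℝ} (hL : 1000 ≤ L) (hP : L ≤ P) (hU0 : 0 ≤ U) (hU : U ≤ L)
    (hT0 : 0 ≤ T) (hT : T ≤ 2 / (P * L ^ 3)) (hS0 : 0 ≤ S) (hS : S ≤ 1 / (P * L ^ 3))
    (hN : 0 < N) (hE : Er ≤ 1 / (P * L ^ 3) * N) :
    N * (U * ((1 / (P * L ^ 2)) ^ 2 + T + S)) + Er ≤ 200 / P * N := by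
  have hL0 : 0 < L := by linarith
  have hP0 : 0 < P := by linarith
  have h3 := q_inv hL hP 3
  have h2 := q_inv hL hP 2
  have a1 : (1 / (P * L ^ 2)) ^ 2 ≤ 1 / (P * L ^ 3) := by
    rw [div_pow, one_pow]
    apply one_div_le_one_div_of_le (by positivity)
    calc P * L ^ 3 ≤ P * L ^ 3 * (P * L) := by
          apply le_mul_of_one_le_right (by positivity)
          nlinarith
      _ = (P * L ^ 2) ^ 2 := by ring
  have e1 : U * ((1 / (P * L ^ 2)) ^ 2 + T + S) ≤ 4 * (1 / P) := by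
    calc U * ((1 / (P * L ^ 2)) ^ 2 + T + S) ≤ L * (4 * (1 / (P * L ^ 3))) := by
          apply mul_le_mul hU _ (by positivity) hL0.le
          have e : 2 / (P * L ^ 3) = 2 * (1 / (P * L ^ 3)) := by ring
          linarith
      _ = 4 * (1 / (P * L ^ 2)) := by field_simp
      _ ≤ 4 * (1 / P) := by linarith
  have h0 : 0 < 1 / P := by positivity
  have e4 := mul_le_mul_of_nonneg_left e1 hN.le
  have e3 : Er ≤ 1 / P * N := hE.trans (mul_le_mul_of_nonneg_right h3 hN.le)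
  have e6 : 200 / P * N = 200 * (1 / P * N) := by ring
  have e7 : N * (4 * (1 / P)) = 4 * (1 / P * N) := by ring
  have e8 : 0 < 1 / P * N := by positivity
  rw [e6]
  linarith

lemma n_e3 {L P U G ρ N Er : ℝ} (hL : 1000 ≤ L) (hP : L ≤ P) (hU0 : 0 ≤ U) (hU : U ≤ L)
    (hG0 : 0 ≤ G) (hG : G ≤ 1 / (P * L ^ 2)) (hρ : ρ = 1 / P)
    (hN : 0 < N) (hE : Er ≤ 1 / (P * L ^ 3) * N) :
    N * Real.exp (16 * U ^ 2 * G + 40 * ρ + 4 * U * (1 / (P * L ^ 2))) + Er ≤
      (1 + 200 / P) * N := by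
  have hL0 : 0 < L := by linarith
  have hP0 : 0 < P := by linarith
  have h3 := q_inv hL hP 3
  have h1 := q_inv hL hP 1
  have h0 : 0 < 1 / P := by positivity
  have a2 : 16 * U ^ 2 * G + 40 * ρ + 4 * U * (1 / (P * L ^ 2)) ≤ 60 * (1 / P) := by
    have b1 : 16 * U ^ 2 * G ≤ 16 * L ^ 2 * (1 / (P * L ^ 2)) := by
      apply mul_le_mul _ hG hG0 (by positivity)
      gcongr
    have b2 : 16 * L ^ 2 * (1 / (P * L ^ 2)) = 16 * (1 / P) := by field_simp
    have b3 : 4 * U * (1 / (P * L ^ 2)) ≤ 4 * L * (1 / (P * L ^ 2)) := by gcongr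
    have b4 : 4 * L * (1 / (P * L ^ 2)) = 4 * (1 / (P * L ^ 1)) := by field_simp
    rw [hρ]
    linarith
  have hsm : 60 * (1 / P) ≤ 1 := by
    have : 1 / P ≤ 1 / 1000 := one_div_le_one_div_of_le (by norm_num) (by linarith)
    linarith
  have a3 : Real.exp (16 * U ^ 2 * G + 40 * ρ + 4 * U * (1 / (P * L ^ 2))) ≤
      1 + 2 * (60 * (1 / P)) := by
    refine (Real.exp_le_exp.mpr a2).trans ?_
    have h0' : 0 < 60 * (1 / P) := by positivity
    have h2 := Real.abs_exp_sub_one_le (x := 60 * (1 / P)) (by rw [abs_of_pos h0']; exact hsm)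
    have h3 := (abs_le.mp h2).2
    rw [abs_of_pos h0'] at h3
    linarith
  have e3 : Er ≤ 1 / P * N := hE.trans (mul_le_mul_of_nonneg_right h3 hN.le)
  have e4 := mul_le_mul_of_nonneg_left a3 hN.le
  have e8 : 0 < 1 / P * N := by positivity
  have e6 : (1 + 200 / P) * N = N + 200 * (1 / P * N) := by ring
  have e7 : N * (1 + 2 * (60 * (1 / P))) = N + 120 * (1 / P * N) := by ring
  rw [e6]
  linarith

lemma n_S {L l G : ℝ} {J D : ℕ} (hLexp : L = Real.exp l) (hJ : (D + 21) * l ≤ J)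
    (hG : 20 * G ≤ 21 * l) :
    (1 / (3:ℝ)) ^ J * Real.exp ((2 + 6 * 3) * G) ≤ 1 / L ^ D := by
  have h1 : (1 / (3:ℝ)) ^ J ≤ Real.exp (-((D + 21) * l)) := by
    have e1 : (1 / (3:ℝ)) = Real.exp (-(Real.log 3)) := by
      rw [Real.exp_neg, Real.exp_log (by norm_num)]; norm_num
    rw [e1, ← Real.exp_nat_mul]
    apply Real.exp_le_exp.mpr
    have e2 : (1:ℝ) ≤ Real.log 3 := by
      rw [Real.le_log_iff_exp_le (by norm_num)]
      have := Real.exp_one_lt_d9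
      linarith
    have e3 : (J:ℝ) * 1 ≤ J * Real.log 3 := mul_le_mul_of_nonneg_left e2 (Nat.cast_nonneg _)
    linarith
  have h2 : Real.exp ((2 + 6 * 3) * G) ≤ Real.exp (21 * l) := by
    apply Real.exp_le_exp.mpr
    linarith
  calc (1 / (3:ℝ)) ^ J * Real.exp ((2 + 6 * 3) * G)
      ≤ Real.exp (-((D + 21) * l)) * Real.exp (21 * l) :=
        mul_le_mul h1 h2 (Real.exp_pos _).le (Real.exp_pos _).le
    _ = Real.exp (-(D * l)) := by rw [← Real.exp_add]; congr 1; ring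
    _ = 1 / L ^ D := by
        rw [Real.exp_neg, hLexp, ← Real.exp_nat_mul, one_div]

lemma n_e4 {L l U G N Er : ℝ} {j m D : ℕ} (hLexp : L = Real.exp l) (hL : 1000 ≤ L) (hl : 100 ≤ l)
    (hU0 : 0 ≤ U) (hU : U ≤ L) (hG : G ≤ 2 * l) (hj : (j : ℝ) ≤ (D + 2) * (l * 2 ^ m))
    (hN : 0 < N) (hE : Er ≤ N) :
    N * (((U + 1) ^ j) ^ 4 * Real.exp (49 * j * G)) + Er ≤
      2 * Real.exp (106 * (D + 2) * (l ^ 2 * 2 ^ m)) * N := by
  have hL0 : 0 < L := by linarith
  have a1 : U + 1 ≤ Real.exp (2 * l) := by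
    have : Real.exp (2 * l) = L ^ 2 := by
      rw [hLexp, ← Real.exp_nat_mul]
      push_cast
      rfl
    rw [this]
    nlinarith
  have a2 : ((U + 1) ^ j) ^ 4 ≤ Real.exp (8 * (j * l)) := by
    calc ((U + 1) ^ j) ^ 4 ≤ ((Real.exp (2 * l)) ^ j) ^ 4 := by gcongr
      _ = Real.exp (8 * (j * l)) := by
          rw [← Real.exp_nat_mul, ← Real.exp_nat_mul]
          congr 1
          push_cast
          ring
  have a3 : Real.exp (49 * j * G) ≤ Real.exp (98 * (j * l)) := by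
    apply Real.exp_le_exp.mpr
    calc 49 * (j:ℝ) * G ≤ 49 * (j:ℝ) * (2 * l) :=
          mul_le_mul_of_nonneg_left hG (by positivity)
      _ = 98 * (j * l) := by ring
  have a4 : ((U + 1) ^ j) ^ 4 * Real.exp (49 * j * G) ≤
      Real.exp (106 * (D + 2) * (l ^ 2 * 2 ^ m)) := by
    calc ((U + 1) ^ j) ^ 4 * Real.exp (49 * j * G)
        ≤ Real.exp (8 * (j * l)) * Real.exp (98 * (j * l)) :=
          mul_le_mul a2 a3 (Real.exp_pos _).le (Real.exp_pos _).le
      _ = Real.exp (106 * (j * l)) := by rw [← Real.exp_add]; congr 1; ring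
      _ ≤ Real.exp (106 * (D + 2) * (l ^ 2 * 2 ^ m)) := by
          apply Real.exp_le_exp.mpr
          have : (j : ℝ) * l ≤ (D + 2) * (l * 2 ^ m) * l :=
            mul_le_mul_of_nonneg_right hj (by linarith)
          have e : 106 * ((D + 2) * (l * 2 ^ m) * l) = 106 * ((D:ℝ) + 2) * (l ^ 2 * 2 ^ m) := by ring
          linarith
  have e4 := mul_le_mul_of_nonneg_left a4 hN.le
  have hl0 : 0 ≤ l := by linarith
  have e5 : N * 1 ≤ N * Real.exp (106 * (D + 2) * (l ^ 2 * 2 ^ m)) :=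
    mul_le_mul_of_nonneg_left (Real.one_le_exp (by positivity)) hN.le
  linarith

lemma n_R {L l P C m2 W : ℝ} {D : ℕ} (hLexp : L = Real.exp l) (hl : 100 ≤ l)
    (hP : P * L ^ 3 = L ^ D) (hL : 1000 ≤ L) (hP0 : 0 < P)
    (hm : 1 ≤ m2) (hC : 1 ≤ C)
    (hΩ : Real.exp ((C + 107 * (D + 2)) * (l ^ 2 * m2)) ≤ W) :
    2 * Real.exp (106 * (D + 2) * (l ^ 2 * m2)) ≤ 200 / P * W := by
  have hPe : P ≤ Real.exp (D * (l ^ 2 * m2)) := by
    have e1 : P ≤ L ^ D := by
      rw [← hP]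
      exact le_mul_of_one_le_right hP0.le (one_le_pow₀ (by linarith))
    have e2 : L ^ D = Real.exp (D * l) := by rw [hLexp, ← Real.exp_nat_mul]
    rw [e2] at e1
    refine e1.trans (Real.exp_le_exp.mpr ?_)
    have e0 : l ≤ l ^ 2 * m2 := by nlinarith
    exact mul_le_mul_of_nonneg_left e0 (Nat.cast_nonneg _)
  have h1 : Real.exp (106 * (D + 2) * (l ^ 2 * m2)) * P ≤ W := by
    refine le_trans ?_ hΩ
    calc Real.exp (106 * (D + 2) * (l ^ 2 * m2)) * P
        ≤ Real.exp (106 * (D + 2) * (l ^ 2 * m2)) * Real.exp (D * (l ^ 2 * m2)) :=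
          mul_le_mul_of_nonneg_left hPe (Real.exp_pos _).le
      _ = Real.exp (106 * (D + 2) * (l ^ 2 * m2) + D * (l ^ 2 * m2)) := by rw [← Real.exp_add]
      _ ≤ _ := by
          apply Real.exp_le_exp.mpr
          have h0 : 0 ≤ l ^ 2 * m2 := by positivity
          have h2 : 0 ≤ C * (l ^ 2 * m2) := by positivity
          nlinarith
  have hW : 0 < W := lt_of_lt_of_le (Real.exp_pos _) hΩ
  have h2 : 200 / P * W = 200 * (W / P) := by ring
  rw [h2]
  have h3 : Real.exp (106 * (D + 2) * (l ^ 2 * m2)) ≤ W / P := by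
    rw [le_div_iff₀ hP0]
    exact h1
  have h4 := Real.exp_pos (106 * (D + 2) * (l ^ 2 * m2))
  linarith

lemma n_facts (CM : ℝ) (D : ℕ) : ∃ L₀ : ℝ, ∀ L : ℝ, L₀ ≤ L → 100 ≤ Real.log L ∧
    21 * CM ≤ Real.log L ∧ L ^ D ≤ Real.exp (L / 100) ∧ 5000 ≤ L := by
  have h1 : ∀ᶠ L : ℝ in Filter.atTop, 100 ≤ Real.log L :=
    Real.tendsto_log_atTop.eventually_ge_atTop 100
  have h2 : ∀ᶠ L : ℝ in Filter.atTop, 21 * CM ≤ Real.log L :=
    Real.tendsto_log_atTop.eventually_ge_atTop _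
  have h5 : ∀ᶠ L : ℝ in Filter.atTop, 5000 ≤ L := Filter.eventually_ge_atTop _
  have h4 : ∀ᶠ L : ℝ in Filter.atTop, L ^ D ≤ Real.exp (L / 100) := by
    have t := (Real.tendsto_exp_div_pow_atTop D).comp
      (Filter.tendsto_id.atTop_div_const (show (0:ℝ) < 100 by norm_num))
    have t2 := t.eventually_ge_atTop ((100:ℝ) ^ D)
    filter_upwards [t2, Filter.eventually_gt_atTop 0] with L hL hL0
    simp only [Function.comp, id] at hL
    have hp : 0 < (L / 100) ^ D := by positivity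
    rw [le_div_iff₀ hp] at hL
    have e : (100:ℝ) ^ D * (L / 100) ^ D = L ^ D := by
      rw [← mul_pow]
      congr 1
      ring
    rwa [e] at hL
  obtain ⟨L₀, h⟩ := Filter.eventually_atTop.1 (h1.and (h2.and (h4.and h5)))
  exact ⟨L₀, fun L hL => h L hL⟩

end Run7.h294.H
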