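import Pool.Agent.Run7.h294.H0
import Pool.Agent.Run7.h294.H1
import Pool.Agent.Run7.h294.H2n
import Pool.Agent.Run7.h294.G12
import Pool.Agent.Run7.h294.G12n

set_option autoImplicit false
set_option linter.unusedSectionVars false

/-! # The second engine: covered windows for almost all points -/

namespace Run7.h294.H

open Finset Pool.Agent.H256R2.SC Run7.h294.G

open scoped Classical

/-- few primes of `PP` divide a difference of elements of the two windows -/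
def Few (PP : Finset ℕ) (L : ℝ) (A A' : Finset ℤ) : Prop :=
  ∀ a ∈ A, ∀ a' ∈ A', (((univ : Finset (Fin PP.card)).filter
    (fun i => ((emb PP i : ℕ) : ℤ) ∣ a - a')).card : ℝ) ≤ L

lemma rel_sum {PP : Finset ℕ} {y : ℝ} (hy : 3 ≤ y)
    (hPy : ∀ i, y < pp PP i) {L : ℝ} {A A' : Finset ℤ} (hd : Few PP L A A') :
    ∑ i, (∑ a, ∑ a', G.Rel PP A A' i a a') * gg PP i ≤ (A.card : ℝ) * A'.card * (L / y) := by
  have hgy : ∀ i, gg PP i ≤ 1 / y := fun i =>
    one_div_le_one_div_of_le (by linarith) (hPy i).le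
  have e1 : ∑ i, (∑ a, ∑ a', G.Rel PP A A' i a a') * gg PP i =
      ∑ a : ↥A, ∑ a' : ↥A', ∑ i, G.Rel PP A A' i a a' * gg PP i := by
    rw [Finset.sum_congr rfl (fun i _ => by rw [Finset.sum_mul] :
      ∀ i ∈ (univ : Finset (Fin PP.card)), (∑ a, ∑ a', G.Rel PP A A' i a a') * gg PP i =
        ∑ a, (∑ a', G.Rel PP A A' i a a') * gg PP i), Finset.sum_comm]
    refine Finset.sum_congr rfl fun a _ => ?_
    rw [Finset.sum_congr rfl (fun i _ => by rw [Finset.sum_mul] :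
      ∀ i ∈ (univ : Finset (Fin PP.card)), (∑ a', G.Rel PP A A' i a a') * gg PP i =
        ∑ a', G.Rel PP A A' i a a' * gg PP i), Finset.sum_comm]
  rw [e1]
  have e2 : ∀ (a : ↥A) (a' : ↥A'), ∑ i, G.Rel PP A A' i a a' * gg PP i ≤ L / y := by
    intro a a'
    have h3 := hd a a.2 a' a'.2
    calc ∑ i, G.Rel PP A A' i a a' * gg PP i
        ≤ ∑ i, (if ((emb PP i : ℕ) : ℤ) ∣ (a : ℤ) - a' then 1 else 0) * (1 / y) := by
          refine Finset.sum_le_sum fun i _ => ?_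
          unfold G.Rel
          exact mul_le_mul_of_nonneg_left (hgy i) (by split_ifs <;> norm_num)
      _ = (((univ : Finset (Fin PP.card)).filter
            (fun i => ((emb PP i : ℕ) : ℤ) ∣ (a : ℤ) - a')).card : ℝ) * (1 / y) := by
          rw [← Finset.sum_mul, Finset.sum_boole]
      _ ≤ L * (1 / y) := mul_le_mul_of_nonneg_right h3 (by positivity)
      _ = L / y := by ring
  calc ∑ a : ↥A, ∑ a' : ↥A', ∑ i, G.Rel PP A A' i a a' * gg PP i
      ≤ ∑ a : ↥A, ∑ a' : ↥A', L / y :=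
        Finset.sum_le_sum fun a _ => Finset.sum_le_sum fun a' _ => e2 a a'
    _ = (A.card : ℝ) * A'.card * (L / y) := by
        rw [Finset.sum_const, Finset.sum_const, Finset.card_univ, Finset.card_univ, nsmul_eq_mul,
          nsmul_eq_mul, Fintype.card_coe, Fintype.card_coe]
        ring

lemma sum_sq_le {PP : Finset ℕ} {L P : ℝ} (hL : 1000 ≤ L) (hP0 : 0 < P)
    (hPy : ∀ i, P * L ^ 3 < pp PP i)
    (hG : ∑ i, gg PP i ≤ L) : ∑ i, (gg PP i) ^ 2 ≤ 1 / (P * L ^ 2) := by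
  have hL0 : 0 < L := by linarith
  have hgy : ∀ i, gg PP i ≤ 1 / (P * L ^ 3) := fun i =>
    one_div_le_one_div_of_le (by positivity) (hPy i).le
  calc ∑ i, (gg PP i) ^ 2 ≤ ∑ i, 1 / (P * L ^ 3) * gg PP i := by
        refine Finset.sum_le_sum fun i _ => ?_
        rw [sq]
        exact mul_le_mul_of_nonneg_right (hgy i) (gg_nonneg PP i)
    _ = 1 / (P * L ^ 3) * ∑ i, gg PP i := by rw [Finset.mul_sum]
    _ ≤ 1 / (P * L ^ 3) * L := mul_le_mul_of_nonneg_left hG (by positivity)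
    _ = 1 / (P * L ^ 2) := by field_simp

theorem engine (D : ℕ) (hD : 10 ≤ D) : ∃ c₅ C₆ : ℝ, 0 < c₅ ∧ 1 ≤ C₆ ∧ ∃ L₀ : ℝ,
    ∀ L : ℝ, L₀ ≤ L → ∀ m : ℕ, 2 ^ m * (C₆ * (Real.log L) ^ 2) ≤ L →
    ∀ E : Finset ℕ, 2 * (E.card : ℝ) ≤ L ^ D →
    ∃ PP : Finset ℕ, (∀ p ∈ PP, p.Prime ∧ L ^ D < (p : ℝ) ∧ (p : ℝ) ≤ Real.exp (L / 10) ∧ p ∉ E) ∧
    ∀ {ι : Type} (Ω : Finset ι) (A : ι → Finset ℤ) (𝒜 : Finset ℤ) (N : ℝ),
    Real.exp (L / 2) ≤ N →
    (∀ ω ∈ Ω, ((A ω).card : ℝ) ≤ c₅ * (m + 1) * L / Real.log L) →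
    (∀ ω ∈ Ω, G.Sep PP (A ω)) →
    (∀ ω ∈ Ω, ∀ ω' ∈ Ω, ω ≠ ω' → Few PP L (A ω) (A ω')) →
    Equi PP 𝒜 N (Real.exp (L / 10)) (Real.exp (L / 4)) →
    Real.exp (C₆ * ((Real.log L) ^ 2 * 2 ^ m)) ≤ (Ω.card : ℝ) →
    ((𝒜.filter (fun x => ∀ ω ∈ Ω, ∃ a ∈ A ω, ∀ p ∈ PP, ¬ (p : ℤ) ∣ x + a)).card : ℝ) ≤
      N / L ^ (D - 4) := by
  obtain ⟨c₅, C₆, CM, hc5, hc51, hC6, hCM, hpar⟩ := params D hD
  obtain ⟨L₀, hL₀⟩ := n_facts CM D
  have hD1 : (10 : ℝ) ≤ D := by exact_mod_cast hD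
  refine ⟨c₅, C₆ + 107 * (D + 2), hc5, by linarith, L₀, ?_⟩
  intro L hL m hm E hE
  obtain ⟨f1, f2, f4, f5⟩ := hL₀ L hL
  have hpar := hpar L f1 f2 m
  generalize hl : Real.log L = l at *
  have hl0 : 0 < l := by linarith
  have hLpos : 0 < L := by linarith
  have hL1000 : 1000 ≤ L := by linarith
  have hLexp : L = Real.exp l := by rw [← hl]; exact (Real.exp_log hLpos).symm
  have h2m : (1:ℝ) ≤ 2 ^ m := one_le_pow₀ (by norm_num)
  have h2m0 : (0:ℝ) < 2 ^ m := by positivity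
  have hm' : 2 ^ m * (C₆ * l ^ 2) ≤ L := by
    refine le_trans ?_ hm
    gcongr
    linarith
  obtain ⟨PP, h, hPP, K, hmm, P, T1, T2, hG1, hn1, hPy, hUL⟩ := hpar hm' E hE
  refine ⟨PP, hPP, ?_⟩
  intro ι Ω A 𝒜 N hN hAc hSep hAA hE' hΩ
  have hG2 : ∑ i, gg PP i ≤ 2 * l := by linarith
  have hzJ0 : (2 * ⌈(D + 21) / 2 * l⌉₊ : ℕ) * (L / (1000 * D * l)) ≤ L / 40 := by
    have h1 := Nat.ceil_lt_add_one (show 0 ≤ ((D:ℝ) + 21) / 2 * l by positivity)
    have h2 : ((2 * ⌈((D:ℝ) + 21) / 2 * l⌉₊ : ℕ) : ℝ) ≤ 25 * D * l := by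
      push_cast
      nlinarith
    calc ((2 * ⌈((D:ℝ) + 21) / 2 * l⌉₊ : ℕ) : ℝ) * (L / (1000 * D * l))
        ≤ (25 * D * l) * (L / (1000 * D * l)) :=
          mul_le_mul_of_nonneg_right h2 (by positivity)
      _ = L / 40 := by field_simp; norm_num
  have hJ1 : (D + 21) * l ≤ ((2 * ⌈((D:ℝ) + 21) / 2 * l⌉₊ : ℕ) : ℝ) := by
    have := Nat.le_ceil (((D:ℝ) + 21) / 2 * l)
    push_cast; linarith
  have hj1 : ((⌈l * 2 ^ m + D * l⌉₊ : ℕ) : ℝ) ≤ (D + 2) * (l * 2 ^ m) := by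
    have h1 := Nat.ceil_lt_add_one (show 0 ≤ l * 2 ^ m + D * l by positivity)
    have h3 : l * 1 ≤ l * 2 ^ m := mul_le_mul_of_nonneg_left h2m hl0.le
    nlinarith
  obtain ⟨R3, hR3⟩ : ∃ R3 : ℝ, R3 = L ^ (D - 3) := ⟨_, rfl⟩
  have hR30 : 0 < R3 := by rw [hR3]; positivity
  have hR3L : L ≤ R3 := by
    rw [hR3]
    exact le_self_pow₀ (by linarith) (by omega)
  have hLD : R3 * L ^ 3 = L ^ D := by
    rw [hR3, ← pow_add]
    congr 1
    omega
  have hLD1 : L ^ (D - 1) = R3 * L ^ 2 := by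
    rw [hR3, ← pow_add]
    congr 1
    omega
  have hT1 : Real.exp (2 * (c₅ * (m + 1) * L / l) * K / Real.log (Real.exp (L / (1000 * D * l))) -
        Real.log (Real.exp (L / 40) / Real.exp (L / (1000 * D * l))) /
          Real.log (Real.exp (L / (1000 * D * l)))) +
        Real.exp (2 * (c₅ * (m + 1) * L / l) * hmm - (⌈l * 2 ^ m + D * l⌉₊ : ℝ)) ≤
        2 / (R3 * L ^ 3) := by
    have e1 := Real.exp_le_exp.mpr T1
    have e2 := Real.exp_le_exp.mpr T2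
    have g5 : Real.exp (-(D * l)) = 1 / (R3 * L ^ 3) := by
      rw [hLD, Real.exp_neg, hLexp, ← Real.exp_nat_mul, one_div]
    rw [g5] at e1 e2
    have : (2:ℝ) / (R3 * L ^ 3) = 1 / (R3 * L ^ 3) + 1 / (R3 * L ^ 3) := by ring
    rw [this]
    exact add_le_add e1 e2
  rw [hLD1] at P
  rw [← hLD] at hPy f4
  generalize hz : Real.exp (L / (1000 * D * l)) = z at *
  generalize hJ : 2 * ⌈((D:ℝ) + 21) / 2 * l⌉₊ = J at *
  generalize hj : ⌈l * 2 ^ m + D * l⌉₊ = j at *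
  generalize hU : c₅ * (m + 1) * L / l = U at *
  generalize hQ : Real.exp (L / 40) = Q at *
  have hU0 : 0 ≤ U := P.U0
  have hNpos : 0 < N := lt_of_lt_of_le (Real.exp_pos _) hN
  have hQ2 : Q ^ 2 = Real.exp (L / 20) := by
    rw [← hQ, ← Real.exp_nat_mul]; congr 1; push_cast; ring
  have hQ4 : Q ^ 4 = Real.exp (L / 10) := by
    rw [← hQ, ← Real.exp_nat_mul]; congr 1; push_cast; ring
  have hQ8 : Q ^ 8 = Real.exp (L / 5) := by
    rw [← hQ, ← Real.exp_nat_mul]; congr 1; push_cast; ring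
  have hz0 : 0 < z := by rw [← hz]; exact Real.exp_pos _
  have hzJ : z ^ J ≤ Real.exp (L / 40) := by
    rw [← hz, ← Real.exp_nat_mul]
    exact Real.exp_le_exp.mpr hzJ0
  have hRL0 : 0 < R3 * L ^ 3 := by positivity
  have hLR : L ≤ R3 * L ^ 3 := by
    have : R3 ≤ R3 * L ^ 3 := le_mul_of_one_le_right hR30.le (one_le_pow₀ (by linarith))
    linarith
  have hUL' : U ≤ Real.exp (L / 100) := (hUL.trans hLR).trans f4
  have k9 : (9 : ℝ) ≤ Real.exp (L / 100) := by linarith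
  have k81 : (81 : ℝ) ≤ Real.exp (L / 100) := by linarith
  -- the equidistribution
  have hErr0 : 0 ≤ Real.exp (L / 10) := (Real.exp_pos _).le
  have hcard : (𝒜.card : ℝ) ≤ (1 + 200 / R3) * N := by
    have h1 := hE' 1 squarefree_one (by
      push_cast
      exact Real.one_le_exp (by positivity)) (by simp) 0
    have h2 : (𝒜.filter (fun x => ((1:ℕ) : ℤ) ∣ x - 0)) = 𝒜 := by
      apply Finset.filter_true_of_mem
      intro x _
      simp
    rw [h2] at h1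
    have h3 := (abs_le.mp h1).2
    have h4 : Real.exp (L / 10) ≤ 1 / (R3 * L ^ 3) * N :=
      n_small hN hRL0 f4 (t := 1 / 10) (Real.exp_le_exp.mpr (by linarith)) (by norm_num) hLpos.le
    have h5 : 1 / (R3 * L ^ 3) * N ≤ 1 / R3 * N :=
      mul_le_mul_of_nonneg_right (q_inv hL1000 hR3L 3) hNpos.le
    rw [Nat.cast_one, div_one] at h3
    have h6 : 0 < 1 / R3 * N := by positivity
    have h7 : (1 + 200 / R3) * N = N + 200 * (1 / R3 * N) := by ring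
    rw [h7]
    linarith
  have hy3 : (3:ℝ) ≤ R3 * L ^ 3 := by linarith
  have hw0 : ∀ ω ∈ Ω, ∀ x, 0 ≤ wgt PP h Q j (A ω) x := by
    intro ω _ x
    unfold wgt
    exact div_nonneg (sq_nonneg _) (zero_le_one.trans (Zs_ge_one P.H))
  have hn0 : (0:ℝ) ≤ (PP.card : ℝ) + 1 := add_nonneg (Nat.cast_nonneg _) zero_le_one
  have hnJ : ((PP.card : ℝ) + 1) ^ J ≤ Real.exp (L / 40) :=
    (pow_le_pow_left₀ hn0 hn1 J).trans hzJ
  have q10 : Real.exp (L / 10) ≤ Real.exp (L / 4) := Real.exp_le_exp.mpr (by linarith)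
  have q20 : Real.exp (L / 20) ≤ Real.exp (L / 4) := Real.exp_le_exp.mpr (by linarith)
  have hEr1 : Real.exp (L / 10) * (9 * Q ^ 4) ≤ 1 / (R3 * L ^ 3) * N := by
    refine n_small hN hRL0 f4 (t := 21 / 100) ?_ (by norm_num) hLpos.le
    rw [hQ4]
    calc Real.exp (L / 10) * (9 * Real.exp (L / 10))
        ≤ Real.exp (L / 10) * (Real.exp (L / 100) * Real.exp (L / 10)) := by gcongr
      _ = Real.exp (21 / 100 * L) := by
          rw [← Real.exp_add, ← Real.exp_add]; congr 1; ring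
  have hEr2' : ∀ Y : ℝ, 0 ≤ Y → Y ≤ Real.exp (L / 40) →
      Real.exp (L / 10) * (9 * Q ^ 4 * (U * Y)) ≤ 1 / (R3 * L ^ 3) * N := by
    intro Y hY0 hY
    refine n_small hN hRL0 f4 (t := 49 / 200) ?_ (by norm_num) hLpos.le
    rw [hQ4]
    calc Real.exp (L / 10) * (9 * Real.exp (L / 10) * (U * Y))
        ≤ Real.exp (L / 10) * (Real.exp (L / 100) * Real.exp (L / 10) *
          (Real.exp (L / 100) * Real.exp (L / 40))) := by gcongr
      _ = Real.exp (49 / 200 * L) := by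
          rw [← Real.exp_add, ← Real.exp_add, ← Real.exp_add, ← Real.exp_add]; congr 1; ring
  have hEr2 : Real.exp (L / 10) * (9 * Q ^ 4 * (U * ((PP.card : ℝ) + 1) ^ J)) ≤
      1 / (R3 * L ^ 3) * N := hEr2' _ (pow_nonneg hn0 _) hnJ
  have hEr3 : Real.exp (L / 10) * (81 * Q ^ 8) ≤ 1 / (R3 * L ^ 3) * N := by
    refine n_small hN hRL0 f4 (t := 31 / 100) ?_ (by norm_num) hLpos.le
    rw [hQ8]
    calc Real.exp (L / 10) * (81 * Real.exp (L / 5))
        ≤ Real.exp (L / 10) * (Real.exp (L / 100) * Real.exp (L / 5)) := by gcongr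
      _ = Real.exp (31 / 100 * L) := by
          rw [← Real.exp_add, ← Real.exp_add]; congr 1; ring
  have hEr3' : Real.exp (L / 10) * (81 * Q ^ 8) ≤ N := by
    refine hEr3.trans ?_
    apply mul_le_of_le_one_left hNpos.le
    rw [div_le_one hRL0]
    linarith
  have hS3 := n_S (G := ∑ i, gg PP i) (D := D) hLexp hJ1 (by linarith)
  rw [← hLD] at hS3
  have hsq := sum_sq_le hL1000 hR30 hPy (hG2.trans (n_logL hLexp f1))
  have key := exc_comb 𝒜 Ω (fun ω x => wgt PP h Q j (A ω) x)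
    (fun ω x => unc PP J (A ω) x) N (200 / R3) (2 * Real.exp (106 * (D + 2) * (l ^ 2 * 2 ^ m)))
    (by positivity) hNpos hw0
    (fun ω _ x => P.unc_nonneg (A ω) x) hcard
    (fun ω hω => (n_e1 hL1000 hR3L hUL hT1 hNpos hEr1).trans
      (P.E1 (hAc ω hω) (hSep ω hω) hNpos.le hErr0 hE' (by rw [hQ2]; exact q20)))
    (fun ω hω => (P.E2 (hAc ω hω) (hSep ω hω) hNpos.le hErr0 hE' (by
        calc Q ^ 2 * z ^ J ≤ Real.exp (L / 20) * Real.exp (L / 40) := by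
              rw [hQ2]
              exact mul_le_mul_of_nonneg_left hzJ (Real.exp_pos _).le
          _ = Real.exp (3 * L / 40) := by rw [← Real.exp_add]; congr 1; ring
          _ ≤ Real.exp (L / 4) := Real.exp_le_exp.mpr (by linarith))).trans
      (n_e2 hL1000 hR3L hU0 hUL (add_nonneg (Real.exp_pos _).le (Real.exp_pos _).le) hT1
        (mul_nonneg (pow_nonneg (by norm_num) _) (Real.exp_pos _).le) hS3 hNpos hEr2))
    (fun ω hω ω' hω' hne => by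
      have hρ := rel_sum hy3 hPy (A := A ω) (A' := A ω') (hAA ω hω ω' hω' hne)
      have hρ' : (((A ω).card : ℝ) * (A ω').card * (L / (R3 * L ^ 3))) ≤ 1 / R3 := by
        have e1 : ((A ω).card : ℝ) * (A ω').card ≤ L * L :=
          mul_le_mul ((hAc ω hω).trans hUL) ((hAc ω' hω').trans hUL) (Nat.cast_nonneg _) hLpos.le
        calc (((A ω).card : ℝ) * (A ω').card * (L / (R3 * L ^ 3))) ≤ L * L * (L / (R3 * L ^ 3)) :=
              mul_le_mul_of_nonneg_right e1 (by positivity)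
          _ = 1 / R3 := by field_simp
      exact (P.E3 (hAc ω hω) (hAc ω' hω') (hSep ω hω) (hSep ω' hω') (hρ.trans hρ') hNpos.le hErr0
        hE' (by rw [hQ4]; exact q10)).trans
        (n_e3 hL1000 hR3L hU0 hUL (Finset.sum_nonneg fun i _ => sq_nonneg _) hsq rfl hNpos hEr3))
    (fun ω hω => (P.E4 (hAc ω hω) (hSep ω hω) hNpos.le hErr0 hE' (by
        rw [hQ4]; exact q10)).trans
      (n_e4 hLexp hL1000 f1 hU0 hUL hG2 hj1 hNpos hEr3'))
    (mul_nonneg zero_le_two (Real.exp_pos _).le)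
    (n_R hLexp f1 hLD hL1000 hR30 h2m hC6 hΩ)
    (by
      have h1 : (0:ℝ) < Ω.card := lt_of_lt_of_le (Real.exp_pos _) hΩ
      exact_mod_cast h1)
  have hsub2 : (𝒜.filter (fun x => ∀ ω ∈ Ω, ∃ a ∈ A ω, ∀ p ∈ PP, ¬ (p : ℤ) ∣ x + a)) ⊆
      (𝒜.filter (fun x => ∀ ω ∈ Ω, 1 ≤ unc PP J (A ω) x)) := by
    intro x hx
    rw [Finset.mem_filter] at hx ⊢
    refine ⟨hx.1, fun ω hω => ?_⟩
    by_contra hc
    push Not at hc
    obtain ⟨a, ha, hun⟩ := hx.2 ω hω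
    obtain ⟨p, hp, hpd⟩ := P.unc_small (hSep ω hω) hc a ha
    exact hun p hp hpd
  have h1 : ((𝒜.filter (fun x => ∀ ω ∈ Ω, ∃ a ∈ A ω, ∀ p ∈ PP, ¬ (p : ℤ) ∣ x + a)).card : ℝ) ≤
      ((𝒜.filter (fun x => ∀ ω ∈ Ω, 1 ≤ unc PP J (A ω) x)).card : ℝ) := by
    exact_mod_cast Finset.card_le_card hsub2
  refine (h1.trans key).trans ?_
  have hR4 : R3 = L ^ (D - 4) * L := by
    rw [hR3, ← pow_succ]
    congr 1
    omega
  rw [hR4]
  have hL4 : 0 < L ^ (D - 4) := by positivity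
  rw [div_eq_mul_one_div N, mul_comm N]
  apply mul_le_mul_of_nonneg_right _ hNpos.le
  rw [show 22 * (200 / (L ^ (D - 4) * L)) = 4400 / (L ^ (D - 4) * L) by ring,
    div_le_div_iff₀ (by positivity) hL4]
  nlinarith

end Run7.h294.H
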