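import Pool.Agent.Run7.h294.H2
import Pool.Agent.Run7.h294.G16

set_option autoImplicit false
set_option linter.unusedSectionVars false

/-! # One residue class: almost all elements have a free window -/

namespace Run7.h294.H

open Finset Filter Run7.h294.G Pool.Agent.H256R2.SC

open scoped Classical

lemma count_dvd_exp {PP : Finset ℕ} (hP : ∀ p ∈ PP, p.Prime) {K : ℝ} (hK : 0 < K)
    (hPy : ∀ i, Real.exp K ≤ pp PP i) {L : ℝ} {d : ℤ} (hd : d ≠ 0)
    (hdL : |(d : ℝ)| ≤ Real.exp (K * L)) :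
    (((univ : Finset (Fin PP.card)).filter (fun i => ((emb PP i : ℕ) : ℤ) ∣ d)).card : ℝ) ≤ L := by
  set S := (univ : Finset (Fin PP.card)).filter (fun i => ((emb PP i : ℕ) : ℤ) ∣ d) with hS
  have h1 : (∏ i ∈ S, ((emb PP i : ℕ) : ℤ)) ∣ d := by
    apply Finset.prod_dvd_of_coprime
    · intro i _ j _ hij
      exact Nat.isCoprime_iff_coprime.mpr (emb_coprime hP hij)
    · intro i hi
      rw [hS, Finset.mem_filter] at hi
      exact hi.2
  have h2 : (∏ i ∈ S, ((emb PP i : ℕ) : ℤ)) ≤ |d| := Int.le_of_dvd (abs_pos.2 hd) ((dvd_abs _ _).2 h1)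
  have h3 : (∏ i ∈ S, pp PP i) ≤ Real.exp (K * L) := by
    refine le_trans ?_ hdL
    have : ((∏ i ∈ S, ((emb PP i : ℕ) : ℤ) : ℤ) : ℝ) ≤ ((|d| : ℤ) : ℝ) := by exact_mod_cast h2
    rw [Int.cast_abs] at this
    refine le_trans (le_of_eq ?_) this
    push_cast
    rfl
  have h4 : Real.exp (K * (S.card : ℝ)) ≤ ∏ i ∈ S, pp PP i := by
    have : Real.exp (K * (S.card : ℝ)) = ∏ i ∈ S, Real.exp K := by
      rw [Finset.prod_const, ← Real.exp_nat_mul, mul_comm]
    rw [this]
    apply Finset.prod_le_prod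
    · intro i _; exact (Real.exp_pos _).le
    · intro i _
      exact hPy i
  have h5 := Real.exp_le_exp.mp (h4.trans h3)
  exact le_of_mul_le_mul_left h5 hK

/-- a large set of integers contains a large separated set -/
lemma sep_subset (lam : ℕ) (hlam : 1 ≤ lam) : ∀ (R : ℕ) (S : Finset ℕ), R * lam ≤ S.card →
    ∃ Ω : Finset ℕ, Ω ⊆ S ∧ Ω.card = R ∧
      ∀ ω ∈ Ω, ∀ ω' ∈ Ω, ω ≠ ω' → ω + lam ≤ ω' ∨ ω' + lam ≤ ω := by
  intro R
  induction R with
  | zero =>
    intro S _
    exact ⟨∅, Finset.empty_subset _, rfl, fun ω hω => by simp at hω⟩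
  | succ R ih =>
    intro S hS
    have hne : S.Nonempty := by
      rw [← Finset.card_pos]
      have : 1 * 1 ≤ (R + 1) * lam := Nat.mul_le_mul (by omega) hlam
      omega
    set M := S.max' hne with hM
    have hMS : M ∈ S := Finset.max'_mem S hne
    have hmax : ∀ s ∈ S, s ≤ M := fun s hs => Finset.le_max' S s hs
    have h1 : S.card = (S.filter (fun s => s + lam ≤ M)).card +
        (S.filter (fun s => ¬ s + lam ≤ M)).card :=
      (Finset.card_filter_add_card_filter_not _).symm
    have h2 : (S.filter (fun s => ¬ s + lam ≤ M)) ⊆ Finset.Ioc (M - lam) M ∪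
        (if M < lam then {0} else ∅) := by
      intro s hs
      rw [Finset.mem_filter] at hs
      have := hmax s hs.1
      rw [Finset.mem_union, Finset.mem_Ioc]
      by_cases h0 : M < lam
      · rw [if_pos h0, Finset.mem_singleton]
        omega
      · left
        omega
    have h3 : (S.filter (fun s => ¬ s + lam ≤ M)).card ≤ lam := by
      have a1 := (Finset.card_le_card h2).trans (Finset.card_union_le _ _)
      rw [Nat.card_Ioc] at a1
      by_cases h0 : M < lam
      · rw [if_pos h0, Finset.card_singleton] at a1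
        omega
      · rw [if_neg h0, Finset.card_empty] at a1
        omega
    have h4 : R * lam ≤ (S.filter (fun s => s + lam ≤ M)).card := by
      have : (R + 1) * lam = R * lam + lam := by ring
      omega
    obtain ⟨Ω, hΩ1, hΩ2, hΩ3⟩ := ih _ h4
    have hΩm : ∀ ω ∈ Ω, ω ∈ S ∧ ω + lam ≤ M := by
      intro ω hω
      have := hΩ1 hω
      rwa [Finset.mem_filter] at this
    have hMn : M ∉ Ω := by
      intro h
      have := (hΩm M h).2
      omega
    refine ⟨insert M Ω, ?_, ?_, ?_⟩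
    · intro ω hω
      rw [Finset.mem_insert] at hω
      rcases hω with h | h
      · rw [h]; exact hMS
      · exact (hΩm ω h).1
    · rw [Finset.card_insert_of_notMem hMn, hΩ2]
    · intro ω hω ω' hω' hne'
      rw [Finset.mem_insert] at hω hω'
      rcases hω with h | h
      · rcases hω' with h' | h'
        · exact absurd (h.trans h'.symm) hne'
        · right
          rw [h]
          exact (hΩm ω' h').2
      · rcases hω' with h' | h'
        · left
          rw [h']
          exact (hΩm ω h).2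
        · exact hΩ3 ω h ω' h' hne'

theorem class_exc (D K : ℕ) (hD : 10 ≤ D) (hK : 1 ≤ K) : ∃ c₅ C₆ : ℝ, 0 < c₅ ∧ 1 ≤ C₆ ∧
    ∃ L₀ : ℝ, ∀ X : ℕ, L₀ ≤ Real.log X → ∀ m : ℕ,
    2 ^ m * (C₆ * (Real.log (Real.log X)) ^ 2) ≤ Real.log X →
    ∀ (W lam : ℕ) (b : ℤ) (Ω : Finset ℕ), 1 ≤ W → (W : ℝ) ≤ Real.exp (Real.log X / 4) →
    (∀ p : ℕ, p.Prime → p ∣ W → (p : ℝ) ≤ (Real.log X) ^ D) →
    (lam : ℝ) ≤ (Real.log X) ^ D →
    (∀ ω ∈ Ω, (ω : ℝ) + lam ≤ Real.exp (K * Real.log X)) →
    (∀ ω ∈ Ω, ∀ ω' ∈ Ω, ω ≠ ω' → ω + lam ≤ ω' ∨ ω' + lam ≤ ω) →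
    (∀ ω ∈ Ω, ((surv W lam b ω).card : ℝ) ≤
      c₅ * (m + 1) * Real.log X / Real.log (Real.log X)) →
    Real.exp (C₆ * ((Real.log (Real.log X)) ^ 2 * 2 ^ m)) ≤ (Ω.card : ℝ) →
    (((cls X W b).filter (fun x : ℤ => Real.exp (Real.log X / 2) < (x : ℝ) ∧
      ∀ ω ∈ Ω, ¬ free lam x ω)).card : ℝ) ≤ X / W / (Real.log X) ^ (D - 4) := by
  obtain ⟨c₅, C₆, hc5, hC6, L₀, hL₀⟩ := engine D hD
  refine ⟨c₅, C₆, hc5, hC6, max L₀ (max 10 (Real.exp K)), ?_⟩
  intro X hX m hm W lam b Ω hW hWL hWp hlam hΩK hΩd hsurv hΩc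
  have hL10 : 10 ≤ Real.log X := (le_max_left _ _).trans ((le_max_right _ _).trans hX)
  have hLK : Real.exp K ≤ Real.log X := (le_max_right _ _).trans ((le_max_right _ _).trans hX)
  have hXpos : (0:ℝ) < X := by
    by_contra hc
    have : (X : ℝ) = 0 := le_antisymm (not_lt.mp hc) (Nat.cast_nonneg _)
    rw [this, Real.log_zero] at hL10
    linarith
  have hXe : (X : ℝ) = Real.exp (Real.log X) := (Real.exp_log hXpos).symm
  have hWpos : (0:ℝ) < W := by exact_mod_cast hW
  have hKpos : (0:ℝ) < K := by exact_mod_cast hK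
  have hN : Real.exp (Real.log X / 2) ≤ (X : ℝ) / W := by
    rw [le_div_iff₀ hWpos]
    calc Real.exp (Real.log X / 2) * W ≤ Real.exp (Real.log X / 2) * Real.exp (Real.log X / 4) :=
          mul_le_mul_of_nonneg_left hWL (Real.exp_pos _).le
      _ = Real.exp (3 * Real.log X / 4) := by rw [← Real.exp_add]; congr 1; ring
      _ ≤ Real.exp (Real.log X) := Real.exp_le_exp.mpr (by linarith)
      _ = X := hXe.symm
  obtain ⟨PP, hPP, key⟩ := hL₀ (Real.log X) ((le_max_left _ _).trans hX) m hm ∅ (by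
    rw [Finset.card_empty]
    push_cast
    have : 0 ≤ (Real.log X) ^ D := by positivity
    linarith)
  have key := key Ω (fun ω => surv W lam b ω) (cls X W b) ((X : ℝ) / W) hN hsurv
    (by
      intro ω _ p hp a ha a' ha' hne hdvd
      unfold surv at ha ha'
      rw [Finset.mem_filter, Finset.mem_Ioc] at ha ha'
      have h1 : |a - a'| < (lam : ℤ) := by
        rw [abs_lt]
        constructor <;> omega
      have h2 : (p : ℤ) ≤ |a - a'| :=
        Int.le_of_dvd (abs_pos.2 (sub_ne_zero.2 hne)) ((dvd_abs _ _).2 hdvd)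
      have h3 : (p : ℤ) < lam := lt_of_le_of_lt h2 h1
      have h4 : (p : ℝ) < lam := by exact_mod_cast h3
      linarith [(hPP p hp).2.1])
    (by
      intro ω hω ω' hω' hne a ha a' ha'
      unfold surv at ha ha'
      rw [Finset.mem_filter, Finset.mem_Ioc] at ha ha'
      have hd := hΩd ω hω ω' hω' hne
      refine count_dvd_exp (fun p hp => (hPP p hp).1) hKpos (fun i => ?_)
        (sub_ne_zero.2 (by omega)) ?_
      · have h1 := (hPP (emb PP i) (emb_mem PP i)).2.1
        have h2 : Real.log X ≤ (Real.log X) ^ D := le_self_pow₀ (by linarith) (by omega)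
        have h3 : pp PP i = ((emb PP i : ℕ) : ℝ) := rfl
        rw [h3]
        linarith
      · have h1 := hΩK ω hω
        have h2 := hΩK ω' hω'
        have h3 : |((a - a' : ℤ) : ℝ)| ≤ max ((ω : ℝ) + lam) ((ω' : ℝ) + lam) := by
          rw [abs_le]
          have e1 : (a : ℝ) ≤ (ω : ℝ) + lam := by exact_mod_cast ha.1.2
          have e2 : (a' : ℝ) ≤ (ω' : ℝ) + lam := by exact_mod_cast ha'.1.2
          have e3 : (0:ℝ) ≤ a := by
            have : (0:ℤ) ≤ a := by omega
            exact_mod_cast this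
          have e4 : (0:ℝ) ≤ a' := by
            have : (0:ℤ) ≤ a' := by omega
            exact_mod_cast this
          push_cast
          constructor
          · have := le_max_right ((ω : ℝ) + lam) ((ω' : ℝ) + lam)
            linarith
          · have := le_max_left ((ω : ℝ) + lam) ((ω' : ℝ) + lam)
            linarith
        exact h3.trans (max_le h1 h2))
    (by
      intro q hq hqL hqp r
      have hq1 : 1 ≤ q := Nat.one_le_iff_ne_zero.2 hq.ne_zero
      have hcop : W.Coprime q := by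
        rw [Nat.coprime_comm]
        apply Nat.Coprime.symm
        apply Nat.coprime_of_dvd
        intro p hp hpW hpq
        have h1 := hWp p hp hpW
        have h2 := (hPP p (hqp p (Nat.mem_primeFactors.2 ⟨hp, hpq, hq.ne_zero⟩))).2.1
        linarith
      refine (class_equi X W hW b q hq1 hcop r).trans ?_
      exact Real.one_le_exp (by linarith))
    hΩc
  refine le_trans ?_ key
  have hsub : ((cls X W b).filter (fun x : ℤ => Real.exp (Real.log X / 2) < (x : ℝ) ∧
      ∀ ω ∈ Ω, ¬ free lam x ω)) ⊆ ((cls X W b).filter (fun x => ∀ ω ∈ Ω,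
        ∃ a ∈ surv W lam b ω, ∀ p ∈ PP, ¬ (p : ℤ) ∣ x + a)) := by
    intro x hx
    rw [Finset.mem_filter] at hx ⊢
    obtain ⟨hx1, hx2, hx3⟩ := hx
    refine ⟨hx1, fun ω hω => ?_⟩
    by_contra hc
    push Not at hc
    refine hx3 ω hω ?_
    unfold cls at hx1
    rw [Finset.mem_filter] at hx1
    have hWx : (W : ℝ) ≤ x := by
      have h1 : Real.exp (Real.log X / 4) ≤ Real.exp (Real.log X / 2) :=
        Real.exp_le_exp.mpr (by linarith)
      linarith
    have hPx : Real.exp (Real.log X / 10) ≤ x := by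
      have h1 : Real.exp (Real.log X / 10) ≤ Real.exp (Real.log X / 2) :=
        Real.exp_le_exp.mpr (by linarith)
      linarith
    refine free_of hW hx1.2 (by exact_mod_cast hWx) hPx ?_
    intro a ha
    obtain ⟨p, hp, hpd⟩ := hc a ha
    exact ⟨p, (hPP p hp).1, (hPP p hp).2.2.1, hpd⟩
  exact_mod_cast Finset.card_le_card hsub

end Run7.h294.H
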