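import Pool.Agent.Run7.h294.H3

set_option autoImplicit false
set_option linter.unusedSectionVars false

/-! # Almost all integers have a free window in every large family of windows -/

namespace Run7.h294.H

open Finset Filter Run7.h294.G

open scoped Classical

lemma h4_ev (C₃ C₆ : ℝ) (A : ℕ) : ∀ᶠ l : ℝ in atTop, 20 ≤ l ∧
    2 * Real.exp C₃ * C₆ * l ^ 2 * Real.exp (l / 2) ≤ Real.exp l ∧
    2 * C₆ * Real.exp C₃ + 3 ≤ l ∧ l + 1 ≤ Real.exp l / 64 ∧
    Real.exp (Real.exp l / 2) + 2 + (Real.exp l) ^ 2 ≤ Real.exp (Real.exp l) / (2 * Real.exp l ^ A) := by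
  have h1 := ((Real.tendsto_exp_div_pow_atTop 2).comp
    (tendsto_id.atTop_div_const (show (0:ℝ) < 2 by norm_num))).eventually_ge_atTop
      (8 * |Real.exp C₃ * C₆|)
  have h2 := (Real.tendsto_exp_div_pow_atTop 1).eventually_ge_atTop 128
  have h3 := ((Real.tendsto_exp_div_pow_atTop (A + 3)).comp
    (tendsto_id.atTop_div_const (show (0:ℝ) < 2 by norm_num))).comp Real.tendsto_exp_atTop
  have h4 := h3.eventually_ge_atTop (8 * 2 ^ (A + 3))
  filter_upwards [h1, h2, h4, eventually_ge_atTop 20, eventually_ge_atTop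
    (2 * C₆ * Real.exp C₃ + 3)] with l a1 a2 a4 a5 a6
  refine ⟨a5, ?_, a6, ?_, ?_⟩
  · simp only [Function.comp, id] at a1
    have hl : 0 < (l / 2) ^ 2 := by positivity
    rw [le_div_iff₀ hl] at a1
    have e1 : 2 * Real.exp C₃ * C₆ * l ^ 2 ≤ Real.exp (l / 2) := by
      have : 8 * (Real.exp C₃ * C₆) * (l / 2) ^ 2 ≤ 8 * |Real.exp C₃ * C₆| * (l / 2) ^ 2 := by
        gcongr
        exact le_abs_self _
      have e : 8 * (Real.exp C₃ * C₆) * (l / 2) ^ 2 = 2 * Real.exp C₃ * C₆ * l ^ 2 := by ring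
      linarith
    have e2 : Real.exp l = Real.exp (l / 2) * Real.exp (l / 2) := by
      rw [← Real.exp_add, add_halves]
    rw [e2]
    exact mul_le_mul_of_nonneg_right e1 (Real.exp_pos _).le
  · rw [pow_one, le_div_iff₀ (by linarith)] at a2
    linarith
  · simp only [Function.comp, id] at a4
    obtain ⟨L, hL⟩ : ∃ L, L = Real.exp l := ⟨_, rfl⟩
    rw [← hL] at a4 ⊢
    have hL1 : 1 ≤ L := by rw [hL]; exact Real.one_le_exp (by linarith)
    have hL0 : 0 < L := by linarith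
    rw [le_div_iff₀ (by positivity)] at a4
    have e0 : (8:ℝ) * 2 ^ (A + 3) * (L / 2) ^ (A + 3) = 8 * L ^ (A + 3) := by
      rw [mul_assoc, ← mul_pow]
      congr 2
      ring
    rw [e0] at a4
    have e2 : Real.exp L = Real.exp (L / 2) * Real.exp (L / 2) := by
      rw [← Real.exp_add, add_halves]
    have e3 : L ^ (A + 3) = L ^ A * L ^ 3 := pow_add _ _ _
    have hLA : 1 ≤ L ^ A := one_le_pow₀ hL1
    have hL3 : 1 ≤ L ^ 3 := one_le_pow₀ hL1
    have h5 : L ^ A ≤ L ^ (A + 3) := by rw [e3]; exact le_mul_of_one_le_right (by linarith) hL3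
    have h6 : L ^ 2 ≤ Real.exp (L / 2) := by
      have : L ^ 2 ≤ L ^ (A + 3) := pow_le_pow_right₀ hL1 (by omega)
      have : 0 ≤ L ^ (A + 3) := by positivity
      linarith
    have h7 : 2 ≤ Real.exp (L / 2) := by
      have : 1 ≤ L ^ (A + 3) := one_le_pow₀ hL1
      linarith
    rw [le_div_iff₀ (by positivity), e2]
    calc (Real.exp (L / 2) + 2 + L ^ 2) * (2 * L ^ A)
        ≤ (Real.exp (L / 2) + Real.exp (L / 2) + Real.exp (L / 2)) * (2 * L ^ A) := by gcongr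
      _ = Real.exp (L / 2) * (6 * L ^ A) := by ring
      _ ≤ Real.exp (L / 2) * Real.exp (L / 2) := by
          apply mul_le_mul_of_nonneg_left _ (Real.exp_pos _).le
          have : 0 ≤ L ^ (A + 3) := by positivity
          linarith

theorem exc_all (A K : ℕ) : ∃ c C : ℝ, 0 < c ∧ 0 < C ∧ ∃ X₀ : ℕ, ∀ X : ℕ, X₀ ≤ X →
    ∀ μ : ℝ, 0 ≤ μ → μ ≤ c * Real.log (Real.log X) → ∀ S : Finset ℕ,
    (∀ s ∈ S, (s : ℝ) ≤ (X : ℝ) ^ K) →
    Real.exp ((Real.exp μ * Real.log (Real.log X)) ^ C) ≤ (S.card : ℝ) →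
    (((Finset.Ioc (0 : ℤ) X).filter (fun x : ℤ => Real.exp (Real.log X / 2) < (x : ℝ) ∧
      ∀ s ∈ S, ¬ free ⌈(2 * μ + 1) * Real.log X⌉₊ x s)).card : ℝ) ≤
      X / (Real.log X) ^ (A + 6) ∧
    Real.exp (Real.log X / 2) + 2 + (Real.log X) ^ 2 ≤ X / (2 * (Real.log X) ^ A) ∧
    2 ≤ Real.log X ∧ μ + 1 ≤ Real.log X := by
  obtain ⟨c₅, C₆, hc5, hC6, L₀, hstep⟩ := class_exc (A + 10) (K + 2) (by omega) (by omega)
  obtain ⟨CJ, hCJ, hsurv⟩ := surv_bound
  obtain ⟨C₃, hC3⟩ : ∃ C₃ : ℝ, C₃ = 40 * CJ / c₅ + 1 := ⟨_, rfl⟩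
  have hC31 : 1 ≤ C₃ := by
    have : 0 ≤ 40 * CJ / c₅ := by positivity
    linarith
  obtain ⟨l₀, hl₀⟩ := (h4_ev C₃ C₆ A).exists_forall_of_atTop
  have hev : ∀ᶠ X : ℕ in atTop, L₀ ≤ Real.log X ∧ l₀ ≤ Real.log (Real.log X) := by
    have t1 : Tendsto (fun X : ℕ => Real.log X) atTop atTop :=
      Real.tendsto_log_atTop.comp tendsto_natCast_atTop_atTop
    exact (t1.eventually_ge_atTop L₀).and ((Real.tendsto_log_atTop.comp t1).eventually_ge_atTop l₀)
  obtain ⟨X₂, hX₂⟩ := hev.exists_forall_of_atTop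
  refine ⟨1 / (4 * C₃), 2 * C₃ + 3, by positivity, by positivity, max X₂ 1, ?_⟩
  intro X hX μ hμ0 hμ S hSK hSc
  obtain ⟨hLL, hll⟩ := hX₂ X ((le_max_left _ _).trans hX)
  have hX1 : 1 ≤ X := (le_max_right _ _).trans hX
  have hXpos : (0:ℝ) < X := by exact_mod_cast hX1
  obtain ⟨f1, f2, f3, f4, f5⟩ := hl₀ _ hll
  have hXe : (X : ℝ) = Real.exp (Real.log X) := (Real.exp_log hXpos).symm
  have hst := hstep X hLL
  have hXK : (X : ℝ) ^ K = Real.exp (K * Real.log X) := by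
    rw [← Real.log_pow, Real.exp_log (by positivity)]
  rw [hXK] at hSK
  clear hX₂ hl₀ hev hstep hXK
  generalize hL : Real.log X = L at *
  generalize hl : Real.log L = l at *
  have hl0 : 0 < l := by linarith
  have hLpos : 0 < L := by
    by_contra hc
    push Not at hc
    have h1 : (X : ℝ) ≤ 1 := by
      rw [hXe]
      exact Real.exp_le_one_iff.2 hc
    have h2 : (1 : ℝ) ≤ X := by exact_mod_cast hX1
    have h3 : (X : ℝ) = 1 := le_antisymm h1 h2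
    have h4 : L = 0 := by rw [← hL, h3, Real.log_one]
    rw [h4, Real.log_zero] at hl
    linarith
  have hLexp : L = Real.exp l := by rw [← hl]; exact (Real.exp_log hLpos).symm
  rw [← hLexp] at f2 f4 f5
  rw [← hXe] at f5
  have hL1 : 1 ≤ L := by linarith
  have hμl : 2 * (C₃ * μ) ≤ l / 2 := by
    have : C₃ * μ ≤ C₃ * (1 / (4 * C₃) * l) := mul_le_mul_of_nonneg_left hμ (by linarith)
    have e : C₃ * (1 / (4 * C₃) * l) = l / 4 := by field_simp
    linarith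
  have hμl2 : 2 * μ ≤ l / 2 := by
    have : 1 * μ ≤ C₃ * μ := mul_le_mul_of_nonneg_right hC31 hμ0
    linarith
  refine ⟨?_, f5, by linarith, by linarith⟩
  -- `m`
  obtain ⟨m, hm⟩ : ∃ m : ℕ, m = ⌈C₃ * (2 * μ + 1)⌉₊ := ⟨_, rfl⟩
  obtain ⟨hm1, h2m⟩ := m_facts (C₃ := C₃) (μ := 2 * μ + 1) (by positivity) m hm
  have h2m1 : (1:ℝ) ≤ 2 ^ m := one_le_pow₀ (by norm_num)
  have h2m' : (2:ℝ) ^ m ≤ 2 * (Real.exp C₃ * Real.exp (2 * C₃ * μ)) := by
    refine h2m.trans (le_of_eq ?_)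
    rw [← Real.exp_add]
    congr 2
    ring
  have hcond : 2 ^ m * (C₆ * l ^ 2) ≤ L := by
    calc 2 ^ m * (C₆ * l ^ 2) ≤ (2 * (Real.exp C₃ * Real.exp (2 * C₃ * μ))) * (C₆ * l ^ 2) := by
          gcongr
      _ ≤ (2 * (Real.exp C₃ * Real.exp (l / 2))) * (C₆ * l ^ 2) := by
          gcongr
          linarith
      _ = 2 * Real.exp C₃ * C₆ * l ^ 2 * Real.exp (l / 2) := by ring
      _ ≤ L := f2
  -- `lam`
  obtain ⟨lam, hlam⟩ : ∃ lam : ℕ, lam = ⌈(2 * μ + 1) * L⌉₊ := ⟨_, rfl⟩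
  obtain ⟨g1, g2, g3, g4⟩ := lam_facts (L := L) (μ := 2 * μ + 1) hL1 (by linarith) (by linarith)
    lam hlam
  rw [← hlam]
  -- `y`
  obtain ⟨y, hy⟩ : ∃ y : ℕ, y = ⌊Real.exp (l / 10)⌋₊ := ⟨_, rfl⟩
  obtain ⟨y1, y2, y3, y4⟩ := y_facts hLexp f1 y hy
  have hlamLA : (lam : ℝ) ≤ L ^ (A + 10) := g3.trans (pow_le_pow_right₀ hL1 (by omega))
  -- the number of windows
  have hbig : (Real.exp (C₆ * (l ^ 2 * 2 ^ m)) + 1) * L ^ 2 ≤
      Real.exp ((Real.exp μ * l) ^ (2 * C₃ + 3)) := by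
    have e1 : (Real.exp (C₆ * (l ^ 2 * 2 ^ m)) + 1) * L ^ 2 ≤
        Real.exp (1 + 2 * l + C₆ * (l ^ 2 * 2 ^ m)) := by
      have a1 : (1:ℝ) ≤ Real.exp (C₆ * (l ^ 2 * 2 ^ m)) := Real.one_le_exp (by positivity)
      have a2 : (2:ℝ) ≤ Real.exp 1 := by
        have := Real.exp_one_gt_d9
        linarith
      have a3 : L ^ 2 = Real.exp (2 * l) := by
        rw [hLexp, ← Real.exp_nat_mul]; push_cast; rfl
      rw [a3]
      calc (Real.exp (C₆ * (l ^ 2 * 2 ^ m)) + 1) * Real.exp (2 * l)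
          ≤ (2 * Real.exp (C₆ * (l ^ 2 * 2 ^ m))) * Real.exp (2 * l) := by
            gcongr; linarith
        _ ≤ (Real.exp 1 * Real.exp (C₆ * (l ^ 2 * 2 ^ m))) * Real.exp (2 * l) := by gcongr
        _ = _ := by rw [← Real.exp_add, ← Real.exp_add]; congr 1; ring
    refine e1.trans (Real.exp_le_exp.mpr ?_)
    have g0 : (Real.exp μ * l) ^ (2 * C₃ + 3) =
        Real.exp ((2 * C₃ + 3) * μ) * l ^ (2 * C₃ + 3) := by
      rw [Real.mul_rpow (Real.exp_pos _).le (by linarith), ← Real.exp_mul]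
      congr 2
      ring
    have g1 : l ^ (3 : ℝ) ≤ l ^ (2 * C₃ + 3) :=
      Real.rpow_le_rpow_of_exponent_le (by linarith) (by linarith)
    have g2 : l ^ (3 : ℝ) = l ^ 2 * l := by
      rw [show (3 : ℝ) = ((3 : ℕ) : ℝ) by norm_num, Real.rpow_natCast]
      ring
    have g3 : Real.exp (2 * C₃ * μ) ≤ Real.exp ((2 * C₃ + 3) * μ) := by
      apply Real.exp_le_exp.mpr
      gcongr
      linarith
    have g4 : (1:ℝ) ≤ Real.exp (2 * C₃ * μ) := Real.one_le_exp (by positivity)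
    have g5 : C₆ * (l ^ 2 * 2 ^ m) ≤ 2 * C₆ * Real.exp C₃ * (l ^ 2 * Real.exp (2 * C₃ * μ)) := by
      calc C₆ * (l ^ 2 * 2 ^ m) ≤ C₆ * (l ^ 2 * (2 * (Real.exp C₃ * Real.exp (2 * C₃ * μ)))) := by
            gcongr
        _ = _ := by ring
    have g6 : 1 + 2 * l ≤ 3 * (l ^ 2 * Real.exp (2 * C₃ * μ)) := by
      have h1 : l ^ 2 * 1 ≤ l ^ 2 * Real.exp (2 * C₃ * μ) := by gcongr
      nlinarith
    rw [g0]
    calc 1 + 2 * l + C₆ * (l ^ 2 * 2 ^ m)
        ≤ (2 * C₆ * Real.exp C₃ + 3) * (l ^ 2 * Real.exp (2 * C₃ * μ)) := by linarith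
      _ ≤ l * (l ^ 2 * Real.exp (2 * C₃ * μ)) := by gcongr
      _ = Real.exp (2 * C₃ * μ) * l ^ (3:ℝ) := by rw [g2]; ring
      _ ≤ Real.exp ((2 * C₃ + 3) * μ) * l ^ (2 * C₃ + 3) := by
          apply mul_le_mul g3 g1 (by positivity) (Real.exp_pos _).le
  obtain ⟨R, hR⟩ : ∃ R : ℕ, R = ⌈Real.exp (C₆ * (l ^ 2 * 2 ^ m))⌉₊ := ⟨_, rfl⟩
  have hR1 : Real.exp (C₆ * (l ^ 2 * 2 ^ m)) ≤ R := by rw [hR]; exact Nat.le_ceil _
  have hR2 : (R : ℝ) ≤ Real.exp (C₆ * (l ^ 2 * 2 ^ m)) + 1 := by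
    rw [hR]; exact (Nat.ceil_lt_add_one (Real.exp_pos _).le).le
  have hRS : R * lam ≤ S.card := by
    have : (R : ℝ) * lam ≤ S.card := by
      calc (R : ℝ) * lam ≤ (Real.exp (C₆ * (l ^ 2 * 2 ^ m)) + 1) * L ^ 2 := by gcongr
        _ ≤ _ := hbig.trans hSc
    exact_mod_cast this
  obtain ⟨Ω, hΩS, hΩR, hΩd⟩ := sep_subset lam g4 R S hRS
  have hW1 : 1 ≤ primorial y := primorial_pos y
  have hylam : y ≤ lam := by
    have h1 : (y : ℝ) ≤ lam := by linarith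
    exact_mod_cast h1
  have hclass : ∀ b ∈ Finset.range (primorial y),
      (((cls X (primorial y) (b : ℤ)).filter (fun x : ℤ => Real.exp (L / 2) < (x : ℝ) ∧
        ∀ ω ∈ Ω, ¬ free lam x ω)).card : ℝ) ≤ X / primorial y / L ^ (A + 6) := by
    intro b _
    have := hst m hcond (primorial y) lam b Ω hW1 y4 (by
        intro p hp hpW
        have h1 : (p : ℝ) ≤ y := by exact_mod_cast prime_dvd_primorial hp hpW
        have h2 : L ≤ L ^ (A + 10) := le_self_pow₀ hL1 (by omega)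
        linarith) hlamLA (by
        intro ω hω
        have h1 := hSK ω (hΩS hω)
        have h2 : L ^ 2 ≤ Real.exp L := by
          have h3 := Real.pow_div_factorial_le_exp L hLpos.le 3
          norm_num [Nat.factorial] at h3
          nlinarith [sq_nonneg L]
        have h3 : Real.exp L ≤ Real.exp ((K + 1) * L) := by
          apply Real.exp_le_exp.mpr
          have : (0:ℝ) ≤ K := Nat.cast_nonneg _
          nlinarith
        have h4 : Real.exp (K * L) ≤ Real.exp ((K + 1) * L) := by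
          apply Real.exp_le_exp.mpr
          nlinarith
        have h5 : 2 * Real.exp ((K + 1) * L) ≤ Real.exp (((K + 2 : ℕ) : ℝ) * L) := by
          have : Real.exp (((K + 2 : ℕ) : ℝ) * L) = Real.exp L * Real.exp ((K + 1) * L) := by
            rw [← Real.exp_add]; congr 1; push_cast; ring
          rw [this]
          have : 2 ≤ Real.exp L := by
            have := Real.add_one_le_exp L
            linarith
          gcongr
        linarith) hΩd (by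
        intro ω _
        refine (hsurv y y1 lam b ω hylam).trans ?_
        exact sv_num hCJ hc5 hC3 hl0 y3 hLpos (by linarith) g2 hm1) (by
        rw [hΩR]; exact hR1)
    exact this
  have hsum := Finset.sum_le_sum hclass
  rw [Finset.sum_const, Finset.card_range, nsmul_eq_mul] at hsum
  have hsplit := split_classes X (primorial y) hW1 (fun x : ℤ => Real.exp (L / 2) < (x : ℝ) ∧
        ∀ ω ∈ Ω, ¬ free lam x ω)
  have hsplit' : (∑ b ∈ Finset.range (primorial y),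
      (((cls X (primorial y) (b : ℤ)).filter (fun x : ℤ => Real.exp (L / 2) < (x : ℝ) ∧
        ∀ ω ∈ Ω, ¬ free lam x ω)).card : ℝ)) =
      (((Finset.Ioc (0 : ℤ) X).filter (fun x : ℤ => Real.exp (L / 2) < (x : ℝ) ∧
        ∀ ω ∈ Ω, ¬ free lam x ω)).card : ℝ) := by
    rw [← hsplit]
    push_cast
    rfl
  rw [hsplit'] at hsum
  have hWpos : (0:ℝ) < primorial y := by exact_mod_cast hW1
  have e : ((primorial y : ℕ) : ℝ) * (X / primorial y / L ^ (A + 6)) = X / L ^ (A + 6) := by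
    field_simp
  rw [e] at hsum
  refine le_trans ?_ hsum
  have hsub : ((Finset.Ioc (0 : ℤ) X).filter (fun x : ℤ => Real.exp (L / 2) < (x : ℝ) ∧
      ∀ s ∈ S, ¬ free lam x s)) ⊆ ((Finset.Ioc (0 : ℤ) X).filter (fun x : ℤ =>
      Real.exp (L / 2) < (x : ℝ) ∧ ∀ ω ∈ Ω, ¬ free lam x ω)) := by
    intro x hx
    rw [Finset.mem_filter] at hx ⊢
    exact ⟨hx.1, hx.2.1, fun ω hω => hx.2.2 ω (hΩS hω)⟩
  exact_mod_cast Finset.card_le_card hsub

/-- for almost all `n` every large family of shifts contains a large prime-free window -/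
theorem almost_all (A K : ℕ) : ∃ c C : ℝ, 0 < c ∧ 0 < C ∧ ∃ X₀ : ℕ, ∀ X : ℕ, X₀ ≤ X →
    ∀ μ : ℝ, 0 ≤ μ → μ ≤ c * Real.log (Real.log X) → ∀ S : Finset ℕ,
    (∀ s ∈ S, (s : ℝ) ≤ (X : ℝ) ^ K) →
    Real.exp ((Real.exp μ * Real.log (Real.log X)) ^ C) ≤ (S.card : ℝ) →
    ({n : ℕ | n ≤ X ∧ ∀ s ∈ S, ∃ p : ℕ, p.Prime ∧
      |(p : ℝ) - ((n : ℝ) + s)| ≤ μ * Real.log X}.ncard : ℝ) ≤ X / (Real.log X) ^ A := by
  obtain ⟨c, C, hc, hC, X₀, h⟩ := exc_all A K
  refine ⟨c, C, hc, hC, X₀, ?_⟩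
  intro X hX μ hμ0 hμ S hSK hSc
  obtain ⟨h1, h2, h3, h4⟩ := h X hX μ hμ0 hμ S hSK hSc
  have hX0 : (0:ℝ) ≤ X := Nat.cast_nonneg _
  generalize hL : Real.log X = L at *
  have hL0 : 0 < L := by linarith
  set T : Finset ℤ := ((Finset.Ioc (0 : ℤ) X).filter (fun x : ℤ => Real.exp (L / 2) < (x : ℝ) ∧
      ∀ s ∈ S, ¬ free ⌈(2 * μ + 1) * L⌉₊ x s)) with hT
  obtain ⟨k, hk⟩ : ∃ k : ℕ, k = ⌊μ * L⌋₊ + 1 := ⟨_, rfl⟩
  have hk1 : μ * L < k := by rw [hk]; push_cast; exact Nat.lt_floor_add_one _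
  have hk2 : (k : ℝ) ≤ μ * L + 1 := by
    rw [hk]; push_cast
    have := Nat.floor_le (show 0 ≤ μ * L by positivity)
    linarith
  have hsub : {n : ℕ | n ≤ X ∧ ∀ s ∈ S, ∃ p : ℕ, p.Prime ∧
      |(p : ℝ) - ((n : ℝ) + s)| ≤ μ * L} ⊆
      ((T.image (fun x : ℤ => (x + k).toNat) ∪
        Finset.range (⌊Real.exp (L / 2)⌋₊ + k + 1) : Finset ℕ) : Set ℕ) := by
    rintro n ⟨hn, hs⟩
    rw [Finset.mem_coe, Finset.mem_union]
    by_cases hn2 : n ≤ ⌊Real.exp (L / 2)⌋₊ + k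
    · right
      rw [Finset.mem_range]
      omega
    · left
      push Not at hn2
      rw [Finset.mem_image]
      refine ⟨(n : ℤ) - k, ?_, by simp⟩
      rw [hT, Finset.mem_filter, Finset.mem_Ioc]
      have hn3 : ⌊Real.exp (L / 2)⌋₊ < n - k := by omega
      have hn4 := (Nat.floor_lt (Real.exp_pos _).le).1 hn3
      have hkn : k ≤ n := by omega
      rw [Nat.cast_sub hkn] at hn4
      refine ⟨⟨by omega, by omega⟩, by push_cast; exact hn4, ?_⟩
      intro s hsS hfree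
      obtain ⟨p, hp, hpa⟩ := hs s hsS
      rw [abs_le] at hpa
      refine hfree p ?_ ?_ hp
      · have : ((n : ℝ) - k) + s < p := by linarith [hpa.1]
        have h5 : (((n : ℤ) - k + s : ℤ) : ℝ) < ((p : ℤ) : ℝ) := by push_cast; exact this
        exact_mod_cast h5
      · have h6 : (2 * μ + 1) * L ≤ (⌈(2 * μ + 1) * L⌉₊ : ℝ) := Nat.le_ceil _
        have : (p : ℝ) ≤ ((n : ℝ) - k) + s + (⌈(2 * μ + 1) * L⌉₊ : ℝ) := by
          have e : (2 * μ + 1) * L = 2 * (μ * L) + L := by ring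
          linarith [hpa.2]
        have h5 : ((p : ℤ) : ℝ) ≤ (((n : ℤ) - k + s + (⌈(2 * μ + 1) * L⌉₊ : ℕ) : ℤ) : ℝ) := by
          push_cast; exact this
        exact_mod_cast h5
  have hcard : ({n : ℕ | n ≤ X ∧ ∀ s ∈ S, ∃ p : ℕ, p.Prime ∧
      |(p : ℝ) - ((n : ℝ) + s)| ≤ μ * L}.ncard : ℝ) ≤ (T.card : ℝ) +
      ((⌊Real.exp (L / 2)⌋₊ + k + 1 : ℕ) : ℝ) := by
    have a1 := Set.ncard_le_ncard hsub (Finset.finite_toSet _)
    rw [Set.ncard_coe_finset] at a1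
    have a2 := a1.trans ((Finset.card_union_le _ _).trans
      (Nat.add_le_add_right Finset.card_image_le _))
    rw [Finset.card_range] at a2
    exact_mod_cast a2
  refine hcard.trans ?_
  have hfl : (⌊Real.exp (L / 2)⌋₊ : ℝ) ≤ Real.exp (L / 2) := Nat.floor_le (Real.exp_pos _).le
  have hμL : μ * L ≤ L ^ 2 := by
    rw [sq]
    exact mul_le_mul_of_nonneg_right (by linarith) hL0.le
  have h6 : X / L ^ (A + 6) ≤ X / (2 * L ^ A) := by
    apply div_le_div_of_nonneg_left hX0 (by positivity)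
    have : L ^ (A + 6) = L ^ 6 * L ^ A := by rw [add_comm, pow_add]
    rw [this]
    have h7 : 2 ≤ L ^ 6 := h3.trans (le_self_pow₀ (by linarith) (by norm_num))
    gcongr
  have h8 : (X:ℝ) / (2 * L ^ A) + X / (2 * L ^ A) = X / L ^ A := by field_simp; ring
  push_cast
  linarith

end Run7.h294.H
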