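import Pool.Agent.Run7.h294.G16

set_option autoImplicit false
set_option linter.unusedSectionVars false

/-! # One residue class: dense blocks, windows, choice of the class -/

namespace Run7.h294.R

open Finset Filter Run7.h294.G Pool.Agent.H256R2.SC

open scoped Classical

/-- In every class modulo `W` a positive proportion of the blocks of length `H ≥ W + 9 log X`
contains a prime. -/
theorem pos_blocks_class : ∃ c₀ : ℝ, 0 < c₀ ∧ c₀ ≤ 1 ∧ ∃ X₀ : ℕ, ∀ X : ℕ, X₀ ≤ X → ∀ W H : ℕ,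
    1 ≤ W → (W : ℝ) ≤ Real.exp (Real.log X / 4) → (W : ℝ) + 9 * Real.log X ≤ H → ∀ b : ℤ,
    c₀ * (X / W) ≤ (((cls X W b).filter (fun x : ℤ => Real.exp (Real.log X / 2) < (x : ℝ) ∧
      blockPrime H x)).card : ℝ) := by
  obtain ⟨c₁, hc₁, hc₁1, X₁, hpos⟩ := pos_blocks
  have t1 : Tendsto (fun X : ℕ => Real.log X) atTop atTop :=
    Real.tendsto_log_atTop.comp tendsto_natCast_atTop_atTop
  have hev : ∀ᶠ X : ℕ in atTop, 9 * Real.log X ≤ Real.exp (Real.log X / 2) ∧
      1 ≤ Real.log X ∧ 4 / c₁ ≤ Real.exp (Real.log X / 4) := by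
    have h1 := (((Real.tendsto_exp_div_pow_atTop 1).comp
      (tendsto_id.atTop_div_const (show (0:ℝ) < 2 by norm_num))).comp t1).eventually_ge_atTop 18
    have h2 := (Real.tendsto_exp_atTop.comp
      (t1.atTop_div_const (show (0:ℝ) < 4 by norm_num))).eventually_ge_atTop (4 / c₁)
    filter_upwards [h1, t1.eventually_ge_atTop 1, h2] with X a1 a2 a3
    refine ⟨?_, a2, a3⟩
    simp only [Function.comp, id, pow_one] at a1
    rw [le_div_iff₀ (by linarith)] at a1
    linarith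
  obtain ⟨X₂, hX₂⟩ := hev.exists_forall_of_atTop
  refine ⟨c₁ / 2, by positivity, by linarith, max (max X₁ X₂) 1, ?_⟩
  intro X hX W H hW hWL hWH b
  have hX1 : X₁ ≤ X := (le_max_left _ _).trans ((le_max_left _ _).trans hX)
  obtain ⟨e1, e2, e3⟩ := hX₂ X ((le_max_right _ _).trans ((le_max_left _ _).trans hX))
  have hX1' : 1 ≤ X := (le_max_right _ _).trans hX
  have hXpos : (0:ℝ) < X := by exact_mod_cast hX1'
  have hXe : (X : ℝ) = Real.exp (Real.log X) := (Real.exp_log hXpos).symm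
  have hps := hpos X hX1 ⌈8 * Real.log X⌉₊ (Nat.le_ceil _) (by
    have := (Nat.ceil_lt_add_one (show 0 ≤ 8 * Real.log X by linarith)).le
    linarith)
  have hH' : ((⌈8 * Real.log X⌉₊ : ℕ) : ℝ) ≤ 9 * Real.log X := by
    have := (Nat.ceil_lt_add_one (show 0 ≤ 8 * Real.log X by linarith)).le
    linarith
  generalize ⌈8 * Real.log X⌉₊ = H' at *
  have hWHn : W + H' ≤ H := by
    have : ((W + H' : ℕ) : ℝ) ≤ H := by push_cast; linarith
    exact_mod_cast this
  have hWpos : (0:ℝ) < W := by exact_mod_cast hW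
  have hWz : (0:ℤ) < W := by exact_mod_cast hW
  generalize hL : Real.log X = L at *
  obtain ⟨E, hE⟩ : ∃ E : ℝ, E = Real.exp (L / 2) := ⟨_, rfl⟩
  rw [← hE] at hps ⊢
  -- remove the small elements
  set T := ((Finset.Ioc (0 : ℤ) X).filter (fun x : ℤ => E < (x : ℝ) ∧ blockPrime H' x)) with hT
  set T' := T.filter (fun x : ℤ => E + W < (x : ℝ)) with hT'
  have hrem : (T.card : ℝ) ≤ (T'.card : ℝ) + (W + 1) := by
    have a1 : T.card = T'.card + (T.filter (fun x : ℤ => ¬ E + W < (x : ℝ))).card :=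
      (Finset.card_filter_add_card_filter_not _).symm
    have a2 : (T.filter (fun x : ℤ => ¬ E + W < (x : ℝ))) ⊆ Finset.Icc ⌊E⌋ (⌊E⌋ + W) := by
      intro x hx
      rw [Finset.mem_filter, hT, Finset.mem_filter] at hx
      rw [Finset.mem_Icc]
      obtain ⟨⟨_, h1, _⟩, h2⟩ := hx
      push Not at h2
      constructor
      · exact Int.floor_le_iff.2 (by
          have : (x : ℝ) < x + 1 := by linarith
          linarith)
      · have h3 : ((x - W : ℤ) : ℝ) ≤ E := by push_cast; linarith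
        have := Int.le_floor.2 h3
        omega
    have a3 := Finset.card_le_card a2
    rw [Int.card_Icc] at a3
    have a4 : (⌊E⌋ + (W : ℤ) + 1 - ⌊E⌋).toNat = W + 1 := by omega
    rw [a4] at a3
    have a5 : ((T.filter (fun x : ℤ => ¬ E + W < (x : ℝ))).card : ℝ) ≤ (W : ℝ) + 1 := by
      exact_mod_cast a3
    rw [a1]
    push_cast
    linarith
  -- the map to the class
  set φ : ℤ → ℤ := fun x => x - (x - b) % (W : ℤ) with hφ
  have hφ1 : ∀ x, φ x ≤ x ∧ x < φ x + W ∧ (W : ℤ) ∣ φ x - b := by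
    intro x
    have h1 := Int.emod_nonneg (x - b) hWz.ne'
    have h2 := Int.emod_lt_of_pos (x - b) hWz
    refine ⟨by rw [hφ]; simp only; omega, by rw [hφ]; simp only; omega, ?_⟩
    have : φ x - b = (x - b) - (x - b) % (W : ℤ) := by rw [hφ]; simp only; ring
    rw [this]
    exact Int.dvd_self_sub_emod
  set G := ((cls X W b).filter (fun x : ℤ => E < (x : ℝ) ∧ blockPrime H x)) with hG
  have hmaps : ∀ x ∈ T', φ x ∈ G := by
    intro x hx
    rw [hT', Finset.mem_filter, hT, Finset.mem_filter, Finset.mem_Ioc] at hx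
    obtain ⟨⟨⟨hx0, hxX⟩, hxE, q, hq, hq1, hq2⟩, hxW⟩ := hx
    obtain ⟨p1, p2, p3⟩ := hφ1 x
    have h1 : E < (φ x : ℝ) := by
      have : (x : ℝ) < (φ x : ℝ) + W := by exact_mod_cast p2
      linarith
    have hE0 : 0 < E := by rw [hE]; exact Real.exp_pos _
    have h2 : (0:ℝ) < (φ x : ℝ) := by linarith
    have h3 : (0:ℤ) < φ x := by exact_mod_cast h2
    rw [hG, Finset.mem_filter]
    unfold cls
    rw [Finset.mem_filter, Finset.mem_Ioc]
    refine ⟨⟨⟨h3, by omega⟩, p3⟩, h1, q, hq, by omega, by omega⟩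
  have hfib : ∀ g ∈ G, (T'.filter (fun x => φ x = g)).card ≤ W := by
    intro g _
    have : (T'.filter (fun x => φ x = g)) ⊆ Finset.Ico g (g + W) := by
      intro x hx
      rw [Finset.mem_filter] at hx
      obtain ⟨p1, p2, _⟩ := hφ1 x
      rw [Finset.mem_Ico]
      rw [hx.2] at p1 p2
      exact ⟨p1, p2⟩
    have h1 := Finset.card_le_card this
    rw [Int.card_Ico] at h1
    omega
  have hcard : T'.card ≤ W * G.card := Finset.card_le_mul_card_image_of_maps_to hmaps W hfib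
  have hcard' : (T'.card : ℝ) ≤ W * G.card := by exact_mod_cast hcard
  -- numbers
  have hW1 : (W : ℝ) + 1 ≤ c₁ / 2 * X := by
    have a1 : (W : ℝ) + 1 ≤ 2 * Real.exp (L / 4) := by
      have : (1:ℝ) ≤ Real.exp (L / 4) := Real.one_le_exp (by linarith)
      linarith
    have a2 : (X : ℝ) = Real.exp (L / 4) * Real.exp (3 * L / 4) := by
      rw [hXe, ← Real.exp_add]; congr 1; ring
    have a3 : 4 / c₁ ≤ Real.exp (3 * L / 4) :=
      e3.trans (Real.exp_le_exp.mpr (by linarith))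
    have a4 : c₁ / 2 * (Real.exp (L / 4) * (4 / c₁)) ≤
        c₁ / 2 * (Real.exp (L / 4) * Real.exp (3 * L / 4)) := by gcongr
    have a5 : c₁ / 2 * (Real.exp (L / 4) * (4 / c₁)) = 2 * Real.exp (L / 4) := by
      field_simp
      ring
    rw [a2]
    linarith
  have hfin : c₁ / 2 * X ≤ W * G.card := by linarith
  rw [show c₁ / 2 * ((X : ℝ) / W) = (c₁ / 2 * X) / W by ring, div_le_iff₀ hWpos]
  linarith

/-- the class -/
lemma choose_class (y : ℕ) (b : ℕ → ℕ) : ∃ b₀ : ℤ, ∀ lam : ℕ,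
    (surv (primorial y) lam b₀ 0).card ≤
      ((Finset.Icc 1 lam).filter (fun k => ∀ p : ℕ, p.Prime → p ≤ y → ¬ k ≡ b p [MOD p])).card := by
  obtain ⟨r, hr⟩ := crt_int ((Finset.range (y + 1)).filter Nat.Prime) (fun p : ℕ => (p : ℤ))
    (by
      intro p hp q hq hpq
      rw [Finset.mem_filter] at hp hq
      exact Nat.isCoprime_iff_coprime.mpr ((Nat.coprime_primes hp.2 hq.2).2 hpq))
    (fun p => -(b p : ℤ))
  refine ⟨r, fun lam => ?_⟩
  have hinj : ((surv (primorial y) lam r 0).image Int.toNat).card =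
      (surv (primorial y) lam r 0).card := by
    apply Finset.card_image_of_injOn
    intro a ha a' ha' h
    unfold surv at ha ha'
    rw [Finset.mem_coe, Finset.mem_filter, Finset.mem_Ioc] at ha ha'
    have h' : a.toNat = a'.toNat := h
    omega
  rw [← hinj]
  apply Finset.card_le_card
  intro k hk
  rw [Finset.mem_image] at hk
  obtain ⟨a, ha, rfl⟩ := hk
  unfold surv at ha
  rw [Finset.mem_filter, Finset.mem_Ioc] at ha
  obtain ⟨⟨ha1, ha2⟩, hcop⟩ := ha
  rw [Finset.mem_filter, Finset.mem_Icc]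
  refine ⟨⟨by omega, by omega⟩, ?_⟩
  intro p hp hpy hmod
  have h1 := hr p (Finset.mem_filter.2 ⟨Finset.mem_range.2 (by omega), hp⟩)
  have h2 : (p : ℤ) ∣ (b p : ℤ) - ((a.toNat : ℕ) : ℤ) := by
    have := (Nat.modEq_iff_dvd).1 hmod
    exact this
  have h3 : ((a.toNat : ℕ) : ℤ) = a := Int.toNat_of_nonneg (by omega)
  rw [h3] at h2
  have h4 : (p : ℤ) ∣ r + a := by
    have e : r + a = (r - -(b p : ℤ)) - ((b p : ℤ) - a) := by ring
    rw [e]
    exact dvd_sub h1 h2
  have h5 : (p : ℤ) ∣ ((primorial y : ℕ) : ℤ) := by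
    exact_mod_cast prime_dvd_primorial' hp hpy
  have h6 : IsUnit (p : ℤ) := hcop.isUnit_of_dvd' h4 h5
  rw [Int.isUnit_iff] at h6
  have := hp.two_le
  omega

/-- the survivors of the windows at the multiples of `W` -/
lemma surv_shift (W lam : ℕ) (b : ℤ) (i : ℕ) :
    (surv W lam b (i * W)).card ≤ (surv W lam b 0).card := by
  apply Finset.card_le_card_of_injOn (fun a : ℤ => a - ((i * W : ℕ) : ℤ))
  · intro a ha
    rw [Finset.mem_coe] at ha ⊢
    unfold surv at ha ⊢
    rw [Finset.mem_filter, Finset.mem_Ioc] at ha ⊢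
    refine ⟨⟨by push_cast at ha ⊢; omega, by push_cast at ha ⊢; omega⟩, ?_⟩
    have h1 := ha.2
    have e : b + (a - ((i * W : ℕ) : ℤ)) = (b + a) + (W : ℤ) * (-(i : ℤ)) := by push_cast; ring
    rw [e]
    exact (IsCoprime.add_mul_left_left_iff).2 h1
  · intro a _ a' _ h
    simp only at h
    omega

end Run7.h294.R
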