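import Pool.Agent.Run7.h294.R1
import Pool.Agent.Run7.h294.R2

set_option autoImplicit false
set_option linter.unusedSectionVars false

/-! # Frequency of gaps between `log X log₂ X` and the record scale -/

namespace Run7.h294.R

open Finset Filter Run7.h294.G

open scoped Classical

lemma ii_logs {l t s a : ℝ} (ht : t = Real.log l) (hs : s = Real.log t) (hl : 16 ≤ l)
    (hs2 : 2 ≤ s) (ha : 1 / 2 ≤ a) (ha1 : a ≤ 1) :
    Real.log (Real.exp (a * l)) = a * l ∧ Real.log (a * l) ≤ t ∧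
    t / 2 ≤ Real.log (a * l) ∧ s / 2 ≤ Real.log (Real.log (a * l)) := by
  have hl0 : 0 < l := by linarith
  have hlog2 := Real.log_two_lt_d9
  have htp : 2 < t := by
    by_contra hc
    push Not at hc
    have ht0 : 0 ≤ t := by rw [ht]; exact Real.log_nonneg (by linarith)
    have h2 : s ≤ Real.log 2 := by
      rw [hs]
      rcases eq_or_lt_of_le ht0 with h | h
      · rw [← h, Real.log_zero]
        exact Real.log_nonneg (by norm_num)
      · exact Real.log_le_log h hc
    linarith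
  have h3 : Real.log (a * l) = Real.log a + t := by
    rw [Real.log_mul (by linarith) (by linarith), ht]
  have h4 : Real.log a ≤ 0 := Real.log_nonpos (by linarith) ha1
  have h5 : -Real.log 2 ≤ Real.log a := by
    have := Real.log_le_log (by norm_num) ha
    rw [Real.log_div (by norm_num) (by norm_num), Real.log_one] at this
    linarith
  have h6 : t / 2 ≤ Real.log (a * l) := by rw [h3]; linarith
  refine ⟨Real.log_exp _, by rw [h3]; linarith, h6, ?_⟩
  have h7 := Real.log_le_log (by linarith) h6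
  rw [Real.log_div (by linarith) (by norm_num), ← hs] at h7
  linarith

/-- numerical facts about the choice of the sieving limit `y = exp ((1 - κ) l)` -/
lemma ii_num {L l t s c₁ lm κ lam : ℝ} (hLexp : L = Real.exp l) (ht : t = Real.log l)
    (hs : s = Real.log t) (hl : 16 ≤ l) (hs2 : 2 ≤ s) (hst : s ≤ t) (ht2 : 2 ≤ t)
    (hc0 : 0 < c₁) (hc1 : c₁ ≤ 1 / 120) (hlm1 : L * l ≤ lm)
    (hlm2 : lm ≤ c₁ * (L * l ^ 2 * s / t ^ 2)) (hκ : κ = c₁ * (L * l * s / (lm * t)))
    (hlam1 : lm ≤ lam) (hlam2 : lam ≤ 2 * lm) :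
    0 < κ ∧ κ ≤ 1 / 120 ∧ t ≤ κ * l ∧ κ * l ≤ c₁ * (s * l / t) ∧
    Real.exp ((1 - κ) * l) ≤ L / l ∧ lam ≤ L * l ^ 2 ∧
    0 < lam / Real.exp ((1 - κ) * l) ∧
    ((1 - κ) * l) ^ 2 ≤ lam / Real.exp ((1 - κ) * l) ∧
    Real.log (lam / Real.exp ((1 - κ) * l)) ≤ 3 * (κ * l) ∧
    0 ≤ Real.log (lam / Real.exp ((1 - κ) * l)) := by
  have hl0 : 0 < l := by linarith
  have hL0 : 0 < L := by rw [hLexp]; exact Real.exp_pos _
  have ht0 : 0 < t := by linarith
  have hs0 : 0 < s := by linarith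
  have hlm0 : 0 < lm := lt_of_lt_of_le (by positivity) hlm1
  have hκ0 : 0 < κ := by rw [hκ]; positivity
  have a1 : t ≤ κ * l := by
    have h1 : lm * t ^ 2 ≤ c₁ * (L * l ^ 2 * s) := by
      have := mul_le_mul_of_nonneg_right hlm2 (show 0 ≤ t ^ 2 by positivity)
      have e : c₁ * (L * l ^ 2 * s / t ^ 2) * t ^ 2 = c₁ * (L * l ^ 2 * s) := by field_simp
      linarith
    have h2 : κ * l = c₁ * (L * l ^ 2 * s) / (lm * t) := by rw [hκ]; field_simp
    rw [h2, le_div_iff₀ (by positivity)]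
    calc t * (lm * t) = lm * t ^ 2 := by ring
      _ ≤ _ := h1
  have a2 : κ * l ≤ c₁ * (s * l / t) := by
    have h1 : L * l * s / (lm * t) ≤ s / t := by
      rw [div_le_div_iff₀ (by positivity) ht0]
      have : L * l * (s * t) ≤ lm * (s * t) := mul_le_mul_of_nonneg_right hlm1 (by positivity)
      calc L * l * s * t = L * l * (s * t) := by ring
        _ ≤ lm * (s * t) := this
        _ = s * (lm * t) := by ring
    calc κ * l = c₁ * (L * l * s / (lm * t)) * l := by rw [hκ]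
      _ ≤ c₁ * (s / t) * l := by gcongr
      _ = c₁ * (s * l / t) := by ring
  have a3 : κ ≤ 1 / 120 := by
    have h1 : κ * l ≤ 1 / 120 * l := by
      calc κ * l ≤ c₁ * (s * l / t) := a2
        _ ≤ 1 / 120 * l := by
            apply mul_le_mul hc1 _ (by positivity) (by norm_num)
            rw [div_le_iff₀ ht0]
            nlinarith
    exact le_of_mul_le_mul_right h1 hl0
  have hlt : l = Real.exp t := by rw [ht, Real.exp_log hl0]
  have a4 : Real.exp ((1 - κ) * l) ≤ L / l := by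
    rw [le_div_iff₀ hl0]
    calc Real.exp ((1 - κ) * l) * l = Real.exp ((1 - κ) * l) * Real.exp t := by rw [← hlt]
      _ = Real.exp ((1 - κ) * l + t) := (Real.exp_add _ _).symm
      _ ≤ Real.exp l := Real.exp_le_exp.mpr (by linarith)
      _ = L := hLexp.symm
  have a5 : lam ≤ L * l ^ 2 := by
    have h1 : 2 * (c₁ * (L * l ^ 2 * s / t ^ 2)) ≤ L * l ^ 2 := by
      have h2 : L * l ^ 2 * s / t ^ 2 ≤ L * l ^ 2 := by
        rw [div_le_iff₀ (by positivity)]
        have : s ≤ t ^ 2 := by nlinarith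
        have h3 : 0 ≤ L * l ^ 2 := by positivity
        exact mul_le_mul_of_nonneg_left this h3
      have h4 : 0 ≤ L * l ^ 2 * s / t ^ 2 := by positivity
      nlinarith
    linarith
  have hy0 : 0 < Real.exp ((1 - κ) * l) := Real.exp_pos _
  have hlam0 : 0 < lam := by linarith
  have a6 : 0 < lam / Real.exp ((1 - κ) * l) := by positivity
  have a7 : ((1 - κ) * l) ^ 2 ≤ lam / Real.exp ((1 - κ) * l) := by
    rw [le_div_iff₀ hy0]
    have h1 : ((1 - κ) * l) ^ 2 ≤ l ^ 2 := by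
      apply pow_le_pow_left₀ (by nlinarith)
      nlinarith
    calc ((1 - κ) * l) ^ 2 * Real.exp ((1 - κ) * l) ≤ l ^ 2 * (L / l) := by gcongr
      _ = L * l := by field_simp
      _ ≤ lam := by linarith
  have a8 : Real.log (lam / Real.exp ((1 - κ) * l)) ≤ 3 * (κ * l) := by
    rw [Real.log_div hlam0.ne' hy0.ne', Real.log_exp]
    have h1 : Real.log lam ≤ l + 2 * t := by
      have h2 := Real.log_le_log hlam0 a5
      rw [Real.log_mul hL0.ne' (by positivity), Real.log_pow, hLexp, Real.log_exp, ← ht] at h2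
      push_cast at h2
      exact h2
    linarith
  have a9 : 0 ≤ Real.log (lam / Real.exp ((1 - κ) * l)) := by
    apply Real.log_nonneg
    refine le_trans ?_ a7
    have : 1 ≤ (1 - κ) * l := by nlinarith
    nlinarith
  exact ⟨hκ0, a3, a1, a2, a4, a5, a6, a7, a8, a9⟩

/-- the bound of the number of survivors -/
lemma ii_surv {L l t s c₁ lm κ lam Cs lv l2 l3 S : ℝ} (hl : 16 ≤ l) (hL : 0 < L)
    (hs2 : 2 ≤ s) (ht2 : 2 ≤ t) (hlm : 0 < lm)
    (hc0 : 0 < c₁) (hκ : κ = c₁ * (L * l * s / (lm * t)))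
    (hκ1 : κ ≤ 1 / 120)
    (hlam0 : 0 < lam) (hlam2 : lam ≤ 2 * lm) (hlv0 : 0 ≤ lv) (hlv : lv ≤ 3 * (κ * l))
    (hl2 : l2 ≤ t) (hl20 : 0 ≤ l2) (hl3 : s / 2 ≤ l3) (hCs : 0 < Cs)
    (hS : S ≤ Cs * lam * lv * l2 / (((1 - κ) * l) ^ 2 * l3)) : S ≤ 48 * Cs * c₁ * L := by
  have hs0 : 0 < s := by linarith
  have ht0 : 0 < t := by linarith
  have hl0 : 0 < l := by linarith
  have hκ0 : 0 < κ := by rw [hκ]; positivity
  have h1 : (l / 2) ^ 2 * (s / 2) ≤ ((1 - κ) * l) ^ 2 * l3 := by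
    have : l / 2 ≤ (1 - κ) * l := by nlinarith
    gcongr
  refine hS.trans ?_
  calc Cs * lam * lv * l2 / (((1 - κ) * l) ^ 2 * l3)
      ≤ Cs * (2 * lm) * (3 * (κ * l)) * t / ((l / 2) ^ 2 * (s / 2)) := by
        gcongr
    _ = 48 * Cs * c₁ * L := by
        rw [hκ]
        field_simp
        ring

lemma ii_ev (C₆ c₀ y₀ : ℝ) : ∀ᶠ l : ℝ in atTop, 16 ≤ l ∧ 2 ≤ Real.log (Real.log l) ∧
    Real.log (Real.log l) ≤ Real.log l ∧ 2 ≤ Real.log l ∧
    C₆ * l ^ 2 * Real.exp (l / 4) ≤ Real.exp (l / 2) ∧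
    2 * (Real.exp l * l ^ 2) ≤ Real.exp (Real.exp (l / 2)) ∧
    8 / c₀ ≤ Real.exp (Real.exp (l / 2)) ∧ y₀ ≤ Real.exp (l / 2) := by
  have t1 : Tendsto (fun l : ℝ => Real.log l) atTop atTop := Real.tendsto_log_atTop
  have t2 : Tendsto (fun l : ℝ => Real.log (Real.log l)) atTop atTop := t1.comp t1
  have t3 : Tendsto (fun l : ℝ => Real.exp (l / 2)) atTop atTop :=
    Real.tendsto_exp_atTop.comp (tendsto_id.atTop_div_const (by norm_num))
  have h1 := ((Real.tendsto_exp_div_pow_atTop 2).comp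
    (tendsto_id.atTop_div_const (show (0:ℝ) < 4 by norm_num))).eventually_ge_atTop (16 * |C₆|)
  filter_upwards [eventually_ge_atTop 1000, t2.eventually_ge_atTop 2, t1.eventually_ge_atTop 2,
    h1, (Real.tendsto_exp_atTop.comp t3).eventually_ge_atTop (8 / c₀),
    t3.eventually_ge_atTop y₀] with l a1 a2 a3 a4 a5 a6
  have hl0 : 0 < l := by linarith
  refine ⟨by linarith, a2, ?_, a3, ?_, ?_, a5, a6⟩
  · have := Real.log_le_sub_one_of_pos (show 0 < Real.log l by linarith)
    linarith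
  · simp only [Function.comp, id] at a4
    rw [le_div_iff₀ (by positivity)] at a4
    have e1 : C₆ * l ^ 2 ≤ Real.exp (l / 4) := by
      have : 16 * C₆ * (l / 4) ^ 2 ≤ 16 * |C₆| * (l / 4) ^ 2 := by
        gcongr
        exact le_abs_self C₆
      have e : 16 * C₆ * (l / 4) ^ 2 = C₆ * l ^ 2 := by ring
      linarith
    have e2 : Real.exp (l / 2) = Real.exp (l / 4) * Real.exp (l / 4) := by
      rw [← Real.exp_add]; congr 1; ring
    rw [e2]
    exact mul_le_mul_of_nonneg_right e1 (Real.exp_pos _).le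
  · have e1 : 2 * l ≤ Real.exp (l / 2) := by
      have h2 := Real.quadratic_le_exp_of_nonneg (x := l / 2) (by positivity)
      nlinarith
    have e2 : 2 * (Real.exp l * l ^ 2) ≤ Real.exp (2 * l) := by
      have e3 : Real.exp (2 * l) = Real.exp l * Real.exp l := by
        rw [← Real.exp_add]; congr 1; ring
      have e4 : 2 * l ^ 2 ≤ Real.exp l := by
        have h3 := Real.pow_div_factorial_le_exp l hl0.le 3
        norm_num [Nat.factorial] at h3
        nlinarith [sq_nonneg l]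
      rw [e3]
      calc 2 * (Real.exp l * l ^ 2) = Real.exp l * (2 * l ^ 2) := by ring
        _ ≤ _ := mul_le_mul_of_nonneg_left e4 (Real.exp_pos _).le
    exact e2.trans (Real.exp_le_exp.mpr e1)

/-- `W`, `R`, `H` -/
lemma ii_H {L l y W R lam H c₀ s : ℝ} (hlexp : L = Real.exp l) (hy1 : Real.exp (l / 2) ≤ y)
    (hyL : y ≤ L / l) (hl : 16 ≤ l) (hW1 : 1 ≤ W) (hW : W ≤ Real.exp (2 * y))
    (hs : s ≤ y) (hR : R ≤ 2 * Real.exp s) (hR8 : 20 ≤ R)
    (hlamL : L ≤ lam) (hlam : lam ≤ L * l ^ 2) (hH : H = R * (W * lam))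
    (f : 2 * (Real.exp l * l ^ 2) ≤ Real.exp (Real.exp (l / 2)))
    (f' : 8 / c₀ ≤ Real.exp (Real.exp (l / 2))) (hc : 0 < c₀) :
    W ≤ Real.exp (L / 4) ∧ H ≤ Real.exp (L / 2) ∧ W + 9 * L ≤ H ∧
    8 * W * H / c₀ ≤ Real.exp (7 * y) := by
  have hL0 : 0 < L := by rw [hlexp]; exact Real.exp_pos _
  have hy16 : y ≤ L / 16 := by
    refine hyL.trans ?_
    exact div_le_div_of_nonneg_left hL0.le (by norm_num) hl
  have hy0 : 0 < y := lt_of_lt_of_le (Real.exp_pos _) hy1
  have h1 : H ≤ Real.exp (4 * y) := by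
    rw [hH]
    have e1 : 2 * (L * l ^ 2) ≤ Real.exp y := by
      rw [hlexp]
      exact f.trans (Real.exp_le_exp.mpr hy1)
    have hlam0 : 0 < lam := by linarith
    calc R * (W * lam) ≤ (2 * Real.exp y) * (Real.exp (2 * y) * (L * l ^ 2)) := by
          have : R ≤ 2 * Real.exp y := hR.trans (by gcongr)
          gcongr
      _ = Real.exp y * Real.exp (2 * y) * (2 * (L * l ^ 2)) := by ring
      _ ≤ Real.exp y * Real.exp (2 * y) * Real.exp y := by gcongr
      _ = Real.exp (4 * y) := by rw [← Real.exp_add, ← Real.exp_add]; congr 1; ring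
  refine ⟨hW.trans (Real.exp_le_exp.mpr (by linarith)), h1.trans (Real.exp_le_exp.mpr (by linarith)),
    ?_, ?_⟩
  · rw [hH]
    have hL1 : 1 ≤ L := by
      rw [hlexp]
      exact Real.one_le_exp (by linarith)
    have h2 : W * L ≤ W * lam := mul_le_mul_of_nonneg_left hlamL (by linarith)
    have h3 : W ≤ W * L := le_mul_of_one_le_right (by linarith) hL1
    have h4 : L ≤ W * L := le_mul_of_one_le_left hL0.le hW1
    have h5 : 20 * (W * lam) ≤ R * (W * lam) :=
      mul_le_mul_of_nonneg_right hR8 (by linarith)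
    linarith
  · have h0 : 8 / c₀ ≤ Real.exp y := f'.trans (Real.exp_le_exp.mpr hy1)
    have hH0 : 0 ≤ H := by
      rw [hH]
      have : 0 ≤ lam := by linarith
      positivity
    calc 8 * W * H / c₀ = 8 / c₀ * W * H := by ring
      _ ≤ Real.exp y * Real.exp (2 * y) * Real.exp (4 * y) := by gcongr
      _ = Real.exp (7 * y) := by rw [← Real.exp_add, ← Real.exp_add]; congr 1; ring

end Run7.h294.R
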