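import Pool.Agent.Run7.h294.H3
import Pool.Agent.Run7.h294.R3

set_option autoImplicit false
set_option linter.unusedSectionVars false

/-! # Almost all short intervals contain prime-free intervals of record size -/

namespace Run7.h294.H

open Finset Filter Run7.h294.G Run7.h294.R

open scoped Classical

lemma h5_ev (A : ℕ) : ∀ᶠ l : ℝ in atTop, 4 ≤ Real.log l ∧
    2 * Real.exp (Real.exp l / 2) + 3 ≤ Real.exp (Real.exp l) / (2 * Real.exp l ^ A) := by
  have h3 := ((Real.tendsto_exp_div_pow_atTop (A + 3)).comp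
    (tendsto_id.atTop_div_const (show (0:ℝ) < 2 by norm_num))).comp Real.tendsto_exp_atTop
  have h4 := h3.eventually_ge_atTop (10 * 2 ^ (A + 3))
  filter_upwards [h4, eventually_ge_atTop 20, Real.tendsto_log_atTop.eventually_ge_atTop 4]
    with l a4 a5 a6
  refine ⟨a6, ?_⟩
  simp only [Function.comp, id] at a4
  obtain ⟨L, hL⟩ : ∃ L, L = Real.exp l := ⟨_, rfl⟩
  rw [← hL] at a4 ⊢
  have hL1 : 1 ≤ L := by rw [hL]; exact Real.one_le_exp (by linarith)
  have hL0 : 0 < L := by linarith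
  rw [le_div_iff₀ (by positivity)] at a4
  have e0 : (10:ℝ) * 2 ^ (A + 3) * (L / 2) ^ (A + 3) = 10 * L ^ (A + 3) := by
    rw [mul_assoc, ← mul_pow]
    congr 2
    ring
  rw [e0] at a4
  have e2 : Real.exp L = Real.exp (L / 2) * Real.exp (L / 2) := by
    rw [← Real.exp_add, add_halves]
  have e3 : L ^ (A + 3) = L ^ A * L ^ 3 := pow_add _ _ _
  have hL3 : 1 ≤ L ^ 3 := one_le_pow₀ hL1
  have h5 : L ^ A ≤ L ^ (A + 3) := by rw [e3]; exact le_mul_of_one_le_right (by positivity) hL3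
  have h7 : 3 ≤ Real.exp (L / 2) := by
    have : 1 ≤ L ^ (A + 3) := one_le_pow₀ hL1
    linarith
  rw [le_div_iff₀ (by positivity), e2]
  calc (2 * Real.exp (L / 2) + 3) * (2 * L ^ A)
      ≤ (2 * Real.exp (L / 2) + Real.exp (L / 2)) * (2 * L ^ A) := by gcongr
    _ = Real.exp (L / 2) * (6 * L ^ A) := by ring
    _ ≤ Real.exp (L / 2) * Real.exp (L / 2) := by
        apply mul_le_mul_of_nonneg_left _ (Real.exp_pos _).le
        have : 0 ≤ L ^ (A + 3) := by positivity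
        linarith

/-- from the class `b` to all integers -/
lemma pull_back (X W H lam : ℕ) (hW : 1 ≤ W) (b : ℤ) (Ω : Finset ℕ) (hΩ : ∀ ω ∈ Ω, ω + lam ≤ H)
    (E : ℝ) (hE : 0 ≤ E) (Z : ℝ) (hZ : (W : ℝ) + H + 1 ≤ Z) (lm : ℝ) (hlm : lm + 1 ≤ lam) :
    ({n : ℕ | n ≤ X ∧ ∀ t : ℕ, n ≤ t → (t : ℝ) ≤ n + Z → ∃ p : ℕ, p.Prime ∧ t ≤ p ∧
      (p : ℝ) ≤ t + lm}.ncard : ℝ) ≤
    W * (((cls X W b).filter (fun x : ℤ => E < (x : ℝ) ∧ ∀ ω ∈ Ω, ¬ free lam x ω)).card : ℝ) +
      (E + W + 2) := by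
  have hWz : (0:ℤ) < W := by exact_mod_cast hW
  set T := ((cls X W b).filter (fun x : ℤ => E < (x : ℝ) ∧ ∀ ω ∈ Ω, ¬ free lam x ω)) with hT
  set B : Set ℕ := {n : ℕ | n ≤ X ∧ ∀ t : ℕ, n ≤ t → (t : ℝ) ≤ n + Z → ∃ p : ℕ, p.Prime ∧ t ≤ p ∧
      (p : ℝ) ≤ t + lm} with hB
  -- the good part
  set S := (Finset.Ioc ⌊E⌋₊ (X - W)).filter (fun n => n ∈ B) with hS
  set φ : ℕ → ℤ := fun n => (n : ℤ) + (b - n) % (W : ℤ) with hφ
  have hφ1 : ∀ n : ℕ, (n : ℤ) ≤ φ n ∧ φ n < n + W ∧ (W : ℤ) ∣ φ n - b := by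
    intro n
    have h1 := Int.emod_nonneg (b - n) hWz.ne'
    have h2 := Int.emod_lt_of_pos (b - n) hWz
    refine ⟨by rw [hφ]; simp only; omega, by rw [hφ]; simp only; omega, ?_⟩
    have : φ n - b = -((b - n) - (b - n) % (W : ℤ)) := by rw [hφ]; simp only; ring
    rw [this]
    exact (Int.dvd_self_sub_emod).neg_right
  have hmaps : ∀ n ∈ S, φ n ∈ T := by
    intro n hn
    rw [hS, Finset.mem_filter, Finset.mem_Ioc] at hn
    obtain ⟨⟨hn1, hn2⟩, hnB⟩ := hn
    rw [hB] at hnB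
    obtain ⟨hnX, hnt⟩ := hnB
    obtain ⟨p1, p2, p3⟩ := hφ1 n
    have hnE : E < n := (Nat.floor_lt hE).1 hn1
    have hn0 : 0 < n := by
      have : (0:ℝ) < n := by linarith
      exact_mod_cast this
    have hn3 : n + W ≤ X := by omega
    rw [hT, Finset.mem_filter]
    unfold cls
    rw [Finset.mem_filter, Finset.mem_Ioc]
    refine ⟨⟨⟨by omega, by omega⟩, p3⟩, ?_, ?_⟩
    · have : ((n : ℕ) : ℝ) ≤ (φ n : ℝ) := by exact_mod_cast p1
      linarith
    · intro ω hω hfree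
      have h1 := hΩ ω hω
      obtain ⟨p, hp, hp1, hp2⟩ := hnt ((φ n).toNat + ω + 1) (by omega) (by
        have h2 : (((φ n).toNat + ω + 1 : ℕ) : ℤ) ≤ n + W + H + 1 := by
          push_cast
          omega
        have h3 : ((((φ n).toNat + ω + 1 : ℕ) : ℤ) : ℝ) ≤ ((n + W + H + 1 : ℤ) : ℝ) := by
          exact_mod_cast h2
        push_cast at h3 ⊢
        linarith)
      refine hfree p (by omega) ?_ hp
      have h4 : (p : ℝ) ≤ (((φ n).toNat + ω + lam : ℕ) : ℝ) := by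
        push_cast at hp2 ⊢
        linarith
      have h5 : p ≤ (φ n).toNat + ω + lam := by exact_mod_cast h4
      omega
  have hfib : ∀ x ∈ T, (S.filter (fun n => φ n = x)).card ≤ W := by
    intro x _
    have hsub : (S.filter (fun n => φ n = x)).image (fun n : ℕ => (n : ℤ)) ⊆
        Finset.Ioc (x - W) x := by
      intro z hz
      rw [Finset.mem_image] at hz
      obtain ⟨n, hn, rfl⟩ := hz
      rw [Finset.mem_filter] at hn
      obtain ⟨p1, p2, _⟩ := hφ1 n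
      rw [hn.2] at p1 p2
      rw [Finset.mem_Ioc]
      constructor <;> omega
    have h1 := Finset.card_le_card hsub
    rw [Int.card_Ioc, Finset.card_image_of_injective _ (fun a b h => by exact_mod_cast h)] at h1
    omega
  have hcard : S.card ≤ W * T.card := Finset.card_le_mul_card_image_of_maps_to hmaps W hfib
  -- the whole set
  have hsub : B ⊆ ((S ∪ (Finset.range (⌊E⌋₊ + 1) ∪ Finset.Ioc (X - W) X) : Finset ℕ) : Set ℕ) := by
    intro n hn
    rw [Finset.mem_coe, Finset.mem_union, Finset.mem_union, Finset.mem_range, Finset.mem_Ioc, hS,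
      Finset.mem_filter, Finset.mem_Ioc]
    have hnX : n ≤ X := hn.1
    by_cases h1 : n ≤ ⌊E⌋₊
    · right; left; omega
    · by_cases h2 : n ≤ X - W
      · left; exact ⟨⟨by omega, h2⟩, hn⟩
      · right; right; omega
  have h1 := Set.ncard_le_ncard hsub (Finset.finite_toSet _)
  rw [Set.ncard_coe_finset] at h1
  have h2 := h1.trans ((Finset.card_union_le _ _).trans (Nat.add_le_add hcard
    (Finset.card_union_le _ _)))
  rw [Finset.card_range, Nat.card_Ioc] at h2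
  have h3 : X - (X - W) ≤ W := by omega
  have h4 : B.ncard ≤ W * T.card + (⌊E⌋₊ + 1 + W) := by omega
  have h5 : (B.ncard : ℝ) ≤ W * T.card + (⌊E⌋₊ + 1 + W) := by exact_mod_cast h4
  have h6 : (⌊E⌋₊ : ℝ) ≤ E := Nat.floor_le hE
  linarith

theorem main_c (A : ℕ) : ∃ c₁ : ℝ, 0 < c₁ ∧ ∃ X₀ : ℕ, ∀ X : ℕ, X₀ ≤ X → ∀ lm : ℝ,
    Real.log X * Real.log (Real.log X) ≤ lm →
    lm ≤ c₁ * (Real.log X * (Real.log (Real.log X)) ^ 2 *
      Real.log (Real.log (Real.log (Real.log X))) / (Real.log (Real.log (Real.log X))) ^ 2) →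
    ({n : ℕ | n ≤ X ∧ ∀ t : ℕ, n ≤ t → (t : ℝ) ≤ n + Real.exp (Real.log X ^ (1 - c₁ / 2 *
      (Real.log X * Real.log (Real.log X) * Real.log (Real.log (Real.log (Real.log X))) /
        (lm * Real.log (Real.log (Real.log X)))))) → ∃ p : ℕ, p.Prime ∧ t ≤ p ∧
      (p : ℝ) ≤ t + lm}.ncard : ℝ) ≤ X / (Real.log X) ^ A := by
  obtain ⟨c₅, C₆, hc5, hC6, L₀, hstep⟩ := class_exc (A + 10) 1 (by omega) le_rfl
  obtain ⟨Cs, hCs, y₀, hsurv⟩ := survivors2
  obtain ⟨c₁, hc1⟩ : ∃ c₁ : ℝ, c₁ = min (1 / 120) (c₅ / (192 * Cs)) := ⟨_, rfl⟩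
  have hc10 : 0 < c₁ := by rw [hc1]; exact lt_min (by norm_num) (by positivity)
  have hc11 : c₁ ≤ 1 / 120 := by rw [hc1]; exact min_le_left _ _
  have hc12 : 192 * Cs * c₁ ≤ c₅ := by
    have h1 : c₁ ≤ c₅ / (192 * Cs) := by rw [hc1]; exact min_le_right _ _
    rw [le_div_iff₀ (by positivity)] at h1
    linarith
  clear hc1
  obtain ⟨l₀, hl₀⟩ := ((ii_ev C₆ 1 y₀).and (h5_ev A)).exists_forall_of_atTop
  have hev : ∀ᶠ X : ℕ in atTop, L₀ ≤ Real.log X ∧ l₀ ≤ Real.log (Real.log X) := by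
    have t1 : Tendsto (fun X : ℕ => Real.log X) atTop atTop :=
      Real.tendsto_log_atTop.comp tendsto_natCast_atTop_atTop
    exact (t1.eventually_ge_atTop L₀).and ((Real.tendsto_log_atTop.comp t1).eventually_ge_atTop l₀)
  obtain ⟨X₂, hX₂⟩ := hev.exists_forall_of_atTop
  refine ⟨c₁, hc10, max X₂ 1, ?_⟩
  intro X hX lm hlm1 hlm2
  obtain ⟨hLL, hll⟩ := hX₂ X ((le_max_left _ _).trans hX)
  have hX1 : 1 ≤ X := (le_max_right _ _).trans hX
  have hXpos : (0:ℝ) < X := by exact_mod_cast hX1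
  obtain ⟨⟨f1, f2, f3, f4, f5, f6, f7, f8⟩, f9, f10⟩ := hl₀ _ hll
  have hXe : (X : ℝ) = Real.exp (Real.log X) := (Real.exp_log hXpos).symm
  have hst := hstep X hLL
  clear hX₂ hl₀ hev hstep
  generalize hL : Real.log X = L at *
  generalize hl : Real.log L = l at *
  generalize ht : Real.log l = t at *
  generalize hs : Real.log t = s at *
  have hl0 : 0 < l := by linarith
  have ht0 : 0 < t := by linarith
  have hs0 : 0 < s := by linarith
  have hLpos : 0 < L := by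
    by_contra hc
    push Not at hc
    have h1 : (X : ℝ) ≤ 1 := by
      rw [hXe]
      exact Real.exp_le_one_iff.2 hc
    have h2 : (1 : ℝ) ≤ X := by exact_mod_cast hX1
    have h3 : (X : ℝ) = 1 := le_antisymm h1 h2
    have h4 : L = 0 := by rw [← hL, h3, Real.log_one]
    rw [h4, Real.log_zero] at hl
    linarith
  have hLexp : L = Real.exp l := by rw [← hl]; exact (Real.exp_log hLpos).symm
  rw [← hLexp] at f10
  rw [← hXe] at f10
  have hL16 : 16 ≤ L := by
    rw [hLexp]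
    have := Real.add_one_le_exp l
    linarith
  have hL1 : 1 ≤ L := by linarith
  have hlm0 : 0 < lm := lt_of_lt_of_le (by positivity) hlm1
  have hlmL : L ≤ lm := by
    refine le_trans ?_ hlm1
    exact le_mul_of_one_le_right hLpos.le (by linarith)
  -- `lam`
  obtain ⟨lam, hlam⟩ : ∃ lam : ℕ, lam = ⌈lm⌉₊ + 1 := ⟨_, rfl⟩
  have hlam1' : lm + 1 ≤ (lam : ℝ) := by
    rw [hlam]; push_cast
    have := Nat.le_ceil lm
    linarith
  have hlam1 : lm ≤ (lam : ℝ) := by linarith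
  have hlam2 : (lam : ℝ) ≤ 2 * lm := by
    have h1 := (Nat.ceil_lt_add_one hlm0.le).le
    rw [hlam]; push_cast
    linarith
  obtain ⟨κ, hκ⟩ : ∃ κ : ℝ, κ = c₁ * (L * l * s / (lm * t)) := ⟨_, rfl⟩
  obtain ⟨k0, k1, k2, k3, k4, k5, k6, k7, k8, k9⟩ := ii_num hLexp ht.symm hs.symm f1 f2 f3 f4 hc10
    hc11 hlm1 hlm2 hκ hlam1 hlam2
  obtain ⟨g1, g2, g3, g4⟩ := ii_logs (a := 1 - κ) ht.symm hs.symm f1 f2 (by linarith) (by linarith)
  -- `y`
  have hyy0 : Real.exp (l / 2) ≤ Real.exp ((1 - κ) * l) := by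
    apply Real.exp_le_exp.mpr
    nlinarith
  have hsv := hsurv (Real.exp ((1 - κ) * l)) (f8.trans hyy0)
    ((lam : ℝ) / Real.exp ((1 - κ) * l)) (by rw [g1]; exact k7) (by
      rw [g1]
      refine k8.trans ?_
      have h0 : 0 < Real.log ((1 - κ) * l) := by linarith
      rw [le_div_iff₀ (by positivity)]
      have h1 : 3 * (κ * l) ≤ 3 * (c₁ * (s * l / t)) := by linarith
      calc 3 * (κ * l) * (10 * Real.log ((1 - κ) * l))
          ≤ 3 * (c₁ * (s * l / t)) * (10 * t) := by gcongr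
        _ = 30 * c₁ * (s * l) := by field_simp; ring
        _ ≤ 1 / 4 * (s * l) := by
            have : 0 < s * l := by positivity
            nlinarith
        _ ≤ (1 - κ) * l * (s / 2) := by
            have : 0 < s * l := by positivity
            nlinarith
        _ ≤ (1 - κ) * l * Real.log (Real.log ((1 - κ) * l)) := by
            apply mul_le_mul_of_nonneg_left g4
            nlinarith) lam (by
      have : L / l ≤ L := div_le_self hLpos.le (by linarith)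
      linarith) (by
      rw [mul_div_cancel₀]
      exact (Real.exp_pos _).ne')
  obtain ⟨b, hb⟩ := hsv
  rw [g1] at hb
  have hS := ii_surv (S := (((Finset.Icc 1 lam).filter (fun k => ∀ p : ℕ, p.Prime →
      (p : ℝ) ≤ Real.exp ((1 - κ) * l) → ¬ k ≡ b p [MOD p])).card : ℝ)) f1 hLpos f2 f4 hlm0 hc10
      hκ k1 (by linarith) hlam2 k9 k8 g2 (by linarith) g4 hCs hb
  obtain ⟨y, hy⟩ : ∃ y : ℕ, y = ⌊Real.exp ((1 - κ) * l)⌋₊ := ⟨_, rfl⟩
  have hyle : (y : ℝ) ≤ Real.exp ((1 - κ) * l) := by rw [hy]; exact Nat.floor_le (Real.exp_pos _).le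
  obtain ⟨b₀, hb₀⟩ := choose_class y b
  have hS' : ((surv (primorial y) lam b₀ 0).card : ℝ) ≤ 48 * Cs * c₁ * L := by
    refine le_trans ?_ hS
    have h1 := hb₀ lam
    have h2 : ((surv (primorial y) lam b₀ 0).card : ℝ) ≤
        (((Finset.Icc 1 lam).filter (fun k => ∀ p : ℕ, p.Prime → p ≤ y →
          ¬ k ≡ b p [MOD p])).card : ℝ) := by exact_mod_cast h1
    refine h2.trans ?_
    have h3 : ((Finset.Icc 1 lam).filter (fun k => ∀ p : ℕ, p.Prime → p ≤ y →
          ¬ k ≡ b p [MOD p])) ⊆ ((Finset.Icc 1 lam).filter (fun k => ∀ p : ℕ, p.Prime →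
      (p : ℝ) ≤ Real.exp ((1 - κ) * l) → ¬ k ≡ b p [MOD p])) := by
      intro k hk
      rw [Finset.mem_filter] at hk ⊢
      refine ⟨hk.1, fun p hp hpy => hk.2 p hp ?_⟩
      rw [hy]
      exact Nat.le_floor hpy
    exact_mod_cast Finset.card_le_card h3
  -- `m`
  obtain ⟨m, hm⟩ : ∃ m : ℕ, m = ⌊l / 4⌋₊ := ⟨_, rfl⟩
  have hm1 : (m : ℝ) ≤ l / 4 := by rw [hm]; exact Nat.floor_le (by positivity)
  have hm2 : l / 4 ≤ m + 1 := by rw [hm]; exact (Nat.lt_floor_add_one _).le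
  have h2m : (2:ℝ) ^ m ≤ Real.exp (l / 4) := by
    have e1 : (2:ℝ) ^ m = Real.exp (m * Real.log 2) := by
      rw [mul_comm, Real.exp_mul, Real.exp_log two_pos, Real.rpow_natCast]
    rw [e1]
    apply Real.exp_le_exp.mpr
    have g1 : Real.log 2 ≤ 1 := by have := Real.log_two_lt_d9; linarith
    calc (m:ℝ) * Real.log 2 ≤ m * 1 := mul_le_mul_of_nonneg_left g1 (Nat.cast_nonneg _)
      _ ≤ l / 4 := by linarith
  have h2m1 : (1:ℝ) ≤ 2 ^ m := one_le_pow₀ (by norm_num)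
  have hexpo : C₆ * (l ^ 2 * 2 ^ m) ≤ Real.exp (l / 2) := by
    calc C₆ * (l ^ 2 * 2 ^ m) ≤ C₆ * (l ^ 2 * Real.exp (l / 4)) := by gcongr
      _ = C₆ * l ^ 2 * Real.exp (l / 4) := by ring
      _ ≤ Real.exp (l / 2) := f5
  have hexpo20 : 20 ≤ C₆ * (l ^ 2 * 2 ^ m) := by
    have e1 : (20:ℝ) ≤ l ^ 2 := by nlinarith
    have e2 : l ^ 2 * 1 ≤ l ^ 2 * 2 ^ m := by gcongr
    have e3 : 1 * (l ^ 2 * 2 ^ m) ≤ C₆ * (l ^ 2 * 2 ^ m) := by gcongr
    linarith
  -- `R`, `H`
  obtain ⟨R, hR⟩ : ∃ R : ℕ, R = ⌈Real.exp (C₆ * (l ^ 2 * 2 ^ m))⌉₊ := ⟨_, rfl⟩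
  obtain ⟨hR1, hR2, _⟩ := R_facts hexpo20 R hR
  have hR20 : (20:ℝ) ≤ R := by
    have := Real.add_one_le_exp (C₆ * (l ^ 2 * 2 ^ m))
    linarith
  have hW1 : 1 ≤ primorial y := primorial_pos y
  have hWy : ((primorial y : ℕ) : ℝ) ≤ Real.exp (2 * Real.exp ((1 - κ) * l)) := by
    have h1 : ((primorial y : ℕ) : ℝ) ≤ ((4 ^ y : ℕ) : ℝ) := by
      exact_mod_cast primorial_le_four_pow y
    have h2 : ((4 ^ y : ℕ) : ℝ) = Real.exp (y * Real.log 4) := by
      rw [mul_comm, Real.exp_mul, Real.exp_log (by norm_num), Real.rpow_natCast]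
      push_cast
      rfl
    rw [h2] at h1
    refine h1.trans (Real.exp_le_exp.mpr ?_)
    have h3 : Real.log 4 ≤ 2 := by
      have : Real.log 4 = 2 * Real.log 2 := by
        rw [show (4:ℝ) = 2 ^ 2 by norm_num, Real.log_pow]; push_cast; ring
      have := Real.log_two_lt_d9
      linarith
    calc (y:ℝ) * Real.log 4 ≤ Real.exp ((1 - κ) * l) * 2 := by
          apply mul_le_mul hyle h3 (Real.log_nonneg (by norm_num)) (Real.exp_pos _).le
      _ = _ := by ring
  have hlampos : 1 ≤ lam := by omega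
  have hWp : ∀ p : ℕ, p.Prime → p ∣ primorial y → (p : ℝ) ≤ L ^ (A + 10) := by
    intro p hp hpW
    have h1 : (p : ℝ) ≤ y := by exact_mod_cast prime_dvd_primorial hp hpW
    have h2 : L ≤ L ^ (A + 10) := le_self_pow₀ hL1 (by omega)
    have h3 : L / l ≤ L := div_le_self hLpos.le (by linarith)
    linarith
  obtain ⟨o1, o2, o3⟩ := omega_facts R (primorial y * lam) (Nat.mul_pos hW1 hlampos)
  have hsv : ∀ ω ∈ (Finset.range R).image (fun i => i * (primorial y * lam)),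
      ((surv (primorial y) lam b₀ ω).card : ℝ) ≤ c₅ * (m + 1) * L / l := by
    intro ω hω
    rw [Finset.mem_image] at hω
    obtain ⟨i, _, rfl⟩ := hω
    have h1 := surv_shift (primorial y) lam b₀ (i * lam)
    have e : i * (primorial y * lam) = i * lam * primorial y := by ring
    rw [e]
    have h2 : ((surv (primorial y) lam b₀ (i * lam * primorial y)).card : ℝ) ≤
        ((surv (primorial y) lam b₀ 0).card : ℝ) := by exact_mod_cast h1
    refine h2.trans (hS'.trans ?_)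
    rw [le_div_iff₀ hl0]
    have h3 : 48 * Cs * c₁ * L * l ≤ c₅ / 4 * L * l := by
      have : 48 * Cs * c₁ ≤ c₅ / 4 := by linarith
      gcongr
    have h4 : c₅ * (l / 4) * L ≤ c₅ * (m + 1) * L := by gcongr
    linarith
  obtain ⟨q1, q2, q3, q4⟩ := ii_H (W := ((primorial y : ℕ) : ℝ)) (R := (R : ℝ)) (lam := (lam : ℝ))
    (H := ((R * (primorial y * lam) : ℕ) : ℝ)) (c₀ := 1) hLexp hyy0 k4 f1 (by exact_mod_cast hW1)
    hWy (hexpo.trans hyy0) hR2 hR20 (by linarith) k5 (by push_cast; ring) f6 f7 one_pos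
  have hlamW : lam ≤ primorial y * lam := Nat.le_mul_of_pos_left _ hW1
  have o2' : ∀ ω ∈ (Finset.range R).image (fun i => i * (primorial y * lam)),
      ω + lam ≤ R * (primorial y * lam) := fun ω hω => by
    have := o2 ω hω
    omega
  have o3' : ∀ ω ∈ (Finset.range R).image (fun i => i * (primorial y * lam)),
      ∀ ω' ∈ (Finset.range R).image (fun i => i * (primorial y * lam)), ω ≠ ω' →
      ω + lam ≤ ω' ∨ ω' + lam ≤ ω := fun ω hω ω' hω' hne => by
    have := o3 ω hω ω' hω' hne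
    omega
  clear hsurv hS hb hb₀ hS' hR hm hlam o2 o3 hWy hlamW hy hyle
  generalize (Finset.range R).image (fun i => i * (primorial y * lam)) = Ω at *
  generalize R * (primorial y * lam) = H at *
  generalize primorial y = W at *
  have hlamL10 : (lam : ℝ) ≤ L ^ (A + 10) := by
    have h1 : l ≤ L := by
      rw [hLexp]
      have := Real.add_one_le_exp l
      linarith
    calc (lam : ℝ) ≤ L * l ^ 2 := k5
      _ ≤ L * L ^ 2 := by gcongr
      _ = L ^ 3 := by ring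
      _ ≤ L ^ (A + 10) := pow_le_pow_right₀ hL1 (by omega)
  have hQ := hst m (by
      calc 2 ^ m * (C₆ * l ^ 2) = C₆ * (l ^ 2 * 2 ^ m) := by ring
        _ ≤ Real.exp (l / 2) := hexpo
        _ ≤ Real.exp l := Real.exp_le_exp.mpr (by linarith)
        _ = L := hLexp.symm) W lam b₀ Ω hW1 q1 hWp hlamL10 (by
        intro ω hω
        have h1 : ((ω + lam : ℕ) : ℝ) ≤ H := by exact_mod_cast o2' ω hω
        have h2 : Real.exp (L / 2) ≤ Real.exp (((1 : ℕ) : ℝ) * L) := by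
          apply Real.exp_le_exp.mpr
          push_cast
          linarith
        push_cast at h1 h2 ⊢
        linarith) o3' hsv (by rw [o1]; exact hR1)
  have hWpos : (0:ℝ) < W := by exact_mod_cast hW1
  have hW1' : (1:ℝ) ≤ W := by exact_mod_cast hW1
  have hH1 : (1:ℝ) ≤ H := by linarith
  have hZ : (W : ℝ) + H + 1 ≤ Real.exp (L ^ (1 - c₁ / 2 * (L * l * s / (lm * t)))) := by
    have e1 : L ^ (1 - c₁ / 2 * (L * l * s / (lm * t))) = Real.exp ((1 - κ / 2) * l) := by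
      conv_lhs => rw [hLexp]
      rw [Real.rpow_def_of_pos (Real.exp_pos _), Real.log_exp, ← hLexp]
      congr 1
      rw [hκ]
      ring
    have e2 : 7 * Real.exp ((1 - κ) * l) ≤ Real.exp ((1 - κ / 2) * l) := by
      have e3 : Real.exp ((1 - κ / 2) * l) = Real.exp (κ * l / 2) * Real.exp ((1 - κ) * l) := by
        rw [← Real.exp_add]; congr 1; ring
      rw [e3]
      apply mul_le_mul_of_nonneg_right _ (Real.exp_pos _).le
      have e4 : Real.exp 2 ≤ Real.exp (κ * l / 2) := Real.exp_le_exp.mpr (by linarith)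
      have e5 : Real.exp 2 = Real.exp 1 * Real.exp 1 := by rw [← Real.exp_add]; norm_num
      have e6 := Real.exp_one_gt_d9
      nlinarith
    rw [e1]
    have e7 : 8 * (W : ℝ) * H / 1 ≤ Real.exp (Real.exp ((1 - κ / 2) * l)) :=
      q4.trans (Real.exp_le_exp.mpr e2)
    rw [div_one] at e7
    have e8 : (W : ℝ) * 1 ≤ W * H := by gcongr
    have e9 : 1 * (H : ℝ) ≤ W * H := by gcongr
    nlinarith
  have hfin := pull_back X W H lam hW1 b₀ Ω o2' (Real.exp (L / 2)) (Real.exp_pos _).le _ hZ lm hlam1'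
  refine hfin.trans ?_
  have h1 : (W : ℝ) * (((cls X W b₀).filter (fun x : ℤ => Real.exp (L / 2) < (x : ℝ) ∧
      ∀ ω ∈ Ω, ¬ free lam x ω)).card : ℝ) ≤ X / L ^ (A + 10 - 4) := by
    have := mul_le_mul_of_nonneg_left hQ hWpos.le
    refine this.trans (le_of_eq ?_)
    field_simp
  have h2 : (X : ℝ) / L ^ (A + 10 - 4) ≤ X / (2 * L ^ A) := by
    apply div_le_div_of_nonneg_left hXpos.le (by positivity)
    have : L ^ (A + 10 - 4) = L ^ 6 * L ^ A := by
      rw [← pow_add]; congr 1; omega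
    rw [this]
    have h7 : 2 ≤ L ^ 6 := by
      have : L ≤ L ^ 6 := le_self_pow₀ hL1 (by norm_num)
      linarith
    gcongr
  have h3 : (W : ℝ) ≤ Real.exp (L / 2) := q1.trans (Real.exp_le_exp.mpr (by linarith))
  have h4 : (X:ℝ) / (2 * L ^ A) + X / (2 * L ^ A) = X / L ^ A := by field_simp; ring
  linarith

end Run7.h294.H
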