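import Pool.Agent.Run7.h294.H2

set_option autoImplicit false
set_option linter.unusedSectionVars false

/-! # One window: a lower bound for the number of points where it is covered -/

namespace Run7.h294.S

open Finset Pool.Agent.H256R2.SC Run7.h294.G Run7.h294.H

open scoped Classical

/-- If the weight `w` has mass close to `N`, lives on the points where the window is covered and has
bounded second moment, then many points have a covered window. -/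
theorem single_comb (𝒜 : Finset ℤ) (w u : ℤ → ℝ) (N ε M : ℝ) (hε1 : ε ≤ 1 / 4)
    (hN : 0 < N) (hw : ∀ x, 0 ≤ w x) (hu : ∀ x, 0 ≤ u x)
    (h1 : (1 - ε) * N ≤ ∑ x ∈ 𝒜, w x)
    (h2 : ∑ x ∈ 𝒜, w x * u x ≤ ε * N)
    (h4 : ∑ x ∈ 𝒜, (w x) ^ 2 ≤ M * N) (hM : 0 < M) :
    N / (4 * M) ≤ ((𝒜.filter (fun x => u x < 1)).card : ℝ) := by
  set 𝒳 := 𝒜.filter (fun x => u x < 1) with h𝒳
  have e1 : ∑ x ∈ 𝒜, w x ≤ ∑ x ∈ 𝒳, w x + ∑ x ∈ 𝒜, w x * u x := by
    rw [h𝒳, Finset.sum_filter, ← Finset.sum_add_distrib]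
    refine Finset.sum_le_sum fun x _ => ?_
    have a1 := hw x
    have a2 := hu x
    split_ifs with hh
    · have : 0 ≤ w x * u x := mul_nonneg a1 a2
      linarith
    · push Not at hh
      have : w x * 1 ≤ w x * u x := mul_le_mul_of_nonneg_left hh a1
      linarith
  have e2 : N / 2 ≤ ∑ x ∈ 𝒳, w x := by
    have a3 : ε * N ≤ 1 / 4 * N := mul_le_mul_of_nonneg_right hε1 hN.le
    linarith
  have e3 : (∑ x ∈ 𝒳, w x) ^ 2 ≤ (𝒳.card : ℝ) * ∑ x ∈ 𝒳, (w x) ^ 2 := sq_sum_le_card_mul_sum_sq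
  have e4 : ∑ x ∈ 𝒳, (w x) ^ 2 ≤ M * N := by
    refine le_trans ?_ h4
    exact Finset.sum_le_sum_of_subset_of_nonneg (Finset.filter_subset _ _) fun x _ _ => sq_nonneg _
  have e5 : (N / 2) ^ 2 ≤ (𝒳.card : ℝ) * (M * N) := by
    refine ((pow_le_pow_left₀ (by positivity) e2 2).trans e3).trans ?_
    exact mul_le_mul_of_nonneg_left e4 (Nat.cast_nonneg _)
  rw [div_le_iff₀ (by positivity)]
  have e6 : N * N ≤ ((𝒳.card : ℝ) * (4 * M)) * N := by nlinarith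
  exact le_of_mul_le_mul_right e6 hN

theorem single (D : ℕ) (hD : 10 ≤ D) : ∃ c₅ C₆ : ℝ, 0 < c₅ ∧ 1 ≤ C₆ ∧ ∃ L₀ : ℝ,
    ∀ L : ℝ, L₀ ≤ L → ∀ m : ℕ, 2 ^ m * (C₆ * (Real.log L) ^ 2) ≤ L →
    ∀ E : Finset ℕ, 2 * (E.card : ℝ) ≤ L ^ D →
    ∃ PP : Finset ℕ, (∀ p ∈ PP, p.Prime ∧ L ^ D < (p : ℝ) ∧ (p : ℝ) ≤ Real.exp (L / 10) ∧ p ∉ E) ∧
    ∀ (A : Finset ℤ) (𝒜 : Finset ℤ) (N : ℝ),
    Real.exp (L / 2) ≤ N →
    ((A.card : ℝ) ≤ c₅ * (m + 1) * L / Real.log L) →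
    G.Sep PP A →
    Equi PP 𝒜 N (Real.exp (L / 10)) (Real.exp (L / 4)) →
    N * Real.exp (-(C₆ * ((Real.log L) ^ 2 * 2 ^ m))) ≤
      ((𝒜.filter (fun x => ∀ a ∈ A, ∃ p ∈ PP, (p : ℤ) ∣ x + a)).card : ℝ) := by
  obtain ⟨c₅, C₆, CM, hc5, hc51, hC6, hCM, hpar⟩ := params D hD
  obtain ⟨L₀, hL₀⟩ := H.n_facts CM D
  have hD1 : (10 : ℝ) ≤ D := by exact_mod_cast hD
  refine ⟨c₅, C₆ + 107 * (D + 2), hc5, by linarith, L₀, ?_⟩
  intro L hL m hm E hE
  obtain ⟨f1, f2, f4, f5⟩ := hL₀ L hL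
  have hpar := hpar L f1 f2 m
  generalize hl : Real.log L = l at *
  have hl0 : 0 < l := by linarith
  have hLpos : 0 < L := by linarith
  have hL1000 : 1000 ≤ L := by linarith
  have hLexp : L = Real.exp l := by rw [← hl]; exact (Real.exp_log hLpos).symm
  have h2m : (1:ℝ) ≤ 2 ^ m := one_le_pow₀ (by norm_num)
  have h2m0 : (0:ℝ) < 2 ^ m := by positivity
  have hm' : 2 ^ m * (C₆ * l ^ 2) ≤ L := by
    refine le_trans ?_ hm
    gcongr
    linarith
  obtain ⟨PP, h, hPP, K, hmm, P, T1, T2, hG1, hn1, hPy, hUL⟩ := hpar hm' E hE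
  refine ⟨PP, hPP, ?_⟩
  intro A 𝒜 N hN hAc hSep hE'
  have hG2 : ∑ i, gg PP i ≤ 2 * l := by linarith
  have hzJ0 : (2 * ⌈(D + 21) / 2 * l⌉₊ : ℕ) * (L / (1000 * D * l)) ≤ L / 40 := by
    have h1 := Nat.ceil_lt_add_one (show 0 ≤ ((D:ℝ) + 21) / 2 * l by positivity)
    have h2 : ((2 * ⌈((D:ℝ) + 21) / 2 * l⌉₊ : ℕ) : ℝ) ≤ 25 * D * l := by
      push_cast
      nlinarith
    calc ((2 * ⌈((D:ℝ) + 21) / 2 * l⌉₊ : ℕ) : ℝ) * (L / (1000 * D * l))
        ≤ (25 * D * l) * (L / (1000 * D * l)) :=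
          mul_le_mul_of_nonneg_right h2 (by positivity)
      _ = L / 40 := by field_simp; norm_num
  have hJ1 : (D + 21) * l ≤ ((2 * ⌈((D:ℝ) + 21) / 2 * l⌉₊ : ℕ) : ℝ) := by
    have := Nat.le_ceil (((D:ℝ) + 21) / 2 * l)
    push_cast; linarith
  have hj1 : ((⌈l * 2 ^ m + D * l⌉₊ : ℕ) : ℝ) ≤ (D + 2) * (l * 2 ^ m) := by
    have h1 := Nat.ceil_lt_add_one (show 0 ≤ l * 2 ^ m + D * l by positivity)
    have h3 : l * 1 ≤ l * 2 ^ m := mul_le_mul_of_nonneg_left h2m hl0.le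
    nlinarith
  obtain ⟨R3, hR3⟩ : ∃ R3 : ℝ, R3 = L ^ (D - 3) := ⟨_, rfl⟩
  have hR30 : 0 < R3 := by rw [hR3]; positivity
  have hR3L : L ≤ R3 := by
    rw [hR3]
    exact le_self_pow₀ (by linarith) (by omega)
  have hLD : R3 * L ^ 3 = L ^ D := by
    rw [hR3, ← pow_add]
    congr 1
    omega
  have hLD1 : L ^ (D - 1) = R3 * L ^ 2 := by
    rw [hR3, ← pow_add]
    congr 1
    omega
  have hT1 : Real.exp (2 * (c₅ * (m + 1) * L / l) * K / Real.log (Real.exp (L / (1000 * D * l))) -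
        Real.log (Real.exp (L / 40) / Real.exp (L / (1000 * D * l))) /
          Real.log (Real.exp (L / (1000 * D * l)))) +
        Real.exp (2 * (c₅ * (m + 1) * L / l) * hmm - (⌈l * 2 ^ m + D * l⌉₊ : ℝ)) ≤
        2 / (R3 * L ^ 3) := by
    have e1 := Real.exp_le_exp.mpr T1
    have e2 := Real.exp_le_exp.mpr T2
    have g5 : Real.exp (-(D * l)) = 1 / (R3 * L ^ 3) := by
      rw [hLD, Real.exp_neg, hLexp, ← Real.exp_nat_mul, one_div]
    rw [g5] at e1 e2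
    have : (2:ℝ) / (R3 * L ^ 3) = 1 / (R3 * L ^ 3) + 1 / (R3 * L ^ 3) := by ring
    rw [this]
    exact add_le_add e1 e2
  rw [hLD1] at P
  rw [← hLD] at hPy f4
  generalize hz : Real.exp (L / (1000 * D * l)) = z at *
  generalize hJ : 2 * ⌈((D:ℝ) + 21) / 2 * l⌉₊ = J at *
  generalize hj : ⌈l * 2 ^ m + D * l⌉₊ = j at *
  generalize hU : c₅ * (m + 1) * L / l = U at *
  generalize hQ : Real.exp (L / 40) = Q at *
  have hU0 : 0 ≤ U := P.U0
  have hNpos : 0 < N := lt_of_lt_of_le (Real.exp_pos _) hN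
  have hQ2 : Q ^ 2 = Real.exp (L / 20) := by
    rw [← hQ, ← Real.exp_nat_mul]; congr 1; push_cast; ring
  have hQ4 : Q ^ 4 = Real.exp (L / 10) := by
    rw [← hQ, ← Real.exp_nat_mul]; congr 1; push_cast; ring
  have hQ8 : Q ^ 8 = Real.exp (L / 5) := by
    rw [← hQ, ← Real.exp_nat_mul]; congr 1; push_cast; ring
  have hz0 : 0 < z := by rw [← hz]; exact Real.exp_pos _
  have hzJ : z ^ J ≤ Real.exp (L / 40) := by
    rw [← hz, ← Real.exp_nat_mul]
    exact Real.exp_le_exp.mpr hzJ0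
  have hRL0 : 0 < R3 * L ^ 3 := by positivity
  have hLR : L ≤ R3 * L ^ 3 := by
    have : R3 ≤ R3 * L ^ 3 := le_mul_of_one_le_right hR30.le (one_le_pow₀ (by linarith))
    linarith
  have hUL' : U ≤ Real.exp (L / 100) := (hUL.trans hLR).trans f4
  have k9 : (9 : ℝ) ≤ Real.exp (L / 100) := by linarith
  have k81 : (81 : ℝ) ≤ Real.exp (L / 100) := by linarith
  -- the equidistribution
  have hErr0 : 0 ≤ Real.exp (L / 10) := (Real.exp_pos _).le
  have hn0 : (0:ℝ) ≤ (PP.card : ℝ) + 1 := add_nonneg (Nat.cast_nonneg _) zero_le_one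
  have hnJ : ((PP.card : ℝ) + 1) ^ J ≤ Real.exp (L / 40) :=
    (pow_le_pow_left₀ hn0 hn1 J).trans hzJ
  have q10 : Real.exp (L / 10) ≤ Real.exp (L / 4) := Real.exp_le_exp.mpr (by linarith)
  have q20 : Real.exp (L / 20) ≤ Real.exp (L / 4) := Real.exp_le_exp.mpr (by linarith)
  have hEr1 : Real.exp (L / 10) * (9 * Q ^ 4) ≤ 1 / (R3 * L ^ 3) * N := by
    refine H.n_small hN hRL0 f4 (t := 21 / 100) ?_ (by norm_num) hLpos.le
    rw [hQ4]
    calc Real.exp (L / 10) * (9 * Real.exp (L / 10))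
        ≤ Real.exp (L / 10) * (Real.exp (L / 100) * Real.exp (L / 10)) := by gcongr
      _ = Real.exp (21 / 100 * L) := by
          rw [← Real.exp_add, ← Real.exp_add]; congr 1; ring
  have hEr2' : ∀ Y : ℝ, 0 ≤ Y → Y ≤ Real.exp (L / 40) →
      Real.exp (L / 10) * (9 * Q ^ 4 * (U * Y)) ≤ 1 / (R3 * L ^ 3) * N := by
    intro Y hY0 hY
    refine H.n_small hN hRL0 f4 (t := 49 / 200) ?_ (by norm_num) hLpos.le
    rw [hQ4]
    calc Real.exp (L / 10) * (9 * Real.exp (L / 10) * (U * Y))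
        ≤ Real.exp (L / 10) * (Real.exp (L / 100) * Real.exp (L / 10) *
          (Real.exp (L / 100) * Real.exp (L / 40))) := by gcongr
      _ = Real.exp (49 / 200 * L) := by
          rw [← Real.exp_add, ← Real.exp_add, ← Real.exp_add, ← Real.exp_add]; congr 1; ring
  have hEr2 : Real.exp (L / 10) * (9 * Q ^ 4 * (U * ((PP.card : ℝ) + 1) ^ J)) ≤
      1 / (R3 * L ^ 3) * N := hEr2' _ (pow_nonneg hn0 _) hnJ
  have hEr3 : Real.exp (L / 10) * (81 * Q ^ 8) ≤ 1 / (R3 * L ^ 3) * N := by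
    refine H.n_small hN hRL0 f4 (t := 31 / 100) ?_ (by norm_num) hLpos.le
    rw [hQ8]
    calc Real.exp (L / 10) * (81 * Real.exp (L / 5))
        ≤ Real.exp (L / 10) * (Real.exp (L / 100) * Real.exp (L / 5)) := by gcongr
      _ = Real.exp (31 / 100 * L) := by
          rw [← Real.exp_add, ← Real.exp_add]; congr 1; ring
  have hEr3' : Real.exp (L / 10) * (81 * Q ^ 8) ≤ N := by
    refine hEr3.trans ?_
    apply mul_le_of_le_one_left hNpos.le
    rw [div_le_one hRL0]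
    linarith
  have hS3 := H.n_S (G := ∑ i, gg PP i) (D := D) hLexp hJ1 (by linarith)
  rw [← hLD] at hS3
  have hε4 : 200 / R3 ≤ 1 / 4 := by
    rw [div_le_div_iff₀ hR30 (by norm_num)]
    linarith
  have key := single_comb 𝒜 (fun x => wgt PP h Q j A x)
    (fun x => unc PP J A x) N (200 / R3) (2 * Real.exp (106 * (D + 2) * (l ^ 2 * 2 ^ m)))
    hε4 hNpos (by
      intro x
      unfold wgt
      exact div_nonneg (sq_nonneg _) (zero_le_one.trans (Zs_ge_one P.H)))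
    (fun x => P.unc_nonneg A x)
    ((H.n_e1 hL1000 hR3L hUL hT1 hNpos hEr1).trans
      (P.E1 hAc hSep hNpos.le hErr0 hE' (by rw [hQ2]; exact q20)))
    ((P.E2 hAc hSep hNpos.le hErr0 hE' (by
        calc Q ^ 2 * z ^ J ≤ Real.exp (L / 20) * Real.exp (L / 40) := by
              rw [hQ2]
              exact mul_le_mul_of_nonneg_left hzJ (Real.exp_pos _).le
          _ = Real.exp (3 * L / 40) := by rw [← Real.exp_add]; congr 1; ring
          _ ≤ Real.exp (L / 4) := Real.exp_le_exp.mpr (by linarith))).trans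
      (H.n_e2 hL1000 hR3L hU0 hUL (add_nonneg (Real.exp_pos _).le (Real.exp_pos _).le) hT1
        (mul_nonneg (pow_nonneg (by norm_num) _) (Real.exp_pos _).le) hS3 hNpos hEr2))
    ((P.E4 hAc hSep hNpos.le hErr0 hE' (by
        rw [hQ4]; exact q10)).trans
      (H.n_e4 hLexp hL1000 f1 hU0 hUL hG2 hj1 hNpos hEr3'))
    (mul_pos zero_lt_two (Real.exp_pos _))
  have hsub2 : (𝒜.filter (fun x => unc PP J A x < 1)) ⊆
      (𝒜.filter (fun x => ∀ a ∈ A, ∃ p ∈ PP, (p : ℤ) ∣ x + a)) := by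
    intro x hx
    rw [Finset.mem_filter] at hx ⊢
    exact ⟨hx.1, fun a ha => P.unc_small hSep hx.2 a ha⟩
  have h1 : ((𝒜.filter (fun x => unc PP J A x < 1)).card : ℝ) ≤
      ((𝒜.filter (fun x => ∀ a ∈ A, ∃ p ∈ PP, (p : ℤ) ∣ x + a)).card : ℝ) := by
    exact_mod_cast Finset.card_le_card hsub2
  refine le_trans ?_ (key.trans h1)
  rw [div_eq_mul_inv]
  apply mul_le_mul_of_nonneg_left _ hNpos.le
  have hl2 : (3:ℝ) ≤ l ^ 2 * 2 ^ m := by
    have : (3:ℝ) ≤ l ^ 2 := by nlinarith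
    calc (3:ℝ) ≤ l ^ 2 * 1 := by linarith
      _ ≤ l ^ 2 * 2 ^ m := mul_le_mul_of_nonneg_left h2m (sq_nonneg _)
  generalize hv : l ^ 2 * 2 ^ m = v at *
  have h8 : (8 : ℝ) ≤ Real.exp v := by
    have e0 : Real.exp 3 ≤ Real.exp v := Real.exp_le_exp.mpr hl2
    have e1 : (8:ℝ) ≤ Real.exp 3 := by
      have e2 : Real.exp 3 = Real.exp 1 ^ 3 := by rw [← Real.exp_nat_mul]; norm_num
      have e3 := Real.exp_one_gt_d9
      rw [e2]
      calc (8:ℝ) = 2 ^ 3 := by norm_num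
        _ ≤ Real.exp 1 ^ 3 := pow_le_pow_left₀ (by norm_num) (by linarith) 3
    linarith
  rw [Real.exp_neg]
  apply inv_anti₀ (by positivity)
  have hv0 : 0 ≤ v := by linarith
  calc 4 * (2 * Real.exp (106 * (D + 2) * v)) = 8 * Real.exp (106 * (D + 2) * v) := by ring
    _ ≤ Real.exp v * Real.exp (106 * (D + 2) * v) :=
        mul_le_mul_of_nonneg_right h8 (Real.exp_pos _).le
    _ = Real.exp (v + 106 * (D + 2) * v) := by rw [Real.exp_add]
    _ ≤ Real.exp ((C₆ + 107 * (D + 2)) * v) := by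
        apply Real.exp_le_exp.mpr
        have : v + 106 * (D + 2) * v = (1 + 106 * (D + 2)) * v := by ring
        rw [this]
        apply mul_le_mul_of_nonneg_right _ hv0
        linarith

end Run7.h294.S
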