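import Pool.Agent.Run7.h294.P1
import Pool.Agent.Run7.h294.S1

set_option autoImplicit false
set_option linter.unusedSectionVars false

/-! # One window: the number of the points with a covered window, abstract version -/

namespace Run7.h294.P

open Finset Pool.Agent.H256R2.SC Run7.h294.G Run7.h294.H Run7.h294.S

open scoped Classical

theorem single_core (D : ℕ) (hD : 10 ≤ D) (CM : ℝ) : ∃ L₀ : ℝ,
    ∀ L : ℝ, L₀ ≤ L → ∀ (m : ℕ) (c₅ : ℝ) (n : ℕ) (p g : Fin n → ℝ) (h : Finset (Fin n) → ℝ)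
    (K hm : ℝ), Par p g h (Real.exp (L / (1000 * D * Real.log L))) K hm (Real.exp (L / 40))
        (1 / L ^ (D - 1)) 3 (c₅ * (m + 1) * L / Real.log L)
        ⌈Real.log L * 2 ^ m + D * Real.log L⌉₊
        (2 * ⌈(D + 21) / 2 * Real.log L⌉₊) →
    (2 * (c₅ * (m + 1) * L / Real.log L) * K / Real.log (Real.exp (L / (1000 * D * Real.log L))) -
        Real.log (Real.exp (L / 40) / Real.exp (L / (1000 * D * Real.log L))) /
          Real.log (Real.exp (L / (1000 * D * Real.log L))) ≤ -(D * Real.log L)) →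
    (2 * (c₅ * (m + 1) * L / Real.log L) * hm -
        (⌈Real.log L * 2 ^ m + D * Real.log L⌉₊ : ℝ) ≤ -(D * Real.log L)) →
    ∑ i, g i ≤ Real.log L + CM →
    (n : ℝ) + 1 ≤ Real.exp (L / (1000 * D * Real.log L)) →
    c₅ * (m + 1) * L / Real.log L ≤ L →
    ∀ (κ : Type) [Fintype κ] [DecidableEq κ] (c : ℤ → Col n κ) (𝒜 : Finset ℤ) (N : ℝ),
    Real.exp (L / 2) ≤ N → ((Fintype.card κ : ℝ) ≤ c₅ * (m + 1) * L / Real.log L) →
    Cnt p g c 𝒜 N (Real.exp (L / 10)) (Real.exp (L / 4)) →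
    N * Real.exp (-(108 * (D + 2) * ((Real.log L) ^ 2 * 2 ^ m))) ≤
      ((𝒜.filter (fun x => ∀ k, ∃ i, c x i = some k)).card : ℝ) := by
  obtain ⟨L₀, hL₀⟩ := H.n_facts CM D
  have hD1 : (10 : ℝ) ≤ D := by exact_mod_cast hD
  refine ⟨L₀, ?_⟩
  intro L hL m c₅ n p g h K hmm P T1 T2 hG1 hn1 hUL κ _ _ c 𝒜 N hN hAc hE'
  obtain ⟨f1, f2, f4, f5⟩ := hL₀ L hL
  generalize hl : Real.log L = l at *
  have hl0 : 0 < l := by linarith
  have hLpos : 0 < L := by linarith
  have hL1000 : 1000 ≤ L := by linarith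
  have hLexp : L = Real.exp l := by rw [← hl]; exact (Real.exp_log hLpos).symm
  have h2m : (1:ℝ) ≤ 2 ^ m := one_le_pow₀ (by norm_num)
  have h2m0 : (0:ℝ) < 2 ^ m := by positivity
  have hG2 : ∑ i, g i ≤ 2 * l := by linarith
  have hzJ0 : (2 * ⌈(D + 21) / 2 * l⌉₊ : ℕ) * (L / (1000 * D * l)) ≤ L / 40 := by
    have h1 := Nat.ceil_lt_add_one (show 0 ≤ ((D:ℝ) + 21) / 2 * l by positivity)
    have h2 : ((2 * ⌈((D:ℝ) + 21) / 2 * l⌉₊ : ℕ) : ℝ) ≤ 25 * D * l := by
      push_cast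
      nlinarith
    calc ((2 * ⌈((D:ℝ) + 21) / 2 * l⌉₊ : ℕ) : ℝ) * (L / (1000 * D * l))
        ≤ (25 * D * l) * (L / (1000 * D * l)) :=
          mul_le_mul_of_nonneg_right h2 (by positivity)
      _ = L / 40 := by field_simp; norm_num
  have hJ1 : (D + 21) * l ≤ ((2 * ⌈((D:ℝ) + 21) / 2 * l⌉₊ : ℕ) : ℝ) := by
    have := Nat.le_ceil (((D:ℝ) + 21) / 2 * l)
    push_cast; linarith
  have hj1 : ((⌈l * 2 ^ m + D * l⌉₊ : ℕ) : ℝ) ≤ (D + 2) * (l * 2 ^ m) := by
    have h1 := Nat.ceil_lt_add_one (show 0 ≤ l * 2 ^ m + D * l by positivity)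
    have h3 : l * 1 ≤ l * 2 ^ m := mul_le_mul_of_nonneg_left h2m hl0.le
    nlinarith
  obtain ⟨R3, hR3⟩ : ∃ R3 : ℝ, R3 = L ^ (D - 3) := ⟨_, rfl⟩
  have hR30 : 0 < R3 := by rw [hR3]; positivity
  have hR3L : L ≤ R3 := by
    rw [hR3]
    exact le_self_pow₀ (by linarith) (by omega)
  have hLD : R3 * L ^ 3 = L ^ D := by
    rw [hR3, ← pow_add]
    congr 1
    omega
  have hLD1 : L ^ (D - 1) = R3 * L ^ 2 := by
    rw [hR3, ← pow_add]
    congr 1
    omega
  have hT1 : Real.exp (2 * (c₅ * (m + 1) * L / l) * K / Real.log (Real.exp (L / (1000 * D * l))) -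
        Real.log (Real.exp (L / 40) / Real.exp (L / (1000 * D * l))) /
          Real.log (Real.exp (L / (1000 * D * l)))) +
        Real.exp (2 * (c₅ * (m + 1) * L / l) * hmm - (⌈l * 2 ^ m + D * l⌉₊ : ℝ)) ≤
        2 / (R3 * L ^ 3) := by
    have e1 := Real.exp_le_exp.mpr T1
    have e2 := Real.exp_le_exp.mpr T2
    have g5 : Real.exp (-(D * l)) = 1 / (R3 * L ^ 3) := by
      rw [hLD, Real.exp_neg, hLexp, ← Real.exp_nat_mul, one_div]
    rw [g5] at e1 e2
    have : (2:ℝ) / (R3 * L ^ 3) = 1 / (R3 * L ^ 3) + 1 / (R3 * L ^ 3) := by ring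
    rw [this]
    exact add_le_add e1 e2
  rw [hLD1] at P
  rw [← hLD] at f4
  generalize hz : Real.exp (L / (1000 * D * l)) = z at *
  generalize hJ : 2 * ⌈((D:ℝ) + 21) / 2 * l⌉₊ = J at *
  generalize hj : ⌈l * 2 ^ m + D * l⌉₊ = j at *
  generalize hU : c₅ * (m + 1) * L / l = U at *
  generalize hQ : Real.exp (L / 40) = Q at *
  have hU0 : 0 ≤ U := P.U0
  have hNpos : 0 < N := lt_of_lt_of_le (Real.exp_pos _) hN
  have hQ2 : Q ^ 2 = Real.exp (L / 20) := by
    rw [← hQ, ← Real.exp_nat_mul]; congr 1; push_cast; ring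
  have hQ4 : Q ^ 4 = Real.exp (L / 10) := by
    rw [← hQ, ← Real.exp_nat_mul]; congr 1; push_cast; ring
  have hQ8 : Q ^ 8 = Real.exp (L / 5) := by
    rw [← hQ, ← Real.exp_nat_mul]; congr 1; push_cast; ring
  have hz0 : 0 < z := by rw [← hz]; exact Real.exp_pos _
  have hzJ : z ^ J ≤ Real.exp (L / 40) := by
    rw [← hz, ← Real.exp_nat_mul]
    exact Real.exp_le_exp.mpr hzJ0
  have hRL0 : 0 < R3 * L ^ 3 := by positivity
  have hLR : L ≤ R3 * L ^ 3 := by
    have : R3 ≤ R3 * L ^ 3 := le_mul_of_one_le_right hR30.le (one_le_pow₀ (by linarith))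
    linarith
  have hUL' : U ≤ Real.exp (L / 100) := (hUL.trans hLR).trans f4
  have k9 : (9 : ℝ) ≤ Real.exp (L / 100) := by linarith
  have k81 : (81 : ℝ) ≤ Real.exp (L / 100) := by linarith
  -- the equidistribution
  have hErr0 : 0 ≤ Real.exp (L / 10) := (Real.exp_pos _).le
  have hn0 : (0:ℝ) ≤ (n : ℝ) + 1 := add_nonneg (Nat.cast_nonneg _) zero_le_one
  have hnJ : ((n : ℝ) + 1) ^ J ≤ Real.exp (L / 40) :=
    (pow_le_pow_left₀ hn0 hn1 J).trans hzJ
  have q10 : Real.exp (L / 10) ≤ Real.exp (L / 4) := Real.exp_le_exp.mpr (by linarith)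
  have q20 : Real.exp (L / 20) ≤ Real.exp (L / 4) := Real.exp_le_exp.mpr (by linarith)
  have hEr1 : Real.exp (L / 10) * (9 * Q ^ 4) ≤ 1 / (R3 * L ^ 3) * N := by
    refine H.n_small hN hRL0 f4 (t := 21 / 100) ?_ (by norm_num) hLpos.le
    rw [hQ4]
    calc Real.exp (L / 10) * (9 * Real.exp (L / 10))
        ≤ Real.exp (L / 10) * (Real.exp (L / 100) * Real.exp (L / 10)) := by gcongr
      _ = Real.exp (21 / 100 * L) := by
          rw [← Real.exp_add, ← Real.exp_add]; congr 1; ring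
  have hEr2' : ∀ Y : ℝ, 0 ≤ Y → Y ≤ Real.exp (L / 40) →
      Real.exp (L / 10) * (9 * Q ^ 4 * (U * Y)) ≤ 1 / (R3 * L ^ 3) * N := by
    intro Y hY0 hY
    refine H.n_small hN hRL0 f4 (t := 49 / 200) ?_ (by norm_num) hLpos.le
    rw [hQ4]
    calc Real.exp (L / 10) * (9 * Real.exp (L / 10) * (U * Y))
        ≤ Real.exp (L / 10) * (Real.exp (L / 100) * Real.exp (L / 10) *
          (Real.exp (L / 100) * Real.exp (L / 40))) := by gcongr
      _ = Real.exp (49 / 200 * L) := by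
          rw [← Real.exp_add, ← Real.exp_add, ← Real.exp_add, ← Real.exp_add]; congr 1; ring
  have hEr2 : Real.exp (L / 10) * (9 * Q ^ 4 * (U * ((n : ℝ) + 1) ^ J)) ≤
      1 / (R3 * L ^ 3) * N := hEr2' _ (pow_nonneg hn0 _) hnJ
  have hEr3 : Real.exp (L / 10) * (81 * Q ^ 8) ≤ 1 / (R3 * L ^ 3) * N := by
    refine H.n_small hN hRL0 f4 (t := 31 / 100) ?_ (by norm_num) hLpos.le
    rw [hQ8]
    calc Real.exp (L / 10) * (81 * Real.exp (L / 5))
        ≤ Real.exp (L / 10) * (Real.exp (L / 100) * Real.exp (L / 5)) := by gcongr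
      _ = Real.exp (31 / 100 * L) := by
          rw [← Real.exp_add, ← Real.exp_add]; congr 1; ring
  have hEr3' : Real.exp (L / 10) * (81 * Q ^ 8) ≤ N := by
    refine hEr3.trans ?_
    apply mul_le_of_le_one_left hNpos.le
    rw [div_le_one hRL0]
    linarith
  have hS3 := H.n_S (G := ∑ i, g i) (D := D) hLexp hJ1 (by linarith)
  rw [← hLD] at hS3
  have hε4 : 200 / R3 ≤ 1 / 4 := by
    rw [div_le_div_iff₀ hR30 (by norm_num)]
    linarith
  have key := single_comb 𝒜 (fun x => wgt p g h Q j c x)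
    (fun x => unc J c x) N (200 / R3) (2 * Real.exp (106 * (D + 2) * (l ^ 2 * 2 ^ m)))
    hε4 hNpos (by
      intro x
      unfold wgt
      exact div_nonneg (sq_nonneg _) (zero_le_one.trans (Zs_ge_one P.H)))
    (fun x => P.unc_nonneg c x)
    ((H.n_e1 hL1000 hR3L hUL hT1 hNpos hEr1).trans
      (P.E1 hAc hNpos.le hErr0 hE' (by rw [hQ2]; exact q20)))
    ((P.E2 hAc hNpos.le hErr0 hE' (by
        calc Q ^ 2 * z ^ J ≤ Real.exp (L / 20) * Real.exp (L / 40) := by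
              rw [hQ2]
              exact mul_le_mul_of_nonneg_left hzJ (Real.exp_pos _).le
          _ = Real.exp (3 * L / 40) := by rw [← Real.exp_add]; congr 1; ring
          _ ≤ Real.exp (L / 4) := Real.exp_le_exp.mpr (by linarith))).trans
      (H.n_e2 hL1000 hR3L hU0 hUL (add_nonneg (Real.exp_pos _).le (Real.exp_pos _).le) hT1
        (mul_nonneg (pow_nonneg (by norm_num) _) (Real.exp_pos _).le) hS3 hNpos hEr2))
    ((P.E4 hAc hNpos.le hErr0 hE' (by
        rw [hQ4]; exact q10)).trans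
      (H.n_e4 hLexp hL1000 f1 hU0 hUL hG2 hj1 hNpos hEr3'))
    (mul_pos zero_lt_two (Real.exp_pos _))
  have hsub2 : (𝒜.filter (fun x => unc J c x < 1)) ⊆
      (𝒜.filter (fun x => ∀ k, ∃ i, c x i = some k)) := by
    intro x hx
    rw [Finset.mem_filter] at hx ⊢
    exact ⟨hx.1, fun a => P.unc_small hx.2 a⟩
  have h1 : ((𝒜.filter (fun x => unc J c x < 1)).card : ℝ) ≤
      ((𝒜.filter (fun x => ∀ k, ∃ i, c x i = some k)).card : ℝ) := by
    exact_mod_cast Finset.card_le_card hsub2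
  refine le_trans ?_ (key.trans h1)
  rw [div_eq_mul_inv]
  apply mul_le_mul_of_nonneg_left _ hNpos.le
  have hl2 : (3:ℝ) ≤ l ^ 2 * 2 ^ m := by
    have : (3:ℝ) ≤ l ^ 2 := by nlinarith
    calc (3:ℝ) ≤ l ^ 2 * 1 := by linarith
      _ ≤ l ^ 2 * 2 ^ m := mul_le_mul_of_nonneg_left h2m (sq_nonneg _)
  generalize hv : l ^ 2 * 2 ^ m = v at *
  have h8 : (8 : ℝ) ≤ Real.exp v := by
    have e0 : Real.exp 3 ≤ Real.exp v := Real.exp_le_exp.mpr hl2
    have e1 : (8:ℝ) ≤ Real.exp 3 := by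
      have e2 : Real.exp 3 = Real.exp 1 ^ 3 := by rw [← Real.exp_nat_mul]; norm_num
      have e3 := Real.exp_one_gt_d9
      rw [e2]
      calc (8:ℝ) = 2 ^ 3 := by norm_num
        _ ≤ Real.exp 1 ^ 3 := pow_le_pow_left₀ (by norm_num) (by linarith) 3
    linarith
  rw [Real.exp_neg]
  apply inv_anti₀ (by positivity)
  have hv0 : 0 ≤ v := by linarith
  calc 4 * (2 * Real.exp (106 * (D + 2) * v)) = 8 * Real.exp (106 * (D + 2) * v) := by ring
    _ ≤ Real.exp v * Real.exp (106 * (D + 2) * v) :=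
        mul_le_mul_of_nonneg_right h8 (Real.exp_pos _).le
    _ = Real.exp (v + 106 * (D + 2) * v) := by rw [Real.exp_add]
    _ ≤ Real.exp (108 * (D + 2) * v) := by
        apply Real.exp_le_exp.mpr
        have : v + 106 * (D + 2) * v = (1 + 106 * (D + 2)) * v := by ring
        rw [this]
        apply mul_le_mul_of_nonneg_right _ hv0
        linarith

end Run7.h294.P
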