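import Pool.Agent.H474R2.PG.Rough

set_option autoImplicit false
set_option linter.unusedSectionVars false

/-! # Sums over rough numbers: excluded primes -/

namespace Run7.h294.P

open Finset Pool.Agent.H474R2.PG

open scoped Classical

/-- the sum with the empty set -/
noncomputable def Fs (g : ℕ → ℝ) (P : Finset ℕ) (x : ℝ) : ℝ :=
  ∑ s ∈ P.powerset, if ∏ p ∈ s, (p : ℝ) ≤ x then ∏ p ∈ s, g p else 0

lemma Fs_eq (g : ℕ → ℝ) (P : Finset ℕ) {x : ℝ} (hx : 1 ≤ x) :
    Fs g P x = 1 + ∑ s ∈ (P.powerset.filter (fun s : Finset ℕ => s.Nonempty ∧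
      ∏ p ∈ s, (p : ℝ) ≤ x)), ∏ p ∈ s, g p := by
  unfold Fs
  rw [← Finset.sum_filter]
  have h1 : P.powerset.filter (fun s : Finset ℕ => ∏ p ∈ s, (p : ℝ) ≤ x) =
      insert ∅ (P.powerset.filter (fun s : Finset ℕ => s.Nonempty ∧ ∏ p ∈ s, (p : ℝ) ≤ x)) := by
    ext s
    rw [Finset.mem_filter, Finset.mem_insert, Finset.mem_filter]
    constructor
    · rintro ⟨h1, h2⟩
      rcases s.eq_empty_or_nonempty with h | h
      · left; exact h
      · right; exact ⟨h1, h, h2⟩
    · rintro (h | ⟨h1, _, h2⟩)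
      · rw [h]
        refine ⟨Finset.empty_mem_powerset _, ?_⟩
        rw [Finset.prod_empty]
        exact hx
      · exact ⟨h1, h2⟩
  rw [h1, Finset.sum_insert, Finset.prod_empty]
  rw [Finset.mem_filter]
  rintro ⟨_, h, _⟩
  exact Finset.not_nonempty_empty h

lemma Fs_insert (g : ℕ → ℝ) (P : Finset ℕ) (q : ℕ) (hq : q ∉ P) (hq1 : 1 ≤ q)
    (hg : ∀ p ∈ insert q P, 0 ≤ g p) (hp : ∀ p ∈ P, 0 < p) (x : ℝ) :
    Fs g (insert q P) x ≤ (1 + g q) * Fs g P x := by
  unfold Fs
  rw [Finset.sum_powerset_insert hq, add_mul, one_mul, Finset.mul_sum]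
  refine add_le_add le_rfl (Finset.sum_le_sum fun s hs => ?_)
  rw [Finset.mem_powerset] at hs
  have hqs : q ∉ s := fun h => hq (hs h)
  rw [Finset.prod_insert hqs, Finset.prod_insert hqs]
  have h0 : 0 ≤ ∏ p ∈ s, g p := Finset.prod_nonneg fun p hp =>
    hg p (Finset.mem_insert_of_mem (hs hp))
  have h1 : 0 ≤ g q := hg q (Finset.mem_insert_self _ _)
  have h2 : (0:ℝ) < ∏ p ∈ s, (p : ℝ) := Finset.prod_pos fun p h => by exact_mod_cast hp p (hs h)
  have h3 : (1:ℝ) ≤ q := by exact_mod_cast hq1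
  have h4 : ∏ p ∈ s, (p : ℝ) ≤ q * ∏ p ∈ s, (p : ℝ) := le_mul_of_one_le_left h2.le h3
  split_ifs with a b b
  · exact le_rfl
  · exact absurd (h4.trans a) b
  · positivity
  · simp

lemma Fs_union (g : ℕ → ℝ) (P E : Finset ℕ) (hdis : Disjoint P E)
    (hg : ∀ p ∈ P ∪ E, 0 ≤ g p) (hp : ∀ p ∈ P ∪ E, 0 < p) {x : ℝ} :
    Fs g (P ∪ E) x ≤ Real.exp (∑ p ∈ E, g p) * Fs g P x := by
  induction E using Finset.induction_on with
  | empty => simp
  | insert q E hq ih =>
    have hqP : q ∉ P := by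
      intro h
      exact (Finset.disjoint_left.1 hdis h) (Finset.mem_insert_self _ _)
    have hdis' : Disjoint P E := by
      rw [Finset.disjoint_left] at hdis ⊢
      intro p hp1 hp2
      exact hdis hp1 (Finset.mem_insert_of_mem hp2)
    have hsub : ∀ p ∈ P ∪ E, p ∈ P ∪ insert q E := by
      intro p hp'
      rw [Finset.mem_union] at hp' ⊢
      rcases hp' with h | h
      · left; exact h
      · right; exact Finset.mem_insert_of_mem h
    have ih' := ih hdis' (fun p h => hg p (hsub p h)) (fun p h => hp p (hsub p h))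
    have e1 : P ∪ insert q E = insert q (P ∪ E) := by
      rw [Finset.union_insert]
    have hqU : q ∉ P ∪ E := by
      rw [Finset.mem_union]
      push Not
      exact ⟨hqP, hq⟩
    rw [e1] at hg hp ⊢
    have hq1 : 0 < q := hp q (Finset.mem_insert_self _ _)
    have h1 := Fs_insert g (P ∪ E) q hqU hq1 hg
      (fun p h => hp p (Finset.mem_insert_of_mem h)) x
    have hgq : 0 ≤ g q := hg q (Finset.mem_insert_self _ _)
    have h2 : 1 + g q ≤ Real.exp (g q) := by
      have := Real.add_one_le_exp (g q)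
      linarith
    have h3 : 0 ≤ Fs g (P ∪ E) x := by
      unfold Fs
      refine Finset.sum_nonneg fun s hs => ?_
      rw [Finset.mem_powerset] at hs
      split_ifs
      · exact Finset.prod_nonneg fun p hp' => hg p (Finset.mem_insert_of_mem (hs hp'))
      · exact le_rfl
    rw [Finset.sum_insert hq, Real.exp_add]
    calc Fs g (insert q (P ∪ E)) x ≤ (1 + g q) * Fs g (P ∪ E) x := h1
      _ ≤ Real.exp (g q) * Fs g (P ∪ E) x := mul_le_mul_of_nonneg_right h2 h3
      _ ≤ Real.exp (g q) * (Real.exp (∑ p ∈ E, g p) * Fs g P x) :=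
          mul_le_mul_of_nonneg_left ih' (Real.exp_pos _).le
      _ = _ := by ring

/-- the lower bound with excluded primes -/
theorem rough_excl (r : ℕ → ℕ) (d B : ℕ) (hr : ∀ p : ℕ, p.Prime → B < p → r p ≤ d) (C : ℝ)
    (hM : ∀ w : ℝ, 3 ≤ w → |Sg r w - Real.log (Real.log w)| ≤ C) :
    ∃ c₂ : ℝ, 0 < c₂ ∧ ∃ Y₀ : ℝ, 3 ≤ Y₀ ∧ ∀ (y z x : ℝ) (E : Finset ℕ), Y₀ ≤ y → y ≤ x → x ≤ z →
      (d : ℝ) * E.card ≤ y →
      c₂ * Real.log x / Real.log y - 1 ≤
        ∑ s ∈ (((PS r y z) \ E).powerset.filter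
            (fun s : Finset ℕ => s.Nonempty ∧ ∏ p ∈ s, (p : ℝ) ≤ x)),
          ∏ p ∈ s, (r p : ℝ) / (p : ℝ) := by
  obtain ⟨c₂, hc₂, Y₀, hY₀, h⟩ := rough_lower r d B hr C (fun w hw => by
    have := (abs_le.1 (hM w hw)).1
    linarith)
  refine ⟨c₂ * Real.exp (-C) / 3, by positivity, max Y₀ B, le_max_of_le_left hY₀, ?_⟩
  intro y z x E hy hyx hxz hE
  have hyY : Y₀ ≤ y := (le_max_left _ _).trans hy
  have hyB : (B : ℝ) ≤ y := (le_max_right _ _).trans hy
  have hy3 : 3 ≤ y := hY₀.trans hyY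
  have hy0 : 0 < y := by linarith
  have hx1 : 1 ≤ x := by linarith
  have hlx : 0 < Real.log x := Real.log_pos (by linarith)
  have hly : 0 < Real.log y := Real.log_pos (by linarith)
  have h1 := h y z x hyY hyx hxz
  have hmem : ∀ p ∈ PS r y z, p.Prime ∧ y < (p : ℝ) := by
    intro p hp
    unfold PS PR at hp
    rw [Finset.mem_filter, Finset.mem_filter] at hp
    exact ⟨hp.1.2, hp.2.1⟩
  set g : ℕ → ℝ := fun p => (r p : ℝ) / (p : ℝ) with hg
  have hun : PS r y z = ((PS r y z) \ E) ∪ (PS r y z ∩ E) := by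
    rw [Finset.sdiff_union_inter]
  have hdis : Disjoint ((PS r y z) \ E) (PS r y z ∩ E) := by
    rw [Finset.disjoint_left]
    intro p hp1 hp2
    exact (Finset.mem_sdiff.1 hp1).2 (Finset.mem_inter.1 hp2).2
  have h2 := Fs_union g ((PS r y z) \ E) (PS r y z ∩ E) hdis (fun p _ => by positivity)
    (fun p hp => by
      rw [← hun] at hp
      exact (hmem p hp).1.pos) (x := x)
  rw [← hun] at h2
  have h3 : ∑ p ∈ PS r y z ∩ E, g p ≤ 1 := by
    have h4 : ∀ p ∈ PS r y z ∩ E, g p ≤ d / y := by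
      intro p hp
      obtain ⟨hp1, hp2⟩ := hmem p (Finset.mem_inter.1 hp).1
      have h5 : (r p : ℝ) ≤ d := by
        have : B < p := by
          have : (B : ℝ) < p := by linarith
          exact_mod_cast this
        exact_mod_cast hr p hp1 this
      rw [hg]
      simp only
      gcongr
    have h5 := Finset.sum_le_sum h4
    rw [Finset.sum_const, nsmul_eq_mul] at h5
    refine h5.trans ?_
    have h6 : ((PS r y z ∩ E).card : ℝ) ≤ E.card := by
      exact_mod_cast Finset.card_le_card Finset.inter_subset_right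
    calc ((PS r y z ∩ E).card : ℝ) * (d / y) ≤ E.card * (d / y) := by gcongr
      _ = (d * E.card) / y := by ring
      _ ≤ 1 := by rw [div_le_one hy0]; exact hE
  have h0 : 0 ≤ Fs g ((PS r y z) \ E) x := by
    unfold Fs
    refine Finset.sum_nonneg fun s _ => ?_
    split_ifs
    · exact Finset.prod_nonneg fun p _ => by positivity
    · exact le_rfl
  have h4 : Fs g (PS r y z) x ≤ 3 * Fs g ((PS r y z) \ E) x := by
    refine h2.trans (mul_le_mul_of_nonneg_right ?_ h0)
    have e1 := Real.exp_one_lt_d9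
    have e2 : Real.exp (∑ p ∈ PS r y z ∩ E, g p) ≤ Real.exp 1 := Real.exp_le_exp.mpr h3
    linarith
  rw [Fs_eq g _ hx1, Fs_eq g _ hx1] at h4
  have h5 : c₂ * Real.exp (-C) * (Real.log x / Real.log y) ≤
      c₂ * Real.log x * Real.exp (-(Sg r y)) := by
    have e1 : Real.exp (-C) / Real.log y ≤ Real.exp (-(Sg r y)) := by
      have e2 := (abs_le.1 (hM y hy3)).2
      have e3 : Real.exp (-C) / Real.log y = Real.exp (-C - Real.log (Real.log y)) := by
        rw [Real.exp_sub, Real.exp_log hly]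
      rw [e3]
      exact Real.exp_le_exp.mpr (by linarith)
    calc c₂ * Real.exp (-C) * (Real.log x / Real.log y) =
        c₂ * Real.log x * (Real.exp (-C) / Real.log y) := by ring
      _ ≤ c₂ * Real.log x * Real.exp (-(Sg r y)) := by gcongr
  have h6 : c₂ * Real.exp (-C) / 3 * Real.log x / Real.log y =
      c₂ * Real.exp (-C) * (Real.log x / Real.log y) / 3 := by ring
  rw [h6]
  have hconv : ∑ s ∈ (((PS r y z) \ E).powerset.filter
            (fun s : Finset ℕ => s.Nonempty ∧ ∏ p ∈ s, (p : ℝ) ≤ x)),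
          ∏ p ∈ s, (r p : ℝ) / (p : ℝ) = ∑ s ∈ (((PS r y z) \ E).powerset.filter
            (fun s : Finset ℕ => s.Nonempty ∧ ∏ p ∈ s, (p : ℝ) ≤ x)), ∏ p ∈ s, g p := rfl
  have hconv2 : ∑ s ∈ ((PS r y z).powerset.filter
            (fun s : Finset ℕ => s.Nonempty ∧ ∏ p ∈ s, (p : ℝ) ≤ x)),
          ∏ p ∈ s, (r p : ℝ) / (p : ℝ) = ∑ s ∈ ((PS r y z).powerset.filter
            (fun s : Finset ℕ => s.Nonempty ∧ ∏ p ∈ s, (p : ℝ) ≤ x)), ∏ p ∈ s, g p := rfl
  rw [hconv]
  rw [hconv2] at h1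
  linarith

end Run7.h294.P
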