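import Pool.Agent.Run7.h294.P2
import Pool.Agent.Run7.h294.P4
import Pool.Agent.H474R2.GE.FA
import Pool.Agent.H474R2.PG.Final
import Pool.Agent.Run7.h294.D2

set_option autoImplicit false
set_option linter.unusedSectionVars false

/-! # Composite values of a polynomial at prescribed shifts: one class of the small primes -/

namespace Run7.h294.P

open Finset Filter Polynomial Pool.Agent.H256R2.SC Run7.h294.G Pool.Agent.H474R2.PG
  Pool.Agent.H474R2.GE Run7.h294.D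

open scoped Classical

/-- the resultants of the pairs of shifts -/
noncomputable def badR (R : ℤ[X]) (S : Finset ℤ) : ℕ :=
  ∏ q ∈ S.offDiag, (R.eval (q.2 - q.1)).natAbs

lemma badR_ne {R : ℤ[X]} (hR : ∀ t : ℤ, t ≠ 0 → R.eval t ≠ 0) (S : Finset ℤ) : badR R S ≠ 0 := by
  unfold badR
  refine Finset.prod_ne_zero_iff.2 fun q hq => ?_
  rw [Finset.mem_offDiag] at hq
  rw [Ne, Int.natAbs_eq_zero]
  exact hR _ (fun h => hq.2.2 (by omega))

lemma badR_dvd {R : ℤ[X]} {S : Finset ℤ} {a b : ℤ} (ha : a ∈ S) (hb : b ∈ S) (hab : a ≠ b)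
    {p : ℕ} (h : (p : ℤ) ∣ R.eval (b - a)) : p ∣ badR R S := by
  unfold badR
  refine dvd_trans (Int.natCast_dvd.1 h) ?_
  have hm : ((a, b) : ℤ × ℤ) ∈ S.offDiag := by
    rw [Finset.mem_offDiag]
    exact ⟨ha, hb, hab⟩
  exact Finset.dvd_prod_of_mem (fun q : ℤ × ℤ => (R.eval (q.2 - q.1)).natAbs) hm

lemma badR_le {R : ℤ[X]} {S : Finset ℤ} {Y : ℝ} (h : ∀ a ∈ S, ∀ b ∈ S,
    |((R.eval (b - a) : ℤ) : ℝ)| ≤ Real.exp Y) (hY : 0 ≤ Y) :
    (badR R S : ℝ) ≤ Real.exp ((S.card : ℝ) ^ 2 * Y) := by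
  unfold badR
  push_cast
  have h1 : ∀ q ∈ S.offDiag, ((R.eval (q.2 - q.1)).natAbs : ℝ) ≤ Real.exp Y := by
    intro q hq
    rw [Finset.mem_offDiag] at hq
    rw [Nat.cast_natAbs, Int.cast_abs]
    exact h _ hq.1 _ hq.2.1
  refine (Finset.prod_le_prod (fun q _ => Nat.cast_nonneg _) h1).trans ?_
  rw [Finset.prod_const, ← Real.exp_nat_mul]
  apply Real.exp_le_exp.mpr
  apply mul_le_mul_of_nonneg_right _ hY
  have : S.offDiag.card ≤ S.card * S.card := by
    rw [Finset.offDiag_card]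
    omega
  rw [sq]
  exact_mod_cast this

lemma p5_ev (K₁ T B dd : ℝ) : ∀ᶠ L : ℝ in atTop, T ≤ L ∧ B ≤ L ∧ 2 * K₁ * L ^ 4 * L ≤ L ^ 10 ∧
    10 * Real.log dd ≤ Real.log L ∧ 100 ≤ Real.log L ∧ L ≤ Real.exp (L / 10) ∧
    (1 : ℝ) ≤ Real.exp (L / 4) ∧ 1 ≤ L := by
  have e1 : ∀ᶠ L : ℝ in atTop, L ≤ Real.exp (L / 10) := by
    have h := (Real.tendsto_exp_div_pow_atTop 1).comp
      (tendsto_id.atTop_div_const (show (0:ℝ) < 10 by norm_num)) |>.eventually_ge_atTop 10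
    filter_upwards [h, eventually_gt_atTop 0] with L h1 h2
    simp only [Function.comp, id, pow_one] at h1
    rw [le_div_iff₀ (by positivity)] at h1
    linarith
  filter_upwards [eventually_ge_atTop T, eventually_ge_atTop B, eventually_ge_atTop (2 * |K₁|),
    eventually_ge_atTop (1:ℝ), Real.tendsto_log_atTop.eventually_ge_atTop (10 * Real.log dd),
    Real.tendsto_log_atTop.eventually_ge_atTop 100, e1] with L a1 a2 a3 a4 a5 a6 a7
  refine ⟨a1, a2, ?_, a5, a6, a7, Real.one_le_exp (by linarith), a4⟩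
  have h1 : 2 * K₁ ≤ L := (mul_le_mul_of_nonneg_left (le_abs_self K₁) (by norm_num)).trans a3
  calc 2 * K₁ * L ^ 4 * L ≤ L * L ^ 4 * L := by gcongr
    _ = L ^ 6 := by ring
    _ ≤ L ^ 10 := pow_le_pow_right₀ a4 (by norm_num)

theorem class_poly (f : ℤ[X]) (hf : Irreducible f) (hd : 0 < f.natDegree) (Kk : ℕ) :
    ∃ c₅ C₆ : ℝ, 0 < c₅ ∧ 1 ≤ C₆ ∧
    ∃ L₀ : ℝ, ∀ X : ℕ, L₀ ≤ Real.log X → ∀ m : ℕ,
    2 ^ m * (C₆ * (Real.log (Real.log X)) ^ 2) ≤ Real.log X →
    ∀ S : Finset ℤ, (∀ s ∈ S, |(s : ℝ)| ≤ Real.exp (Kk * Real.log X)) →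
    (S.card : ℝ) ≤ (Real.log X) ^ 2 →
    ∀ (M : ℤ) (W b : ℕ), 1 ≤ W → (W : ℝ) ≤ Real.exp (Real.log X / 4) →
    (∀ p : ℕ, p.Prime → p ∣ W → (p : ℝ) ≤ Real.log X) →
    (((S.filter (fun s => ∀ p ∈ W.primeFactors, ¬ (p : ℤ) ∣ f.eval ((b : ℤ) + s))).card : ℝ) ≤
      c₅ * (m + 1) * Real.log X / Real.log (Real.log X)) →
    (X : ℝ) / W * Real.exp (-(C₆ * ((Real.log (Real.log X)) ^ 2 * 2 ^ m))) ≤
    (((Finset.Ioc M (M + X)).filter (fun a : ℤ => (W : ℤ) ∣ a - b ∧ ∀ s ∈ S, ∃ p : ℕ, p.Prime ∧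
      (p : ℝ) ≤ Real.exp (Real.log X / 10) ∧ (p : ℤ) ∣ f.eval (a + s))).card : ℝ) := by
  obtain ⟨B, hB⟩ := rho_le f hf.ne_zero
  obtain ⟨C, hC0, hM⟩ := mertens_rho f hf hd
  obtain ⟨R, hR0, hRd⟩ := resultant_poly f hf hd
  obtain ⟨KR, hKR1, hKR⟩ := eval_bound R
  obtain ⟨c₅, C₆, L₁, hc5, hc51, hC6, hpar⟩ := params (rho f) f.natDegree B hB C hM 10 le_rfl
  obtain ⟨L₂, hcore⟩ := single_core 10 le_rfl |C|
  set K₁ : ℝ := Real.log KR + R.natDegree * (1 + Kk) with hK₁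
  have hK₁0 : 0 ≤ K₁ := by
    have := Real.log_nonneg hKR1
    positivity
  obtain ⟨L₃, hL₃⟩ := (p5_ev K₁ (max (max L₁ L₂) (21 * |C|)) B f.natDegree).exists_forall_of_atTop
  obtain ⟨L₄, hL₄⟩ := (Real.tendsto_log_atTop.eventually_ge_atTop
    (21 * |C|)).exists_forall_of_atTop
  refine ⟨c₅, C₆ + 108 * (10 + 2), hc5, by linarith, max L₃ L₄, ?_⟩
  intro X hX m hm S hS hSc M W b hW1 hWe hWp hsurv
  obtain ⟨g1, g2, g3, g4, g5, g6, g7, g8⟩ := hL₃ _ ((le_max_left _ _).trans hX)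
  have g9 := hL₄ _ ((le_max_right _ _).trans hX)
  clear hL₃ hL₄ hX
  have gL1 : L₁ ≤ Real.log X := ((le_max_left _ _).trans (le_max_left _ _)).trans g1
  have gL2 : L₂ ≤ Real.log X := ((le_max_right _ _).trans (le_max_left _ _)).trans g1
  have hXpos : (0:ℝ) < X := by
    by_contra hc
    have : (X : ℝ) = 0 := le_antisymm (not_lt.mp hc) (Nat.cast_nonneg _)
    rw [this, Real.log_zero] at g8
    linarith
  have hXe : (X : ℝ) = Real.exp (Real.log X) := (Real.exp_log hXpos).symm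
  generalize hL : Real.log (X : ℝ) = L at *
  have hLpos : 0 < L := by linarith
  have hLl : 0 < Real.log L := by linarith
  have hm' : 2 ^ m * (C₆ * (Real.log L) ^ 2) ≤ L := by
    refine le_trans ?_ hm
    gcongr
    linarith
  -- the excluded primes
  have hbad : ∀ a ∈ S, ∀ a' ∈ S, |((R.eval (a' - a) : ℤ) : ℝ)| ≤ Real.exp (K₁ * L) := by
    intro a ha a' ha'
    have h1 : |(((a' - a : ℤ)) : ℝ)| ≤ 2 * Real.exp (Kk * L) := by
      push_cast
      calc |(a' : ℝ) - a| ≤ |(a' : ℝ)| + |(a : ℝ)| := abs_sub _ _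
        _ ≤ _ := by linarith [hS a ha, hS a' ha']
    have h2 : 2 * Real.exp (Kk * L) ≤ Real.exp ((1 + Kk) * L) := by
      have e1 : (2:ℝ) ≤ Real.exp L := by
        have := Real.add_one_le_exp L
        linarith
      calc 2 * Real.exp (Kk * L) ≤ Real.exp L * Real.exp (Kk * L) := by gcongr
        _ = Real.exp ((1 + Kk) * L) := by rw [← Real.exp_add]; congr 1; ring
    have h3 := hKR (a' - a) (Real.exp ((1 + Kk) * L)) (Real.one_le_exp (by positivity))
      (h1.trans h2)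
    refine h3.trans ?_
    rw [← Real.exp_nat_mul]
    have e1 : KR = Real.exp (Real.log KR) := (Real.exp_log (by linarith)).symm
    rw [e1, ← Real.exp_add]
    apply Real.exp_le_exp.mpr
    rw [hK₁]
    have e2 : Real.log KR * 1 ≤ Real.log KR * L :=
      mul_le_mul_of_nonneg_left g8 (Real.log_nonneg hKR1)
    have e3 : (Real.log KR + (R.natDegree : ℝ) * (1 + Kk)) * L =
        Real.log KR * L + (R.natDegree : ℝ) * ((1 + Kk) * L) := by ring
    rw [e3]
    linarith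
  have hEc : (((badR R S).primeFactors.card : ℕ) : ℝ) ≤ L ^ 10 := by
    have h1 := primeFactors_card_le (badR_ne hR0 S) (badR_le hbad (by positivity))
    have h2 : (S.card : ℝ) ^ 2 ≤ (L ^ 2) ^ 2 := pow_le_pow_left₀ (Nat.cast_nonneg _) hSc 2
    calc (((badR R S).primeFactors.card : ℕ) : ℝ) ≤ 2 * ((S.card : ℝ) ^ 2 * (K₁ * L)) := h1
      _ ≤ 2 * ((L ^ 2) ^ 2 * (K₁ * L)) := by gcongr
      _ = 2 * K₁ * L ^ 4 * L := by ring
      _ ≤ L ^ 10 := g3
  obtain ⟨PP, h, hPP, K, hmm, P, T1, T2, hG, hn, hUL⟩ := hpar L gL1 g5 g9 m hm' _ hEc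
  set Rs := S.filter (fun s => ∀ p ∈ W.primeFactors, ¬ (p : ℤ) ∣ f.eval ((b : ℤ) + s)) with hRs
  have hWR : (0:ℝ) < W := by exact_mod_cast hW1
  set 𝒜 : Finset ℤ := (Finset.Ioc M (M + X)).filter (fun a : ℤ => (W : ℤ) ∣ a - b) with h𝒜
  have hMX : M ≤ M + (X : ℤ) := by
    have : (0:ℤ) ≤ (X : ℤ) := Nat.cast_nonneg _
    omega
  have hNge : Real.exp (L / 2) ≤ (X : ℝ) / W := by
    rw [le_div_iff₀ hWR]
    calc Real.exp (L / 2) * W ≤ Real.exp (L / 2) * Real.exp (L / 4) :=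
          mul_le_mul_of_nonneg_left hWe (Real.exp_pos _).le
      _ = Real.exp (3 / 4 * L) := by rw [← Real.exp_add]; congr 1; ring
      _ ≤ X := by rw [hXe]; exact Real.exp_le_exp.mpr (by linarith)
  -- from covered survivors to all the shifts
  have hfin : ∀ a ∈ 𝒜, (∀ k ∈ Rs, ∃ p : ℕ, p.Prime ∧ (p : ℝ) ≤ Real.exp (L / 10) ∧
      (p : ℤ) ∣ f.eval (a + k)) → a ∈ (Finset.Ioc M (M + X)).filter (fun a : ℤ =>
      (W : ℤ) ∣ a - b ∧ ∀ s ∈ S, ∃ p : ℕ, p.Prime ∧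
      (p : ℝ) ≤ Real.exp (L / 10) ∧ (p : ℤ) ∣ f.eval (a + s)) := by
    intro a ha hcov
    rw [h𝒜, Finset.mem_filter] at ha
    rw [Finset.mem_filter]
    refine ⟨ha.1, ha.2, fun s hs => ?_⟩
    by_cases hsR : s ∈ Rs
    · exact hcov s hsR
    · rw [hRs, Finset.mem_filter, not_and] at hsR
      have h1 := hsR hs
      push Not at h1
      obtain ⟨p, hp, hpd⟩ := h1
      have hpp := Nat.prime_of_mem_primeFactors hp
      have hpW := Nat.dvd_of_mem_primeFactors hp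
      refine ⟨p, hpp, (hWp p hpp hpW).trans g6, ?_⟩
      have h2 : (p : ℤ) ∣ (a + s) - ((b : ℤ) + s) := by
        have e : (a + s) - ((b : ℤ) + s) = a - b := by ring
        rw [e]
        exact dvd_trans (by exact_mod_cast hpW) ha.2
      exact (eval_dvd_congr f p _ _ h2).2 hpd
  have hexp0 : 0 ≤ Real.log L ^ 2 * 2 ^ m := by positivity
  rcases Rs.eq_empty_or_nonempty with hemp | hne
  · have h1 := count_ap M (M + X) hMX W hW1 b
    rw [← h𝒜] at h1
    have h2 := (abs_le.mp h1).1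
    have h3 : 𝒜 ⊆ (Finset.Ioc M (M + X)).filter (fun a : ℤ =>
      (W : ℤ) ∣ a - b ∧ ∀ s ∈ S, ∃ p : ℕ, p.Prime ∧
      (p : ℝ) ≤ Real.exp (L / 10) ∧ (p : ℤ) ∣ f.eval (a + s)) := fun a ha =>
      hfin a ha (fun k hk => by rw [hemp] at hk; exact absurd hk (Finset.notMem_empty k))
    have h4 := (Nat.cast_le (α := ℝ)).2 (Finset.card_le_card h3)
    refine le_trans ?_ h4
    push_cast at h2
    have h5 : (2:ℝ) ≤ (X : ℝ) / W := by
      refine le_trans ?_ hNge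
      have e0 : 100 < L := by
        have := Real.add_one_le_exp (Real.log L)
        rw [Real.exp_log hLpos] at this
        linarith
      have := Real.add_one_le_exp (L / 2)
      linarith
    have h6 : Real.exp (-((C₆ + 108 * (10 + 2)) * (Real.log L ^ 2 * 2 ^ m))) ≤ 1 / 2 := by
      have e1 : (1:ℝ) ≤ (C₆ + 108 * (10 + 2)) * (Real.log L ^ 2 * 2 ^ m) := by
        have e2 : (1:ℝ) ≤ Real.log L ^ 2 * 2 ^ m :=
          one_le_mul_of_one_le_of_one_le (one_le_pow₀ (by linarith)) (one_le_pow₀ (by norm_num))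
        exact one_le_mul_of_one_le_of_one_le (by linarith) e2
      have e3 : Real.exp (-((C₆ + 108 * (10 + 2)) * (Real.log L ^ 2 * 2 ^ m))) ≤
          Real.exp (-1) := Real.exp_le_exp.mpr (by linarith)
      refine e3.trans ?_
      rw [Real.exp_neg, ← one_div]
      apply one_div_le_one_div_of_le (by norm_num)
      have := Real.add_one_le_exp (1:ℝ)
      linarith
    have h7 : (X : ℝ) / W * Real.exp (-((C₆ + 108 * (10 + 2)) * (Real.log L ^ 2 * 2 ^ m))) ≤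
        (X : ℝ) / W * (1 / 2) := mul_le_mul_of_nonneg_left h6 (by linarith)
    have h8 : ((M : ℝ) + X - M) / W = (X : ℝ) / W := by congr 1; ring
    rw [h8] at h2
    linarith
  · have : Nonempty (↥Rs) := hne.to_subtype
    set hit : ℕ → ℤ → (↥Rs) → Prop := fun p a k => (p : ℤ) ∣ f.eval (a + (k : ℤ)) with hhit
    have huniq : ∀ p ∈ PP, ∀ a (k k' : ↥Rs), hit p a k → hit p a k' → k = k' := by
      intro p hp a k k' h1 h2
      by_contra hne'
      have hkk : (k : ℤ) ≠ (k' : ℤ) := fun h => hne' (Subtype.ext h)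
      have h3 := hRd (a + (k : ℤ)) ((k' : ℤ) - k) p h1 (by
        have e : a + (k : ℤ) + ((k' : ℤ) - k) = a + k' := by ring
        rw [e]
        exact h2)
      have h4 := badR_dvd (Finset.mem_filter.1 k.2).1 (Finset.mem_filter.1 k'.2).1 hkk h3
      exact (hPP p hp).2.2.2.1 (Nat.mem_primeFactors.2 ⟨(hPP p hp).1, h4, badR_ne hR0 S⟩)
    have hcnt : Cnt (pp PP) (gr (rho f) PP) (colh PP hit) 𝒜 ((X : ℝ) / W) (Real.exp (L / 10))
        (Real.exp (L / 4)) := by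
      intro D' hq
      have hT : ∀ p ∈ TT PP D', p.Prime ∧ L ^ 11 < (p : ℝ) := fun p hp =>
        ⟨(hPP p (TT_mem hp)).1, (hPP p (TT_mem hp)).2.1⟩
      have hTW : ∀ p ∈ TT PP D', p.Prime ∧ ¬ p ∣ W := fun p hp => ⟨(hT p hp).1, fun hd' => by
        have h1 := hWp p (hT p hp).1 hd'
        have h2 := (hT p hp).2
        have h3 : L ≤ L ^ 11 := le_self_pow₀ g8 (by norm_num)
        linarith⟩
      have h1 := count_class f M (M + X) hMX W hW1 b (TT PP D') hTW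
        (fun p => ((sT PP D' p : ↥Rs) : ℤ))
      have hTX : ∏ p ∈ TT PP D', (p : ℝ) ≤ Real.exp (1 / 4 * L) := by
        rw [TT_prod]
        refine hq.trans (le_of_eq ?_)
        congr 1
        ring
      have hL1 : 1 < L := by
        have := Real.add_one_le_exp (Real.log L)
        rw [Real.exp_log hLpos] at this
        linarith
      have h2 := h1.trans (err_le f f.natDegree B 11 hd (by norm_num) hB L hL1 g2 g4
        (TT PP D') hT hTX)
      have e1 : 𝒜.filter (fun x => ∀ i, D' i ≠ none → colh PP hit x i = D' i) =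
          (Finset.Ioc M (M + X)).filter (fun a : ℤ => (W : ℤ) ∣ a - b ∧
            ∀ p ∈ TT PP D', (p : ℤ) ∣ f.eval (a + ((sT PP D' p : ↥Rs) : ℤ))) := by
        rw [h𝒜, Finset.filter_filter]
        apply Finset.filter_congr
        intro x _
        rw [event_iff' huniq D' x]
      have e2 : nu (gr (rho f) PP) D' = ∏ p ∈ TT PP D', (rho f p : ℝ) / (p : ℝ) :=
        (TT_nu PP (fun p => (rho f p : ℝ) / (p : ℝ)) D').symm
      rw [e1, e2]
      push_cast at h2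
      have e3 : ((M : ℝ) + X - M) / W = (X : ℝ) / W := by congr 1; ring
      have e4 : (1:ℝ) / 10 * L = L / 10 := by ring
      rw [e3, e4] at h2
      convert h2
    have key := hcore L gL2 m c₅ PP.card (pp PP) (gr (rho f) PP) h K hmm P T1 T2 hG hn hUL
      (↥Rs) (colh PP hit) 𝒜 ((X : ℝ) / W) hNge (by rw [Fintype.card_coe]; exact hsurv) hcnt
    have hsub : (𝒜.filter (fun x => ∀ k : ↥Rs, ∃ i, colh PP hit x i = some k)) ⊆
        (Finset.Ioc M (M + X)).filter (fun a : ℤ =>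
      (W : ℤ) ∣ a - b ∧ ∀ s ∈ S, ∃ p : ℕ, p.Prime ∧
      (p : ℝ) ≤ Real.exp (L / 10) ∧ (p : ℤ) ∣ f.eval (a + s)) := by
      intro a ha
      rw [Finset.mem_filter] at ha
      refine hfin a ha.1 (fun k hk => ?_)
      obtain ⟨i, hi⟩ := ha.2 ⟨k, hk⟩
      rw [colh_eq huniq] at hi
      obtain ⟨h1, _, h3, _⟩ := hPP _ (emb_mem PP i)
      exact ⟨emb PP i, h1, h3, hi⟩
    have h4 := (Nat.cast_le (α := ℝ)).2 (Finset.card_le_card hsub)
    refine le_trans (le_trans ?_ key) h4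
    apply mul_le_mul_of_nonneg_left _ (by positivity)
    apply Real.exp_le_exp.mpr
    have e1 : 0 ≤ C₆ * (Real.log L ^ 2 * 2 ^ m) := by positivity
    have e2 : (C₆ + 108 * (10 + 2)) * (Real.log L ^ 2 * 2 ^ m) =
        C₆ * (Real.log L ^ 2 * 2 ^ m) + 108 * (10 + 2) * (Real.log L ^ 2 * 2 ^ m) := by ring
    rw [e2]
    push_cast
    linarith

end Run7.h294.P
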