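import Pool.Agent.Run7.h294.S4

set_option autoImplicit false
set_option linter.unusedSectionVars false

/-! # Least primes in all the classes `± h a`: the main theorem -/

namespace Run7.h294.S

open Finset Filter Run7.h294.G Run7.h294.H Run7.h294.D Pool.Agent.H318R2.Cr

open scoped Classical

/-- the numbers of the classes -/
lemma m_bound {A Sg L l s c₂ c₅ φ W φW d K lam R : ℝ} (hA : 0 ≤ A) (hSg : 0 ≤ Sg) (hl : 0 < l)
    (hL : 0 < L) (hs : 1 ≤ s) (hd : 0 < d) (hW : 0 < W) (hφW : φW ≤ W) (hφW0 : 0 ≤ φW)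
    (hφ0 : 0 ≤ φ) (hc5 : 0 < c₅) (hc2 : 0 < c₂)
    (h1 : φW * φ * (l / 20) ≤ c₂ * (W * d)) (h2 : 12 * s * l ≤ 160 * c₂ * L)
    (hK : K = 160 * c₂ / c₅ + 1) (hlam : lam = (A + 1) * Sg) {m : ℝ} (hm : K * lam ≤ m)
    (hR : R ≤ A * φ / d * L + s) :
    4 * φW * ((2 * R + 1) * Sg) ≤ W * (c₅ * (m + 1) * L / l) := by
  have hlam0 : 0 ≤ lam := by rw [hlam]; positivity
  have e1 : 160 * c₂ * lam ≤ c₅ * (m + 1) := by
    have g1 : c₅ * K = 160 * c₂ + c₅ := by rw [hK]; field_simp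
    have g2 : c₅ * (K * lam) ≤ c₅ * (m + 1) := mul_le_mul_of_nonneg_left (by linarith) hc5.le
    have g3 : c₅ * (K * lam) = 160 * c₂ * lam + c₅ * lam := by rw [← mul_assoc, g1]; ring
    have g4 : 0 ≤ c₅ * lam := by positivity
    linarith
  have e2 : φW * (φ / d) ≤ 20 * c₂ * W / l := by
    rw [← mul_div_assoc, div_le_div_iff₀ hd hl]
    calc φW * φ * l = 20 * (φW * φ * (l / 20)) := by ring
      _ ≤ 20 * (c₂ * (W * d)) := by linarith
      _ = 20 * c₂ * W * d := by ring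
  have e3 : 12 * s ≤ 160 * c₂ * L / l := by rw [le_div_iff₀ hl]; exact h2
  have e4 : (2 * R + 1) ≤ 2 * (A * φ / d * L) + 3 * s := by linarith
  calc 4 * φW * ((2 * R + 1) * Sg) ≤ 4 * φW * ((2 * (A * φ / d * L) + 3 * s) * Sg) := by
        gcongr
    _ = 8 * A * L * Sg * (φW * (φ / d)) + φW * (12 * s) * Sg := by
        have : A * φ / d = A * (φ / d) := by ring
        rw [this]; ring
    _ ≤ 8 * A * L * Sg * (20 * c₂ * W / l) + W * (160 * c₂ * L / l) * Sg := by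
        gcongr
    _ = W * ((160 * c₂ * ((A + 1) * Sg)) * L / l) := by
        field_simp
        ring
    _ ≤ W * (c₅ * (m + 1) * L / l) := by
        rw [← hlam]
        gcongr

lemma sq_le_exp' {L : ℝ} (hL : 640 ≤ L) : L ^ 2 ≤ Real.exp L := by
  have h2 := Real.quadratic_le_exp_of_nonneg (x := L / 2) (by linarith)
  have e : (L / 2) ^ 2 / 2 = L ^ 2 / 8 := by ring
  rw [e] at h2
  have h0 : 0 ≤ L ^ 2 / 8 := by positivity
  have h3 : L ^ 2 / 8 ≤ Real.exp (L / 2) := by linarith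
  have h4 : 8 ≤ Real.exp (L / 2) := by linarith
  calc L ^ 2 = L ^ 2 / 8 * 8 := by ring
    _ ≤ Real.exp (L / 2) * Real.exp (L / 2) := by
        apply mul_le_mul h3 h4 (by norm_num) (Real.exp_pos _).le
    _ = Real.exp L := by rw [← Real.exp_add, add_halves]

lemma fin_num {L P φ d E : ℝ} (hL : 640 ≤ L) (hP : P = Real.exp (L / 10)) (hLP : L ≤ P)
    (hφ : 0 < φ) (hd : d = Real.exp L) (htot : d ≤ φ * (2 * (1 + L)))
    (f5 : 6 * L ^ 2 * Real.exp (L / 10) ≤ Real.exp (L / 8)) (hE : Real.exp (-(L / 32)) ≤ E) :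
    L ^ 2 * (2 * P + 3) ≤ φ / 8 * E := by
  have e1 : L ^ 2 * (2 * P + 3) ≤ 6 * L ^ 2 * P := by
    have h3 : 2 * P + 3 ≤ 6 * P := by linarith
    have h2 : 0 ≤ L ^ 2 := by positivity
    calc L ^ 2 * (2 * P + 3) ≤ L ^ 2 * (6 * P) := mul_le_mul_of_nonneg_left h3 h2
      _ = 6 * L ^ 2 * P := by ring
  have e2 : 6 * L ^ 2 * P ≤ Real.exp (L / 8) := by rw [hP]; exact f5
  have e3 : 32 * L ≤ Real.exp (L / 2) := by
    have h2 := Real.quadratic_le_exp_of_nonneg (x := L / 2) (by linarith)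
    have e : (L / 2) ^ 2 / 2 = L * L / 8 := by ring
    rw [e] at h2
    have h3 : 640 * L ≤ L * L := mul_le_mul_of_nonneg_right hL (by linarith)
    linarith
  have e4 : Real.exp L ≤ 4 * L * φ := by
    rw [← hd]
    refine htot.trans ?_
    have h3 : 2 * (1 + L) ≤ 4 * L := by linarith
    calc φ * (2 * (1 + L)) ≤ φ * (4 * L) := mul_le_mul_of_nonneg_left h3 hφ.le
      _ = 4 * L * φ := by ring
  have e5 : Real.exp (L / 8) * Real.exp (L / 2) * Real.exp (L / 32) ≤ Real.exp L := by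
    rw [← Real.exp_add, ← Real.exp_add]
    exact Real.exp_le_exp.mpr (by linarith)
  have e6 : Real.exp (L / 8) * (32 * L) * Real.exp (L / 32) ≤ 4 * L * φ := by
    refine le_trans ?_ (e5.trans e4)
    gcongr
  have e7 : Real.exp (L / 8) * Real.exp (L / 32) ≤ φ / 8 := by
    have h1 : (32 * L) * (Real.exp (L / 8) * Real.exp (L / 32)) ≤ (32 * L) * (φ / 8) := by
      calc (32 * L) * (Real.exp (L / 8) * Real.exp (L / 32)) =
          Real.exp (L / 8) * (32 * L) * Real.exp (L / 32) := by ring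
        _ ≤ 4 * L * φ := e6
        _ = (32 * L) * (φ / 8) := by ring
    exact le_of_mul_le_mul_left h1 (by linarith)
  have e8 : Real.exp (L / 32) * Real.exp (-(L / 32)) = 1 := by
    rw [← Real.exp_add]; simp
  calc L ^ 2 * (2 * P + 3) ≤ Real.exp (L / 8) := e1.trans e2
    _ = Real.exp (L / 8) * Real.exp (L / 32) * Real.exp (-(L / 32)) := by
        rw [mul_assoc, e8, mul_one]
    _ ≤ φ / 8 * E := mul_le_mul e7 hE (Real.exp_pos _).le (by positivity)

lemma fin_exp {C₆ K lam l φ E : ℝ} {m : ℕ} (hC6 : 1 ≤ C₆) (hK1 : 1 ≤ K) (hlam0 : 0 ≤ lam)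
    (hφ0 : 0 < φ) (hl400 : 400 ≤ l ^ 2) (h2m : (2:ℝ) ^ m ≤ 2 * Real.exp (K * lam))
    (hE : E = Real.exp (-(C₆ * (l ^ 2 * 2 ^ m)))) :
    φ * Real.exp (-((2 * C₆ + 3 + K) * Real.exp ((2 * C₆ + 3 + K) * lam) * l ^ 2)) ≤
      φ / 8 * E := by
  have e1 : Real.exp 3 ≥ 8 := by
    have h1 := Real.quadratic_le_exp_of_nonneg (x := 3) (by norm_num)
    norm_num at h1
    linarith
  have e2 : Real.exp (-3) ≤ 1 / 8 := by
    rw [Real.exp_neg, ← one_div]
    exact one_div_le_one_div_of_le (by norm_num) e1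
  have e3 : C₆ * (l ^ 2 * 2 ^ m) + 3 ≤
      (2 * C₆ + 3 + K) * Real.exp ((2 * C₆ + 3 + K) * lam) * l ^ 2 := by
    have g1 : Real.exp (K * lam) ≤ Real.exp ((2 * C₆ + 3 + K) * lam) :=
      Real.exp_le_exp.mpr (mul_le_mul_of_nonneg_right (by linarith) hlam0)
    have g2 : 1 ≤ Real.exp ((2 * C₆ + 3 + K) * lam) := Real.one_le_exp (by positivity)
    obtain ⟨Q, hQ⟩ : ∃ Q, Q = Real.exp ((2 * C₆ + 3 + K) * lam) := ⟨_, rfl⟩
    rw [← hQ] at g1 g2 ⊢
    have g3 : (2:ℝ) ^ m ≤ 2 * Q := by linarith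
    have g4 : C₆ * (l ^ 2 * 2 ^ m) ≤ C₆ * (l ^ 2 * (2 * Q)) := by gcongr
    have g5 : (1:ℝ) * 1 ≤ Q * l ^ 2 := by
      apply mul_le_mul g2 (by linarith) (by norm_num) (by linarith)
    have g6 : 0 ≤ K * Q * l ^ 2 := by positivity
    calc C₆ * (l ^ 2 * 2 ^ m) + 3 ≤ C₆ * (l ^ 2 * (2 * Q)) + 3 * (Q * l ^ 2) + K * Q * l ^ 2 := by
          linarith
      _ = (2 * C₆ + 3 + K) * Q * l ^ 2 := by ring
  calc φ * Real.exp (-((2 * C₆ + 3 + K) * Real.exp ((2 * C₆ + 3 + K) * lam) * l ^ 2))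
      ≤ φ * Real.exp (-3 + -(C₆ * (l ^ 2 * 2 ^ m))) := by
        gcongr
        linarith
    _ = φ * (Real.exp (-3) * E) := by rw [Real.exp_add, hE]
    _ ≤ φ * (1 / 8 * E) := by
        have : 0 ≤ E := by rw [hE]; exact (Real.exp_pos _).le
        gcongr
    _ = φ / 8 * E := by ring

theorem main_t : ∃ c C : ℝ, 0 < c ∧ 0 < C ∧ ∃ d₀ : ℕ, ∀ d : ℕ, d₀ ≤ d → ∀ A : ℝ, 0 ≤ A →
    ∀ H : Finset (ℕ × ℕ), (∀ z ∈ H, 1 ≤ z.1 ∧ (z.1 : ℝ) ^ 2 ≤ Real.log d ∧ z.2 < d) →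
    (A + 1) * ∑ z ∈ H, (z.1 : ℝ) / z.1.totient ≤ c * Real.log (Real.log d) →
    (d.totient : ℝ) * Real.exp (-(C * Real.exp (C * ((A + 1) *
      ∑ z ∈ H, (z.1 : ℝ) / z.1.totient)) * (Real.log (Real.log d)) ^ 2)) ≤
      (((Finset.range d).filter (fun a : ℕ => a.Coprime d ∧ ∀ z ∈ H, ∀ n : ℤ,
        n ≡ (z.1 : ℤ) * a + z.2 [ZMOD (d : ℤ)] → |(n : ℝ)| ≤ A * d.totient * Real.log d →
          ¬ n.natAbs.Prime)).card : ℝ) := by
  obtain ⟨c₅, C₆, hc5, hC6, L₀, hstep⟩ := class_single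
  obtain ⟨c₁, c₂, hc1, hc12, hV⟩ := cz_bounds
  have hc2 : 0 < c₂ := by linarith
  obtain ⟨K, hK⟩ : ∃ K : ℝ, K = 160 * c₂ / c₅ + 1 := ⟨_, rfl⟩
  have hK1 : 1 ≤ K := by
    have : 0 ≤ 160 * c₂ / c₅ := by positivity
    linarith
  obtain ⟨l₀, hl₀⟩ := (s4_ev C₆ c₂ hc2).exists_forall_of_atTop
  have hev : ∀ᶠ X : ℕ in atTop, L₀ ≤ Real.log X ∧ l₀ ≤ Real.log (Real.log X) := by
    have t1 : Tendsto (fun X : ℕ => Real.log X) atTop atTop :=
      Real.tendsto_log_atTop.comp tendsto_natCast_atTop_atTop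
    exact (t1.eventually_ge_atTop L₀).and ((Real.tendsto_log_atTop.comp t1).eventually_ge_atTop l₀)
  obtain ⟨X₂, hX₂⟩ := hev.exists_forall_of_atTop
  refine ⟨1 / (2 * K), 2 * C₆ + 3 + K, by positivity, by linarith, max X₂ 2, ?_⟩
  intro d hd A hA H hH hlam'
  obtain ⟨hLL, hll⟩ := hX₂ d ((le_max_left _ _).trans hd)
  have hd2 : 2 ≤ d := (le_max_right _ _).trans hd
  have hdpos : (0:ℝ) < d := by exact_mod_cast (by omega : 0 < d)
  obtain ⟨f1, f2, f3, f5⟩ := hl₀ _ hll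
  have hXe : (d : ℝ) = Real.exp (Real.log d) := (Real.exp_log hdpos).symm
  have hst := hstep d hLL
  have htotlow := tot_low d (by omega)
  clear hX₂ hl₀ hev hstep
  obtain ⟨L, hL⟩ : ∃ L, L = Real.log d := ⟨_, rfl⟩
  obtain ⟨l, hl⟩ : ∃ l, l = Real.log L := ⟨_, rfl⟩
  rw [← hL] at hst hLL hll hlam' hXe htotlow f1 f2 f3 f5 hH ⊢
  rw [← hl] at hst hll hlam' f1 f2 f3 f5 ⊢
  have hl0 : 0 < l := by linarith
  have hLpos : 0 < L := by
    rw [hL]
    exact Real.log_pos (by exact_mod_cast (by omega : 1 < d))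
  have hLexp : L = Real.exp l := by rw [hl]; exact (Real.exp_log hLpos).symm
  rw [← hLexp] at f2 f5
  obtain ⟨s, hs⟩ : ∃ s, s = Real.exp (l / 2) := ⟨_, rfl⟩
  rw [← hs] at f2 f3
  have hss : s * s = L := by rw [hs, ← Real.exp_add, add_halves, hLexp]
  have hs1 : 1 ≤ s := by rw [hs]; exact Real.one_le_exp (by linarith)
  have hs0 : 0 < s := by linarith
  have hsL : s ≤ L := by rw [← hss]; exact le_mul_of_one_le_left hs0.le hs1
  have hs4 : 4 * s + 1 ≤ 3 * L := by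
    have h1 : 4 ≤ s := by
      rw [hs]
      have := Real.add_one_le_exp (l / 2)
      linarith
    have h2 : 4 * s ≤ L := by rw [← hss]; exact mul_le_mul_of_nonneg_right h1 hs0.le
    linarith
  have hl2 : 20 * l ≤ l ^ 2 := by rw [sq]; exact mul_le_mul_of_nonneg_right f1 hl0.le
  have hl400 : 400 ≤ l ^ 2 := by linarith
  have hl2L : 64 * l ^ 2 ≤ L := by
    have e1 : 1 * l ^ 2 * 1 ≤ C₆ * l ^ 2 * s := by gcongr
    have e2 : 2 * C₆ * l ^ 2 * s = 2 * (C₆ * l ^ 2 * s) := by ring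
    linarith
  have hL640 : 640 ≤ L := by linarith
  -- the parameter
  obtain ⟨Sg, hSg⟩ : ∃ Sg : ℝ, Sg = ∑ z ∈ H, (z.1 : ℝ) / z.1.totient := ⟨_, rfl⟩
  obtain ⟨lam, hlam⟩ : ∃ lam : ℝ, lam = (A + 1) * Sg := ⟨_, rfl⟩
  rw [← hSg, ← hlam] at hlam' ⊢
  have hHc : (H.card : ℝ) ≤ Sg := by
    rw [hSg]
    have : (H.card : ℝ) = ∑ h ∈ H, (1:ℝ) := by simp
    rw [this]
    refine Finset.sum_le_sum fun h hh => ?_
    have h1 := (hH h hh).1
    have h2 : 0 < h.1.totient := Nat.totient_pos.2 h1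
    rw [le_div_iff₀ (by exact_mod_cast h2), one_mul]
    exact_mod_cast Nat.totient_le h.1
  have hSg0 : 0 ≤ Sg := le_trans (Nat.cast_nonneg _) hHc
  have hlam0 : 0 ≤ lam := by rw [hlam]; positivity
  have hKl : K * lam ≤ l / 2 := by
    have : K * lam ≤ K * (1 / (2 * K) * l) := mul_le_mul_of_nonneg_left hlam' (by linarith)
    have e : K * (1 / (2 * K) * l) = l / 2 := by field_simp
    linarith
  have hlaml : lam ≤ l / 2 := by
    have : 1 * lam ≤ K * lam := mul_le_mul_of_nonneg_right hK1 hlam0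
    linarith
  -- `m`
  obtain ⟨m, hm⟩ : ∃ m : ℕ, m = ⌈K * lam⌉₊ := ⟨_, rfl⟩
  obtain ⟨hm1, h2m⟩ := m_facts (C₃ := K) (μ := lam) (by positivity) m hm
  have h2m1 : (1:ℝ) ≤ 2 ^ m := one_le_pow₀ (by norm_num)
  have h2m' : (2:ℝ) ^ m ≤ 2 * s := by
    refine h2m.trans ?_
    rw [hs]
    gcongr
  have hexpo : C₆ * (l ^ 2 * 2 ^ m) ≤ L / 32 := by
    calc C₆ * (l ^ 2 * 2 ^ m) ≤ C₆ * (l ^ 2 * (2 * s)) := by gcongr
      _ = 2 * C₆ * l ^ 2 * s := by ring
      _ ≤ L / 32 := f2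
  have hcond : 2 ^ m * (C₆ * l ^ 2) ≤ L := by
    calc 2 ^ m * (C₆ * l ^ 2) = C₆ * (l ^ 2 * 2 ^ m) := by ring
      _ ≤ L := by linarith
  -- `R`
  obtain ⟨φ, hφ⟩ : ∃ φ : ℝ, φ = (d.totient : ℝ) := ⟨_, rfl⟩
  have hφ0 : 0 < φ := by rw [hφ]; exact_mod_cast Nat.totient_pos.2 (by omega)
  have hφd : φ ≤ d := by rw [hφ]; exact_mod_cast Nat.totient_le d
  obtain ⟨R, hR⟩ : ∃ R : ℕ, R = ⌊A * φ / d * L + 2 * s⌋₊ := ⟨_, rfl⟩
  have hR1 : (R : ℝ) ≤ A * φ / d * L + 2 * s := by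
    rw [hR]; exact Nat.floor_le (by positivity)
  have hR2 : A * φ * L / d + 2 * s < R + 1 := by
    rw [hR]
    have := Nat.lt_floor_add_one (A * φ / d * L + 2 * s)
    have e : A * φ * L / d = A * φ / d * L := by ring
    rw [e]
    exact this
  have hφd1 : φ / d ≤ 1 := by rw [div_le_one hdpos]; exact hφd
  have hR3 : (R : ℝ) ≤ A * L + 2 * s := by
    refine hR1.trans ?_
    have : A * φ / d = A * (φ / d) := by ring
    rw [this]
    have : A * (φ / d) * L ≤ A * 1 * L := by gcongr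
    linarith
  have hMle : (2 * (R : ℝ) + 1) * Sg ≤ 3 * L * lam := by
    have e1 : 2 * (R : ℝ) + 1 ≤ 3 * L * (A + 1) := by
      have h1 : 0 ≤ A * L := mul_nonneg hA hLpos.le
      have h2 : 3 * L * (A + 1) = 3 * (A * L) + 3 * L := by ring
      rw [h2]
      linarith
    calc (2 * (R : ℝ) + 1) * Sg ≤ (3 * L * (A + 1)) * Sg := mul_le_mul_of_nonneg_right e1 hSg0
      _ = 3 * L * lam := by rw [hlam]; ring
  have hLam2 : 3 * L * lam ≤ L ^ 2 := by
    have e1 : 3 * lam ≤ L := by linarith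
    calc 3 * L * lam = L * (3 * lam) := by ring
      _ ≤ L * L := mul_le_mul_of_nonneg_left e1 hLpos.le
      _ = L ^ 2 := by ring
  -- the forms
  obtain ⟨F, hF⟩ : ∃ F, F = forms d H R := ⟨_, rfl⟩
  have hFc : (F.card : ℝ) ≤ L ^ 2 := by
    have h1 := forms_card d H R
    rw [← hF] at h1
    calc (F.card : ℝ) ≤ H.card * (2 * R + 1) := h1
      _ ≤ Sg * (2 * R + 1) := by gcongr
      _ = (2 * (R : ℝ) + 1) * Sg := by ring
      _ ≤ L ^ 2 := hMle.trans hLam2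
  have hF1 : ∀ t ∈ F, 1 ≤ t.1 ∧ (t.1 : ℝ) ≤ s ∧ |(t.2 : ℝ)| ≤ Real.exp (2 * L) := by
    intro t ht
    rw [hF, mem_forms] at ht
    obtain ⟨⟨h, r⟩, hh, j, hj1, hj2, rfl⟩ := ht
    obtain ⟨g1, g2, grd⟩ := hH _ hh
    simp only at g1 g2 grd
    have g3 : (h : ℝ) ≤ s := by
      rw [← hss, ← sq] at g2
      exact (sq_le_sq₀ (Nat.cast_nonneg _) hs0.le).1 g2
    refine ⟨g1, g3, ?_⟩
    simp only
    push_cast
    have g4 : |(j : ℝ)| ≤ R := by
      rw [abs_le]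
      constructor
      · exact_mod_cast hj1
      · exact_mod_cast hj2
    have g5 : (1:ℝ) ≤ Sg := by
      refine le_trans ?_ hHc
      have : 0 < H.card := Finset.card_pos.2 ⟨(h, r), hh⟩
      exact_mod_cast this
    have grd' : (r : ℝ) ≤ d := by exact_mod_cast grd.le
    have g6 : A + 1 ≤ lam := by
      rw [hlam]
      exact le_mul_of_one_le_right (by linarith) g5
    have g7 : (R : ℝ) + 1 ≤ L ^ 2 := by
      have k1 : L * 1 ≤ L * lam := mul_le_mul_of_nonneg_left (by linarith) hLpos.le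
      calc (R : ℝ) + 1 ≤ A * L + 2 * s + 1 := by linarith
        _ ≤ (A + 1) * L + L := by linarith
        _ ≤ lam * L + L := by
            have := mul_le_mul_of_nonneg_right g6 hLpos.le
            linarith
        _ ≤ 3 * L * lam := by linarith
        _ ≤ L ^ 2 := hLam2
    have g8 : L ^ 2 ≤ Real.exp L := sq_le_exp' hL640
    calc |(r : ℝ) + j * d| ≤ |(r : ℝ)| + |(j : ℝ) * d| := abs_add_le _ _
      _ = (r : ℝ) + |(j : ℝ)| * d := by
          rw [abs_of_nonneg (show (0:ℝ) ≤ (r : ℝ) from Nat.cast_nonneg _), abs_mul,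
            abs_of_pos hdpos]
      _ ≤ 1 * d + R * d := by
          rw [one_mul]
          gcongr
      _ = (R + 1) * d := by ring
      _ ≤ Real.exp L * Real.exp L := by
          rw [← hXe]
          refine mul_le_mul_of_nonneg_right ?_ hdpos.le
          rw [hXe]
          exact g7.trans g8
      _ = Real.exp (2 * L) := by rw [← Real.exp_add]; congr 1; ring
  set T := F.filter (fun t => IsCoprime (t.1 : ℤ) t.2) with hT
  have hTF : ∀ t ∈ T, t ∈ F := fun t ht => (Finset.mem_filter.1 ht).1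
  have hT1 : ∀ t ∈ T, 1 ≤ t.1 ∧ IsCoprime (t.1 : ℤ) t.2 := fun t ht =>
    ⟨(hF1 t (hTF t ht)).1, (Finset.mem_filter.1 ht).2⟩
  have hTc : (T.card : ℝ) ≤ L ^ 2 := by
    refine le_trans ?_ hFc
    exact_mod_cast Finset.card_le_card (Finset.filter_subset _ _)
  have hTs : ∑ t ∈ T, (t.1 : ℝ) / t.1.totient ≤ (2 * R + 1) * Sg := by
    rw [hSg, ← forms_sum (d := d) (by omega) H (fun z hz => (hH z hz).2.2) R, ← hF]
    exact Finset.sum_le_sum_of_subset_of_nonneg (Finset.filter_subset _ _)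
      (fun t _ _ => by positivity)
  -- `W`
  obtain ⟨y, hy⟩ : ∃ y : ℕ, y = ⌊Real.exp (l / 10)⌋₊ := ⟨_, rfl⟩
  obtain ⟨y1, y2, y3, _⟩ := y_facts hLexp f1 y hy
  obtain ⟨W, hW1, hWsq, hWd, hWe, hWp, hWt⟩ := w_facts d y (by omega)
  have hW0 : (0:ℝ) < W := by exact_mod_cast hW1
  have hWL : (W : ℝ) ≤ Real.exp (L / 8) :=
    hWe.trans (Real.exp_le_exp.mpr (by linarith))
  have hWpL : ∀ p : ℕ, p.Prime → p ∣ W → (p : ℝ) ≤ L := by
    intro p hp hpW
    have : (p : ℝ) ≤ y := by exact_mod_cast hWp p hp hpW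
    linarith
  obtain ⟨B, hB⟩ : ∃ B : ℝ, B = c₅ * (m + 1) * L / l := ⟨_, rfl⟩
  have hB0 : 0 < B := by rw [hB]; positivity
  have hgood := good_classes hWsq T hT1 hB0 hTs (by
    rw [hB]
    refine m_bound (φ := φ) (d := d) (s := 2 * s) (c₂ := c₂) (K := K) (lam := lam) hA hSg0 hl0 hLpos
      (by linarith) hdpos hW0 (by exact_mod_cast Nat.totient_le W) (Nat.cast_nonneg _) hφ0.le hc5 hc2 ?_ ?_
      hK hlam hm1 hR1
    · have h1 := (hV y y1).2
      have h2 : (0:ℝ) ≤ (W : ℝ) * d := by positivity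
      have h3 : (0:ℝ) ≤ (W.totient : ℝ) * φ := by positivity
      have h4 : 0 ≤ Real.log y := by linarith
      rw [← hφ] at hWt
      calc (W.totient : ℝ) * φ * (l / 20) ≤ (W.totient : ℝ) * φ * Real.log y := by gcongr
        _ ≤ V y * (W * d) * Real.log y := by gcongr
        _ = (V y * Real.log y) * (W * d) := by ring
        _ ≤ c₂ * (W * d) := by gcongr
    · calc 12 * (2 * s) * l = (24 * l) * s := by ring
        _ ≤ (160 * c₂ * s) * s := mul_le_mul_of_nonneg_right f3 hs0.le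
        _ = 160 * c₂ * L := by rw [← hss]; ring)
  obtain ⟨P, hP⟩ : ∃ P : ℝ, P = Real.exp (L / 10) := ⟨_, rfl⟩
  have hP0 : 0 ≤ P := by rw [hP]; exact (Real.exp_pos _).le
  have hLP : L ≤ P := by
    rw [hP]
    have h2 := Real.quadratic_le_exp_of_nonneg (x := L / 10) (by positivity)
    have e : (L / 10) ^ 2 / 2 = L * L / 200 := by ring
    have e' : 640 * L ≤ L * L := mul_le_mul_of_nonneg_right hL640 hLpos.le
    rw [e] at h2
    linarith
  obtain ⟨E, hE⟩ : ∃ E : ℝ, E = Real.exp (-(C₆ * (l ^ 2 * 2 ^ m))) := ⟨_, rfl⟩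
  have hE0 : 0 < E := by rw [hE]; exact Real.exp_pos _
  have hsum := sum_classes d W hW1 ((Finset.range W).filter (fun b : ℕ =>
      ((T.filter (fun t => IsCoprime ((t.1 : ℤ) * b + t.2) (W : ℤ))).card : ℝ) ≤ B))
    (fun b hb => Finset.mem_range.1 (Finset.mem_filter.1 hb).1)
    (fun a : ℤ => IsCoprime a (d : ℤ) ∧ Cov P T a) (φ / W / 2 * E) (by
      intro b hb
      rw [Finset.mem_filter] at hb
      have h1 := hst m hcond T hT1 (fun t ht => by
          have h2 := (hF1 t (hTF t ht)).2.1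
          have h3 : L ≤ Real.exp (2 * L) := by
            have := Real.add_one_le_exp (2 * L)
            linarith
          linarith)
        (fun t ht => (hF1 t (hTF t ht)).2.2) hTc W b hW1 hWd hWL hWpL
        (by rw [← hB]; exact hb.2)
      rw [← hP, ← hE, ← hφ] at h1
      convert h1)
  have hZ : φ / 4 * E ≤ (((Finset.Ico (0:ℤ) (d : ℤ)).filter
      (fun a : ℤ => IsCoprime a (d : ℤ) ∧ Cov P T a)).card : ℝ) := by
    have hsum' : ((((Finset.range W).filter (fun b : ℕ =>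
      ((T.filter (fun t => IsCoprime ((t.1 : ℤ) * b + t.2) (W : ℤ))).card : ℝ) ≤ B)).card : ℝ)) *
        (φ / W / 2 * E) ≤ (((Finset.Ico (0:ℤ) (d : ℤ)).filter
      (fun a : ℤ => IsCoprime a (d : ℤ) ∧ Cov P T a)).card : ℝ) := by
      convert hsum
    refine le_trans ?_ hsum'
    calc φ / 4 * E = (W : ℝ) / 2 * (φ / W / 2 * E) := by field_simp; ring
      _ ≤ _ := mul_le_mul_of_nonneg_right hgood (by positivity)
  -- small values
  have hsmall := few_small d F (fun t ht => (hF1 t ht).1) P hP0 (fun _ => 0)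
  set small : ℤ → Prop := fun a => ∃ t ∈ F, |(((t.1 : ℤ) * a + t.2 : ℤ) : ℝ)| ≤ P ∨
    (t.1 : ℤ) * a + t.2 = ((fun _ => 0 : ℕ × ℤ → ℕ) t : ℕ) ∨
    (t.1 : ℤ) * a + t.2 = -(((fun _ => 0 : ℕ × ℤ → ℕ) t : ℕ) : ℤ) with hsm
  set Z := (Finset.Ico (0:ℤ) (d : ℤ)).filter
      (fun a : ℤ => IsCoprime a (d : ℤ) ∧ Cov P T a) with hZdef
  have hsplit : Z.card = (Z.filter small).card + (Z.filter (fun a => ¬ small a)).card :=
    (Finset.card_filter_add_card_filter_not _).symm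
  have hZ1 : ((Z.filter small).card : ℝ) ≤ L ^ 2 * (2 * P + 3) := by
    have h1 : (Z.filter small).card ≤ ((Finset.Ioc (0 : ℤ) d).filter small).card := by
      apply Finset.card_le_card
      intro a ha
      rw [Finset.mem_filter, hZdef, Finset.mem_filter, Finset.mem_Ico] at ha
      rw [Finset.mem_filter, Finset.mem_Ioc]
      obtain ⟨⟨⟨ha0, had⟩, hcop, _⟩, hsa⟩ := ha
      refine ⟨⟨?_, had.le⟩, hsa⟩
      rcases lt_or_eq_of_le ha0 with h | h
      · exact h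
      · exfalso
        rw [← h, isCoprime_zero_left, Int.isUnit_iff] at hcop
        omega
    have h2 : (((Finset.Ioc (0 : ℤ) d).filter small).card : ℝ) ≤ F.card * (2 * P + 3) := hsmall
    calc ((Z.filter small).card : ℝ) ≤ (((Finset.Ioc (0 : ℤ) d).filter small).card : ℝ) := by
          exact_mod_cast h1
      _ ≤ F.card * (2 * P + 3) := h2
      _ ≤ L ^ 2 * (2 * P + 3) := by gcongr
  have hZ2 : (Z.filter (fun a => ¬ small a)).card ≤
      ((Finset.range d).filter (fun a : ℕ => a.Coprime d ∧ ∀ z ∈ H, ∀ n : ℤ,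
        n ≡ (z.1 : ℤ) * a + z.2 [ZMOD (d : ℤ)] → |(n : ℝ)| ≤ A * φ * L →
          ¬ n.natAbs.Prime)).card := by
    apply Finset.card_le_card_of_injOn Int.toNat
    · intro a ha
      rw [Finset.mem_coe, Finset.mem_filter, hZdef, Finset.mem_filter, Finset.mem_Ico] at ha
      obtain ⟨⟨⟨ha0, had⟩, hcop, hcov⟩, hsa⟩ := ha
      rw [Finset.mem_coe, Finset.mem_filter, Finset.mem_range]
      have hta : (a.toNat : ℤ) = a := Int.toNat_of_nonneg ha0
      refine ⟨by omega, ?_, ?_⟩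
      · rw [← hta] at hcop
        exact Nat.isCoprime_iff_coprime.1 hcop
      · rw [hta]
        refine no_primes (s := s) (P := P) (R := R) (by omega) (hsL.trans hLP) hs1 (fun z hz => ?_)
          hR2 ha0 had (by rw [← hF]; exact hcov) (fun t ht => ?_)
        · obtain ⟨g1, g2, g3⟩ := hH z hz
          refine ⟨g1, ?_, g3⟩
          rw [← hss, ← sq] at g2
          exact (sq_le_sq₀ (Nat.cast_nonneg _) hs0.le).1 g2
        · by_contra hc
          rw [← hF] at ht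
          exact hsa ⟨t, ht, Or.inl (not_lt.1 hc)⟩
    · intro a ha a' ha' h
      rw [Finset.mem_coe, Finset.mem_filter, hZdef, Finset.mem_filter, Finset.mem_Ico] at ha ha'
      omega
  -- numbers
  have hElow : Real.exp (-(L / 32)) ≤ E := by
    rw [hE]; exact Real.exp_le_exp.mpr (by linarith)
  have hnum : L ^ 2 * (2 * P + 3) ≤ φ / 8 * E :=
    fin_num hL640 hP hLP hφ0 hXe (by rw [hφ]; exact htotlow) f5 hElow
  have hfin := fin_exp (φ := φ) hC6 hK1 hlam0 hφ0 hl400 h2m hE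
  rw [← hφ]
  have hZr : (Z.card : ℝ) = ((Z.filter small).card : ℝ) +
      ((Z.filter (fun a => ¬ small a)).card : ℝ) := by exact_mod_cast hsplit
  have hZ2r : ((Z.filter (fun a => ¬ small a)).card : ℝ) ≤
      (((Finset.range d).filter (fun a : ℕ => a.Coprime d ∧ ∀ z ∈ H, ∀ n : ℤ,
        n ≡ (z.1 : ℤ) * a + z.2 [ZMOD (d : ℤ)] → |(n : ℝ)| ≤ A * φ * L →
          ¬ n.natAbs.Prime)).card : ℝ) := by exact_mod_cast hZ2
  linarith

end Run7.h294.S
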