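import Pool.Agent.Run7.h294.P5
import Pool.Agent.Run7.h294.S5

set_option autoImplicit false
set_option linter.unusedSectionVars false

/-! # Composite values of a polynomial at prescribed shifts -/

namespace Run7.h294.P

open Finset Filter Polynomial Pool.Agent.H256R2.SC Run7.h294.G Pool.Agent.H474R2.PG
  Pool.Agent.H474R2.GE Run7.h294.D Run7.h294.S

open scoped Classical

lemma root_count (f : ℤ[X]) (hd : 0 < f.natDegree) (v : ℤ) (F : Finset ℤ) :
    (F.filter (fun a => f.eval a = v)).card ≤ f.natDegree := by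
  have hdeg : 0 < f.degree := natDegree_pos_iff_degree_pos.1 hd
  have h1 := card_roots_sub_C' (a := v) hdeg
  have h2 : F.filter (fun a => f.eval a = v) ⊆ (f - C v).roots.toFinset := by
    intro a ha
    rw [Finset.mem_filter] at ha
    rw [Multiset.mem_toFinset, mem_roots_sub_C hdeg]
    exact ha.2
  exact (Finset.card_le_card h2).trans ((Multiset.toFinset_card_le _).trans h1)

lemma small_vals (f : ℤ[X]) (hd : 0 < f.natDegree) (S I : Finset ℤ) (P : ℝ) (hP : 0 ≤ P) :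
    ((I.filter (fun a => ∃ s ∈ S, |((f.eval (a + s) : ℤ) : ℝ)| ≤ P)).card : ℝ) ≤
      S.card * (f.natDegree * (2 * P + 1)) := by
  have hsub : I.filter (fun a => ∃ s ∈ S, |((f.eval (a + s) : ℤ) : ℝ)| ≤ P) ⊆
      S.biUnion (fun s => (Finset.Icc (-⌊P⌋) ⌊P⌋).biUnion (fun v =>
        I.filter (fun a => f.eval (a + s) = v))) := by
    intro a ha
    rw [Finset.mem_filter] at ha
    obtain ⟨ha1, s, hs, h⟩ := ha
    rw [Finset.mem_biUnion]
    refine ⟨s, hs, ?_⟩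
    rw [Finset.mem_biUnion]
    refine ⟨f.eval (a + s), ?_, Finset.mem_filter.2 ⟨ha1, rfl⟩⟩
    rw [abs_le] at h
    rw [Finset.mem_Icc]
    constructor
    · have : (-(f.eval (a + s)) : ℤ) ≤ ⌊P⌋ := Int.le_floor.2 (by push_cast; linarith)
      linarith
    · exact Int.le_floor.2 h.2
  have h1 : ∀ s ∈ S, ((Finset.Icc (-⌊P⌋) ⌊P⌋).biUnion (fun v =>
        I.filter (fun a => f.eval (a + s) = v))).card ≤
        (Finset.Icc (-⌊P⌋) ⌊P⌋).card * f.natDegree := by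
    intro s _
    refine Finset.card_biUnion_le_card_mul _ _ _ fun v _ => ?_
    have h2 := root_count f hd v (I.image (fun a => a + s))
    refine le_trans ?_ h2
    apply Finset.card_le_card_of_injOn (fun a => a + s)
    · intro a ha
      rw [Finset.mem_coe, Finset.mem_filter] at ha
      rw [Finset.mem_coe, Finset.mem_filter, Finset.mem_image]
      exact ⟨⟨a, ha.1, rfl⟩, ha.2⟩
    · intro a _ a' _ h
      simp only at h
      omega
  have h2 := (Finset.card_le_card hsub).trans (Finset.card_biUnion_le_card_mul _ _ _ h1)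
  have hfl : 0 ≤ ⌊P⌋ := Int.floor_nonneg.2 hP
  have h3 : ((Finset.Icc (-⌊P⌋) ⌊P⌋).card : ℝ) ≤ 2 * P + 1 := by
    rw [Int.card_Icc]
    have e : (((⌊P⌋ + 1 - -⌊P⌋).toNat : ℕ) : ℤ) = 2 * ⌊P⌋ + 1 := by
      rw [Int.toNat_of_nonneg (by omega)]; ring
    have e' : (((⌊P⌋ + 1 - -⌊P⌋).toNat : ℕ) : ℝ) = 2 * (⌊P⌋ : ℝ) + 1 := by exact_mod_cast e
    rw [e']
    have := Int.floor_le P
    linarith
  calc ((I.filter (fun a => ∃ s ∈ S, |((f.eval (a + s) : ℤ) : ℝ)| ≤ P)).card : ℝ)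
      ≤ (S.card * ((Finset.Icc (-⌊P⌋) ⌊P⌋).card * f.natDegree) : ℕ) := by exact_mod_cast h2
    _ = S.card * (((Finset.Icc (-⌊P⌋) ⌊P⌋).card : ℝ) * f.natDegree) := by push_cast; ring
    _ ≤ S.card * ((2 * P + 1) * f.natDegree) := by gcongr
    _ = _ := by ring

lemma disj_classes (M : ℤ) (X W : ℕ) (G : Finset ℕ) (hG : ∀ b ∈ G, b < W)
    (Q : ℤ → Prop) (E : ℝ)
    (h : ∀ b ∈ G, E ≤ (((Finset.Ioc M (M + X)).filter
      (fun a : ℤ => (W : ℤ) ∣ a - b ∧ Q a)).card : ℝ)) :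
    (G.card : ℝ) * E ≤ (((Finset.Ioc M (M + X)).filter Q).card : ℝ) := by
  have h1 : (G.card : ℝ) * E ≤ ∑ b ∈ G, (((Finset.Ioc M (M + X)).filter
      (fun a : ℤ => (W : ℤ) ∣ a - b ∧ Q a)).card : ℝ) := by
    rw [← nsmul_eq_mul, ← Finset.sum_const]
    exact Finset.sum_le_sum h
  refine h1.trans ?_
  have h2 : ∑ b ∈ G, ((Finset.Ioc M (M + X)).filter
      (fun a : ℤ => (W : ℤ) ∣ a - b ∧ Q a)).card ≤
      ((Finset.Ioc M (M + X)).filter Q).card := by
    rw [← Finset.card_biUnion]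
    · apply Finset.card_le_card
      intro a ha
      rw [Finset.mem_biUnion] at ha
      obtain ⟨b, _, ha⟩ := ha
      rw [Finset.mem_filter] at ha ⊢
      exact ⟨ha.1, ha.2.2⟩
    · intro b hb b' hb' hne
      rw [Function.onFun, Finset.disjoint_left]
      intro a ha ha'
      rw [Finset.mem_filter] at ha ha'
      have h3 : (W : ℤ) ∣ (b : ℤ) - b' := by
        have := dvd_sub ha'.2.1 ha.2.1
        have e : a - (b' : ℤ) - (a - b) = b - b' := by ring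
        rwa [e] at this
      have h4 := Int.emod_emod_of_dvd
      have h5 : (b : ℤ) % W = (b' : ℤ) % W := Int.emod_eq_emod_iff_emod_sub_eq_zero.2
        (Int.emod_eq_zero_of_dvd h3)
      rw [Int.emod_eq_of_lt (Nat.cast_nonneg _) (by exact_mod_cast hG b hb),
        Int.emod_eq_of_lt (Nat.cast_nonneg _) (by exact_mod_cast hG b' hb')] at h5
      exact hne (by exact_mod_cast h5)
  exact_mod_cast h2

lemma fin_num2 {L P X E : ℝ} (hL : 640 ≤ L) (hP : P = Real.exp (L / 10)) (hLP : L ≤ P)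
    (hX : X = Real.exp L) (f5 : 6 * L ^ 2 * Real.exp (L / 10) ≤ Real.exp (L / 8))
    (hE : Real.exp (-(L / 32)) ≤ E) : L ^ 2 * (L * (2 * P + 1)) ≤ X / 4 * E := by
  have hL0 : 0 < L := by linarith
  have e1 : L ^ 2 * (L * (2 * P + 1)) ≤ L * (6 * L ^ 2 * P) := by
    have h3 : 2 * P + 1 ≤ 6 * P := by linarith
    calc L ^ 2 * (L * (2 * P + 1)) ≤ L ^ 2 * (L * (6 * P)) := by gcongr
      _ = L * (6 * L ^ 2 * P) := by ring
  have e2 : L * (6 * L ^ 2 * P) ≤ L * Real.exp (L / 8) := by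
    rw [hP]; exact mul_le_mul_of_nonneg_left f5 hL0.le
  have e3 : 4 * L ≤ Real.exp (L / 2) := by
    have h2 := Real.quadratic_le_exp_of_nonneg (x := L / 2) (by linarith)
    have e : (L / 2) ^ 2 / 2 = L * L / 8 := by ring
    rw [e] at h2
    have h3 : 640 * L ≤ L * L := mul_le_mul_of_nonneg_right hL (by linarith)
    linarith
  have e5 : Real.exp (L / 2) * Real.exp (L / 8) ≤ X * Real.exp (-(L / 32)) := by
    rw [hX, ← Real.exp_add, ← Real.exp_add]
    exact Real.exp_le_exp.mpr (by linarith)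
  have hX0 : 0 < X := by rw [hX]; exact Real.exp_pos _
  calc L ^ 2 * (L * (2 * P + 1)) ≤ L * Real.exp (L / 8) := e1.trans e2
    _ = (4 * L) * Real.exp (L / 8) / 4 := by ring
    _ ≤ Real.exp (L / 2) * Real.exp (L / 8) / 4 := by gcongr
    _ ≤ X * Real.exp (-(L / 32)) / 4 := by gcongr
    _ ≤ X * E / 4 := by gcongr
    _ = X / 4 * E := by ring

theorem main_poly (f : ℤ[X]) (hf : Irreducible f) (hd : 0 < f.natDegree) (Kk : ℕ) :
    ∃ c C : ℝ, 0 < c ∧ 0 < C ∧ ∃ X₀ : ℕ, ∀ X : ℕ, X₀ ≤ X → ∀ μ : ℝ, 0 ≤ μ →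
    μ ≤ c * Real.log (Real.log X) → ∀ S : Finset ℤ, (∀ s ∈ S, |(s : ℝ)| ≤ (X : ℝ) ^ Kk) →
    (S.card : ℝ) ≤ μ * Real.log X → ∀ M : ℤ,
    (X : ℝ) * Real.exp (-(C * Real.exp (C * μ) * (Real.log (Real.log X)) ^ 2)) ≤
      (((Finset.Ioc M (M + X)).filter (fun a : ℤ => ∀ s ∈ S, ∃ p : ℕ, p.Prime ∧
        (p : ℝ) ^ 10 ≤ X ∧ (p : ℤ) ∣ f.eval (a + s) ∧ (p : ℤ) < |f.eval (a + s)|)).card : ℝ) := by
  obtain ⟨c₅, C₆, hc5, hC6, L₀, hstep⟩ := class_poly f hf hd Kk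
  obtain ⟨C, hC0, hMe⟩ := mertens_rho f hf hd
  obtain ⟨C3, hC3⟩ : ∃ C3 : ℝ, C3 = Real.exp C := ⟨_, rfl⟩
  have hC30 : 0 < C3 := by rw [hC3]; exact Real.exp_pos _
  obtain ⟨K, hK⟩ : ∃ K : ℝ, K = 40 * C3 / c₅ + 1 := ⟨_, rfl⟩
  have hK1 : 1 ≤ K := by
    have : 0 ≤ 40 * C3 / c₅ := by positivity
    linarith
  obtain ⟨l₀, hl₀⟩ := (s4_ev C₆ 1 one_pos).exists_forall_of_atTop
  have hev : ∀ᶠ X : ℕ in atTop, L₀ ≤ Real.log X ∧ (f.natDegree : ℝ) ≤ Real.log X ∧
      l₀ ≤ Real.log (Real.log X) := by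
    have t1 : Tendsto (fun X : ℕ => Real.log X) atTop atTop :=
      Real.tendsto_log_atTop.comp tendsto_natCast_atTop_atTop
    exact (t1.eventually_ge_atTop L₀).and ((t1.eventually_ge_atTop _).and
      ((Real.tendsto_log_atTop.comp t1).eventually_ge_atTop l₀))
  obtain ⟨X₂, hX₂⟩ := hev.exists_forall_of_atTop
  refine ⟨1 / (2 * K), 2 * C₆ + 3 + K, by positivity, by linarith, max X₂ 2, ?_⟩
  intro X hX μ hμ0 hμ S hS hSc M
  obtain ⟨hLL, hdL, hll⟩ := hX₂ X ((le_max_left _ _).trans hX)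
  have hX2 : 2 ≤ X := (le_max_right _ _).trans hX
  have hXpos : (0:ℝ) < X := by exact_mod_cast (by omega : 0 < X)
  obtain ⟨f1, f2, f3, f5⟩ := hl₀ _ hll
  have hXe : (X : ℝ) = Real.exp (Real.log X) := (Real.exp_log hXpos).symm
  have hst := hstep X hLL
  clear hX₂ hl₀ hev hstep
  obtain ⟨L, hL⟩ : ∃ L, L = Real.log X := ⟨_, rfl⟩
  obtain ⟨l, hl⟩ : ∃ l, l = Real.log L := ⟨_, rfl⟩
  rw [← hL] at hst hLL hll hdL hμ hXe hSc f1 f2 f3 f5 ⊢
  rw [← hl] at hst hll hμ f1 f2 f3 f5 ⊢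
  have hl0 : 0 < l := by linarith
  have hLpos : 0 < L := by
    rw [hL]
    exact Real.log_pos (by exact_mod_cast (by omega : 1 < X))
  have hLexp : L = Real.exp l := by rw [hl]; exact (Real.exp_log hLpos).symm
  rw [← hLexp] at f2 f5
  obtain ⟨s, hs⟩ : ∃ s, s = Real.exp (l / 2) := ⟨_, rfl⟩
  rw [← hs] at f2 f3
  have hs1 : 1 ≤ s := by rw [hs]; exact Real.one_le_exp (by linarith)
  have hs0 : 0 < s := by linarith
  have hl2 : 20 * l ≤ l ^ 2 := by rw [sq]; exact mul_le_mul_of_nonneg_right f1 hl0.le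
  have hl400 : 400 ≤ l ^ 2 := by linarith
  have hl2L : 64 * l ^ 2 ≤ L := by
    have e1 : 1 * l ^ 2 * 1 ≤ C₆ * l ^ 2 * s := by gcongr
    have e2 : 2 * C₆ * l ^ 2 * s = 2 * (C₆ * l ^ 2 * s) := by ring
    linarith
  have hL640 : 640 ≤ L := by linarith
  have hKl : K * μ ≤ l / 2 := by
    have : K * μ ≤ K * (1 / (2 * K) * l) := mul_le_mul_of_nonneg_left hμ (by linarith)
    have e : K * (1 / (2 * K) * l) = l / 2 := by field_simp
    linarith
  have hμl : μ ≤ l / 2 := by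
    have : 1 * μ ≤ K * μ := mul_le_mul_of_nonneg_right hK1 hμ0
    linarith
  -- `m`
  obtain ⟨m, hm⟩ : ∃ m : ℕ, m = ⌈K * μ⌉₊ := ⟨_, rfl⟩
  obtain ⟨hm1, h2m⟩ := m_facts (C₃ := K) (μ := μ) (by positivity) m hm
  have h2m' : (2:ℝ) ^ m ≤ 2 * s := by
    refine h2m.trans ?_
    rw [hs]
    gcongr
  have hexpo : C₆ * (l ^ 2 * 2 ^ m) ≤ L / 32 := by
    calc C₆ * (l ^ 2 * 2 ^ m) ≤ C₆ * (l ^ 2 * (2 * s)) := by gcongr
      _ = 2 * C₆ * l ^ 2 * s := by ring
      _ ≤ L / 32 := f2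
  have hcond : 2 ^ m * (C₆ * l ^ 2) ≤ L := by
    calc 2 ^ m * (C₆ * l ^ 2) = C₆ * (l ^ 2 * 2 ^ m) := by ring
      _ ≤ L := by linarith
  have hScL : (S.card : ℝ) ≤ L ^ 2 := by
    refine hSc.trans ?_
    rw [sq]
    exact mul_le_mul_of_nonneg_right (by linarith) hLpos.le
  have hSe : ∀ t ∈ S, |(t : ℝ)| ≤ Real.exp (Kk * L) := by
    intro t ht
    refine (hS t ht).trans (le_of_eq ?_)
    rw [hXe, ← Real.exp_nat_mul]
  -- `W`
  obtain ⟨y, hy⟩ : ∃ y : ℕ, y = ⌊Real.exp (l / 10)⌋₊ := ⟨_, rfl⟩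
  obtain ⟨y1, y2, y3, y4⟩ := y_facts hLexp f1 y hy
  have hy3 : 3 ≤ y := by
    rw [hy]
    apply Nat.le_floor
    have := Real.add_one_le_exp (l / 10)
    push_cast
    linarith
  obtain ⟨W, hW⟩ : ∃ W : ℕ, W = primorial y := ⟨_, rfl⟩
  have hW1 : 1 ≤ W := by rw [hW]; exact primorial_pos y
  have hW0 : (0:ℝ) < W := by exact_mod_cast hW1
  have hWf : W.primeFactors = SS y := by
    rw [hW, ← prod_SS]
    exact Nat.primeFactors_prod fun p hp => (Finset.mem_filter.1 hp).2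
  have hWe : (W : ℝ) ≤ Real.exp (L / 4) := by rw [hW]; exact y4
  have hWpL : ∀ p : ℕ, p.Prime → p ∣ W → (p : ℝ) ≤ L := by
    intro p hp hpW
    have h1 : p ∈ SS y := by
      rw [← hWf, Nat.mem_primeFactors]
      exact ⟨hp, hpW, by omega⟩
    have h2 := Finset.mem_range.1 (Finset.mem_filter.1 h1).1
    have h3 : (p : ℝ) ≤ y := by exact_mod_cast (by omega : p ≤ y)
    linarith
  obtain ⟨B, hB⟩ : ∃ B : ℝ, B = c₅ * (m + 1) * L / l := ⟨_, rfl⟩
  obtain ⟨Y, hY⟩ : ∃ Y : ℝ, Y = μ * L + c₅ / (40 * C3) * L := ⟨_, rfl⟩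
  have hY0 : 0 < Y := by
    have e1 : 0 ≤ μ * L := by positivity
    have e2 : 0 < c₅ / (40 * C3) * L := by positivity
    linarith
  have hSY : (S.card : ℝ) ≤ Y := by
    have e2 : 0 < c₅ / (40 * C3) * L := by positivity
    linarith
  have hgood := good_classes f y S C3 Y hC30 hY0 (by
    rw [hC3]
    exact prod_le f C hMe y hy3) hSY
  have hYB : 2 * (C3 * Y) ≤ B * Real.log y := by
    have e1 : 40 * C3 * μ ≤ c₅ * m := by
      have h1 : c₅ * (K * μ) ≤ c₅ * m := mul_le_mul_of_nonneg_left hm1 hc5.le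
      have h2 : c₅ * (K * μ) = 40 * C3 * μ + c₅ * μ := by
        rw [hK]
        field_simp
      have h3 : 0 ≤ c₅ * μ := by positivity
      linarith
    have e2 : 2 * (C3 * Y) = (40 * C3 * μ + c₅) * L / 20 := by
      rw [hY]
      field_simp
      ring
    have e3 : B * (l / 20) = c₅ * (m + 1) * L / 20 := by
      rw [hB]
      field_simp
    have e4 : (40 * C3 * μ + c₅) * L ≤ c₅ * (m + 1) * L := by
      apply mul_le_mul_of_nonneg_right _ hLpos.le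
      linarith
    have hB0 : 0 ≤ B := by rw [hB]; positivity
    calc 2 * (C3 * Y) = (40 * C3 * μ + c₅) * L / 20 := e2
      _ ≤ c₅ * (m + 1) * L / 20 := by linarith
      _ = B * (l / 20) := e3.symm
      _ ≤ B * Real.log y := mul_le_mul_of_nonneg_left y3 hB0
  have hlogy : 0 < Real.log y := by linarith
  obtain ⟨P, hP⟩ : ∃ P : ℝ, P = Real.exp (L / 10) := ⟨_, rfl⟩
  have hP0 : 0 ≤ P := by rw [hP]; exact (Real.exp_pos _).le
  have hLP : L ≤ P := by
    rw [hP]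
    have h2 := Real.quadratic_le_exp_of_nonneg (x := L / 10) (by positivity)
    have e : (L / 10) ^ 2 / 2 = L * L / 200 := by ring
    have e' : 640 * L ≤ L * L := mul_le_mul_of_nonneg_right hL640 hLpos.le
    rw [e] at h2
    linarith
  have hP10 : P ^ 10 = X := by
    rw [hP, hXe, ← Real.exp_nat_mul]
    congr 1
    push_cast
    ring
  obtain ⟨E, hE⟩ : ∃ E : ℝ, E = Real.exp (-(C₆ * (l ^ 2 * 2 ^ m))) := ⟨_, rfl⟩
  have hE0 : 0 < E := by rw [hE]; exact Real.exp_pos _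
  set G := (range W).filter (fun b : ℕ =>
      ((S.filter (fun a : ℤ => ∀ p ∈ SS y, ¬ (p : ℤ) ∣ f.eval ((b : ℤ) + a))).card : ℝ) *
        Real.log y ≤ 2 * (C3 * Y)) with hG
  have hGc : (W : ℝ) / 2 ≤ G.card := by
    rw [hG, hW]
    exact hgood
  have hsum := disj_classes M X W G
    (fun b hb => Finset.mem_range.1 (Finset.mem_filter.1 hb).1)
    (fun a : ℤ => ∀ s ∈ S, ∃ p : ℕ, p.Prime ∧ (p : ℝ) ≤ P ∧ (p : ℤ) ∣ f.eval (a + s))
    ((X : ℝ) / W * E) (by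
      intro b hb
      rw [hG, Finset.mem_filter] at hb
      have h1 := hst m hcond S hSe hScL M W b hW1 hWe hWpL (by
        rw [← hB, hWf]
        have h2 := hb.2.trans hYB
        exact le_of_mul_le_mul_right h2 hlogy)
      rw [← hP, ← hE] at h1
      convert h1)
  set Z := (Finset.Ioc M (M + X)).filter
    (fun a : ℤ => ∀ s ∈ S, ∃ p : ℕ, p.Prime ∧ (p : ℝ) ≤ P ∧ (p : ℤ) ∣ f.eval (a + s)) with hZdef
  have hZ : (X : ℝ) / 2 * E ≤ (Z.card : ℝ) := by
    have hsum' : (G.card : ℝ) * ((X : ℝ) / W * E) ≤ (Z.card : ℝ) := by convert hsum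
    refine le_trans ?_ hsum'
    calc (X : ℝ) / 2 * E = (W : ℝ) / 2 * ((X : ℝ) / W * E) := by field_simp
      _ ≤ _ := mul_le_mul_of_nonneg_right hGc (by positivity)
  have hsmall := small_vals f hd S (Finset.Ioc M (M + X)) P hP0
  set Sm := (Finset.Ioc M (M + X)).filter
    (fun a => ∃ s ∈ S, |((f.eval (a + s) : ℤ) : ℝ)| ≤ P) with hSm
  set T := (Finset.Ioc M (M + X)).filter (fun a : ℤ => ∀ s ∈ S, ∃ p : ℕ, p.Prime ∧
        (p : ℝ) ^ 10 ≤ X ∧ (p : ℤ) ∣ f.eval (a + s) ∧ (p : ℤ) < |f.eval (a + s)|) with hT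
  have hZsub : Z ⊆ T ∪ Sm := by
    intro a ha
    rw [hZdef, Finset.mem_filter] at ha
    rw [Finset.mem_union]
    by_cases hsm : a ∈ Sm
    · exact Or.inr hsm
    · left
      rw [hSm, Finset.mem_filter, not_and] at hsm
      have h1 := hsm ha.1
      push Not at h1
      rw [hT, Finset.mem_filter]
      refine ⟨ha.1, fun s hs => ?_⟩
      obtain ⟨p, hp, hpP, hpd⟩ := ha.2 s hs
      refine ⟨p, hp, ?_, hpd, ?_⟩
      · rw [← hP10]
        exact pow_le_pow_left₀ (Nat.cast_nonneg _) hpP 10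
      · have h2 := h1 s hs
        have h3 : ((p : ℤ) : ℝ) < ((|f.eval (a + s)| : ℤ) : ℝ) := by
          push_cast
          linarith
        exact_mod_cast h3
  have hcard : (Z.card : ℝ) ≤ T.card + Sm.card := by
    exact_mod_cast (Finset.card_le_card hZsub).trans (Finset.card_union_le _ _)
  have hSmle : (Sm.card : ℝ) ≤ X / 4 * E := by
    refine hsmall.trans ?_
    calc (S.card : ℝ) * (f.natDegree * (2 * P + 1)) ≤ L ^ 2 * (L * (2 * P + 1)) := by gcongr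
      _ ≤ X / 4 * E := fin_num2 hL640 hP hLP hXe f5 (by
          rw [hE]
          exact Real.exp_le_exp.mpr (by linarith))
  have hfin := fin_exp (φ := (X : ℝ)) hC6 hK1 hμ0 hXpos hl400 h2m hE
  refine hfin.trans ?_
  have e1 : (X : ℝ) / 8 * E ≤ X / 4 * E := by
    apply mul_le_mul_of_nonneg_right _ hE0.le
    linarith
  linarith

end Run7.h294.P
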