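import Pool.Agent.Run7.h294.R3

set_option autoImplicit false
set_option linter.unusedSectionVars false

/-! # Frequency of record gaps: the main theorem for integral `X` -/

namespace Run7.h294.R

open Finset Filter Run7.h294.G

open scoped Classical

theorem main_ii : ∃ c₁ : ℝ, 0 < c₁ ∧ c₁ ≤ 1 / 120 ∧ ∃ X₀ : ℕ, ∀ X : ℕ, X₀ ≤ X → ∀ lm : ℝ,
    Real.log X * Real.log (Real.log X) ≤ lm →
    lm ≤ c₁ * (Real.log X * (Real.log (Real.log X)) ^ 2 *
      Real.log (Real.log (Real.log (Real.log X))) / (Real.log (Real.log (Real.log X))) ^ 2) →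
    X * Real.exp (-(7 * Real.exp ((1 - c₁ * (Real.log X * Real.log (Real.log X) *
      Real.log (Real.log (Real.log (Real.log X))) /
        (lm * Real.log (Real.log (Real.log X))))) * Real.log (Real.log X)))) ≤
      ((gapIdx ⌈lm⌉₊ (2 * X)).card : ℝ) := by
  obtain ⟨c₅, C₆, hc5, hC6, hstep⟩ := class_step
  obtain ⟨c₀, hc0, hc01, X₁, hpos⟩ := pos_blocks_class
  obtain ⟨Cs, hCs, y₀, hsurv⟩ := survivors2
  obtain ⟨L₀, hL₀⟩ := hstep c₀ hc0 hc01
  obtain ⟨c₁, hc1⟩ : ∃ c₁ : ℝ, c₁ = min (1 / 120) (c₅ / (192 * Cs)) := ⟨_, rfl⟩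
  have hc10 : 0 < c₁ := by rw [hc1]; exact lt_min (by norm_num) (by positivity)
  have hc11 : c₁ ≤ 1 / 120 := by rw [hc1]; exact min_le_left _ _
  have hc12 : 192 * Cs * c₁ ≤ c₅ := by
    have h1 : c₁ ≤ c₅ / (192 * Cs) := by rw [hc1]; exact min_le_right _ _
    rw [le_div_iff₀ (by positivity)] at h1
    linarith
  clear hc1 hstep
  obtain ⟨l₀, hl₀⟩ := (ii_ev C₆ c₀ y₀).exists_forall_of_atTop
  have hev : ∀ᶠ X : ℕ in atTop, L₀ ≤ Real.log X ∧ l₀ ≤ Real.log (Real.log X) := by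
    have t1 : Tendsto (fun X : ℕ => Real.log X) atTop atTop :=
      Real.tendsto_log_atTop.comp tendsto_natCast_atTop_atTop
    exact (t1.eventually_ge_atTop L₀).and ((Real.tendsto_log_atTop.comp t1).eventually_ge_atTop l₀)
  obtain ⟨X₂, hX₂⟩ := hev.exists_forall_of_atTop
  refine ⟨c₁, hc10, hc11, max (max X₁ X₂) 1, ?_⟩
  intro X hX lm hlm1 hlm2
  have hXX1 : X₁ ≤ X := (le_max_left _ _).trans ((le_max_left _ _).trans hX)
  obtain ⟨hLL, hll⟩ := hX₂ X ((le_max_right _ _).trans ((le_max_left _ _).trans hX))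
  have hX1 : 1 ≤ X := (le_max_right _ _).trans hX
  have hXpos : (0:ℝ) < X := by exact_mod_cast hX1
  obtain ⟨f1, f2, f3, f4, f5, f6, f7, f8⟩ := hl₀ _ hll
  have hXe : (X : ℝ) = Real.exp (Real.log X) := (Real.exp_log hXpos).symm
  have hst := hL₀ X hLL
  have hps := hpos X hXX1
  clear hX₂ hl₀ hev hL₀ hpos
  generalize hL : Real.log X = L at *
  generalize hl : Real.log L = l at *
  generalize ht : Real.log l = t at *
  generalize hs : Real.log t = s at *
  have hl0 : 0 < l := by linarith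
  have ht0 : 0 < t := by linarith
  have hs0 : 0 < s := by linarith
  have hLpos : 0 < L := by
    by_contra hc
    push Not at hc
    have h1 : (X : ℝ) ≤ 1 := by
      rw [hXe]
      exact Real.exp_le_one_iff.2 hc
    have h2 : (1 : ℝ) ≤ X := by exact_mod_cast hX1
    have h3 : (X : ℝ) = 1 := le_antisymm h1 h2
    have h4 : L = 0 := by rw [← hL, h3, Real.log_one]
    rw [h4, Real.log_zero] at hl
    linarith
  have hLexp : L = Real.exp l := by rw [← hl]; exact (Real.exp_log hLpos).symm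
  have hL1 : 1 ≤ L := by rw [hLexp]; exact Real.one_le_exp hl0.le
  have hlm0 : 0 < lm := lt_of_lt_of_le (by positivity) hlm1
  have hlmL : L ≤ lm := by
    refine le_trans ?_ hlm1
    exact le_mul_of_one_le_right hLpos.le (by linarith)
  -- `lam`
  obtain ⟨lam, hlam⟩ : ∃ lam : ℕ, lam = ⌈lm⌉₊ := ⟨_, rfl⟩
  have hlam1 : lm ≤ (lam : ℝ) := by rw [hlam]; exact Nat.le_ceil _
  have hlam2 : (lam : ℝ) ≤ 2 * lm := by
    have h1 := (Nat.ceil_lt_add_one hlm0.le).le
    rw [hlam]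
    linarith
  rw [← hlam]
  obtain ⟨κ, hκ⟩ : ∃ κ : ℝ, κ = c₁ * (L * l * s / (lm * t)) := ⟨_, rfl⟩
  obtain ⟨k0, k1, k2, k3, k4, k5, k6, k7, k8, k9⟩ := ii_num hLexp ht.symm hs.symm f1 f2 f3 f4 hc10
    hc11 hlm1 hlm2 hκ hlam1 hlam2
  rw [← hκ]
  obtain ⟨g1, g2, g3, g4⟩ := ii_logs (a := 1 - κ) ht.symm hs.symm f1 f2 (by linarith) (by linarith)
  -- `y`
  have hyy0 : Real.exp (l / 2) ≤ Real.exp ((1 - κ) * l) := by
    apply Real.exp_le_exp.mpr
    nlinarith
  have hsv := hsurv (Real.exp ((1 - κ) * l)) (f8.trans hyy0)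
    ((lam : ℝ) / Real.exp ((1 - κ) * l)) (by rw [g1]; exact k7) (by
      rw [g1]
      refine k8.trans ?_
      have h0 : 0 < Real.log ((1 - κ) * l) := by linarith
      rw [le_div_iff₀ (by positivity)]
      have h1 : 3 * (κ * l) ≤ 3 * (c₁ * (s * l / t)) := by linarith
      calc 3 * (κ * l) * (10 * Real.log ((1 - κ) * l))
          ≤ 3 * (c₁ * (s * l / t)) * (10 * t) := by gcongr
        _ = 30 * c₁ * (s * l) := by field_simp; ring
        _ ≤ 1 / 4 * (s * l) := by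
            have : 0 < s * l := by positivity
            nlinarith
        _ ≤ (1 - κ) * l * (s / 2) := by
            have : 0 < s * l := by positivity
            nlinarith
        _ ≤ (1 - κ) * l * Real.log (Real.log ((1 - κ) * l)) := by
            apply mul_le_mul_of_nonneg_left g4
            nlinarith) lam (by
      have : L / l ≤ L := div_le_self hLpos.le (by linarith)
      linarith) (by
      rw [mul_div_cancel₀]
      exact (Real.exp_pos _).ne')
  obtain ⟨b, hb⟩ := hsv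
  rw [g1] at hb
  have hS := ii_surv (S := (((Finset.Icc 1 lam).filter (fun k => ∀ p : ℕ, p.Prime →
      (p : ℝ) ≤ Real.exp ((1 - κ) * l) → ¬ k ≡ b p [MOD p])).card : ℝ)) f1 hLpos f2 f4 hlm0 hc10
      hκ k1 (by linarith) hlam2 k9 k8 g2 (by linarith) g4 hCs hb
  obtain ⟨y, hy⟩ : ∃ y : ℕ, y = ⌊Real.exp ((1 - κ) * l)⌋₊ := ⟨_, rfl⟩
  have hyle : (y : ℝ) ≤ Real.exp ((1 - κ) * l) := by rw [hy]; exact Nat.floor_le (Real.exp_pos _).le
  obtain ⟨b₀, hb₀⟩ := choose_class y b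
  have hS' : ((surv (primorial y) lam b₀ 0).card : ℝ) ≤ 48 * Cs * c₁ * L := by
    refine le_trans ?_ hS
    have h1 := hb₀ lam
    have h2 : ((surv (primorial y) lam b₀ 0).card : ℝ) ≤
        (((Finset.Icc 1 lam).filter (fun k => ∀ p : ℕ, p.Prime → p ≤ y →
          ¬ k ≡ b p [MOD p])).card : ℝ) := by exact_mod_cast h1
    refine h2.trans ?_
    have h3 : ((Finset.Icc 1 lam).filter (fun k => ∀ p : ℕ, p.Prime → p ≤ y →
          ¬ k ≡ b p [MOD p])) ⊆ ((Finset.Icc 1 lam).filter (fun k => ∀ p : ℕ, p.Prime →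
      (p : ℝ) ≤ Real.exp ((1 - κ) * l) → ¬ k ≡ b p [MOD p])) := by
      intro k hk
      rw [Finset.mem_filter] at hk ⊢
      refine ⟨hk.1, fun p hp hpy => hk.2 p hp ?_⟩
      rw [hy]
      exact Nat.le_floor hpy
    exact_mod_cast Finset.card_le_card h3
  -- `m`
  obtain ⟨m, hm⟩ : ∃ m : ℕ, m = ⌊l / 4⌋₊ := ⟨_, rfl⟩
  have hm1 : (m : ℝ) ≤ l / 4 := by rw [hm]; exact Nat.floor_le (by positivity)
  have hm2 : l / 4 ≤ m + 1 := by rw [hm]; exact (Nat.lt_floor_add_one _).le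
  have h2m : (2:ℝ) ^ m ≤ Real.exp (l / 4) := by
    have e1 : (2:ℝ) ^ m = Real.exp (m * Real.log 2) := by
      rw [mul_comm, Real.exp_mul, Real.exp_log two_pos, Real.rpow_natCast]
    rw [e1]
    apply Real.exp_le_exp.mpr
    have g1 : Real.log 2 ≤ 1 := by have := Real.log_two_lt_d9; linarith
    calc (m:ℝ) * Real.log 2 ≤ m * 1 := mul_le_mul_of_nonneg_left g1 (Nat.cast_nonneg _)
      _ ≤ l / 4 := by linarith
  have h2m1 : (1:ℝ) ≤ 2 ^ m := one_le_pow₀ (by norm_num)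
  have hexpo : C₆ * (l ^ 2 * 2 ^ m) ≤ Real.exp (l / 2) := by
    calc C₆ * (l ^ 2 * 2 ^ m) ≤ C₆ * (l ^ 2 * Real.exp (l / 4)) := by gcongr
      _ = C₆ * l ^ 2 * Real.exp (l / 4) := by ring
      _ ≤ Real.exp (l / 2) := f5
  have hexpo20 : 20 ≤ C₆ * (l ^ 2 * 2 ^ m) := by
    have e1 : (20:ℝ) ≤ l ^ 2 := by nlinarith
    have e2 : l ^ 2 * 1 ≤ l ^ 2 * 2 ^ m := by gcongr
    have e3 : 1 * (l ^ 2 * 2 ^ m) ≤ C₆ * (l ^ 2 * 2 ^ m) := by gcongr
    linarith
  -- `R`, `H`
  obtain ⟨R, hR⟩ : ∃ R : ℕ, R = ⌈Real.exp (C₆ * (l ^ 2 * 2 ^ m))⌉₊ := ⟨_, rfl⟩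
  obtain ⟨hR1, hR2, _⟩ := R_facts hexpo20 R hR
  have hR20 : (20:ℝ) ≤ R := by
    have := Real.add_one_le_exp (C₆ * (l ^ 2 * 2 ^ m))
    linarith
  have hW1 : 1 ≤ primorial y := primorial_pos y
  have hWy : ((primorial y : ℕ) : ℝ) ≤ Real.exp (2 * Real.exp ((1 - κ) * l)) := by
    have h1 : ((primorial y : ℕ) : ℝ) ≤ ((4 ^ y : ℕ) : ℝ) := by
      exact_mod_cast primorial_le_four_pow y
    have h2 : ((4 ^ y : ℕ) : ℝ) = Real.exp (y * Real.log 4) := by
      rw [mul_comm, Real.exp_mul, Real.exp_log (by norm_num), Real.rpow_natCast]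
      push_cast
      rfl
    rw [h2] at h1
    refine h1.trans (Real.exp_le_exp.mpr ?_)
    have h3 : Real.log 4 ≤ 2 := by
      have : Real.log 4 = 2 * Real.log 2 := by
        rw [show (4:ℝ) = 2 ^ 2 by norm_num, Real.log_pow]; push_cast; ring
      have := Real.log_two_lt_d9
      linarith
    calc (y:ℝ) * Real.log 4 ≤ Real.exp ((1 - κ) * l) * 2 := by
          apply mul_le_mul hyle h3 (Real.log_nonneg (by norm_num)) (Real.exp_pos _).le
      _ = _ := by ring
  have hlampos : 1 ≤ lam := by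
    have : (1:ℝ) ≤ lam := by linarith
    exact_mod_cast this
  have hWp : ∀ p : ℕ, p.Prime → p ∣ primorial y → (p : ℝ) ≤ L ^ 10 := by
    intro p hp hpW
    have h1 : (p : ℝ) ≤ y := by exact_mod_cast prime_dvd_primorial hp hpW
    have h2 : L ≤ L ^ 10 := le_self_pow₀ hL1 (by norm_num)
    have h3 : L / l ≤ L := div_le_self hLpos.le (by linarith)
    linarith
  obtain ⟨o1, o2, o3⟩ := omega_facts R (primorial y * lam) (Nat.mul_pos hW1 hlampos)
  have hsv : ∀ ω ∈ (Finset.range R).image (fun i => i * (primorial y * lam)),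
      ((surv (primorial y) lam b₀ ω).card : ℝ) ≤ c₅ * (m + 1) * L / l := by
    intro ω hω
    rw [Finset.mem_image] at hω
    obtain ⟨i, _, rfl⟩ := hω
    have h1 := surv_shift (primorial y) lam b₀ (i * lam)
    have e : i * (primorial y * lam) = i * lam * primorial y := by ring
    rw [e]
    have h2 : ((surv (primorial y) lam b₀ (i * lam * primorial y)).card : ℝ) ≤
        ((surv (primorial y) lam b₀ 0).card : ℝ) := by exact_mod_cast h1
    refine h2.trans (hS'.trans ?_)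
    rw [le_div_iff₀ hl0]
    have h3 : 48 * Cs * c₁ * L * l ≤ c₅ / 4 * L * l := by
      have : 48 * Cs * c₁ ≤ c₅ / 4 := by linarith
      gcongr
    have h4 : c₅ * (l / 4) * L ≤ c₅ * (m + 1) * L := by gcongr
    linarith
  obtain ⟨q1, q2, q3, q4⟩ := ii_H (W := ((primorial y : ℕ) : ℝ)) (R := (R : ℝ)) (lam := (lam : ℝ))
    (H := ((R * (primorial y * lam) : ℕ) : ℝ)) (c₀ := c₀) hLexp hyy0 k4 f1 (by exact_mod_cast hW1)
    hWy (hexpo.trans hyy0) hR2 hR20 (by linarith) k5 (by push_cast; ring) f6 f7 hc0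
  have hlamW : lam ≤ primorial y * lam := Nat.le_mul_of_pos_left _ hW1
  have o2' : ∀ ω ∈ (Finset.range R).image (fun i => i * (primorial y * lam)),
      ω + lam ≤ R * (primorial y * lam) := fun ω hω => by
    have := o2 ω hω
    omega
  have o3' : ∀ ω ∈ (Finset.range R).image (fun i => i * (primorial y * lam)),
      ∀ ω' ∈ (Finset.range R).image (fun i => i * (primorial y * lam)), ω ≠ ω' →
      ω + lam ≤ ω' ∨ ω' + lam ≤ ω := fun ω hω ω' hω' hne => by
    have := o3 ω hω ω' hω' hne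
    omega
  clear hsurv hS hb hb₀ hS' hR hm hlam o2 o3 hWy hlamW hy hyle
  generalize (Finset.range R).image (fun i => i * (primorial y * lam)) = Ω at *
  generalize R * (primorial y * lam) = H at *
  generalize primorial y = W at *
  have hHX : H ≤ X := by
    have : (H : ℝ) ≤ X := by
      rw [hXe]
      exact q2.trans (Real.exp_le_exp.mpr (by linarith))
    exact_mod_cast this
  have hlamL10 : (lam : ℝ) ≤ L ^ 10 := by
    have h1 : l ≤ L := by
      rw [hLexp]
      have := Real.add_one_le_exp l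
      linarith
    calc (lam : ℝ) ≤ L * l ^ 2 := k5
      _ ≤ L * L ^ 2 := by gcongr
      _ = L ^ 3 := by ring
      _ ≤ L ^ 10 := pow_le_pow_right₀ hL1 (by norm_num)
  have hP := hps W H hW1 q1 q3 b₀
  have hQ := hst m (by
      calc 2 ^ m * (C₆ * l ^ 2) = C₆ * (l ^ 2 * 2 ^ m) := by ring
        _ ≤ Real.exp (l / 2) := hexpo
        _ ≤ Real.exp l := Real.exp_le_exp.mpr (by linarith)
        _ = L := hLexp.symm) W H lam b₀ Ω hW1 q1 hWp hlamL10 q2 o2' o3' hsv
      (by rw [o1]; exact hR1) hP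
  have hsub : (((cls X W b₀).filter (fun x : ℤ => (Real.exp (L / 2) < (x : ℝ) ∧
      blockPrime H x) ∧ ∃ ω ∈ Ω, free lam x ω)).card : ℝ) ≤
      (((Finset.Ioc (0 : ℤ) X).filter (fun x : ℤ => (Real.exp (L / 2) < (x : ℝ) ∧
      blockPrime H x) ∧ ∃ ω ∈ Ω, free lam x ω)).card : ℝ) := by
    have h1 : (cls X W b₀).filter (fun x : ℤ => (Real.exp (L / 2) < (x : ℝ) ∧
      blockPrime H x) ∧ ∃ ω ∈ Ω, free lam x ω) ⊆
      (Finset.Ioc (0 : ℤ) X).filter (fun x : ℤ => (Real.exp (L / 2) < (x : ℝ) ∧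
      blockPrime H x) ∧ ∃ ω ∈ Ω, free lam x ω) := by
      apply Finset.filter_subset_filter
      unfold cls
      exact Finset.filter_subset _ _
    exact_mod_cast Finset.card_le_card h1
  have hgaps := gaps_of X H lam Ω o2' (E := Real.exp (L / 2)) (Real.one_le_exp (by linarith))
  have hmono : ((gapIdx lam (X + H)).card : ℝ) ≤ ((gapIdx lam (2 * X)).card : ℝ) := by
    exact_mod_cast gapIdx_mono (by omega)
  have hWpos : (0:ℝ) < W := by exact_mod_cast hW1
  have hHpos : (0:ℝ) < H := by linarith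
  have hfin : c₀ / 4 * (X / W) ≤ 2 * H * ((gapIdx lam (2 * X)).card : ℝ) := by
    refine hQ.trans (hsub.trans (hgaps.trans ?_))
    exact mul_le_mul_of_nonneg_left hmono (by positivity)
  -- conclusion
  have h1 : (X : ℝ) / (8 * W * H / c₀) ≤ ((gapIdx lam (2 * X)).card : ℝ) := by
    rw [div_le_iff₀ (by positivity)]
    have e : ((gapIdx lam (2 * X)).card : ℝ) * (8 * W * H / c₀) =
      4 * W / c₀ * (2 * H * ((gapIdx lam (2 * X)).card : ℝ)) := by ring
    rw [e]
    calc (X : ℝ) = 4 * W / c₀ * (c₀ / 4 * (X / W)) := by field_simp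
      _ ≤ _ := mul_le_mul_of_nonneg_left hfin (by positivity)
  refine le_trans ?_ h1
  rw [Real.exp_neg, ← div_eq_mul_inv]
  exact div_le_div_of_nonneg_left hXpos.le (by positivity) q4

end Run7.h294.R
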