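import Pool.Agent.Run7.h294.R4
import Pool.Agent.Run7.h294.G17

set_option autoImplicit false
set_option linter.unusedSectionVars false

/-! # Frequency of record gaps: real `X` -/

namespace Run7.h294.R

open Finset Filter Run7.h294.G

lemma log_ratio {x x' : ℝ} (h : x / 2 ≤ x') (h' : x' ≤ x) (hx : 7 ≤ Real.log x) :
    9 / 10 * Real.log x ≤ Real.log x' ∧ Real.log x / 2 ≤ Real.log x' ∧
    Real.log x' ≤ Real.log x := by
  have hx0 : 0 < x := by
    by_contra hc
    push Not at hc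
    have h1 : x' ≤ 0 := by linarith
    have h3 : x ≤ 2 * x' := by linarith
    have h4 : x ≤ 2 * x := by linarith
    have h5 : x = 0 := by linarith
    rw [h5, Real.log_zero] at hx
    linarith
  have h1 := Real.log_le_log (by linarith) h
  rw [Real.log_div (by linarith) (by norm_num)] at h1
  have h2 := Real.log_two_lt_d9
  have h3 := Real.log_le_log (by linarith) h'
  exact ⟨by linarith, by linarith, h3⟩

lemma iter_facts : ∀ᶠ X : ℝ in atTop,
    7 ≤ Real.log (Real.log (Real.log (Real.log X))) ∧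
    Real.log (Real.log (Real.log (Real.log X))) ≤ Real.log (Real.log (Real.log X)) ∧
    7 ≤ Real.log (Real.log (Real.log X)) ∧ 7 ≤ Real.log (Real.log X) ∧ 16 ≤ Real.log X ∧
    64 ≤ X := by
  have t1 : Tendsto (fun X : ℝ => Real.log X) atTop atTop := Real.tendsto_log_atTop
  have t2 : Tendsto (fun X : ℝ => Real.log (Real.log X)) atTop atTop := t1.comp t1
  have t3 : Tendsto (fun X : ℝ => Real.log (Real.log (Real.log X))) atTop atTop := t1.comp t2
  have t4 : Tendsto (fun X : ℝ => Real.log (Real.log (Real.log (Real.log X)))) atTop atTop :=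
    t1.comp t3
  filter_upwards [t4.eventually_ge_atTop 7, t3.eventually_ge_atTop 7, t2.eventually_ge_atTop 7,
    t1.eventually_ge_atTop 16, eventually_ge_atTop 64] with X a4 a3 a2 a1 a0
  refine ⟨a4, ?_, a3, a2, a1, a0⟩
  have := Real.log_le_sub_one_of_pos (show 0 < Real.log (Real.log (Real.log X)) by linarith)
  linarith

lemma cmp_num {L l t s L' l' t' s' c₁ lm : ℝ} (hL : 0 < L) (hl : 7 ≤ l) (ht : 7 ≤ t) (hs : 7 ≤ s)
    (hst : s ≤ t) (hexpL : L = Real.exp l)
    (h1 : 9 / 10 * L ≤ L') (h2 : 9 / 10 * l ≤ l') (h3 : 9 / 10 * t ≤ t') (h4 : 9 / 10 * s ≤ s')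
    (h1' : L' ≤ L) (h2' : l' ≤ l) (h3' : t' ≤ t)
    (hc : 0 < c₁) (hc1 : c₁ ≤ 1 / 120) (hlm1 : L * l ≤ lm)
    (hlm2 : lm ≤ c₁ / 4 * (L * l ^ 2 * s / t ^ 2)) :
    L' * l' ≤ lm ∧ lm ≤ c₁ * (L' * l' ^ 2 * s' / t' ^ 2) ∧
    7 * Real.exp ((1 - c₁ * (L' * l' * s' / (lm * t'))) * l') + 2 ≤
      L ^ (1 - c₁ / 4 * (L * l * s / (lm * t))) := by
  have hlm0 : 0 < lm := lt_of_lt_of_le (by positivity) hlm1
  have ht'0 : 0 < t' := by linarith
  have hs'0 : 0 < s' := by linarith
  have hl'0 : 0 < l' := by linarith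
  have hL'0 : 0 < L' := by linarith
  refine ⟨?_, ?_, ?_⟩
  · refine le_trans ?_ hlm1
    gcongr
  · have e1 : L * l ^ 2 * s / t ^ 2 ≤ 4 * (L' * l' ^ 2 * s' / t' ^ 2) := by
      have e2 : L * l ^ 2 * s / t ^ 2 ≤
          (10 / 9 * L') * (10 / 9 * l') ^ 2 * (10 / 9 * s') / t' ^ 2 := by
        have a1 : L ≤ 10 / 9 * L' := by linarith
        have a2 : l ≤ 10 / 9 * l' := by linarith
        have a3 : s ≤ 10 / 9 * s' := by linarith
        gcongr
      refine e2.trans ?_
      have e3 : (10 / 9 * L') * (10 / 9 * l') ^ 2 * (10 / 9 * s') / t' ^ 2 =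
        10000 / 6561 * (L' * l' ^ 2 * s' / t' ^ 2) := by ring
      rw [e3]
      have : 0 ≤ L' * l' ^ 2 * s' / t' ^ 2 := by positivity
      linarith
    calc lm ≤ c₁ / 4 * (L * l ^ 2 * s / t ^ 2) := hlm2
      _ ≤ c₁ / 4 * (4 * (L' * l' ^ 2 * s' / t' ^ 2)) := by gcongr
      _ = _ := by ring
  · obtain ⟨ρ, hρ⟩ : ∃ ρ : ℝ, ρ = c₁ * (L * l * s / (lm * t)) := ⟨_, rfl⟩
    have hρ0 : 0 < ρ := by rw [hρ]; positivity
    have r1 : ρ / 2 ≤ c₁ * (L' * l' * s' / (lm * t')) := by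
      have e1 : L * l * s / (lm * t) ≤ (10 / 9 * L') * (10 / 9 * l') * (10 / 9 * s') / (lm * t') := by
        have a1 : L ≤ 10 / 9 * L' := by linarith
        have a2 : l ≤ 10 / 9 * l' := by linarith
        have a3 : s ≤ 10 / 9 * s' := by linarith
        gcongr
      have e2 : (10 / 9 * L') * (10 / 9 * l') * (10 / 9 * s') / (lm * t') =
        1000 / 729 * (L' * l' * s' / (lm * t')) := by ring
      rw [e2] at e1
      have e3 : 0 ≤ L' * l' * s' / (lm * t') := by positivity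
      calc ρ / 2 = c₁ * (L * l * s / (lm * t) / 2) := by rw [hρ]; ring
        _ ≤ c₁ * (L' * l' * s' / (lm * t')) := by
            apply mul_le_mul_of_nonneg_left _ hc.le
            linarith
    have r2 : ρ ≤ 1 := by
      have e1 : L * l * s / (lm * t) ≤ 1 := by
        rw [div_le_one (by positivity)]
        exact mul_le_mul hlm1 hst (by linarith) hlm0.le
      rw [hρ]
      calc c₁ * (L * l * s / (lm * t)) ≤ 1 * 1 :=
            mul_le_mul (by linarith) e1 (by positivity) (by norm_num)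
        _ = 1 := by norm_num
    have r3 : 4 * t ≤ ρ * l := by
      have e1 : lm * t ^ 2 ≤ c₁ / 4 * (L * l ^ 2 * s) := by
        have := mul_le_mul_of_nonneg_right hlm2 (show 0 ≤ t ^ 2 by positivity)
        have e : c₁ / 4 * (L * l ^ 2 * s / t ^ 2) * t ^ 2 = c₁ / 4 * (L * l ^ 2 * s) := by
          field_simp
        linarith
      have h2 : ρ * l = c₁ * (L * l ^ 2 * s) / (lm * t) := by rw [hρ]; field_simp
      rw [h2, le_div_iff₀ (by positivity)]
      calc 4 * t * (lm * t) = 4 * (lm * t ^ 2) := by ring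
        _ ≤ _ := by linarith
    have r4 : (1 - c₁ * (L' * l' * s' / (lm * t'))) * l' ≤ (1 - ρ / 2) * l := by
      calc (1 - c₁ * (L' * l' * s' / (lm * t'))) * l' ≤ (1 - ρ / 2) * l' := by gcongr
        _ ≤ (1 - ρ / 2) * l := by
            apply mul_le_mul_of_nonneg_left h2'
            linarith
    have r5 : L ^ (1 - c₁ / 4 * (L * l * s / (lm * t))) = Real.exp ((1 - ρ / 4) * l) := by
      rw [hexpL, Real.rpow_def_of_pos (Real.exp_pos _), Real.log_exp, ← hexpL]
      congr 1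
      rw [hρ]
      ring
    rw [r5]
    have r6 : Real.exp ((1 - ρ / 4) * l) = Real.exp ((1 - ρ / 2) * l) * Real.exp (ρ * l / 4) := by
      rw [← Real.exp_add]; congr 1; ring
    have r7 : (9:ℝ) ≤ Real.exp (ρ * l / 4) := by
      have e1 : ρ * l / 4 + 1 ≤ Real.exp (ρ * l / 4 ) := Real.add_one_le_exp _
      have e2 : (3:ℝ) ≤ Real.exp (ρ * l / 8) := by
        have := Real.add_one_le_exp (ρ * l / 8)
        linarith
      have e3 : Real.exp (ρ * l / 4) = Real.exp (ρ * l / 8) * Real.exp (ρ * l / 8) := by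
        rw [← Real.exp_add]; congr 1; ring
      rw [e3]
      nlinarith
    have r8 : (1:ℝ) ≤ Real.exp ((1 - ρ / 2) * l) := by
      apply Real.one_le_exp
      apply mul_nonneg <;> linarith
    have r9 : Real.exp ((1 - c₁ * (L' * l' * s' / (lm * t'))) * l') ≤ Real.exp ((1 - ρ / 2) * l) :=
      Real.exp_le_exp.mpr r4
    rw [r6]
    nlinarith

theorem record_tail : ∃ c : ℝ, 0 < c ∧ ∃ X₀ : ℝ, ∀ X : ℝ, X₀ ≤ X → ∀ lm : ℝ,
    Real.log X * Real.log (Real.log X) ≤ lm →
    lm ≤ c * (Real.log X * (Real.log (Real.log X)) ^ 2 *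
      Real.log (Real.log (Real.log (Real.log X))) / (Real.log (Real.log (Real.log X))) ^ 2) →
    X * Real.exp (-(Real.log X ^ (1 - c * (Real.log X * Real.log (Real.log X) *
      Real.log (Real.log (Real.log (Real.log X))) /
        (lm * Real.log (Real.log (Real.log X))))))) ≤
      ({n : ℕ | (Nat.nth Nat.Prime n : ℝ) ≤ X ∧
        lm ≤ (Nat.nth Nat.Prime (n + 1) : ℝ) - Nat.nth Nat.Prime n}.ncard : ℝ) := by
  obtain ⟨c₁, hc, hc1, X₁, hmain⟩ := main_ii
  have hev := iter_facts.and (half_facts.and (eventually_ge_atTop (4 * (X₁ : ℝ) + 1)))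
  obtain ⟨X₀, hX₀⟩ := hev.exists_forall_of_atTop
  refine ⟨c₁ / 4, by positivity, X₀, ?_⟩
  intro X hX lm hlm1 hlm2
  obtain ⟨⟨d1, d2, d3, d4, d5, d6⟩, ⟨a1, a2, a3, a4, a5, a6⟩, b2⟩ := hX₀ X hX
  have hXpos : 0 < X := by linarith
  have hX1 : X₁ ≤ ⌊X / 2⌋₊ := by
    have : (X₁ : ℝ) ≤ (⌊X / 2⌋₊ : ℝ) := by linarith
    exact_mod_cast this
  have hm := hmain ⌊X / 2⌋₊ hX1 lm
  have h3 := gapIdx_ncard (lam := ⌈lm⌉₊) (Z := 2 * ⌊X / 2⌋₊) (X := X) (g := lm)
    (by push_cast; exact a2) (Nat.le_ceil _)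
  -- iterated logarithms
  have e1 : 9 / 10 * Real.log X ≤ Real.log (⌊X / 2⌋₊ : ℝ) := by
    have h1 := Real.log_le_log (by linarith) a1
    rw [Real.log_div (by linarith) (by norm_num)] at h1
    have h4 : Real.log 4 ≤ 1.6 := by
      have : Real.log 4 = 2 * Real.log 2 := by
        rw [show (4:ℝ) = 2 ^ 2 by norm_num, Real.log_pow]; push_cast; ring
      have := Real.log_two_lt_d9
      norm_num at this ⊢
      linarith
    linarith
  obtain ⟨l1, l2, l3⟩ := log_ratio (x := Real.log X) (x' := Real.log (⌊X / 2⌋₊ : ℝ)) a3 a4 d4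
  obtain ⟨m1, m2, m3⟩ := log_ratio l2 l3 d3
  obtain ⟨n1, n2, n3⟩ := log_ratio m2 m3 d1
  generalize (⌊X / 2⌋₊ : ℕ) = N at *
  have hLpos : 0 < Real.log X := by linarith
  have hexpL : Real.log X = Real.exp (Real.log (Real.log X)) := (Real.exp_log hLpos).symm
  obtain ⟨k1, k2, k3⟩ := cmp_num hLpos d4 d3 d1 d2 hexpL e1 l1 m1 n1 a4 l3 m3 hc hc1 hlm1 hlm2
  have hm' := hm k1 k2
  refine le_trans ?_ (hm'.trans h3)
  generalize Real.exp ((1 - c₁ * (Real.log N * Real.log (Real.log N) *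
    Real.log (Real.log (Real.log (Real.log N))) /
      (lm * Real.log (Real.log (Real.log N))))) * Real.log (Real.log N)) = B at *
  generalize Real.log X ^ (1 - c₁ / 4 * (Real.log X * Real.log (Real.log X) *
      Real.log (Real.log (Real.log (Real.log X))) /
        (lm * Real.log (Real.log (Real.log X))))) = D at *
  have e2 : Real.exp (-D) ≤ Real.exp (-(7 * B)) * (1 / 4) := by
    have e3 : Real.exp (-2) ≤ 1 / 4 := by
      rw [Real.exp_neg, one_div]
      apply inv_anti₀ (by norm_num)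
      have : Real.exp 2 = Real.exp 1 * Real.exp 1 := by rw [← Real.exp_add]; norm_num
      rw [this]
      have := Real.exp_one_gt_d9
      nlinarith
    calc Real.exp (-D) ≤ Real.exp (-(7 * B) + (-2)) := by
            apply Real.exp_le_exp.mpr
            linarith
      _ = Real.exp (-(7 * B)) * Real.exp (-2) := Real.exp_add _ _
      _ ≤ _ := mul_le_mul_of_nonneg_left e3 (Real.exp_pos _).le
  calc X * Real.exp (-D) ≤ X * (Real.exp (-(7 * B)) * (1 / 4)) :=
        mul_le_mul_of_nonneg_left e2 hXpos.le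
    _ = X / 4 * Real.exp (-(7 * B)) := by ring
    _ ≤ (N : ℝ) * Real.exp (-(7 * B)) := mul_le_mul_of_nonneg_right a1 (Real.exp_pos _).le

end Run7.h294.R
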