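import Pool.Agent.Run7.h294.S1
import Pool.Agent.Run7.h294.D2
import Pool.Agent.H256R2.SC.G3
import Pool.Agent.N837.LP.Tot

set_option autoImplicit false
set_option linter.unusedSectionVars false

/-! # Forms without prime values at integers coprime to a modulus: one class of the small primes -/

namespace Run7.h294.S

open Finset Filter Run7.h294.G Run7.h294.H Run7.h294.D Pool.Agent.H256R2.SC

open scoped Classical

lemma tot_low (D : ℕ) (hD : 0 < D) : (D : ℝ) ≤ D.totient * (2 * (1 + Real.log D)) := by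
  have h := Pool.Agent.N837.LP.div_totient_le_log D hD
  have hφ : (0:ℝ) < D.totient := by exact_mod_cast Nat.totient_pos.2 hD
  rw [div_le_iff₀ hφ] at h
  linarith

theorem class_single : ∃ c₅ C₆ : ℝ, 0 < c₅ ∧ 1 ≤ C₆ ∧
    ∃ L₀ : ℝ, ∀ d : ℕ, L₀ ≤ Real.log d → ∀ m : ℕ,
    2 ^ m * (C₆ * (Real.log (Real.log d)) ^ 2) ≤ Real.log d →
    ∀ T : Finset (ℕ × ℤ), (∀ t ∈ T, 1 ≤ t.1 ∧ IsCoprime (t.1 : ℤ) t.2) →
    (∀ t ∈ T, (t.1 : ℝ) ≤ Real.exp (2 * Real.log d)) →
    (∀ t ∈ T, |(t.2 : ℝ)| ≤ Real.exp (2 * Real.log d)) →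
    (T.card : ℝ) ≤ (Real.log d) ^ 2 →
    ∀ (W b : ℕ), 1 ≤ W → W.Coprime d → (W : ℝ) ≤ Real.exp (Real.log d / 8) →
    (∀ p : ℕ, p.Prime → p ∣ W → (p : ℝ) ≤ Real.log d) →
    ((T.filter (fun t => IsCoprime ((t.1 : ℤ) * b + t.2) (W : ℤ))).card : ℝ) ≤
      c₅ * (m + 1) * Real.log d / Real.log (Real.log d) →
    (d.totient : ℝ) / W / 2 * Real.exp (-(C₆ * ((Real.log (Real.log d)) ^ 2 * 2 ^ m))) ≤
    (((Finset.Ico (0 : ℤ) ((d / W : ℕ) : ℤ)).filter (fun x : ℤ =>
      IsCoprime ((b : ℤ) + W * x) (d : ℤ) ∧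
      Cov (Real.exp (Real.log d / 10)) T ((b : ℤ) + W * x))).card : ℝ) := by
  obtain ⟨c₅, C₆, hc5, hC6, L₀, hL₀⟩ := single 10 le_rfl
  obtain ⟨D₁, hD₁⟩ := G3.omega_bound
  refine ⟨c₅, C₆, hc5, hC6, max L₀ (max 200 (Real.log (D₁ + 1) + 1)), ?_⟩
  intro d hX m hm T hT hTq hTa hTc W b hW hWd hWL hWp hsurv
  have hL10 : 200 ≤ Real.log d := (le_max_left _ _).trans ((le_max_right _ _).trans hX)
  have hLD : Real.log (D₁ + 1) + 1 ≤ Real.log d :=
    (le_max_right _ _).trans ((le_max_right _ _).trans hX)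
  have hLe := hL₀ (Real.log d) ((le_max_left _ _).trans hX) m hm
  clear hL₀ hX
  have hXpos : (0:ℝ) < d := by
    by_contra hc
    have : (d : ℝ) = 0 := le_antisymm (not_lt.mp hc) (Nat.cast_nonneg _)
    rw [this, Real.log_zero] at hL10
    linarith
  have hd0 : 0 < d := by exact_mod_cast hXpos
  have hXe : (d : ℝ) = Real.exp (Real.log d) := (Real.exp_log hXpos).symm
  have hdD : D₁ ≤ d := by
    have h1 : Real.log (D₁ + 1) ≤ Real.log d := by linarith
    have h2 : ((D₁ : ℝ) + 1) ≤ d := (Real.log_le_log_iff (by positivity) hXpos).1 h1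
    have h3 : (D₁ : ℝ) ≤ d := by linarith
    exact_mod_cast h3
  have hom := hD₁ d hdD
  have hWpos : (0:ℝ) < W := by exact_mod_cast hW
  have hφpos : (0:ℝ) < d.totient := by exact_mod_cast Nat.totient_pos.2 hd0
  -- the number of the points
  obtain ⟨T0, hT0⟩ : ∃ T0 : ℕ, T0 = d / W := ⟨_, rfl⟩
  have hWd2 : 2 * (W : ℝ) ≤ d := by
    have h1 : (2:ℝ) ≤ Real.exp (Real.log d * (7 / 8)) := by
      have := Real.add_one_le_exp (Real.log d * (7 / 8))
      linarith
    calc 2 * (W : ℝ) ≤ Real.exp (Real.log d * (7 / 8)) * Real.exp (Real.log d / 8) :=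
          mul_le_mul h1 hWL (Nat.cast_nonneg _) (Real.exp_pos _).le
      _ = Real.exp (Real.log d) := by rw [← Real.exp_add]; congr 1; ring
      _ = d := hXe.symm
  have hT0r : (d : ℝ) / W / 2 ≤ T0 := by
    have h1 : (d : ℝ) / W < T0 + 1 := by
      rw [hT0, div_lt_iff₀ hWpos]
      have h2 : d < (d / W + 1) * W := by
        have := Nat.lt_succ_iff.2 (le_refl (d / W))
        exact (Nat.div_lt_iff_lt_mul (by omega)).1 this
      exact_mod_cast h2
    have h3 : 2 ≤ (d : ℝ) / W := by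
      rw [le_div_iff₀ hWpos]
      exact hWd2
    linarith
  obtain ⟨N, hN⟩ : ∃ N : ℝ, N = (T0 : ℝ) * (d.totient : ℝ) / d := ⟨_, rfl⟩
  have hN1 : (d.totient : ℝ) / W / 2 ≤ N := by
    rw [hN, le_div_iff₀ hXpos]
    calc (d.totient : ℝ) / W / 2 * d = ((d : ℝ) / W / 2) * d.totient := by ring
      _ ≤ (T0 : ℝ) * d.totient := mul_le_mul_of_nonneg_right hT0r hφpos.le
  have hNL : Real.exp (Real.log d / 2) ≤ N := by
    refine le_trans ?_ hN1
    have h1 := tot_low d hd0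
    have h2 : 4 * (1 + Real.log d) ≤ Real.exp (Real.log d / 4) := by
      have := Real.quadratic_le_exp_of_nonneg (x := Real.log d / 4) (by linarith)
      nlinarith
    rw [div_div, le_div_iff₀ (by positivity)]
    have h3 : 0 < 2 * (1 + Real.log d) := by linarith
    have h4 : (d : ℝ) / (2 * (1 + Real.log d)) ≤ d.totient := by
      rw [div_le_iff₀ h3]
      exact h1
    refine le_trans ?_ h4
    rw [le_div_iff₀ h3]
    calc Real.exp (Real.log d / 2) * (W * 2) * (2 * (1 + Real.log d))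
        = Real.exp (Real.log d / 2) * W * (4 * (1 + Real.log d)) := by ring
      _ ≤ Real.exp (Real.log d / 2) * Real.exp (Real.log d / 8) * Real.exp (Real.log d / 4) := by
          gcongr
      _ = Real.exp (7 / 8 * Real.log d) := by
          rw [← Real.exp_add, ← Real.exp_add]; congr 1; ring
      _ ≤ Real.exp (Real.log d) := Real.exp_le_exp.mpr (by linarith)
      _ = d := hXe.symm
  have hcount : ∀ q : ℕ, 0 < q → Nat.Coprime q d → ∀ r : ℤ,
      |((((Finset.Ico (0:ℤ) (T0 : ℤ)).filter (fun x => IsCoprime ((b : ℤ) + W * x) (d : ℤ))).filter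
      (fun x => (q : ℤ) ∣ x - r)).card : ℝ) - N / q| ≤ Real.exp (Real.log d / 10) := by
    intro q hq hqd r
    have h1 := G3.count_main d W q (by omega) hq hWd hqd (b : ℤ) 0 r T0
    rw [zero_add] at h1
    rw [hN]
    refine h1.trans (hom.trans ?_)
    rw [Real.rpow_def_of_pos hXpos]
    exact Real.exp_le_exp.mpr (by linarith)
  rw [← hT0]
  have hdpf : (d.primeFactors.card : ℝ) ≤ 2 * Real.log d :=
    primeFactors_card_le (by omega) (by rw [← hXe])
  refine le_trans (mul_le_mul_of_nonneg_right hN1 (Real.exp_pos _).le) ?_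
  clear hN1 hN hT0r hWd2 hom
  clear hXe
  generalize Real.log (d : ℝ) = L at *
  have hLpos : 0 < L := by linarith
  -- the excluded primes
  have hKL : 1 ≤ 2 * L := by linarith
  obtain ⟨PP, hPP, key⟩ := hLe ((badN T).primeFactors ∪ d.primeFactors) (by
    have h1 := primeFactors_card_le (badN_ne hT) (badN_le hT hKL hTq hTa)
    have h2 : (T.card : ℝ) ^ 2 ≤ (L ^ 2) ^ 2 := pow_le_pow_left₀ (Nat.cast_nonneg _) hTc 2
    have h3 : ((((badN T).primeFactors ∪ d.primeFactors).card : ℕ) : ℝ) ≤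
        ((badN T).primeFactors.card : ℝ) + (d.primeFactors.card : ℝ) := by
      exact_mod_cast Finset.card_union_le _ _
    calc 2 * ((((badN T).primeFactors ∪ d.primeFactors).card : ℕ) : ℝ)
        ≤ 2 * (2 * (3 * (2 * L) * (T.card : ℝ) ^ 2) + 2 * L) := by linarith
      _ ≤ 2 * (2 * (3 * (2 * L) * (L ^ 2) ^ 2) + 2 * L) := by gcongr
      _ = 24 * L ^ 5 + 4 * L := by ring
      _ ≤ 24 * L ^ 5 + 4 * L ^ 5 := by
          have : L ≤ L ^ 5 := le_self_pow₀ (by linarith) (by norm_num)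
          linarith
      _ = 28 * L ^ 5 := by ring
      _ ≤ L * L ^ 5 := by
          have : 0 < L ^ 5 := by positivity
          nlinarith
      _ = L ^ 6 := by ring
      _ ≤ L ^ 10 := pow_le_pow_right₀ (by linarith) (by norm_num))
  have hPPprime : ∀ p ∈ PP, p.Prime := fun p hp => (hPP p hp).1
  have hPPL : ∀ p ∈ PP, L < (p : ℝ) := by
    intro p hp
    have h2 : L ≤ L ^ 10 := le_self_pow₀ (by linarith) (by norm_num)
    exact lt_of_le_of_lt h2 (hPP p hp).2.1
  have hPPbad : ∀ p ∈ PP, ¬ p ∣ badN T := by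
    intro p hp hd
    exact (hPP p hp).2.2.2 (Finset.mem_union_left _
      (Nat.mem_primeFactors.2 ⟨hPPprime p hp, hd, badN_ne hT⟩))
  have hPPd : ∀ p ∈ PP, ¬ p ∣ d := by
    intro p hp hd
    exact (hPP p hp).2.2.2 (Finset.mem_union_right _
      (Nat.mem_primeFactors.2 ⟨hPPprime p hp, hd, by omega⟩))
  have hPPW : ∀ p ∈ PP, ¬ p ∣ W := by
    intro p hp hd
    have h1 := hWp p (hPPprime p hp) hd
    have h2 := hPPL p hp
    linarith
  have hvirt : ∀ t : ℕ × ℤ, ∃ α : ℤ, t ∈ T → ∀ p ∈ PP,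
      (p : ℤ) ∣ ((t.1 * W : ℕ) : ℤ) * α - ((t.1 : ℤ) * b + t.2) := by
    intro t
    by_cases ht : t ∈ T
    · obtain ⟨α, hα⟩ := virt PP hPPprime ((t.1 * W : ℕ), ((t.1 : ℤ) * b + t.2)) (fun p hp hd => by
        rcases (Nat.Prime.dvd_mul (hPPprime p hp)).1 hd with h | h
        · exact hPPbad p hp (badN_coef ht h)
        · exact hPPW p hp h)
      exact ⟨α, fun _ => hα⟩
    · exact ⟨0, fun h => absurd h ht⟩
  choose α hα using hvirt
  -- the relation of the virtual shifts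
  have hrel : ∀ t ∈ T, ∀ t' ∈ T, ∀ p ∈ PP, (p : ℤ) ∣ α t - α t' → (p : ℤ) ∣ dt t t' := by
    intro t ht t' ht' p hp hd
    have h1 := hα t ht p hp
    have h2 := hα t' ht' p hp
    have e : dt t t' =
        (t.1 : ℤ) * t'.1 * W * (α t - α t') - t'.1 * (((t.1 * W : ℕ) : ℤ) * α t -
          ((t.1 : ℤ) * b + t.2)) +
          t.1 * (((t'.1 * W : ℕ) : ℤ) * α t' - ((t'.1 : ℤ) * b + t'.2)) := by
      unfold dt
      push_cast
      ring
    rw [e]
    exact dvd_add (dvd_sub (hd.mul_left _) (h1.mul_left _)) (h2.mul_left _)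
  have key := key ((T.filter (fun t => IsCoprime ((t.1 : ℤ) * b + t.2) (W : ℤ))).image α)
    ((Finset.Ico (0:ℤ) (T0 : ℤ)).filter (fun x => IsCoprime ((b : ℤ) + W * x) (d : ℤ))) N hNL
    (by
      refine le_trans ?_ hsurv
      exact_mod_cast Finset.card_image_le)
    (by
      intro p hp z hz z' hz' hne hdvd
      rw [Finset.mem_image] at hz hz'
      obtain ⟨t, ht, rfl⟩ := hz
      obtain ⟨t', ht', rfl⟩ := hz'
      rw [Finset.mem_filter] at ht ht'
      have htt : t ≠ t' := fun h => hne (by rw [h])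
      have h1 := hrel t ht.1 t' ht'.1 p hp hdvd
      exact hPPbad p hp (badN_det ht.1 ht'.1 htt h1))
    (by
      intro q hq hqL hqp r
      have hq1 : 1 ≤ q := Nat.one_le_iff_ne_zero.2 hq.ne_zero
      have hcop : q.Coprime d := by
        apply Nat.coprime_of_dvd
        intro p hp hpq hpd
        exact hPPd p (hqp p (Nat.mem_primeFactors.2 ⟨hp, hpq, hq.ne_zero⟩)) hpd
      exact hcount q hq1 hcop r)
  refine le_trans key ?_
  have hL10e : L ≤ Real.exp (L / 10) := by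
    have h2 := Real.quadratic_le_exp_of_nonneg (x := L / 10) (by positivity)
    nlinarith
  have hsub : (((Finset.Ico (0:ℤ) (T0 : ℤ)).filter (fun x =>
      IsCoprime ((b : ℤ) + W * x) (d : ℤ))).filter (fun x =>
        ∀ a ∈ (T.filter (fun t => IsCoprime ((t.1 : ℤ) * b + t.2) (W : ℤ))).image α,
          ∃ p ∈ PP, (p : ℤ) ∣ x + a)) ⊆
      ((Finset.Ico (0:ℤ) (T0 : ℤ)).filter (fun x : ℤ =>
      IsCoprime ((b : ℤ) + W * x) (d : ℤ) ∧ Cov (Real.exp (L / 10)) T ((b : ℤ) + W * x))) := by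
    intro x hx
    rw [Finset.mem_filter, Finset.mem_filter] at hx
    rw [Finset.mem_filter]
    obtain ⟨⟨hx1, hx2⟩, hx3⟩ := hx
    refine ⟨hx1, hx2, ?_⟩
    intro t ht
    by_cases hcop : IsCoprime ((t.1 : ℤ) * b + t.2) (W : ℤ)
    · obtain ⟨p, hp, hpd⟩ := hx3 (α t) (Finset.mem_image_of_mem _
        (Finset.mem_filter.2 ⟨ht, hcop⟩))
      refine ⟨p, hPPprime p hp, (hPP p hp).2.2.1, ?_⟩
      have h1 := hα t ht p hp
      have e : (t.1 : ℤ) * ((b : ℤ) + W * x) + t.2 = (t.1 : ℤ) * W * (x + α t) -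
          (((t.1 * W : ℕ) : ℤ) * α t - ((t.1 : ℤ) * b + t.2)) := by
        push_cast
        ring
      rw [e]
      exact dvd_sub (hpd.mul_left _) h1
    · rw [Int.isCoprime_iff_gcd_eq_one] at hcop
      obtain ⟨p, hp, hpd⟩ := Nat.exists_prime_and_dvd hcop
      have hp1 : (p : ℤ) ∣ (t.1 : ℤ) * b + t.2 :=
        (Int.natCast_dvd_natCast.2 hpd).trans (Int.gcd_dvd_left _ _)
      have hp2 : (p : ℤ) ∣ (W : ℤ) := (Int.natCast_dvd_natCast.2 hpd).trans (Int.gcd_dvd_right _ _)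
      have hpL := hWp p hp (by exact_mod_cast hp2)
      refine ⟨p, hp, by linarith, ?_⟩
      have e : (t.1 : ℤ) * ((b : ℤ) + W * x) + t.2 =
          ((t.1 : ℤ) * b + t.2) + t.1 * (W * x) := by ring
      rw [e]
      exact dvd_add hp1 ((hp2.mul_right _).mul_left _)
  exact_mod_cast Finset.card_le_card hsub

end Run7.h294.S
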