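import Pool.Agent.Run7.h294.S2
import Pool.Agent.Run7.h294.D3

set_option autoImplicit false
set_option linter.unusedSectionVars false

/-! # Least primes in all the classes `± h a`: every modulus -/

namespace Run7.h294.S

open Finset Filter Run7.h294.G Run7.h294.H Run7.h294.D Pool.Agent.H318R2.Cr

open scoped Classical

lemma tot_prod (n : ℕ) : (n.totient : ℝ) = n * ∏ p ∈ n.primeFactors, (1 - 1 / (p : ℝ)) := by
  have h5 := Nat.totient_eq_mul_prod_factors n
  have h7 : ((((n).totient : ℚ)) : ℝ) =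
      (((n : ℚ) * ∏ p ∈ n.primeFactors, (1 - (p : ℚ)⁻¹) : ℚ) : ℝ) := by
    rw [h5]
  push_cast at h7
  rw [h7]
  congr 1
  apply Finset.prod_congr rfl
  intro p _
  rw [one_div]

/-- the primes up to `y` which do not divide `d` -/
lemma w_facts (d y : ℕ) (hd : 1 ≤ d) :
    ∃ W : ℕ, 1 ≤ W ∧ Squarefree W ∧ W.Coprime d ∧ (W : ℝ) ≤ Real.exp (2 * y) ∧
      (∀ p : ℕ, p.Prime → p ∣ W → p ≤ y) ∧
      (W.totient : ℝ) * d.totient ≤ V y * (W * d) := by
  obtain ⟨S, hS⟩ : ∃ S : Finset ℕ, S = Pz y \ d.primeFactors := ⟨_, rfl⟩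
  have hPz : ∀ p, p ∈ Pz y ↔ p.Prime ∧ p ≤ y := by
    intro p
    unfold Pz
    rw [Finset.mem_filter, Finset.mem_Ioc]
    constructor
    · rintro ⟨⟨_, h⟩, h'⟩; exact ⟨h', h⟩
    · rintro ⟨h, h'⟩; exact ⟨⟨h.pos, h'⟩, h⟩
  have hSp : ∀ p ∈ S, p.Prime := by
    intro p hp
    rw [hS, Finset.mem_sdiff] at hp
    exact ((hPz p).1 hp.1).1
  have hpf : (∏ p ∈ S, p).primeFactors = S := Nat.primeFactors_prod hSp
  have hne : (∏ p ∈ S, p) ≠ 0 := Finset.prod_ne_zero_iff.2 fun p hp => (hSp p hp).ne_zero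
  refine ⟨∏ p ∈ S, p, Nat.one_le_iff_ne_zero.2 hne, ?_, ?_, ?_, ?_, ?_⟩
  · refine Finset.squarefree_prod_of_pairwise_isCoprime ?_ ?_
    · intro p hp q hq hpq
      exact Nat.coprime_iff_isRelPrime.mp
        ((Nat.coprime_primes (hSp p hp) (hSp q hq)).2 hpq)
    · intro p hp
      exact (hSp p hp).prime.squarefree
  · refine Nat.Coprime.prod_left fun p hp => ?_
    rw [(hSp p hp).coprime_iff_not_dvd]
    intro hpd
    rw [hS, Finset.mem_sdiff] at hp
    exact hp.2 (Nat.mem_primeFactors.2 ⟨((hPz p).1 hp.1).1, hpd, by omega⟩)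
  · have h1 : (∏ p ∈ S, p) ∣ primorial y := by
      unfold primorial
      apply Finset.prod_dvd_prod_of_subset
      intro p hp
      rw [hS, Finset.mem_sdiff] at hp
      obtain ⟨h2, h3⟩ := (hPz p).1 hp.1
      rw [Finset.mem_filter, Finset.mem_range]
      exact ⟨by omega, h2⟩
    have h2 : (∏ p ∈ S, p) ≤ 4 ^ y :=
      (Nat.le_of_dvd (primorial_pos y) h1).trans (primorial_le_four_pow y)
    have h3 : (4:ℝ) ≤ Real.exp 2 := by
      have e1 := Real.exp_one_gt_d9
      have e2 : Real.exp 2 = Real.exp 1 * Real.exp 1 := by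
        rw [← Real.exp_add]; norm_num
      rw [e2]
      nlinarith
    calc (((∏ p ∈ S, p : ℕ)) : ℝ) ≤ (4:ℝ) ^ y := by exact_mod_cast h2
      _ ≤ (Real.exp 2) ^ y := pow_le_pow_left₀ (by norm_num) h3 y
      _ = Real.exp (2 * y) := by rw [← Real.exp_nat_mul]; congr 1; ring
  · intro p hp hpW
    have : p ∈ (∏ p ∈ S, p).primeFactors := Nat.mem_primeFactors.2 ⟨hp, hpW, hne⟩
    rw [hpf, hS, Finset.mem_sdiff] at this
    exact ((hPz p).1 this.1).2
  · rw [tot_prod (∏ p ∈ S, p), tot_prod d, hpf]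
    have hf : ∀ p : ℕ, p.Prime → 0 ≤ 1 - 1 / (p : ℝ) ∧ 1 - 1 / (p : ℝ) ≤ 1 := by
      intro p hp
      have h1 : (1:ℝ) ≤ p := by exact_mod_cast hp.one_lt.le
      have h2 : 1 / (p : ℝ) ≤ 1 := by rw [div_le_one (by linarith)]; exact h1
      have h3 : 0 ≤ 1 / (p : ℝ) := by positivity
      constructor <;> linarith
    have hdisj : Disjoint S d.primeFactors := by
      rw [hS]; exact Finset.sdiff_disjoint
    have hun : S ∪ d.primeFactors = Pz y ∪ d.primeFactors := by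
      rw [hS, Finset.sdiff_union_self_eq_union]
    have hprod : (∏ p ∈ S, (1 - 1 / (p : ℝ))) * ∏ p ∈ d.primeFactors, (1 - 1 / (p : ℝ)) ≤
        V y := by
      rw [← Finset.prod_union hdisj, hun]
      unfold V
      rw [← Finset.prod_sdiff (Finset.subset_union_left (s₁ := Pz y) (s₂ := d.primeFactors))]
      apply mul_le_of_le_one_left
      · exact Finset.prod_nonneg fun p hp => (hf p ((hPz p).1 hp).1).1
      · refine Finset.prod_le_one (fun p hp => ?_) (fun p hp => ?_)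
        · rw [Finset.mem_sdiff, Finset.mem_union] at hp
          rcases hp.1 with h | h
          · exact (hf p ((hPz p).1 h).1).1
          · exact (hf p (Nat.prime_of_mem_primeFactors h)).1
        · rw [Finset.mem_sdiff, Finset.mem_union] at hp
          rcases hp.1 with h | h
          · exact (hf p ((hPz p).1 h).1).2
          · exact (hf p (Nat.prime_of_mem_primeFactors h)).2
    have h0 : (0:ℝ) ≤ ((∏ p ∈ S, p : ℕ) : ℝ) * d := by positivity
    calc ((∏ p ∈ S, p : ℕ) : ℝ) * (∏ p ∈ S, (1 - 1 / (p : ℝ))) *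
          (d * ∏ p ∈ d.primeFactors, (1 - 1 / (p : ℝ)))
        = ((∏ p ∈ S, (1 - 1 / (p : ℝ))) * ∏ p ∈ d.primeFactors, (1 - 1 / (p : ℝ))) *
          (((∏ p ∈ S, p : ℕ) : ℝ) * d) := by ring
      _ ≤ V y * (((∏ p ∈ S, p : ℕ) : ℝ) * d) := mul_le_mul_of_nonneg_right hprod h0

end Run7.h294.S
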