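import Pool.Agent.Run7.h294.S3

set_option autoImplicit false
set_option linter.unusedSectionVars false

/-! # Least primes in all the classes `± h a`: preparations -/

namespace Run7.h294.S

open Finset Filter Run7.h294.G Run7.h294.H Run7.h294.D

open scoped Classical

/-- the forms `h a + r + j d` -/
noncomputable def forms (d : ℕ) (H : Finset (ℕ × ℕ)) (R : ℕ) : Finset (ℕ × ℤ) :=
  (H ×ˢ Finset.Icc (-(R:ℤ)) R).image (fun hj => (hj.1.1, (hj.1.2 : ℤ) + hj.2 * (d:ℤ)))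

lemma mem_forms {d : ℕ} {H : Finset (ℕ × ℕ)} {R : ℕ} {t : ℕ × ℤ} :
    t ∈ forms d H R ↔ ∃ z ∈ H, ∃ j : ℤ, -(R:ℤ) ≤ j ∧ j ≤ R ∧
      t = (z.1, (z.2 : ℤ) + j * (d:ℤ)) := by
  unfold forms
  rw [Finset.mem_image]
  constructor
  · rintro ⟨⟨h, j⟩, hm, rfl⟩
    rw [Finset.mem_product, Finset.mem_Icc] at hm
    exact ⟨h, hm.1, j, hm.2.1, hm.2.2, rfl⟩
  · rintro ⟨h, hh, j, h1, h2, rfl⟩
    exact ⟨(h, j), Finset.mem_product.2 ⟨hh, Finset.mem_Icc.2 ⟨h1, h2⟩⟩, rfl⟩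

lemma forms_card (d : ℕ) (H : Finset (ℕ × ℕ)) (R : ℕ) :
    ((forms d H R).card : ℝ) ≤ H.card * (2 * R + 1) := by
  have h1 : (forms d H R).card ≤ H.card * (2 * R + 1) := by
    unfold forms
    refine Finset.card_image_le.trans ?_
    rw [Finset.card_product, Int.card_Icc]
    apply Nat.mul_le_mul_left
    omega
  exact_mod_cast h1

lemma forms_sum {d : ℕ} (hd : 1 ≤ d) (H : Finset (ℕ × ℕ)) (hH : ∀ z ∈ H, z.2 < d) (R : ℕ) :
    ∑ t ∈ forms d H R, (t.1 : ℝ) / t.1.totient =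
      (2 * R + 1) * ∑ z ∈ H, (z.1 : ℝ) / z.1.totient := by
  unfold forms
  have hd0 : (d : ℤ) ≠ 0 := by exact_mod_cast (by omega : d ≠ 0)
  rw [Finset.sum_image (by
    rintro ⟨⟨h, r⟩, j⟩ hm ⟨⟨h', r'⟩, j'⟩ hm' heq
    rw [Finset.mem_coe, Finset.mem_product] at hm hm'
    have hr : r < d := hH _ hm.1
    have hr' : r' < d := hH _ hm'.1
    simp only [Prod.mk.injEq] at heq
    obtain ⟨h1, h2⟩ := heq
    have h3 : ((r : ℤ) + j * d) % d = ((r' : ℤ) + j' * d) % d := by rw [h2]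
    rw [Int.add_mul_emod_self_right, Int.add_mul_emod_self_right,
      Int.emod_eq_of_lt (Nat.cast_nonneg _) (by exact_mod_cast hr),
      Int.emod_eq_of_lt (Nat.cast_nonneg _) (by exact_mod_cast hr')] at h3
    have h4 : r = r' := by exact_mod_cast h3
    subst h4
    subst h1
    have h5 : j * (d : ℤ) = j' * d := by linarith
    rw [mul_right_cancel₀ hd0 h5])]
  rw [Finset.sum_product]
  simp only
  rw [Finset.mul_sum]
  refine Finset.sum_congr rfl fun h _ => ?_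
  rw [Finset.sum_const, nsmul_eq_mul, Int.card_Icc]
  congr 1
  have : ((R : ℤ) + 1 - -(R : ℤ)).toNat = 2 * R + 1 := by omega
  rw [this]
  push_cast
  ring

/-- adding up the classes -/
lemma sum_classes (d W : ℕ) (hW : 1 ≤ W) (G : Finset ℕ) (hG : ∀ b ∈ G, b < W) (Q : ℤ → Prop)
    (E : ℝ)
    (h : ∀ b ∈ G, E ≤ (((Finset.Ico (0:ℤ) ((d / W : ℕ) : ℤ)).filter
      (fun x : ℤ => Q ((b : ℤ) + W * x))).card : ℝ)) :
    (G.card : ℝ) * E ≤ (((Finset.Ico (0:ℤ) (d : ℤ)).filter Q).card : ℝ) := by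
  have h1 : (G.card : ℝ) * E ≤ ∑ b ∈ G, (((Finset.Ico (0:ℤ) ((d / W : ℕ) : ℤ)).filter
      (fun x : ℤ => Q ((b : ℤ) + W * x))).card : ℝ) := by
    rw [← nsmul_eq_mul, ← Finset.sum_const]
    exact Finset.sum_le_sum h
  refine h1.trans ?_
  have h2 : ∑ b ∈ G, ((Finset.Ico (0:ℤ) ((d / W : ℕ) : ℤ)).filter
      (fun x : ℤ => Q ((b : ℤ) + W * x))).card ≤
      ((Finset.Ico (0:ℤ) (d : ℤ)).filter Q).card := by
    rw [← Finset.card_sigma]
    apply Finset.card_le_card_of_injOn (fun bx : (_ : ℕ) × ℤ => (bx.1 : ℤ) + W * bx.2)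
    · rintro ⟨b, x⟩ hbx
      rw [Finset.mem_coe, Finset.mem_sigma] at hbx
      obtain ⟨hb, hx⟩ := hbx
      simp only [Finset.mem_filter, Finset.mem_Ico] at hx
      rw [Finset.mem_coe, Finset.mem_filter, Finset.mem_Ico]
      obtain ⟨⟨hx0, hx1⟩, hQ⟩ := hx
      have hbW : (b : ℤ) < W := by exact_mod_cast hG b hb
      have hW0 : (0:ℤ) ≤ W := Nat.cast_nonneg _
      refine ⟨⟨?_, ?_⟩, hQ⟩
      · simp only
        positivity
      · simp only
        have e1 : (W : ℤ) * x ≤ W * (((d / W : ℕ) : ℤ) - 1) :=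
          mul_le_mul_of_nonneg_left (by omega) hW0
        have e2 : (W : ℤ) * ((d / W : ℕ) : ℤ) ≤ d := by
          have := Nat.mul_div_le d W
          exact_mod_cast this
        have e3 : (W : ℤ) * (((d / W : ℕ) : ℤ) - 1) = W * ((d / W : ℕ) : ℤ) - W := by ring
        linarith
    · rintro ⟨b, x⟩ hbx ⟨b', x'⟩ hbx' heq
      rw [Finset.mem_coe, Finset.mem_sigma] at hbx hbx'
      simp only at heq
      have hb := hG b hbx.1
      have hb' := hG b' hbx'.1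
      have h3 : ((b : ℤ) + W * x) % W = ((b' : ℤ) + W * x') % W := by rw [heq]
      rw [Int.add_mul_emod_self_left, Int.add_mul_emod_self_left,
        Int.emod_eq_of_lt (Nat.cast_nonneg _) (by exact_mod_cast hb),
        Int.emod_eq_of_lt (Nat.cast_nonneg _) (by exact_mod_cast hb')] at h3
      have h4 : b = b' := by exact_mod_cast h3
      subst h4
      have hW0 : (W : ℤ) ≠ 0 := by exact_mod_cast (by omega : W ≠ 0)
      have h5 : (W : ℤ) * x = W * x' := by linarith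
      have h6 := mul_left_cancel₀ hW0 h5
      rw [h6]
  exact_mod_cast h2

/-- an integer that is covered and for which no form is small -/
lemma no_primes {d : ℕ} (hd : 1 ≤ d) {H : Finset (ℕ × ℕ)} {s P B : ℝ} (hP : s ≤ P)
    (hs1 : 1 ≤ s)
    (hH : ∀ z ∈ H, 1 ≤ z.1 ∧ (z.1 : ℝ) ≤ s ∧ z.2 < d) {R : ℕ} (hR : B / d + 2 * s < R + 1)
    {a : ℤ} (ha0 : 0 ≤ a) (had : a < d)
    (hcov : Cov P ((forms d H R).filter (fun t => IsCoprime (t.1 : ℤ) t.2)) a)
    (hsm : ∀ t ∈ forms d H R, P < |(((t.1 : ℤ) * a + t.2 : ℤ) : ℝ)|) :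
    ∀ z ∈ H, ∀ n : ℤ, n ≡ (z.1 : ℤ) * a + z.2 [ZMOD (d : ℤ)] → |(n : ℝ)| ≤ B →
      ¬ n.natAbs.Prime := by
  rintro ⟨h, r⟩ hh n hn hnB hp
  obtain ⟨hh1, hhs, hrd⟩ := hH _ hh
  simp only at hh1 hhs hrd hn
  have hdpos : (0:ℝ) < d := by exact_mod_cast hd
  obtain ⟨j, hj⟩ := (Int.modEq_iff_dvd.1 hn.symm)
  have hnj : n = (h : ℤ) * a + (r + j * d) := by linarith
  have hs0 : (0:ℝ) ≤ s := by linarith
  have hjabs : |(j : ℝ)| ≤ B / d + 2 * s := by
    have e1 : (j : ℝ) * d = n - (h * a + r) := by rw [hnj]; push_cast; ring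
    have e2 : |(j : ℝ)| * d ≤ B + 2 * s * d := by
      have : |(j : ℝ)| * d = |(j : ℝ) * d| := by rw [abs_mul, abs_of_pos hdpos]
      rw [this, e1]
      have ha0' : (0:ℝ) ≤ a := by exact_mod_cast ha0
      have had' : (a:ℝ) ≤ d := by exact_mod_cast had.le
      have hrd' : (r:ℝ) ≤ d := by exact_mod_cast hrd.le
      calc |(n : ℝ) - (h * a + r)| ≤ |(n : ℝ)| + |(h : ℝ) * a + r| := abs_sub _ _
        _ = |(n : ℝ)| + ((h : ℝ) * a + r) := by
            rw [abs_of_nonneg (show (0:ℝ) ≤ (h:ℝ) * a + r by positivity)]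
        _ ≤ B + (s * d + 1 * d) := by
            rw [one_mul]
            gcongr
        _ ≤ B + (s * d + s * d) := by gcongr
        _ = B + 2 * s * d := by ring
    have e3 : |(j : ℝ)| ≤ (B + 2 * s * d) / d := (le_div_iff₀ hdpos).2 e2
    have e4 : (B + 2 * s * d) / d = B / d + 2 * s := by field_simp
    rw [e4] at e3
    exact e3
  have hjR : -(R : ℤ) ≤ j ∧ j ≤ R := by
    have h2 := abs_lt.1 (lt_of_le_of_lt hjabs hR)
    have h3 : (j : ℝ) < ((R + 1 : ℤ) : ℝ) := by push_cast; exact h2.2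
    have h4 : ((-(R + 1) : ℤ) : ℝ) < j := by push_cast; linarith [h2.1]
    have h5 : j < (R : ℤ) + 1 := by exact_mod_cast h3
    have h6 : -((R : ℤ) + 1) < j := by exact_mod_cast h4
    omega
  have ht : (h, (r : ℤ) + j * (d : ℤ)) ∈ forms d H R :=
    mem_forms.2 ⟨(h, r), hh, j, hjR.1, hjR.2, rfl⟩
  have hbig := hsm _ ht
  simp only at hbig
  rw [← hnj] at hbig
  have hnat : P < (n.natAbs : ℝ) := by
    rw [Nat.cast_natAbs, Int.cast_abs]
    exact hbig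
  by_cases hcop : IsCoprime (h : ℤ) ((r : ℤ) + j * (d : ℤ))
  · obtain ⟨p, hpp, hpP, hpd⟩ := hcov _ (Finset.mem_filter.2 ⟨ht, hcop⟩)
    simp only at hpd
    rw [← hnj] at hpd
    have h1 : p ∣ n.natAbs := Int.natCast_dvd.1 hpd
    have h2 := (Nat.prime_dvd_prime_iff_eq hpp hp).1 h1
    rw [← h2] at hnat
    linarith
  · rw [Int.isCoprime_iff_gcd_eq_one] at hcop
    obtain ⟨q, hq, hqd⟩ := Nat.exists_prime_and_dvd hcop
    have hq1 : (q : ℤ) ∣ (h : ℤ) := (Int.natCast_dvd_natCast.2 hqd).trans (Int.gcd_dvd_left _ _)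
    have hq2 : (q : ℤ) ∣ (r : ℤ) + j * (d : ℤ) :=
      (Int.natCast_dvd_natCast.2 hqd).trans (Int.gcd_dvd_right _ _)
    have hq3 : (q : ℤ) ∣ n := by
      rw [hnj]
      exact dvd_add (hq1.mul_right _) hq2
    have h1 : q ∣ n.natAbs := Int.natCast_dvd.1 hq3
    have h2 := (Nat.prime_dvd_prime_iff_eq hq hp).1 h1
    rw [← h2] at hnat
    have h3 : q ≤ h := Nat.le_of_dvd (by omega) (by exact_mod_cast hq1)
    have h4 : (q : ℝ) ≤ h := by exact_mod_cast h3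
    linarith

lemma s4_ev (C₆ c₂ : ℝ) (hc : 0 < c₂) : ∀ᶠ l : ℝ in atTop, 20 ≤ l ∧
    2 * C₆ * l ^ 2 * Real.exp (l / 2) ≤ Real.exp l / 32 ∧
    24 * l ≤ 160 * c₂ * Real.exp (l / 2) ∧
    6 * (Real.exp l) ^ 2 * Real.exp (Real.exp l / 10) ≤ Real.exp (Real.exp l / 8) := by
  have h2 := (Real.tendsto_exp_div_pow_atTop 1).comp
    (tendsto_id.atTop_div_const (show (0:ℝ) < 2 by norm_num)) |>.eventually_ge_atTop
      (1 / c₂)
  filter_upwards [d3_ev 0 C₆, h2, eventually_ge_atTop 20] with l a1 a2 a3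
  obtain ⟨b1, b2, _, _, b5, _⟩ := a1
  refine ⟨b1, b2, ?_, b5⟩
  simp only [Function.comp, id, pow_one] at a2
  rw [div_le_div_iff₀ hc (by linarith)] at a2
  linarith

end Run7.h294.S
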