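import Pool.Agent.H262R4.FR.W1
import Pool.Agent.H262R4.FR.W2
import Pool.Agent.H442R2.KF.Kfb

set_option autoImplicit false

/-! Incomplete Kloosterman sums to arbitrary moduli `q = u v`, `v` squarefree and coprime to `u`, with
loss `√u`, from Weil's bound for squarefree moduli (`Pool.Agent.H262R4.FR.t_W1`). -/

namespace Run7.h294

open Finset
open Pool.Agent.H442R2.KF
open Pool.Agent.H442R2.KF.TaskA
open Pool.Agent.H262R4.FR.TW2 (W1c)

/-- Kloosterman fractions along a progression -/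
theorem kf_prog (B : ℤ) (u v n0 m c : ℕ) (y : ℤ) (hv : 0 < v)
    (hy : (((u : ℤ) * y : ℤ) : ZMod v) = 1)
    (hc : (((u : ℤ) * c : ℤ) : ZMod v) = ((n0 : ℤ) : ZMod v))
    (hcop : Nat.Coprime (n0 + u * m) v) :
    kf B (((n0 + u * m : ℕ) : ℤ) * u) v = kf (B * y ^ 2) ((c + m : ℕ) : ℤ) v := by
  have hcz : IsCoprime ((n0 + u * m : ℕ) : ℤ) (v : ℤ) := Nat.isCoprime_iff_coprime.2 hcop
  obtain ⟨x, hx, -⟩ := unit_inv v hv _ hcz
  push_cast at hy hc hx
  have e1 : ((((n0 + u * m : ℕ) : ℤ) * u * (x * y) : ℤ) : ZMod v) = 1 := by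
    push_cast
    calc ((n0 : ZMod v) + u * m) * u * (x * y) = (((n0 : ZMod v) + u * m) * x) * (u * y) := by ring
      _ = 1 := by rw [hx, hy, one_mul]
  have e2 : ((((c + m : ℕ) : ℤ) * (u * x) : ℤ) : ZMod v) = 1 := by
    push_cast
    calc ((c : ZMod v) + m) * (u * x) = ((u : ZMod v) * c + u * m) * x := by ring
      _ = 1 := by rw [hc, hx]
  rw [kf_of_inv v hv _ _ _ e1, kf_of_inv v hv _ _ _ e2]
  have e3 : ((B * (x * y) : ℤ) : ZMod v) = ((B * y ^ 2 * (u * x) : ℤ) : ZMod v) := by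
    push_cast
    calc (B : ZMod v) * (x * y) = B * (x * y) * 1 := by ring
      _ = B * (x * y) * (u * y) := by rw [hy]
      _ = _ := by ring
  have e4 := e_zmod v hv _ _ e3
  push_cast at e4 ⊢
  exact e4

theorem one_class (ε C : ℝ) (hC : 0 ≤ C) (hW : W1c ε C) (u v A1 A2 n0 : ℕ) (B : ℤ)
    (Ω : ℝ → ℂ) (Λ : ℝ) (hu : 0 < u) (huv : Nat.Coprime u v) (hv : Squarefree v) (hB : B ≠ 0)
    (hA : A1 ≤ A2) (hΛ : 0 ≤ Λ) (hn0 : n0 < u)
    (hΩ : ∀ s ∈ Set.Icc (A1 : ℝ) A2, ‖Ω s‖ ≤ 1)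
    (hΩ2 : ∀ s ∈ Set.Icc (A1 : ℝ) A2, ∀ s' ∈ Set.Icc (A1 : ℝ) A2, ‖Ω s - Ω s'‖ ≤ Λ * |s - s'|) :
    ‖∑ n ∈ ((Icc A1 A2).filter (fun n => Nat.Coprime n (u * v))).filter (fun n => n % u = n0),
      Ω n * kf B (n : ℤ) (u * v)‖ ≤
      C * (v : ℝ) ^ ε * (1 + Λ * ((A2 : ℝ) - A1)) *
        (Real.sqrt v + (((A2 : ℝ) - A1) / u + 1) * Real.sqrt ((Int.gcd B v : ℝ) / v)) := by
  have hv0 : 0 < v := Nat.pos_of_ne_zero hv.ne_zero
  have huR : (0 : ℝ) < u := by exact_mod_cast hu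
  have hAR : (A1 : ℝ) ≤ A2 := by exact_mod_cast hA
  have hA0 : 0 ≤ (A2 : ℝ) - A1 := by linarith
  have hRnn : 0 ≤ C * (v : ℝ) ^ ε * (1 + Λ * ((A2 : ℝ) - A1)) *
        (Real.sqrt v + (((A2 : ℝ) - A1) / u + 1) * Real.sqrt ((Int.gcd B v : ℝ) / v)) := by
    positivity
  -- the interval of `m`
  obtain ⟨m1, hm1⟩ : ∃ m1 : ℕ, m1 = (A1 + (u - 1) - n0) / u := ⟨_, rfl⟩
  obtain ⟨m2, hm2⟩ : ∃ m2 : ℕ, m2 = (A2 - n0) / u := ⟨_, rfl⟩
  have h1 : ∀ m : ℕ, m1 ≤ m ↔ A1 ≤ n0 + u * m := by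
    intro m
    rw [hm1, Nat.div_le_iff_le_mul_add_pred hu]
    omega
  by_cases hA2 : n0 ≤ A2
  swap
  · have : ((Icc A1 A2).filter (fun n => Nat.Coprime n (u * v))).filter (fun n => n % u = n0) =
        ∅ := by
      rw [Finset.filter_eq_empty_iff]
      intro n hn hn'
      rw [mem_filter, mem_Icc] at hn
      have := Nat.mod_le n u
      omega
    rw [this, Finset.sum_empty, norm_zero]
    exact hRnn
  have h2 : ∀ m : ℕ, m ≤ m2 ↔ n0 + u * m ≤ A2 := by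
    intro m
    rw [hm2, Nat.le_div_iff_mul_le hu, mul_comm m u]
    omega
  by_cases hcop0 : Nat.Coprime n0 u
  swap
  · have : ((Icc A1 A2).filter (fun n => Nat.Coprime n (u * v))).filter (fun n => n % u = n0) =
        ∅ := by
      rw [Finset.filter_eq_empty_iff]
      intro n hn hn'
      rw [mem_filter, mem_Icc] at hn
      apply hcop0
      have h3 : Nat.Coprime n u := hn.2.coprime_mul_right_right
      rw [← hn']
      unfold Nat.Coprime at h3 ⊢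
      rw [← Nat.gcd_rec, Nat.gcd_comm]
      exact h3
    rw [this, Finset.sum_empty, norm_zero]
    exact hRnn
  -- inverse of `u`
  have hcz : IsCoprime (u : ℤ) (v : ℤ) := Nat.isCoprime_iff_coprime.2 huv
  obtain ⟨y0, hy0, -⟩ := unit_inv v hv0 _ hcz
  obtain ⟨y, hy, hyne⟩ : ∃ y : ℤ, (((u : ℤ) * y : ℤ) : ZMod v) = 1 ∧ y ≠ 0 := by
    by_cases hz : y0 = 0
    · refine ⟨y0 + v, ?_, ?_⟩
      · rw [← hy0]; push_cast; simp
      · rw [hz, zero_add]; exact_mod_cast hv0.ne'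
    · exact ⟨y0, hy0, hz⟩
  obtain ⟨c, hc⟩ : ∃ c : ℕ, (((u : ℤ) * c : ℤ) : ZMod v) = ((n0 : ℤ) : ZMod v) := by
    have : NeZero v := ⟨hv0.ne'⟩
    refine ⟨((((n0 : ℤ) * y : ℤ) : ZMod v)).val, ?_⟩
    push_cast at hy ⊢
    rw [ZMod.natCast_zmod_val]
    calc (u : ZMod v) * (n0 * y) = n0 * (u * y) := by ring
      _ = n0 := by rw [hy, mul_one]
  have hcopy : IsCoprime y (v : ℤ) := by
    have h3 : (v : ℤ) ∣ (u : ℤ) * y - 1 := by
      rw [← ZMod.intCast_zmod_eq_zero_iff_dvd, Int.cast_sub, hy, Int.cast_one, sub_self]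
    obtain ⟨z, hz⟩ := h3
    refine ⟨u, -z, ?_⟩
    linear_combination hz
  have hgcd : Int.gcd (B * y ^ 2) (v : ℤ) = Int.gcd B v := by
    have h3 : Nat.Coprime (y ^ 2).natAbs v := by
      have := Int.isCoprime_iff_gcd_eq_one.1 (hcopy.pow_left (m := 2))
      exact this
    show Nat.gcd (B * y ^ 2).natAbs v = Nat.gcd B.natAbs v
    rw [Int.natAbs_mul]
    exact Nat.Coprime.gcd_mul_right_cancel _ h3
  have hcc : ∀ m : ℕ, Nat.Coprime (n0 + u * m) (u * v) ↔ Nat.Coprime (c + m) v := by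
    intro m
    have h3 : ((n0 + u * m : ℕ) : ZMod v) = ((u * (c + m) : ℕ) : ZMod v) := by
      push_cast at hc ⊢
      rw [← hc]; ring
    have h4 : Nat.Coprime (n0 + u * m) v ↔ Nat.Coprime (c + m) v := by
      rw [← ZMod.isUnit_iff_coprime, ← ZMod.isUnit_iff_coprime, h3]
      have h5 : IsUnit ((u : ℕ) : ZMod v) := (ZMod.isUnit_iff_coprime u v).2 huv
      push_cast
      constructor
      · intro h6
        exact isUnit_of_mul_isUnit_right h6
      · intro h6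
        exact h5.mul h6
    have h5 : Nat.Coprime (n0 + u * m) u := by
      rw [Nat.coprime_add_mul_left_left]
      exact hcop0
    rw [Nat.coprime_mul_iff_right, h4]
    exact and_iff_right h5
  by_cases hm12 : m1 ≤ m2
  swap
  · have : ((Icc A1 A2).filter (fun n => Nat.Coprime n (u * v))).filter (fun n => n % u = n0) =
        ∅ := by
      rw [Finset.filter_eq_empty_iff]
      intro n hn hn'
      rw [mem_filter, mem_Icc] at hn
      have h3 := Nat.mod_add_div n u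
      rw [hn'] at h3
      have h4 := (h1 (n / u)).2 (by omega)
      have h5 := (h2 (n / u)).2 (by omega)
      omega
    rw [this, Finset.sum_empty, norm_zero]
    exact hRnn
  have hsum : ∑ n ∈ ((Icc A1 A2).filter (fun n => Nat.Coprime n (u * v))).filter
      (fun n => n % u = n0), Ω n * kf B (n : ℤ) (u * v) =
      kf B ((n0 : ℤ) * v) u * ∑ n ∈ (Icc (c + m1) (c + m2)).filter (fun n => Nat.Coprime n v),
        (fun x : ℝ => Ω ((n0 : ℝ) + u * (x - c))) n * kf (B * y ^ 2) (n : ℤ) v := by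
    rw [Finset.mul_sum]
    refine Finset.sum_nbij' (fun n => c + n / u) (fun n => n0 + u * (n - c)) ?_ ?_ ?_ ?_ ?_
    · intro n hn
      rw [mem_filter, mem_filter, mem_Icc] at hn
      have h3 := Nat.mod_add_div n u
      rw [hn.2] at h3
      have h4 := (h1 (n / u)).2 (by omega)
      have h5 := (h2 (n / u)).2 (by omega)
      rw [mem_filter, mem_Icc]
      refine ⟨by omega, ?_⟩
      rw [← hcc, h3]
      exact hn.1.2
    · intro n hn
      rw [mem_filter, mem_Icc] at hn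
      obtain ⟨⟨h3, h4⟩, h5⟩ := hn
      have h6 := (h1 (n - c)).1 (by omega)
      have h7 := (h2 (n - c)).1 (by omega)
      rw [mem_filter, mem_filter, mem_Icc]
      refine ⟨⟨⟨h6, h7⟩, ?_⟩, ?_⟩
      · rw [hcc]
        have : c + (n - c) = n := by omega
        rwa [this]
      · rw [Nat.add_mul_mod_self_left]
        exact Nat.mod_eq_of_lt hn0
    · intro n hn
      rw [mem_filter, mem_filter, mem_Icc] at hn
      have h3 := Nat.mod_add_div n u
      rw [hn.2] at h3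
      show n0 + u * (c + n / u - c) = n
      rw [Nat.add_sub_cancel_left]
      exact h3
    · intro n hn
      rw [mem_filter, mem_Icc] at hn
      show c + (n0 + u * (n - c)) / u = n
      rw [Nat.add_mul_div_left _ _ hu, Nat.div_eq_of_lt hn0]
      omega
    · intro n hn
      rw [mem_filter, mem_filter, mem_Icc] at hn
      obtain ⟨⟨⟨h6, h7⟩, h8⟩, h9⟩ := hn
      have h3 := Nat.mod_add_div n u
      rw [h9] at h3
      have h10 : Nat.Coprime (n0 + u * (n / u)) v := by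
        rw [h3]; exact h8.coprime_mul_left_right
      have e1 : kf B (n : ℤ) (u * v) = kf B ((n : ℤ) * v) u * kf B ((n : ℤ) * u) v :=
        kf_crt B n u v hu hv0 huv (by
          have := h8
          unfold Nat.Coprime at this
          rw [← Int.gcd_natCast_natCast] at this
          exact_mod_cast this)
      have e2 : kf B ((n : ℤ) * v) u = kf B ((n0 : ℤ) * v) u := by
        apply kf_congr u hu _ _ _ _ rfl
        have h11 : ((n : ℕ) : ZMod u) = ((n0 : ℕ) : ZMod u) := by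
          rw [← h3]; push_cast; simp
        push_cast
        rw [h11]
      have e3 := kf_prog B u v n0 (n / u) c y hv0 hy hc h10
      rw [h3] at e3
      rw [e1, e2, e3]
      have e4 : (n0 : ℝ) + u * (((c + n / u : ℕ) : ℝ) - c) = n := by
        have h12 : ((n0 + u * (n / u) : ℕ) : ℝ) = n := by rw [h3]
        push_cast at h12 ⊢
        linarith
      simp only [e4]
      ring
  rw [hsum, norm_mul, norm_kf, one_mul]
  have hlow : ((n0 + u * m1 : ℕ) : ℝ) ≥ A1 := by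
    have := (h1 m1).1 le_rfl
    exact_mod_cast this
  have hhigh : ((n0 + u * m2 : ℕ) : ℝ) ≤ A2 := by
    have := (h2 m2).1 le_rfl
    exact_mod_cast this
  push_cast at hlow hhigh
  have hmap : ∀ s ∈ Set.Icc ((c + m1 : ℕ) : ℝ) ((c + m2 : ℕ) : ℝ),
      (n0 : ℝ) + u * (s - c) ∈ Set.Icc (A1 : ℝ) A2 := by
    intro s hs
    have h3 := hs.1
    have h4 := hs.2
    push_cast at h3 h4
    constructor
    · have : (u : ℝ) * m1 ≤ u * (s - c) := by
        apply mul_le_mul_of_nonneg_left _ huR.le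
        linarith
      linarith
    · have : (u : ℝ) * (s - c) ≤ u * m2 := by
        apply mul_le_mul_of_nonneg_left _ huR.le
        linarith
      linarith
  have hB' : B * y ^ 2 ≠ 0 := mul_ne_zero hB (pow_ne_zero 2 hyne)
  have hfin := hW v (c + m1) (c + m2) (B * y ^ 2) (fun x : ℝ => Ω ((n0 : ℝ) + u * (x - c)))
    (u * Λ) hv hB' (by omega) (by positivity) (fun s hs => hΩ _ (hmap s hs)) (by
      intro s hs s' hs'
      refine (hΩ2 _ (hmap s hs) _ (hmap s' hs')).trans (le_of_eq ?_)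
      have e1 : (n0 : ℝ) + u * (s - c) - (n0 + u * (s' - c)) = u * (s - s') := by ring
      rw [e1, abs_mul, abs_of_pos huR]
      ring)
  refine hfin.trans ?_
  rw [hgcd]
  have hm12R : (m1 : ℝ) ≤ m2 := by exact_mod_cast hm12
  have h3 : (u : ℝ) * ((m2 : ℝ) - m1) ≤ (A2 : ℝ) - A1 := by
    have : (u : ℝ) * ((m2 : ℝ) - m1) = (n0 + u * m2) - (n0 + u * m1) := by ring
    rw [this]; linarith
  have h4 : (m2 : ℝ) - m1 ≤ ((A2 : ℝ) - A1) / u := by
    rw [le_div_iff₀ huR]; linarith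
  have h5 : ((c + m2 : ℕ) : ℝ) - ((c + m1 : ℕ) : ℝ) = (m2 : ℝ) - m1 := by push_cast; ring
  rw [h5]
  have h6 : (u : ℝ) * Λ * ((m2 : ℝ) - m1) ≤ Λ * ((A2 : ℝ) - A1) := by
    calc (u : ℝ) * Λ * ((m2 : ℝ) - m1) = Λ * (u * ((m2 : ℝ) - m1)) := by ring
      _ ≤ _ := by gcongr
  have h7 : 0 ≤ (m2 : ℝ) - m1 := by linarith
  have h8 : 0 ≤ (u : ℝ) * Λ * ((m2 : ℝ) - m1) := by positivity
  gcongr

/-- incomplete Kloosterman sums modulo `u v` -/
theorem W1g (ε C : ℝ) (hC : 0 ≤ C) (hW : W1c ε C) (u v A1 A2 : ℕ) (B : ℤ)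
    (Ω : ℝ → ℂ) (Λ : ℝ) (hu : 0 < u) (huv : Nat.Coprime u v) (hv : Squarefree v) (hB : B ≠ 0)
    (hA : A1 ≤ A2) (hΛ : 0 ≤ Λ)
    (hΩ : ∀ s ∈ Set.Icc (A1 : ℝ) A2, ‖Ω s‖ ≤ 1)
    (hΩ2 : ∀ s ∈ Set.Icc (A1 : ℝ) A2, ∀ s' ∈ Set.Icc (A1 : ℝ) A2, ‖Ω s - Ω s'‖ ≤ Λ * |s - s'|) :
    ‖∑ n ∈ (Icc A1 A2).filter (fun n => Nat.Coprime n (u * v)), Ω n * kf B (n : ℤ) (u * v)‖ ≤
      C * (v : ℝ) ^ ε * (1 + Λ * ((A2 : ℝ) - A1)) *
        (2 * (u * Real.sqrt v) + ((A2 : ℝ) - A1) * Real.sqrt ((Int.gcd B v : ℝ) / v)) := by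
  have hv0 : 0 < v := Nat.pos_of_ne_zero hv.ne_zero
  have hvR : (1 : ℝ) ≤ v := by exact_mod_cast hv0
  have huR : (0 : ℝ) < u := by exact_mod_cast hu
  have hAR : (A1 : ℝ) ≤ A2 := by exact_mod_cast hA
  have hA0 : 0 ≤ (A2 : ℝ) - A1 := by linarith
  have h1 : ∑ n ∈ (Icc A1 A2).filter (fun n => Nat.Coprime n (u * v)),
      Ω n * kf B (n : ℤ) (u * v) = ∑ n0 ∈ range u,
      ∑ n ∈ ((Icc A1 A2).filter (fun n => Nat.Coprime n (u * v))).filter (fun n => n % u = n0),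
      Ω n * kf B (n : ℤ) (u * v) := by
    rw [Finset.sum_fiberwise_of_maps_to]
    intro n _
    rw [Finset.mem_range]
    exact Nat.mod_lt _ hu
  rw [h1]
  have h2 : ∀ n0 ∈ range u, ‖∑ n ∈ ((Icc A1 A2).filter (fun n => Nat.Coprime n (u * v))).filter
      (fun n => n % u = n0), Ω n * kf B (n : ℤ) (u * v)‖ ≤
      C * (v : ℝ) ^ ε * (1 + Λ * ((A2 : ℝ) - A1)) *
        (Real.sqrt v + (((A2 : ℝ) - A1) / u + 1) * Real.sqrt ((Int.gcd B v : ℝ) / v)) := by
    intro n0 hn0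
    rw [Finset.mem_range] at hn0
    exact one_class ε C hC hW u v A1 A2 n0 B Ω Λ hu huv hv hB hA hΛ hn0 hΩ hΩ2
  refine (norm_sum_le_of_le _ h2).trans ?_
  rw [Finset.sum_const, Finset.card_range, nsmul_eq_mul]
  have h3 : Real.sqrt ((Int.gcd B v : ℝ) / v) ≤ 1 := by
    rw [Real.sqrt_le_one, div_le_one (by linarith)]
    have : Int.gcd B v ≤ v := Nat.le_of_dvd hv0 (Nat.gcd_dvd_right _ _)
    exact_mod_cast this
  have h4 : 1 ≤ Real.sqrt v := Real.one_le_sqrt.2 hvR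
  have h5 : 0 ≤ Real.sqrt ((Int.gcd B v : ℝ) / v) := Real.sqrt_nonneg _
  have e1 : (u : ℝ) * (C * (v : ℝ) ^ ε * (1 + Λ * ((A2 : ℝ) - A1)) *
        (Real.sqrt v + (((A2 : ℝ) - A1) / u + 1) * Real.sqrt ((Int.gcd B v : ℝ) / v))) =
      C * (v : ℝ) ^ ε * (1 + Λ * ((A2 : ℝ) - A1)) *
        (u * Real.sqrt v + u * Real.sqrt ((Int.gcd B v : ℝ) / v) +
          ((A2 : ℝ) - A1) * Real.sqrt ((Int.gcd B v : ℝ) / v)) := by
    have e2 : (u : ℝ) * (((A2 : ℝ) - A1) / u) = (A2 : ℝ) - A1 := by field_simp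
    calc (u : ℝ) * (C * (v : ℝ) ^ ε * (1 + Λ * ((A2 : ℝ) - A1)) *
        (Real.sqrt v + (((A2 : ℝ) - A1) / u + 1) * Real.sqrt ((Int.gcd B v : ℝ) / v)))
        = C * (v : ℝ) ^ ε * (1 + Λ * ((A2 : ℝ) - A1)) *
        (u * Real.sqrt v + u * Real.sqrt ((Int.gcd B v : ℝ) / v) +
          ((u : ℝ) * (((A2 : ℝ) - A1) / u)) * Real.sqrt ((Int.gcd B v : ℝ) / v)) := by ring
      _ = _ := by rw [e2]
  rw [e1]
  have h6 : (u : ℝ) * Real.sqrt ((Int.gcd B v : ℝ) / v) ≤ u * Real.sqrt v := by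
    exact mul_le_mul_of_nonneg_left (by linarith) huR.le
  refine mul_le_mul_of_nonneg_left ?_ (by positivity)
  linarith

end Run7.h294
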